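import Pool.Agent.H366.NK.Pack

/-! # [CNT] the number of frequencies in an arc -/

set_option autoImplicit false

namespace Pool.Agent.H366.NK

open NumberField
open Pool.Agent.H366.GF (Ex ExC)
open Pool.Agent.H366.ZC (e)

variable {K : Type} [Field K] [NumberField K]

namespace CntN

theorem trace_dual (i j : JJ K) :
    Algebra.trace ℚ K (dual K i * (om K j : K)) = if j = i then 1 else 0 := by
  have h := LinearMap.BilinForm.apply_dualBasis_left (B := Algebra.traceForm ℚ K)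
    (traceForm_nondegenerate ℚ K) (integralBasis K) i j
  rw [Algebra.traceForm_apply, integralBasis_apply] at h
  exact h

/-- the element of `DD K` with given integral coordinates -/
theorem exists_dl (m : JJ K → ℤ) :
    ∃ n ∈ DD K, ∀ j, tr (n * (om K j : K)) = (m j : ℝ) := by
  have key : ∀ j, tr ((∑ i, ((m i : ℤ) : ℚ) • dual K i) * (om K j : K)) = (m j : ℝ) := by
    intro j
    unfold tr
    rw [Finset.sum_mul, map_sum]
    have : ∀ i, Algebra.trace ℚ K (((m i : ℤ) : ℚ) • dual K i * (om K j : K)) =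
        if j = i then ((m i : ℤ) : ℚ) else 0 := by
      intro i
      rw [smul_mul_assoc, map_smul, trace_dual]
      split_ifs <;> simp
    rw [Finset.sum_congr rfl fun i _ => this i, Finset.sum_ite_eq]
    simp
  exact ⟨_, (mem_DD_iff _).2 fun j => ⟨m j, key j⟩, key⟩

theorem w_add_le (w : InfinitePlace K) (x y : K) : w (x + y) ≤ w x + w y := w.1.add_le x y

theorem w_sub_le (w : InfinitePlace K) (x y : K) : w (x - y) ≤ w x + w y := by
  have h := w_add_le w x (-y)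
  have h2 : w (-y) = w y := w.1.map_neg y
  rw [h2] at h
  rwa [sub_eq_add_neg]

theorem w_nonneg (w : InfinitePlace K) (x : K) : 0 ≤ w x := w.1.nonneg x

/-- `P (β - β')` is in the dual lattice -/
theorem keyP {c : ℕ} (hc : Cst K c) {T Y ρ : ℕ} {P : 𝓞 K} (hT : 0 < T) (hY : 0 < Y)
    (hρY : 2 ^ (2 * c + 4) * ρ ^ 2 ≤ Y)
    (hPT : ∀ w : InfinitePlace K, 2 ^ (2 * c + 4) * (ρ : ℝ) ^ 2 * w (P : K) ≤ T)
    {α α' : K} {r r' : 𝓞 K} {b b' : K} (hb : b ∈ DD K) (hb' : b' ∈ DD K) (hr0 : r ≠ 0)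
    (hr0' : r' ≠ 0) (hr : ∀ w : InfinitePlace K, w (r : K) ≤ ρ)
    (hr' : ∀ w : InfinitePlace K, w (r' : K) ≤ ρ)
    (h : ∀ w : InfinitePlace K, w ((r : K) * α - b) ≤ (ρ : ℝ) / T)
    (h' : ∀ w : InfinitePlace K, w ((r' : K) * α' - b') ≤ (ρ : ℝ) / T) {θ : JJ K → ℝ}
    (hθ : ∀ j, ∃ n : ℤ, |tr (α * (P : K) * (om K j : K)) - θ j - n| ≤ 1 / (Y : ℝ))
    (hθ' : ∀ j, ∃ n : ℤ, |tr (α' * (P : K) * (om K j : K)) - θ j - n| ≤ 1 / (Y : ℝ)) :
    ∃ n ∈ DD K, (∀ w : InfinitePlace K, w ((P : K) * (α - α') - n) ≤ 2 ^ (c + 1) / (Y : ℝ)) ∧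
      (P : K) * (b / (r : K) - b' / (r' : K)) = n := by
  choose m hm using hθ
  choose m' hm' using hθ'
  obtain ⟨n, hn, hnj⟩ := exists_dl (K := K) (fun j => m j - m' j)
  have hY' : (0 : ℝ) < Y := by exact_mod_cast hY
  have hT' : (0 : ℝ) < T := by exact_mod_cast hT
  have hρ0 : (0 : ℝ) ≤ ρ := Nat.cast_nonneg _
  have h1 : ∀ w : InfinitePlace K, w ((P : K) * (α - α') - n) ≤ 2 ^ (c + 1) / (Y : ℝ) := by
    have h2 := hc.place_le_tr ((P : K) * (α - α') - n) (2 / Y) (fun j => by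
      have e1 : tr (((P : K) * (α - α') - n) * (om K j : K)) =
          (tr (α * (P : K) * (om K j : K)) - θ j - m j) -
          (tr (α' * (P : K) * (om K j : K)) - θ j - m' j) := by
        have e2 : ((P : K) * (α - α') - n) * (om K j : K) =
            (α * (P : K) * (om K j : K) - α' * (P : K) * (om K j : K)) - n * (om K j : K) := by
          ring
        rw [e2, tr_sub, tr_sub, hnj]
        push_cast
        ring
      rw [e1]
      refine (abs_sub _ _).trans ?_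
      have := add_le_add (hm j) (hm' j)
      refine this.trans (le_of_eq ?_)
      ring)
    intro w
    refine (h2 w).trans (le_of_eq ?_)
    rw [pow_succ]
    ring
  refine ⟨n, hn, h1, ?_⟩
  have hrK : (r : K) ≠ 0 := by simpa using hr0
  have hrK' : (r' : K) ≠ 0 := by simpa using hr0'
  -- the element `u`
  have hu : (r : K) * (r' : K) * ((P : K) * (b / (r : K) - b' / (r' : K)) - n) = 0 := by
    have e1 : (r : K) * (r' : K) * ((P : K) * (b / (r : K) - b' / (r' : K)) - n) =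
        ((r' * P : 𝓞 K) : K) * b - ((r * P : 𝓞 K) : K) * b' - ((r * r' : 𝓞 K) : K) * n := by
      push_cast
      field_simp
    refine DD_eq_zero hc ?_ ?_
    · rw [e1]
      exact (DD K).sub_mem ((DD K).sub_mem (mul_mem_DD hb _) (mul_mem_DD hb' _))
        (mul_mem_DD hn _)
    · intro w
      have e2 : (r : K) * (r' : K) * ((P : K) * (b / (r : K) - b' / (r' : K)) - n) =
          (r : K) * (r' : K) * ((P : K) * (α - α') - n) -
          ((r' : K) * (P : K) * ((r : K) * α - b) - (r : K) * (P : K) * ((r' : K) * α' - b')) := by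
        field_simp
        ring
      rw [e2]
      have b1 : w ((r : K) * (r' : K) * ((P : K) * (α - α') - n)) ≤
          ρ * ρ * (2 ^ (c + 1) / (Y : ℝ)) := by
        rw [map_mul, map_mul]
        exact mul_le_mul (mul_le_mul (hr w) (hr' w) (w_nonneg w _) hρ0) (h1 w) (w_nonneg w _)
          (by positivity)
      have b2 : w ((r' : K) * (P : K) * ((r : K) * α - b)) ≤ ρ * w (P : K) * (ρ / T) := by
        rw [map_mul, map_mul]
        exact mul_le_mul (mul_le_mul_of_nonneg_right (hr' w) (w_nonneg w _)) (h w) (w_nonneg w _)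
          (mul_nonneg hρ0 (w_nonneg w _))
      have b3 : w ((r : K) * (P : K) * ((r' : K) * α' - b')) ≤ ρ * w (P : K) * (ρ / T) := by
        rw [map_mul, map_mul]
        exact mul_le_mul (mul_le_mul_of_nonneg_right (hr w) (w_nonneg w _)) (h' w) (w_nonneg w _)
          (mul_nonneg hρ0 (w_nonneg w _))
      have b4 := (w_sub_le w ((r : K) * (r' : K) * ((P : K) * (α - α') - n))
          ((r' : K) * (P : K) * ((r : K) * α - b) - (r : K) * (P : K) * ((r' : K) * α' - b'))).trans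
        (add_le_add b1 ((w_sub_le w _ _).trans (add_le_add b2 b3)))
      -- numerics
      have c1 : (2 : ℝ) ^ (2 * c + 4) * ((ρ : ℝ) ^ 2 / Y) ≤ 1 := by
        have : (2 : ℝ) ^ (2 * c + 4) * (ρ : ℝ) ^ 2 ≤ Y := by exact_mod_cast hρY
        rw [← mul_div_assoc, div_le_one hY']
        exact this
      have c2 : (2 : ℝ) ^ (2 * c + 4) * ((ρ : ℝ) ^ 2 * w (P : K) / T) ≤ 1 := by
        rw [← mul_div_assoc, div_le_one hT', ← mul_assoc]
        exact hPT w
      set A : ℝ := (2 : ℝ) ^ c with hA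
      have hA1 : 1 ≤ A := one_le_pow₀ (by norm_num)
      have e3 : (2 : ℝ) ^ (2 * c + 4) = 16 * A ^ 2 := by
        rw [hA, pow_add, mul_comm 2 c, pow_mul]; norm_num; ring
      rw [e3] at c1 c2
      have e4 : (2 : ℝ) ^ (c + 1) = 2 * A := by rw [hA, pow_succ]; ring
      rw [e4] at b4
      set x : ℝ := (ρ : ℝ) ^ 2 / Y with hx
      set y : ℝ := (ρ : ℝ) ^ 2 * w (P : K) / T with hy
      have hx0 : 0 ≤ x := by positivity
      have hy0 : 0 ≤ y := by
        have := w_nonneg w (P : K)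
        positivity
      have e5 : (ρ : ℝ) * ρ * (2 * A / Y) + (ρ * w (P : K) * (ρ / T) + ρ * w (P : K) * (ρ / T)) =
          2 * A * x + 2 * y := by
        rw [hx, hy]
        ring
      rw [e5] at b4
      have hAx : A * (A * x) ≤ 1 / 16 := by nlinarith
      have hAy : A * y ≤ 1 / 16 := by
        have : A * y ≤ A ^ 2 * y := by nlinarith [mul_nonneg (by linarith : (0:ℝ) ≤ A) hy0]
        nlinarith
      have hA0 : 0 < A := by linarith
      calc A * w _ ≤ A * (2 * A * x + 2 * y) := mul_le_mul_of_nonneg_left b4 hA0.le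
        _ = 2 * (A * (A * x)) + 2 * (A * y) := by ring
        _ < 1 := by linarith
  have h5 := mul_eq_zero.1 hu
  rcases h5 with h5 | h5
  · exact absurd h5 (mul_ne_zero hrK hrK')
  · exact sub_eq_zero.1 h5

/-- the denominator of `P β` -/
theorem den_mul_sup (β : K) (P : 𝓞 K) (hP : P ≠ 0) :
    den ((P : K) * β) * (den β ⊔ Ideal.span {P}) = den β := by
  set I := den β with hI
  set G := I ⊔ Ideal.span {P} with hG
  have hPs : Ideal.span {P} ≠ ⊥ := by
    rw [Ne, Ideal.span_singleton_eq_bot]; exact hP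
  have hG0 : G ≠ ⊥ := by
    intro h
    apply hPs
    rw [eq_bot_iff, ← h]
    exact le_sup_right
  obtain ⟨I₁, hI₁⟩ : G ∣ I := Ideal.dvd_iff_le.2 le_sup_left
  obtain ⟨P₁, hP₁⟩ : G ∣ Ideal.span {P} := Ideal.dvd_iff_le.2 le_sup_right
  have hcop : IsCoprime I₁ P₁ := by
    rw [Ideal.isCoprime_iff_sup_eq]
    have h1 : G * (I₁ ⊔ P₁) = G * ⊤ := by
      rw [Ideal.mul_sup, ← hI₁, ← hP₁, Ideal.mul_top]
    exact mul_left_cancel₀ hG0 h1
  have hden : den ((P : K) * β) = I₁ := by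
    ext x
    rw [mem_den]
    have e1 : (x : K) * ((P : K) * β) = ((x * P : 𝓞 K) : K) * β := by push_cast; ring
    rw [e1, ← mem_den, ← hI, ← Ideal.dvd_span_singleton, ← Ideal.span_singleton_mul_span_singleton,
      ← Ideal.dvd_span_singleton, hI₁, hP₁]
    constructor
    · intro h
      have h2 : G * I₁ ∣ G * (Ideal.span {x} * P₁) := by
        rw [mul_left_comm]; exact h
      have h3 := (mul_dvd_mul_iff_left hG0).1 h2
      exact hcop.dvd_of_dvd_mul_right h3
    · intro h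
      rw [mul_left_comm]
      exact mul_dvd_mul_left _ (h.mul_right _)
  rw [hden, mul_comm, ← hI₁]

theorem den_congr {x y : K} (h : x - y ∈ DD K) : den x = den y := by
  ext z
  rw [mem_den, mem_den]
  have h1 : (z : K) * x = (z : K) * y + (z : K) * (x - y) := by ring
  rw [h1]
  constructor
  · intro h2
    have := (DD K).sub_mem h2 (mul_mem_DD h z)
    rwa [add_sub_cancel_right] at this
  · intro h2
    exact (DD K).add_mem h2 (mul_mem_DD h z)

theorem w_natCast (w : InfinitePlace K) (n : ℕ) : w ((n : ℕ) : K) = (n : ℝ) := by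
  rw [← InfinitePlace.norm_embedding_eq, map_natCast]
  exact Complex.norm_natCast n

/-- frequencies with the same class of `β` -/
theorem fib_le {c C₁ : ℕ} (hC₁ : ∀ b : InfinitePlace K → ℝ,
    (∀ w, 1 ≤ b w) → ∀ A : Finset K,
    (∀ x ∈ A, ∀ y ∈ A, x - y ∈ DD K ∧ ∀ w : InfinitePlace K, w (x - y) ≤ b w) →
    (A.card : ℝ) ≤ 2 ^ C₁ * ∏ w : InfinitePlace K, b w ^ w.mult) {T Y : ℕ} {P : 𝓞 K}
    (hT : 0 < T) (hY : 0 < Y) (hP : P ≠ 0) (S : Finset (JJ K → Fin T)) (β : (JJ K → Fin T) → K)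
    (h : ∀ a ∈ S, ∀ a' ∈ S, β a - β a' ∈ DD K ∧ ∀ w : InfinitePlace K,
      w ((P : K) * (fr T a - fr T a') - (P : K) * (β a - β a')) ≤ 2 ^ (c + 1) / (Y : ℝ)) :
    (S.card : ℝ) ≤ 2 ^ (C₁ + (c + 1) * DK K) *
      ∏ w : InfinitePlace K, (max 1 ((T : ℝ) / (Y * w (P : K)))) ^ w.mult := by
  classical
  have hY' : (0 : ℝ) < Y := by exact_mod_cast hY
  have hT' : (0 : ℝ) < T := by exact_mod_cast hT
  have hPK : (P : K) ≠ 0 := by simpa using hP
  have hwP : ∀ w : InfinitePlace K, 0 < w (P : K) := fun w => by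
    rw [InfinitePlace.pos_iff]; exact hPK
  have hTK : (T : K) ≠ 0 := by exact_mod_cast hT.ne'
  set η : (JJ K → Fin T) → K := fun a => (T : K) * (fr T a - β a) with hη
  have hinj : Set.InjOn η S := by
    intro a ha a' ha' he
    have h1 : fr T a - β a = fr T a' - β a' := mul_left_cancel₀ hTK he
    apply fr_inj T a a'
    have h2 : fr T a - fr T a' = β a - β a' := by linear_combination h1
    rw [h2]
    exact (h a ha a' ha').1
  rw [← Finset.card_image_of_injOn hinj]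
  set b : InfinitePlace K → ℝ := fun w => max 1 (2 ^ (c + 1) * (T : ℝ) / (Y * w (P : K))) with hb
  have h1 := hC₁ b (fun w => le_max_left _ _) (S.image η) (by
    intro x hx y hy
    obtain ⟨a, ha, rfl⟩ := Finset.mem_image.1 hx
    obtain ⟨a', ha', rfl⟩ := Finset.mem_image.1 hy
    constructor
    · have e1 : η a - η a' = ((T : K) * fr T a - (T : K) * fr T a') -
          (((T : ℕ) : 𝓞 K) : K) * (β a - β a') := by
        simp only [hη]
        push_cast
        ring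
      rw [e1]
      exact (DD K).sub_mem ((DD K).sub_mem (fr_mem T hT a) (fr_mem T hT a'))
        (mul_mem_DD (h a ha a' ha').1 _)
    · intro w
      refine le_trans ?_ (le_max_right _ _)
      rw [le_div_iff₀ (mul_pos hY' (hwP w))]
      have h2 := (h a ha a' ha').2 w
      rw [le_div_iff₀ hY'] at h2
      have e1 : (P : K) * (η a - η a') = (T : K) *
          ((P : K) * (fr T a - fr T a') - (P : K) * (β a - β a')) := by
        simp only [hη]
        ring
      have e2 : w (P : K) * w (η a - η a') = (T : ℝ) *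
          w ((P : K) * (fr T a - fr T a') - (P : K) * (β a - β a')) := by
        rw [← map_mul, e1, map_mul, w_natCast]
      calc w (η a - η a') * ((Y : ℝ) * w (P : K)) = Y * (w (P : K) * w (η a - η a')) := by ring
        _ = (T : ℝ) * (w ((P : K) * (fr T a - fr T a') - (P : K) * (β a - β a')) * Y) := by
          rw [e2]; ring
        _ ≤ (T : ℝ) * 2 ^ (c + 1) := mul_le_mul_of_nonneg_left h2 hT'.le
        _ = 2 ^ (c + 1) * (T : ℝ) := mul_comm _ _)
  refine h1.trans ?_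
  have h2 : ∏ w : InfinitePlace K, b w ^ w.mult ≤
      ∏ w : InfinitePlace K, ((2 : ℝ) ^ (c + 1) * max 1 ((T : ℝ) / (Y * w (P : K)))) ^ w.mult := by
    refine Finset.prod_le_prod (fun w _ => ?_) (fun w _ => ?_)
    · exact pow_nonneg (le_trans zero_le_one (le_max_left _ _)) _
    · refine pow_le_pow_left₀ (le_trans zero_le_one (le_max_left _ _)) ?_ _
      refine max_le ?_ ?_
      · have a1 : (1 : ℝ) ≤ 2 ^ (c + 1) := one_le_pow₀ (by norm_num)
        have a2 : (1 : ℝ) ≤ max 1 ((T : ℝ) / (Y * w (P : K))) := le_max_left _ _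
        nlinarith
      · rw [mul_div_assoc]
        exact mul_le_mul_of_nonneg_left (le_max_right _ _) (by positivity)
  have h3 : ∏ w : InfinitePlace K, ((2 : ℝ) ^ (c + 1) *
      max 1 ((T : ℝ) / (Y * w (P : K)))) ^ w.mult = 2 ^ ((c + 1) * DK K) *
      ∏ w : InfinitePlace K, (max 1 ((T : ℝ) / (Y * w (P : K)))) ^ w.mult := by
    simp only [mul_pow]
    rw [Finset.prod_mul_distrib]
    congr 1
    rw [Finset.prod_pow_eq_pow_sum, sum_mult, ← pow_mul]
  rw [h3] at h2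
  calc (2 : ℝ) ^ C₁ * ∏ w : InfinitePlace K, b w ^ w.mult ≤ 2 ^ C₁ * (2 ^ ((c + 1) * DK K) *
      ∏ w : InfinitePlace K, (max 1 ((T : ℝ) / (Y * w (P : K)))) ^ w.mult) :=
        mul_le_mul_of_nonneg_left h2 (by positivity)
    _ = _ := by rw [pow_add]; ring

/-- the number of classes of the `β` -/
theorem cls_le {T t D₀ : ℕ} {P : 𝓞 K} (hP : P ≠ 0)
    (hfin : {J : Ideal (𝓞 K) | J ∣ Ideal.span {P}}.Finite)
    (hcard : {J : Ideal (𝓞 K) | J ∣ Ideal.span {P}}.ncard ≤ D₀) (S : Finset (JJ K → Fin T))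
    (β : (JJ K → Fin T) → K) (ht : ∀ a ∈ S, (den (β a) ⊔ Ideal.span {P}).absNorm ≤ t)
    (h : ∀ a ∈ S, ∀ a' ∈ S, (P : K) * (β a - β a') ∈ DD K)
    [DecidableEq (Ideal (𝓞 K) × (K ⧸ DD K))] :
    (S.image fun a => ((den (β a) ⊔ Ideal.span {P} : Ideal (𝓞 K)),
      (Submodule.Quotient.mk (β a) : K ⧸ DD K))).card ≤ t * D₀ := by
  classical
  set G : (JJ K → Fin T) → Ideal (𝓞 K) × (K ⧸ DD K) := fun a =>
    ((den (β a) ⊔ Ideal.span {P} : Ideal (𝓞 K)), (Submodule.Quotient.mk (β a) : K ⧸ DD K)) with hG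
  have hPs : Ideal.span {P} ≠ ⊥ := by
    rw [Ne, Ideal.span_singleton_eq_bot]; exact hP
  -- the denominators
  have hden : ∀ a ∈ S, ∀ a' ∈ S, den (β a) ⊔ Ideal.span {P} = den (β a') ⊔ Ideal.span {P} →
      den (β a) = den (β a') := by
    intro a ha a' ha' he
    rw [← den_mul_sup (β a) P hP, ← den_mul_sup (β a') P hP, he]
    have h1 : den ((P : K) * β a) = den ((P : K) * β a') := by
      apply den_congr
      rw [← mul_sub]
      exact h a ha a' ha'
    rw [h1]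
  have hstep : ∀ J ∈ (S.image G).image Prod.fst,
      ((S.image G).filter fun x => x.1 = J).card ≤ t := by
    intro J hJ
    obtain ⟨x₀, hx₀, rfl⟩ := Finset.mem_image.1 hJ
    obtain ⟨a₀, ha₀, rfl⟩ := Finset.mem_image.1 hx₀
    set F := (S.image G).filter fun x => x.1 = (G a₀).1 with hF
    have hrep : ∀ x, ∃ a, x ∈ F → a ∈ S ∧ G a = x := by
      intro x
      by_cases hx : x ∈ F
      · obtain ⟨a, ha, hax⟩ := Finset.mem_image.1 (Finset.mem_filter.1 hx).1
        exact ⟨a, fun _ => ⟨ha, hax⟩⟩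
      · exact ⟨a₀, fun hh => absurd hh hx⟩
    choose rep hrep using hrep
    have hfst : ∀ x ∈ F, (G (rep x)).1 = (G a₀).1 := by
      intro x hx
      rw [(hrep x hx).2]
      exact (Finset.mem_filter.1 hx).2
    set ρ : Ideal (𝓞 K) × (K ⧸ DD K) → K := fun x => β (rep x) - β a₀ with hρ
    have hinj : ∀ x ∈ F, ∀ x' ∈ F, ρ x - ρ x' ∈ DD K → x = x' := by
      intro x hx x' hx' hd
      have e1 : ρ x - ρ x' = β (rep x) - β (rep x') := by simp only [hρ]; ring
      rw [e1] at hd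
      have e2 : (G (rep x)).2 = (G (rep x')).2 := (Submodule.Quotient.eq (DD K)).2 hd
      have e3 : (G (rep x)).1 = (G (rep x')).1 := (hfst x hx).trans (hfst x' hx').symm
      rw [← (hrep x hx).2, ← (hrep x' hx').2]
      exact Prod.ext e3 e2
    have hinj2 : Set.InjOn ρ F := by
      intro x hx x' hx' he
      apply hinj x hx x' hx'
      rw [he, sub_self]
      exact (DD K).zero_mem
    rw [← Finset.card_image_of_injOn hinj2]
    refine le_trans (card_killed (G a₀).1 ?_ (F.image ρ) ?_ ?_) (ht a₀ ha₀)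
    · intro h0
      apply hPs
      rw [eq_bot_iff, ← h0]
      exact le_sup_right
    · intro x hx y hy
      obtain ⟨z, hz, rfl⟩ := Finset.mem_image.1 hx
      have ha := (hrep z hz).1
      have hd := hden (rep z) ha a₀ ha₀ (hfst z hz)
      obtain ⟨u, hu, v, hv, rfl⟩ := Submodule.mem_sup.1 hy
      obtain ⟨v', rfl⟩ := Ideal.mem_span_singleton'.1 hv
      have h1 : (u : K) * β a₀ ∈ DD K := (mem_den _ _).1 hu
      have h2 : (u : K) * β (rep z) ∈ DD K := by
        rw [← hd] at hu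
        exact (mem_den _ _).1 hu
      have h3 := mul_mem_DD (h (rep z) ha a₀ ha₀) v'
      have e1 : ((u + v' * P : 𝓞 K) : K) * ρ z = ((u : K) * β (rep z) - (u : K) * β a₀) +
          (v' : K) * ((P : K) * (β (rep z) - β a₀)) := by
        simp only [hρ]
        push_cast
        ring
      rw [e1]
      exact (DD K).add_mem ((DD K).sub_mem h2 h1) h3
    · intro x hx x' hx' hd
      obtain ⟨z, hz, rfl⟩ := Finset.mem_image.1 hx
      obtain ⟨z', hz', rfl⟩ := Finset.mem_image.1 hx'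
      rw [hinj z hz z' hz' hd]
  have h1 := Finset.card_le_mul_card_image (f := Prod.fst) (S.image G) t hstep
  refine h1.trans (Nat.mul_le_mul_left _ (le_trans ?_ hcard))
  rw [← Set.ncard_coe_finset]
  refine Set.ncard_le_ncard ?_ hfin
  intro J hJ
  obtain ⟨x₀, hx₀, rfl⟩ := Finset.mem_image.1 (Finset.mem_coe.1 hJ)
  obtain ⟨a₀, ha₀, rfl⟩ := Finset.mem_image.1 hx₀
  exact Ideal.dvd_iff_le.2 le_sup_right

end CntN

open CntN

/-- [CNT] -/
theorem card_arc {c : ℕ} (hc : Cst K c) : ∃ C : ℕ, ∀ (T Y ρ t D₀ : ℕ) (P : 𝓞 K),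
    0 < T → 0 < Y → 0 < ρ → P ≠ 0 → 2 ^ C * ρ ^ 2 ≤ Y →
    (∀ w : InfinitePlace K, 2 ^ C * (ρ : ℝ) ^ 2 * w (P : K) ≤ T) →
    {J : Ideal (𝓞 K) | J ∣ Ideal.span {P}}.Finite →
    {J : Ideal (𝓞 K) | J ∣ Ideal.span {P}}.ncard ≤ D₀ →
    ∀ (θ : JJ K → ℝ) (S : Finset (JJ K → Fin T)),
    (∀ a ∈ S, LowG T ρ (fr T a) P t ∧
      ∀ j, ∃ n : ℤ, |tr (fr T a * (P : K) * (om K j : K)) - θ j - n| ≤ 1 / (Y : ℝ)) →
    (S.card : ℝ) ≤ 2 ^ C * D₀ * t *
      ∏ w : InfinitePlace K, (max 1 ((T : ℝ) / (Y * w (P : K)))) ^ w.mult := by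
  classical
  obtain ⟨C₁, hC₁⟩ := pack_DD K
  refine ⟨(2 * c + 4) + (C₁ + (c + 1) * DK K), ?_⟩
  intro T Y ρ t D₀ P hT hY hρ hP hρY hPT hfin hcard θ S hS
  have hlow : ∀ a, a ∈ S → ∃ (r : 𝓞 K) (b : K), r ≠ 0 ∧ b ∈ DD K ∧
      (∀ w : InfinitePlace K, w (r : K) ≤ ρ) ∧
      (∀ w : InfinitePlace K, w ((r : K) * fr T a - b) ≤ (ρ : ℝ) / T) ∧
      (den (b / (r : K)) ⊔ Ideal.span {P}).absNorm ≤ t := fun a ha => (hS a ha).1
  choose! r b hr0 hb hr h hden using hlow
  set β : (JJ K → Fin T) → K := fun a => b a / (r a : K) with hβ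
  have hmono : (2 : ℝ) ^ (2 * c + 4) ≤ 2 ^ ((2 * c + 4) + (C₁ + (c + 1) * DK K)) :=
    pow_le_pow_right₀ (by norm_num) (Nat.le_add_right _ _)
  have hρY' : 2 ^ (2 * c + 4) * ρ ^ 2 ≤ Y :=
    (Nat.mul_le_mul_right _ (Nat.pow_le_pow_right (by norm_num) (Nat.le_add_right _ _))).trans hρY
  have hPT' : ∀ w : InfinitePlace K, 2 ^ (2 * c + 4) * (ρ : ℝ) ^ 2 * w (P : K) ≤ T := by
    intro w
    refine le_trans ?_ (hPT w)
    have := w_nonneg w (P : K)
    gcongr
  have hkey : ∀ a ∈ S, ∀ a' ∈ S, ∃ n ∈ DD K, (∀ w : InfinitePlace K,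
      w ((P : K) * (fr T a - fr T a') - n) ≤ 2 ^ (c + 1) / (Y : ℝ)) ∧
      (P : K) * (β a - β a') = n := fun a ha a' ha' =>
    keyP hc hT hY hρY' hPT' (hb a ha) (hb a' ha') (hr0 a ha) (hr0 a' ha') (hr a ha) (hr a' ha')
      (h a ha) (h a' ha') (hS a ha).2 (hS a' ha').2
  have hPβ : ∀ a ∈ S, ∀ a' ∈ S, (P : K) * (β a - β a') ∈ DD K := by
    intro a ha a' ha'
    obtain ⟨n, hn, -, hn2⟩ := hkey a ha a' ha'
    rw [hn2]; exact hn
  have hcls := cls_le hP hfin hcard S β hden hPβ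
  set G : (JJ K → Fin T) → Ideal (𝓞 K) × (K ⧸ DD K) := fun a =>
    ((den (β a) ⊔ Ideal.span {P} : Ideal (𝓞 K)), (Submodule.Quotient.mk (β a) : K ⧸ DD K)) with hG
  set B : ℝ := 2 ^ (C₁ + (c + 1) * DK K) *
      ∏ w : InfinitePlace K, (max 1 ((T : ℝ) / (Y * w (P : K)))) ^ w.mult with hB
  have hB0 : 0 ≤ B := by
    refine mul_nonneg (by positivity) (Finset.prod_nonneg fun w _ => ?_)
    exact pow_nonneg (le_trans zero_le_one (le_max_left _ _)) _
  have hfib : ∀ p ∈ S.image G, (S.filter fun a => G a = p).card ≤ ⌊B⌋₊ := by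
    intro p _
    apply Nat.le_floor
    refine fib_le hC₁ hT hY hP _ β ?_
    intro a ha a' ha'
    rw [Finset.mem_filter] at ha ha'
    have h1 : (G a).2 = (G a').2 := by rw [ha.2, ha'.2]
    have h2 : β a - β a' ∈ DD K := (Submodule.Quotient.eq (DD K)).1 h1
    refine ⟨h2, fun w => ?_⟩
    obtain ⟨n, hn, hn1, hn2⟩ := hkey a ha.1 a' ha'.1
    rw [hn2]
    exact hn1 w
  have h1 := Finset.card_le_mul_card_image S ⌊B⌋₊ hfib
  have h2 : S.card ≤ ⌊B⌋₊ * (t * D₀) := h1.trans (Nat.mul_le_mul_left _ hcls)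
  have h3 : (S.card : ℝ) ≤ B * (t * D₀) := by
    have : (S.card : ℝ) ≤ (⌊B⌋₊ : ℝ) * ((t : ℝ) * D₀) := by exact_mod_cast h2
    refine this.trans (mul_le_mul_of_nonneg_right (Nat.floor_le hB0) (by positivity))
  refine h3.trans ?_
  have h4 : (2 : ℝ) ^ (C₁ + (c + 1) * DK K) ≤ 2 ^ ((2 * c + 4) + (C₁ + (c + 1) * DK K)) :=
    pow_le_pow_right₀ (by norm_num) (Nat.le_add_left _ _)
  have h5 : 0 ≤ ∏ w : InfinitePlace K, (max 1 ((T : ℝ) / (Y * w (P : K)))) ^ w.mult :=
    Finset.prod_nonneg fun w _ => pow_nonneg (le_trans zero_le_one (le_max_left _ _)) _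
  calc B * (t * D₀) = 2 ^ (C₁ + (c + 1) * DK K) * ((t * D₀) *
        ∏ w : InfinitePlace K, (max 1 ((T : ℝ) / (Y * w (P : K)))) ^ w.mult) := by
        rw [hB]; ring
    _ ≤ 2 ^ ((2 * c + 4) + (C₁ + (c + 1) * DK K)) * ((t * D₀) *
        ∏ w : InfinitePlace K, (max 1 ((T : ℝ) / (Y * w (P : K)))) ^ w.mult) :=
        mul_le_mul_of_nonneg_right h4 (mul_nonneg (by positivity) h5)
    _ = _ := by ring

end Pool.Agent.H366.NK
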