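import Pool.Agent.H366.ZC.Base

/-! # [LS] a large sieve inequality in several variables -/

set_option autoImplicit false

namespace Pool.Agent.H366.NK

open Pool.Agent.H366.ZC (e)

namespace LSN

open Pool.Agent.H366.ZC (e_add e_zero norm_e e_neg e_sub e_int sum_e)

variable {J : Type} [Fintype J] [DecidableEq J]

lemma e_sum {α : Type} (s : Finset α) (f : α → ℝ) : e (∑ j ∈ s, f j) = ∏ j ∈ s, e (f j) := by
  classical
  induction s using Finset.induction_on with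
  | empty => simp [e_zero]
  | insert a s ha ih => rw [Finset.sum_insert ha, Finset.prod_insert ha, e_add, ih]

/-- orthogonality on the grid -/
lemma orth (N : ℕ) (hN : 0 < N) (m : J → ℤ) (hm : ∀ j, |m j| < N) :
    ∑ a : J → Fin N, e (∑ j, ((a j : ℕ) : ℝ) / N * (m j : ℝ)) =
      if m = 0 then (N : ℂ) ^ Fintype.card J else 0 := by
  have h1 : ∀ a : J → Fin N, e (∑ j, ((a j : ℕ) : ℝ) / N * (m j : ℝ)) =
      ∏ j, e (((a j : ℕ) : ℝ) * (m j : ℝ) / (N : ℝ)) := by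
    intro a
    rw [e_sum]
    refine Finset.prod_congr rfl fun j _ => ?_
    congr 1
    ring
  rw [Finset.sum_congr rfl fun a _ => h1 a]
  have h2 := Finset.prod_univ_sum (fun _ : J => (Finset.univ : Finset (Fin N)))
    (fun (j : J) (k : Fin N) => e (((k : ℕ) : ℝ) * (m j : ℝ) / (N : ℝ)))
  rw [Fintype.piFinset_univ] at h2
  rw [← h2]
  have h3 : ∀ j, ∑ k : Fin N, e (((k : ℕ) : ℝ) * (m j : ℝ) / (N : ℝ)) =
      if m j = 0 then (N : ℂ) else 0 := by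
    intro j
    rw [Fin.sum_univ_eq_sum_range (fun k : ℕ => e ((k : ℝ) * (m j : ℝ) / (N : ℝ))) N,
      sum_e N hN (m j)]
    by_cases hj : m j = 0
    · rw [if_pos hj, if_pos (by rw [hj]; exact dvd_zero _)]
    · rw [if_neg hj, if_neg]
      intro hd
      have := Int.le_of_dvd (abs_pos.mpr hj) ((dvd_abs _ _).mpr hd)
      exact absurd this (not_le.mpr (hm j))
  rw [Finset.prod_congr rfl fun j _ => h3 j]
  by_cases hm0 : m = 0
  · rw [if_pos hm0]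
    have : ∀ j, (if m j = 0 then (N : ℂ) else 0) = N := fun j => by rw [if_pos (by rw [hm0]; rfl)]
    rw [Finset.prod_congr rfl fun j _ => this j, Finset.prod_const, Finset.card_univ]
  · rw [if_neg hm0]
    obtain ⟨j, hj⟩ := Function.ne_iff.mp hm0
    exact Finset.prod_eq_zero (Finset.mem_univ j) (if_neg hj)

/-- the box -/
noncomputable def bx (J : Type) [Fintype J] [DecidableEq J] (Y : ℕ) : Finset (J → ℤ) :=
  Fintype.piFinset fun _ : J => Finset.Icc (-(Y : ℤ)) (Y : ℤ)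

lemma mem_bx {Y : ℕ} {g : J → ℤ} : g ∈ bx J Y ↔ ∀ j, |g j| ≤ Y := by
  unfold bx
  rw [Fintype.mem_piFinset]
  refine forall_congr' fun j => ?_
  rw [Finset.mem_Icc, abs_le]

lemma parseval (Y N : ℕ) (hN : 2 * Y < N) (v : (J → ℤ) → ℂ) :
    ∑ a : J → Fin N, ‖∑ g ∈ bx J Y, v g * e (∑ j, ((a j : ℕ) : ℝ) / N * (g j : ℝ))‖ ^ 2 =
      (N : ℝ) ^ Fintype.card J * ∑ g ∈ bx J Y, ‖v g‖ ^ 2 := by
  have hN0 : 0 < N := by omega
  have key : ((∑ a : J → Fin N,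
      ‖∑ g ∈ bx J Y, v g * e (∑ j, ((a j : ℕ) : ℝ) / N * (g j : ℝ))‖ ^ 2 : ℝ) : ℂ) =
      (((N : ℝ) ^ Fintype.card J * ∑ g ∈ bx J Y, ‖v g‖ ^ 2 : ℝ) : ℂ) := by
    push_cast
    have h1 : ∀ a : J → Fin N,
        ((‖∑ g ∈ bx J Y, v g * e (∑ j, ((a j : ℕ) : ℝ) / N * (g j : ℝ))‖ : ℂ)) ^ 2 =
        ∑ g ∈ bx J Y, ∑ g' ∈ bx J Y, v g * (starRingEnd ℂ) (v g') *
          e (∑ j, ((a j : ℕ) : ℝ) / N * (((g - g') j : ℤ) : ℝ)) := by
      intro a
      rw [← Complex.mul_conj', map_sum, Finset.sum_mul_sum]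
      refine Finset.sum_congr rfl fun g _ => Finset.sum_congr rfl fun g' _ => ?_
      rw [map_mul]
      have h2 : e (∑ j, ((a j : ℕ) : ℝ) / N * (((g - g') j : ℤ) : ℝ)) =
          e (∑ j, ((a j : ℕ) : ℝ) / N * (g j : ℝ)) *
            (starRingEnd ℂ) (e (∑ j, ((a j : ℕ) : ℝ) / N * (g' j : ℝ))) := by
        rw [← e_sub, ← Finset.sum_sub_distrib]
        congr 1
        refine Finset.sum_congr rfl fun j _ => ?_
        rw [Pi.sub_apply]
        push_cast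
        ring
      rw [h2]
      ring
    rw [Finset.sum_congr rfl fun a _ => h1 a, Finset.sum_comm]
    rw [Finset.mul_sum]
    refine Finset.sum_congr rfl fun g hg => ?_
    rw [Finset.sum_comm]
    have h3 : ∀ g' ∈ bx J Y, ∑ a : J → Fin N, v g * (starRingEnd ℂ) (v g') *
          e (∑ j, ((a j : ℕ) : ℝ) / N * (((g - g') j : ℤ) : ℝ)) =
        if g = g' then (N : ℂ) ^ Fintype.card J * (‖v g‖ : ℂ) ^ 2 else 0 := by
      intro g' hg'
      rw [← Finset.mul_sum, orth N hN0 (g - g')]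
      · by_cases hgg : g = g'
        · rw [if_pos hgg, if_pos (by rw [hgg, sub_self]), ← hgg, Complex.mul_conj']
          ring
        · rw [if_neg hgg, if_neg (fun h => hgg (sub_eq_zero.mp h)), mul_zero]
      · intro j
        have a1 := mem_bx.mp hg j
        have a2 := mem_bx.mp hg' j
        rw [Pi.sub_apply]
        have a3 : |g j - g' j| ≤ |g j| + |g' j| := abs_sub _ _
        have a4 : ((2 * Y : ℕ) : ℤ) < (N : ℤ) := by exact_mod_cast hN
        push_cast at a4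
        linarith
    rw [Finset.sum_congr rfl h3, Finset.sum_ite_eq, if_pos hg]
  exact_mod_cast key

/-- data of a point: its cell and its position in the cell -/
lemma cell (N : ℕ) (hN : 0 < N) (x : ℝ) :
    ∃ (a : Fin N) (n : ℤ) (θ : ℝ), x = ((a : ℕ) : ℝ) / N + n + θ ∧ |θ| ≤ 1 / (2 * N) := by
  have hN' : (0 : ℝ) < N := by exact_mod_cast hN
  have hNz : (0 : ℤ) < N := by exact_mod_cast hN
  set m : ℤ := round (x * N) with hm
  have h1 : |x * N - m| ≤ 1 / 2 := abs_sub_round _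
  have h2 := Int.emod_nonneg m hNz.ne'
  have h3 := Int.emod_lt_of_pos m hNz
  have h4 : ((m % N).toNat : ℤ) = m % N := Int.toNat_of_nonneg h2
  refine ⟨⟨(m % N).toNat, by omega⟩, m / N, x - m / N, ?_, ?_⟩
  · have h5 : (m : ℝ) = (((m % N).toNat : ℕ) : ℝ) + N * ((m / N : ℤ) : ℝ) := by
      have h6 : m = ((m % N).toNat : ℤ) + N * (m / N) := by
        rw [h4]; exact (Int.emod_add_mul_ediv m N).symm
      have h7 : ((m : ℤ) : ℝ) = ((((m % N).toNat : ℤ) + N * (m / N) : ℤ) : ℝ) := by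
        rw [← h6]
      rw [h7]
      push_cast
      ring
    have h8 : (m : ℝ) / N = (((m % N).toNat : ℕ) : ℝ) / N + ((m / N : ℤ) : ℝ) := by
      rw [h5]
      field_simp
    show x = (((m % N).toNat : ℕ) : ℝ) / N + ((m / N : ℤ) : ℝ) + (x - m / N)
    rw [h8]
    ring
  · have h5 : x - m / N = (x * N - m) / N := by field_simp
    rw [h5, abs_div, abs_of_pos hN', div_le_div_iff₀ hN' (by positivity)]
    nlinarith

/-- the moments of the coefficients -/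
noncomputable def fu {k : ℕ} (Y N : ℕ) (w : (J → ℤ) → ℂ) (u : Fin k → J) (a : J → Fin N) : ℂ :=
  ∑ g ∈ bx J Y, (w g * ∏ l, (g (u l) : ℂ)) * e (∑ j, ((a j : ℕ) : ℝ) / N * (g j : ℝ))

lemma fu_sum {k : ℕ} (Y N : ℕ) (hN : 2 * Y < N) (w : (J → ℤ) → ℂ) (u : Fin k → J) :
    ∑ a : J → Fin N, ‖fu Y N w u a‖ ^ 2 ≤
      (N : ℝ) ^ Fintype.card J * ((Y : ℝ) ^ k) ^ 2 * ∑ g ∈ bx J Y, ‖w g‖ ^ 2 := by
  unfold fu
  rw [parseval Y N hN, mul_assoc]
  apply mul_le_mul_of_nonneg_left _ (by positivity)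
  rw [Finset.mul_sum]
  refine Finset.sum_le_sum fun g hg => ?_
  rw [norm_mul, mul_pow, mul_comm]
  apply mul_le_mul_of_nonneg_right _ (by positivity)
  apply pow_le_pow_left₀ (norm_nonneg _)
  rw [norm_prod]
  calc ∏ l, ‖(g (u l) : ℂ)‖ ≤ ∏ _l : Fin k, (Y : ℝ) := by
        refine Finset.prod_le_prod (fun _ _ => norm_nonneg _) fun l _ => ?_
        have h1 := mem_bx.mp hg (u l)
        rw [Complex.norm_intCast]
        exact_mod_cast h1
    _ = (Y : ℝ) ^ k := by rw [Finset.prod_const, Finset.card_univ, Fintype.card_fin]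

/-- the terms of the expansion -/
noncomputable def Tk (Y N : ℕ) (w : (J → ℤ) → ℂ) (a : J → Fin N) (θ : J → ℝ) (k : ℕ) : ℂ :=
  ∑ g ∈ bx J Y, w g * e (∑ j, ((a j : ℕ) : ℝ) / N * (g j : ℝ)) *
    ((2 * Real.pi * (∑ j, θ j * (g j : ℝ) : ℝ) * Complex.I) ^ k / (k.factorial : ℂ))

lemma hasSum_Tk (Y N : ℕ) (w : (J → ℤ) → ℂ) (a : J → Fin N) (θ : J → ℝ) :
    HasSum (Tk Y N w a θ) (∑ g ∈ bx J Y, w g * e (∑ j, ((a j : ℕ) : ℝ) / N * (g j : ℝ)) *
      e (∑ j, θ j * (g j : ℝ))) := by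
  unfold Tk
  refine hasSum_sum fun g _ => ?_
  refine HasSum.mul_left _ ?_
  have h1 : e (∑ j, θ j * (g j : ℝ)) =
      NormedSpace.exp (2 * Real.pi * (∑ j, θ j * (g j : ℝ) : ℝ) * Complex.I) := by
    rw [← Complex.exp_eq_exp_ℂ]
    rfl
  rw [h1]
  exact NormedSpace.expSeries_div_hasSum_exp _

lemma Tk_eq (Y N : ℕ) (w : (J → ℤ) → ℂ) (a : J → Fin N) (θ : J → ℝ) (k : ℕ) :
    Tk Y N w a θ k = (2 * Real.pi * Complex.I) ^ k / (k.factorial : ℂ) *
      ∑ u : Fin k → J, (∏ l, (θ (u l) : ℂ)) * fu Y N w u a := by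
  unfold Tk fu
  have h1 : ∀ g : J → ℤ, (2 * Real.pi * (∑ j, θ j * (g j : ℝ) : ℝ) * Complex.I) ^ k =
      (2 * Real.pi * Complex.I) ^ k * ∑ u : Fin k → J, ∏ l, ((θ (u l) : ℂ) * (g (u l) : ℂ)) := by
    intro g
    rw [← Fintype.sum_pow (fun j : J => (θ j : ℂ) * (g j : ℂ)) k, ← mul_pow]
    congr 1
    push_cast
    ring
  rw [Finset.mul_sum]
  calc ∑ g ∈ bx J Y, w g * e (∑ j, ((a j : ℕ) : ℝ) / N * (g j : ℝ)) *
        ((2 * Real.pi * (∑ j, θ j * (g j : ℝ) : ℝ) * Complex.I) ^ k / (k.factorial : ℂ))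
      = ∑ g ∈ bx J Y, ∑ u : Fin k → J, (2 * Real.pi * Complex.I) ^ k / (k.factorial : ℂ) *
          ((∏ l, (θ (u l) : ℂ)) * ((w g * ∏ l, (g (u l) : ℂ)) *
            e (∑ j, ((a j : ℕ) : ℝ) / N * (g j : ℝ)))) := by
        refine Finset.sum_congr rfl fun g _ => ?_
        rw [h1 g, mul_div_right_comm, ← mul_assoc, Finset.mul_sum]
        refine Finset.sum_congr rfl fun u _ => ?_
        rw [Finset.prod_mul_distrib]
        ring
    _ = _ := by
        rw [Finset.sum_comm]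
        refine Finset.sum_congr rfl fun u _ => ?_
        rw [Finset.mul_sum, Finset.mul_sum]

lemma norm_Tk (Y N : ℕ) (w : (J → ℤ) → ℂ) (a : J → Fin N) (θ : J → ℝ) (k : ℕ) {b : ℝ}
    (hb : 0 ≤ b) (hθ : ∀ j, |θ j| ≤ b) :
    ‖Tk Y N w a θ k‖ ^ 2 ≤ ((2 * Real.pi * b) ^ k / (k.factorial : ℝ)) ^ 2 *
      ((Fintype.card J : ℝ) ^ k * ∑ u : Fin k → J, ‖fu Y N w u a‖ ^ 2) := by
  have hpi := Real.pi_pos
  rw [Tk_eq, norm_mul, mul_pow]
  have h1 : ‖(2 * Real.pi * Complex.I : ℂ) ^ k / (k.factorial : ℂ)‖ =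
      (2 * Real.pi) ^ k / (k.factorial : ℝ) := by
    rw [norm_div, norm_pow, norm_mul, Complex.norm_I, mul_one, Complex.norm_natCast]
    congr 2
    rw [norm_mul, Complex.norm_real, Real.norm_of_nonneg hpi.le]
    simp
  have h2 : ‖∑ u : Fin k → J, (∏ l, (θ (u l) : ℂ)) * fu Y N w u a‖ ≤
      b ^ k * ∑ u : Fin k → J, ‖fu Y N w u a‖ := by
    refine (norm_sum_le _ _).trans ?_
    rw [Finset.mul_sum]
    refine Finset.sum_le_sum fun u _ => ?_
    rw [norm_mul]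
    apply mul_le_mul_of_nonneg_right _ (norm_nonneg _)
    rw [norm_prod]
    calc ∏ l, ‖(θ (u l) : ℂ)‖ ≤ ∏ _l : Fin k, b := by
          refine Finset.prod_le_prod (fun _ _ => norm_nonneg _) fun l _ => ?_
          rw [Complex.norm_real]
          exact hθ (u l)
      _ = b ^ k := by rw [Finset.prod_const, Finset.card_univ, Fintype.card_fin]
  have h3 : (∑ u : Fin k → J, ‖fu Y N w u a‖) ^ 2 ≤
      (Fintype.card J : ℝ) ^ k * ∑ u : Fin k → J, ‖fu Y N w u a‖ ^ 2 := by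
    have h4 := sq_sum_le_card_mul_sum_sq (s := (Finset.univ : Finset (Fin k → J)))
      (f := fun u => ‖fu Y N w u a‖)
    rw [Finset.card_univ, Fintype.card_fun, Fintype.card_fin] at h4
    push_cast at h4
    exact h4
  have h5 : ‖∑ u : Fin k → J, (∏ l, (θ (u l) : ℂ)) * fu Y N w u a‖ ^ 2 ≤
      (b ^ k) ^ 2 * ((Fintype.card J : ℝ) ^ k * ∑ u : Fin k → J, ‖fu Y N w u a‖ ^ 2) := by
    calc ‖∑ u : Fin k → J, (∏ l, (θ (u l) : ℂ)) * fu Y N w u a‖ ^ 2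
        ≤ (b ^ k * ∑ u : Fin k → J, ‖fu Y N w u a‖) ^ 2 :=
          pow_le_pow_left₀ (norm_nonneg _) h2 2
      _ = (b ^ k) ^ 2 * (∑ u : Fin k → J, ‖fu Y N w u a‖) ^ 2 := by rw [mul_pow]
      _ ≤ _ := mul_le_mul_of_nonneg_left h3 (by positivity)
  rw [h1]
  calc ((2 * Real.pi) ^ k / (k.factorial : ℝ)) ^ 2 *
        ‖∑ u : Fin k → J, (∏ l, (θ (u l) : ℂ)) * fu Y N w u a‖ ^ 2
      ≤ ((2 * Real.pi) ^ k / (k.factorial : ℝ)) ^ 2 * ((b ^ k) ^ 2 *
        ((Fintype.card J : ℝ) ^ k * ∑ u : Fin k → J, ‖fu Y N w u a‖ ^ 2)) :=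
        mul_le_mul_of_nonneg_left h5 (by positivity)
    _ = _ := by
        rw [mul_pow (2 * Real.pi) b k]
        ring

/-- the sum of one term over the points -/
lemma sum_Tk (Y N : ℕ) (hN : 2 * Y < N) (w : (J → ℤ) → ℂ) {ι : Type} (S : Finset ι)
    (a : ι → J → Fin N) (θ : ι → J → ℝ) (k : ℕ) (hθ : ∀ x ∈ S, ∀ j, |θ x j| ≤ 1 / (2 * N))
    (Q : ℝ) (hQ : ∀ c : J → Fin N, ((S.filter fun x => a x = c).card : ℝ) ≤ Q) :
    ∑ x ∈ S, ‖Tk Y N w (a x) (θ x) k‖ ^ 2 ≤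
      ((2 * (Fintype.card J : ℝ)) ^ k / (k.factorial : ℝ)) ^ 2 *
        (Q * (N : ℝ) ^ Fintype.card J * ∑ g ∈ bx J Y, ‖w g‖ ^ 2) := by
  have hN0 : (0 : ℝ) < N := by
    have : 0 < N := by omega
    exact_mod_cast this
  have hpi := Real.pi_pos
  have hQ0 : 0 ≤ Q := by
    have : 0 < N := by omega
    exact (Nat.cast_nonneg _).trans (hQ fun _ => ⟨0, this⟩)
  set W := ∑ g ∈ bx J Y, ‖w g‖ ^ 2 with hW
  have hW0 : 0 ≤ W := Finset.sum_nonneg fun _ _ => sq_nonneg _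
  set d : ℝ := (Fintype.card J : ℝ) with hd
  have hd0 : 0 ≤ d := Nat.cast_nonneg _
  set b : ℝ := 1 / (2 * N) with hb
  have hb0 : 0 ≤ b := by positivity
  have h1 : ∀ u : Fin k → J, ∑ x ∈ S, ‖fu Y N w u (a x)‖ ^ 2 ≤
      Q * ((N : ℝ) ^ Fintype.card J * ((Y : ℝ) ^ k) ^ 2 * W) := by
    intro u
    rw [← Finset.sum_fiberwise S a (fun x => ‖fu Y N w u (a x)‖ ^ 2)]
    calc ∑ c : J → Fin N, ∑ x ∈ S with a x = c, ‖fu Y N w u (a x)‖ ^ 2
        ≤ ∑ c : J → Fin N, Q * ‖fu Y N w u c‖ ^ 2 := by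
          refine Finset.sum_le_sum fun c _ => ?_
          have h2 : ∑ x ∈ S with a x = c, ‖fu Y N w u (a x)‖ ^ 2 =
              ∑ x ∈ S with a x = c, ‖fu Y N w u c‖ ^ 2 := by
            refine Finset.sum_congr rfl fun x hx => ?_
            rw [(Finset.mem_filter.mp hx).2]
          rw [h2, Finset.sum_const, nsmul_eq_mul]
          exact mul_le_mul_of_nonneg_right (hQ c) (sq_nonneg _)
      _ = Q * ∑ c : J → Fin N, ‖fu Y N w u c‖ ^ 2 := by rw [Finset.mul_sum]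
      _ ≤ _ := mul_le_mul_of_nonneg_left (fu_sum Y N hN w u) hQ0
  have h3 : ∑ x ∈ S, ‖Tk Y N w (a x) (θ x) k‖ ^ 2 ≤
      ((2 * Real.pi * b) ^ k / (k.factorial : ℝ)) ^ 2 *
      (d ^ k * (d ^ k * (Q * ((N : ℝ) ^ Fintype.card J * ((Y : ℝ) ^ k) ^ 2 * W)))) := by
    calc ∑ x ∈ S, ‖Tk Y N w (a x) (θ x) k‖ ^ 2
        ≤ ∑ x ∈ S, ((2 * Real.pi * b) ^ k / (k.factorial : ℝ)) ^ 2 *
          (d ^ k * ∑ u : Fin k → J, ‖fu Y N w u (a x)‖ ^ 2) :=
          Finset.sum_le_sum fun x hx => norm_Tk Y N w (a x) (θ x) k hb0 (hθ x hx)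
      _ = ((2 * Real.pi * b) ^ k / (k.factorial : ℝ)) ^ 2 *
          (d ^ k * ∑ u : Fin k → J, ∑ x ∈ S, ‖fu Y N w u (a x)‖ ^ 2) := by
          rw [← Finset.mul_sum, ← Finset.mul_sum, Finset.sum_comm]
      _ ≤ _ := by
          apply mul_le_mul_of_nonneg_left _ (by positivity)
          apply mul_le_mul_of_nonneg_left _ (by positivity)
          calc ∑ u : Fin k → J, ∑ x ∈ S, ‖fu Y N w u (a x)‖ ^ 2
              ≤ ∑ _u : Fin k → J, Q * ((N : ℝ) ^ Fintype.card J * ((Y : ℝ) ^ k) ^ 2 * W) :=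
                Finset.sum_le_sum fun u _ => h1 u
            _ = _ := by
                rw [Finset.sum_const, Finset.card_univ, Fintype.card_fun, Fintype.card_fin,
                  nsmul_eq_mul]
                push_cast
                rfl
  refine h3.trans ?_
  have h4 : 2 * Real.pi * b * d * Y ≤ 2 * d := by
    have h5 : b * Y ≤ 1 / 4 := by
      rw [hb, div_mul_eq_mul_div, one_mul, div_le_div_iff₀ (by positivity) (by norm_num)]
      have : ((2 * Y : ℕ) : ℝ) < N := by exact_mod_cast hN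
      push_cast at this
      linarith
    have h6 : Real.pi ≤ 4 := Real.pi_le_four
    calc 2 * Real.pi * b * d * Y = 2 * d * (Real.pi * (b * Y)) := by ring
      _ ≤ 2 * d * 1 := by
          apply mul_le_mul_of_nonneg_left _ (by positivity)
          calc Real.pi * (b * Y) ≤ 4 * (1 / 4) :=
                mul_le_mul h6 h5 (by positivity) (by norm_num)
            _ = 1 := by norm_num
      _ = 2 * d := mul_one _
  have h7 : (2 * Real.pi * b * d * Y) ^ k ≤ (2 * d) ^ k :=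
    pow_le_pow_left₀ (by positivity) h4 k
  calc ((2 * Real.pi * b) ^ k / (k.factorial : ℝ)) ^ 2 *
      (d ^ k * (d ^ k * (Q * ((N : ℝ) ^ Fintype.card J * ((Y : ℝ) ^ k) ^ 2 * W))))
      = ((2 * Real.pi * b * d * Y) ^ k / (k.factorial : ℝ)) ^ 2 *
        (Q * (N : ℝ) ^ Fintype.card J * W) := by
        have e1 : (2 * Real.pi * b * d * Y) ^ k = (2 * Real.pi * b) ^ k * d ^ k * (Y : ℝ) ^ k := by
          rw [← mul_pow, ← mul_pow]
        rw [e1]
        ring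
    _ ≤ _ := by
        apply mul_le_mul_of_nonneg_right _ (by positivity)
        apply pow_le_pow_left₀ (by positivity)
        exact div_le_div_of_nonneg_right h7 (by positivity)

/-- finite Minkowski inequality -/
lemma minkowski {ι : Type} (S : Finset ι) (T : ℕ → ι → ℂ) (c : ℕ → ℝ) (M : ℝ)
    (hc : ∀ k, 0 ≤ c k) (hT : ∀ k, ∑ x ∈ S, ‖T k x‖ ^ 2 ≤ c k ^ 2 * M) (hM : 0 ≤ M) (n : ℕ) :
    ∑ x ∈ S, ‖∑ k ∈ Finset.range n, T k x‖ ^ 2 ≤ (∑ k ∈ Finset.range n, c k) ^ 2 * M := by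
  set v : ℕ → EuclideanSpace ℂ S := fun k => WithLp.toLp 2 (fun x : S => T k x) with hv
  have h1 : ∀ k, ‖v k‖ ≤ c k * √M := by
    intro k
    rw [EuclideanSpace.norm_eq]
    apply Real.sqrt_le_iff.mpr
    refine ⟨mul_nonneg (hc k) (Real.sqrt_nonneg _), ?_⟩
    rw [mul_pow, Real.sq_sqrt hM]
    refine le_trans (le_of_eq ?_) (hT k)
    rw [← Finset.sum_coe_sort S (fun x => ‖T k x‖ ^ 2)]
  have h2 : ‖∑ k ∈ Finset.range n, v k‖ ≤ (∑ k ∈ Finset.range n, c k) * √M := by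
    refine (norm_sum_le _ _).trans ?_
    rw [Finset.sum_mul]
    exact Finset.sum_le_sum fun k _ => h1 k
  have h3 : ‖∑ k ∈ Finset.range n, v k‖ ^ 2 = ∑ x ∈ S, ‖∑ k ∈ Finset.range n, T k x‖ ^ 2 := by
    rw [EuclideanSpace.norm_sq_eq, ← Finset.sum_coe_sort S
      (fun x => ‖∑ k ∈ Finset.range n, T k x‖ ^ 2)]
    refine Finset.sum_congr rfl fun x _ => ?_
    congr 2
    rw [WithLp.ofLp_sum, Finset.sum_apply]
  rw [← h3]
  calc ‖∑ k ∈ Finset.range n, v k‖ ^ 2 ≤ ((∑ k ∈ Finset.range n, c k) * √M) ^ 2 :=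
        pow_le_pow_left₀ (norm_nonneg _) h2 2
    _ = _ := by rw [mul_pow, Real.sq_sqrt hM]

end LSN

open LSN Pool.Agent.H366.ZC in
/-- [LS] at most `Q` of the points `π x`, `x ∈ S`, in each cube of side `2 / Y` modulo `1`. -/
theorem large_sieve (J : Type) [Fintype J] [DecidableEq J] : ∃ C : ℕ, ∀ (Y : ℕ), 1 ≤ Y →
    ∀ (w : (J → ℤ) → ℂ) (ι : Type) (S : Finset ι) (π : ι → J → ℝ) (Q : ℝ),
    (∀ (t : J → ℝ) (S' : Finset ι), S' ⊆ S →
      (∀ x ∈ S', ∀ j, ∃ n : ℤ, |π x j - t j - n| ≤ 1 / (Y : ℝ)) → (S'.card : ℝ) ≤ Q) →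
    ∑ x ∈ S, ‖∑ g ∈ Fintype.piFinset fun _ : J => Finset.Icc (-(Y : ℤ)) (Y : ℤ),
        w g * e (∑ j, π x j * (g j : ℝ))‖ ^ 2 ≤
      2 ^ C * Q * (Y : ℝ) ^ Fintype.card J *
        ∑ g ∈ Fintype.piFinset fun _ : J => Finset.Icc (-(Y : ℤ)) (Y : ℤ), ‖w g‖ ^ 2 := by
  classical
  set d : ℝ := (Fintype.card J : ℝ) with hd
  have hd0 : 0 ≤ d := Nat.cast_nonneg _
  obtain ⟨C, hC⟩ := pow_unbounded_of_one_lt (Real.exp (2 * d) ^ 2 * 3 ^ Fintype.card J)
    (one_lt_two : (1 : ℝ) < 2)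
  refine ⟨C, ?_⟩
  intro Y hY w ι S π Q hQ
  have hQ0 : 0 ≤ Q := by
    have := hQ 0 ∅ (Finset.empty_subset _) (by simp)
    simpa using this
  have hY0 : (0 : ℝ) < Y := by exact_mod_cast hY
  set N : ℕ := 2 * Y + 1 with hN
  have hN1 : 2 * Y < N := by omega
  have hN0 : 0 < N := by omega
  have hNr : (N : ℝ) = 2 * Y + 1 := by rw [hN]; push_cast; ring
  have hNpos : (0 : ℝ) < N := by exact_mod_cast hN0
  choose a n θ hdec hθ using fun x j => cell N hN0 (π x j)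
  have hb : (1 : ℝ) / (2 * N) ≤ 1 / Y := by
    apply one_div_le_one_div_of_le hY0
    rw [hNr]; linarith
  have hcell : ∀ c : J → Fin N, ((S.filter fun x => a x = c).card : ℝ) ≤ Q := by
    intro c
    refine hQ (fun j => ((c j : ℕ) : ℝ) / N) _ (Finset.filter_subset _ _) fun x hx j => ?_
    have hac := (Finset.mem_filter.mp hx).2
    refine ⟨n x j, ?_⟩
    have h1 := hdec x j
    rw [hac] at h1
    have h2 : π x j - ((c j : ℕ) : ℝ) / N - n x j = θ x j := by rw [h1]; ring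
    rw [h2]
    exact (hθ x j).trans hb
  change ∑ x ∈ S, ‖∑ g ∈ bx J Y, w g * e (∑ j, π x j * (g j : ℝ))‖ ^ 2 ≤
      2 ^ C * Q * (Y : ℝ) ^ Fintype.card J * ∑ g ∈ bx J Y, ‖w g‖ ^ 2
  set W := ∑ g ∈ bx J Y, ‖w g‖ ^ 2 with hW
  have hW0 : 0 ≤ W := Finset.sum_nonneg fun _ _ => sq_nonneg _
  set M : ℝ := Q * (N : ℝ) ^ Fintype.card J * W with hM
  have hM0 : 0 ≤ M := by positivity
  have hfin : ∀ m : ℕ, ∑ x ∈ S, ‖∑ k ∈ Finset.range m, Tk Y N w (a x) (θ x) k‖ ^ 2 ≤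
      Real.exp (2 * d) ^ 2 * M := by
    intro m
    refine (minkowski S (fun k x => Tk Y N w (a x) (θ x) k)
      (fun k => (2 * d) ^ k / (k.factorial : ℝ)) M (fun k => by positivity)
      (fun k => sum_Tk Y N hN1 w S a θ k (fun x _ j => hθ x j) Q hcell) hM0 m).trans ?_
    apply mul_le_mul_of_nonneg_right _ hM0
    apply pow_le_pow_left₀ (Finset.sum_nonneg fun k _ => by positivity)
    exact Real.sum_le_exp_of_nonneg (by positivity) m
  have hval : ∀ x, ∑ g ∈ bx J Y, w g * e (∑ j, π x j * (g j : ℝ)) =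
      ∑ g ∈ bx J Y, w g * e (∑ j, ((a x j : ℕ) : ℝ) / N * (g j : ℝ)) *
        e (∑ j, θ x j * (g j : ℝ)) := by
    intro x
    refine Finset.sum_congr rfl fun g _ => ?_
    rw [mul_assoc, ← e_add]
    congr 1
    have h1 : ∑ j, π x j * (g j : ℝ) = (∑ j, ((a x j : ℕ) : ℝ) / N * (g j : ℝ) +
        ∑ j, θ x j * (g j : ℝ)) + ((∑ j, n x j * g j : ℤ) : ℝ) := by
      push_cast
      rw [← Finset.sum_add_distrib, ← Finset.sum_add_distrib]
      refine Finset.sum_congr rfl fun j _ => ?_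
      rw [hdec x j]
      ring
    rw [h1, e_add_int]
  have hlim : Filter.Tendsto (fun m : ℕ => ∑ x ∈ S,
      ‖∑ k ∈ Finset.range m, Tk Y N w (a x) (θ x) k‖ ^ 2) Filter.atTop
      (nhds (∑ x ∈ S, ‖∑ g ∈ bx J Y, w g * e (∑ j, π x j * (g j : ℝ))‖ ^ 2)) := by
    refine tendsto_finsetSum _ fun x _ => ?_
    rw [hval x]
    exact ((hasSum_Tk Y N w (a x) (θ x)).tendsto_sum_nat.norm).pow 2
  have hmain := le_of_tendsto' hlim hfin
  refine hmain.trans ?_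
  have h3Y : (N : ℝ) ≤ 3 * Y := by
    rw [hNr]
    have : (1 : ℝ) ≤ Y := by exact_mod_cast hY
    linarith
  calc Real.exp (2 * d) ^ 2 * M
      ≤ Real.exp (2 * d) ^ 2 * (Q * (3 * (Y : ℝ)) ^ Fintype.card J * W) := by
        apply mul_le_mul_of_nonneg_left _ (by positivity)
        rw [hM]
        apply mul_le_mul_of_nonneg_right _ hW0
        apply mul_le_mul_of_nonneg_left _ hQ0
        exact pow_le_pow_left₀ hNpos.le h3Y _
    _ = (Real.exp (2 * d) ^ 2 * 3 ^ Fintype.card J) * (Q * (Y : ℝ) ^ Fintype.card J * W) := by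
        rw [mul_pow]; ring
    _ ≤ 2 ^ C * (Q * (Y : ℝ) ^ Fintype.card J * W) :=
        mul_le_mul_of_nonneg_right hC.le (by positivity)
    _ = _ := by ring

end Pool.Agent.H366.NK
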