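import Pool.Agent.H366.NK.Div
import Pool.Agent.H366.NK.LS
import Pool.Agent.H366.NK.Cnt

/-! # [L2] mean square over the frequencies close to fractions -/

set_option autoImplicit false

namespace Pool.Agent.H366.NK

open NumberField
open Pool.Agent.H366.GF (Ex ExC)
open Pool.Agent.H366.ZC (e)

variable {K : Type} [Field K] [NumberField K]

namespace L2N

open Pool.Agent.H366.GF (Ex_mono Ex_nonneg Ex_const Ex_mul_left Ex_sum ExC_sum ExC_mul_left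
  ExC_mul_right Ex_ofReal)

omit [NumberField K] in
lemma place_natCast (w : InfinitePlace K) (n : ℕ) : w ((n : ℕ) : K) = n := by
  rw [← InfinitePlace.norm_embedding_eq w, map_natCast, Complex.norm_natCast]

omit [NumberField K] in
lemma place_add (w : InfinitePlace K) (x y : K) : w (x + y) ≤ w x + w y := w.1.add_le x y

omit [NumberField K] in
lemma place_sub (w : InfinitePlace K) (x y : K) : w (x - y) ≤ w x + w y := by
  have h := place_add w x (-y)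
  rw [← sub_eq_add_neg] at h
  have h2 : w (-y) = w y := w.1.map_neg y
  rwa [h2] at h

omit [NumberField K] in
lemma place_mul (w : InfinitePlace K) (x y : 𝓞 K) : w ((x * y : 𝓞 K) : K) = w (x : K) * w (y : K) := by
  show w ((x : K) * (y : K)) = _
  exact map_mul w _ _

lemma place_prod (w : InfinitePlace K) {ι : Type} (B : Finset ι) (f : ι → 𝓞 K) :
    w ((∏ i ∈ B, f i : 𝓞 K) : K) = ∏ i ∈ B, w (f i : K) := by
  classical
  induction B using Finset.induction_on with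
  | empty => simp
  | insert i B hi ih =>
    rw [Finset.prod_insert hi, Finset.prod_insert hi, place_mul, ih]

/-- the quotient `g(z')`. -/
lemma exists_g {s c q γ κ e₀ d : ℕ} {v g : Fin s → 𝓞 K} (hc : Cst K c) (hQ : QOK κ q e₀ γ)
    (hv : ∀ i, SlotOK c q γ (v i) (g i)) (B : Finset (Fin s)) (z : Fin s → JJ K → Fin (2 ^ d)) :
    ∃ x : 𝓞 K, ∏ i ∈ B, zz q d (v i) (g i) (z i) = ∏ i ∈ B, v i + (q : 𝓞 K) * x ∧
      ∀ j, |(om K).repr x j| ≤ ((2 ^ (c + 1 + B.card * (d + e₀)) : ℕ) : ℤ) := by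
  obtain ⟨x, hx⟩ := dvd_prod_zz (q := q) v g z B
  refine ⟨x, by rw [← hx]; ring, ?_⟩
  have hq : (1 : ℝ) ≤ q := by exact_mod_cast hQ.qpos
  have hw : ∀ w : InfinitePlace K, w (x : K) ≤ 2 ^ (1 + B.card * (d + e₀)) := by
    intro w
    have h1 : ∀ i, w (v i : K) ≤ 2 ^ e₀ := by
      intro i
      have h2 := (hv i).vle w
      have h3 := (hv i).gge w
      have h4 := (hv i).gle w
      have h5 : (2 : ℝ) ^ c ≤ 2 ^ (γ + 1) := by
        have h6 : (2 : ℝ) ^ (c + 4) ≤ 2 ^ γ := h3.trans h4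
        have h7 : (2 : ℝ) ^ c ≤ 2 ^ (c + 4) := pow_le_pow_right₀ (by norm_num) (by omega)
        have h8 : (2 : ℝ) ^ γ ≤ 2 ^ (γ + 1) := pow_le_pow_right₀ (by norm_num) (by omega)
        linarith
      have h9 : ((q : ℝ)) * 2 ^ (γ + 1) ≤ 2 ^ e₀ := by exact_mod_cast hQ.qe
      nlinarith
    have h2 : w ((∏ i ∈ B, v i : 𝓞 K) : K) ≤ 2 ^ (B.card * (d + e₀)) := by
      rw [place_prod]
      calc ∏ i ∈ B, w (v i : K) ≤ ∏ _i ∈ B, (2 : ℝ) ^ e₀ :=
            Finset.prod_le_prod (fun i _ => apply_nonneg w _) fun i _ => h1 i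
        _ = 2 ^ (B.card * e₀) := by
            rw [Finset.prod_const, ← pow_mul, mul_comm]
        _ ≤ 2 ^ (B.card * (d + e₀)) :=
            pow_le_pow_right₀ (by norm_num) (Nat.mul_le_mul_left _ (by omega))
    have h3 := prod_zz_le hc hQ hv z B w
    have h4 : w ((q : K) * (x : K)) ≤ 2 ^ (B.card * (d + e₀)) + 2 ^ (B.card * (d + e₀)) := by
      have h5 : ((q : K) * (x : K)) = ((∏ i ∈ B, zz q d (v i) (g i) (z i) : 𝓞 K) : K) -
          ((∏ i ∈ B, v i : 𝓞 K) : K) := by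
        have h6 : (q : 𝓞 K) * x = ∏ i ∈ B, zz q d (v i) (g i) (z i) - ∏ i ∈ B, v i := hx.symm
        have h7 := congrArg (fun y : 𝓞 K => (y : K)) h6
        simp only [map_mul, map_sub, map_natCast] at h7
        exact h7
      rw [h5]
      exact (place_sub w _ _).trans (add_le_add h3 h2)
    rw [map_mul, place_natCast] at h4
    have h6 : (0 : ℝ) ≤ w (x : K) := apply_nonneg w _
    have h7 : (2 : ℝ) ^ (1 + B.card * (d + e₀)) =
        2 ^ (B.card * (d + e₀)) + 2 ^ (B.card * (d + e₀)) := by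
      rw [pow_add]
      ring
    rw [h7]
    nlinarith
  intro j
  have h8 := hc.coord_le x _ hw j
  have h9 : (2 : ℝ) ^ c * 2 ^ (1 + B.card * (d + e₀)) =
      ((2 ^ (c + 1 + B.card * (d + e₀)) : ℕ) : ℝ) := by
    push_cast
    rw [← pow_add]
    congr 1
    ring
  rw [h9] at h8
  exact_mod_cast h8

lemma prod_pw {s q d : ℕ} (M : 𝓞 K) (v g : Fin s → 𝓞 K) (V : Finset (Fin s))
    (z z' : Fin s → JJ K → Fin (2 ^ d)) :
    M * ∏ i, zz q d (v i) (g i) (V.piecewise z z' i) =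
      (M * ∏ i ∈ V, zz q d (v i) (g i) (z i)) * ∏ i ∈ Vᶜ, zz q d (v i) (g i) (z' i) := by
  have h1 : ∏ i ∈ V, zz q d (v i) (g i) (V.piecewise z z' i) = ∏ i ∈ V, zz q d (v i) (g i) (z i) := by
    refine Finset.prod_congr rfl fun i hi => ?_
    rw [Finset.piecewise_eq_of_mem _ _ _ hi]
  have h2 : ∏ i ∈ Vᶜ, zz q d (v i) (g i) (V.piecewise z z' i) =
      ∏ i ∈ Vᶜ, zz q d (v i) (g i) (z' i) := by
    refine Finset.prod_congr rfl fun i hi => ?_
    rw [Finset.piecewise_eq_of_notMem _ _ _ (Finset.mem_compl.1 hi)]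
  rw [← Finset.prod_mul_prod_compl V, h1, h2, mul_assoc]

/-- the exponents are `c + P g(z')`. -/
lemma exists_c {s q d : ℕ} (hq : 0 < q) (M : 𝓞 K) (v g : Fin s → 𝓞 K) (V : Finset (Fin s))
    (z : Fin s → JJ K → Fin (2 ^ d)) :
    ∃ c₁ : 𝓞 K, ∀ (z' : Fin s → JJ K → Fin (2 ^ d)) (x : 𝓞 K),
      ∏ i ∈ Vᶜ, zz q d (v i) (g i) (z' i) = ∏ i ∈ Vᶜ, v i + (q : 𝓞 K) * x →
      ff q d M v g (V.piecewise z z') =
        (c₁ : K) + ((M * ∏ i ∈ V, zz q d (v i) (g i) (z i) : 𝓞 K) : K) * (x : K) := by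
  obtain ⟨gV, hgV⟩ := dvd_prod_zz (q := q) v g z V
  refine ⟨M * gV * ∏ i ∈ Vᶜ, v i, fun z' x hx => ?_⟩
  have hq0 : ((q : ℕ) : K) ≠ 0 := by exact_mod_cast hq.ne'
  have h2 : ∏ i, v i = (∏ i ∈ V, v i) * ∏ i ∈ Vᶜ, v i := (Finset.prod_mul_prod_compl V _).symm
  have h3 : M * ∏ i, zz q d (v i) (g i) (V.piecewise z z' i) - M * ∏ i, v i =
      (q : 𝓞 K) * (M * gV * ∏ i ∈ Vᶜ, v i + (M * ∏ i ∈ V, zz q d (v i) (g i) (z i)) * x) := by
    rw [prod_pw, hx, h2]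
    linear_combination (M * ∏ i ∈ Vᶜ, v i) * hgV
  unfold ff
  rw [h3]
  simp only [map_mul, map_add, map_natCast]
  field_simp

/-- the sum over the values of `g`. -/
lemma ExC_values {α ι : Type} [Fintype α] [DecidableEq ι] (G : α → ι) (S : Finset ι)
    (hG : ∀ x, G x ∈ S) (f : ι → ℂ) :
    ExC (fun x => f (G x)) =
      ∑ g ∈ S, ((Ex (fun x : α => if G x = g then (1 : ℝ) else 0) : ℝ) : ℂ) * f g := by
  have h1 : ∀ g ∈ S,
      ((Ex (fun x : α => if G x = g then (1 : ℝ) else 0) : ℝ) : ℂ) * f g =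
        ExC (fun x : α => if G x = g then f g else 0) := by
    intro g _
    rw [Ex_ofReal, ← ExC_mul_right]
    congr 1
    funext x
    split_ifs <;> simp
  rw [Finset.sum_congr rfl h1, ← ExC_sum]
  congr 1
  funext x
  rw [Finset.sum_ite_eq, if_pos (hG x)]

lemma sum_w {α ι : Type} [Fintype α] [Nonempty α] [DecidableEq ι] (G : α → ι) (S : Finset ι) (p : ℝ)
    (hG : ∀ x, G x ∈ S) (hp : ∀ g, Ex (fun x : α => if G x = g then (1 : ℝ) else 0) ≤ p) :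
    ∑ g ∈ S, ‖((Ex (fun x : α => if G x = g then (1 : ℝ) else 0) : ℝ) : ℂ)‖ ^ 2 ≤ p := by
  have h0 : ∀ g, 0 ≤ Ex (fun x : α => if G x = g then (1 : ℝ) else 0) := fun g =>
    Ex_nonneg fun x => by split_ifs <;> norm_num
  have h1 : ∑ g ∈ S, Ex (fun x : α => if G x = g then (1 : ℝ) else 0) = 1 := by
    rw [← Ex_sum, ← Ex_const (α := α) 1]
    congr 1
    funext x
    rw [Finset.sum_ite_eq, if_pos (hG x), Ex_const]
  calc ∑ g ∈ S, ‖((Ex (fun x : α => if G x = g then (1 : ℝ) else 0) : ℝ) : ℂ)‖ ^ 2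
      ≤ ∑ g ∈ S, p * Ex (fun x : α => if G x = g then (1 : ℝ) else 0) := by
        refine Finset.sum_le_sum fun g _ => ?_
        rw [Complex.norm_real, Real.norm_eq_abs, abs_of_nonneg (h0 g), sq]
        exact mul_le_mul_of_nonneg_right (hp g) (h0 g)
    _ = p := by rw [← Finset.mul_sum, h1, mul_one]

end L2N

open L2N in
open Pool.Agent.H366.GF (Ex_mono ExC_mul_left) in
open Classical in
/-- [L2] -/
theorem L2 {c : ℕ} (hc : Cst K c) {κ q e₀ γ μ s : ℕ} (hQ : QOK κ q e₀ γ)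
    (hκ : 640 * s ^ 2 * DK K ^ 2 ≤ κ) (M : 𝓞 K) (hM1 : ∀ w : InfinitePlace K, 1 ≤ w (M : K))
    (hM : ∀ w : InfinitePlace K, w (M : K) ≤ 2 ^ μ) :
    ∃ C : ℕ, ∀ d : ℕ, C ≤ d → ∀ v g : Fin s → 𝓞 K, (∀ i, SlotOK c q γ (v i) (g i)) →
    ∀ (V : Finset (Fin s)) (i j : ℕ), 2 * j + C ≤ (s - V.card) * d →
    ∀ z : Fin s → JJ K → Fin (2 ^ d),
    ∑ a ∈ Finset.univ.filter (fun a : JJ K → Fin (TL c s μ e₀ d) =>
        LowG (TL c s μ e₀ d) (2 ^ j) (fr _ a) (M * ∏ i ∈ V, zz q d (v i) (g i) (z i)) (2 ^ i)),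
      ‖TT q d M v g (fr (TL c s μ e₀ d) a) V z‖ ^ 2 ≤
      2 ^ C * sm K d ^ 2 * 2 ^ i := by
  have hM0 : M ≠ 0 := by
    rintro rfl
    obtain ⟨w⟩ : Nonempty (InfinitePlace K) := inferInstance
    have := hM1 w
    simp only [map_zero] at this
    linarith
  obtain ⟨C₁, hC₁⟩ := card_arc hc
  obtain ⟨C₂, hC₂⟩ := prob_fibre hc hQ hκ
  obtain ⟨C₃, hC₃⟩ := large_sieve (JJ K)
  obtain ⟨C₄, hC₄⟩ := card_div_prod hc hQ hκ M hM0
  refine ⟨1 + C₁ + C₂ + C₃ + C₄ + (μ + s * e₀ + c + 3) * DK K + (c + 1 + s * e₀) * DK K,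
    fun d _ v g hv V i j hj z => ?_⟩
  obtain ⟨C, hC⟩ : ∃ C, C = 1 + C₁ + C₂ + C₃ + C₄ + (μ + s * e₀ + c + 3) * DK K +
    (c + 1 + s * e₀) * DK K := ⟨_, rfl⟩
  rw [← hC] at hj ⊢
  have hCC₁ : C₁ + 1 ≤ C := by omega
  have hVs : V.card ≤ s := by
    have := Finset.card_le_univ V
    rwa [Fintype.card_fin] at this
  obtain ⟨b, hb⟩ : ∃ b, b = s - V.card := ⟨_, rfl⟩
  have hsb : s = V.card + b := by omega
  have hBc : (Vᶜ : Finset (Fin s)).card = b := by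
    rw [Finset.card_compl, Fintype.card_fin, hb]
  rw [← hb] at hj
  obtain ⟨n, hn⟩ : ∃ n, n = V.card := ⟨_, rfl⟩
  obtain ⟨P, hPdef⟩ : ∃ P, P = M * ∏ i ∈ V, zz q d (v i) (g i) (z i) := ⟨_, rfl⟩
  have hP0 : P ≠ 0 := by
    rw [hPdef]
    exact mul_ne_zero hM0 (prod_zz_ne_zero hc hQ.qpos hv z V)
  have hPle : ∀ w : InfinitePlace K, w (P : K) ≤ 2 ^ (μ + n * (d + e₀)) := by
    intro w
    rw [hPdef, place_mul, pow_add, hn]
    exact mul_le_mul (hM w) (prod_zz_le hc hQ hv z V w) (apply_nonneg w _) (by positivity)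
  have hPge : ∀ w : InfinitePlace K, 2 ^ (n * d) ≤ w (P : K) := by
    intro w
    rw [hPdef, place_mul, hn]
    have h1 := le_prod_zz hc hQ hv z V w
    have h2 : (0 : ℝ) < 2 ^ (V.card * d) := by positivity
    nlinarith [hM1 w, mul_le_mul_of_nonneg_right (hM1 w) (h2.le.trans h1)]
  obtain ⟨T, hTdef⟩ : ∃ T, T = TL c s μ e₀ d := ⟨_, rfl⟩
  have hTE : T = 2 ^ (μ + s * (d + e₀) + 2 * c + 4) := hTdef
  have hT0 : 0 < T := by rw [hTE]; positivity
  obtain ⟨Y, hYdef⟩ : ∃ Y, Y = 2 ^ (c + 1 + b * (d + e₀)) := ⟨_, rfl⟩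
  have hY0 : 0 < Y := by rw [hYdef]; positivity
  have hbd : b * d ≤ b * (d + e₀) := Nat.mul_le_mul_left _ (by omega)
  have hsde : s * (d + e₀) = n * (d + e₀) + b * (d + e₀) := by rw [hsb, hn]; ring
  -- the conditions of `card_arc`
  have hρ : 2 ^ C₁ * (2 ^ j) ^ 2 ≤ Y := by
    rw [hYdef, ← pow_mul, ← pow_add]
    exact Nat.pow_le_pow_right (by norm_num) (by omega)
  have hPT : ∀ w : InfinitePlace K, 2 ^ C₁ * (((2 ^ j : ℕ) : ℝ)) ^ 2 * w (P : K) ≤ T := by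
    intro w
    calc 2 ^ C₁ * (((2 ^ j : ℕ) : ℝ)) ^ 2 * w (P : K)
        ≤ 2 ^ C₁ * (((2 ^ j : ℕ) : ℝ)) ^ 2 * 2 ^ (μ + n * (d + e₀)) :=
          mul_le_mul_of_nonneg_left (hPle w) (by positivity)
      _ = 2 ^ (C₁ + j * 2 + (μ + n * (d + e₀))) := by
          push_cast
          rw [← pow_mul, ← pow_add, ← pow_add]
      _ ≤ 2 ^ (μ + s * (d + e₀) + 2 * c + 4) :=
          pow_le_pow_right₀ (by norm_num) (by omega)
      _ = T := by rw [hTE]; push_cast; rfl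
  have hspan : Ideal.span {P} ≠ ⊥ := by
    rwa [Ne, Ideal.span_singleton_eq_bot]
  obtain ⟨D₀, hD₀⟩ : ∃ D₀, D₀ = {J : Ideal (𝓞 K) | J ∣ Ideal.span {P}}.ncard := ⟨_, rfl⟩
  have hD₀le : (D₀ : ℝ) ≤ 2 ^ C₄ * sm K d := by
    rw [hD₀, hPdef]
    exact hC₄ d v g hv V z
  have hsm0 : 0 < sm K d := by unfold sm; positivity
  -- the product over the places
  have hprod : ∏ w : InfinitePlace K, (max 1 ((T : ℝ) / (Y * w (P : K)))) ^ w.mult ≤
      2 ^ ((μ + s * e₀ + c + 3) * DK K) := by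
    have h1 : ∀ w : InfinitePlace K, max 1 ((T : ℝ) / (Y * w (P : K))) ≤ 2 ^ (μ + s * e₀ + c + 3) := by
      intro w
      apply max_le (one_le_pow₀ (by norm_num))
      have hPpos : 0 < w (P : K) := lt_of_lt_of_le (by positivity) (hPge w)
      rw [div_le_iff₀ (by positivity)]
      calc (T : ℝ) = 2 ^ (μ + s * (d + e₀) + 2 * c + 4) := by rw [hTE]; push_cast; rfl
        _ ≤ 2 ^ (μ + s * e₀ + c + 3 + (c + 1 + b * (d + e₀)) + n * d) := by
            apply pow_le_pow_right₀ (by norm_num)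
            have h2 : n * e₀ ≤ s * e₀ := Nat.mul_le_mul_right _ (by omega)
            have h3 : n * (d + e₀) = n * d + n * e₀ := by ring
            omega
        _ = 2 ^ (μ + s * e₀ + c + 3) * (Y * 2 ^ (n * d)) := by
            rw [hYdef]
            push_cast
            rw [pow_add, pow_add, mul_assoc]
        _ ≤ 2 ^ (μ + s * e₀ + c + 3) * (Y * w (P : K)) :=
            mul_le_mul_of_nonneg_left (mul_le_mul_of_nonneg_left (hPge w) (by positivity)) (by positivity)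
    calc ∏ w : InfinitePlace K, (max 1 ((T : ℝ) / (Y * w (P : K)))) ^ w.mult
        ≤ ∏ w : InfinitePlace K, ((2 : ℝ) ^ (μ + s * e₀ + c + 3)) ^ w.mult :=
          Finset.prod_le_prod (fun w _ => by positivity) fun w _ =>
            pow_le_pow_left₀ (by positivity) (h1 w) _
      _ = 2 ^ ((μ + s * e₀ + c + 3) * DK K) := by
          rw [Finset.prod_pow_eq_pow_sum, sum_mult, ← pow_mul]
  -- the sum over the values
  choose G hG hGlt using fun z' : Fin s → JJ K → Fin (2 ^ d) => exists_g hc hQ hv Vᶜ z'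
  rw [hBc, ← hYdef] at hGlt
  obtain ⟨c₁, hc₁⟩ := exists_c hQ.qpos M v g V z
  rw [← hPdef] at hc₁
  rw [← hPdef, ← hTdef]
  obtain ⟨R, hR⟩ : ∃ R : (Fin s → JJ K → Fin (2 ^ d)) → JJ K → ℤ, R = fun z' j => (om K).repr (G z') j :=
    ⟨_, rfl⟩
  have hRmem : ∀ z', R z' ∈ Fintype.piFinset fun _ : JJ K => Finset.Icc (-(Y : ℤ)) (Y : ℤ) := by
    intro z'
    rw [Fintype.mem_piFinset]
    intro j
    rw [Finset.mem_Icc, ← abs_le, hR]
    exact hGlt z' j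
  have hRG : ∀ z', el (R z') = G z' := by
    intro z'
    rw [hR]
    exact el_repr (G z')
  obtain ⟨w, hw⟩ : ∃ w : (JJ K → ℤ) → ℂ, w = fun g =>
    ((Ex (fun z' : Fin s → JJ K → Fin (2 ^ d) => if R z' = g then (1 : ℝ) else 0) : ℝ) : ℂ) := ⟨_, rfl⟩
  have hTT : ∀ a : JJ K → Fin T, ‖TT q d M v g (fr T a) V z‖ =
      ‖∑ y ∈ Fintype.piFinset fun _ : JJ K => Finset.Icc (-(Y : ℤ)) (Y : ℤ),
        w y * e (∑ j, tr (fr T a * (P : K) * (om K j : K)) * (y j : ℝ))‖ := by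
    intro a
    have h1 : TT q d M v g (fr T a) V z = psi (fr T a * (c₁ : K)) *
        ExC (fun z' : Fin s → JJ K → Fin (2 ^ d) =>
          e (∑ j, tr (fr T a * (P : K) * (om K j : K)) * (R z' j : ℝ))) := by
      rw [TT, ← ExC_mul_left]
      congr 1
      funext z'
      rw [hc₁ z' (G z') (hG z'), mul_add, psi_add, ← mul_assoc]
      congr 1
      rw [psi, ← hRG z', tr_mul_el]
    rw [h1, norm_mul, norm_psi, one_mul,
      ExC_values R _ hRmem (fun y => e (∑ j, tr (fr T a * (P : K) * (om K j : K)) * (y j : ℝ))), hw]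
  obtain ⟨Q, hQdef⟩ : ∃ Q : ℝ, Q = 2 ^ C₁ * D₀ * ((2 ^ i : ℕ) : ℝ) *
      ∏ w : InfinitePlace K, (max 1 ((T : ℝ) / (Y * w (P : K)))) ^ w.mult := ⟨_, rfl⟩
  have hls := hC₃ Y hY0 w (JJ K → Fin T)
    (Finset.univ.filter (fun a : JJ K → Fin T => LowG T (2 ^ j) (fr T a) P (2 ^ i)))
    (fun a j => tr (fr T a * (P : K) * (om K j : K))) Q (by
      intro θ S' hS' hθ
      rw [hQdef]
      refine hC₁ T Y (2 ^ j) (2 ^ i) D₀ P hT0 hY0 (by positivity) hP0 hρ hPT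
        (divisors_finite hspan) hD₀.ge θ S' fun a ha => ⟨?_, fun j => hθ a ha j⟩
      exact (Finset.mem_filter.1 (hS' ha)).2)
  have hp := sum_w R (Fintype.piFinset fun _ : JJ K => Finset.Icc (-(Y : ℤ)) (Y : ℤ))
    (2 ^ C₂ * sm K d / 2 ^ (d * DK K * b)) hRmem (by
      intro y
      have h2 := hC₂ d v g hv Vᶜ (∏ i ∈ Vᶜ, v i + (q : 𝓞 K) * el y)
      rw [hBc] at h2
      refine le_trans (Ex_mono fun z' => ?_) h2
      by_cases h3 : R z' = y
      · rw [if_pos h3, if_pos]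
        rw [hG z', ← hRG z', h3]
      · rw [if_neg h3]
        split_ifs <;> norm_num)
  have hw' : ∑ y ∈ Fintype.piFinset fun _ : JJ K => Finset.Icc (-(Y : ℤ)) (Y : ℤ), ‖w y‖ ^ 2 ≤
      2 ^ C₂ * sm K d / 2 ^ (d * DK K * b) := by
    rw [hw]; exact hp
  have hQle : Q ≤ 2 ^ C₁ * (2 ^ C₄ * sm K d) * 2 ^ i * 2 ^ ((μ + s * e₀ + c + 3) * DK K) := by
    rw [hQdef]
    push_cast
    have h1 : 2 ^ C₁ * (D₀ : ℝ) * 2 ^ i ≤ 2 ^ C₁ * (2 ^ C₄ * sm K d) * 2 ^ i :=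
      mul_le_mul_of_nonneg_right (mul_le_mul_of_nonneg_left hD₀le (by positivity)) (by positivity)
    exact mul_le_mul h1 hprod (Finset.prod_nonneg fun w _ => by positivity) (by positivity)
  have hYp : (Y : ℝ) ^ DK K * (2 ^ C₂ * sm K d / 2 ^ (d * DK K * b)) ≤
      2 ^ ((c + 1 + s * e₀) * DK K) * (2 ^ C₂ * sm K d) := by
    have h1 : (Y : ℝ) ^ DK K = 2 ^ ((c + 1 + b * e₀) * DK K) * 2 ^ (d * DK K * b) := by
      rw [hYdef]; push_cast; rw [← pow_mul, ← pow_add]; congr 1; ring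
    have h2 : (0 : ℝ) < 2 ^ (d * DK K * b) := by positivity
    have h3 : (Y : ℝ) ^ DK K * (2 ^ C₂ * sm K d / 2 ^ (d * DK K * b)) =
        2 ^ ((c + 1 + b * e₀) * DK K) * (2 ^ C₂ * sm K d) := by
      rw [h1]; field_simp
    rw [h3]
    refine mul_le_mul_of_nonneg_right ?_ (by positivity)
    refine pow_le_pow_right₀ (by norm_num) (Nat.mul_le_mul_right _ ?_)
    have : b * e₀ ≤ s * e₀ := Nat.mul_le_mul_right _ (by omega)
    omega
  have hsum : ∑ a ∈ Finset.univ.filter (fun a : JJ K → Fin T => LowG T (2 ^ j) (fr T a) P (2 ^ i)),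
      ‖TT q d M v g (fr T a) V z‖ ^ 2 =
      ∑ a ∈ Finset.univ.filter (fun a : JJ K → Fin T => LowG T (2 ^ j) (fr T a) P (2 ^ i)),
      ‖∑ y ∈ Fintype.piFinset fun _ : JJ K => Finset.Icc (-(Y : ℤ)) (Y : ℤ),
        w y * e (∑ j, tr (fr T a * (P : K) * (om K j : K)) * (y j : ℝ))‖ ^ 2 :=
    Finset.sum_congr rfl fun a _ => by rw [hTT a]
  rw [hsum]
  refine hls.trans ?_
  have hQ0 : 0 ≤ Q := by
    rw [hQdef]
    exact mul_nonneg (by positivity) (Finset.prod_nonneg fun w _ => by positivity)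
  calc 2 ^ C₃ * Q * (Y : ℝ) ^ Fintype.card (JJ K) *
        ∑ y ∈ Fintype.piFinset fun _ : JJ K => Finset.Icc (-(Y : ℤ)) (Y : ℤ), ‖w y‖ ^ 2
      ≤ 2 ^ C₃ * Q * (Y : ℝ) ^ DK K * (2 ^ C₂ * sm K d / 2 ^ (d * DK K * b)) :=
        mul_le_mul_of_nonneg_left hw' (by positivity)
    _ = 2 ^ C₃ * Q * ((Y : ℝ) ^ DK K * (2 ^ C₂ * sm K d / 2 ^ (d * DK K * b))) := by ring
    _ ≤ 2 ^ C₃ * Q * (2 ^ ((c + 1 + s * e₀) * DK K) * (2 ^ C₂ * sm K d)) :=
        mul_le_mul_of_nonneg_left hYp (by positivity)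
    _ ≤ 2 ^ C₃ * (2 ^ C₁ * (2 ^ C₄ * sm K d) * 2 ^ i * 2 ^ ((μ + s * e₀ + c + 3) * DK K)) *
          (2 ^ ((c + 1 + s * e₀) * DK K) * (2 ^ C₂ * sm K d)) :=
        mul_le_mul_of_nonneg_right (mul_le_mul_of_nonneg_left hQle (by positivity)) (by positivity)
    _ = 2 ^ (C₁ + C₂ + C₃ + C₄ + (μ + s * e₀ + c + 3) * DK K + (c + 1 + s * e₀) * DK K) *
          sm K d ^ 2 * 2 ^ i := by
        rw [pow_add, pow_add, pow_add, pow_add, pow_add]; ring
    _ ≤ 2 ^ C * sm K d ^ 2 * 2 ^ i := by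
        refine mul_le_mul_of_nonneg_right (mul_le_mul_of_nonneg_right ?_ (by positivity)) (by positivity)
        exact pow_le_pow_right₀ (by norm_num) (by omega)

end Pool.Agent.H366.NK
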