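import Pool.Agent.H366.NK.Div

/-! # [L34] mean squares over all frequencies -/

set_option autoImplicit false

namespace Pool.Agent.H366.NK

open NumberField
open Pool.Agent.H366.GF (Ex ExC)
open Pool.Agent.H366.ZC (e)

variable {K : Type} [Field K] [NumberField K]

namespace L34N

open Pool.Agent.H366.GF (Ex_mono Ex_nonneg Ex_const Ex_mul_left ExC_mul_left ExC_mul_right Ex_sum
  ExC_sum norm_ExC_sq_le Ex_ofReal Ex_pw)

lemma cmul (x y : 𝓞 K) : ((x * y : 𝓞 K) : K) = (x : K) * (y : K) :=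
  map_mul (algebraMap (𝓞 K) K) x y

lemma cadd (x y : 𝓞 K) : ((x + y : 𝓞 K) : K) = (x : K) + (y : K) :=
  map_add (algebraMap (𝓞 K) K) x y

lemma csub (x y : 𝓞 K) : ((x - y : 𝓞 K) : K) = (x : K) - (y : K) :=
  map_sub (algebraMap (𝓞 K) K) x y

lemma czero : ((0 : 𝓞 K) : K) = 0 := map_zero (algebraMap (𝓞 K) K)

lemma cnat (n : ℕ) : ((n : 𝓞 K) : K) = (n : K) := map_natCast (algebraMap (𝓞 K) K) n

lemma cprod {ι : Type} (s : Finset ι) (f : ι → 𝓞 K) :
    ((∏ i ∈ s, f i : 𝓞 K) : K) = ∏ i ∈ s, (f i : K) := map_prod (algebraMap (𝓞 K) K) f s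

lemma w_natCast (w : InfinitePlace K) (n : ℕ) : w (n : K) = n := by
  rw [← w.norm_embedding_eq, map_natCast]
  simp

lemma ne_zero_of_place {M : 𝓞 K} (hM1 : ∀ w : InfinitePlace K, 1 ≤ w (M : K)) : M ≠ 0 := by
  rintro rfl
  obtain ⟨w⟩ := (inferInstance : Nonempty (InfinitePlace K))
  have h := hM1 w
  rw [czero, map_zero] at h
  norm_num at h

lemma alg1 (A B X Y Z : ℝ) (hZ : Z ≠ 0) : A * B * Z * (X * Y / Z) = X * A * Y * B := by
  field_simp

lemma alg2 (A X Y Z W : ℝ) (hZ : Z ≠ 0) : X * Y / Z * (A * Z * W) = X * A * Y * W := by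
  field_simp

/-- the square of an average -/
lemma sq_ExC {α : Type} [Fintype α] (f : α → ℂ) :
    (((‖ExC f‖ ^ 2 : ℝ)) : ℂ) = ExC fun x => ExC fun y => f x * (starRingEnd ℂ) (f y) := by
  have h1 : (starRingEnd ℂ) (ExC f) = ExC fun y => (starRingEnd ℂ) (f y) := by
    simp [ExC, map_div₀, map_sum]
  have h2 : ∀ x, (ExC fun y => f x * (starRingEnd ℂ) (f y)) = f x * (starRingEnd ℂ) (ExC f) := by
    intro x
    rw [ExC_mul_left, h1]
  simp only [h2]
  rw [ExC_mul_right, Complex.mul_conj']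
  push_cast
  rfl

/-- comparison of an average with the sum over the values -/
lemma Ex_fibre {α β : Type} [Fintype α] [DecidableEq β] (f : α → β) (S : Finset β)
    (hf : ∀ x, f x ∈ S) (p : ℝ)
    (hp : ∀ n, Ex (fun x => if f x = n then (1 : ℝ) else 0) ≤ p) (G : β → ℝ)
    (hG : ∀ n, 0 ≤ G n) : Ex (fun x => G (f x)) ≤ p * ∑ n ∈ S, G n := by
  calc Ex (fun x => G (f x)) ≤
      Ex (fun x => ∑ n ∈ S, G n * (if f x = n then (1 : ℝ) else 0)) := by
        refine Ex_mono fun x => ?_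
        refine le_trans (le_of_eq ?_) (Finset.single_le_sum (f := fun n => G n *
          (if f x = n then (1 : ℝ) else 0)) (fun n _ => mul_nonneg (hG _) (by split_ifs <;> simp))
          (hf x))
        simp
    _ = ∑ n ∈ S, G n * Ex (fun x => (if f x = n then (1 : ℝ) else 0)) := by
        rw [Ex_sum]
        exact Finset.sum_congr rfl fun n _ => Ex_mul_left _ _
    _ ≤ ∑ n ∈ S, G n * p :=
        Finset.sum_le_sum fun n _ => mul_le_mul_of_nonneg_left (hp _) (hG _)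
    _ = p * ∑ n ∈ S, G n := by rw [← Finset.sum_mul, mul_comm]

lemma prod_pw {s q d : ℕ} (v g : Fin s → 𝓞 K) (V : Finset (Fin s))
    (z w : Fin s → JJ K → Fin (2 ^ d)) :
    ∏ i, zz q d (v i) (g i) (V.piecewise z w i) =
      (∏ i ∈ Finset.univ \ V, zz q d (v i) (g i) (w i)) *
        ∏ i ∈ V, zz q d (v i) (g i) (z i) := by
  rw [← Finset.prod_sdiff (Finset.subset_univ V)]
  congr 1
  · refine Finset.prod_congr rfl fun i hi => ?_
    rw [Finset.mem_sdiff] at hi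
    rw [Finset.piecewise_eq_of_notMem _ _ _ hi.2]
  · refine Finset.prod_congr rfl fun i hi => ?_
    rw [Finset.piecewise_eq_of_mem _ _ _ hi]

/-- the integer `(M ∏ z - M ∏ v) / q` -/
noncomputable def fi {q d s : ℕ} (hq : 0 < q) (M : 𝓞 K) (v g : Fin s → 𝓞 K)
    (z : Fin s → JJ K → Fin (2 ^ d)) : 𝓞 K :=
  Classical.choose (ff_int hq M v g z)

lemma fi_coe {q d s : ℕ} (hq : 0 < q) (M : 𝓞 K) (v g : Fin s → 𝓞 K)
    (z : Fin s → JJ K → Fin (2 ^ d)) : (fi hq M v g z : K) = ff q d M v g z :=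
  (Classical.choose_spec (ff_int hq M v g z)).1

lemma fi_spec {q d s : ℕ} (hq : 0 < q) (M : 𝓞 K) (v g : Fin s → 𝓞 K)
    (z : Fin s → JJ K → Fin (2 ^ d)) :
    M * ∏ i, zz q d (v i) (g i) (z i) = M * ∏ i, v i + (q : 𝓞 K) * fi hq M v g z :=
  (Classical.choose_spec (ff_int hq M v g z)).2

lemma fi_eq_iff {q d s : ℕ} (hq : 0 < q) {M : 𝓞 K} (hM : M ≠ 0) (v g : Fin s → 𝓞 K)
    (z z' : Fin s → JJ K → Fin (2 ^ d)) :
    fi hq M v g z = fi hq M v g z' ↔
      ∏ i, zz q d (v i) (g i) (z i) = ∏ i, zz q d (v i) (g i) (z' i) := by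
  have h1 := fi_spec hq M v g z
  have h2 := fi_spec hq M v g z'
  have hq' : (q : 𝓞 K) ≠ 0 := by exact_mod_cast hq.ne'
  constructor
  · intro h3
    rw [h3, ← h2] at h1
    exact mul_left_cancel₀ hM h1
  · intro h3
    rw [h3, h2] at h1
    exact (mul_left_cancel₀ hq' (add_left_cancel h1)).symm

/-- the size of `fi` -/
lemma fi_le {c κ q e₀ γ μ s d : ℕ} (hc : Cst K c) (hQ : QOK κ q e₀ γ) {M : 𝓞 K}
    (hM : ∀ w : InfinitePlace K, w (M : K) ≤ 2 ^ μ) {v g : Fin s → 𝓞 K}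
    (hv : ∀ i, SlotOK c q γ (v i) (g i)) (z : Fin s → JJ K → Fin (2 ^ d))
    (w : InfinitePlace K) : w (fi hQ.qpos M v g z : K) ≤ 2 ^ (μ + s * (d + e₀) + 1) := by
  have hq1 : (1 : ℝ) ≤ (q : ℝ) := by exact_mod_cast hQ.qpos
  have h1 := congrArg (fun x : 𝓞 K => (x : K)) (fi_spec hQ.qpos M v g z)
  have h2 : (q : K) * (fi hQ.qpos M v g z : K) =
      (M : K) * ((∏ i, zz q d (v i) (g i) (z i) : 𝓞 K) : K) -
        (M : K) * ((∏ i, v i : 𝓞 K) : K) := by
    have h3 : ((M * ∏ i, zz q d (v i) (g i) (z i) : 𝓞 K) : K) =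
        ((M * ∏ i, v i + (q : 𝓞 K) * fi hQ.qpos M v g z : 𝓞 K) : K) := h1
    rw [cmul, cadd, cmul, cmul, cnat] at h3
    rw [h3]
    ring
  have hP : w ((∏ i, zz q d (v i) (g i) (z i) : 𝓞 K) : K) ≤ 2 ^ (s * (d + e₀)) := by
    have := prod_zz_le hc hQ hv z Finset.univ w
    rwa [Finset.card_univ, Fintype.card_fin] at this
  have hvi : ∀ i, w (v i : K) ≤ 2 ^ (d + e₀) := by
    intro i
    have a1 := (hv i).gge w
    have a2 := (hv i).gle w
    have a3 : (2 : ℝ) ^ (c + 4) ≤ 2 ^ γ := a1.trans a2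
    have a4 : (2 : ℝ) ^ c ≤ 2 ^ (γ + 1) := by
      have a5 : c + 4 ≤ γ := (pow_le_pow_iff_right₀ (by norm_num : (1 : ℝ) < 2)).mp a3
      exact pow_le_pow_right₀ (by norm_num) (by omega)
    have a6 : (q : ℝ) * 2 ^ (γ + 1) ≤ 2 ^ e₀ := by exact_mod_cast hQ.qe
    calc w (v i : K) ≤ 2 ^ c * q := (hv i).vle w
      _ ≤ 2 ^ (γ + 1) * q := mul_le_mul_of_nonneg_right a4 (by positivity)
      _ = q * 2 ^ (γ + 1) := mul_comm _ _
      _ ≤ 2 ^ e₀ := a6
      _ ≤ 2 ^ (d + e₀) := pow_le_pow_right₀ (by norm_num) (by omega)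
  have hV : w ((∏ i, v i : 𝓞 K) : K) ≤ 2 ^ (s * (d + e₀)) := by
    rw [cprod, map_prod]
    calc ∏ i, w (v i : K) ≤ ∏ _i : Fin s, (2 : ℝ) ^ (d + e₀) :=
          Finset.prod_le_prod (fun i _ => apply_nonneg w _) (fun i _ => hvi i)
      _ = 2 ^ (s * (d + e₀)) := by
          rw [Finset.prod_const, Finset.card_univ, Fintype.card_fin, ← pow_mul, mul_comm]
  have hq2 : w (q : K) = q := w_natCast w q
  have h4 : w ((q : K) * (fi hQ.qpos M v g z : K)) ≤ 2 ^ μ * 2 ^ (s * (d + e₀)) +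
      2 ^ μ * 2 ^ (s * (d + e₀)) := by
    rw [h2]
    refine (w.1.sub_le_add _ _).trans (add_le_add ?_ ?_)
    · show w ((M : K) * _) ≤ _
      rw [map_mul]
      exact mul_le_mul (hM w) hP (apply_nonneg w _) (by positivity)
    · show w ((M : K) * _) ≤ _
      rw [map_mul]
      exact mul_le_mul (hM w) hV (apply_nonneg w _) (by positivity)
  rw [map_mul, hq2] at h4
  calc w (fi hQ.qpos M v g z : K) ≤ q * w (fi hQ.qpos M v g z : K) :=
        le_mul_of_one_le_left (apply_nonneg w _) hq1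
    _ ≤ 2 ^ μ * 2 ^ (s * (d + e₀)) + 2 ^ μ * 2 ^ (s * (d + e₀)) := h4
    _ = 2 ^ (μ + s * (d + e₀) + 1) := by rw [pow_add, pow_add]; ring

/-- the coordinates of a difference of two values are smaller than the modulus -/
lemma dvd_iff {c κ q e₀ γ μ s d : ℕ} (hc : Cst K c) (hQ : QOK κ q e₀ γ) {M : 𝓞 K}
    (hM : ∀ w : InfinitePlace K, w (M : K) ≤ 2 ^ μ) {v g : Fin s → 𝓞 K}
    (hv : ∀ i, SlotOK c q γ (v i) (g i)) (z z' : Fin s → JJ K → Fin (2 ^ d)) :
    (∀ j, ((TL c s μ e₀ d : ℕ) : ℤ) ∣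
      (om K).repr (fi hQ.qpos M v g z - fi hQ.qpos M v g z') j) ↔
      fi hQ.qpos M v g z = fi hQ.qpos M v g z' := by
  constructor
  · intro h
    rw [← sub_eq_zero]
    refine (om K).repr.map_eq_zero_iff.mp ?_
    refine Finsupp.ext fun j => ?_
    refine Int.eq_zero_of_abs_lt_dvd (h j) ?_
    have h1 := hc.coord_le (fi hQ.qpos M v g z - fi hQ.qpos M v g z')
      (2 ^ (μ + s * (d + e₀) + 2)) (fun w => by
        rw [csub]
        refine (w.1.sub_le_add _ _).trans ?_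
        have e1 := fi_le hc hQ hM hv z w
        have e2 := fi_le hc hQ hM hv z' w
        calc w (fi hQ.qpos M v g z : K) + w (fi hQ.qpos M v g z' : K)
            ≤ 2 ^ (μ + s * (d + e₀) + 1) + 2 ^ (μ + s * (d + e₀) + 1) := add_le_add e1 e2
          _ = 2 ^ (μ + s * (d + e₀) + 2) := by ring) j
    have h2 : (2 : ℝ) ^ c * 2 ^ (μ + s * (d + e₀) + 2) < 2 ^ TE c s μ e₀ d := by
      rw [← pow_add]
      refine pow_lt_pow_right₀ (by norm_num) ?_
      unfold TE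
      omega
    have h3 := lt_of_le_of_lt h1 h2
    have h4 : ((|(om K).repr (fi hQ.qpos M v g z - fi hQ.qpos M v g z') j| : ℤ) : ℝ) <
        (((TL c s μ e₀ d : ℕ) : ℤ) : ℝ) := by
      rw [Int.cast_abs]
      unfold TL
      push_cast
      exact h3
    exact_mod_cast h4
  · intro h j
    rw [h, sub_self]
    simp

lemma TL_pos (c s μ e₀ d : ℕ) : 0 < TL c s μ e₀ d := by
  unfold TL
  positivity

lemma psi_mul_conj (α x y : K) :
    psi (α * x) * (starRingEnd ℂ) (psi (α * y)) = psi (α * (x - y)) := by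
  rw [mul_sub, psi_sub]

/-- Bessel's inequality for the characters `a ↦ psi (fr a x)` -/
lemma bessel {T : ℕ} (hT : 0 < T) (S : Finset (𝓞 K))
    (hS : ∀ x ∈ S, ∀ y ∈ S, (∀ j, (T : ℤ) ∣ (om K).repr (x - y) j) → x = y)
    (b : (JJ K → Fin T) → ℂ) :
    ∑ x ∈ S, ‖∑ a, b a * psi (fr T a * (x : K))‖ ^ 2 ≤ (T : ℝ) ^ DK K * ∑ a, ‖b a‖ ^ 2 := by
  classical
  set N : ℝ := (T : ℝ) ^ DK K with hN
  have hN0 : 0 < N := by positivity
  set c : 𝓞 K → ℂ := fun x => ∑ a, b a * psi (fr T a * (x : K)) with hc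
  set u : (JJ K → Fin T) → ℂ := fun a => ∑ x ∈ S, c x * (starRingEnd ℂ) (psi (fr T a * (x : K)))
    with hu
  -- `∑ b conj u`
  have e1 : ∑ a, b a * (starRingEnd ℂ) (u a) = ((∑ x ∈ S, ‖c x‖ ^ 2 : ℝ) : ℂ) := by
    have h1 : ∀ a, b a * (starRingEnd ℂ) (u a) =
        ∑ x ∈ S, (starRingEnd ℂ) (c x) * (b a * psi (fr T a * (x : K))) := by
      intro a
      rw [hu]
      simp only [map_sum, map_mul, Complex.conj_conj, Finset.mul_sum]
      exact Finset.sum_congr rfl fun x _ => by ring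
    rw [Finset.sum_congr rfl fun a _ => h1 a, Finset.sum_comm]
    push_cast
    refine Finset.sum_congr rfl fun x _ => ?_
    rw [← Finset.mul_sum]
    show (starRingEnd ℂ) (c x) * c x = _
    rw [mul_comm, Complex.mul_conj']
  -- `∑ |u|²`
  have e2 : ((∑ a, ‖u a‖ ^ 2 : ℝ) : ℂ) = ((N * ∑ x ∈ S, ‖c x‖ ^ 2 : ℝ) : ℂ) := by
    have h1 : ∀ a, ((‖u a‖ ^ 2 : ℝ) : ℂ) = ∑ x ∈ S, ∑ y ∈ S,
        c x * (starRingEnd ℂ) (c y) * psi (fr T a * ((y - x : 𝓞 K) : K)) := by
      intro a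
      push_cast
      rw [← Complex.mul_conj', hu]
      simp only [map_sum, map_mul, Complex.conj_conj]
      rw [Finset.sum_mul_sum]
      refine Finset.sum_congr rfl fun x _ => Finset.sum_congr rfl fun y _ => ?_
      rw [← psi_mul_conj]
      ring
    rw [Complex.ofReal_sum, Finset.sum_congr rfl fun a _ => h1 a, Finset.sum_comm,
      Complex.ofReal_mul, Complex.ofReal_sum, Finset.mul_sum]
    refine Finset.sum_congr rfl fun x hx => ?_
    rw [Finset.sum_comm]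
    have h2 : ∀ y ∈ S, (∑ a, c x * (starRingEnd ℂ) (c y) *
        psi (fr T a * ((y - x : 𝓞 K) : K))) =
        if y = x then (N : ℂ) * (c x * (starRingEnd ℂ) (c x)) else 0 := by
      intro y hy
      rw [← Finset.mul_sum, sum_psi T hT]
      by_cases h : y = x
      · subst h
        rw [if_pos (by intro j; rw [sub_self]; simp), if_pos rfl, hN]
        push_cast
        ring
      · rw [if_neg fun h' => h (hS y hy x hx h'), if_neg h, mul_zero]
    rw [Finset.sum_congr rfl h2, Finset.sum_ite_eq' S x, if_pos hx, Complex.mul_conj']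
    push_cast
    rfl
  have e2' : ∑ a, ‖u a‖ ^ 2 = N * ∑ x ∈ S, ‖c x‖ ^ 2 := Complex.ofReal_injective e2
  have e1' : ∑ a, (b a * (starRingEnd ℂ) (u a)).re = ∑ x ∈ S, ‖c x‖ ^ 2 := by
    have := congrArg Complex.re e1
    rwa [Complex.re_sum, Complex.ofReal_re] at this
  -- the square
  have e3 : 0 ≤ ∑ a, ‖(N : ℂ) * b a - u a‖ ^ 2 := Finset.sum_nonneg fun a _ => by positivity
  have e4 : ∀ a, ‖(N : ℂ) * b a - u a‖ ^ 2 =
      N ^ 2 * ‖b a‖ ^ 2 + ‖u a‖ ^ 2 - 2 * N * (b a * (starRingEnd ℂ) (u a)).re := by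
    intro a
    rw [← Complex.normSq_eq_norm_sq, ← Complex.normSq_eq_norm_sq, ← Complex.normSq_eq_norm_sq,
      Complex.normSq_sub, Complex.normSq_mul, Complex.normSq_ofReal, mul_assoc (N : ℂ),
      Complex.re_ofReal_mul]
    ring
  rw [Finset.sum_congr rfl fun a _ => e4 a, Finset.sum_sub_distrib, Finset.sum_add_distrib,
    ← Finset.mul_sum, ← Finset.mul_sum, e1', e2'] at e3
  have e5 : 0 ≤ N * (N * ∑ a, ‖b a‖ ^ 2 - ∑ x ∈ S, ‖c x‖ ^ 2) := by nlinarith [e3]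
  have e6 := nonneg_of_mul_nonneg_right e5 hN0
  linarith

end L34N

open L34N in
/-- [L3] -/
theorem L3 {c : ℕ} (hc : Cst K c) {κ q e₀ γ μ s : ℕ} (hQ : QOK κ q e₀ γ)
    (hκ : 640 * s ^ 2 * DK K ^ 2 ≤ κ) (M : 𝓞 K) (hM1 : ∀ w : InfinitePlace K, 1 ≤ w (M : K))
    (hM : ∀ w : InfinitePlace K, w (M : K) ≤ 2 ^ μ) :
    ∃ C : ℕ, ∀ (d : ℕ) (v g : Fin s → 𝓞 K), (∀ i, SlotOK c q γ (v i) (g i)) →
    ∀ (V : Finset (Fin s)) (z : Fin s → JJ K → Fin (2 ^ d)),
    ∑ a : JJ K → Fin (TL c s μ e₀ d), ‖TT q d M v g (fr (TL c s μ e₀ d) a) V z‖ ^ 2 ≤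
      2 ^ C * sm K d * 2 ^ (V.card * d * DK K) := by
  classical
  obtain ⟨C₁, hC₁⟩ := prob_fibre (s := s) hc hQ hκ
  refine ⟨C₁ + (μ + s * e₀ + 2 * c + 4) * DK K, ?_⟩
  intro d v g hv V z
  have hM0 : M ≠ 0 := ne_zero_of_place hM1
  set T : ℕ := TL c s μ e₀ d with hT
  have hT0 : 0 < T := TL_pos _ _ _ _ _
  set f : (Fin s → JJ K → Fin (2 ^ d)) → 𝓞 K := fun z' => fi hQ.qpos M v g (V.piecewise z z')
    with hf
  have key : ∑ a : JJ K → Fin T, ‖TT q d M v g (fr T a) V z‖ ^ 2 =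
      Ex fun z' => Ex fun z'' => if f z' = f z'' then (T : ℝ) ^ DK K else 0 := by
    apply Complex.ofReal_injective
    rw [Complex.ofReal_sum]
    have h1 : ∀ a : JJ K → Fin T, (((‖TT q d M v g (fr T a) V z‖ ^ 2 : ℝ)) : ℂ) =
        ExC fun z' => ExC fun z'' => psi (fr T a * ((f z' - f z'' : 𝓞 K) : K)) := by
      intro a
      unfold TT
      rw [sq_ExC]
      congr 1
      funext z'
      congr 1
      funext z''
      rw [psi_mul_conj, csub, hf]
      simp only [fi_coe]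
    rw [Finset.sum_congr rfl fun a _ => h1 a, ← GF.ExC_sum]
    rw [GF.Ex_ofReal]
    congr 1
    funext z'
    rw [← GF.ExC_sum, GF.Ex_ofReal]
    congr 1
    funext z''
    rw [sum_psi T hT0]
    by_cases h : f z' = f z''
    · rw [if_pos ((dvd_iff hc hQ hM hv _ _).mpr h), if_pos h]
      push_cast
      rfl
    · rw [if_neg fun h' => h ((dvd_iff hc hQ hM hv _ _).mp h'), if_neg h]
      simp
  rw [key]
  have hVc : (Finset.univ \ V).card = s - V.card := by
    rw [Finset.card_sdiff_of_subset (Finset.subset_univ V), Finset.card_univ, Fintype.card_fin]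
  have hVs : V.card ≤ s := by
    have := Finset.card_le_univ V
    rwa [Fintype.card_fin] at this
  have hfib : ∀ z', (Ex fun z'' => if f z' = f z'' then (T : ℝ) ^ DK K else 0) ≤
      (T : ℝ) ^ DK K * (2 ^ C₁ * sm K d / 2 ^ (d * DK K * (s - V.card))) := by
    intro z'
    have h1 := hC₁ d v g hv (Finset.univ \ V)
      (∏ i ∈ Finset.univ \ V, zz q d (v i) (g i) (z' i))
    rw [hVc] at h1
    set P : (Fin s → JJ K → Fin (2 ^ d)) → ℝ := fun z'' =>
      if ∏ i ∈ Finset.univ \ V, zz q d (v i) (g i) (z'' i) =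
        ∏ i ∈ Finset.univ \ V, zz q d (v i) (g i) (z' i) then (1 : ℝ) else 0 with hP
    have h2 : (Ex fun z'' => if f z' = f z'' then (T : ℝ) ^ DK K else 0) ≤
        Ex fun z'' => (T : ℝ) ^ DK K * P z'' := by
      refine GF.Ex_mono fun z'' => ?_
      by_cases h : f z' = f z''
      · have h2 := (fi_eq_iff hQ.qpos hM0 v g _ _).1 h
        have h3 : ∏ i ∈ Finset.univ \ V, zz q d (v i) (g i) (z'' i) =
            ∏ i ∈ Finset.univ \ V, zz q d (v i) (g i) (z' i) := by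
          rw [prod_pw, prod_pw] at h2
          exact (mul_right_cancel₀ (prod_zz_ne_zero hc hQ.qpos hv z V) h2).symm
        have h4 : P z'' = 1 := if_pos h3
        rw [if_pos h, h4, mul_one]
      · rw [if_neg h]
        have h4 : 0 ≤ P z'' := by
          rw [hP]
          show (0 : ℝ) ≤ if _ then _ else _
          split_ifs
          · exact zero_le_one
          · exact le_refl _
        exact mul_nonneg (by positivity) h4
    rw [GF.Ex_mul_left] at h2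
    exact h2.trans (mul_le_mul_of_nonneg_left h1 (by positivity))
  have h0 : (Ex fun z' => Ex fun z'' => if f z' = f z'' then (T : ℝ) ^ DK K else 0) ≤
      (T : ℝ) ^ DK K * (2 ^ C₁ * sm K d / 2 ^ (d * DK K * (s - V.card))) := by
    refine (GF.Ex_mono hfib).trans (le_of_eq ?_)
    exact GF.Ex_const _
  refine h0.trans (le_of_eq ?_)
  obtain ⟨t, ht⟩ : ∃ t, s = V.card + t := ⟨s - V.card, by omega⟩
  have h5 : s - V.card = t := by omega
  have hpow : (T : ℝ) ^ DK K = 2 ^ ((μ + s * e₀ + 2 * c + 4) * DK K) * 2 ^ (V.card * d * DK K) *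
      2 ^ (d * DK K * t) := by
    rw [hT]
    unfold TL TE
    push_cast
    rw [← pow_mul, ← pow_add, ← pow_add]
    congr 1
    have h7 : s * (d + e₀) = V.card * d + t * d + s * e₀ := by
      rw [mul_add]
      nth_rewrite 1 [ht]
      ring
    rw [h7]
    ring
  rw [h5, hpow, pow_add (2 : ℝ) C₁]
  exact alg1 _ _ _ _ _ (by positivity)

open L34N in
/-- [L4] -/
theorem L4 {c : ℕ} (hc : Cst K c) {κ q e₀ γ μ s : ℕ} (hQ : QOK κ q e₀ γ)
    (hκ : 640 * s ^ 2 * DK K ^ 2 ≤ κ) (M : 𝓞 K) (hM1 : ∀ w : InfinitePlace K, 1 ≤ w (M : K))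
    (hM : ∀ w : InfinitePlace K, w (M : K) ≤ 2 ^ μ) :
    ∃ C : ℕ, ∀ (d : ℕ) (v g : Fin s → 𝓞 K), (∀ i, SlotOK c q γ (v i) (g i)) →
    ∀ (V : Finset (Fin s)) (b : (JJ K → Fin (TL c s μ e₀ d)) → ℂ),
    Ex (fun z : Fin s → JJ K → Fin (2 ^ d) =>
        ‖∑ a, b a * TT q d M v g (fr (TL c s μ e₀ d) a) V z‖ ^ 2) ≤
      2 ^ C * sm K d * ∑ a, ‖b a‖ ^ 2 := by
  classical
  obtain ⟨C₁, hC₁⟩ := prob_fibre (s := s) hc hQ hκ
  refine ⟨C₁ + (μ + s * e₀ + 2 * c + 4) * DK K, ?_⟩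
  intro d v g hv V
  have hM0 : M ≠ 0 := ne_zero_of_place hM1
  set T : ℕ := TL c s μ e₀ d with hT
  intro b
  have hT0 : 0 < T := TL_pos _ _ _ _ _
  set f : (Fin s → JJ K → Fin (2 ^ d)) → 𝓞 K := fun z => fi hQ.qpos M v g z with hf
  set G : 𝓞 K → ℝ := fun x => ‖∑ a, b a * psi (fr T a * (x : K))‖ ^ 2 with hG
  have h1 : ∀ z : Fin s → JJ K → Fin (2 ^ d), ‖∑ a, b a * TT q d M v g (fr T a) V z‖ ^ 2 ≤
      Ex fun z' => G (f (V.piecewise z z')) := by
    intro z
    have h2 : ∑ a, b a * TT q d M v g (fr T a) V z =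
        ExC fun z' => ∑ a, b a * psi (fr T a * (f (V.piecewise z z') : K)) := by
      rw [GF.ExC_sum]
      refine Finset.sum_congr rfl fun a _ => ?_
      rw [GF.ExC_mul_left]
      unfold TT
      rw [hf]
      simp only [fi_coe]
    rw [h2]
    exact GF.norm_ExC_sq_le _
  have h3 : Ex (fun z : Fin s → JJ K → Fin (2 ^ d) =>
      ‖∑ a, b a * TT q d M v g (fr T a) V z‖ ^ 2) ≤ Ex fun z => G (f z) := by
    refine (GF.Ex_mono h1).trans (le_of_eq ?_)
    exact GF.Ex_pw V (fun z => G (f z))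
  refine h3.trans ?_
  have h4 := Ex_fibre f (Finset.univ.image f) (fun z => Finset.mem_image_of_mem f (Finset.mem_univ z))
    (2 ^ C₁ * sm K d / 2 ^ (d * DK K * s)) (by
      intro n
      by_cases hn : ∃ z0, f z0 = n
      · obtain ⟨z0, hz0⟩ := hn
        have h5 := hC₁ d v g hv Finset.univ (∏ i, zz q d (v i) (g i) (z0 i))
        rw [Finset.card_univ, Fintype.card_fin] at h5
        refine (GF.Ex_mono fun z => ?_).trans h5
        by_cases h : f z = n
        · rw [if_pos h, if_pos]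
          exact (fi_eq_iff hQ.qpos hM0 v g _ _).1 (h.trans hz0.symm)
        · rw [if_neg h]
          split_ifs <;> norm_num
      · have h6 : (fun x => if f x = n then (1 : ℝ) else 0) = fun _ => 0 := by
          funext z
          rw [if_neg fun h => hn ⟨z, h⟩]
        rw [h6, GF.Ex_const]
        unfold sm
        positivity) G (fun n => by rw [hG]; positivity)
  refine h4.trans ?_
  have h7 := bessel hT0 (Finset.univ.image f) (by
    intro x hx y hy h
    obtain ⟨z, -, rfl⟩ := Finset.mem_image.mp hx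
    obtain ⟨z', -, rfl⟩ := Finset.mem_image.mp hy
    exact (dvd_iff hc hQ hM hv z z').mp h) b
  have hsm : 0 ≤ sm K d := by unfold sm; positivity
  refine (mul_le_mul_of_nonneg_left h7 (by positivity)).trans (le_of_eq ?_)
  have hpow : (T : ℝ) ^ DK K = 2 ^ ((μ + s * e₀ + 2 * c + 4) * DK K) * 2 ^ (d * DK K * s) := by
    rw [hT]
    unfold TL TE
    push_cast
    rw [← pow_mul, ← pow_add]
    congr 1
    ring
  rw [hpow, pow_add (2 : ℝ) C₁]
  exact alg2 _ _ _ _ _ (by positivity)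

end Pool.Agent.H366.NK
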