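import Pool.Agent.H366.NK.MajC
import Pool.Agent.H366.GF.Min2

/-! # [NONCOP] the probability that slots are not coprime -/

set_option autoImplicit false

namespace Pool.Agent.H366.NK

open NumberField
open Pool.Agent.H366.GF (Ex ExC)
open Pool.Agent.H366.ZC (e)

variable {K : Type} [Field K] [NumberField K]

namespace NoncopN

open DivN
open Pool.Agent.H366.GF (Ex_mono Ex_nonneg Ex_const Ex_add Ex_mul_left Ex_mul_right Ex_sum Ex_comm
  Ex_equiv Ex_prod)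

/-- the sum of the inverse squares of the norms of ideals of large norm -/
lemma sum_inv_sq (K : Type) [Field K] [NumberField K] : ∃ C : ℕ, ∀ (κ : ℕ)
    (S : Finset (Ideal (𝓞 K))), (∀ I ∈ S, 2 ^ κ ≤ I.absNorm) →
    ∑ I ∈ S, ((2 : ℝ) ^ DK K / (I.absNorm : ℝ)) ^ 2 ≤ 2 ^ C / 2 ^ κ := by
  classical
  obtain ⟨C, hC⟩ := MajCN.card_norm_le K
  refine ⟨C + 2 * DK K + 2, fun κ S hS => ?_⟩
  set g : Ideal (𝓞 K) → ℕ := fun I => Nat.log 2 I.absNorm with hg
  have hne : ∀ I ∈ S, I.absNorm ≠ 0 := fun I hI => by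
    have h1 := hS I hI
    have h2 := Nat.two_pow_pos κ
    omega
  set n : ℕ := S.sup g + 1 with hn
  have hmaps : ∀ I ∈ S, g I ∈ Finset.Ico κ (κ + n) := fun I hI => by
    rw [Finset.mem_Ico]
    refine ⟨?_, ?_⟩
    · exact Nat.le_log_of_pow_le (by norm_num) (hS I hI)
    · have : g I ≤ S.sup g := Finset.le_sup hI
      omega
  rw [← Finset.sum_fiberwise_of_maps_to hmaps]
  have hfib : ∀ l ∈ Finset.Ico κ (κ + n), ∑ I ∈ S with g I = l,
      ((2 : ℝ) ^ DK K / (I.absNorm : ℝ)) ^ 2 ≤ 2 ^ (C + 2 * DK K + 1) * (1 / 2 ^ l) := by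
    intro l _
    have h1 : ∀ I ∈ S.filter (fun I => g I = l),
        ((2 : ℝ) ^ DK K / (I.absNorm : ℝ)) ^ 2 ≤ 2 ^ (2 * DK K) / 2 ^ (2 * l) := by
      intro I hI
      rw [Finset.mem_filter] at hI
      obtain ⟨hIS, hIl⟩ := hI
      have h2 : 2 ^ l ≤ I.absNorm := by
        rw [← hIl]
        exact Nat.pow_log_le_self 2 (hne I hIS)
      have h2' : (2 : ℝ) ^ l ≤ I.absNorm := by exact_mod_cast h2
      rw [div_pow, ← pow_mul, mul_comm (DK K) 2]
      refine div_le_div₀ (by positivity) le_rfl (by positivity) ?_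
      rw [mul_comm 2 l, pow_mul]
      exact pow_le_pow_left₀ (by positivity) h2' 2
    have h2 : ((S.filter fun I => g I = l).card : ℝ) ≤ 2 ^ C * 2 ^ (l + 1) := by
      have := hC (2 ^ (l + 1)) Nat.one_le_two_pow (S.filter fun I => g I = l) (by
        intro I hI
        rw [Finset.mem_filter] at hI
        rw [← hI.2]
        exact (Nat.lt_pow_succ_log_self (by norm_num) _).le)
      simpa using this
    calc ∑ I ∈ S with g I = l, ((2 : ℝ) ^ DK K / (I.absNorm : ℝ)) ^ 2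
        ≤ ((S.filter fun I => g I = l).card : ℝ) * (2 ^ (2 * DK K) / 2 ^ (2 * l)) := by
          rw [← nsmul_eq_mul]
          exact Finset.sum_le_card_nsmul _ _ _ h1
      _ ≤ 2 ^ C * 2 ^ (l + 1) * (2 ^ (2 * DK K) / 2 ^ (2 * l)) :=
          mul_le_mul_of_nonneg_right h2 (by positivity)
      _ = _ := by
          rw [two_mul l, pow_add 2 l l, pow_add 2 (C + 2 * DK K) 1, pow_add 2 C (2 * DK K),
            pow_add 2 l 1]
          field_simp
  refine (Finset.sum_le_sum hfib).trans ?_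
  rw [← Finset.mul_sum]
  have h9 : ∀ m : ℕ, ∑ l ∈ Finset.Ico κ (κ + m), (1 : ℝ) / 2 ^ l ≤ 2 / 2 ^ κ - 2 / 2 ^ (κ + m) := by
    intro m
    induction m with
    | zero => simp
    | succ m ih =>
      rw [← add_assoc, Finset.sum_Ico_succ_top (by omega)]
      have h1 : (2 : ℝ) / 2 ^ (κ + m + 1) = 1 / 2 ^ (κ + m) := by
        rw [pow_succ]
        field_simp
      have h2 : (2 : ℝ) / 2 ^ (κ + m) = 2 * (1 / 2 ^ (κ + m)) := by ring
      rw [h1]
      linarith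
  have h10 : ∑ l ∈ Finset.Ico κ (κ + n), (1 : ℝ) / 2 ^ l ≤ 2 / 2 ^ κ := by
    have h11 := h9 n
    have h12 : (0 : ℝ) ≤ 2 / 2 ^ (κ + n) := by positivity
    linarith
  calc (2 : ℝ) ^ (C + 2 * DK K + 1) * ∑ l ∈ Finset.Ico κ (κ + n), (1 : ℝ) / 2 ^ l
      ≤ 2 ^ (C + 2 * DK K + 1) * (2 / 2 ^ κ) := mul_le_mul_of_nonneg_left h10 (by positivity)
    _ = 2 ^ (C + 2 * DK K + 2) / 2 ^ κ := by
        rw [show C + 2 * DK K + 2 = C + 2 * DK K + 1 + 1 by ring, pow_succ 2 (C + 2 * DK K + 1)]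
        ring

lemma zz_eq (q d : ℕ) (v g : 𝓞 K) (h : JJ K → Fin (2 ^ d)) :
    zz q d v g h = (v + (q : 𝓞 K) * ((2 : 𝓞 K) ^ d * g)) +
      (q : 𝓞 K) * ∑ j, (((h j : ℕ) : 𝓞 K)) * om K j := by
  unfold zz
  ring

open Classical in
/-- primes of small norm -/
lemma prob_small {q d : ℕ} (v g : 𝓞 K) {P : Ideal (𝓞 K)} (hP : P ≠ ⊥)
    (hPd : P.absNorm ≤ 2 ^ d) (hPq : IsCoprime P (Ideal.span {(q : 𝓞 K)})) :
    Ex (fun h : JJ K → Fin (2 ^ d) => if zz q d v g h ∈ P then (1 : ℝ) else 0) ≤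
      2 ^ DK K / P.absNorm := by
  have hn : 0 < P.absNorm := Nat.pos_of_ne_zero
    (Ideal.absNorm_ne_zero_iff P |>.2 (Ideal.finiteQuotientOfFreeOfNeBot P hP))
  have h1 := card_slot_ideal (q := q) (d := d) P hP hPd hPq
    (v + (q : 𝓞 K) * ((2 : 𝓞 K) ^ d * g))
  rw [Ex, Finset.sum_boole, card_JJ]
  simp only [zz_eq]
  have hn' : (0 : ℝ) < P.absNorm := by exact_mod_cast hn
  rw [div_le_div_iff₀ (by positivity) hn']
  have h2 : (2 : ℝ) ^ DK K * ((2 ^ (d * DK K) : ℕ) : ℝ) = (2 * 2 ^ d) ^ DK K := by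
    push_cast
    rw [mul_pow, ← pow_mul]
  rw [h2]
  exact_mod_cast h1

/-- some element of the basis is not in a prime ideal -/
lemma exists_om {P : Ideal (𝓞 K)} (hP : P.IsPrime) : ∃ j, om K j ∉ P := by
  by_contra hcon
  push Not at hcon
  apply hP.ne_top
  rw [Ideal.eq_top_iff_one, ← (om K).sum_repr 1]
  refine P.sum_mem fun j _ => ?_
  rw [zsmul_eq_mul]
  exact P.mul_mem_left _ (hcon j)

/-- the prime number in a prime ideal -/
lemma exists_prime {P : Ideal (𝓞 K)} (hP : P.IsPrime) (hP0 : P ≠ ⊥) :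
    ∃ p : ℕ, p.Prime ∧ ((p : ℕ) : 𝓞 K) ∈ P ∧ P.absNorm ≤ p ^ DK K := by
  have hN0 : P.absNorm ≠ 0 := by
    rw [Ne, Ideal.absNorm_eq_zero_iff]
    exact hP0
  have hmem : ((P.absNorm : ℕ) : 𝓞 K) ∈ P := Ideal.absNorm_mem P
  have key : ∀ n : ℕ, n ≠ 0 → ((n : ℕ) : 𝓞 K) ∈ P → ∃ p : ℕ, p.Prime ∧ ((p : ℕ) : 𝓞 K) ∈ P := by
    intro n
    induction n using Nat.recOnMul with
    | zero => intro h; exact absurd rfl h
    | one =>
      intro _ h
      rw [Nat.cast_one] at h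
      exact absurd ((Ideal.eq_top_iff_one P).mpr h) hP.ne_top
    | prime p hp => intro _ h; exact ⟨p, hp, h⟩
    | mul a b iha ihb =>
      intro h0 h
      rw [Nat.cast_mul] at h
      have ha : a ≠ 0 := left_ne_zero_of_mul h0
      have hb : b ≠ 0 := right_ne_zero_of_mul h0
      rcases hP.mem_or_mem h with h | h
      · exact iha ha h
      · exact ihb hb h
  obtain ⟨p, hp, hm⟩ := key _ hN0 hmem
  refine ⟨p, hp, hm, ?_⟩
  have h1 : P.absNorm ∣ (Ideal.span {((p : ℕ) : 𝓞 K)}).absNorm :=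
    Ideal.absNorm_dvd_absNorm_of_le ((Ideal.span_singleton_le_iff_mem P).2 hm)
  have h2 : ((Ideal.span {((p : ℕ) : 𝓞 K)}).absNorm : ℝ) = (p : ℝ) ^ DK K := by
    rw [absNorm_span]
    have := nm_natCast (K := K) p
    simpa using this
  have h3 : (Ideal.span {((p : ℕ) : 𝓞 K)}).absNorm = p ^ DK K := by exact_mod_cast h2
  rw [h3] at h1
  exact Nat.le_of_dvd (pow_pos hp.pos _) h1

open Classical in
/-- primes of large norm -/
lemma prob_large {q d : ℕ} (v g : 𝓞 K) {P : Ideal (𝓞 K)} (hP : P.IsPrime) (hP0 : P ≠ ⊥)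
    (hPd : 2 ^ d < P.absNorm) (hPq : (q : 𝓞 K) ∉ P) :
    Ex (fun h : JJ K → Fin (2 ^ d) => if zz q d v g h ∈ P then (1 : ℝ) else 0) ≤
      2 / 2 ^ (d / DK K) := by
  obtain ⟨j₀, hj₀⟩ := exists_om hP
  obtain ⟨p, hp, hpP, hpN⟩ := exists_prime hP hP0
  have hD := DK_pos (K := K)
  have hpge : 2 ^ (d / DK K) ≤ p := by
    by_contra hlt
    push Not at hlt
    have h1 : p ^ DK K ≤ (2 ^ (d / DK K)) ^ DK K := Nat.pow_le_pow_left hlt.le _
    rw [← pow_mul] at h1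
    have h2 : 2 ^ (d / DK K * DK K) ≤ 2 ^ d :=
      Nat.pow_le_pow_right (by norm_num) (Nat.div_mul_le_self _ _)
    omega
  -- the coordinate `j₀` is determined modulo `p`
  have hdet : ∀ h h' : JJ K → Fin (2 ^ d), zz q d v g h ∈ P → zz q d v g h' ∈ P →
      (∀ j, j ≠ j₀ → h j = h' j) → (h j₀ : ℕ) / p = (h' j₀ : ℕ) / p → h = h' := by
    intro h h' hh hh' hjj hdiv
    have h1 : zz q d v g h - zz q d v g h' =
        (q : 𝓞 K) * ((((h j₀ : ℕ) : 𝓞 K) - ((h' j₀ : ℕ) : 𝓞 K)) * om K j₀) := by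
      rw [zz_eq, zz_eq]
      have h2 : ∑ j, (((h j : ℕ) : 𝓞 K)) * om K j - ∑ j, (((h' j : ℕ) : 𝓞 K)) * om K j =
          (((h j₀ : ℕ) : 𝓞 K) - ((h' j₀ : ℕ) : 𝓞 K)) * om K j₀ := by
        rw [← Finset.sum_sub_distrib, Finset.sum_eq_single j₀]
        · ring
        · intro j _ hj
          rw [hjj j hj, sub_self]
        · intro h; exact absurd (Finset.mem_univ _) h
      rw [← h2]
      ring
    have h2 : (q : 𝓞 K) * ((((h j₀ : ℕ) : 𝓞 K) - ((h' j₀ : ℕ) : 𝓞 K)) * om K j₀) ∈ P := by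
      rw [← h1]
      exact P.sub_mem hh hh'
    have h3 : (((h j₀ : ℕ) : 𝓞 K) - ((h' j₀ : ℕ) : 𝓞 K)) ∈ P := by
      rcases hP.mem_or_mem h2 with h3 | h3
      · exact absurd h3 hPq
      · rcases hP.mem_or_mem h3 with h4 | h4
        · exact h4
        · exact absurd h4 hj₀
    have h4 : (p : ℤ) ∣ ((h j₀ : ℕ) : ℤ) - ((h' j₀ : ℕ) : ℤ) := by
      by_contra hnd
      have h5 : IsCoprime (p : ℤ) (((h j₀ : ℕ) : ℤ) - ((h' j₀ : ℕ) : ℤ)) :=
        (Nat.prime_iff_prime_int.1 hp).coprime_iff_not_dvd.2 hnd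
      obtain ⟨a, b, hab⟩ := h5
      apply hP.ne_top
      rw [Ideal.eq_top_iff_one]
      have h6 : (1 : 𝓞 K) = (a : 𝓞 K) * (p : 𝓞 K) +
          (b : 𝓞 K) * (((h j₀ : ℕ) : 𝓞 K) - ((h' j₀ : ℕ) : 𝓞 K)) := by
        have := congrArg (fun x : ℤ => (x : 𝓞 K)) hab
        push_cast at this
        exact this.symm
      rw [h6]
      exact P.add_mem (P.mul_mem_left _ hpP) (P.mul_mem_left _ h3)
    have h5 : (h j₀ : ℕ) % p = (h' j₀ : ℕ) % p := by
      have h6 : ((h' j₀ : ℕ) : ℤ) ≡ ((h j₀ : ℕ) : ℤ) [ZMOD p] := Int.modEq_iff_dvd.2 h4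
      exact ((Int.natCast_modEq_iff.1 h6).symm)
    have h6 : h j₀ = h' j₀ := by
      apply Fin.ext
      rw [← Nat.div_add_mod (h j₀ : ℕ) p, ← Nat.div_add_mod (h' j₀ : ℕ) p, hdiv, h5]
    funext j
    by_cases hj : j = j₀
    · rw [hj, h6]
    · exact hjj j hj
  set S := Finset.univ.filter fun h : JJ K → Fin (2 ^ d) => zz q d v g h ∈ P with hS
  have hcard : S.card ≤ (2 ^ d) ^ (DK K - 1) * (2 ^ d / p + 1) := by
    have h1 : S.card ≤ ((Finset.univ : Finset ({j : JJ K // j ≠ j₀} → Fin (2 ^ d))) ×ˢ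
        Finset.range (2 ^ d / p + 1)).card := by
      refine Finset.card_le_card_of_injOn (fun h => (fun j => h j.1, (h j₀ : ℕ) / p)) ?_ ?_
      · intro h _
        rw [Finset.mem_coe, Finset.mem_product]
        refine ⟨Finset.mem_univ _, ?_⟩
        rw [Finset.mem_range]
        exact Nat.lt_succ_of_le (Nat.div_le_div_right (h j₀).2.le)
      · intro h hh h' hh' heq
        rw [Prod.mk.injEq] at heq
        rw [Finset.mem_coe, hS, Finset.mem_filter] at hh hh'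
        exact hdet h h' hh.2 hh'.2 (fun j hj => congrFun heq.1 ⟨j, hj⟩) heq.2
    rw [Finset.card_product, Finset.card_univ, Fintype.card_fun, Fintype.card_fin,
      Finset.card_range, Fintype.card_subtype_compl, Fintype.card_subtype_eq] at h1
    exact h1
  have hpow : (2 : ℝ) ^ (d * DK K) = (2 ^ d) ^ (DK K - 1) * 2 ^ d := by
    rw [← pow_succ, Nat.sub_add_cancel hD, ← pow_mul]
  rw [Ex, Finset.sum_boole, card_JJ]
  push_cast
  rw [hpow]
  have hcard' : (S.card : ℝ) ≤ (2 ^ d) ^ (DK K - 1) * ((2 ^ d / p : ℕ) + 1) := by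
    exact_mod_cast hcard
  have hdiv : (((2 ^ d / p : ℕ) : ℝ)) ≤ 2 ^ d / p := by
    have := Nat.cast_div_le (α := ℝ) (m := 2 ^ d) (n := p)
    push_cast at this
    exact this
  have hp0 : (0 : ℝ) < p := by exact_mod_cast hp.pos
  have hpge' : (2 : ℝ) ^ (d / DK K) ≤ p := by exact_mod_cast hpge
  have h3 : (2 : ℝ) ^ d / p ≤ 2 ^ d / 2 ^ (d / DK K) :=
    div_le_div_of_nonneg_left (by positivity) (by positivity) hpge'
  have h4 : (1 : ℝ) ≤ 2 ^ d / 2 ^ (d / DK K) := by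
    rw [le_div_iff₀ (by positivity), one_mul]
    exact pow_le_pow_right₀ (by norm_num) (Nat.div_le_self _ _)
  have h5 : (S.card : ℝ) ≤ (2 ^ d) ^ (DK K - 1) * (2 * (2 ^ d / 2 ^ (d / DK K))) := by
    refine hcard'.trans (mul_le_mul_of_nonneg_left ?_ (by positivity))
    linarith
  rw [div_le_div_iff₀ (by positivity) (by positivity)]
  calc (S.card : ℝ) * 2 ^ (d / DK K)
      ≤ (2 ^ d) ^ (DK K - 1) * (2 * (2 ^ d / 2 ^ (d / DK K))) * 2 ^ (d / DK K) :=
        mul_le_mul_of_nonneg_right h5 (by positivity)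
    _ = 2 * ((2 ^ d) ^ (DK K - 1) * 2 ^ d) := by
        field_simp

open Classical in
/-- the primes of large norm containing `x` -/
noncomputable def bf (d : ℕ) (x : 𝓞 K) : Finset (Ideal (𝓞 K)) :=
  if hx : x ≠ 0 then
    ((divisors_finite (I := Ideal.span {x}) (by rwa [Ne, Ideal.span_singleton_eq_bot])).toFinset).filter
      (fun P => P.IsPrime ∧ P ≠ ⊥ ∧ 2 ^ d < P.absNorm)
  else ∅

lemma mem_bf {d : ℕ} {x : 𝓞 K} (hx : x ≠ 0) (P : Ideal (𝓞 K)) :
    P ∈ bf d x ↔ x ∈ P ∧ P.IsPrime ∧ P ≠ ⊥ ∧ 2 ^ d < P.absNorm := by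
  classical
  unfold bf
  rw [dif_pos hx, Finset.mem_filter, Set.Finite.mem_toFinset]
  have : P ∈ {J : Ideal (𝓞 K) | J ∣ Ideal.span {x}} ↔ x ∈ P := by
    show P ∣ Ideal.span {x} ↔ x ∈ P
    rw [Ideal.dvd_span_singleton]
  rw [this]

lemma card_bf_le {d e₀ : ℕ} (hd : 0 < d) {x : 𝓞 K} (hx : x ≠ 0)
    (hle : ∀ w : InfinitePlace K, w (x : K) ≤ 2 ^ (d + e₀)) :
    (bf d x).card ≤ (e₀ + 1) * DK K := by
  classical
  have h1 : ∏ P ∈ bf d x, P ∣ Ideal.span {x} := by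
    refine Finset.prod_primes_dvd _ ?_ ?_
    · intro P hP
      rw [mem_bf hx] at hP
      exact Ideal.prime_of_isPrime hP.2.2.1 hP.2.1
    · intro P hP
      rw [mem_bf hx] at hP
      rw [Ideal.dvd_span_singleton]
      exact hP.1
  have h2 : (∏ P ∈ bf d x, P).absNorm ∣ (Ideal.span {x}).absNorm :=
    Ideal.absNorm_dvd_absNorm_of_le (Ideal.le_of_dvd h1)
  have h3 : ((Ideal.span {x}).absNorm : ℝ) ≤ 2 ^ ((d + e₀) * DK K) := by
    rw [absNorm_span, nm_eq_prod]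
    calc ∏ w : InfinitePlace K, w (x : K) ^ w.mult
        ≤ ∏ w : InfinitePlace K, ((2 : ℝ) ^ (d + e₀)) ^ w.mult := by
          refine Finset.prod_le_prod (fun w _ => by positivity) fun w _ => ?_
          exact pow_le_pow_left₀ (by positivity) (hle w) _
      _ = 2 ^ ((d + e₀) * DK K) := by
          rw [Finset.prod_pow_eq_pow_sum, sum_mult, ← pow_mul]
  have h3' : (Ideal.span {x}).absNorm ≤ 2 ^ ((d + e₀) * DK K) := by exact_mod_cast h3
  have h4 : (2 ^ d) ^ (bf d x).card ≤ (∏ P ∈ bf d x, P).absNorm := by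
    rw [map_prod]
    exact Finset.pow_card_le_prod _ _ _ fun P hP => ((mem_bf hx P).1 hP).2.2.2.le
  have hx' : 0 < (Ideal.span {x}).absNorm := by
    rw [Nat.pos_iff_ne_zero, Ne, Ideal.absNorm_eq_zero_iff, Ideal.span_singleton_eq_bot]
    exact hx
  have h5 : 2 ^ (d * (bf d x).card) ≤ 2 ^ ((d + e₀) * DK K) := by
    rw [pow_mul]
    exact h4.trans ((Nat.le_of_dvd hx' h2).trans h3')
  have h6 : d * (bf d x).card ≤ (d + e₀) * DK K := (Nat.pow_le_pow_iff_right (by norm_num)).1 h5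
  have h7 : (d + e₀) * DK K ≤ d * ((e₀ + 1) * DK K) := by
    rw [← mul_assoc]
    refine Nat.mul_le_mul_right _ ?_
    have : e₀ ≤ d * e₀ := Nat.le_mul_of_pos_left _ hd
    rw [Nat.mul_add, mul_one]
    omega
  exact Nat.le_of_mul_le_mul_left (h6.trans h7) hd

open Classical in
/-- two slots -/
theorem prob_two (K : Type) [Field K] [NumberField K] {c : ℕ} (hc : Cst K c) : ∃ C : ℕ,
    ∀ {κ q e₀ γ : ℕ}, QOK κ q e₀ γ → ∀ d : ℕ, 0 < d → ∀ v g v' g' : 𝓞 K,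
    SlotOK c q γ v g → SlotOK c q γ v' g' →
    Ex (fun h : JJ K → Fin (2 ^ d) => Ex (fun h' : JJ K → Fin (2 ^ d) =>
      if IsCoprime (zz q d v g h) (zz q d v' g' h') then (0 : ℝ) else 1)) ≤
      2 ^ C / 2 ^ κ + ((e₀ : ℝ) + 1) * DK K * (2 / 2 ^ (d / DK K)) := by
  obtain ⟨C, hC⟩ := sum_inv_sq K
  refine ⟨C, fun {κ q e₀ γ} hQ d hd v g v' g' hv hv' => ?_⟩
  -- small primes
  have hfin : {P : Ideal (𝓞 K) | P.absNorm ≤ 2 ^ d}.Finite :=
    Ideal.finite_setOfPred_absNorm_le (S := 𝓞 K) (2 ^ d)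
  set S : Finset (Ideal (𝓞 K)) := hfin.toFinset.filter
    (fun P => P.IsPrime ∧ P ≠ ⊥ ∧ 2 ^ κ ≤ P.absNorm ∧ (q : 𝓞 K) ∉ P) with hS
  have memS : ∀ P : Ideal (𝓞 K), P ∈ S ↔ P.absNorm ≤ 2 ^ d ∧ P.IsPrime ∧ P ≠ ⊥ ∧
      2 ^ κ ≤ P.absNorm ∧ (q : 𝓞 K) ∉ P := by
    intro P
    rw [hS, Finset.mem_filter, Set.Finite.mem_toFinset]
    rfl
  have hcopP : ∀ P : Ideal (𝓞 K), P.IsPrime → P ≠ ⊥ → (q : 𝓞 K) ∉ P →
      IsCoprime P (Ideal.span {(q : 𝓞 K)}) := by
    intro P hP hP0 hqP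
    have hmax : P.IsMaximal := hP.isMaximal hP0
    rw [Ideal.isCoprime_iff_sup_eq]
    refine hmax.out.2 _ (lt_of_le_of_ne le_sup_left fun heq => hqP ?_)
    rw [heq]
    exact Ideal.mem_sup_right (Ideal.mem_span_singleton_self _)
  have hqn : ∀ (x : 𝓞 K), IsCoprime x (q : 𝓞 K) → ∀ P : Ideal (𝓞 K), P.IsPrime → x ∈ P →
      (q : 𝓞 K) ∉ P := by
    intro x hx P hP hxP hqP
    obtain ⟨a, b, hab⟩ := hx
    apply hP.ne_top
    rw [Ideal.eq_top_iff_one, ← hab]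
    exact P.add_mem (P.mul_mem_left _ hxP) (P.mul_mem_left _ hqP)
  -- pointwise bound
  have hpt : ∀ h h' : JJ K → Fin (2 ^ d),
      (if IsCoprime (zz q d v g h) (zz q d v' g' h') then (0 : ℝ) else 1) ≤
      (∑ P ∈ S, (if zz q d v g h ∈ P then (1 : ℝ) else 0) *
        (if zz q d v' g' h' ∈ P then (1 : ℝ) else 0)) +
      ∑ P ∈ bf d (zz q d v g h), (if (q : 𝓞 K) ∉ P ∧ zz q d v' g' h' ∈ P then (1 : ℝ) else 0) := by
    intro h h'
    have hn1 : 0 ≤ ∑ P ∈ S, (if zz q d v g h ∈ P then (1 : ℝ) else 0) *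
        (if zz q d v' g' h' ∈ P then (1 : ℝ) else 0) :=
      Finset.sum_nonneg fun e _ => by split_ifs <;> norm_num
    have hn2 : 0 ≤ ∑ P ∈ bf d (zz q d v g h),
        (if (q : 𝓞 K) ∉ P ∧ zz q d v' g' h' ∈ P then (1 : ℝ) else 0) :=
      Finset.sum_nonneg fun e _ => by split_ifs <;> norm_num
    split_ifs with hcop
    · positivity
    · have hz0 := zz_ne_zero (d := d) hc hQ.qpos hv h
      have h1 : Ideal.span {zz q d v g h} ⊔ Ideal.span {zz q d v' g' h'} ≠ ⊤ := by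
        intro htop
        apply hcop
        rw [← Ideal.isCoprime_span_singleton_iff, Ideal.isCoprime_iff_sup_eq]
        exact htop
      obtain ⟨P, hPm, hle⟩ := Ideal.exists_le_maximal _ h1
      have hP := hPm.isPrime
      have hp1 : zz q d v g h ∈ P := hle (Ideal.mem_sup_left (Ideal.mem_span_singleton_self _))
      have hp2 : zz q d v' g' h' ∈ P :=
        hle (Ideal.mem_sup_right (Ideal.mem_span_singleton_self _))
      have hP0 : P ≠ ⊥ := by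
        rintro rfl
        exact hz0 (by simpa using hp1)
      have hqP := hqn _ (zz_cop hv h) P hP hp1
      have hκ := absNorm_ge hQ (zz_cop hv h) hP hP0 hp1
      rcases le_or_gt P.absNorm (2 ^ d) with hle | hgt
      · have h1 := Finset.single_le_sum (f := fun P : Ideal (𝓞 K) =>
            (if zz q d v g h ∈ P then (1 : ℝ) else 0) *
              (if zz q d v' g' h' ∈ P then (1 : ℝ) else 0)) (s := S)
            (fun e _ => by split_ifs <;> norm_num)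
            ((memS P).2 ⟨hle, hP, hP0, hκ, hqP⟩)
        simp only [if_pos hp1, if_pos hp2, mul_one] at h1
        linarith
      · have hmem : P ∈ bf d (zz q d v g h) := (mem_bf hz0 P).2 ⟨hp1, hP, hP0, hgt⟩
        have h1 := Finset.single_le_sum (f := fun P : Ideal (𝓞 K) =>
          if (q : 𝓞 K) ∉ P ∧ zz q d v' g' h' ∈ P then (1 : ℝ) else 0)
          (s := bf d (zz q d v g h)) (fun P _ => by split_ifs <;> norm_num) hmem
        simp only [hqP, hp2, not_false_eq_true, and_self, if_true] at h1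
        linarith
  calc _ ≤ Ex (fun h : JJ K → Fin (2 ^ d) => Ex (fun h' : JJ K → Fin (2 ^ d) =>
        (∑ P ∈ S, (if zz q d v g h ∈ P then (1 : ℝ) else 0) *
        (if zz q d v' g' h' ∈ P then (1 : ℝ) else 0)) +
      ∑ P ∈ bf d (zz q d v g h),
        (if (q : 𝓞 K) ∉ P ∧ zz q d v' g' h' ∈ P then (1 : ℝ) else 0))) :=
        Ex_mono fun h => Ex_mono fun h' => hpt h h'
    _ = Ex (fun h : JJ K → Fin (2 ^ d) => (∑ P ∈ S,
          (if zz q d v g h ∈ P then (1 : ℝ) else 0) *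
          Ex (fun h' : JJ K → Fin (2 ^ d) => (if zz q d v' g' h' ∈ P then (1 : ℝ) else 0))) +
        ∑ P ∈ bf d (zz q d v g h),
          Ex (fun h' : JJ K → Fin (2 ^ d) =>
            (if (q : 𝓞 K) ∉ P ∧ zz q d v' g' h' ∈ P then (1 : ℝ) else 0))) := by
        congr 1
        funext h
        rw [Ex_add, Ex_sum, Ex_sum]
        congr 1
        exact Finset.sum_congr rfl fun p _ => Ex_mul_left _ _
    _ ≤ Ex (fun h : JJ K → Fin (2 ^ d) => (∑ P ∈ S,
          (if zz q d v g h ∈ P then (1 : ℝ) else 0) * (2 ^ DK K / P.absNorm)) +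
            ((e₀ : ℝ) + 1) * DK K * (2 / 2 ^ (d / DK K))) := by
        refine Ex_mono fun h => add_le_add ?_ ?_
        · refine Finset.sum_le_sum fun P hP => ?_
          refine mul_le_mul_of_nonneg_left ?_ (by split_ifs <;> norm_num)
          have hP' := (memS P).1 hP
          exact prob_small v' g' hP'.2.2.1 hP'.1 (hcopP P hP'.2.1 hP'.2.2.1 hP'.2.2.2.2)
        · have hz0 := zz_ne_zero (d := d) hc hQ.qpos hv h
          have h1 : ∀ P ∈ bf d (zz q d v g h),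
              Ex (fun h' : JJ K → Fin (2 ^ d) =>
                (if (q : 𝓞 K) ∉ P ∧ zz q d v' g' h' ∈ P then (1 : ℝ) else 0)) ≤
                2 / 2 ^ (d / DK K) := by
            intro P hP
            rw [mem_bf hz0] at hP
            by_cases hqP : (q : 𝓞 K) ∉ P
            · refine le_trans (Ex_mono fun h' => ?_) (prob_large v' g' hP.2.1 hP.2.2.1 hP.2.2.2 hqP)
              by_cases hm : zz q d v' g' h' ∈ P
              · rw [if_pos ⟨hqP, hm⟩, if_pos hm]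
              · rw [if_neg (fun hh => hm hh.2), if_neg hm]
            · have h2 : (fun h' : JJ K → Fin (2 ^ d) =>
                (if (q : 𝓞 K) ∉ P ∧ zz q d v' g' h' ∈ P then (1 : ℝ) else 0)) = fun _ => 0 := by
                funext h'
                rw [if_neg (fun hh => hqP hh.1)]
              rw [h2, Ex_const]
              positivity
          refine (Finset.sum_le_sum h1).trans ?_
          rw [Finset.sum_const, nsmul_eq_mul]
          refine mul_le_mul_of_nonneg_right ?_ (by positivity)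
          have h2 := card_bf_le hd hz0 (fun w => zz_le_two hc hQ hv h w)
          exact_mod_cast h2
    _ = (∑ P ∈ S, Ex (fun h : JJ K → Fin (2 ^ d) => (if zz q d v g h ∈ P then (1 : ℝ) else 0)) *
          (2 ^ DK K / P.absNorm)) + ((e₀ : ℝ) + 1) * DK K * (2 / 2 ^ (d / DK K)) := by
        rw [Ex_add, Ex_const, Ex_sum]
        congr 1
        exact Finset.sum_congr rfl fun p _ => Ex_mul_right _ _
    _ ≤ (∑ P ∈ S, ((2 : ℝ) ^ DK K / P.absNorm) ^ 2) +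
          ((e₀ : ℝ) + 1) * DK K * (2 / 2 ^ (d / DK K)) := by
        refine add_le_add (Finset.sum_le_sum fun P hP => ?_) le_rfl
        have hP' := (memS P).1 hP
        rw [sq]
        exact mul_le_mul_of_nonneg_right
          (prob_small v g hP'.2.2.1 hP'.1 (hcopP P hP'.2.1 hP'.2.2.1 hP'.2.2.2.2)) (by positivity)
    _ ≤ _ := add_le_add (hC κ S fun P hP => ((memS P).1 hP).2.2.2.1) le_rfl

end NoncopN

open NoncopN

/-- the multipliers do not matter for coprimality -/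
theorem cop_iff {c κ Λ μ q e₀ γ : ℕ} {M : Fin 3 → 𝓞 K} (hC : Ctx κ Λ μ q e₀ γ M) {s d : ℕ}
    {v g : Fin 3 → Fin s → 𝓞 K} (hv : ∀ X i, SlotOK c q γ (v X i) (g X i))
    (V₀ V₁ : Finset (Fin s)) (z₀ z₁ : Fin s → JJ K → Fin (2 ^ d)) :
    IsCoprime (M 0 * ∏ i ∈ V₀, zz q d (v 0 i) (g 0 i) (z₀ i))
      (M 1 * ∏ i ∈ V₁, zz q d (v 1 i) (g 1 i) (z₁ i)) ↔
    IsCoprime (∏ i ∈ V₀, zz q d (v 0 i) (g 0 i) (z₀ i))
      (∏ i ∈ V₁, zz q d (v 1 i) (g 1 i) (z₁ i)) := by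
  have hM : ∀ (X : Fin 3) (w : 𝓞 K), IsCoprime w (q : 𝓞 K) → IsCoprime (M X) w := by
    intro X w hw
    by_contra hcon
    have h1 : Ideal.span {M X} ⊔ Ideal.span {w} ≠ ⊤ := by
      intro htop
      apply hcon
      rw [← Ideal.isCoprime_span_singleton_iff, Ideal.isCoprime_iff_sup_eq]
      exact htop
    obtain ⟨P, hPm, hle⟩ := Ideal.exists_le_maximal _ h1
    have hP := hPm.isPrime
    have hp1 : M X ∈ P := hle (Ideal.mem_sup_left (Ideal.mem_span_singleton_self _))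
    have hp2 : w ∈ P := hle (Ideal.mem_sup_right (Ideal.mem_span_singleton_self _))
    have hqP := hC.smooth X P hP hp1
    obtain ⟨a, b, hab⟩ := hw
    apply hP.ne_top
    rw [Ideal.eq_top_iff_one, ← hab]
    exact P.add_mem (P.mul_mem_left _ hp2) (P.mul_mem_left _ hqP)
  constructor
  · intro h
    exact h.of_mul_left_right.of_mul_right_right
  · intro h
    refine IsCoprime.mul_left (IsCoprime.mul_right hC.cop ?_) (IsCoprime.mul_right ?_ h)
    · exact hM 0 _ (prod_zz_cop (hv 1) z₁ V₁)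
    · exact (hM 1 _ (prod_zz_cop (hv 0) z₀ V₀)).symm

open Classical in
/-- [NONCOP] -/
theorem noncop {c : ℕ} (hc : Cst K c) : ∃ C₁ : ℕ, ∀ {κ q e₀ γ : ℕ} (k s : ℕ), QOK κ q e₀ γ →
    ∀ ε : ℝ, 0 < ε → ∃ d₀ : ℕ, ∀ d : ℕ, d₀ ≤ d → ∀ v g : Fin 3 → Fin s → 𝓞 K,
    (∀ X i, SlotOK c q γ (v X i) (g X i)) → ∀ V : Fin 3 → Finset (Fin s),
    (∀ X, (V X).card ≤ k) →
    Ex (fun z₀ : Fin s → JJ K → Fin (2 ^ d) => Ex (fun z₁ : Fin s → JJ K → Fin (2 ^ d) =>
      if IsCoprime (∏ i ∈ V 0, zz q d (v 0 i) (g 0 i) (z₀ i))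
        (∏ i ∈ V 1, zz q d (v 1 i) (g 1 i) (z₁ i))
      then (0 : ℝ) else 1)) ≤ (k : ℝ) ^ 2 * 2 ^ C₁ / 2 ^ κ + ε := by
  obtain ⟨C, hC⟩ := prob_two K hc
  refine ⟨C, fun {κ q e₀ γ} k s hQ ε hε => ?_⟩
  have hD := DivN.DK_pos (K := K)
  -- the choice of `d₀`
  obtain ⟨m, hm⟩ : ∃ m : ℕ, (k : ℝ) ^ 2 * (((e₀ : ℝ) + 1) * DK K * 2) / ε ≤ 2 ^ m := by
    obtain ⟨m, hm⟩ := pow_unbounded_of_one_lt ((k : ℝ) ^ 2 * (((e₀ : ℝ) + 1) * DK K * 2) / ε)
      (one_lt_two (α := ℝ))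
    exact ⟨m, hm.le⟩
  refine ⟨m * DK K + 1, fun d hd v g hv V hV => ?_⟩
  have hd0 : 0 < d := by omega
  have hmd : m ≤ d / DK K := (Nat.le_div_iff_mul_le hD).2 (by omega)
  have hpt : ∀ z₀ z₁ : Fin s → JJ K → Fin (2 ^ d),
      (if IsCoprime (∏ i ∈ V 0, zz q d (v 0 i) (g 0 i) (z₀ i))
        (∏ i ∈ V 1, zz q d (v 1 i) (g 1 i) (z₁ i)) then
        (0 : ℝ) else 1) ≤ ∑ i ∈ V 0, ∑ j ∈ V 1,
        (if IsCoprime (zz q d (v 0 i) (g 0 i) (z₀ i)) (zz q d (v 1 j) (g 1 j) (z₁ j)) then (0 : ℝ)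
          else 1) := by
    intro z₀ z₁
    have hnn : ∀ i j, (0 : ℝ) ≤
      (if IsCoprime (zz q d (v 0 i) (g 0 i) (z₀ i)) (zz q d (v 1 j) (g 1 j) (z₁ j)) then (0 : ℝ)
        else 1) := by
      intro i j; split_ifs <;> norm_num
    split_ifs with h
    · exact Finset.sum_nonneg fun i _ => Finset.sum_nonneg fun j _ => hnn i j
    · have : ∃ i ∈ V 0, ∃ j ∈ V 1,
          ¬ IsCoprime (zz q d (v 0 i) (g 0 i) (z₀ i)) (zz q d (v 1 j) (g 1 j) (z₁ j)) := by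
        by_contra hcon
        push Not at hcon
        exact h (IsCoprime.prod_left fun i hi => IsCoprime.prod_right fun j hj =>
          hcon i hi j hj)
      obtain ⟨i, hi, j, hj, hij⟩ := this
      calc (1 : ℝ) = (if IsCoprime (zz q d (v 0 i) (g 0 i) (z₀ i)) (zz q d (v 1 j) (g 1 j) (z₁ j))
            then (0 : ℝ) else 1) := (if_neg hij).symm
        _ ≤ ∑ j ∈ V 1, (if IsCoprime (zz q d (v 0 i) (g 0 i) (z₀ i))
              (zz q d (v 1 j) (g 1 j) (z₁ j)) then (0 : ℝ) else 1) :=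
            Finset.single_le_sum (f := fun j =>
              (if IsCoprime (zz q d (v 0 i) (g 0 i) (z₀ i)) (zz q d (v 1 j) (g 1 j) (z₁ j)) then
              (0 : ℝ) else 1)) (fun j _ => hnn i j) hj
        _ ≤ _ := Finset.single_le_sum (f := fun i => ∑ j ∈ V 1,
              (if IsCoprime (zz q d (v 0 i) (g 0 i) (z₀ i)) (zz q d (v 1 j) (g 1 j) (z₁ j)) then
              (0 : ℝ) else 1)) (fun i _ => Finset.sum_nonneg fun j _ => hnn i j) hi
  refine (Pool.Agent.H366.GF.Ex_mono fun z₀ => Pool.Agent.H366.GF.Ex_mono fun z₁ =>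
    hpt z₀ z₁).trans ?_
  simp only [Pool.Agent.H366.GF.Ex_sum]
  have h2 : ∀ i j, Ex (fun z₀ : Fin s → JJ K → Fin (2 ^ d) =>
      Ex (fun z₁ : Fin s → JJ K → Fin (2 ^ d) =>
      (if IsCoprime (zz q d (v 0 i) (g 0 i) (z₀ i)) (zz q d (v 1 j) (g 1 j) (z₁ j)) then (0 : ℝ)
        else 1))) ≤ 2 ^ C / 2 ^ κ + ((e₀ : ℝ) + 1) * DK K * (2 / 2 ^ (d / DK K)) := by
    intro i j
    have h3 := hC hQ d hd0 (v 0 i) (g 0 i) (v 1 j) (g 1 j) (hv 0 i) (hv 1 j)
    refine le_trans (le_of_eq ?_) h3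
    rw [← Pool.Agent.H366.GF.Ex_coord i (fun c : JJ K → Fin (2 ^ d) =>
      Ex (fun c' : JJ K → Fin (2 ^ d) =>
      if IsCoprime (zz q d (v 0 i) (g 0 i) c) (zz q d (v 1 j) (g 1 j) c') then (0 : ℝ) else 1))]
    congr 1; funext z₀
    exact Pool.Agent.H366.GF.Ex_coord j (fun c' : JJ K → Fin (2 ^ d) =>
      if IsCoprime (zz q d (v 0 i) (g 0 i) (z₀ i)) (zz q d (v 1 j) (g 1 j) c') then (0 : ℝ) else 1)
  refine (Finset.sum_le_sum fun i _ => Finset.sum_le_sum fun j _ => h2 i j).trans ?_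
  rw [Finset.sum_const, Finset.sum_const, nsmul_eq_mul, nsmul_eq_mul, ← mul_assoc]
  have h4 : (((V 0).card : ℝ) * ((V 1).card : ℝ)) ≤ (k : ℝ) ^ 2 := by
    rw [sq]
    exact mul_le_mul (by exact_mod_cast hV 0) (by exact_mod_cast hV 1) (by positivity)
      (by positivity)
  refine (mul_le_mul_of_nonneg_right h4 (by positivity)).trans ?_
  rw [mul_add, mul_div_assoc]
  refine add_le_add le_rfl ?_
  have h5 : (2 : ℝ) ^ m ≤ 2 ^ (d / DK K) := pow_le_pow_right₀ (by norm_num) hmd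
  rw [div_le_iff₀ hε] at hm
  have h6 : (k : ℝ) ^ 2 * (((e₀ : ℝ) + 1) * DK K * (2 / 2 ^ (d / DK K))) =
      (k : ℝ) ^ 2 * (((e₀ : ℝ) + 1) * DK K * 2) / 2 ^ (d / DK K) := by ring
  rw [h6, div_le_iff₀ (by positivity)]
  calc (k : ℝ) ^ 2 * (((e₀ : ℝ) + 1) * DK K * 2) ≤ 2 ^ m * ε := hm
    _ ≤ 2 ^ (d / DK K) * ε := mul_le_mul_of_nonneg_right h5 hε.le
    _ = ε * 2 ^ (d / DK K) := mul_comm _ _

end Pool.Agent.H366.NK
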