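import Pool.Agent.H366.NK.L1
import Pool.Agent.H366.NK.L2
import Pool.Agent.H366.NK.L34
import Pool.Agent.H366.NK.Noncop
import Pool.Agent.H366.GF.AI1

/-! # [AIB] the minor arcs -/

set_option autoImplicit false

namespace Pool.Agent.H366.NK

open NumberField
open Pool.Agent.H366.GF (Ex ExC)
open Pool.Agent.H366.ZC (e)

namespace AIbN

open Pool.Agent.H366.GF (Ex_mono Ex_nonneg Ex_const Ex_add Ex_sum Ex_mul_left Ex_sq_le Ex_split
  Ex_split' Ex3)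

section abs

variable {A Z : Type} [Fintype A] [Fintype Z] [Nonempty Z]

omit [Fintype A] in
/-- the dyadic level -/
lemma exists_level {Lw : ℕ → A → Prop} (mono : ∀ j j' a, j ≤ j' → Lw j a → Lw j' a) {a : A}
    {m₀ J : ℕ} (hm : ¬ Lw m₀ a) (hJ : Lw J a) :
    ∃ j, m₀ ≤ j ∧ j < J ∧ ¬ Lw j a ∧ Lw (j + 1) a := by
  classical
  have hex : ∃ n, Lw n a := ⟨J, hJ⟩
  have h1 := Nat.find_spec hex
  have h2 : ∀ m < Nat.find hex, ¬ Lw m a := fun m hm => Nat.find_min hex hm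
  have h3 : m₀ < Nat.find hex := by
    by_contra h
    push Not at h
    exact hm (mono _ _ _ h h1)
  have h4 : Nat.find hex ≤ J := Nat.find_min' hex hJ
  refine ⟨Nat.find hex - 1, by omega, by omega, h2 _ (by omega), ?_⟩
  rw [Nat.sub_add_cancel (by omega)]
  exact h1

open Classical in
/-- the mean square over the minor arcs -/
lemma absMinor (T₀ T₁ : A → Z → ℝ) (hT₀0 : ∀ a z, 0 ≤ T₀ a z) (hT₁0 : ∀ a z, 0 ≤ T₁ a z)
    (Lw : ℕ → A → Prop) (mono : ∀ j j' a, j ≤ j' → Lw j a → Lw j' a)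
    (G₀ G₁ : ℕ → A → Z → Prop) (cop : Z → Z → Prop)
    (hG : ∀ z₀ z₁, cop z₀ z₁ → ∀ j a, Lw (j + 1) a → G₀ j a z₀ ∨ G₁ j a z₁)
    (m₀ J : ℕ) (F H : ℕ → ℝ) (E : ℝ) (hF0 : ∀ j, 0 ≤ F j)
    (h1₀ : ∀ j ≤ J, ∀ a, ¬ Lw j a → Ex (T₀ a) ≤ F j)
    (h1₁ : ∀ j ≤ J, ∀ a, ¬ Lw j a → Ex (T₁ a) ≤ F j)
    (h2₀ : ∀ j < J, ∀ z, ∑ a ∈ Finset.univ.filter (fun a => G₀ j a z), T₀ a z ≤ H j)
    (h2₁ : ∀ j < J, ∀ z, ∑ a ∈ Finset.univ.filter (fun a => G₁ j a z), T₁ a z ≤ H j)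
    (h3 : ∀ z, ∑ a, T₁ a z ≤ E) :
    Ex (fun z₀ => Ex (fun z₁ => if cop z₀ z₁ then
      ∑ a ∈ Finset.univ.filter (fun a => ¬ Lw m₀ a), T₀ a z₀ * T₁ a z₁ else 0)) ≤
      F J * E + ∑ r ∈ Finset.Ico m₀ J, 2 * (F r * H r) := by
  -- the pieces
  set g₀ : ℕ → A → Z → ℝ := fun j a z => if G₀ j a z then T₀ a z else 0 with hg₀
  set g₁ : ℕ → A → Z → ℝ := fun j a z => if G₁ j a z then T₁ a z else 0 with hg₁
  have hg₀0 : ∀ r a z, 0 ≤ g₀ r a z := fun r a z => by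
    simp only [hg₀]; split_ifs; exacts [hT₀0 _ _, le_rfl]
  have hg₁0 : ∀ r a z, 0 ≤ g₁ r a z := fun r a z => by
    simp only [hg₁]; split_ifs; exacts [hT₁0 _ _, le_rfl]
  set S : ℕ → Finset A := fun j => Finset.univ.filter (fun a => ¬ Lw j a ∧ Lw (j + 1) a) with hS
  have hpt : ∀ z₀ z₁ : Z, (if cop z₀ z₁ then
        ∑ a ∈ Finset.univ.filter (fun a => ¬ Lw m₀ a), T₀ a z₀ * T₁ a z₁ else 0) ≤
      ∑ a ∈ Finset.univ.filter (fun a => ¬ Lw J a), T₀ a z₀ * T₁ a z₁ +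
      ∑ j ∈ Finset.Ico m₀ J,
        (∑ a ∈ S j, T₀ a z₀ * g₁ j a z₁ + ∑ a ∈ S j, g₀ j a z₀ * T₁ a z₁) := by
    intro z₀ z₁
    have hnn : ∀ j, 0 ≤ ∑ a ∈ S j, T₀ a z₀ * g₁ j a z₁ + ∑ a ∈ S j, g₀ j a z₀ * T₁ a z₁ :=
      fun j => add_nonneg
      (Finset.sum_nonneg fun a _ => mul_nonneg (hT₀0 _ _) (hg₁0 _ _ _))
      (Finset.sum_nonneg fun a _ => mul_nonneg (hg₀0 _ _ _) (hT₁0 _ _))
    split_ifs with hcop
    · calc ∑ a ∈ Finset.univ.filter (fun a => ¬ Lw m₀ a), T₀ a z₀ * T₁ a z₁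
          ≤ ∑ a ∈ (Finset.univ.filter (fun a => ¬ Lw J a)) ∪
              (Finset.Ico m₀ J).biUnion S, T₀ a z₀ * T₁ a z₁ := by
            refine Finset.sum_le_sum_of_subset_of_nonneg ?_ fun a _ _ =>
              mul_nonneg (hT₀0 _ _) (hT₁0 _ _)
            intro a ha
            rw [Finset.mem_filter] at ha
            rw [Finset.mem_union, Finset.mem_filter, Finset.mem_biUnion]
            by_cases h : Lw J a
            · obtain ⟨j, h1, h2, h3, h4⟩ := exists_level mono ha.2 h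
              exact Or.inr ⟨j, Finset.mem_Ico.2 ⟨h1, h2⟩, Finset.mem_filter.2 ⟨ha.1, h3, h4⟩⟩
            · exact Or.inl ⟨ha.1, h⟩
        _ ≤ ∑ a ∈ (Finset.univ.filter (fun a => ¬ Lw J a)), T₀ a z₀ * T₁ a z₁ +
            ∑ a ∈ (Finset.Ico m₀ J).biUnion S, T₀ a z₀ * T₁ a z₁ := by
            have h1 : 0 ≤ ∑ a ∈ (Finset.univ.filter (fun a => ¬ Lw J a)) ∩
                (Finset.Ico m₀ J).biUnion S, T₀ a z₀ * T₁ a z₁ :=
              Finset.sum_nonneg fun a _ => mul_nonneg (hT₀0 _ _) (hT₁0 _ _)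
            have h2 := Finset.sum_union_inter (f := fun a => T₀ a z₀ * T₁ a z₁)
              (s₁ := Finset.univ.filter (fun a => ¬ Lw J a))
              (s₂ := (Finset.Ico m₀ J).biUnion S)
            linarith
        _ ≤ _ := by
            refine add_le_add le_rfl ?_
            rw [Finset.sum_biUnion (by
              intro r _ r' _ hrr
              rw [Function.onFun, Finset.disjoint_filter]
              rintro a _ ⟨h1, h2⟩ ⟨h3, h4⟩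
              rcases lt_or_gt_of_ne hrr with h | h
              · exact h3 (mono _ _ _ h h2)
              · exact h1 (mono _ _ _ h h4))]
            refine Finset.sum_le_sum fun r hr => ?_
            rw [← Finset.sum_add_distrib]
            refine Finset.sum_le_sum fun a ha => ?_
            obtain ⟨haT, hnl, hl⟩ := Finset.mem_filter.1 ha
            have h3 : 0 ≤ T₀ a z₀ * g₁ r a z₁ := mul_nonneg (hT₀0 _ _) (hg₁0 _ _ _)
            have h4 : 0 ≤ g₀ r a z₀ * T₁ a z₁ := mul_nonneg (hg₀0 _ _ _) (hT₁0 _ _)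
            rcases hG z₀ z₁ hcop r a hl with h5 | h5
            · have h6 : g₀ r a z₀ = T₀ a z₀ := if_pos h5
              rw [h6] at h4 ⊢
              linarith
            · have h6 : g₁ r a z₁ = T₁ a z₁ := if_pos h5
              rw [h6] at h3 ⊢
              linarith
    · exact add_nonneg (Finset.sum_nonneg fun a _ => mul_nonneg (hT₀0 _ _) (hT₁0 _ _))
        (Finset.sum_nonneg fun r _ => hnn r)
  -- averaging
  have hA : Ex (fun z₀ : Z => Ex (fun z₁ : Z =>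
      ∑ a ∈ Finset.univ.filter (fun a => ¬ Lw J a), T₀ a z₀ * T₁ a z₁)) ≤ F J * E := by
    refine Ex_split _ T₀ T₁ _ _ hT₁0 ?_ (hF0 J) ?_
    · intro a ha
      exact h1₀ J le_rfl a (Finset.mem_filter.1 ha).2
    · intro z
      refine le_trans ?_ (h3 z)
      exact Finset.sum_le_sum_of_subset_of_nonneg (Finset.filter_subset _ _)
        fun a _ _ => hT₁0 _ _
  have hB : ∀ r ∈ Finset.Ico m₀ J, Ex (fun z₀ : Z =>
      Ex (fun z₁ : Z => ∑ a ∈ S r, T₀ a z₀ * g₁ r a z₁)) ≤ F r * H r := by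
    intro r hr
    have hr1 := (Finset.mem_Ico.1 hr).2
    refine Ex_split _ T₀ (g₁ r) _ _ (hg₁0 r) ?_ (hF0 r) ?_
    · intro a ha
      exact h1₀ r hr1.le a (Finset.mem_filter.1 ha).2.1
    · intro z
      refine le_trans ?_ (h2₁ r hr1 z)
      simp only [hg₁]
      rw [← Finset.sum_filter]
      refine Finset.sum_le_sum_of_subset_of_nonneg ?_ fun a _ _ => hT₁0 _ _
      intro a ha
      rw [Finset.mem_filter] at ha ⊢
      exact ⟨Finset.mem_univ _, ha.2⟩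
  have hB' : ∀ r ∈ Finset.Ico m₀ J, Ex (fun z₀ : Z =>
      Ex (fun z₁ : Z => ∑ a ∈ S r, g₀ r a z₀ * T₁ a z₁)) ≤ F r * H r := by
    intro r hr
    have hr1 := (Finset.mem_Ico.1 hr).2
    refine Ex_split' _ (g₀ r) T₁ _ _ (hg₀0 r) ?_ (hF0 r) ?_
    · intro a ha
      exact h1₁ r hr1.le a (Finset.mem_filter.1 ha).2.1
    · intro z
      refine le_trans ?_ (h2₀ r hr1 z)
      simp only [hg₀]
      rw [← Finset.sum_filter]
      refine Finset.sum_le_sum_of_subset_of_nonneg ?_ fun a _ _ => hT₀0 _ _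
      intro a ha
      rw [Finset.mem_filter] at ha ⊢
      exact ⟨Finset.mem_univ _, ha.2⟩
  -- combine
  refine (Ex_mono fun z₀ => Ex_mono fun z₁ => hpt z₀ z₁).trans ?_
  simp only [Ex_add, Ex_sum]
  refine add_le_add ?_ (Finset.sum_le_sum fun r hr => ?_)
  · have := hA
    simp only [Ex_sum] at this
    exact this
  · have h1 := hB r hr
    have h2 := hB' r hr
    simp only [Ex_sum] at h1 h2
    linarith

open Classical in
/-- Cauchy's inequality -/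
lemma absMinor2 (t : Fin 3 → A → Z → ℂ) (cf : A → ℂ) (hcf : ∀ a, ‖cf a‖ ≤ 2)
    (cop : Z → Z → Prop) (p : A → Prop) (E₄ : ℝ) (hE : 0 ≤ E₄)
    (h4 : ∀ b : A → ℂ, Ex (fun z => ‖∑ a, b a * t 2 a z‖ ^ 2) ≤ E₄ * ∑ a, ‖b a‖ ^ 2) (B : ℝ)
    (hB : Ex (fun z₀ : Z => Ex (fun z₁ : Z => if cop z₀ z₁ then
      ∑ a ∈ Finset.univ.filter (fun a => ¬ p a), ‖t 0 a z₀‖ ^ 2 * ‖t 1 a z₁‖ ^ 2 else 0)) ≤ B) :
    (Ex (fun z : Fin 3 → Z => if cop (z 0) (z 1) then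
      ‖∑ a ∈ Finset.univ.filter (fun a => ¬ p a), cf a * (t 0 a (z 0) *
        (starRingEnd ℂ) (t 1 a (z 1)) * (starRingEnd ℂ) (t 2 a (z 2)))‖ else 0)) ^ 2 ≤
      4 * E₄ * B := by
  rw [Ex3 (fun z₀ z₁ z₂ : Z => if cop z₀ z₁ then
      ‖∑ a ∈ Finset.univ.filter (fun a => ¬ p a), cf a * (t 0 a z₀ *
        (starRingEnd ℂ) (t 1 a z₁) * (starRingEnd ℂ) (t 2 a z₂))‖ else 0)]
  refine (Ex_sq_le _).trans ((Ex_mono fun z₀ => (Ex_sq_le _).trans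
    (Ex_mono fun z₁ => Ex_sq_le _)).trans ?_)
  have h1 : ∀ z₀ z₁ : Z, Ex (fun z₂ : Z => (if cop z₀ z₁ then
      ‖∑ a ∈ Finset.univ.filter (fun a => ¬ p a), cf a * (t 0 a z₀ *
        (starRingEnd ℂ) (t 1 a z₁) * (starRingEnd ℂ) (t 2 a z₂))‖ else 0) ^ 2) ≤
      (4 * E₄) * (if cop z₀ z₁ then
      ∑ a ∈ Finset.univ.filter (fun a => ¬ p a), ‖t 0 a z₀‖ ^ 2 * ‖t 1 a z₁‖ ^ 2 else 0) := by
    intro z₀ z₁
    split_ifs with hcop
    · have h2 := h4 (fun a => if ¬ p a then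
          (starRingEnd ℂ) (cf a * (t 0 a z₀ * (starRingEnd ℂ) (t 1 a z₁))) else 0)
      refine le_trans (le_of_eq ?_) (h2.trans ?_)
      · congr 1; funext z₂
        congr 1
        rw [← RCLike.norm_conj, map_sum, Finset.sum_filter]
        congr 1
        refine Finset.sum_congr rfl fun a _ => ?_
        by_cases ha : ¬ p a
        · rw [if_pos ha, if_pos ha]
          simp only [map_mul, Complex.conj_conj]
          ring
        · rw [if_neg ha, if_neg ha, zero_mul]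
      · rw [mul_comm 4 E₄, mul_assoc E₄ 4]
        refine mul_le_mul_of_nonneg_left ?_ hE
        rw [Finset.sum_filter, Finset.mul_sum]
        refine Finset.sum_le_sum fun a _ => ?_
        by_cases ha : ¬ p a
        · rw [if_pos ha, if_pos ha, RCLike.norm_conj, norm_mul, norm_mul, RCLike.norm_conj,
            mul_pow, mul_pow]
          refine mul_le_mul_of_nonneg_right ?_ (by positivity)
          have := hcf a
          nlinarith [norm_nonneg (cf a)]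
        · rw [if_neg ha, if_neg ha]
          simp
    · simp only [ne_eq, OfNat.ofNat_ne_zero, not_false_eq_true, zero_pow, mul_zero]
      exact (Ex_const (α := Z) 0).le
  refine (Ex_mono fun z₀ => Ex_mono fun z₁ => h1 z₀ z₁).trans ?_
  simp only [Ex_mul_left]
  exact mul_le_mul_of_nonneg_left hB (by positivity)

end abs

section ideal

variable {K : Type} [Field K] [NumberField K]

lemma DK_pos (K : Type) [Field K] [NumberField K] : 0 < DK K := by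
  have h1 : Module.finrank ℤ (𝓞 K) = DK K := Module.finrank_eq_card_chooseBasisIndex ℤ (𝓞 K)
  rw [← h1, RingOfIntegers.rank]
  exact Module.finrank_pos

lemma Low_mono {T ρ ρ' : ℕ} {α : K} (h : ρ ≤ ρ') (hl : Low T ρ α) : Low T ρ' α := by
  have h' : (ρ : ℝ) ≤ ρ' := by exact_mod_cast h
  obtain ⟨r, b, h1, h2, h3, h4⟩ := hl
  exact ⟨r, b, h1, h2, fun w => (h3 w).trans h', fun w => (h4 w).trans
    (div_le_div_of_nonneg_right h' (Nat.cast_nonneg T))⟩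

/-- one of the two common divisors is small -/
lemma half {r : 𝓞 K} {b : K} (hr : r ≠ 0) (hb : b ∈ DD K) {n : ℕ}
    (hw : ∀ w : InfinitePlace K, w (r : K) ≤ ((2 ^ n : ℕ) : ℝ)) {P₀ P₁ : 𝓞 K}
    (hcop : IsCoprime P₀ P₁) :
    (den (b / (r : K)) ⊔ Ideal.span {P₀}).absNorm ≤ 2 ^ ((DK K * n + 1) / 2) ∨
    (den (b / (r : K)) ⊔ Ideal.span {P₁}).absNorm ≤ 2 ^ ((DK K * n + 1) / 2) := by
  by_contra hcon
  push Not at hcon
  set I := den (b / (r : K)) with hI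
  have hcI : IsCoprime (I ⊔ Ideal.span {P₀}) (I ⊔ Ideal.span {P₁}) := by
    rw [Ideal.isCoprime_iff_sup_eq, eq_top_iff]
    have h1 := (Ideal.isCoprime_span_singleton_iff P₀ P₁).2 hcop
    rw [Ideal.isCoprime_iff_sup_eq] at h1
    rw [← h1]
    exact sup_le_sup le_sup_right le_sup_right
  have h1 : (I ⊔ Ideal.span {P₀}) * (I ⊔ Ideal.span {P₁}) ∣ I :=
    hcI.mul_dvd (Ideal.dvd_iff_le.2 le_sup_left) (Ideal.dvd_iff_le.2 le_sup_left)
  have h2 : (I ⊔ Ideal.span {P₀}).absNorm * (I ⊔ Ideal.span {P₁}).absNorm ∣ I.absNorm := by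
    rw [← map_mul]
    exact map_dvd Ideal.absNorm h1
  have hrI : r ∈ I := mem_den_div hr hb
  have hspan : I ∣ Ideal.span {r} := by
    rw [Ideal.dvd_iff_le, Ideal.span_singleton_le_iff_mem]
    exact hrI
  have hr0 : (Ideal.span {r} : Ideal (𝓞 K)).absNorm ≠ 0 := by
    rw [Ne, Ideal.absNorm_eq_zero_iff, Ideal.span_singleton_eq_bot]
    exact hr
  have h3 : (I ⊔ Ideal.span {P₀}).absNorm * (I ⊔ Ideal.span {P₁}).absNorm ≤
      (Ideal.span {r} : Ideal (𝓞 K)).absNorm :=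
    Nat.le_of_dvd (Nat.pos_of_ne_zero hr0) (h2.trans (map_dvd Ideal.absNorm hspan))
  have h4 : ((Ideal.span {r} : Ideal (𝓞 K)).absNorm : ℝ) ≤ ((2 ^ (DK K * n) : ℕ) : ℝ) := by
    rw [absNorm_span, nm_eq_prod]
    calc ∏ w : InfinitePlace K, w (r : K) ^ w.mult
        ≤ ∏ w : InfinitePlace K, ((2 ^ n : ℕ) : ℝ) ^ w.mult :=
          Finset.prod_le_prod (fun w _ => pow_nonneg (apply_nonneg w _) _)
            fun w _ => pow_le_pow_left₀ (apply_nonneg w _) (hw w) _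
      _ = _ := by
          rw [Finset.prod_pow_eq_pow_sum, sum_mult]
          push_cast
          rw [← pow_mul, mul_comm]
  have h5 : (Ideal.span {r} : Ideal (𝓞 K)).absNorm ≤ 2 ^ (DK K * n) := by exact_mod_cast h4
  have h6 := Nat.mul_lt_mul'' hcon.1 hcon.2
  have h7 : 2 ^ (DK K * n) ≤ 2 ^ ((DK K * n + 1) / 2) * 2 ^ ((DK K * n + 1) / 2) := by
    rw [← pow_add]
    exact Nat.pow_le_pow_right (by norm_num) (by omega)
  omega

end ideal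

section num

lemma num0 (A : ℝ) (m : ℕ) (δ : ℝ) (hδ : 0 < δ) : ∃ x₀ : ℕ, ∀ x : ℕ, x₀ ≤ x →
    A * ((x : ℝ) + 1) ^ m / 2 ^ x ≤ δ := by
  have h1 : Filter.Tendsto (fun x : ℕ => ((x + 1 : ℕ) : ℝ) ^ m / (2 : ℝ) ^ (x + 1)) Filter.atTop
      (nhds 0) :=
    (tendsto_pow_const_div_const_pow_of_one_lt m (by norm_num : (1 : ℝ) < 2)).comp
      (Filter.tendsto_add_atTop_nat 1)
  have h2 := h1.const_mul (A * 2)
  rw [mul_zero] at h2
  obtain ⟨x₀, hx₀⟩ := (h2.eventually (gt_mem_nhds hδ)).exists_forall_of_atTop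
  refine ⟨x₀, fun x hx => ?_⟩
  refine le_trans (le_of_eq ?_) (hx₀ x hx).le
  push_cast
  rw [pow_succ (2 : ℝ) x]
  field_simp

lemma num3 (D : ℕ) (hD : 1 ≤ D) (A : ℝ) (hA : 0 ≤ A) (δ : ℝ) (hδ : 0 < δ) : ∃ d₀ : ℕ,
    ∀ d : ℕ, d₀ ≤ d → A * (2 : ℝ) ^ (5 * (d / (640 * D))) * ((d : ℝ) + 1) ^ (D + 1) /
      2 ^ ((D * (d / (32 * D ^ 2))) / 2) ≤ δ := by
  obtain ⟨x₀, hx₀⟩ := num0 (A * 2 ^ D * (128 * D) ^ (D + 1)) (D + 1) δ hδ
  refine ⟨128 * D * x₀, fun d hd => ?_⟩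
  obtain ⟨x, hx⟩ : ∃ x : ℕ, x = d / (128 * D) := ⟨_, rfl⟩
  have hxx : x₀ ≤ x := by
    rw [hx, Nat.le_div_iff_mul_le (by positivity), mul_comm]
    exact hd
  refine le_trans ?_ (hx₀ x hxx)
  have e1 : 5 * (d / (640 * D)) ≤ x := by
    rw [hx]
    refine (Nat.mul_div_le_mul_div_assoc _ _ _).trans (le_of_eq ?_)
    rw [show 640 * D = 5 * (128 * D) by ring, Nat.mul_div_mul_left _ _ (by norm_num)]
  have e2 : d < 128 * D * (x + 1) := by
    rw [hx]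
    exact Nat.lt_mul_div_succ d (by positivity)
  obtain ⟨Q, hQ⟩ : ∃ Q : ℕ, Q = (D * (d / (32 * D ^ 2))) / 2 := ⟨_, rfl⟩
  have e3 : 2 * x ≤ Q + D := by
    have h1 : d < 32 * D ^ 2 * (d / (32 * D ^ 2) + 1) := Nat.lt_mul_div_succ d (by positivity)
    have h2 : 128 * D * x ≤ d := by rw [hx]; exact Nat.mul_div_le _ _
    obtain ⟨m₀, hm₀⟩ : ∃ m₀ : ℕ, m₀ = d / (32 * D ^ 2) := ⟨_, rfl⟩
    rw [← hm₀] at h1 hQ
    have h3 : (32 * D) * (4 * x) < (32 * D) * (D * (m₀ + 1)) := by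
      have h4 : (32 * D) * (4 * x) = 128 * D * x := by ring
      have h5 : (32 * D) * (D * (m₀ + 1)) = 32 * D ^ 2 * (m₀ + 1) := by ring
      omega
    have h4 := lt_of_mul_lt_mul_left h3 (Nat.zero_le _)
    have h5 : D * (m₀ + 1) = D * m₀ + D := by ring
    omega
  rw [← hQ, div_le_div_iff₀ (by positivity) (by positivity)]
  have h1 : ((d : ℝ) + 1) ^ (D + 1) ≤ (128 * D * ((x : ℝ) + 1)) ^ (D + 1) := by
    refine pow_le_pow_left₀ (by positivity) ?_ _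
    have : d + 1 ≤ 128 * D * (x + 1) := e2
    exact_mod_cast this
  have h2 : (2 : ℝ) ^ (5 * (d / (640 * D))) * 2 ^ x ≤ 2 ^ Q * 2 ^ D := by
    rw [← pow_add, ← pow_add]
    exact pow_le_pow_right₀ (by norm_num) (by omega)
  calc A * (2 : ℝ) ^ (5 * (d / (640 * D))) * ((d : ℝ) + 1) ^ (D + 1) * 2 ^ x
      = A * (((2 : ℝ) ^ (5 * (d / (640 * D))) * 2 ^ x) * ((d : ℝ) + 1) ^ (D + 1)) := by ring
    _ ≤ A * ((2 ^ Q * 2 ^ D) * (128 * D * ((x : ℝ) + 1)) ^ (D + 1)) :=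
        mul_le_mul_of_nonneg_left (mul_le_mul h2 h1 (by positivity) (by positivity)) hA
    _ = _ := by rw [mul_pow (128 * (D : ℝ))]; ring

/-- the numerics -/
lemma num4 {D k C d : ℕ} {S : ℝ} (hS : 1 ≤ S) {m₀ J : ℕ} (hJ : J = (k + 1) * d)
    (hm₀ : m₀ ≤ d) :
    (2 ^ C * S ^ 2 * ((d : ℝ) + 1) ^ D / (2 ^ J) ^ D) * (2 ^ C * S * 2 ^ (k * d * D)) +
      ∑ r ∈ Finset.Ico m₀ J, 2 * ((2 ^ C * S ^ 2 * ((d : ℝ) + 1) ^ D / (2 ^ r) ^ D) *
        (2 ^ C * S ^ 2 * 2 ^ ((D * (r + 1) + 1) / 2))) ≤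
      2 ^ (2 * C + D + 2) * (k + 2) * S ^ 4 * ((d : ℝ) + 1) ^ (D + 1) / 2 ^ ((D * m₀) / 2) := by
  obtain ⟨Q, hQ⟩ : ∃ Q : ℕ, Q = (D * m₀) / 2 := ⟨_, rfl⟩
  rw [← hQ]
  obtain ⟨W, hW⟩ : ∃ W : ℝ, W = 2 ^ (2 * C) * S ^ 4 * ((d : ℝ) + 1) ^ D / 2 ^ Q := ⟨_, rfl⟩
  have hW0 : 0 ≤ W := by rw [hW]; positivity
  have hd1 : (1 : ℝ) ≤ (d : ℝ) + 1 := by
    have : (0 : ℝ) ≤ d := Nat.cast_nonneg d
    linarith
  have e1 : (2 ^ C * S ^ 2 * ((d : ℝ) + 1) ^ D / (2 ^ J) ^ D) * (2 ^ C * S * 2 ^ (k * d * D)) ≤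
      W := by
    have h1 : ((2 : ℝ) ^ J) ^ D = 2 ^ (k * d * D) * 2 ^ (d * D) := by
      rw [← pow_mul, ← pow_add, hJ]; congr 1; ring
    have h2 : (2 ^ C * S ^ 2 * ((d : ℝ) + 1) ^ D / (2 ^ J) ^ D) * (2 ^ C * S * 2 ^ (k * d * D)) =
        2 ^ (2 * C) * S ^ 3 * ((d : ℝ) + 1) ^ D / 2 ^ (d * D) := by
      rw [h1, two_mul, pow_add (2 : ℝ) C C]
      field_simp
    rw [h2, hW]
    have h3 : S ^ 3 ≤ S ^ 4 := pow_le_pow_right₀ hS (by norm_num)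
    have h4 : (2 : ℝ) ^ Q ≤ 2 ^ (d * D) := by
      refine pow_le_pow_right₀ (by norm_num) ?_
      have h5 : D * m₀ ≤ d * D := by rw [mul_comm d D]; exact Nat.mul_le_mul_left _ hm₀
      omega
    gcongr
  have e2 : ∀ r ∈ Finset.Ico m₀ J, 2 * ((2 ^ C * S ^ 2 * ((d : ℝ) + 1) ^ D / (2 ^ r) ^ D) *
        (2 ^ C * S ^ 2 * 2 ^ ((D * (r + 1) + 1) / 2))) ≤ 2 ^ (D + 2) * W := by
    intro r hr
    have hr1 := (Finset.mem_Ico.1 hr).1
    have h1 : 2 * ((2 ^ C * S ^ 2 * ((d : ℝ) + 1) ^ D / (2 ^ r) ^ D) *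
        (2 ^ C * S ^ 2 * 2 ^ ((D * (r + 1) + 1) / 2))) =
        (2 ^ (2 * C) * S ^ 4 * ((d : ℝ) + 1) ^ D) *
          (2 * 2 ^ ((D * (r + 1) + 1) / 2) / 2 ^ (D * r)) := by
      have h2C : (2 : ℝ) ^ (2 * C) = 2 ^ C * 2 ^ C := by rw [two_mul, pow_add]
      rw [← pow_mul, mul_comm r D, h2C]
      ring
    have h2 : 2 ^ (D + 2) * W = (2 ^ (2 * C) * S ^ 4 * ((d : ℝ) + 1) ^ D) *
        (2 ^ (D + 2) / 2 ^ Q) := by rw [hW]; ring
    rw [h1, h2]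
    refine mul_le_mul_of_nonneg_left ?_ (by positivity)
    rw [div_le_div_iff₀ (by positivity) (by positivity), ← pow_succ', ← pow_add, ← pow_add]
    refine pow_le_pow_right₀ (by norm_num) ?_
    have h3 : D * m₀ ≤ D * r := Nat.mul_le_mul_left _ hr1
    have h4 : D * (r + 1) = D * r + D := by ring
    omega
  have e3 : ∑ r ∈ Finset.Ico m₀ J, 2 * ((2 ^ C * S ^ 2 * ((d : ℝ) + 1) ^ D / (2 ^ r) ^ D) *
        (2 ^ C * S ^ 2 * 2 ^ ((D * (r + 1) + 1) / 2))) ≤ ((k + 1) * d) * (2 ^ (D + 2) * W) := by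
    refine (Finset.sum_le_sum e2).trans ?_
    rw [Finset.sum_const, Nat.card_Ico, nsmul_eq_mul]
    refine mul_le_mul_of_nonneg_right ?_ (by positivity)
    have : J - m₀ ≤ (k + 1) * d := by rw [← hJ]; exact Nat.sub_le _ _
    exact_mod_cast this
  refine (add_le_add e1 e3).trans ?_
  have e4 : 2 ^ (2 * C + D + 2) * (k + 2) * S ^ 4 * ((d : ℝ) + 1) ^ (D + 1) / 2 ^ Q =
      ((k + 2) * ((d : ℝ) + 1)) * (2 ^ (D + 2) * W) := by
    rw [hW, show 2 * C + D + 2 = (D + 2) + 2 * C by ring, pow_add (2 : ℝ) (D + 2) (2 * C),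
      pow_succ ((d : ℝ) + 1) D]
    ring
  rw [e4]
  have e5 : W ≤ 2 ^ (D + 2) * W := le_mul_of_one_le_left hW0 (one_le_pow₀ (by norm_num))
  have e6 : (0 : ℝ) ≤ 2 ^ (D + 2) * W := by positivity
  have e7 : (1 : ℝ) + (k + 1) * d ≤ (k + 2) * ((d : ℝ) + 1) := by
    have h1 : (0 : ℝ) ≤ d := Nat.cast_nonneg d
    have h2 : (0 : ℝ) ≤ k := Nat.cast_nonneg k
    nlinarith
  calc W + ((k + 1) * d) * (2 ^ (D + 2) * W)
      ≤ (1 + (k + 1) * d) * (2 ^ (D + 2) * W) := by linarith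
    _ ≤ _ := mul_le_mul_of_nonneg_right e7 e6

end num

end AIbN

variable {K : Type} [Field K] [NumberField K]

open Classical in
/-- [AIB] -/
theorem minor {c : ℕ} (hc : Cst K c) {κ Λ μ q e₀ γ : ℕ} {M : Fin 3 → 𝓞 K}
    (hC : Ctx κ Λ μ q e₀ γ M) {k s : ℕ} (hs : s = 4 * k + 4)
    (hκ : 640 * s ^ 2 * DK K ^ 2 ≤ κ) : ∀ ε : ℝ, 0 < ε → ∃ d₀ : ℕ, ∀ d : ℕ, d₀ ≤ d →
    ∀ v g : Fin 3 → Fin s → 𝓞 K, (∀ X i, SlotOK c q γ (v X i) (g X i)) →
    ∀ V : Fin 3 → Finset (Fin s), (∀ X, (V X).card ≤ k) →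
    ∀ cf : (JJ K → Fin (TL c s μ e₀ d)) → ℂ, (∀ a, ‖cf a‖ ≤ 2) →
    Ex (fun z : Fin 3 → Fin s → JJ K → Fin (2 ^ d) =>
      if IsCoprime (∏ i ∈ V 0, zz q d (v 0 i) (g 0 i) (z 0 i))
        (∏ i ∈ V 1, zz q d (v 1 i) (g 1 i) (z 1 i)) then
        ‖∑ a ∈ Finset.univ.filter (fun a : JJ K → Fin (TL c s μ e₀ d) =>
            ¬ Low (TL c s μ e₀ d) (2 ^ (d / (32 * DK K ^ 2))) (fr _ a)),
          cf a * (TT q d (M 0) (v 0) (g 0) (fr (TL c s μ e₀ d) a) (V 0) (z 0) *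
        (starRingEnd ℂ) (TT q d (M 1) (v 1) (g 1) (fr (TL c s μ e₀ d) a) (V 1) (z 1)) *
        (starRingEnd ℂ) (TT q d (M 2) (v 2) (g 2) (fr (TL c s μ e₀ d) a) (V 2) (z 2)))‖
      else 0) ≤ ε := by
  intro ε hε
  have hL1 : ∀ X, _ := fun X => L1 hc hC.toQOK hs hκ (M X) (hC.Mge X) (hC.Mle X)
  have hL2 : ∀ X, _ := fun X => L2 hc hC.toQOK hκ (M X) (hC.Mge X) (hC.Mle X)
  obtain ⟨C10, h10⟩ := hL1 0
  obtain ⟨C11, h11⟩ := hL1 1
  obtain ⟨C20, h20⟩ := hL2 0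
  obtain ⟨C21, h21⟩ := hL2 1
  obtain ⟨C3, h3⟩ := L3 hc hC.toQOK hκ (M 1) (hC.Mge 1) (hC.Mle 1)
  obtain ⟨C4, h4⟩ := L4 hc hC.toQOK hκ (M 2) (hC.Mge 2) (hC.Mle 2)
  obtain ⟨C, hCC⟩ : ∃ C : ℕ, C = C10 + C11 + C20 + C21 + C3 + C4 := ⟨_, rfl⟩
  have hD : 1 ≤ DK K := AIbN.DK_pos K
  obtain ⟨d₁, hd₁⟩ := AIbN.num3 (DK K) hD (4 * 2 ^ C * (2 ^ (2 * C + DK K + 2) * (k + 2)))
    (by positivity) (ε ^ 2) (by positivity)
  refine ⟨C + d₁, fun d hd v g hv V hV cf hcf => ?_⟩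
  have hS : 1 ≤ sm K d := one_le_pow₀ (by norm_num)
  have hS0 : 0 < sm K d := by linarith
  have hpw : ∀ {C'}, C' ≤ C → (2 : ℝ) ^ C' ≤ 2 ^ C := fun h => pow_le_pow_right₀ (by norm_num) h
  obtain ⟨J, hJ⟩ : ∃ J : ℕ, J = (k + 1) * d := ⟨_, rfl⟩
  have hJd : ∀ X, ∀ j < J, 2 * (j + 1) + C ≤ (s - (V X).card) * d := by
    intro X j hj
    have h1 : 3 * k + 4 ≤ s - (V X).card := by have := hV X; omega
    have h2 : (3 * k + 4) * d ≤ (s - (V X).card) * d := Nat.mul_le_mul_right _ h1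
    have h4 : (3 * k + 4) * d = 3 * (k * d) + 4 * d := by ring
    have h5 : (k + 1) * d = k * d + d := by ring
    omega
  -- the bound of the mean square
  have hB := AIbN.absMinor
    (A := JJ K → Fin (TL c s μ e₀ d)) (Z := Fin s → JJ K → Fin (2 ^ d))
    (fun a z => ‖TT q d (M 0) (v 0) (g 0) (fr (TL c s μ e₀ d) a) (V 0) z‖ ^ 2)
    (fun a z => ‖TT q d (M 1) (v 1) (g 1) (fr (TL c s μ e₀ d) a) (V 1) z‖ ^ 2)
    (fun a z => by positivity) (fun a z => by positivity)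
    (fun j a => Low (TL c s μ e₀ d) (2 ^ j) (fr (TL c s μ e₀ d) a))
    (fun j j' a h hl => AIbN.Low_mono (Nat.pow_le_pow_right (by norm_num) h) hl)
    (fun j a z => LowG (TL c s μ e₀ d) (2 ^ (j + 1)) (fr (TL c s μ e₀ d) a)
      (M 0 * ∏ i ∈ V 0, zz q d (v 0 i) (g 0 i) (z i)) (2 ^ ((DK K * (j + 1) + 1) / 2)))
    (fun j a z => LowG (TL c s μ e₀ d) (2 ^ (j + 1)) (fr (TL c s μ e₀ d) a)
      (M 1 * ∏ i ∈ V 1, zz q d (v 1 i) (g 1 i) (z i)) (2 ^ ((DK K * (j + 1) + 1) / 2)))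
    (fun z₀ z₁ => IsCoprime (∏ i ∈ V 0, zz q d (v 0 i) (g 0 i) (z₀ i))
        (∏ i ∈ V 1, zz q d (v 1 i) (g 1 i) (z₁ i)))
    (fun z₀ z₁ hcop j a hl => by
      have hcop' := (cop_iff hC hv (V 0) (V 1) z₀ z₁).2 hcop
      obtain ⟨r, b, hr, hb, hr1, hb1⟩ := hl
      rcases AIbN.half hr hb hr1 hcop' with h5 | h5
      · exact Or.inl ⟨r, b, hr, hb, hr1, hb1, h5⟩
      · exact Or.inr ⟨r, b, hr, hb, hr1, hb1, h5⟩)
    (d / (32 * DK K ^ 2)) J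
    (fun j => 2 ^ C * sm K d ^ 2 * ((d : ℝ) + 1) ^ DK K / (2 ^ j) ^ DK K)
    (fun j => 2 ^ C * sm K d ^ 2 * 2 ^ ((DK K * (j + 1) + 1) / 2))
    (2 ^ C * sm K d * 2 ^ (k * d * DK K))
    (fun j => by positivity)
    (fun j hj a hl => by
      refine (h10 d (by omega) (v 0) (g 0) (hv 0) (V 0) (by have := hV 0; omega) a j
        (by omega) hl).trans ?_
      have := hpw (show C10 ≤ C by omega)
      gcongr)
    (fun j hj a hl => by
      refine (h11 d (by omega) (v 1) (g 1) (hv 1) (V 1) (by have := hV 1; omega) a j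
        (by omega) hl).trans ?_
      have := hpw (show C11 ≤ C by omega)
      gcongr)
    (fun j hj z => by
      refine (h20 d (by omega) (v 0) (g 0) (hv 0) (V 0) ((DK K * (j + 1) + 1) / 2) (j + 1)
        (by have := hJd 0 j hj; omega) z).trans ?_
      have := hpw (show C20 ≤ C by omega)
      gcongr)
    (fun j hj z => by
      refine (h21 d (by omega) (v 1) (g 1) (hv 1) (V 1) ((DK K * (j + 1) + 1) / 2) (j + 1)
        (by have := hJd 1 j hj; omega) z).trans ?_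
      have := hpw (show C21 ≤ C by omega)
      gcongr)
    (fun z => by
      refine (h3 d (v 1) (g 1) (hv 1) (V 1) z).trans ?_
      have h5 := hpw (show C3 ≤ C by omega)
      have h6 : (2 : ℝ) ^ ((V 1).card * d * DK K) ≤ 2 ^ (k * d * DK K) :=
        pow_le_pow_right₀ (by norm_num)
          (Nat.mul_le_mul_right _ (Nat.mul_le_mul_right _ (hV 1)))
      gcongr)
  have hB' := hB.trans (AIbN.num4 (D := DK K) (k := k) (C := C) (d := d) hS hJ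
    (Nat.div_le_self _ _))
  have hM := AIbN.absMinor2 (A := JJ K → Fin (TL c s μ e₀ d))
    (Z := Fin s → JJ K → Fin (2 ^ d))
    (fun X a z => TT q d (M X) (v X) (g X) (fr (TL c s μ e₀ d) a) (V X) z) cf hcf
    (fun z₀ z₁ => IsCoprime (∏ i ∈ V 0, zz q d (v 0 i) (g 0 i) (z₀ i))
        (∏ i ∈ V 1, zz q d (v 1 i) (g 1 i) (z₁ i)))
    (fun a => Low (TL c s μ e₀ d) (2 ^ (d / (32 * DK K ^ 2))) (fr (TL c s μ e₀ d) a))
    (2 ^ C * sm K d) (by positivity)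
    (fun b => by
      refine (h4 d (v 2) (g 2) (hv 2) (V 2) b).trans ?_
      have h5 := hpw (show C4 ≤ C by omega)
      have h6 : (0 : ℝ) ≤ ∑ a, ‖b a‖ ^ 2 := Finset.sum_nonneg fun a _ => by positivity
      gcongr) _ hB'
  refine le_of_sq_le_sq ?_ hε.le
  refine hM.trans (le_trans (le_of_eq ?_) (hd₁ d (by omega)))
  have h5 : sm K d ^ 5 = 2 ^ (5 * (d / (640 * DK K))) := by
    unfold sm
    rw [← pow_mul, mul_comm]
  rw [← h5]
  ring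

end Pool.Agent.H366.NK
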