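import Pool.Agent.H366.NK.Div

/-! # [MAJC] a divisor sum over the ideals without small prime factors -/

set_option autoImplicit false

namespace Pool.Agent.H366.NK

open NumberField
open Pool.Agent.H366.GF (Ex ExC)
open Pool.Agent.H366.ZC (e)

variable {K : Type} [Field K] [NumberField K]

namespace MajCN

/-- the number of ideals of norm at most `n` -/
lemma card_norm_le (K : Type) [Field K] [NumberField K] : ∃ C : ℕ, ∀ n : ℕ, 1 ≤ n →
    ∀ S : Finset (Ideal (𝓞 K)), (∀ I ∈ S, I.absNorm ≤ n) → (S.card : ℝ) ≤ 2 ^ C * n := by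
  have ht := NumberField.Ideal.tendsto_norm_le_div_atTop K
  obtain ⟨L, hL⟩ : ∃ L : ℝ, Filter.Tendsto (fun s : ℝ ↦
      (Nat.card {I : Ideal (𝓞 K) // (I.absNorm : ℝ) ≤ s} : ℝ) / s) Filter.atTop (nhds L) :=
    ⟨_, ht⟩
  have h1 : ∀ᶠ n : ℕ in Filter.atTop,
      (Nat.card {I : Ideal (𝓞 K) // (I.absNorm : ℝ) ≤ (n : ℝ)} : ℝ) / (n : ℝ) ≤ L + 1 :=
    tendsto_natCast_atTop_atTop.eventually (hL.eventually_le_const (lt_add_one L))
  obtain ⟨N, hN⟩ := Filter.eventually_atTop.1 h1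
  obtain ⟨C, hC⟩ := pow_unbounded_of_one_lt ((|L| + 1) * (N + 1)) (one_lt_two (α := ℝ))
  refine ⟨C, fun n hn S hS => ?_⟩
  set m : ℕ := max n N with hm
  have hm1 : 1 ≤ m := le_trans hn (le_max_left _ _)
  have hmn : (m : ℝ) ≤ (N + 1) * n := by
    have : m ≤ (N + 1) * n := by
      rw [hm]
      refine max_le ?_ ?_
      · nlinarith
      · nlinarith
    exact_mod_cast this
  have hm0 : (0 : ℝ) < m := by exact_mod_cast hm1
  have h2 := hN m (le_max_right _ _)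
  rw [div_le_iff₀ hm0] at h2
  have hfin : Finite {I : Ideal (𝓞 K) // (I.absNorm : ℝ) ≤ (m : ℝ)} := by
    have h3 := Ideal.finite_setOfPred_absNorm_le (S := 𝓞 K) m
    refine (Set.Finite.subset h3 fun I hI => ?_).to_subtype
    show I.absNorm ≤ m
    have : (I.absNorm : ℝ) ≤ (m : ℝ) := hI
    exact_mod_cast this
  have h4 : S.card ≤ Nat.card {I : Ideal (𝓞 K) // (I.absNorm : ℝ) ≤ (m : ℝ)} := by
    rw [← Fintype.card_coe S, ← Nat.card_eq_fintype_card]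
    refine Nat.card_le_card_of_injective
      (fun I : {x // x ∈ S} => (⟨I.1, by
        have := hS I.1 I.2
        exact_mod_cast this.trans (le_max_left n N)⟩ :
          {I : Ideal (𝓞 K) // (I.absNorm : ℝ) ≤ (m : ℝ)})) ?_
    intro I J h
    exact Subtype.ext (by simpa using congrArg Subtype.val h)
  have h4' : (S.card : ℝ) ≤ (Nat.card {I : Ideal (𝓞 K) // (I.absNorm : ℝ) ≤ (m : ℝ)} : ℝ) := by
    exact_mod_cast h4
  have hL1 : (0 : ℝ) ≤ |L| + 1 := by positivity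
  have hn0 : (0 : ℝ) ≤ n := Nat.cast_nonneg n
  calc (S.card : ℝ) ≤ (L + 1) * m := h4'.trans h2
    _ ≤ (|L| + 1) * m := by
        refine mul_le_mul_of_nonneg_right ?_ hm0.le
        linarith [le_abs_self L]
    _ ≤ (|L| + 1) * ((N + 1) * n) := mul_le_mul_of_nonneg_left hmn hL1
    _ = ((|L| + 1) * (N + 1)) * n := by ring
    _ ≤ 2 ^ C * n := mul_le_mul_of_nonneg_right hC.le hn0

/-- bounds for the dyadic sum -/
noncomputable def CC (l : ℕ) : ℝ := (if l % 2 = 0 then 4 else 3) / 2 ^ (l / 2)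

lemma CC_nonneg (l : ℕ) : 0 ≤ CC l := by
  unfold CC
  split_ifs <;> positivity

lemma CC_le (l : ℕ) : CC l ≤ 4 / 2 ^ (l / 2) := by
  unfold CC
  refine div_le_div_of_nonneg_right ?_ (by positivity)
  split_ifs <;> norm_num

lemma CC_step (l : ℕ) : (2 : ℝ) ^ ((l + 1) / 2) / 2 ^ l ≤ CC l - CC (l + 1) := by
  unfold CC
  rcases Nat.mod_two_eq_zero_or_one l with hc | hc
  · obtain ⟨k, rfl⟩ : ∃ k, l = 2 * k := ⟨l / 2, by omega⟩
    rw [if_pos (by omega), if_neg (by omega), show (2 * k + 1) / 2 = k by omega,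
      show (2 * k) / 2 = k by omega]
    have h2 : (2 : ℝ) ^ k / 2 ^ (2 * k) = 1 / 2 ^ k := by
      rw [two_mul, pow_add]
      field_simp
    rw [h2, ← sub_div]
    norm_num
  · obtain ⟨k, rfl⟩ : ∃ k, l = 2 * k + 1 := ⟨l / 2, by omega⟩
    rw [if_neg (by omega), if_pos (by omega), show (2 * k + 1 + 1) / 2 = k + 1 by omega,
      show (2 * k + 1) / 2 = k by omega]
    have h2 : (2 : ℝ) ^ (k + 1) / 2 ^ (2 * k + 1) = 1 / 2 ^ k := by
      rw [pow_succ, pow_succ, two_mul, pow_add]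
      field_simp
    have h3 : (4 : ℝ) / 2 ^ (k + 1) = 2 / 2 ^ k := by
      rw [pow_succ]
      field_simp
      norm_num
    rw [h2, h3, ← sub_div]
    norm_num

lemma sum_CC (κ n : ℕ) : ∑ l ∈ Finset.Ico κ (κ + n), (2 : ℝ) ^ ((l + 1) / 2) / 2 ^ l ≤
    CC κ - CC (κ + n) := by
  induction n with
  | zero => simp
  | succ n ih =>
    rw [← add_assoc, Finset.sum_Ico_succ_top (by omega)]
    have := CC_step (κ + n)
    linarith

/-- prime ideals which contain an ideal coprime to `q` are of large norm -/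
lemma prime_ge {κ q : ℕ} (hκ : 0 < κ) (hq : 0 < q)
    (hs : ∀ p : ℕ, p.Prime → p < 2 ^ κ → p ∣ q) {I P : Ideal (𝓞 K)} (hI : I ≠ ⊥)
    (hc : IsCoprime I (Ideal.span {(q : 𝓞 K)})) (hP : P.IsPrime) (hIP : I ≤ P) :
    2 ^ κ ≤ P.absNorm := by
  have hQ : QOK κ q (2 * q) 0 := by
    refine ⟨hκ, hq, ?_, hs⟩
    have h1 : q < 2 ^ q := Nat.lt_two_pow_self
    have h2 : (2 : ℕ) ^ (2 * q) = 2 ^ q * 2 ^ q := by rw [two_mul, pow_add]
    have h3 : 2 ≤ 2 ^ q := by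
      calc 2 = 2 ^ 1 := by norm_num
        _ ≤ 2 ^ q := Nat.pow_le_pow_right (by norm_num) hq
    rw [h2]
    norm_num
    exact Nat.mul_le_mul h1.le h3
  have hP0 : P ≠ ⊥ := by
    rintro rfl
    exact hI (le_bot_iff.1 hIP)
  rw [Ideal.isCoprime_iff_exists] at hc
  obtain ⟨x, hx, y, hy, hxy⟩ := hc
  rw [Ideal.mem_span_singleton] at hy
  obtain ⟨z, rfl⟩ := hy
  refine absNorm_ge hQ (x := x) ⟨1, z, ?_⟩ hP hP0 (hIP hx)
  rw [one_mul, ← hxy]
  ring

end MajCN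

/-- [MAJC] -/
theorem majC (K : Type) [Field K] [NumberField K] (s : ℕ) : ∃ A : ℕ, ∀ κ q : ℕ, A ≤ κ → 0 < q →
    (∀ p : ℕ, p.Prime → p < 2 ^ κ → p ∣ q) → ∀ S : Finset (Ideal (𝓞 K)),
    (∀ I ∈ S, I ≠ ⊤ ∧ I ≠ ⊥ ∧ IsCoprime I (Ideal.span {(q : 𝓞 K)})) →
    ∑ I ∈ S, (({J : Ideal (𝓞 K) | J ∣ I}.ncard : ℝ) * 2 ^ DK K) ^ (3 * s) /
      (I.absNorm : ℝ) ^ 2 ≤ 2 ^ A / 2 ^ (κ / 2) := by
  classical
  obtain ⟨C, hC⟩ := MajCN.card_norm_le K
  refine ⟨C + 3 * s * DK K + 3 + 6 * s, fun κ q hκ hq hs S hS => ?_⟩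
  have hκ0 : 0 < κ := by omega
  have hκs : 6 * s ≤ κ := by omega
  set g : Ideal (𝓞 K) → ℕ := fun I => Nat.log 2 I.absNorm with hg
  have hpr : ∀ I ∈ S, ∀ P : Ideal (𝓞 K), P.IsPrime → I ≤ P → 2 ^ κ ≤ P.absNorm :=
    fun I hI P hP hIP => MajCN.prime_ge hκ0 hq hs (hS I hI).2.1 (hS I hI).2.2 hP hIP
  have hne : ∀ I ∈ S, I.absNorm ≠ 0 := fun I hI => by
    rw [Ne, Ideal.absNorm_eq_zero_iff]
    exact (hS I hI).2.1
  have hge : ∀ I ∈ S, 2 ^ κ ≤ I.absNorm := fun I hI => by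
    obtain ⟨P, hP, hIP⟩ := Ideal.exists_le_maximal I (hS I hI).1
    refine (hpr I hI P hP.isPrime hIP).trans ?_
    exact Nat.le_of_dvd (Nat.pos_of_ne_zero (hne I hI)) (Ideal.absNorm_dvd_absNorm_of_le hIP)
  set n : ℕ := S.sup g + 1 with hn
  have hmaps : ∀ I ∈ S, g I ∈ Finset.Ico κ (κ + n) := fun I hI => by
    rw [Finset.mem_Ico]
    refine ⟨?_, ?_⟩
    · exact Nat.le_log_of_pow_le (by norm_num) (hge I hI)
    · have : g I ≤ S.sup g := Finset.le_sup hI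
      omega
  rw [← Finset.sum_fiberwise_of_maps_to hmaps]
  have hfib : ∀ l ∈ Finset.Ico κ (κ + n), ∑ I ∈ S with g I = l,
      (({J : Ideal (𝓞 K) | J ∣ I}.ncard : ℝ) * 2 ^ DK K) ^ (3 * s) / (I.absNorm : ℝ) ^ 2 ≤
      2 ^ (C + 3 * s * DK K + 1) * ((2 : ℝ) ^ ((l + 1) / 2) / 2 ^ l) := by
    intro l _
    have h1 : ∀ I ∈ S.filter (fun I => g I = l),
        (({J : Ideal (𝓞 K) | J ∣ I}.ncard : ℝ) * 2 ^ DK K) ^ (3 * s) / (I.absNorm : ℝ) ^ 2 ≤
        2 ^ (3 * s * DK K) * (2 ^ ((l + 1) / 2) / 2 ^ (2 * l)) := by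
      intro I hI
      rw [Finset.mem_filter] at hI
      obtain ⟨hIS, hIl⟩ := hI
      have h2 : 2 ^ l ≤ I.absNorm := by
        rw [← hIl]
        exact Nat.pow_log_le_self 2 (hne I hIS)
      have h3 : I.absNorm < 2 ^ (l + 1) := by
        rw [← hIl]
        exact Nat.lt_pow_succ_log_self (by norm_num) _
      have h4 := card_divisors_le hκ0 (hS I hIS).2.1 h3.le (hpr I hIS)
      have h4' : ({J : Ideal (𝓞 K) | J ∣ I}.ncard : ℝ) ≤ 2 ^ ((l + 1) / κ) := by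
        exact_mod_cast h4
      have h2' : (2 : ℝ) ^ l ≤ I.absNorm := by exact_mod_cast h2
      have h5 : ({J : Ideal (𝓞 K) | J ∣ I}.ncard : ℝ) ^ (3 * s) ≤ 2 ^ ((l + 1) / 2) := by
        calc ({J : Ideal (𝓞 K) | J ∣ I}.ncard : ℝ) ^ (3 * s) ≤ (2 ^ ((l + 1) / κ)) ^ (3 * s) :=
              pow_le_pow_left₀ (Nat.cast_nonneg _) h4' _
          _ = 2 ^ ((l + 1) / κ * (3 * s)) := by rw [← pow_mul]
          _ ≤ 2 ^ ((l + 1) / 2) := by
              refine pow_le_pow_right₀ (by norm_num) ?_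
              have h6 : (l + 1) / κ * κ ≤ l + 1 := Nat.div_mul_le_self _ _
              have h7 : (l + 1) / κ * (6 * s) ≤ (l + 1) / κ * κ := Nat.mul_le_mul_left _ hκs
              have h8 : 2 * ((l + 1) / κ * (3 * s)) = (l + 1) / κ * (6 * s) := by ring
              omega
      have h6 : (2 : ℝ) ^ (2 * l) ≤ (I.absNorm : ℝ) ^ 2 := by
        rw [mul_comm, pow_mul]
        exact pow_le_pow_left₀ (by positivity) h2' 2
      rw [mul_pow, ← pow_mul, mul_comm (DK K) (3 * s), mul_comm _ ((2 : ℝ) ^ (3 * s * DK K)),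
        mul_div_assoc]
      refine mul_le_mul_of_nonneg_left ?_ (by positivity)
      exact div_le_div₀ (by positivity) h5 (by positivity) h6
    have h2 : ((S.filter fun I => g I = l).card : ℝ) ≤ 2 ^ C * 2 ^ (l + 1) := by
      have := hC (2 ^ (l + 1)) Nat.one_le_two_pow (S.filter fun I => g I = l) (by
        intro I hI
        rw [Finset.mem_filter] at hI
        rw [← hI.2]
        exact (Nat.lt_pow_succ_log_self (by norm_num) _).le)
      simpa using this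
    calc ∑ I ∈ S with g I = l,
        (({J : Ideal (𝓞 K) | J ∣ I}.ncard : ℝ) * 2 ^ DK K) ^ (3 * s) / (I.absNorm : ℝ) ^ 2
        ≤ ((S.filter fun I => g I = l).card : ℝ) *
          (2 ^ (3 * s * DK K) * (2 ^ ((l + 1) / 2) / 2 ^ (2 * l))) := by
          rw [← nsmul_eq_mul]
          exact Finset.sum_le_card_nsmul _ _ _ h1
      _ ≤ 2 ^ C * 2 ^ (l + 1) * (2 ^ (3 * s * DK K) * (2 ^ ((l + 1) / 2) / 2 ^ (2 * l))) :=
          mul_le_mul_of_nonneg_right h2 (by positivity)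
      _ = _ := by
          rw [two_mul l, pow_add 2 l l, pow_add 2 (C + 3 * s * DK K) 1, pow_add 2 C (3 * s * DK K),
            pow_add 2 l 1]
          field_simp
  refine (Finset.sum_le_sum hfib).trans ?_
  rw [← Finset.mul_sum]
  have h9 : ∑ l ∈ Finset.Ico κ (κ + n), (2 : ℝ) ^ ((l + 1) / 2) / 2 ^ l ≤ 4 / 2 ^ (κ / 2) := by
    have h10 := MajCN.sum_CC κ n
    have h11 := MajCN.CC_nonneg (κ + n)
    have h12 := MajCN.CC_le κ
    linarith
  calc (2 : ℝ) ^ (C + 3 * s * DK K + 1) * ∑ l ∈ Finset.Ico κ (κ + n),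
        (2 : ℝ) ^ ((l + 1) / 2) / 2 ^ l
      ≤ 2 ^ (C + 3 * s * DK K + 1) * (4 / 2 ^ (κ / 2)) :=
        mul_le_mul_of_nonneg_left h9 (by positivity)
    _ = 2 ^ (C + 3 * s * DK K + 3) / 2 ^ (κ / 2) := by
        rw [show C + 3 * s * DK K + 3 = C + 3 * s * DK K + 1 + 2 by ring,
          pow_add 2 (C + 3 * s * DK K + 1) 2]
        ring
    _ ≤ 2 ^ (C + 3 * s * DK K + 3 + 6 * s) / 2 ^ (κ / 2) := by
        refine div_le_div_of_nonneg_right ?_ (by positivity)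
        exact pow_le_pow_right₀ (by norm_num) (by omega)

end Pool.Agent.H366.NK
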