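import Pool.Agent.H366.NK.MajB
import Pool.Agent.H366.NK.MajC

/-! # [MAJOR] the major arcs -/

set_option autoImplicit false

namespace Pool.Agent.H366.NK.MajorN

open NumberField
open Pool.Agent.H366.GF (Ex ExC Ex_mono Ex_nonneg Ex_const Ex_sum Ex_mul_left Ex_mul_right Ex_add
  norm_ExC_le)
open Pool.Agent.H366.ZC (e)

variable {K : Type} [Field K] [NumberField K]

/-! ### norms and places -/

lemma one_le_DK (K : Type) [Field K] [NumberField K] : 1 ≤ DK K := by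
  rw [← sum_mult K]
  obtain ⟨w⟩ := (inferInstance : Nonempty (InfinitePlace K))
  calc 1 ≤ w.mult := w.mult_pos
    _ ≤ _ := Finset.single_le_sum (f := fun w : InfinitePlace K => w.mult)
        (fun _ _ => Nat.zero_le _) (Finset.mem_univ w)

lemma nm_le {x : K} {B : ℝ} (hB : ∀ w : InfinitePlace K, w x ≤ B) : nm x ≤ B ^ DK K := by
  rw [nm_eq_prod, ← sum_mult K, ← Finset.prod_pow_eq_pow_sum]
  exact Finset.prod_le_prod (fun w _ => pow_nonneg (apply_nonneg w x) _) fun w _ =>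
    pow_le_pow_left₀ (apply_nonneg w x) (hB w) _

lemma le_nm {x : K} {B : ℝ} (hB0 : 0 ≤ B) (hB : ∀ w : InfinitePlace K, B ≤ w x) :
    B ^ DK K ≤ nm x := by
  rw [nm_eq_prod, ← sum_mult K, ← Finset.prod_pow_eq_pow_sum]
  exact Finset.prod_le_prod (fun w _ => pow_nonneg hB0 _) fun w _ =>
    pow_le_pow_left₀ hB0 (hB w) _

lemma nm_mono {x y : K} {B : ℝ} (h : ∀ w : InfinitePlace K, w x ≤ B * w y) :
    nm x ≤ B ^ DK K * nm y := by
  rw [nm_eq_prod, nm_eq_prod, ← sum_mult K, ← Finset.prod_pow_eq_pow_sum, ← Finset.prod_mul_distrib]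
  refine Finset.prod_le_prod (fun w _ => pow_nonneg (apply_nonneg w x) _) fun w _ => ?_
  rw [← mul_pow]
  exact pow_le_pow_left₀ (apply_nonneg w x) (h w) _

omit [NumberField K] in
lemma place_sub_le (w : InfinitePlace K) (x y : K) : w (x - y) ≤ w x + w y := by
  have h := w.1.add_le x (-y)
  rw [← sub_eq_add_neg, w.1.map_neg] at h
  exact h

lemma nm_nonneg (x : K) : 0 ≤ nm x := abs_nonneg _

lemma nm_prod {ι : Type} (s : Finset ι) (f : ι → 𝓞 K) :
    nm ((∏ i ∈ s, f i : 𝓞 K) : K) = ∏ i ∈ s, nm (f i : K) := by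
  classical
  induction s using Finset.induction_on with
  | empty =>
    simp only [Finset.prod_empty]
    have h := nm_natCast (K := K) 1
    simpa using h
  | insert a s ha ih =>
    rw [Finset.prod_insert ha, Finset.prod_insert ha, ← ih, ← nm_mul]
    push_cast
    rfl

lemma nm_pos {x : 𝓞 K} (hx : x ≠ 0) : 0 < nm (x : K) := lt_of_lt_of_le one_pos (one_le_nm hx)

lemma absNorm_span_le {r : 𝓞 K} {k : ℕ}
    (h : ∀ w : InfinitePlace K, w (r : K) ≤ ((2 ^ k : ℕ) : ℝ)) :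
    (Ideal.span {r}).absNorm ≤ 2 ^ (k * DK K) := by
  have h1 := absNorm_span (K := K) r
  have h2 := nm_le h
  rw [← h1] at h2
  push_cast at h2
  rw [← pow_mul] at h2
  exact_mod_cast h2

lemma absNorm_pos {I : Ideal (𝓞 K)} (hI : I ≠ ⊥) : 0 < I.absNorm :=
  Nat.pos_of_ne_zero (Ideal.absNorm_eq_zero_iff.not.2 hI)

/-! ### the fraction close to a frequency -/

lemma exists_beta {T k : ℕ} (hT : 0 < T) {α : K} (h : Low T (2 ^ k) α) :
    ∃ β : K, (den β).absNorm ≤ 2 ^ (k * DK K) ∧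
      ∀ w : InfinitePlace K, w (α - β) ≤ 2 ^ (k * DK K) / (T : ℝ) := by
  obtain ⟨r, b, hr0, hb, hr, hrb⟩ := h
  have hT' : (0 : ℝ) < T := by exact_mod_cast hT
  have hrK : (r : K) ≠ 0 := by
    intro h
    apply hr0
    exact_mod_cast h
  refine ⟨b / (r : K), ?_, fun w => ?_⟩
  · have h1 : Ideal.span {r} ≤ den (b / (r : K)) :=
      (Ideal.span_singleton_le_iff_mem _).2 (mem_den_div hr0 hb)
    have h2 := Ideal.absNorm_dvd_absNorm_of_le h1
    have h3 : 0 < (Ideal.span {r}).absNorm := by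
      apply absNorm_pos
      rw [Ne, Ideal.span_singleton_eq_bot]
      exact hr0
    exact (Nat.le_of_dvd h3 h2).trans (absNorm_span_le hr)
  · have h1 : (r : K) * α - b = (r : K) * (α - b / (r : K)) := by
      field_simp
    have h2 := hrb w
    rw [h1, map_mul] at h2
    have h3 := place_ge (ρ := ((2 ^ k : ℕ) : ℝ)) hr0 (by exact_mod_cast Nat.one_le_two_pow) hr w
    have hD := one_le_DK K
    obtain ⟨D', hD'⟩ : ∃ D', DK K = D' + 1 := ⟨DK K - 1, by omega⟩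
    rw [hD', Nat.add_sub_cancel] at h3
    have h0 := apply_nonneg w (α - b / (r : K))
    have h4 : w (α - b / (r : K)) ≤ w (α - b / (r : K)) * (w (r : K) * ((2 ^ k : ℕ) : ℝ) ^ D') :=
      le_mul_of_one_le_right h0 h3
    calc w (α - b / (r : K)) ≤ w (r : K) * w (α - b / (r : K)) * ((2 ^ k : ℕ) : ℝ) ^ D' := by
          calc _ ≤ _ := h4
            _ = _ := by ring
      _ ≤ ((2 ^ k : ℕ) : ℝ) / T * ((2 ^ k : ℕ) : ℝ) ^ D' :=
          mul_le_mul_of_nonneg_right h2 (by positivity)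
      _ = 2 ^ (k * DK K) / (T : ℝ) := by
          rw [hD', pow_mul]
          push_cast
          ring

lemma zero_of_den_top {c T w₀ m : ℕ} (hc : Cst K c) (hT : 0 < T) (a : JJ K → Fin T) (β : K)
    (hβ : den β = ⊤) (h : ∀ w : InfinitePlace K, w (fr T a - β) ≤ 2 ^ m / (T : ℝ))
    (hw₀ : 2 ^ (c + m) ≤ w₀) : Zero T w₀ a := by
  have hT' : (0 : ℝ) < T := by exact_mod_cast hT
  have hβ' : β ∈ DD K := (den_eq_top_iff β).1 hβ
  intro j
  obtain ⟨n, hn⟩ := tr_mem_DD hβ' (om K j)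
  have h1 := hc.tr_le _ _ h j
  rw [sub_mul, tr_sub, tr_fr, hn] at h1
  have h2 : |((a j : ℕ) : ℝ) - n * T| ≤ 2 ^ (c + m) := by
    have h3 : ((a j : ℕ) : ℝ) - n * T = (((a j : ℕ) : ℝ) / T - n) * T := by
      field_simp
    rw [h3, abs_mul, abs_of_pos hT']
    calc |((a j : ℕ) : ℝ) / T - n| * T ≤ 2 ^ c * (2 ^ m / (T : ℝ)) * T :=
          mul_le_mul_of_nonneg_right h1 hT'.le
      _ = 2 ^ (c + m) := by
          rw [pow_add]
          field_simp
  have h4 : |((a j : ℕ) : ℤ) - n * T| ≤ 2 ^ (c + m) := by exact_mod_cast h2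
  rw [abs_le] at h4
  have hw : ((2 : ℤ) ^ (c + m)) ≤ w₀ := by exact_mod_cast hw₀
  rcases le_or_gt n 0 with hn0 | hn0
  · left
    have h5 : n * (T : ℤ) ≤ 0 := mul_nonpos_of_nonpos_of_nonneg hn0 (by positivity)
    omega
  · right
    have h5 : (T : ℤ) ≤ n * T := by nlinarith
    omega

/-! ### the number of frequencies -/

open Classical in
lemma card_low (K : Type) [Field K] [NumberField K] : ∃ C : ℕ, ∀ (T k : ℕ), 0 < T →
    ∀ S : Finset (JJ K → Fin T), (∀ a ∈ S, Low T (2 ^ k) (fr T a)) →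
    (S.card : ℝ) ≤ 2 ^ C * (2 ^ (k * DK K)) ^ 3 := by
  obtain ⟨C1, h1⟩ := pack_DD K
  obtain ⟨C2, h2⟩ := pack_int K
  refine ⟨C1 + C2 + DK K, fun T k hT S hS => ?_⟩
  have hT' : (0 : ℝ) < T := by exact_mod_cast hT
  have hTK : (T : K) ≠ 0 := by exact_mod_cast hT.ne'
  choose! r b hr0 hb hr hrb using hS
  have hpk : (1 : ℝ) ≤ 2 ^ k := one_le_pow₀ (by norm_num)
  -- the numerators
  have hY : ((S.image fun a => (T : K) * ((r a : K) * fr T a - b a)).card : ℝ) ≤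
      2 ^ C1 * (2 * 2 ^ k) ^ DK K := by
    have h := h1 (fun _ => (2 : ℝ) * 2 ^ k) (fun _ => by linarith)
      (S.image fun a => (T : K) * ((r a : K) * fr T a - b a)) (by
      intro x hx y hy
      rw [Finset.mem_image] at hx hy
      obtain ⟨a, ha, rfl⟩ := hx
      obtain ⟨a', ha', rfl⟩ := hy
      have key : ∀ a ∈ S, (T : K) * ((r a : K) * fr T a - b a) ∈ DD K ∧
          ∀ w : InfinitePlace K, w ((T : K) * ((r a : K) * fr T a - b a)) ≤ 2 ^ k := by
        intro a ha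
        constructor
        · have e1 : (T : K) * ((r a : K) * fr T a - b a) =
              (r a : K) * ((T : K) * fr T a) - ((T : 𝓞 K) : K) * b a := by
            push_cast
            ring
          rw [e1]
          exact (DD K).sub_mem (mul_mem_DD (fr_mem T hT a) _) (mul_mem_DD (hb a ha) _)
        · intro w
          rw [map_mul]
          have e2 : w (T : K) = T := by
            simp
          rw [e2]
          calc (T : ℝ) * w ((r a : K) * fr T a - b a) ≤ T * (((2 ^ k : ℕ) : ℝ) / T) :=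
                mul_le_mul_of_nonneg_left (hrb a ha w) hT'.le
            _ = 2 ^ k := by
                push_cast
                field_simp
      refine ⟨(DD K).sub_mem (key a ha).1 (key a' ha').1, fun w => ?_⟩
      refine (place_sub_le w _ _).trans ?_
      have e3 := (key a ha).2 w
      have e4 := (key a' ha').2 w
      linarith)
    rw [Finset.prod_pow_eq_pow_sum, sum_mult] at h
    exact h
  have hR : ((S.image r).card : ℝ) ≤ 2 ^ C2 * (2 ^ k) ^ DK K := by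
    have h := h2 (fun _ => (2 : ℝ) ^ k) (fun _ => hpk) (S.image r) (by
      intro x hx w
      rw [Finset.mem_image] at hx
      obtain ⟨a, ha, rfl⟩ := hx
      have := hr a ha w
      push_cast at this
      exact this)
    rw [Finset.prod_pow_eq_pow_sum, sum_mult] at h
    exact h
  have hcard : S.card ≤ 2 ^ (k * DK K) * ((S.image r) ×ˢ
      (S.image fun a => (T : K) * ((r a : K) * fr T a - b a))).card := by
    refine Finset.card_le_mul_card_image_of_maps_to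
      (f := fun a => (r a, (T : K) * ((r a : K) * fr T a - b a))) (fun a ha => ?_) _ ?_
    · rw [Finset.mem_product]
      exact ⟨Finset.mem_image_of_mem _ ha, Finset.mem_image_of_mem
        (fun a => (T : K) * ((r a : K) * fr T a - b a)) ha⟩
    · rintro ⟨r₀, y₀⟩ _
      rcases Finset.eq_empty_or_nonempty (S.filter fun a =>
        (r a, (T : K) * ((r a : K) * fr T a - b a)) = (r₀, y₀)) with he | ⟨a₀, ha₀⟩
      · rw [he]
        simp
      · have hmem : ∀ a, a ∈ (S.filter fun a =>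
            (r a, (T : K) * ((r a : K) * fr T a - b a)) = (r₀, y₀)) → a ∈ S ∧ r a = r₀ ∧
            (T : K) * ((r a : K) * fr T a - b a) = y₀ := by
          intro a ha
          rw [Finset.mem_filter, Prod.mk.injEq] at ha
          exact ha
        set G := (S.filter fun a =>
            (r a, (T : K) * ((r a : K) * fr T a - b a)) = (r₀, y₀)) with hG
        obtain ⟨ha₀S, ha₀r, ha₀y⟩ := hmem a₀ ha₀
        have hr₀ : r₀ ≠ 0 := by
          rw [← ha₀r]
          exact hr0 a₀ ha₀S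
        have hinj : Set.InjOn (fun a => fr T a - fr T a₀) (G : Set (JJ K → Fin T)) := by
          intro a _ a' _ haa
          simp only at haa
          apply fr_inj T
          have : fr T a - fr T a' = 0 := by linear_combination haa
          rw [this]
          exact (DD K).zero_mem
        rw [← Finset.card_image_of_injOn hinj]
        refine (card_killed (Ideal.span {r₀}) ?_ _ ?_ ?_).trans ?_
        · rw [Ne, Ideal.span_singleton_eq_bot]
          exact hr₀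
        · intro x hx y hy
          rw [Finset.mem_image] at hx
          obtain ⟨a, ha, rfl⟩ := hx
          obtain ⟨haS, har, hay⟩ := hmem a ha
          obtain ⟨t, rfl⟩ := Ideal.mem_span_singleton'.1 hy
          have e1 : (T : K) * ((r₀ : K) * fr T a - b a) = (T : K) * ((r₀ : K) * fr T a₀ - b a₀) := by
            rw [har] at hay
            rw [ha₀r] at ha₀y
            rw [hay, ha₀y]
          have e2 := mul_left_cancel₀ hTK e1
          have e3 : (((t * r₀ : 𝓞 K)) : K) * (fr T a - fr T a₀) = (t : K) * (b a - b a₀) := by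
            push_cast
            linear_combination (t : K) * e2
          rw [e3]
          exact mul_mem_DD ((DD K).sub_mem (hb a haS) (hb a₀ ha₀S)) t
        · intro x hx x' hx' hxx
          rw [Finset.mem_image] at hx hx'
          obtain ⟨a, ha, rfl⟩ := hx
          obtain ⟨a', ha', rfl⟩ := hx'
          have : fr T a - fr T a' ∈ DD K := by
            have e5 : fr T a - fr T a' = fr T a - fr T a₀ - (fr T a' - fr T a₀) := by ring
            rw [e5]
            exact hxx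
          rw [fr_inj T a a' this]
        · apply absNorm_span_le
          rw [← ha₀r]
          exact hr a₀ ha₀S
  rw [Finset.card_product] at hcard
  have hcard' : (S.card : ℝ) ≤ 2 ^ (k * DK K) * (((S.image r).card : ℝ) *
      ((S.image fun a => (T : K) * ((r a : K) * fr T a - b a)).card : ℝ)) := by
    exact_mod_cast hcard
  refine hcard'.trans ?_
  calc (2 : ℝ) ^ (k * DK K) * (((S.image r).card : ℝ) *
      ((S.image fun a => (T : K) * ((r a : K) * fr T a - b a)).card : ℝ))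
      ≤ 2 ^ (k * DK K) * ((2 ^ C2 * (2 ^ k) ^ DK K) * (2 ^ C1 * (2 * 2 ^ k) ^ DK K)) := by
        refine mul_le_mul_of_nonneg_left ?_ (by positivity)
        exact mul_le_mul hR hY (Nat.cast_nonneg _) (by positivity)
    _ = 2 ^ (C1 + C2 + DK K) * (2 ^ (k * DK K)) ^ 3 := by
        rw [mul_pow 2 ((2 : ℝ) ^ k), pow_add, pow_add, pow_mul 2 k]
        ring

/-! ### prime ideals -/

lemma not_mem_prime {s c q γ d : ℕ} {v g : Fin s → 𝓞 K} (hv : ∀ i, SlotOK c q γ (v i) (g i))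
    (z : Fin s → JJ K → Fin (2 ^ d)) (B : Finset (Fin s)) {P : Ideal (𝓞 K)} (hP : P.IsPrime)
    (hq : (q : 𝓞 K) ∈ P) : ∏ i ∈ B, zz q d (v i) (g i) (z i) ∉ P := by
  intro h
  obtain ⟨a, b, hab⟩ := prod_zz_cop hv z B
  apply hP.ne_top
  rw [Ideal.eq_top_iff_one, ← hab]
  exact P.add_mem (P.mul_mem_left _ h) (P.mul_mem_left _ hq)

omit [NumberField K] in
lemma mem_of_mul_mem {q : ℕ} {M : 𝓞 K} {Q : Ideal (𝓞 K)}
    (hQq : IsCoprime Q (Ideal.span {(q : 𝓞 K)}))
    (hM : ∀ P : Ideal (𝓞 K), P.IsPrime → M ∈ P → (q : 𝓞 K) ∈ P) {x : 𝓞 K} (h : M * x ∈ Q) :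
    x ∈ Q := by
  have h1 : IsCoprime (Ideal.span {M}) Q := by
    apply Ideal.coprime_of_no_prime_ge
    intro P hMP hQP hP
    have hMP' : M ∈ P := hMP (Ideal.mem_span_singleton_self M)
    have hq := hM P hP hMP'
    obtain ⟨i, hi, j, hj, hij⟩ := Ideal.isCoprime_iff_exists.1 hQq
    apply hP.ne_top
    rw [Ideal.eq_top_iff_one, ← hij]
    exact P.add_mem (hQP hi) ((Ideal.span_singleton_le_iff_mem P).2 hq hj)
  obtain ⟨i, hi, j, hj, hij⟩ := Ideal.isCoprime_iff_exists.1 h1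
  obtain ⟨t, rfl⟩ := Ideal.mem_span_singleton'.1 hi
  have e1 : x = t * (M * x) + j * x := by
    calc x = (t * M + j) * x := by rw [hij, one_mul]
      _ = _ := by ring
  rw [e1]
  exact Q.add_mem (Q.mul_mem_left _ h) (Q.mul_mem_right _ hj)

/-! ### averages -/

open Classical in
lemma Ex_cube {α : Type} [Fintype α] (p : α → Prop) (f : α → ℝ) (hf : ∀ x, 0 ≤ f x) :
    (Ex fun x => if p x then f x else 0) ^ 3 ≤
      (Ex fun x => if p x then (1 : ℝ) else 0) ^ 2 * Ex fun x => if p x then f x ^ 3 else 0 := by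
  simp only [Ex]
  rw [← Finset.sum_filter, ← Finset.sum_filter, ← Finset.sum_filter, Finset.sum_const,
    nsmul_eq_mul, mul_one]
  have h := pow_sum_le_card_mul_sum_pow (s := Finset.univ.filter p) (f := f) (fun x _ => hf x) 2
  rw [div_pow]
  calc (∑ x with p x, f x) ^ 3 / (Fintype.card α : ℝ) ^ 3
      ≤ (((Finset.univ.filter p).card : ℝ) ^ 2 * ∑ x with p x, f x ^ 3) /
        (Fintype.card α : ℝ) ^ 3 := div_le_div_of_nonneg_right h (by positivity)
    _ = _ := by ring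

/-! ### one denominator -/

section Q

variable {c κ Λ μ q e₀ γ s d : ℕ} {M : Fin 3 → 𝓞 K}

/-- the product of the multiplier and the slots other than `i₀` -/
noncomputable def RR (q d : ℕ) (M : 𝓞 K) (v g : Fin s → 𝓞 K) (i₀ : Fin s)
    (z : Fin s → JJ K → Fin (2 ^ d)) : 𝓞 K :=
  M * ∏ i ∈ Finset.univ.erase i₀, zz q d (v i) (g i) (z i)

lemma M_ne_zero (hC : Ctx κ Λ μ q e₀ γ M) (X : Fin 3) : M X ≠ 0 := by
  intro h
  obtain ⟨w⟩ := (inferInstance : Nonempty (InfinitePlace K))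
  have h1 := hC.Mge X w
  rw [h] at h1
  norm_num at h1

lemma RR_ne_zero (hc : Cst K c) (hC : Ctx κ Λ μ q e₀ γ M) (X : Fin 3) {v g : Fin s → 𝓞 K}
    (hv : ∀ i, SlotOK c q γ (v i) (g i)) (i₀ : Fin s) (z : Fin s → JJ K → Fin (2 ^ d)) :
    RR q d (M X) v g i₀ z ≠ 0 :=
  mul_ne_zero (M_ne_zero hC X) (prod_zz_ne_zero hc hC.qpos hv z _)

lemma RR_le (hc : Cst K c) (hC : Ctx κ Λ μ q e₀ γ M) (X : Fin 3) {v g : Fin s → 𝓞 K}
    (hv : ∀ i, SlotOK c q γ (v i) (g i)) (i₀ : Fin s) (z : Fin s → JJ K → Fin (2 ^ d))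
    (w : InfinitePlace K) : 2 ^ d * w (RR q d (M X) v g i₀ z : K) ≤ (TL c s μ e₀ d : ℕ) := by
  have hs : 1 ≤ s := by have := i₀.2; omega
  obtain ⟨s', rfl⟩ : ∃ s', s = s' + 1 := ⟨s - 1, by omega⟩
  have h1 := prod_zz_le hc hC.toQOK hv z (Finset.univ.erase i₀) w
  rw [Finset.card_erase_of_mem (Finset.mem_univ _), Finset.card_univ, Fintype.card_fin,
    Nat.add_sub_cancel] at h1
  have h2 := hC.Mle X w
  have h3 : w (RR q d (M X) v g i₀ z : K) ≤ 2 ^ μ * 2 ^ (s' * (d + e₀)) := by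
    unfold RR
    push_cast at h1 ⊢
    rw [map_mul]
    exact mul_le_mul h2 h1 (apply_nonneg _ _) (by positivity)
  calc 2 ^ d * w (RR q d (M X) v g i₀ z : K) ≤ 2 ^ d * (2 ^ μ * 2 ^ (s' * (d + e₀))) :=
        mul_le_mul_of_nonneg_left h3 (by positivity)
    _ = 2 ^ (d + (μ + s' * (d + e₀))) := by rw [← pow_add, ← pow_add]
    _ ≤ 2 ^ (TE c (s' + 1) μ e₀ d) := by
        refine pow_le_pow_right₀ (by norm_num) ?_
        unfold TE
        have : (s' + 1) * (d + e₀) = s' * (d + e₀) + (d + e₀) := by ring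
        omega
    _ = ((TL c (s' + 1) μ e₀ d : ℕ) : ℝ) := by
        unfold TL
        push_cast
        rfl

lemma NN_nonneg (s q d : ℕ) (M : 𝓞 K) (g : Fin s → 𝓞 K) : 0 ≤ NN s q d M g := by
  unfold NN
  have h1 := nm_nonneg (M : K)
  have h2 : 0 ≤ ∏ i, nm (g i : K) := Finset.prod_nonneg fun i _ => nm_nonneg _
  positivity

lemma prod_nm_g_le {v g : Fin s → 𝓞 K} (hv : ∀ i, SlotOK c q γ (v i) (g i)) :
    ∏ i, nm (g i : K) ≤ ((2 : ℝ) ^ (γ * s)) ^ DK K := by
  calc ∏ i, nm (g i : K) ≤ ∏ _i : Fin s, ((2 : ℝ) ^ γ) ^ DK K :=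
        Finset.prod_le_prod (fun i _ => nm_nonneg _) fun i _ => nm_le (hv i).gle
    _ = ((2 : ℝ) ^ (γ * s)) ^ DK K := by
        rw [Finset.prod_const, Finset.card_univ, Fintype.card_fin, ← pow_mul, ← pow_mul, ← pow_mul]
        congr 1
        ring

lemma NN_le_RR (hc : Cst K c) (hC : Ctx κ Λ μ q e₀ γ M) (X : Fin 3)
    {v g : Fin 3 → Fin s → 𝓞 K} (hv : ∀ X i, SlotOK c q γ (v X i) (g X i)) (i₀ : Fin s)
    (z : Fin s → JJ K → Fin (2 ^ d)) :
    NN s q d (M 0) (g 0) ≤ ((Λ : ℝ) * 2 ^ (γ * s)) ^ DK K *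
      (2 ^ (d * DK K) * nm (RR q d (M X) (v X) (g X) i₀ z : K)) := by
  have hs : 1 ≤ s := by have := i₀.2; omega
  have hq : (0 : ℝ) < q := by exact_mod_cast hC.qpos
  have h1 : nm (M 0 : K) ≤ (Λ : ℝ) ^ DK K * nm (M X : K) := nm_mono fun w => hC.ratio 0 X w
  have h2 := prod_nm_g_le (hv 0)
  have h3 : ∀ i, ((q : ℝ) * 2 ^ d) ^ DK K ≤ nm (zz q d (v X i) (g X i) (z i) : K) := by
    intro i
    refine le_nm (by positivity) fun w => ?_
    refine le_trans ?_ (le_zz hc (hv X i) (z i) w)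
    have h4 := (hv X i).gge w
    have h5 : (2 : ℝ) ^ 4 ≤ 2 ^ (c + 4) := pow_le_pow_right₀ (by norm_num) (by omega)
    have h6 : (16 : ℝ) ≤ w (g X i : K) := by linarith
    have h7 : (0 : ℝ) < q * 2 ^ d := by positivity
    nlinarith
  have h4 : (((q : ℝ) * 2 ^ d) ^ DK K) ^ (s - 1) ≤
      nm ((∏ i ∈ Finset.univ.erase i₀, zz q d (v X i) (g X i) (z i) : 𝓞 K) : K) := by
    rw [nm_prod]
    calc (((q : ℝ) * 2 ^ d) ^ DK K) ^ (s - 1)
        = ∏ _i ∈ Finset.univ.erase i₀, ((q : ℝ) * 2 ^ d) ^ DK K := by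
          rw [Finset.prod_const, Finset.card_erase_of_mem (Finset.mem_univ _), Finset.card_univ,
            Fintype.card_fin]
      _ ≤ _ := Finset.prod_le_prod (fun i _ => by positivity) fun i _ => h3 i
  obtain ⟨s', rfl⟩ : ∃ s', s = s' + 1 := ⟨s - 1, by omega⟩
  rw [Nat.add_sub_cancel] at h4
  have h5 : nm (M X : K) * (((q : ℝ) * 2 ^ d) ^ DK K) ^ s' ≤
      nm (RR q d (M X) (v X) (g X) i₀ z : K) := by
    unfold RR
    push_cast
    rw [nm_mul]
    refine mul_le_mul_of_nonneg_left ?_ (nm_nonneg _)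
    have h6 := h4
    push_cast at h6
    exact h6
  unfold NN
  rw [Nat.add_sub_cancel]
  calc nm (M 0 : K) * ((q : ℝ) ^ s') ^ DK K * (∏ i, nm (g 0 i : K)) *
        ((2 : ℝ) ^ d) ^ ((s' + 1) * DK K)
      ≤ ((Λ : ℝ) ^ DK K * nm (M X : K)) * ((q : ℝ) ^ s') ^ DK K *
          (((2 : ℝ) ^ (γ * (s' + 1))) ^ DK K) * ((2 : ℝ) ^ d) ^ ((s' + 1) * DK K) := by
        refine mul_le_mul_of_nonneg_right ?_ (by positivity)
        refine mul_le_mul ?_ h2 (Finset.prod_nonneg fun i _ => nm_nonneg _) ?_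
        · exact mul_le_mul_of_nonneg_right h1 (by positivity)
        · have := nm_nonneg (M X : K)
          positivity
    _ = ((Λ : ℝ) * 2 ^ (γ * (s' + 1))) ^ DK K *
          (2 ^ (d * DK K) * (nm (M X : K) * (((q : ℝ) * 2 ^ d) ^ DK K) ^ s')) := by
        rw [mul_pow (Λ : ℝ), mul_pow (q : ℝ), mul_pow ((q : ℝ) ^ DK K), ← pow_mul, ← pow_mul,
          ← pow_mul, ← pow_mul, ← pow_mul, ← pow_mul, mul_comm (DK K) s']
        have e1 : (2 : ℝ) ^ (d * ((s' + 1) * DK K)) = 2 ^ (d * DK K) * 2 ^ (d * DK K * s') := by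
          rw [← pow_add]
          congr 1
          ring
        rw [e1]
        ring
    _ ≤ _ := by
        refine mul_le_mul_of_nonneg_left ?_ (by positivity)
        exact mul_le_mul_of_nonneg_left h5 (by positivity)

lemma NN_le_TL (hC : Ctx κ Λ μ q e₀ γ M) (hs : 1 ≤ s)
    {v g : Fin 3 → Fin s → 𝓞 K} (hv : ∀ X i, SlotOK c q γ (v X i) (g X i)) :
    NN s q d (M 0) (g 0) ≤ ((TL c s μ e₀ d : ℕ) : ℝ) ^ DK K := by
  obtain ⟨s', rfl⟩ : ∃ s', s = s' + 1 := ⟨s - 1, by omega⟩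
  have h1 : nm (M 0 : K) ≤ ((2 : ℝ) ^ μ) ^ DK K := nm_le (hC.Mle 0)
  have h2 := prod_nm_g_le (hv 0)
  have hq : (1 : ℝ) ≤ q := by exact_mod_cast hC.qpos
  have h3 : (q : ℝ) ^ s' * 2 ^ (γ * (s' + 1)) ≤ 2 ^ (e₀ * (s' + 1)) := by
    have h4 : (q : ℝ) * 2 ^ γ ≤ 2 ^ e₀ := by
      have h5 : (q : ℝ) * 2 ^ (γ + 1) ≤ 2 ^ e₀ := by exact_mod_cast hC.qe
      have h6 : (2 : ℝ) ^ γ ≤ 2 ^ (γ + 1) := pow_le_pow_right₀ (by norm_num) (by omega)
      have h7 : (q : ℝ) * 2 ^ γ ≤ q * 2 ^ (γ + 1) := mul_le_mul_of_nonneg_left h6 (by linarith)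
      linarith
    calc (q : ℝ) ^ s' * 2 ^ (γ * (s' + 1)) ≤ (q : ℝ) ^ (s' + 1) * 2 ^ (γ * (s' + 1)) := by
          refine mul_le_mul_of_nonneg_right ?_ (by positivity)
          exact pow_le_pow_right₀ hq (by omega)
      _ = ((q : ℝ) * 2 ^ γ) ^ (s' + 1) := by rw [mul_pow, ← pow_mul]
      _ ≤ (2 ^ e₀) ^ (s' + 1) := pow_le_pow_left₀ (by positivity) h4 _
      _ = _ := by rw [← pow_mul]
  unfold NN
  rw [Nat.add_sub_cancel]
  calc nm (M 0 : K) * ((q : ℝ) ^ s') ^ DK K * (∏ i, nm (g 0 i : K)) *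
        ((2 : ℝ) ^ d) ^ ((s' + 1) * DK K)
      ≤ ((2 : ℝ) ^ μ) ^ DK K * ((q : ℝ) ^ s') ^ DK K * ((2 : ℝ) ^ (γ * (s' + 1))) ^ DK K *
        ((2 : ℝ) ^ d) ^ ((s' + 1) * DK K) := by
        refine mul_le_mul_of_nonneg_right ?_ (by positivity)
        refine mul_le_mul ?_ h2 (Finset.prod_nonneg fun i _ => nm_nonneg _) (by positivity)
        exact mul_le_mul_of_nonneg_right h1 (by positivity)
    _ = ((2 : ℝ) ^ μ * ((q : ℝ) ^ s' * 2 ^ (γ * (s' + 1))) * 2 ^ (d * (s' + 1))) ^ DK K := by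
        rw [mul_pow, mul_pow, mul_pow, pow_mul ((2 : ℝ) ^ d), ← pow_mul 2 d (s' + 1)]
        ring
    _ ≤ ((2 : ℝ) ^ μ * 2 ^ (e₀ * (s' + 1)) * 2 ^ (d * (s' + 1))) ^ DK K := by
        refine pow_le_pow_left₀ (by positivity) ?_ _
        refine mul_le_mul_of_nonneg_right ?_ (by positivity)
        exact mul_le_mul_of_nonneg_left h3 (by positivity)
    _ ≤ _ := by
        refine pow_le_pow_left₀ (by positivity) ?_ _
        rw [← pow_add, ← pow_add]
        unfold TL TE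
        push_cast
        refine pow_le_pow_right₀ (by norm_num) ?_
        have : (s' + 1) * (d + e₀) = e₀ * (s' + 1) + d * (s' + 1) := by ring
        omega

lemma ncard_pos {Q : Ideal (𝓞 K)} (hQ : Q ≠ ⊥) :
    (1 : ℝ) ≤ ({J : Ideal (𝓞 K) | J ∣ Q}.ncard : ℝ) * 2 ^ DK K := by
  have h1 : 0 < {J : Ideal (𝓞 K) | J ∣ Q}.ncard :=
    (Set.ncard_pos (divisors_finite hQ)).2 ⟨Q, dvd_refl Q⟩
  have h2 : (1 : ℝ) ≤ ({J : Ideal (𝓞 K) | J ∣ Q}.ncard : ℝ) := by exact_mod_cast h1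
  have h3 : (1 : ℝ) ≤ 2 ^ DK K := one_le_pow₀ (by norm_num)
  nlinarith

open Classical in
lemma prob_le (hC : Ctx κ Λ μ q e₀ γ M) (X : Fin 3) (v g : Fin s → 𝓞 K)
    (i₀ : Fin s) {Q : Ideal (𝓞 K)} (hQ0 : Q ≠ ⊥) (hQd : Q.absNorm ≤ 2 ^ d)
    (hQq : IsCoprime Q (Ideal.span {(q : 𝓞 K)})) :
    Ex (fun z : Fin s → JJ K → Fin (2 ^ d) =>
      if RR q d (M X) v g i₀ z ∈ Q then (1 : ℝ) else 0) ≤
      (({J : Ideal (𝓞 K) | J ∣ Q}.ncard : ℝ) * 2 ^ DK K) ^ s / Q.absNorm := by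
  have h1 := prob_dvd (d := d) hC.qpos v g (Finset.univ.erase i₀) Q hQ0 hQd hQq
  rw [Finset.card_erase_of_mem (Finset.mem_univ _), Finset.card_univ, Fintype.card_fin] at h1
  refine le_trans (Ex_mono fun z => ?_) (h1.trans ?_)
  · split_ifs with h3 h4
    · exact le_rfl
    · exact absurd (mem_of_mul_mem hQq (hC.smooth X) h3) h4
    · exact zero_le_one
    · exact le_rfl
  · refine div_le_div_of_nonneg_right ?_ (by positivity)
    exact pow_le_pow_right₀ (ncard_pos hQ0) (by omega)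

open Classical in
/-- the frequencies with `β` in one class modulo `DD K` -/
lemma sum_class (hc : Cst K c) (hC : Ctx κ Λ μ q e₀ γ M) {T : ℕ}
    (hT : T = TL c s μ e₀ d) {CB : ℕ}
    (hCB : ∀ (T d : ℕ) (R : 𝓞 K), 0 < T → R ≠ 0 →
      (∀ w : InfinitePlace K, 2 ^ d * w (R : K) ≤ T) → ∀ A : Finset K,
      (∀ x ∈ A, ∀ y ∈ A, (T : K) * (x - y) ∈ DD K) →
      ∑ η ∈ A, fR d R η ^ 3 ≤ 2 ^ CB * (T : ℝ) ^ DK K / (2 ^ (d * DK K) * nm (R : K)))
    (X : Fin 3) {v g : Fin 3 → Fin s → 𝓞 K} (hv : ∀ X i, SlotOK c q γ (v X i) (g X i))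
    (i₀ : Fin s) (Q : Ideal (𝓞 K)) (S : Finset (JJ K → Fin (T)))
    (β : (JJ K → Fin (T)) → K)
    (hcl : ∀ a ∈ S, ∀ a' ∈ S, β a - β a' ∈ DD K) :
    (NN s q d (M 0) (g 0) / (T : ℝ) ^ DK K) *
      ∑ a ∈ S, (Ex fun z : Fin s → JJ K → Fin (2 ^ d) =>
        if RR q d (M X) (v X) (g X) i₀ z ∈ Q then
          fR d (RR q d (M X) (v X) (g X) i₀ z) (fr (T) a - β a) else 0) ^ 3 ≤
      (Ex fun z : Fin s → JJ K → Fin (2 ^ d) =>
        if RR q d (M X) (v X) (g X) i₀ z ∈ Q then (1 : ℝ) else 0) ^ 3 *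
      (2 ^ CB * ((Λ : ℝ) * 2 ^ (γ * s)) ^ DK K) := by
  have hT0 : 0 < T := by rw [hT, TL]; positivity
  have hT0' : (0 : ℝ) < T := by exact_mod_cast hT0
  set P := (Ex fun z : Fin s → JJ K → Fin (2 ^ d) =>
        if RR q d (M X) (v X) (g X) i₀ z ∈ Q then (1 : ℝ) else 0) with hP
  have hP0 : 0 ≤ P := Ex_nonneg fun z => by split_ifs <;> norm_num
  have hN0 := NN_nonneg s q d (M 0) (g 0)
  -- the sum of the cubes
  have h1 : ∀ z : Fin s → JJ K → Fin (2 ^ d),
      ∑ a ∈ S, fR d (RR q d (M X) (v X) (g X) i₀ z) (fr T a - β a) ^ 3 ≤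
      2 ^ CB * (T : ℝ) ^ DK K / (2 ^ (d * DK K) * nm (RR q d (M X) (v X) (g X) i₀ z : K)) := by
    intro z
    have hinj : Set.InjOn (fun a => fr T a - β a) (S : Set (JJ K → Fin T)) := by
      intro a ha a' ha' haa
      simp only at haa
      apply fr_inj T
      have : fr T a - fr T a' = β a - β a' := by linear_combination haa
      rw [this]
      exact hcl a ha a' ha'
    rw [← Finset.sum_image (f := fun η => fR d (RR q d (M X) (v X) (g X) i₀ z) η ^ 3)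
      (g := fun a => fr T a - β a) hinj]
    refine hCB T d _ hT0 (RR_ne_zero hc hC X (hv X) i₀ z)
      (fun w => by rw [hT]; exact RR_le hc hC X (hv X) i₀ z w) _ ?_
    intro x hx y hy
    rw [Finset.mem_image] at hx hy
    obtain ⟨a, ha, rfl⟩ := hx
    obtain ⟨a', ha', rfl⟩ := hy
    have e1 : (T : K) * (fr T a - β a - (fr T a' - β a')) =
        (T : K) * fr T a - (T : K) * fr T a' - ((T : 𝓞 K) : K) * (β a - β a') := by
      push_cast
      ring
    rw [e1]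
    exact (DD K).sub_mem ((DD K).sub_mem (fr_mem T hT0 a) (fr_mem T hT0 a'))
      (mul_mem_DD (hcl a ha a' ha') _)
  have h2 : ∑ a ∈ S, (Ex fun z : Fin s → JJ K → Fin (2 ^ d) =>
        if RR q d (M X) (v X) (g X) i₀ z ∈ Q then
          fR d (RR q d (M X) (v X) (g X) i₀ z) (fr T a - β a) else 0) ^ 3 ≤
      P ^ 2 * Ex (fun z : Fin s → JJ K → Fin (2 ^ d) =>
        ∑ a ∈ S, if RR q d (M X) (v X) (g X) i₀ z ∈ Q then
          fR d (RR q d (M X) (v X) (g X) i₀ z) (fr T a - β a) ^ 3 else 0) := by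
    rw [Ex_sum, Finset.mul_sum]
    exact Finset.sum_le_sum fun a _ => Ex_cube _ _ fun z => fR_nonneg _ _ _
  refine (mul_le_mul_of_nonneg_left h2 (by positivity)).trans ?_
  have e1 : NN s q d (M 0) (g 0) / (T : ℝ) ^ DK K * (P ^ 2 * Ex (fun z : Fin s → JJ K → Fin (2 ^ d) =>
        ∑ a ∈ S, if RR q d (M X) (v X) (g X) i₀ z ∈ Q then
          fR d (RR q d (M X) (v X) (g X) i₀ z) (fr T a - β a) ^ 3 else 0)) =
      P ^ 2 * Ex (fun z : Fin s → JJ K → Fin (2 ^ d) =>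
        NN s q d (M 0) (g 0) / (T : ℝ) ^ DK K * ∑ a ∈ S, if RR q d (M X) (v X) (g X) i₀ z ∈ Q then
          fR d (RR q d (M X) (v X) (g X) i₀ z) (fr T a - β a) ^ 3 else 0) := by
    rw [Ex_mul_left]
    ring
  rw [e1]
  have h3 : ∀ z : Fin s → JJ K → Fin (2 ^ d),
      NN s q d (M 0) (g 0) / (T : ℝ) ^ DK K * (∑ a ∈ S,
        if RR q d (M X) (v X) (g X) i₀ z ∈ Q then
          fR d (RR q d (M X) (v X) (g X) i₀ z) (fr T a - β a) ^ 3 else 0) ≤
      (if RR q d (M X) (v X) (g X) i₀ z ∈ Q then (1 : ℝ) else 0) *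
        (2 ^ CB * ((Λ : ℝ) * 2 ^ (γ * s)) ^ DK K) := by
    intro z
    split_ifs with hz
    · rw [one_mul]
      refine (mul_le_mul_of_nonneg_left (h1 z) (by positivity)).trans ?_
      have h4 := NN_le_RR hc hC X hv i₀ z
      have h5 := nm_pos (RR_ne_zero hc hC X (hv X) i₀ z)
      calc NN s q d (M 0) (g 0) / (T : ℝ) ^ DK K * (2 ^ CB * (T : ℝ) ^ DK K /
            (2 ^ (d * DK K) * nm (RR q d (M X) (v X) (g X) i₀ z : K)))
          = 2 ^ CB * (NN s q d (M 0) (g 0) /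
            (2 ^ (d * DK K) * nm (RR q d (M X) (v X) (g X) i₀ z : K))) := by
            field_simp
        _ ≤ _ := by
            refine mul_le_mul_of_nonneg_left ?_ (by positivity)
            rw [div_le_iff₀ (by positivity)]
            exact h4
    · rw [Finset.sum_const_zero, mul_zero, zero_mul]
  refine (mul_le_mul_of_nonneg_left (Ex_mono h3) (by positivity)).trans ?_
  rw [Ex_mul_right, ← hP]
  exact le_of_eq (by ring)

open Classical in
/-- the frequencies with a given denominator -/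
lemma sum_Q (hc : Cst K c) (hC : Ctx κ Λ μ q e₀ γ M) {T : ℕ}
    (hT : T = TL c s μ e₀ d) {CB : ℕ}
    (hCB : ∀ (T d : ℕ) (R : 𝓞 K), 0 < T → R ≠ 0 →
      (∀ w : InfinitePlace K, 2 ^ d * w (R : K) ≤ T) → ∀ A : Finset K,
      (∀ x ∈ A, ∀ y ∈ A, (T : K) * (x - y) ∈ DD K) →
      ∑ η ∈ A, fR d R η ^ 3 ≤ 2 ^ CB * (T : ℝ) ^ DK K / (2 ^ (d * DK K) * nm (R : K)))
    (X : Fin 3) {v g : Fin 3 → Fin s → 𝓞 K} (hv : ∀ X i, SlotOK c q γ (v X i) (g X i))
    (i₀ : Fin s) {Q : Ideal (𝓞 K)} (hQ0 : Q ≠ ⊥) (hQd : Q.absNorm ≤ 2 ^ d)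
    (hQq : IsCoprime Q (Ideal.span {(q : 𝓞 K)})) (S : Finset (JJ K → Fin (T)))
    (β : (JJ K → Fin (T)) → K) (hβ : ∀ a ∈ S, den (β a) = Q) :
    (NN s q d (M 0) (g 0) / (T : ℝ) ^ DK K) *
      ∑ a ∈ S, (Ex fun z : Fin s → JJ K → Fin (2 ^ d) =>
        if RR q d (M X) (v X) (g X) i₀ z ∈ den (β a) then
          fR d (RR q d (M X) (v X) (g X) i₀ z) (fr (T) a - β a) else 0) ^ 3 ≤
      (2 ^ CB * ((Λ : ℝ) * 2 ^ (γ * s)) ^ DK K) *
        ((({J : Ideal (𝓞 K) | J ∣ Q}.ncard : ℝ) * 2 ^ DK K) ^ (3 * s) / (Q.absNorm : ℝ) ^ 2) := by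
  have hN0 := NN_nonneg s q d (M 0) (g 0)
  have hcong : ∑ a ∈ S, (Ex fun z : Fin s → JJ K → Fin (2 ^ d) =>
        if RR q d (M X) (v X) (g X) i₀ z ∈ den (β a) then
          fR d (RR q d (M X) (v X) (g X) i₀ z) (fr T a - β a) else 0) ^ 3 =
      ∑ a ∈ S, (Ex fun z : Fin s → JJ K → Fin (2 ^ d) =>
        if RR q d (M X) (v X) (g X) i₀ z ∈ Q then
          fR d (RR q d (M X) (v X) (g X) i₀ z) (fr T a - β a) else 0) ^ 3 := by
    refine Finset.sum_congr rfl fun a ha => ?_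
    rw [hβ a ha]
  rw [hcong]
  set cls : (JJ K → Fin T) → K ⧸ DD K := fun a => (DD K).mkQ (β a) with hcls
  set F : (JJ K → Fin T) → ℝ := fun a => (Ex fun z : Fin s → JJ K → Fin (2 ^ d) =>
        if RR q d (M X) (v X) (g X) i₀ z ∈ Q then
          fR d (RR q d (M X) (v X) (g X) i₀ z) (fr T a - β a) else 0) ^ 3 with hF
  set P := (Ex fun z : Fin s → JJ K → Fin (2 ^ d) =>
        if RR q d (M X) (v X) (g X) i₀ z ∈ Q then (1 : ℝ) else 0) with hP
  have hP0 : 0 ≤ P := Ex_nonneg fun z => by split_ifs <;> norm_num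
  have hPle : P ≤ (({J : Ideal (𝓞 K) | J ∣ Q}.ncard : ℝ) * 2 ^ DK K) ^ s / Q.absNorm :=
    prob_le hC X (v X) (g X) i₀ hQ0 hQd hQq
  set Cc : ℝ := 2 ^ CB * ((Λ : ℝ) * 2 ^ (γ * s)) ^ DK K with hCc
  have hCc0 : 0 ≤ Cc := by positivity
  have hQpos : (0 : ℝ) < Q.absNorm := by exact_mod_cast absNorm_pos hQ0
  have hsplit : ∑ a ∈ S, F a = ∑ x ∈ S.image cls, ∑ a ∈ S.filter (fun a => cls a = x), F a :=
    (Finset.sum_fiberwise_of_maps_to (fun a ha => Finset.mem_image_of_mem cls ha) F).symm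
  rw [hsplit, Finset.mul_sum]
  have hcl : ∀ x ∈ S.image cls, NN s q d (M 0) (g 0) / (T : ℝ) ^ DK K *
      ∑ a ∈ S.filter (fun a => cls a = x), F a ≤ P ^ 3 * Cc := by
    intro x _
    refine sum_class hc hC hT hCB X hv i₀ Q (S.filter fun a => cls a = x) β ?_
    intro a ha a' ha'
    have h1 := (Finset.mem_filter.1 ha).2
    have h2 := (Finset.mem_filter.1 ha').2
    have h3 : (DD K).mkQ (β a) = (DD K).mkQ (β a') := h1.trans h2.symm
    exact (Submodule.Quotient.eq (DD K)).1 h3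
  refine (Finset.sum_le_sum hcl).trans ?_
  rw [Finset.sum_const, nsmul_eq_mul]
  -- the number of classes
  have hnum : (S.image cls).card ≤ Q.absNorm := by
    set σ : K ⧸ DD K → K := Function.surjInv (DD K).mkQ_surjective with hσ
    have hσ1 : ∀ x, (DD K).mkQ (σ x) = x := fun x => Function.surjInv_eq _ x
    have hinj : Set.InjOn σ ((S.image cls : Finset (K ⧸ DD K)) : Set (K ⧸ DD K)) := by
      intro x _ y _ hxy
      rw [← hσ1 x, ← hσ1 y, hxy]
    rw [← Finset.card_image_of_injOn hinj]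
    refine card_killed Q hQ0 _ ?_ ?_
    · intro x hx y hy
      rw [Finset.mem_image] at hx
      obtain ⟨x', hx', rfl⟩ := hx
      rw [Finset.mem_image] at hx'
      obtain ⟨a, ha, rfl⟩ := hx'
      have h3 : σ (cls a) - β a ∈ DD K := (Submodule.Quotient.eq (DD K)).1 (hσ1 (cls a))
      have h4 : (y : K) * β a ∈ DD K := by
        rw [← mem_den, hβ a ha]
        exact hy
      have h5 : (y : K) * σ (cls a) = (y : K) * (σ (cls a) - β a) + (y : K) * β a := by ring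
      rw [h5]
      exact (DD K).add_mem (mul_mem_DD h3 y) h4
    · intro x hx x' hx' hxx
      rw [Finset.mem_image] at hx hx'
      obtain ⟨y, _, rfl⟩ := hx
      obtain ⟨y', _, rfl⟩ := hx'
      have h6 : (DD K).mkQ (σ y) = (DD K).mkQ (σ y') := (Submodule.Quotient.eq (DD K)).2 hxx
      rw [hσ1, hσ1] at h6
      rw [h6]
  have hnum' : ((S.image cls).card : ℝ) ≤ Q.absNorm := by exact_mod_cast hnum
  calc ((S.image cls).card : ℝ) * (P ^ 3 * Cc)
      ≤ Q.absNorm * (((({J : Ideal (𝓞 K) | J ∣ Q}.ncard : ℝ) * 2 ^ DK K) ^ s / Q.absNorm) ^ 3 *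
          Cc) := by
        refine mul_le_mul hnum' ?_ (by positivity) hQpos.le
        exact mul_le_mul_of_nonneg_right (pow_le_pow_left₀ hP0 hPle 3) hCc0
    _ = _ := by
        rw [div_pow, ← pow_mul, mul_comm s 3]
        field_simp

end Q

/-! ### the product of three terms -/

lemma prod_three {F x : Fin 3 → ℝ} {E : ℝ} (hE0 : 0 ≤ E) (hE1 : E ≤ 1) (hF0 : ∀ X, 0 ≤ F X)
    (hx0 : ∀ X, 0 ≤ x X) (hx1 : ∀ X, x X ≤ 1) (h : ∀ X, F X ≤ x X + E) :
    ∏ X, F X ≤ ∏ X, x X + 7 * E := by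
  have h1 : ∏ X, F X ≤ ∏ X, (x X + E) :=
    Finset.prod_le_prod (fun X _ => hF0 X) fun X _ => h X
  refine h1.trans ?_
  rw [Fin.prod_univ_three, Fin.prod_univ_three]
  have h01 : x 0 * x 1 ≤ 1 := mul_le_one₀ (hx1 0) (hx0 1) (hx1 1)
  have h02 : x 0 * x 2 ≤ 1 := mul_le_one₀ (hx1 0) (hx0 2) (hx1 2)
  have h12 : x 1 * x 2 ≤ 1 := mul_le_one₀ (hx1 1) (hx0 2) (hx1 2)
  have e1 : (x 0 + E) * (x 1 + E) * (x 2 + E) = x 0 * x 1 * x 2 +
      E * (x 0 * x 1 + x 0 * x 2 + x 1 * x 2) + E * E * (x 0 + x 1 + x 2) + E * E * E := by ring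
  rw [e1]
  have h2 : E * (x 0 * x 1 + x 0 * x 2 + x 1 * x 2) ≤ E * 3 :=
    mul_le_mul_of_nonneg_left (by linarith) hE0
  have h3 : E * E ≤ E := by nlinarith
  have h4 : E * E * (x 0 + x 1 + x 2) ≤ E * E * 3 :=
    mul_le_mul_of_nonneg_left (by linarith [hx1 0, hx1 1, hx1 2]) (by positivity)
  have h5 : E * E * E ≤ E * E * 1 := mul_le_mul_of_nonneg_left hE1 (by positivity)
  linarith

lemma prod_le_cubes {x : Fin 3 → ℝ} (hx0 : ∀ X, 0 ≤ x X) : ∏ X, x X ≤ ∑ X, x X ^ 3 := by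
  rw [Fin.prod_univ_three, Fin.sum_univ_three]
  have h0 := hx0 0
  have h1 := hx0 1
  have h2 := hx0 2
  have h3 : 0 ≤ (x 0 + x 1 + x 2) * ((x 0 - x 1) ^ 2 + (x 1 - x 2) ^ 2 + (x 2 - x 0) ^ 2) := by
    positivity
  have h4 : 0 ≤ x 0 * x 1 * x 2 := by positivity
  nlinarith

end Pool.Agent.H366.NK.MajorN

namespace Pool.Agent.H366.NK

open NumberField
open Pool.Agent.H366.GF (Ex ExC Ex_mono Ex_nonneg Ex_const norm_ExC_le)
open Pool.Agent.H366.ZC (e)
open MajorN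

variable {K : Type} [Field K] [NumberField K]

open Classical in
/-- [MAJOR] -/
theorem major {c : ℕ} (hc : Cst K c) (s Λ γ : ℕ) (hs : 1 ≤ s) : ∃ A : ℕ,
    ∀ (κ μ q e₀ : ℕ) (M : Fin 3 → 𝓞 K), A ≤ κ → Ctx κ Λ μ q e₀ γ M →
    ∀ ε : ℝ, 0 < ε → ∃ d₀ : ℕ, ∀ d : ℕ, d₀ ≤ d → ∀ v g : Fin 3 → Fin s → 𝓞 K,
    (∀ X i, SlotOK c q γ (v X i) (g X i)) → ∀ V : Fin 3 → Finset (Fin s),
    (∀ X, (V X).card < s) →
    (NN s q d (M 0) (g 0) / (TL c s μ e₀ d : ℝ) ^ DK K) *
      ∑ a ∈ Finset.univ.filter (fun a : JJ K → Fin (TL c s μ e₀ d) =>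
          Low (TL c s μ e₀ d) (2 ^ (d / (32 * DK K ^ 2))) (fr _ a) ∧
          ¬ Zero (TL c s μ e₀ d) (2 ^ (d / (16 * DK K))) a),
        ∏ X : Fin 3, Ex (fun z : Fin s → JJ K → Fin (2 ^ d) =>
          ‖TT q d (M X) (v X) (g X) (fr (TL c s μ e₀ d) a) (V X) z‖) ≤
      2 ^ A / 2 ^ (κ / 2) + ε := by
  obtain ⟨CB, hCB⟩ := majB hc
  obtain ⟨AC, hAC⟩ := majC K s
  obtain ⟨CL, hCL⟩ := card_low K
  refine ⟨AC + (CB + ((Λ + γ * s) * DK K + 2)), fun κ μ q e₀ M hκ hC ε hε => ?_⟩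
  have hA := fun X : Fin 3 => majA (s := s) hc hC.toQOK (M X) (hC.Mge X) (hC.Mle X)
  choose CA hCA using hA
  obtain ⟨n, hn⟩ : ∃ n : ℕ, (2 : ℝ) ^ (CL + (∑ X, CA X) + 3) / 2 ^ n ≤ ε := by
    obtain ⟨n, hn⟩ := exists_pow_lt_of_lt_one
      (show (0 : ℝ) < ε / (2 : ℝ) ^ (CL + (∑ X, CA X) + 3) by positivity)
      (show (1 / 2 : ℝ) < 1 by norm_num)
    refine ⟨n, ?_⟩
    rw [lt_div_iff₀ (by positivity)] at hn
    have e1 : (2 : ℝ) ^ (CL + (∑ X, CA X) + 3) / 2 ^ n =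
        (1 / 2 : ℝ) ^ n * 2 ^ (CL + (∑ X, CA X) + 3) := by
      rw [one_div, inv_pow]
      ring
    rw [e1]
    exact hn.le
  have hD := one_le_DK K
  refine ⟨2 * n + 2 * (∑ X, CA X) + 32 * DK K * c + 8, fun d hd v g hv V hV => ?_⟩
  set CAs := ∑ X, CA X with hCAs
  have hCA1 : ∀ X, CA X ≤ CAs := by
    intro X
    exact Finset.single_le_sum (f := CA) (fun _ _ => Nat.zero_le _) (Finset.mem_univ X)
  generalize hk : d / (32 * DK K ^ 2) = k
  set m := k * DK K with hm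
  have hmd : 32 * DK K * m ≤ d := by
    have h1 : k * (32 * DK K ^ 2) ≤ d := by
      rw [← hk]
      exact Nat.div_mul_le_self _ _
    calc 32 * DK K * m = k * (32 * DK K ^ 2) := by rw [hm]; ring
      _ ≤ d := h1
  have hm32 : 32 * m ≤ d := by
    have h1 : 32 * 1 * m ≤ 32 * DK K * m :=
      Nat.mul_le_mul_right _ (Nat.mul_le_mul_left _ hD)
    omega
  have hm4 : m ≤ d / 4 := by omega
  have hcm : c + m ≤ d / (16 * DK K) := by
    rw [Nat.le_div_iff_mul_le (by omega)]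
    have h1 : 2 * ((c + m) * (16 * DK K)) = 32 * DK K * c + 32 * DK K * m := by ring
    omega
  generalize hT : TL c s μ e₀ d = T at *
  have hT0 : 0 < T := by rw [← hT, TL]; positivity
  have hT0' : (0 : ℝ) < T := by exact_mod_cast hT0
  have hi : ∀ X, ∃ i, i ∉ V X := by
    intro X
    by_contra h
    push Not at h
    have h1 : V X = Finset.univ := Finset.eq_univ_iff_forall.2 h
    have := hV X
    rw [h1, Finset.card_univ, Fintype.card_fin] at this
    omega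
  choose i₀ hi₀ using hi
  set S := Finset.univ.filter (fun a : JJ K → Fin T => Low T (2 ^ k) (fr T a) ∧
    ¬ Zero T (2 ^ (d / (16 * DK K))) a) with hS
  have hβ : ∀ a ∈ S, ∃ β : K, (den β).absNorm ≤ 2 ^ m ∧
      (∀ w : InfinitePlace K, w (fr T a - β) ≤ 2 ^ m / (T : ℝ)) ∧ den β ≠ ⊤ := by
    intro a ha
    obtain ⟨h1, h2⟩ := (Finset.mem_filter.1 ha).2
    obtain ⟨β, h3, h4⟩ := exists_beta hT0 h1
    refine ⟨β, h3, h4, fun h5 => h2 ?_⟩
    exact zero_of_den_top hc hT0 a β h5 h4 (Nat.pow_le_pow_right (by norm_num) hcm)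
  choose! β hβ1 hβ2 hβ3 using hβ
  set x : (JJ K → Fin T) → Fin 3 → ℝ := fun a X => Ex fun z : Fin s → JJ K → Fin (2 ^ d) =>
    if RR q d (M X) (v X) (g X) (i₀ X) z ∈ den (β a) then
      fR d (RR q d (M X) (v X) (g X) (i₀ X) z) (fr T a - β a) else 0 with hx
  set F : (JJ K → Fin T) → Fin 3 → ℝ := fun a X => Ex fun z : Fin s → JJ K → Fin (2 ^ d) =>
    ‖TT q d (M X) (v X) (g X) (fr T a) (V X) z‖ with hF
  set E : ℝ := 2 ^ CAs * 2 ^ m / 2 ^ d with hE
  have hE0 : 0 ≤ E := by positivity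
  have hE1 : E ≤ 1 := by
    rw [hE, ← pow_add, div_le_one (by positivity)]
    exact pow_le_pow_right₀ (by norm_num) (by omega)
  have hF0 : ∀ a X, 0 ≤ F a X := fun a X => Ex_nonneg fun _ => norm_nonneg _
  have hx0 : ∀ a X, 0 ≤ x a X := by
    intro a X
    refine Ex_nonneg fun z => ?_
    split_ifs
    · exact fR_nonneg _ _ _
    · exact le_rfl
  have hx1 : ∀ a X, x a X ≤ 1 := by
    intro a X
    refine (Ex_mono (g := fun _ => 1) fun z => ?_).trans (Ex_const 1).le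
    split_ifs
    · exact fR_le_one _ _ _
    · exact zero_le_one
  have hFx : ∀ a ∈ S, ∀ X, F a X ≤ x a X + E := by
    intro a ha X
    have h1 := hCA X d (by have := hCA1 X; omega) (v X) (g X) (hv X) (V X) (i₀ X) (hi₀ X) (fr T a)
      (β a) m hm4 (hβ1 a ha) (hT ▸ hβ2 a ha)
    refine h1.trans (add_le_add le_rfl ?_)
    rw [hE]
    refine div_le_div_of_nonneg_right ?_ (by positivity)
    refine mul_le_mul_of_nonneg_right ?_ (by positivity)
    exact pow_le_pow_right₀ (by norm_num) (hCA1 X)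
  -- the term `0`
  set S' := S.filter (fun a => IsCoprime (den (β a)) (Ideal.span {(q : 𝓞 K)})) with hS'
  have hzero : ∀ a, ¬ IsCoprime (den (β a)) (Ideal.span {(q : 𝓞 K)}) → ∏ X, x a X = 0 := by
    intro a ha
    have h1 : ∃ P : Ideal (𝓞 K), den (β a) ≤ P ∧ Ideal.span {(q : 𝓞 K)} ≤ P ∧ P.IsPrime := by
      by_contra h
      push Not at h
      exact ha (Ideal.coprime_of_no_prime_ge h)
    obtain ⟨P, hP1, hP2, hP⟩ := h1
    have hqP : (q : 𝓞 K) ∈ P := hP2 (Ideal.mem_span_singleton_self _)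
    have hkey : ∀ X, M X ∉ P → x a X = 0 := by
      intro X hMX
      have : (fun z : Fin s → JJ K → Fin (2 ^ d) =>
          if RR q d (M X) (v X) (g X) (i₀ X) z ∈ den (β a) then
            fR d (RR q d (M X) (v X) (g X) (i₀ X) z) (fr T a - β a) else 0) = fun _ => 0 := by
        funext z
        rw [if_neg]
        intro h
        rcases hP.mem_or_mem (hP1 h) with h2 | h2
        · exact hMX h2
        · exact not_mem_prime (hv X) z _ hP hqP h2
      simp only [hx]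
      rw [this, Ex_const]
    have h01 : M 0 ∉ P ∨ M 1 ∉ P := by
      by_contra h
      push Not at h
      obtain ⟨a', b', hab⟩ := hC.cop
      apply hP.ne_top
      rw [Ideal.eq_top_iff_one, ← hab]
      exact P.add_mem (P.mul_mem_left _ h.1) (P.mul_mem_left _ h.2)
    rcases h01 with h | h
    · exact Finset.prod_eq_zero (Finset.mem_univ 0) (hkey 0 h)
    · exact Finset.prod_eq_zero (Finset.mem_univ 1) (hkey 1 h)
  have hpt : ∀ a ∈ S, ∏ X, F a X ≤
      (if IsCoprime (den (β a)) (Ideal.span {(q : 𝓞 K)}) then ∑ X, x a X ^ 3 else 0) + 7 * E := by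
    intro a ha
    refine (prod_three hE0 hE1 (hF0 a) (hx0 a) (hx1 a) (hFx a ha)).trans ?_
    refine add_le_add ?_ le_rfl
    split_ifs with h
    · exact prod_le_cubes (hx0 a)
    · exact (hzero a h).le
  have hN0 := NN_nonneg s q d (M 0) (g 0)
  have hN1 : NN s q d (M 0) (g 0) / (T : ℝ) ^ DK K ≤ 1 := by
    rw [div_le_one (by positivity), ← hT]
    exact NN_le_TL hC hs hv
  have ht0 : 0 ≤ NN s q d (M 0) (g 0) / (T : ℝ) ^ DK K := by positivity
  refine (mul_le_mul_of_nonneg_left (Finset.sum_le_sum hpt) ht0).trans ?_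
  rw [Finset.sum_add_distrib, ← Finset.sum_filter, mul_add]
  refine add_le_add ?_ ?_
  · -- the main term
    rw [← hS', Finset.sum_comm, Finset.mul_sum]
    have hcard : ∀ Q ∈ S'.image (fun a => den (β a)), Q ≠ ⊤ ∧ Q ≠ ⊥ ∧
        IsCoprime Q (Ideal.span {(q : 𝓞 K)}) := by
      intro Q hQ
      rw [Finset.mem_image] at hQ
      obtain ⟨a, ha, rfl⟩ := hQ
      obtain ⟨haS, hac⟩ := Finset.mem_filter.1 ha
      exact ⟨hβ3 a haS, den_ne_bot _, hac⟩
    have hW := hAC κ q (by omega) hC.qpos hC.small (S'.image fun a => den (β a)) hcard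
    set Cc : ℝ := 2 ^ CB * ((Λ : ℝ) * 2 ^ (γ * s)) ^ DK K with hCc
    have hCc0 : 0 ≤ Cc := by positivity
    have hX : ∀ X : Fin 3, NN s q d (M 0) (g 0) / (T : ℝ) ^ DK K * ∑ a ∈ S', x a X ^ 3 ≤
        Cc * (2 ^ AC / 2 ^ (κ / 2)) := by
      intro X
      have hsplit : ∑ a ∈ S', x a X ^ 3 = ∑ Q ∈ S'.image (fun a => den (β a)),
          ∑ a ∈ S'.filter (fun a => den (β a) = Q), x a X ^ 3 :=
        (Finset.sum_fiberwise_of_maps_to
          (fun a ha => Finset.mem_image_of_mem (fun a => den (β a)) ha) _).symm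
      rw [hsplit, Finset.mul_sum]
      refine le_trans (Finset.sum_le_sum fun Q hQ => ?_)
        (le_trans (Finset.mul_sum _ _ Cc).symm.le (mul_le_mul_of_nonneg_left hW hCc0))
      obtain ⟨_, hQ0, hQq⟩ := hcard Q hQ
      have hQd : Q.absNorm ≤ 2 ^ d := by
        rw [Finset.mem_image] at hQ
        obtain ⟨a, ha, rfl⟩ := hQ
        refine (hβ1 a (Finset.mem_filter.1 ha).1).trans ?_
        exact Nat.pow_le_pow_right (by norm_num) (by omega)
      exact sum_Q hc hC hT.symm hCB X hv (i₀ X) hQ0 hQd hQq _ β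
        (fun a ha => (Finset.mem_filter.1 ha).2)
    refine (Finset.sum_le_sum fun X _ => hX X).trans ?_
    rw [Finset.sum_const, Finset.card_univ, Fintype.card_fin, nsmul_eq_mul]
    have h1 : ((Λ : ℝ) * 2 ^ (γ * s)) ^ DK K ≤ 2 ^ ((Λ + γ * s) * DK K) := by
      have h3 : (0 : ℝ) ≤ (Λ : ℝ) * 2 ^ (γ * s) := by positivity
      have h4 : (Λ : ℝ) ≤ 2 ^ Λ := by exact_mod_cast (Nat.lt_two_pow_self (n := Λ)).le
      have h5 : (Λ : ℝ) * 2 ^ (γ * s) ≤ 2 ^ (Λ + γ * s) := by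
        rw [pow_add]
        exact mul_le_mul_of_nonneg_right h4 (by positivity)
      rw [pow_mul 2 (Λ + γ * s) (DK K)]
      exact pow_le_pow_left₀ h3 h5 _
    have h2 : Cc ≤ 2 ^ CB * 2 ^ ((Λ + γ * s) * DK K) :=
      mul_le_mul_of_nonneg_left h1 (by positivity)
    calc ((3 : ℕ) : ℝ) * (Cc * (2 ^ AC / 2 ^ (κ / 2)))
        ≤ 4 * ((2 ^ CB * 2 ^ ((Λ + γ * s) * DK K)) * (2 ^ AC / 2 ^ (κ / 2))) := by
          have h3 : ((3 : ℕ) : ℝ) ≤ 4 := by norm_num
          have h4 : Cc * (2 ^ AC / 2 ^ (κ / 2)) ≤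
              (2 ^ CB * 2 ^ ((Λ + γ * s) * DK K)) * (2 ^ AC / 2 ^ (κ / 2)) :=
            mul_le_mul_of_nonneg_right h2 (by positivity)
          exact mul_le_mul h3 h4 (by positivity) (by norm_num)
      _ = 2 ^ (AC + (CB + ((Λ + γ * s) * DK K + 2))) / 2 ^ (κ / 2) := by
          rw [pow_add 2 AC, pow_add 2 CB, pow_add 2 _ 2]
          ring
  · -- the error
    have hcS := hCL T k hT0 S fun a ha => (Finset.mem_filter.1 ha).2.1
    rw [Finset.sum_const, nsmul_eq_mul]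
    refine le_trans ?_ hn
    calc NN s q d (M 0) (g 0) / (T : ℝ) ^ DK K * ((S.card : ℝ) * (7 * E))
        ≤ 1 * ((2 ^ CL * (2 ^ m) ^ 3) * (8 * E)) := by
          refine mul_le_mul hN1 ?_ (by positivity) (by norm_num)
          exact mul_le_mul hcS (by linarith) (by positivity) (by positivity)
      _ = 2 ^ (CL + CAs + 3) * (2 ^ (4 * m) / 2 ^ d) := by
          rw [hE, pow_add, pow_add, mul_comm 4 m, pow_mul 2 m 4]
          ring
      _ ≤ 2 ^ (CL + CAs + 3) * (1 / 2 ^ n) := by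
          refine mul_le_mul_of_nonneg_left ?_ (by positivity)
          rw [div_le_div_iff₀ (by positivity) (by positivity), one_mul, ← pow_add]
          exact pow_le_pow_right₀ (by norm_num) (by omega)
      _ = 2 ^ (CL + CAs + 3) / 2 ^ n := by ring

end Pool.Agent.H366.NK
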