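import Pool.Agent.H366.NK.AIa
import Pool.Agent.H366.NK.AIb
import Pool.Agent.H366.NK.Major
import Pool.Agent.H366.GF.AI1

/-! # [AI] the analytic input -/

set_option autoImplicit false

namespace Pool.Agent.H366.NK

open NumberField
open Pool.Agent.H366.GF (Ex ExC Ex_mono Ex_nonneg Ex_const Ex_add Ex_mul_left Ex_sum norm_ExC_le
  Ex_mul3)
open Pool.Agent.H366.ZC (e)

variable {K : Type} [Field K] [NumberField K]

namespace AIN

lemma norm_TT_le {s q d : ℕ} (M : 𝓞 K) (v g : Fin s → 𝓞 K) (α : K) (V : Finset (Fin s))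
    (z : Fin s → JJ K → Fin (2 ^ d)) : ‖TT q d M v g α V z‖ ≤ 1 := by
  unfold TT
  refine (norm_ExC_le _).trans ?_
  simp only [norm_psi]
  exact (Ex_const (α := Fin s → JJ K → Fin (2 ^ d)) 1).le

lemma NN_nonneg {s : ℕ} (q d : ℕ) (M : 𝓞 K) (g : Fin s → 𝓞 K) : 0 ≤ NN s q d M g := by
  have h : ∀ x : K, 0 ≤ nm x := fun x => abs_nonneg _
  unfold NN
  have h1 : 0 ≤ ∏ i, nm (g i : K) := Finset.prod_nonneg fun i _ => h _
  have h2 := h (M : K)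
  positivity

open Classical in
lemma card_one (T w₀ : ℕ) (hw : 1 ≤ w₀) :
    (Finset.univ.filter fun x : Fin T => (x : ℕ) ≤ w₀ ∨ T ≤ (x : ℕ) + w₀).card ≤ 3 * w₀ := by
  have h1 : ((Finset.univ.filter fun x : Fin T => (x : ℕ) ≤ w₀ ∨ T ≤ (x : ℕ) + w₀).image
      (fun x : Fin T => (x : ℕ))) ⊆ Finset.Icc 0 w₀ ∪ Finset.Ico (T - w₀) T := by
    intro a ha
    rw [Finset.mem_image] at ha
    obtain ⟨x, hx, rfl⟩ := ha
    rw [Finset.mem_filter] at hx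
    rw [Finset.mem_union, Finset.mem_Icc, Finset.mem_Ico]
    have := x.2
    omega
  have h2 := Finset.card_le_card h1
  rw [Finset.card_image_of_injective _ Fin.val_injective] at h2
  have h3 := h2.trans (Finset.card_union_le _ _)
  rw [Nat.card_Icc, Nat.card_Ico] at h3
  omega

open Classical in
lemma card_zero (T w₀ : ℕ) (hw : 1 ≤ w₀) :
    (Finset.univ.filter fun a : JJ K → Fin T => Zero T w₀ a).card ≤ (3 * w₀) ^ DK K := by
  have h1 : (Finset.univ.filter fun a : JJ K → Fin T => Zero T w₀ a) ⊆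
      Fintype.piFinset fun _ : JJ K =>
        Finset.univ.filter fun x : Fin T => (x : ℕ) ≤ w₀ ∨ T ≤ (x : ℕ) + w₀ := by
    intro a ha
    rw [Finset.mem_filter] at ha
    rw [Fintype.mem_piFinset]
    intro j
    rw [Finset.mem_filter]
    exact ⟨Finset.mem_univ _, ha.2 j⟩
  refine (Finset.card_le_card h1).trans ?_
  rw [Fintype.card_piFinset, Finset.prod_const, Finset.card_univ]
  exact Nat.pow_le_pow_left (card_one T w₀ hw) _

lemma pow_arith (D d : ℕ) : ((2 : ℝ) ^ (d / (16 * D))) ^ D * 2 ^ (d / (16 * D)) / 2 ^ (d / 4) ≤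
    1 / 2 ^ (d / 8) := by
  rw [div_le_div_iff₀ (by positivity) (by positivity), one_mul, ← pow_mul, ← pow_add, ← pow_add]
  refine pow_le_pow_right₀ (by norm_num) ?_
  have h1 : d / (16 * D) * D ≤ d / 16 := by
    rw [← Nat.div_div_eq_div_mul]
    exact Nat.div_mul_le_self _ _
  have h2 : d / (16 * D) ≤ d / 16 := by
    rw [← Nat.div_div_eq_div_mul]
    exact Nat.div_le_self _ _
  omega

open Classical in
/-- the bound for given `d` -/
lemma AI_bound {c : ℕ} (hc : Cst K c) {κ Λ μ q e₀ γ : ℕ} {M : Fin 3 → 𝓞 K}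
    (hC : Ctx κ Λ μ q e₀ γ M) {s d : ℕ} (hs : 1 ≤ s) (hd : 12 ≤ d) {v g : Fin 3 → Fin s → 𝓞 K}
    (hv : ∀ X i, SlotOK c q γ (v X i) (g X i)) (hrel : Rel s q M v) (V : Fin 3 → Finset (Fin s))
    (δ₁ δ₂ : ℝ)
    (hmaj : (NN s q d (M 0) (g 0) / (TL c s μ e₀ d : ℝ) ^ DK K) *
      ∑ a ∈ Finset.univ.filter (fun a : JJ K → Fin (TL c s μ e₀ d) =>
          Low (TL c s μ e₀ d) (2 ^ (d / (32 * DK K ^ 2))) (fr _ a) ∧
          ¬ Zero (TL c s μ e₀ d) (2 ^ (d / (16 * DK K))) a),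
        ∏ X : Fin 3, Ex (fun z : Fin s → JJ K → Fin (2 ^ d) =>
          ‖TT q d (M X) (v X) (g X) (fr (TL c s μ e₀ d) a) (V X) z‖) ≤ δ₁)
    (hmin : ∀ cf : (JJ K → Fin (TL c s μ e₀ d)) → ℂ, (∀ a, ‖cf a‖ ≤ 2) →
    Ex (fun z : Fin 3 → Fin s → JJ K → Fin (2 ^ d) =>
      if IsCoprime (∏ i ∈ V 0, zz q d (v 0 i) (g 0 i) (z 0 i))
        (∏ i ∈ V 1, zz q d (v 1 i) (g 1 i) (z 1 i)) then
        ‖∑ a ∈ Finset.univ.filter (fun a : JJ K → Fin (TL c s μ e₀ d) =>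
            ¬ Low (TL c s μ e₀ d) (2 ^ (d / (32 * DK K ^ 2))) (fr _ a)),
          cf a * (TT q d (M 0) (v 0) (g 0) (fr (TL c s μ e₀ d) a) (V 0) (z 0) *
        (starRingEnd ℂ) (TT q d (M 1) (v 1) (g 1) (fr (TL c s μ e₀ d) a) (V 1) (z 1)) *
        (starRingEnd ℂ) (TT q d (M 2) (v 2) (g 2) (fr (TL c s μ e₀ d) a) (V 2) (z 2)))‖
      else 0) ≤ δ₂) :
    Ex (fun z : Fin 3 → Fin s → JJ K → Fin (2 ^ d) =>
      if IsCoprime (∏ i ∈ V 0, zz q d (v 0 i) (g 0 i) (z 0 i))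
        (∏ i ∈ V 1, zz q d (v 1 i) (g 1 i) (z 1 i))
      then |Ex (fun z' : Fin 3 → Fin s → JJ K → Fin (2 ^ d) =>
          Wt s q d M v g (fun X => (V X).piecewise (z X) (z' X))) -
        Ex (fun z' : Fin 3 → Fin s → JJ K → Fin (2 ^ d) =>
          Ws s q d (KS c s μ e₀ d) M v g (fun X => (V X).piecewise (z X) (z' X)))|
      else 0) ≤ 8 * DK K * 3 ^ DK K / 2 ^ (d / 8) + 2 * δ₁ + δ₂ := by
  have hcirc := circle hc hC hs hd hv hrel
  have hr1 := NN_le (d := d) hc hC hs hv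
  have hT0 : 0 < TL c s μ e₀ d := Nat.two_pow_pos _
  generalize TL c s μ e₀ d = T at hcirc hr1 hT0 hmaj hmin
  obtain ⟨cf, hcf2, hcf0, hid⟩ := hcirc
  set r : ℝ := NN s q d (M 0) (g 0) / (T : ℝ) ^ DK K with hr
  have hr0 : 0 ≤ r := div_nonneg (NN_nonneg _ _ _ _) (by positivity)
  set w₀ : ℕ := 2 ^ (d / (16 * DK K)) with hw₀
  have hw1 : 1 ≤ w₀ := Nat.one_le_two_pow
  set t : Fin 3 → (JJ K → Fin T) → (Fin s → JJ K → Fin (2 ^ d)) → ℂ :=
    fun X a z => TT q d (M X) (v X) (g X) (fr T a) (V X) z with ht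
  have ht1 : ∀ X a z, ‖t X a z‖ ≤ 1 := fun X a z => norm_TT_le _ _ _ _ _ _
  set F : (JJ K → Fin T) → (Fin 3 → Fin s → JJ K → Fin (2 ^ d)) → ℂ :=
    fun a z => cf a * (t 0 a (z 0) * (starRingEnd ℂ) (t 1 a (z 1)) *
      (starRingEnd ℂ) (t 2 a (z 2))) with hF
  have hFn : ∀ a z, ‖F a z‖ = ‖cf a‖ * (‖t 0 a (z 0)‖ * ‖t 1 a (z 1)‖ * ‖t 2 a (z 2)‖) := by
    intro a z
    simp only [hF, norm_mul, RCLike.norm_conj]
  set Z : Finset (JJ K → Fin T) := Finset.univ.filter (fun a => Zero T w₀ a) with hZ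
  set Mj : Finset (JJ K → Fin T) := Finset.univ.filter
    (fun a => Low T (2 ^ (d / (32 * DK K ^ 2))) (fr T a) ∧ ¬ Zero T w₀ a) with hMj
  set Mn : Finset (JJ K → Fin T) := Finset.univ.filter
    (fun a => ¬ Low T (2 ^ (d / (32 * DK K ^ 2))) (fr T a)) with hMn
  -- pointwise
  have hpt : ∀ z : Fin 3 → Fin s → JJ K → Fin (2 ^ d),
      |Ex (fun z' : Fin 3 → Fin s → JJ K → Fin (2 ^ d) =>
          Wt s q d M v g (fun X => (V X).piecewise (z X) (z' X))) -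
        Ex (fun z' : Fin 3 → Fin s → JJ K → Fin (2 ^ d) =>
          Ws s q d (KS c s μ e₀ d) M v g (fun X => (V X).piecewise (z X) (z' X)))| ≤
      r * ∑ a ∈ Z, ‖cf a‖ + r * (2 * ∑ a ∈ Mj, ‖t 0 a (z 0)‖ * ‖t 1 a (z 1)‖ * ‖t 2 a (z 2)‖) +
        r * ‖∑ a ∈ Mn, F a z‖ := by
    intro z
    have h1 := hid V z
    rw [← Real.norm_eq_abs, ← Complex.norm_real, h1]
    have h2 : ∀ a : JJ K → Fin T, ((r : ℝ) : ℂ) * cf a *
        (TT q d (M 0) (v 0) (g 0) (fr T a) (V 0) (z 0) *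
        (starRingEnd ℂ) (TT q d (M 1) (v 1) (g 1) (fr T a) (V 1) (z 1)) *
        (starRingEnd ℂ) (TT q d (M 2) (v 2) (g 2) (fr T a) (V 2) (z 2))) = (r : ℂ) * F a z := by
      intro a
      simp only [hF, ht]
      ring
    rw [Finset.sum_congr rfl fun a _ => h2 a, ← Finset.mul_sum, norm_mul, Complex.norm_real,
      Real.norm_eq_abs, abs_of_nonneg hr0, ← mul_add, ← mul_add]
    refine mul_le_mul_of_nonneg_left ?_ hr0
    rw [← Finset.sum_filter_add_sum_filter_not Finset.univ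
      (fun a : JJ K → Fin T => Low T (2 ^ (d / (32 * DK K ^ 2))) (fr T a))]
    refine (norm_add_le _ _).trans (add_le_add ?_ le_rfl)
    refine (norm_sum_le _ _).trans ?_
    have h3 : Finset.univ.filter (fun a : JJ K → Fin T =>
        Low T (2 ^ (d / (32 * DK K ^ 2))) (fr T a)) ⊆ Z ∪ Mj := by
      intro a ha
      rw [Finset.mem_filter] at ha
      rw [Finset.mem_union, Finset.mem_filter, Finset.mem_filter]
      by_cases h : Zero T w₀ a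
      · exact Or.inl ⟨ha.1, h⟩
      · exact Or.inr ⟨ha.1, ha.2, h⟩
    refine (Finset.sum_le_sum_of_subset_of_nonneg h3 fun a _ _ => norm_nonneg _).trans ?_
    have h4 : ∑ a ∈ Z ∪ Mj, ‖F a z‖ ≤ ∑ a ∈ Z, ‖F a z‖ + ∑ a ∈ Mj, ‖F a z‖ := by
      have h5 := Finset.sum_union_inter (f := fun a => ‖F a z‖) (s₁ := Z) (s₂ := Mj)
      have h6 : 0 ≤ ∑ a ∈ Z ∩ Mj, ‖F a z‖ := Finset.sum_nonneg fun a _ => norm_nonneg _
      linarith
    refine h4.trans (add_le_add ?_ ?_)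
    · refine Finset.sum_le_sum fun a _ => ?_
      rw [hFn]
      refine mul_le_of_le_one_right (norm_nonneg _) ?_
      have h7 := ht1 0 a (z 0)
      have h8 := ht1 1 a (z 1)
      have h9 := ht1 2 a (z 2)
      calc ‖t 0 a (z 0)‖ * ‖t 1 a (z 1)‖ * ‖t 2 a (z 2)‖ ≤ 1 * 1 * 1 := by gcongr
        _ = 1 := by norm_num
    · rw [Finset.mul_sum]
      refine Finset.sum_le_sum fun a _ => ?_
      rw [hFn]
      exact mul_le_mul_of_nonneg_right (hcf2 a) (by positivity)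
  have hpt' : ∀ z : Fin 3 → Fin s → JJ K → Fin (2 ^ d),
      (if IsCoprime (∏ i ∈ V 0, zz q d (v 0 i) (g 0 i) (z 0 i))
        (∏ i ∈ V 1, zz q d (v 1 i) (g 1 i) (z 1 i))
      then |Ex (fun z' : Fin 3 → Fin s → JJ K → Fin (2 ^ d) =>
          Wt s q d M v g (fun X => (V X).piecewise (z X) (z' X))) -
        Ex (fun z' : Fin 3 → Fin s → JJ K → Fin (2 ^ d) =>
          Ws s q d (KS c s μ e₀ d) M v g (fun X => (V X).piecewise (z X) (z' X)))|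
      else 0) ≤
      r * ∑ a ∈ Z, ‖cf a‖ + r * (2 * ∑ a ∈ Mj, ‖t 0 a (z 0)‖ * ‖t 1 a (z 1)‖ * ‖t 2 a (z 2)‖) +
        r * (if IsCoprime (∏ i ∈ V 0, zz q d (v 0 i) (g 0 i) (z 0 i))
        (∏ i ∈ V 1, zz q d (v 1 i) (g 1 i) (z 1 i)) then ‖∑ a ∈ Mn, F a z‖ else 0) := by
    intro z
    split_ifs with h
    · exact hpt z
    · positivity
  refine (Ex_mono hpt').trans ?_
  simp only [Ex_add, Ex_mul_left]
  refine add_le_add (add_le_add ?_ ?_) ?_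
  · -- zero arc
    rw [Ex_const]
    have h1 : ∀ a ∈ Z, ‖cf a‖ ≤ 8 * DK K * w₀ / 2 ^ (d / 4) := by
      intro a ha
      rw [Finset.mem_filter] at ha
      exact hcf0 w₀ a ha.2
    have h2 : (Z.card : ℝ) ≤ (3 * w₀) ^ DK K := by
      have h3 : Z.card ≤ (3 * w₀) ^ DK K := card_zero T w₀ hw1
      exact_mod_cast h3
    calc r * ∑ a ∈ Z, ‖cf a‖ ≤ 1 * ∑ a ∈ Z, (8 * DK K * w₀ / 2 ^ (d / 4) : ℝ) :=
          mul_le_mul hr1 (Finset.sum_le_sum h1) (Finset.sum_nonneg fun a _ => norm_nonneg _)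
            zero_le_one
      _ = Z.card * (8 * DK K * w₀ / 2 ^ (d / 4)) := by
          rw [Finset.sum_const, nsmul_eq_mul, one_mul]
      _ ≤ (3 * w₀) ^ DK K * (8 * DK K * w₀ / 2 ^ (d / 4)) :=
          mul_le_mul_of_nonneg_right h2 (by positivity)
      _ = 8 * DK K * 3 ^ DK K * ((w₀ : ℝ) ^ DK K * w₀ / 2 ^ (d / 4)) := by
          rw [mul_pow]
          ring
      _ ≤ 8 * DK K * 3 ^ DK K * (1 / 2 ^ (d / 8)) := by
          refine mul_le_mul_of_nonneg_left ?_ (by positivity)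
          have h3 := pow_arith (DK K) d
          rw [hw₀]
          push_cast
          exact h3
      _ = _ := by rw [mul_one_div]
  · -- major
    rw [Ex_sum]
    have h2 : ∀ a, Ex (fun z : Fin 3 → Fin s → JJ K → Fin (2 ^ d) =>
        ‖t 0 a (z 0)‖ * ‖t 1 a (z 1)‖ * ‖t 2 a (z 2)‖) =
        ∏ X : Fin 3, Ex (fun z : Fin s → JJ K → Fin (2 ^ d) =>
          ‖TT q d (M X) (v X) (g X) (fr T a) (V X) z‖) := by
      intro a
      rw [Fin.prod_univ_three]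
      exact Ex_mul3 (fun z => ‖t 0 a z‖) (fun z => ‖t 1 a z‖) (fun z => ‖t 2 a z‖)
    rw [Finset.sum_congr rfl fun a _ => h2 a]
    have h3 : r * (2 * ∑ a ∈ Mj, ∏ X : Fin 3, Ex (fun z : Fin s → JJ K → Fin (2 ^ d) =>
          ‖TT q d (M X) (v X) (g X) (fr T a) (V X) z‖)) =
        2 * (r * ∑ a ∈ Mj, ∏ X : Fin 3, Ex (fun z : Fin s → JJ K → Fin (2 ^ d) =>
          ‖TT q d (M X) (v X) (g X) (fr T a) (V X) z‖)) := by ring
    rw [h3]
    exact mul_le_mul_of_nonneg_left hmaj (by norm_num)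
  · -- minor
    have h1 := hmin cf hcf2
    refine (mul_le_mul hr1 h1 (Ex_nonneg fun _ => ?_) (by norm_num)).trans (by rw [one_mul])
    split_ifs <;> positivity

lemma exists_pow (A : ℝ) (ε : ℝ) (hε : 0 < ε) : ∃ x₀ : ℕ, ∀ x : ℕ, x₀ ≤ x →
    A / 2 ^ x ≤ ε := by
  have h1 : Filter.Tendsto (fun x : ℕ => A / (2 : ℝ) ^ x) Filter.atTop (nhds 0) := by
    have h2 : Filter.Tendsto (fun x : ℕ => ((1 : ℝ) / 2) ^ x) Filter.atTop (nhds 0) :=
      tendsto_pow_atTop_nhds_zero_of_lt_one (by norm_num) (by norm_num)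
    have h4 := h2.const_mul A
    rw [mul_zero] at h4
    refine h4.congr fun x => ?_
    rw [one_div, inv_pow, div_eq_mul_inv]
  obtain ⟨x₀, hx₀⟩ := (h1.eventually (gt_mem_nhds hε)).exists_forall_of_atTop
  exact ⟨x₀, fun x hx => (hx₀ x hx).le⟩

end AIN

open Classical in
/-- [AI] -/
theorem AI {c : ℕ} (hc : Cst K c) (k Λ γ : ℕ) (ε : ℝ) (hε : 0 < ε) : ∃ κ₀ : ℕ,
    ∀ (κ μ q e₀ : ℕ) (M : Fin 3 → 𝓞 K), κ₀ ≤ κ → Ctx κ Λ μ q e₀ γ M →
    ∃ d₀ : ℕ, ∀ d : ℕ, d₀ ≤ d → ∀ v g : Fin 3 → Fin (4 * k + 4) → 𝓞 K,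
    (∀ X i, SlotOK c q γ (v X i) (g X i)) → Rel (4 * k + 4) q M v →
    ∀ V : Fin 3 → Finset (Fin (4 * k + 4)), (∀ X, (V X).card ≤ k) →
    Ex (fun z : Fin 3 → Fin (4 * k + 4) → JJ K → Fin (2 ^ d) =>
      if IsCoprime (∏ i ∈ V 0, zz q d (v 0 i) (g 0 i) (z 0 i))
        (∏ i ∈ V 1, zz q d (v 1 i) (g 1 i) (z 1 i))
      then |Ex (fun z' : Fin 3 → Fin (4 * k + 4) → JJ K → Fin (2 ^ d) =>
          Wt (4 * k + 4) q d M v g (fun X => (V X).piecewise (z X) (z' X))) -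
        Ex (fun z' : Fin 3 → Fin (4 * k + 4) → JJ K → Fin (2 ^ d) =>
          Ws (4 * k + 4) q d (KS c (4 * k + 4) μ e₀ d) M v g
            (fun X => (V X).piecewise (z X) (z' X)))|
      else 0) ≤ ε := by
  obtain ⟨s, hs⟩ : ∃ s : ℕ, s = 4 * k + 4 := ⟨_, rfl⟩
  rw [← hs]
  have hs1 : 1 ≤ s := by omega
  obtain ⟨A, hA⟩ := major hc s Λ γ hs1
  obtain ⟨x₁, hx₁⟩ := AIN.exists_pow (2 ^ A) (ε / 8) (by positivity)
  refine ⟨max A (max (640 * s ^ 2 * DK K ^ 2) (2 * x₁)), ?_⟩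
  intro κ μ q e₀ M hκ hC
  have hκ1 : A ≤ κ := (le_max_left _ _).trans hκ
  have hκ2 : 640 * s ^ 2 * DK K ^ 2 ≤ κ :=
    ((le_max_left _ _).trans (le_max_right _ _)).trans hκ
  have hκ3 : 2 * x₁ ≤ κ := ((le_max_right _ _).trans (le_max_right _ _)).trans hκ
  obtain ⟨d₁, hd₁⟩ := hA κ μ q e₀ M hκ1 hC (ε / 8) (by positivity)
  obtain ⟨d₂, hd₂⟩ := minor hc hC hs hκ2 (ε / 8) (by positivity)
  obtain ⟨x₂, hx₂⟩ := AIN.exists_pow (8 * DK K * 3 ^ DK K) (ε / 8) (by positivity)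
  refine ⟨12 + d₁ + d₂ + 8 * x₂, ?_⟩
  intro d hd v g hv hrel V hV
  have h1 := hd₁ d (by omega) v g hv V (fun X => by have := hV X; omega)
  have h2 := hd₂ d (by omega) v g hv V hV
  refine (AIN.AI_bound hc hC hs1 (by omega) hv hrel V _ _ h1 h2).trans ?_
  have e1 := hx₁ (κ / 2) (by omega)
  have e2 := hx₂ (d / 8) (by omega)
  linarith

end Pool.Agent.H366.NK
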