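import Pool.Agent.H366.NK.Base3
import Pool.Agent.H366.ZC.AIa

/-! # [AIA] the identity of the circle method -/

set_option autoImplicit false

namespace Pool.Agent.H366.NK

open NumberField
open Pool.Agent.H366.GF (Ex ExC)
open Pool.Agent.H366.ZC (e)

variable {K : Type} [Field K] [NumberField K]

namespace AIaN

open Pool.Agent.H366.GF (Ex_sub Ex_ofReal ExC_sum ExC_mul_left ExC_mul3)
open Pool.Agent.H366.ZC (e_add e_zero norm_e)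
open Pool.Agent.H366.ZC.AIN (Kh norm_Kh_le one_sub_Kh_le ind_zero ind_K conj_ExC)

lemma co_mul (x y : 𝓞 K) : ((x * y : 𝓞 K) : K) = (x : K) * (y : K) :=
  map_mul (algebraMap (𝓞 K) K) x y

lemma co_add (x y : 𝓞 K) : ((x + y : 𝓞 K) : K) = (x : K) + (y : K) :=
  map_add (algebraMap (𝓞 K) K) x y

lemma co_sub (x y : 𝓞 K) : ((x - y : 𝓞 K) : K) = (x : K) - (y : K) :=
  map_sub (algebraMap (𝓞 K) K) x y

lemma co_nat (n : ℕ) : ((n : 𝓞 K) : K) = (n : K) := map_natCast (algebraMap (𝓞 K) K) n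

lemma w_add (w : InfinitePlace K) (x y : K) : w (x + y) ≤ w x + w y := w.1.add_le x y

lemma w_neg (w : InfinitePlace K) (x : K) : w (-x) = w x := w.1.map_neg x

lemma w_sub (w : InfinitePlace K) (x y : K) : w (x - y) ≤ w x + w y := by
  rw [sub_eq_add_neg, ← w_neg w y]
  exact w_add w x (-y)

lemma nm_le {x : K} {B : ℝ} (hB : ∀ w : InfinitePlace K, w x ≤ B) : nm x ≤ B ^ DK K := by
  rw [nm_eq_prod, ← sum_mult K, ← Finset.prod_pow_eq_pow_sum]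
  exact Finset.prod_le_prod (fun w _ => pow_nonneg (apply_nonneg w x) _)
    fun w _ => pow_le_pow_left₀ (apply_nonneg w x) (hB w) _

lemma nm_nonneg (x : K) : 0 ≤ nm x := abs_nonneg _

lemma e_sum {ι : Type} (s : Finset ι) (f : ι → ℝ) : e (∑ i ∈ s, f i) = ∏ i ∈ s, e (f i) := by
  classical
  induction s using Finset.induction_on with
  | empty => simp [e_zero]
  | insert i s hi ih => rw [Finset.sum_insert hi, Finset.prod_insert hi, e_add, ih]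

lemma psi_fr (T : ℕ) (a : JJ K → Fin T) (x : 𝓞 K) :
    psi (fr T a * (x : K)) =
      ∏ j, e (((a j : ℕ) : ℝ) * (((om K).repr x j : ℤ) : ℝ) / (T : ℝ)) := by
  have h := tr_mul_el (fr T a) (fun j => (om K).repr x j)
  rw [el_repr] at h
  unfold psi
  rw [h, e_sum]
  refine Finset.prod_congr rfl fun j _ => ?_
  rw [tr_fr]
  congr 1
  ring

lemma prod_range_sum {T : ℕ} (f : JJ K → ℕ → ℂ) :
    ∏ j, ∑ a ∈ Finset.range T, f j a = ∑ a : JJ K → Fin T, ∏ j, f j (a j) := by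
  have h : ∀ j, ∑ a ∈ Finset.range T, f j a = ∑ a : Fin T, f j a := fun j => Finset.sum_range _
  simp only [h]
  rw [Finset.prod_univ_sum, Fintype.piFinset_univ]

lemma repr_natMul (q : ℕ) (x : 𝓞 K) (j : JJ K) :
    (om K).repr ((q : 𝓞 K) * x) j = (q : ℤ) * (om K).repr x j := by
  have h : (q : 𝓞 K) * x = (q : ℤ) • x := by
    rw [zsmul_eq_mul]; push_cast; rfl
  rw [h, map_smul, Finsupp.smul_apply, smul_eq_mul]

lemma TL_pos (c s μ e₀ d : ℕ) : 0 < TL c s μ e₀ d := Nat.two_pow_pos _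

lemma KS_mul {c s μ e₀ d : ℕ} (hs : 1 ≤ s) :
    KS c s μ e₀ d * 2 ^ (d / 4) = TL c s μ e₀ d := by
  unfold KS TL
  rw [← pow_add]
  congr 1
  have h1 : d + e₀ ≤ s * (d + e₀) := Nat.le_mul_of_pos_left _ hs
  unfold TE
  omega

/-- sizes of the terms -/
lemma side_le {c : ℕ} (hc : Cst K c) {κ Λ μ q e₀ γ : ℕ} {M : Fin 3 → 𝓞 K}
    (hC : Ctx κ Λ μ q e₀ γ M) {s d : ℕ} {v g : Fin 3 → Fin s → 𝓞 K}
    (hv : ∀ X i, SlotOK c q γ (v X i) (g X i)) (z : Fin 3 → Fin s → JJ K → Fin (2 ^ d))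
    (X : Fin 3) (w : InfinitePlace K) :
    w ((M X * ∏ i, zz q d (v X i) (g X i) (z X i) : 𝓞 K) : K) ≤ 2 ^ (μ + s * (d + e₀)) := by
  have h2 := prod_zz_le hc hC.toQOK (hv X) (z X) Finset.univ w
  rw [Finset.card_univ, Fintype.card_fin] at h2
  have e1 : ((M X * ∏ i, zz q d (v X i) (g X i) (z X i) : 𝓞 K) : K) =
      (M X : K) * ((∏ i, zz q d (v X i) (g X i) (z X i) : 𝓞 K) : K) := co_mul _ _
  rw [e1, map_mul, pow_add]
  exact mul_le_mul (hC.Mle X w) h2 (apply_nonneg w _) (by positivity)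

/-- size of the difference -/
lemma coord_lt {c : ℕ} (hc : Cst K c) {κ Λ μ q e₀ γ : ℕ} {M : Fin 3 → 𝓞 K}
    (hC : Ctx κ Λ μ q e₀ γ M) {s d : ℕ} {v g : Fin 3 → Fin s → 𝓞 K}
    (hv : ∀ X i, SlotOK c q γ (v X i) (g X i)) (z : Fin 3 → Fin s → JJ K → Fin (2 ^ d))
    {G : 𝓞 K} (hG : M 0 * ∏ i, zz q d (v 0 i) (g 0 i) (z 0 i) -
      (M 1 * ∏ i, zz q d (v 1 i) (g 1 i) (z 1 i) + M 2 * ∏ i, zz q d (v 2 i) (g 2 i) (z 2 i)) =
      (q : 𝓞 K) * G) (j : JJ K) :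
    4 * |(om K).repr G j| < (TL c s μ e₀ d : ℤ) := by
  have hw : ∀ w : InfinitePlace K, w (G : K) ≤ 3 * 2 ^ (μ + s * (d + e₀)) := by
    intro w
    have h0 := side_le hc hC hv z 0 w
    have h1 := side_le hc hC hv z 1 w
    have h2 := side_le hc hC hv z 2 w
    have h3 : w (((q : 𝓞 K) * G : 𝓞 K) : K) ≤ 3 * 2 ^ (μ + s * (d + e₀)) := by
      rw [← hG]
      have e1 : ((M 0 * ∏ i, zz q d (v 0 i) (g 0 i) (z 0 i) -
          (M 1 * ∏ i, zz q d (v 1 i) (g 1 i) (z 1 i) +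
            M 2 * ∏ i, zz q d (v 2 i) (g 2 i) (z 2 i)) : 𝓞 K) : K) =
          ((M 0 * ∏ i, zz q d (v 0 i) (g 0 i) (z 0 i) : 𝓞 K) : K) -
          (((M 1 * ∏ i, zz q d (v 1 i) (g 1 i) (z 1 i) : 𝓞 K) : K) +
            ((M 2 * ∏ i, zz q d (v 2 i) (g 2 i) (z 2 i) : 𝓞 K) : K)) := by
        rw [co_sub, co_add]
      rw [e1]
      have h4 := w_sub w ((M 0 * ∏ i, zz q d (v 0 i) (g 0 i) (z 0 i) : 𝓞 K) : K)
        (((M 1 * ∏ i, zz q d (v 1 i) (g 1 i) (z 1 i) : 𝓞 K) : K) +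
            ((M 2 * ∏ i, zz q d (v 2 i) (g 2 i) (z 2 i) : 𝓞 K) : K))
      have h5 := w_add w ((M 1 * ∏ i, zz q d (v 1 i) (g 1 i) (z 1 i) : 𝓞 K) : K)
        ((M 2 * ∏ i, zz q d (v 2 i) (g 2 i) (z 2 i) : 𝓞 K) : K)
      linarith
    have e2 : (((q : 𝓞 K) * G : 𝓞 K) : K) = (q : K) * (G : K) := by
      rw [co_mul, co_nat]
    rw [e2, map_mul, InfinitePlace.map_natCast] at h3
    have h4 : (1 : ℝ) ≤ q := by exact_mod_cast hC.qpos
    have h5 : w (G : K) ≤ (q : ℝ) * w (G : K) := le_mul_of_one_le_left (apply_nonneg w _) h4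
    exact h5.trans h3
  have h1 := hc.coord_le G _ hw j
  have h2 : (4 : ℝ) * |(((om K).repr G j : ℤ) : ℝ)| < ((TL c s μ e₀ d : ℕ) : ℝ) := by
    have e3 : ((TL c s μ e₀ d : ℕ) : ℝ) = 2 ^ (c + 4) * (2 ^ c * 2 ^ (μ + s * (d + e₀))) := by
      unfold TL TE
      push_cast
      rw [← pow_add, ← pow_add]
      congr 1
      ring
    rw [e3]
    have hp : (0 : ℝ) < 2 ^ c * 2 ^ (μ + s * (d + e₀)) := by positivity
    have h3 : (2 : ℝ) ^ 4 ≤ 2 ^ (c + 4) := pow_le_pow_right₀ (by norm_num) (by omega)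
    have h4 : (2 : ℝ) ^ 4 * (2 ^ c * 2 ^ (μ + s * (d + e₀))) ≤
        2 ^ (c + 4) * (2 ^ c * 2 ^ (μ + s * (d + e₀))) := mul_le_mul_of_nonneg_right h3 hp.le
    linarith
  exact_mod_cast h2

open Classical in
lemma Wt_eq {κ Λ μ q e₀ γ : ℕ} {M : Fin 3 → 𝓞 K}
    (hC : Ctx κ Λ μ q e₀ γ M) {s d : ℕ} {v g : Fin 3 → Fin s → 𝓞 K}
    (z : Fin 3 → Fin s → JJ K → Fin (2 ^ d))
    {G : 𝓞 K} (hG : M 0 * ∏ i, zz q d (v 0 i) (g 0 i) (z 0 i) -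
      (M 1 * ∏ i, zz q d (v 1 i) (g 1 i) (z 1 i) + M 2 * ∏ i, zz q d (v 2 i) (g 2 i) (z 2 i)) =
      (q : 𝓞 K) * G) :
    Wt s q d M v g z =
      NN s q d (M 0) (g 0) * ∏ j, (if (om K).repr G j = 0 then (1 : ℝ) else 0) := by
  have hq : (q : 𝓞 K) ≠ 0 := by exact_mod_cast hC.qpos.ne'
  have hiff : (M 0 * ∏ i, zz q d (v 0 i) (g 0 i) (z 0 i) =
      M 1 * ∏ i, zz q d (v 1 i) (g 1 i) (z 1 i) + M 2 * ∏ i, zz q d (v 2 i) (g 2 i) (z 2 i)) ↔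
      ∀ j, (om K).repr G j = 0 := by
    rw [← sub_eq_zero, hG, mul_eq_zero, or_iff_right hq]
    constructor
    · rintro rfl j
      simp
    · intro h
      have h1 : (om K).repr G = 0 := by
        ext j
        rw [h j]
        rfl
      exact (LinearEquiv.map_eq_zero_iff _).1 h1
  unfold Wt
  by_cases h0 : ∀ j, (om K).repr G j = 0
  · rw [if_pos (hiff.2 h0), Finset.prod_congr rfl (fun j _ => if_pos (h0 j)), Finset.prod_const_one,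
      mul_one]
  · rw [if_neg (fun h => h0 (hiff.1 h))]
    push Not at h0
    obtain ⟨j, hj⟩ := h0
    rw [Finset.prod_eq_zero (Finset.mem_univ j) (if_neg hj), mul_zero]

open Classical in
lemma Ws_eq {κ Λ μ q e₀ γ : ℕ} {M : Fin 3 → 𝓞 K}
    (hC : Ctx κ Λ μ q e₀ γ M) {s d K' : ℕ} {v g : Fin 3 → Fin s → 𝓞 K}
    (z : Fin 3 → Fin s → JJ K → Fin (2 ^ d))
    {G : 𝓞 K} (hG : M 0 * ∏ i, zz q d (v 0 i) (g 0 i) (z 0 i) -
      (M 1 * ∏ i, zz q d (v 1 i) (g 1 i) (z 1 i) + M 2 * ∏ i, zz q d (v 2 i) (g 2 i) (z 2 i)) =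
      (q : 𝓞 K) * G) :
    Ws s q d K' M v g z =
      NN s q d (M 0) (g 0) *
        ∏ j, ((if |(om K).repr G j| ≤ (K' : ℤ) then (1 : ℝ) else 0) / (2 * K' + 1)) := by
  have hq' : (0 : ℤ) < q := by exact_mod_cast hC.qpos
  have hiff : (∀ j, |(om K).repr (M 0 * ∏ i, zz q d (v 0 i) (g 0 i) (z 0 i) -
      (M 1 * ∏ i, zz q d (v 1 i) (g 1 i) (z 1 i) +
        M 2 * ∏ i, zz q d (v 2 i) (g 2 i) (z 2 i))) j| ≤ ((q * K' : ℕ) : ℤ)) ↔
      ∀ j, |(om K).repr G j| ≤ (K' : ℤ) := by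
    rw [hG]
    refine forall_congr' fun j => ?_
    rw [repr_natMul, abs_mul, abs_of_pos hq', Nat.cast_mul]
    exact ⟨fun h => le_of_mul_le_mul_left h hq', fun h => mul_le_mul_of_nonneg_left h hq'.le⟩
  unfold Ws
  rw [Finset.prod_div_distrib, Finset.prod_const, Finset.card_univ]
  by_cases h0 : ∀ j, |(om K).repr G j| ≤ (K' : ℤ)
  · rw [if_pos (hiff.2 h0), Finset.prod_congr rfl (fun j _ => if_pos (h0 j)), Finset.prod_const_one,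
      mul_one_div]
  · rw [if_neg (fun h => h0 (hiff.1 h))]
    push Not at h0
    obtain ⟨j, hj⟩ := h0
    rw [Finset.prod_eq_zero (Finset.mem_univ j) (if_neg (not_le.2 hj)), zero_div, mul_zero]

/-- the coefficients -/
noncomputable def cf (T K' : ℕ) (ρ : 𝓞 K) (a : JJ K → Fin T) : ℂ :=
  (1 - ∏ j, Kh K' T (a j)) * psi (fr T a * (ρ : K))

lemma norm_prod_Kh {T K' : ℕ} (a : JJ K → Fin T) (S : Finset (JJ K)) :
    ‖∏ j ∈ S, Kh K' T (a j)‖ ≤ 1 := by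
  rw [norm_prod]
  exact Finset.prod_le_one (fun _ _ => norm_nonneg _) fun _ _ => norm_Kh_le _ _ _

lemma norm_cf {T K' : ℕ} (ρ : 𝓞 K) (a : JJ K → Fin T) : ‖cf T K' ρ a‖ ≤ 2 := by
  unfold cf
  rw [norm_mul, norm_psi, mul_one]
  refine (norm_sub_le _ _).trans ?_
  rw [norm_one]
  have := norm_prod_Kh (K' := K') a Finset.univ
  linarith

lemma norm_one_sub_prod {T K' : ℕ} (a : JJ K → Fin T) (S : Finset (JJ K)) :
    ‖1 - ∏ j ∈ S, Kh K' T (a j)‖ ≤ ∑ j ∈ S, ‖1 - Kh K' T (a j)‖ := by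
  induction S using Finset.induction_on with
  | empty => simp
  | insert i S hi ih =>
    rw [Finset.prod_insert hi, Finset.sum_insert hi]
    have e1 : 1 - Kh K' T (a i) * ∏ j ∈ S, Kh K' T (a j) =
        (1 - Kh K' T (a i)) + Kh K' T (a i) * (1 - ∏ j ∈ S, Kh K' T (a j)) := by ring
    rw [e1]
    refine (norm_add_le _ _).trans (add_le_add le_rfl ?_)
    rw [norm_mul]
    refine le_trans (mul_le_of_le_one_left (norm_nonneg _) (norm_Kh_le _ _ _)) ih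

lemma norm_cf_zero {c s μ e₀ d : ℕ} (hs : 1 ≤ s) (ρ : 𝓞 K) (w₀ : ℕ)
    (a : JJ K → Fin (TL c s μ e₀ d)) (h : Zero (TL c s μ e₀ d) w₀ a) :
    ‖cf (TL c s μ e₀ d) (KS c s μ e₀ d) ρ a‖ ≤ 8 * DK K * w₀ / 2 ^ (d / 4) := by
  unfold cf
  rw [norm_mul, norm_psi, mul_one]
  refine (norm_one_sub_prod a _).trans ?_
  have hT := TL_pos c s μ e₀ d
  have hT' : (0 : ℝ) < (TL c s μ e₀ d : ℕ) := by exact_mod_cast hT
  have h1 : ∀ j ∈ (Finset.univ : Finset (JJ K)),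
      ‖1 - Kh (KS c s μ e₀ d) (TL c s μ e₀ d) (a j)‖ ≤ 8 * w₀ / 2 ^ (d / 4) := by
    intro j _
    have h2 := one_sub_Kh_le (K := KS c s μ e₀ d) (a := (a j : ℕ)) hT (w₀ : ℝ) (Nat.cast_nonneg _) (by
      rcases h j with h | h
      · left; exact_mod_cast h
      · right
        refine ⟨?_, (a j).2.le⟩
        have : ((TL c s μ e₀ d : ℕ) : ℝ) ≤ ((a j : ℕ) : ℝ) + w₀ := by exact_mod_cast h
        linarith)
    refine h2.trans ?_
    have e1 : (w₀ : ℝ) * (KS c s μ e₀ d : ℕ) / (TL c s μ e₀ d : ℕ) = w₀ / 2 ^ (d / 4) := by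
      have e2 : ((TL c s μ e₀ d : ℕ) : ℝ) = (KS c s μ e₀ d : ℕ) * 2 ^ (d / 4) := by
        rw [← KS_mul hs]; push_cast; rfl
      have hK : (0 : ℝ) < (KS c s μ e₀ d : ℕ) := by
        have : 0 < KS c s μ e₀ d := Nat.two_pow_pos _
        exact_mod_cast this
      rw [e2]
      field_simp
    rw [e1]
    have h3 : 2 * Real.pi ≤ 8 := by linarith [Real.pi_lt_four]
    have h4 : (0 : ℝ) ≤ w₀ / 2 ^ (d / 4) := by positivity
    calc 2 * Real.pi * (w₀ / 2 ^ (d / 4)) ≤ 8 * (w₀ / 2 ^ (d / 4)) :=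
          mul_le_mul_of_nonneg_right h3 h4
      _ = 8 * w₀ / 2 ^ (d / 4) := by ring
  refine (Finset.sum_le_sum h1).trans ?_
  rw [Finset.sum_const, Finset.card_univ, nsmul_eq_mul]
  apply le_of_eq
  ring

/-- the identity for one point -/
lemma point {c : ℕ} (hc : Cst K c) {κ Λ μ q e₀ γ : ℕ} {M : Fin 3 → 𝓞 K}
    (hC : Ctx κ Λ μ q e₀ γ M) {s d : ℕ} (hs : 1 ≤ s) (hd : 12 ≤ d) {v g : Fin 3 → Fin s → 𝓞 K}
    (hv : ∀ X i, SlotOK c q γ (v X i) (g X i)) {ρ : 𝓞 K}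
    (hρ : M 0 * ∏ i, v 0 i - (M 1 * ∏ i, v 1 i + M 2 * ∏ i, v 2 i) = (q : 𝓞 K) * ρ)
    (z : Fin 3 → Fin s → JJ K → Fin (2 ^ d)) :
    ((Wt s q d M v g z - Ws s q d (KS c s μ e₀ d) M v g z : ℝ) : ℂ) =
      ∑ a : JJ K → Fin (TL c s μ e₀ d),
        ((NN s q d (M 0) (g 0) / (TL c s μ e₀ d : ℝ) ^ DK K : ℝ) : ℂ) *
        cf (TL c s μ e₀ d) (KS c s μ e₀ d) ρ a *
        (psi (fr (TL c s μ e₀ d) a * ff q d (M 0) (v 0) (g 0) (z 0)) *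
        (starRingEnd ℂ) (psi (fr (TL c s μ e₀ d) a * ff q d (M 1) (v 1) (g 1) (z 1))) *
        (starRingEnd ℂ) (psi (fr (TL c s μ e₀ d) a * ff q d (M 2) (v 2) (g 2) (z 2)))) := by
  set T := TL c s μ e₀ d with hT
  set K' := KS c s μ e₀ d with hK
  have hT0 : 0 < T := TL_pos _ _ _ _ _
  obtain ⟨x0, e0, h0⟩ := ff_int hC.qpos (M 0) (v 0) (g 0) (z 0)
  obtain ⟨x1, e1, h1⟩ := ff_int hC.qpos (M 1) (v 1) (g 1) (z 1)
  obtain ⟨x2, e2, h2⟩ := ff_int hC.qpos (M 2) (v 2) (g 2) (z 2)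
  obtain ⟨G, hGd⟩ : ∃ G : 𝓞 K, G = ρ + x0 - x1 - x2 := ⟨_, rfl⟩
  have hG : M 0 * ∏ i, zz q d (v 0 i) (g 0 i) (z 0 i) -
      (M 1 * ∏ i, zz q d (v 1 i) (g 1 i) (z 1 i) + M 2 * ∏ i, zz q d (v 2 i) (g 2 i) (z 2 i)) =
      (q : 𝓞 K) * G := by
    rw [h0, h1, h2, hGd]
    linear_combination hρ
  have hlt := coord_lt hc hC hv z hG
  have hK8 : 8 * K' ≤ T := by
    have h3 : K' * 2 ^ (d / 4) = T := KS_mul hs
    have h4 : 2 ^ 3 ≤ 2 ^ (d / 4) := Nat.pow_le_pow_right (by norm_num) (by omega)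
    rw [← h3]
    nlinarith [Nat.zero_le K']
  have hG1 : ∀ j, |(om K).repr G j| < (T : ℤ) := fun j => by
    have := hlt j
    have h5 := abs_nonneg ((om K).repr G j)
    omega
  have hG2 : ∀ j, |(om K).repr G j| + K' < (T : ℤ) := fun j => by
    have := hlt j
    have h6 : (8 : ℤ) * K' ≤ T := by exact_mod_cast hK8
    omega
  rw [Wt_eq hC z hG, Ws_eq hC z hG, ← mul_sub]
  have s1 : ((∏ j, (if (om K).repr G j = 0 then (1 : ℝ) else 0) : ℝ) : ℂ) =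
      (∑ a : JJ K → Fin T, psi (fr T a * (G : K))) / (T : ℂ) ^ DK K := by
    rw [Complex.ofReal_prod, Finset.prod_congr rfl (fun j _ => ind_zero hT0 (hG1 j)),
      Finset.prod_div_distrib, Finset.prod_const, Finset.card_univ, prod_range_sum]
    congr 1
    exact Finset.sum_congr rfl fun a _ => (psi_fr T a G).symm
  have s2 : ((∏ j, ((if |(om K).repr G j| ≤ (K' : ℤ) then (1 : ℝ) else 0) / (2 * K' + 1)) : ℝ) : ℂ)
      = (∑ a : JJ K → Fin T, (∏ j, Kh K' T (a j)) * psi (fr T a * (G : K))) /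
        (T : ℂ) ^ DK K := by
    rw [Complex.ofReal_prod, Finset.prod_congr rfl (fun j _ => ind_K hT0 (hG2 j)),
      Finset.prod_div_distrib, Finset.prod_const, Finset.card_univ, prod_range_sum]
    congr 1
    refine Finset.sum_congr rfl fun a _ => ?_
    rw [psi_fr, Finset.prod_mul_distrib]
  rw [Complex.ofReal_mul, Complex.ofReal_sub, s1, s2, ← sub_div, ← Finset.sum_sub_distrib,
    mul_div_assoc', Finset.mul_sum, Finset.sum_div]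
  refine Finset.sum_congr rfl fun a _ => ?_
  have e3 : fr T a * (G : K) = fr T a * (ρ : K) + fr T a * ff q d (M 0) (v 0) (g 0) (z 0) -
      fr T a * ff q d (M 1) (v 1) (g 1) (z 1) - fr T a * ff q d (M 2) (v 2) (g 2) (z 2) := by
    rw [← e0, ← e1, ← e2, hGd, co_sub, co_sub, co_add]
    ring
  rw [e3, psi_sub, psi_sub, psi_add]
  unfold cf
  push_cast
  ring

end AIaN

open AIaN

/-- `NN / T^D ≤ 1` -/
theorem NN_le {c : ℕ} (hc : Cst K c) {κ Λ μ q e₀ γ : ℕ} {M : Fin 3 → 𝓞 K}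
    (hC : Ctx κ Λ μ q e₀ γ M) {s d : ℕ} (hs : 1 ≤ s) {v g : Fin 3 → Fin s → 𝓞 K}
    (hv : ∀ X i, SlotOK c q γ (v X i) (g X i)) :
    NN s q d (M 0) (g 0) / (TL c s μ e₀ d : ℝ) ^ DK K ≤ 1 := by
  have hT' : (0 : ℝ) < (TL c s μ e₀ d : ℝ) := by exact_mod_cast TL_pos c s μ e₀ d
  rw [div_le_one (by positivity)]
  have h1 : nm (M 0 : K) ≤ (2 ^ μ) ^ DK K := nm_le fun w => hC.Mle 0 w
  have h2 : ∏ i, nm (g 0 i : K) ≤ ((2 ^ γ) ^ s) ^ DK K := by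
    have h3 : ∀ i ∈ (Finset.univ : Finset (Fin s)), nm (g 0 i : K) ≤ (2 ^ γ) ^ DK K :=
      fun i _ => nm_le fun w => (hv 0 i).gle w
    refine (Finset.prod_le_prod (fun i _ => nm_nonneg _) h3).trans (le_of_eq ?_)
    rw [Finset.prod_const, Finset.card_univ, Fintype.card_fin, ← pow_mul, ← pow_mul, ← pow_mul,
      ← pow_mul]
    congr 1
    ring
  have hq1 : (1 : ℝ) ≤ q := by exact_mod_cast hC.qpos
  have h3 : ((q : ℝ) ^ (s - 1)) ^ DK K ≤ ((q : ℝ) ^ s) ^ DK K :=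
    pow_le_pow_left₀ (by positivity) (pow_le_pow_right₀ hq1 (by omega)) _
  have h4 : (q : ℝ) * 2 ^ γ ≤ 2 ^ e₀ := by
    have h5 : (q : ℝ) * 2 ^ (γ + 1) ≤ 2 ^ e₀ := by exact_mod_cast hC.qe
    refine le_trans ?_ h5
    rw [pow_succ]
    nlinarith [pow_pos (show (0 : ℝ) < 2 by norm_num) γ]
  unfold NN
  have h6 : nm (M 0 : K) * ((q : ℝ) ^ (s - 1)) ^ DK K * (∏ i, nm (g 0 i : K)) *
      ((2 : ℝ) ^ d) ^ (s * DK K) ≤ (2 ^ μ) ^ DK K * ((q : ℝ) ^ s) ^ DK K *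
        (((2 ^ γ) ^ s) ^ DK K) * ((2 : ℝ) ^ d) ^ (s * DK K) := by
    have := nm_nonneg (M 0 : K)
    have h7 : 0 ≤ ∏ i, nm (g 0 i : K) := Finset.prod_nonneg fun i _ => nm_nonneg _
    gcongr
  refine h6.trans ?_
  have e1 : (2 ^ μ) ^ DK K * ((q : ℝ) ^ s) ^ DK K * (((2 ^ γ) ^ s) ^ DK K) *
      ((2 : ℝ) ^ d) ^ (s * DK K) = (2 ^ μ * ((q : ℝ) * 2 ^ γ) ^ s * (2 ^ d) ^ s) ^ DK K := by
    rw [mul_pow, mul_pow, mul_pow, mul_pow, ← pow_mul (2 ^ d : ℝ) s]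
    ring
  rw [e1]
  refine pow_le_pow_left₀ (by positivity) ?_ _
  calc (2 : ℝ) ^ μ * ((q : ℝ) * 2 ^ γ) ^ s * (2 ^ d) ^ s ≤ 2 ^ μ * (2 ^ e₀) ^ s * (2 ^ d) ^ s := by
        gcongr
    _ = 2 ^ (μ + s * (d + e₀)) := by
        rw [← pow_mul, ← pow_mul, ← pow_add, ← pow_add]
        congr 1
        ring
    _ ≤ 2 ^ (TE c s μ e₀ d) := pow_le_pow_right₀ (by norm_num) (by unfold TE; omega)
    _ = (TL c s μ e₀ d : ℝ) := by unfold TL; push_cast; rfl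

/-- [AIA] -/
theorem circle {c : ℕ} (hc : Cst K c) {κ Λ μ q e₀ γ : ℕ} {M : Fin 3 → 𝓞 K}
    (hC : Ctx κ Λ μ q e₀ γ M) {s d : ℕ} (hs : 1 ≤ s) (hd : 12 ≤ d) {v g : Fin 3 → Fin s → 𝓞 K}
    (hv : ∀ X i, SlotOK c q γ (v X i) (g X i)) (hrel : Rel s q M v) :
    ∃ cf : (JJ K → Fin (TL c s μ e₀ d)) → ℂ, (∀ a, ‖cf a‖ ≤ 2) ∧
      (∀ (w₀ : ℕ) (a : JJ K → Fin (TL c s μ e₀ d)), Zero (TL c s μ e₀ d) w₀ a →
        ‖cf a‖ ≤ 8 * DK K * w₀ / 2 ^ (d / 4)) ∧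
      ∀ (V : Fin 3 → Finset (Fin s)) (z : Fin 3 → Fin s → JJ K → Fin (2 ^ d)),
      ((Ex (fun z' : Fin 3 → Fin s → JJ K → Fin (2 ^ d) =>
          Wt s q d M v g (fun X => (V X).piecewise (z X) (z' X))) -
        Ex (fun z' : Fin 3 → Fin s → JJ K → Fin (2 ^ d) =>
          Ws s q d (KS c s μ e₀ d) M v g (fun X => (V X).piecewise (z X) (z' X))) : ℝ) : ℂ) =
      ∑ a, ((NN s q d (M 0) (g 0) / (TL c s μ e₀ d : ℝ) ^ DK K : ℝ) : ℂ) * cf a *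
        (TT q d (M 0) (v 0) (g 0) (fr (TL c s μ e₀ d) a) (V 0) (z 0) *
        (starRingEnd ℂ) (TT q d (M 1) (v 1) (g 1) (fr (TL c s μ e₀ d) a) (V 1) (z 1)) *
        (starRingEnd ℂ) (TT q d (M 2) (v 2) (g 2) (fr (TL c s μ e₀ d) a) (V 2) (z 2))) := by
  obtain ⟨ρ, hρ⟩ := hrel
  refine ⟨AIaN.cf (TL c s μ e₀ d) (KS c s μ e₀ d) ρ, norm_cf ρ, norm_cf_zero hs ρ, ?_⟩
  intro V z
  rw [← GF.Ex_sub, GF.Ex_ofReal]
  simp only [point hc hC hs hd hv hρ]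
  rw [GF.ExC_sum]
  refine Finset.sum_congr rfl fun a _ => ?_
  rw [GF.ExC_mul_left]
  congr 1
  unfold TT
  rw [ZC.AIN.conj_ExC, ZC.AIN.conj_ExC]
  exact GF.ExC_mul3
    (fun z' : Fin s → JJ K → Fin (2 ^ d) => psi (fr (TL c s μ e₀ d) a *
      ff q d (M 0) (v 0) (g 0) ((V 0).piecewise (z 0) z')))
    (fun z' : Fin s → JJ K → Fin (2 ^ d) => (starRingEnd ℂ) (psi (fr (TL c s μ e₀ d) a *
      ff q d (M 1) (v 1) (g 1) ((V 1).piecewise (z 1) z'))))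
    (fun z' : Fin s → JJ K → Fin (2 ^ d) => (starRingEnd ℂ) (psi (fr (TL c s μ e₀ d) a *
      ff q d (M 2) (v 2) (g 2) ((V 2).piecewise (z 2) z'))))

end Pool.Agent.H366.NK
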