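import Pool.Agent.H366.NK.Base2
import Pool.Graph.R_seed8.H39R2.Gon.B2

/-! # [ADM] admissible families of multipliers -/

set_option autoImplicit false

namespace Pool.Agent.H366.NK

open NumberField
open H39Gon (UV cl)

variable {K : Type} [Field K] [NumberField K]

/-- three families of integers, relatively prime to each other, with conditions on the
logarithms of the absolute values -/
structure Adm {ι : Fin 3 → Type} [∀ X, Fintype (ι X)] (F : (X : Fin 3) → ι X → 𝓞 K) : Prop where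
  one_lt : ∀ X i (w : InfinitePlace K), 1 < w (F X i : K)
  cop : ∀ X Y, X ≠ Y → ∀ i j, IsCoprime (F X i) (F Y j)
  two : ∀ P : Ideal (𝓞 K), P.IsPrime → P.absNorm = 2 → ∃ X i, F X i ∈ P
  cone : ∀ X, ∃ a : ι X → ℝ, (∀ i, 0 < a i) ∧
    ∀ w : InfinitePlace K, ∑ i, a i * Real.log (w (F X i : K)) = 1
  span : ∀ X, Submodule.span ℝ (Set.range fun i : ι X =>
    (fun w : InfinitePlace K => Real.log (w (F X i : K)))) = ⊤

namespace AdmN

/-- the vector of the logarithms of the absolute values -/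
noncomputable def lv (x : 𝓞 K) : InfinitePlace K → ℝ := fun w => Real.log (w (x : K))

theorem lv_sum_unit (u : (𝓞 K)ˣ) :
    ∑ w : InfinitePlace K, (w.mult : ℝ) * lv (u : 𝓞 K) w = 0 := by
  have h := NumberField.Units.sum_mult_mul_log u
  simpa [lv] using h

/-- the sum-zero hyperplane is in the span of the log vectors of units -/
theorem mem_span_units (h : InfinitePlace K → ℝ)
    (hh : ∑ w : InfinitePlace K, (w.mult : ℝ) * h w = 0) :
    h ∈ Submodule.span ℝ (Set.range fun u : (𝓞 K)ˣ => lv (u : 𝓞 K)) := by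
  classical
  set S := Submodule.span ℝ (Set.range fun u : (𝓞 K)ˣ => lv (u : 𝓞 K)) with hS
  let p : (InfinitePlace K → ℝ) →ₗ[ℝ] (NumberField.Units.dirichletUnitTheorem.logSpace K) :=
    { toFun := fun x w => (w.val.mult : ℝ) * x w.val
      map_add' := by
        intro x y
        funext w
        simp [mul_add]
      map_smul' := by
        intro c x
        funext w
        simp only [Pi.smul_apply, smul_eq_mul, RingHom.id_apply]
        ring }
  have hp : ∀ x w, p x w = (w.val.mult : ℝ) * x w.val := fun x w => rfl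
  have hzero : ∀ x ∈ S, ∑ w : InfinitePlace K, (w.mult : ℝ) * x w = 0 := by
    intro x hx
    induction hx using Submodule.span_induction with
    | mem x hx =>
      obtain ⟨u, rfl⟩ := hx
      exact lv_sum_unit u
    | zero => simp
    | add x y _ _ hx hy =>
      have : ∑ w : InfinitePlace K, (w.mult : ℝ) * (x + y) w =
          ∑ w : InfinitePlace K, (w.mult : ℝ) * x w + ∑ w : InfinitePlace K, (w.mult : ℝ) * y w := by
        rw [← Finset.sum_add_distrib]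
        refine Finset.sum_congr rfl fun w _ => ?_
        simp [mul_add]
      rw [this, hx, hy, add_zero]
    | smul c x _ hx =>
      have : ∑ w : InfinitePlace K, (w.mult : ℝ) * (c • x) w =
          c * ∑ w : InfinitePlace K, (w.mult : ℝ) * x w := by
        rw [Finset.mul_sum]
        refine Finset.sum_congr rfl fun w _ => ?_
        simp only [Pi.smul_apply, smul_eq_mul]
        ring
      rw [this, hx, mul_zero]
  have hmap : Submodule.map p S = ⊤ := by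
    rw [eq_top_iff, ← NumberField.Units.dirichletUnitTheorem.unitLattice_span_eq_top K,
      Submodule.span_le]
    rintro _ ⟨u, -, rfl⟩
    refine ⟨lv ((Additive.toMul u : (𝓞 K)ˣ) : 𝓞 K), Submodule.subset_span ⟨Additive.toMul u, rfl⟩, ?_⟩
    funext w
    rfl
  have hph : p h ∈ Submodule.map p S := by
    rw [hmap]
    exact Submodule.mem_top
  obtain ⟨s, hs, hps⟩ := hph
  have hs0 := hzero s hs
  have hoff : ∀ w : InfinitePlace K,
      w ≠ NumberField.Units.dirichletUnitTheorem.w₀ → s w = h w := by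
    intro w hw
    have h1 := congrFun hps ⟨w, hw⟩
    rw [hp, hp] at h1
    exact mul_left_cancel₀ (NumberField.InfinitePlace.mult_coe_ne_zero) h1
  have hs_eq : s = h := by
    funext w
    by_cases hw : w = NumberField.Units.dirichletUnitTheorem.w₀
    · rw [Fintype.sum_eq_add_sum_subtype_ne _
        (NumberField.Units.dirichletUnitTheorem.w₀ : InfinitePlace K)] at hs0 hh
      have h2 : ∑ w : {w : InfinitePlace K // w ≠ NumberField.Units.dirichletUnitTheorem.w₀},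
          (w.val.mult : ℝ) * s w.val =
          ∑ w : {w : InfinitePlace K // w ≠ NumberField.Units.dirichletUnitTheorem.w₀},
          (w.val.mult : ℝ) * h w.val :=
        Finset.sum_congr rfl fun w _ => by rw [hoff w.1 w.2]
      rw [h2] at hs0
      have h3 := hs0.trans hh.symm
      have h4 := add_right_cancel h3
      rw [hw]
      exact mul_left_cancel₀ (NumberField.InfinitePlace.mult_coe_ne_zero) h4
    · exact hoff w hw
  rw [← hs_eq]
  exact hs

/-- finitely many units whose log vectors generate the hyperplane as a cone -/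
theorem exists_units (K : Type) [Field K] [NumberField K] :
    ∃ (τ : Type) (_ : Fintype τ) (u : τ → (𝓞 K)ˣ) (t0 : τ), u t0 = 1 ∧
      ∀ h : InfinitePlace K → ℝ, ∑ w : InfinitePlace K, (w.mult : ℝ) * h w = 0 →
        ∃ α : τ → ℝ, (∀ t, 0 < α t) ∧ ∀ w, ∑ t, α t * lv (u t : 𝓞 K) w = h w := by
  classical
  have hfg : (Submodule.span ℝ (Set.range fun u : (𝓞 K)ˣ => lv (u : 𝓞 K))).FG :=
    IsNoetherian.noetherian _
  obtain ⟨s', hs', hs'2⟩ := Submodule.fg_span_iff_fg_span_finset_subset _ |>.mp hfg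
  have hch : ∀ v : s', ∃ u : (𝓞 K)ˣ, lv (u : 𝓞 K) = v.1 := by
    intro v
    obtain ⟨u, hu⟩ := hs' v.2
    exact ⟨u, hu⟩
  choose U hU using hch
  have hinv : ∀ (u : (𝓞 K)ˣ) (w : InfinitePlace K),
      lv ((u⁻¹ : (𝓞 K)ˣ) : 𝓞 K) w = - lv (u : 𝓞 K) w := by
    intro u w
    have h1 : w ((u : 𝓞 K) : K) * w (((u⁻¹ : (𝓞 K)ˣ) : 𝓞 K) : K) = 1 := by
      rw [← map_mul]
      have : ((u : 𝓞 K) : K) * (((u⁻¹ : (𝓞 K)ˣ) : 𝓞 K) : K) = 1 := by
        rw [← map_mul (algebraMap (𝓞 K) K), Units.mul_inv, map_one]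
      rw [this, map_one]
    have h2 : w (((u⁻¹ : (𝓞 K)ˣ) : 𝓞 K) : K) = (w ((u : 𝓞 K) : K))⁻¹ :=
      eq_inv_of_mul_eq_one_right h1
    simp only [lv]
    rw [h2, Real.log_inv]
  refine ⟨Option (s' × Bool), inferInstance,
    fun t => match t with
      | none => 1
      | some (v, true) => U v
      | some (v, false) => (U v)⁻¹, none, rfl, ?_⟩
  intro h hh
  have hmem := mem_span_units h hh
  rw [hs'2, Submodule.mem_span_finset] at hmem
  obtain ⟨f, -, hf⟩ := hmem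
  refine ⟨fun t => match t with
      | none => 1
      | some (v, true) => |f v.1| + 1 + f v.1 / 2
      | some (v, false) => |f v.1| + 1 - f v.1 / 2, ?_, ?_⟩
  · intro t
    rcases t with _ | ⟨v, b⟩
    · exact one_pos
    · cases b
      · show 0 < |f v.1| + 1 - f v.1 / 2
        have := le_abs_self (f v.1)
        have := abs_nonneg (f v.1)
        linarith
      · show 0 < |f v.1| + 1 + f v.1 / 2
        have := neg_abs_le (f v.1)
        have := abs_nonneg (f v.1)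
        linarith
  · intro w
    rw [Fintype.sum_option, Fintype.sum_prod_type]
    simp only [Fintype.sum_bool]
    have h1 : lv (((1 : (𝓞 K)ˣ)) : 𝓞 K) w = 0 := by
      simp [lv]
    rw [h1, mul_zero, zero_add, ← hf, Finset.sum_apply, ← Finset.sum_coe_sort s']
    refine Finset.sum_congr rfl fun v _ => ?_
    rw [hinv, hU v, Pi.smul_apply, smul_eq_mul]
    ring

theorem isCoprime_of_isUnit {s : 𝓞 K} (h : IsUnit s) (t : 𝓞 K) : IsCoprime s t := by
  obtain ⟨v, rfl⟩ := h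
  exact ⟨((v⁻¹ : (𝓞 K)ˣ) : 𝓞 K), 0, by simp⟩

theorem natCast_place (w : InfinitePlace K) (n : ℕ) : w ((n : 𝓞 K) : K) = n := by
  show w (algebraMap (𝓞 K) K (n : 𝓞 K)) = n
  rw [map_natCast (algebraMap (𝓞 K) K), ← NumberField.InfinitePlace.norm_embedding_eq,
    map_natCast]
  simp

theorem lv_mul {x y : 𝓞 K} (hx : x ≠ 0) (hy : y ≠ 0) (w : InfinitePlace K) :
    lv (x * y) w = lv x w + lv y w := by
  show Real.log (w (algebraMap (𝓞 K) K (x * y))) =
    Real.log (w (algebraMap (𝓞 K) K x)) + Real.log (w (algebraMap (𝓞 K) K y))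
  rw [map_mul, map_mul, Real.log_mul]
  · simpa using hx
  · simpa using hy

theorem lv_pow_mul (ℓ k : ℕ) (hℓ : 2 ≤ ℓ) {y : 𝓞 K} (hy : y ≠ 0) (w : InfinitePlace K) :
    lv ((ℓ : 𝓞 K) ^ k * y) w = k * Real.log ℓ + lv y w := by
  have hℓ0 : (ℓ : 𝓞 K) ≠ 0 := by
    have : (ℓ : ℕ) ≠ 0 := by omega
    exact_mod_cast this
  rw [lv_mul (pow_ne_zero _ hℓ0) hy]
  congr 1
  show Real.log (w (algebraMap (𝓞 K) K ((ℓ : 𝓞 K) ^ k))) = k * Real.log ℓ
  have h1 : w (algebraMap (𝓞 K) K (ℓ : 𝓞 K)) = ℓ := natCast_place w ℓ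
  rw [map_pow, map_pow, h1, Real.log_pow]

/-- [GROUP] -/
theorem group_lemma {τ : Type} [Fintype τ] (u : τ → (𝓞 K)ˣ) (t0 : τ) (ht0 : u t0 = 1)
    (hcone : ∀ h : InfinitePlace K → ℝ, ∑ w : InfinitePlace K, (w.mult : ℝ) * h w = 0 →
        ∃ α : τ → ℝ, (∀ t, 0 < α t) ∧ ∀ w, ∑ t, α t * lv (u t : 𝓞 K) w = h w)
    {κ : Type} [Fintype κ] (s : κ → 𝓞 K) (hs : ∀ i, s i ≠ 0) (ℓ : ℕ) (hℓ : 2 ≤ ℓ) :
    ∀ᶠ k : ℕ in Filter.atTop, ∀ F : κ ⊕ τ → 𝓞 K,
      F = Sum.elim (fun i => (ℓ : 𝓞 K) ^ k * s i) (fun t => (ℓ : 𝓞 K) ^ k * (u t : 𝓞 K)) →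
      (∀ i (w : InfinitePlace K), 1 < w (F i : K)) ∧
      (∃ a : κ ⊕ τ → ℝ, (∀ i, 0 < a i) ∧
        ∀ w : InfinitePlace K, ∑ i, a i * Real.log (w (F i : K)) = 1) ∧
      Submodule.span ℝ (Set.range fun i : κ ⊕ τ =>
        (fun w : InfinitePlace K => Real.log (w (F i : K)))) = ⊤ := by
  classical
  have hlog : 0 < Real.log ℓ := Real.log_pos (by exact_mod_cast (by omega : 1 < ℓ))
  have hD : (0 : ℝ) < ∑ w : InfinitePlace K, (w.mult : ℝ) := by
    refine Finset.sum_pos (fun w _ => ?_) Finset.univ_nonempty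
    exact_mod_cast NumberField.InfinitePlace.mult_pos
  have hdec : ∀ x : InfinitePlace K → ℝ, ∑ w : InfinitePlace K, (w.mult : ℝ) *
      ((∑ w' : InfinitePlace K, (w'.mult : ℝ) * x w') / (∑ w' : InfinitePlace K, (w'.mult : ℝ)) -
        x w) = 0 := by
    intro x
    simp only [mul_sub]
    rw [Finset.sum_sub_distrib, ← Finset.sum_mul, mul_div_cancel₀ _ hD.ne', sub_self]
  have hune : ∀ t, ((u t : 𝓞 K)) ≠ 0 := fun t => (u t).ne_zero
  obtain ⟨α, hα, hαs⟩ := hcone _ (hdec fun w => ∑ i, lv (s i) w)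
  set c0 := (∑ w' : InfinitePlace K, (w'.mult : ℝ) * ∑ i, lv (s i) w') /
    (∑ w' : InfinitePlace K, (w'.mult : ℝ)) with hc0
  have hsα : 0 < ∑ t, α t := Finset.sum_pos (fun t _ => hα t) ⟨t0, Finset.mem_univ _⟩
  have hT : ∀ c : ℝ, 0 < c → Filter.Tendsto (fun k : ℕ => (k : ℝ) * c) Filter.atTop
      Filter.atTop := fun c hc =>
    Filter.Tendsto.atTop_mul_const hc tendsto_natCast_atTop_atTop
  have e1 : ∀ᶠ k : ℕ in Filter.atTop, ∀ i : κ, ∀ w : InfinitePlace K,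
      - lv (s i) w < (k : ℝ) * Real.log ℓ := by
    rw [Filter.eventually_all]
    intro i
    rw [Filter.eventually_all]
    intro w
    exact (hT _ hlog).eventually_gt_atTop _
  have e2 : ∀ᶠ k : ℕ in Filter.atTop, ∀ i : τ, ∀ w : InfinitePlace K,
      - lv (u i : 𝓞 K) w < (k : ℝ) * Real.log ℓ := by
    rw [Filter.eventually_all]
    intro i
    rw [Filter.eventually_all]
    intro w
    exact (hT _ hlog).eventually_gt_atTop _
  have hC : 0 < Real.log ℓ * (Fintype.card κ + ∑ t, α t) :=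
    mul_pos hlog (by positivity)
  filter_upwards [e1, e2, (hT _ hC).eventually_gt_atTop (-c0), Filter.eventually_gt_atTop 0]
    with k h1 h2 h3 hk F hF
  have hFl : ∀ i w, Real.log (w ((F (Sum.inl i) : 𝓞 K) : K)) = k * Real.log ℓ + lv (s i) w := by
    intro i w
    rw [hF]
    exact lv_pow_mul ℓ k hℓ (hs i) w
  have hFr : ∀ t w, Real.log (w ((F (Sum.inr t) : 𝓞 K) : K)) =
      k * Real.log ℓ + lv (u t : 𝓞 K) w := by
    intro t w
    rw [hF]
    exact lv_pow_mul ℓ k hℓ (hune t) w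
  refine ⟨?_, ?_, ?_⟩
  · intro i w
    have hpos : 0 < Real.log (w ((F i : 𝓞 K) : K)) := by
      rcases i with i | t
      · rw [hFl]
        linarith [h1 i w]
      · rw [hFr]
        linarith [h2 t w]
    by_contra hcon
    push Not at hcon
    have := Real.log_nonpos (apply_nonneg w _) hcon
    linarith
  · set C : ℝ := (k : ℝ) * (Real.log ℓ * (Fintype.card κ + ∑ t, α t)) + c0 with hCdef
    have hCpos : 0 < C := by linarith
    refine ⟨Sum.elim (fun _ => 1 / C) (fun t => α t / C), ?_, ?_⟩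
    · rintro (i | t)
      · exact one_div_pos.mpr hCpos
      · exact div_pos (hα t) hCpos
    · intro w
      rw [Fintype.sum_sum_type]
      simp only [Sum.elim_inl, Sum.elim_inr]
      have g1 : ∑ i : κ, 1 / C * Real.log (w ((F (Sum.inl i) : 𝓞 K) : K)) =
          (1 / C) * (Fintype.card κ * (k * Real.log ℓ) + ∑ i, lv (s i) w) := by
        rw [← Finset.mul_sum]
        congr 1
        simp only [hFl, Finset.sum_add_distrib, Finset.sum_const, Finset.card_univ, nsmul_eq_mul]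
      have g2 : ∑ t : τ, α t / C * Real.log (w ((F (Sum.inr t) : 𝓞 K) : K)) =
          (1 / C) * ((∑ t, α t) * (k * Real.log ℓ) + (c0 - ∑ i, lv (s i) w)) := by
        rw [← hαs w, Finset.sum_mul, ← Finset.sum_add_distrib, Finset.mul_sum]
        refine Finset.sum_congr rfl fun t _ => ?_
        rw [hFr]
        ring
      rw [g1, g2]
      field_simp
      rw [hCdef]
      ring
  · rw [eq_top_iff]
    intro x _
    set S := Submodule.span ℝ (Set.range fun i : κ ⊕ τ =>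
        (fun w : InfinitePlace K => Real.log (w ((F i : 𝓞 K) : K)))) with hS
    have hkl : (0 : ℝ) < k * Real.log ℓ := mul_pos (by exact_mod_cast hk) hlog
    have hv : ∀ t, (fun w : InfinitePlace K => Real.log (w ((F (Sum.inr t) : 𝓞 K) : K))) ∈ S :=
      fun t => Submodule.subset_span ⟨Sum.inr t, rfl⟩
    have hone : (fun _ : InfinitePlace K => (1 : ℝ)) ∈ S := by
      have : (fun _ : InfinitePlace K => (1 : ℝ)) = (1 / (k * Real.log ℓ)) •
          (fun w : InfinitePlace K => Real.log (w ((F (Sum.inr t0) : 𝓞 K) : K))) := by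
        funext w
        rw [Pi.smul_apply, hFr, ht0, smul_eq_mul]
        have h10 : lv (((1 : (𝓞 K)ˣ)) : 𝓞 K) w = 0 := by simp [lv]
        rw [h10, add_zero, one_div, inv_mul_cancel₀ hkl.ne']
      rw [this]
      exact Submodule.smul_mem _ _ (hv t0)
    have hun : ∀ t, lv (u t : 𝓞 K) ∈ S := by
      intro t
      have : lv (u t : 𝓞 K) =
          (fun w : InfinitePlace K => Real.log (w ((F (Sum.inr t) : 𝓞 K) : K))) -
          (k * Real.log ℓ) • (fun _ : InfinitePlace K => (1 : ℝ)) := by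
        funext w
        simp only [Pi.sub_apply, Pi.smul_apply, smul_eq_mul, hFr]
        ring
      rw [this]
      exact Submodule.sub_mem _ (hv t) (Submodule.smul_mem _ _ hone)
    obtain ⟨β, -, hβ⟩ := hcone _ (hdec x)
    have hx : x = ((∑ w' : InfinitePlace K, (w'.mult : ℝ) * x w') /
        (∑ w' : InfinitePlace K, (w'.mult : ℝ))) • (fun _ : InfinitePlace K => (1 : ℝ)) -
        ∑ t, β t • lv (u t : 𝓞 K) := by
      funext w
      rw [Pi.sub_apply, Finset.sum_apply, Pi.smul_apply]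
      have : ∑ t, (β t • lv (u t : 𝓞 K)) w = ∑ t, β t * lv (u t : 𝓞 K) w := rfl
      rw [this, hβ w, smul_eq_mul, mul_one, sub_sub_cancel]
    rw [hx]
    exact Submodule.sub_mem _ (Submodule.smul_mem _ _ hone)
      (Submodule.sum_mem _ fun t _ => Submodule.smul_mem _ _ (hun t))

/-- [PRIME] -/
theorem prime_lemma (P : Ideal (𝓞 K)) (hP : P.IsPrime) (hP0 : P ≠ ⊥) :
    ∃ π : 𝓞 K, π ≠ 0 ∧ π ∈ P ∧ ∀ c, c ∉ P → IsCoprime π c := by
  classical
  have hcl : (ClassGroup.mk0 ⟨P, mem_nonZeroDivisors_of_ne_zero hP0⟩ : ClassGroup (𝓞 K)) ^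
      (Fintype.card (ClassGroup (𝓞 K))) = 1 := pow_card_eq_one
  set n := Fintype.card (ClassGroup (𝓞 K)) with hn
  have hn0 : n ≠ 0 := Fintype.card_ne_zero
  rw [← map_pow, ClassGroup.mk0_eq_one_iff] at hcl
  obtain ⟨π, hπ⟩ := hcl.principal
  have hπ' : P ^ n = Ideal.span {π} := hπ
  have hPn0 : P ^ n ≠ ⊥ := pow_ne_zero _ hP0
  have hπmem : π ∈ P ^ n := by
    rw [hπ']
    exact Ideal.mem_span_singleton_self π
  refine ⟨π, ?_, ?_, ?_⟩
  · rintro rfl
    apply hPn0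
    rw [hπ', Ideal.span_singleton_eq_bot]
  · exact Ideal.pow_le_self hn0 hπmem
  · intro c hc
    rw [← Ideal.isCoprime_span_singleton_iff, ← hπ']
    apply IsCoprime.pow_left
    have hmax : P.IsMaximal := hP.isMaximal hP0
    rw [Ideal.isCoprime_iff_sup_eq]
    exact hmax.out.2 _ (SetLike.lt_iff_le_and_exists.mpr
      ⟨le_sup_left, c, Ideal.mem_sup_right (Ideal.mem_span_singleton_self c), hc⟩)

end AdmN

open AdmN in
/-- [ADM] -/
theorem exists_adm (y y' x x' : 𝓞 K) (hy : y ≠ 0) (hy' : y' ≠ 0) (hx : x ≠ 0) (hx' : x' ≠ 0)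
    (hcop : IsCoprime (y * y') (x * x')) (X Y : Fin 3) (hXY : X ≠ Y) :
    ∃ (ι : Fin 3 → Type) (_ : ∀ X, Fintype (ι X)) (F : (X : Fin 3) → ι X → 𝓞 K), Adm F ∧
      (∃ i j : ι X, (F X i : K) / (F X j : K) = (y : K) / (y' : K)) ∧
      (∃ i j : ι Y, (F Y i : K) / (F Y j : K) = (x : K) / (x' : K)) := by
  classical
  obtain ⟨τ, _, u, t0, ht0, hcone⟩ := exists_units K
  -- the prime elements
  have hprime : ∀ P : Ideal (𝓞 K), ∃ π : 𝓞 K, P.IsPrime → P ≠ ⊥ →
      π ≠ 0 ∧ π ∈ P ∧ ∀ c, c ∉ P → IsCoprime π c := by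
    intro P
    by_cases h : P.IsPrime ∧ P ≠ ⊥
    · obtain ⟨π, h1, h2, h3⟩ := prime_lemma P h.1 h.2
      exact ⟨π, fun _ _ => ⟨h1, h2, h3⟩⟩
    · exact ⟨0, fun h1 h2 => absurd ⟨h1, h2⟩ h⟩
  choose π hπ using hprime
  have hfin : {P : Ideal (𝓞 K) | P.absNorm = 2}.Finite := Ideal.finite_setOfPred_absNorm_eq 2
  let Ps : Finset (Ideal (𝓞 K)) := hfin.toFinset.filter fun P => P.IsPrime ∧ x * x' ∉ P
  have hPs : ∀ P, P ∈ Ps ↔ P.absNorm = 2 ∧ P.IsPrime ∧ x * x' ∉ P := by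
    intro P
    simp only [Ps, Finset.mem_filter, Set.Finite.mem_toFinset]
    rfl
  have hbot : ∀ P : Ideal (𝓞 K), P.absNorm = 2 → P ≠ ⊥ := by
    rintro P hP rfl
    simp at hP
  -- the modulus
  set z : 𝓞 K := y * y' * (x * x') with hz
  have hz0 : z ≠ 0 := mul_ne_zero (mul_ne_zero hy hy') (mul_ne_zero hx hx')
  set m : ℕ := (Ideal.span {z} : Ideal (𝓞 K)).absNorm with hm
  have hm0 : m ≠ 0 := by
    rw [hm, Ne, Ideal.absNorm_eq_zero_iff, Ideal.span_singleton_eq_bot]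
    exact hz0
  have hzm : z ∣ (m : 𝓞 K) := Ideal.mem_span_singleton.mp (Ideal.absNorm_mem _)
  set b : ℕ := 2 * m with hb
  have hb2 : 2 ≤ b := by omega
  have hzb : z ∣ (b : 𝓞 K) := by
    rw [hb, Nat.cast_mul]
    exact Dvd.dvd.mul_left hzm _
  set ℓ0 : ℕ := b + 1 with hℓ0
  set ℓ1 : ℕ := b * ℓ0 + 1 with hℓ1
  set ℓ2 : ℕ := b * ℓ0 * ℓ1 + 1 with hℓ2
  let ℓ : Fin 3 → ℕ := ![ℓ0, ℓ1, ℓ2]
  have hℓge : ∀ Z, 2 ≤ ℓ Z := by
    intro Z
    fin_cases Z
    · show 2 ≤ ℓ0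
      omega
    · show 2 ≤ ℓ1
      have : 0 < b * ℓ0 := by positivity
      omega
    · show 2 ≤ ℓ2
      have : 0 < b * ℓ0 * ℓ1 := by positivity
      omega
  have hℓb : ∀ Z, ∃ q : ℕ, ℓ Z = b * q + 1 := by
    intro Z
    fin_cases Z
    · exact ⟨1, by show ℓ0 = _; omega⟩
    · exact ⟨ℓ0, rfl⟩
    · exact ⟨ℓ0 * ℓ1, by show ℓ2 = _; rw [hℓ2]; ring⟩
  have key : ∀ (c d : 𝓞 K) (n q : ℕ), c ∣ (n : 𝓞 K) → d = ((n * q + 1 : ℕ) : 𝓞 K) →
      IsCoprime d c := by
    rintro c d n q ⟨e, he⟩ rfl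
    refine ⟨1, -(e * q), ?_⟩
    push_cast
    rw [he]
    ring
  have hℓℓ : ∀ Z Z', Z ≠ Z' → IsCoprime ((ℓ Z : ℕ) : 𝓞 K) ((ℓ Z' : ℕ) : 𝓞 K) := by
    have h01 : IsCoprime ((ℓ1 : ℕ) : 𝓞 K) ((ℓ0 : ℕ) : 𝓞 K) :=
      key _ _ ℓ0 b dvd_rfl (by rw [hℓ1]; push_cast; ring)
    have h02 : IsCoprime ((ℓ2 : ℕ) : 𝓞 K) ((ℓ0 : ℕ) : 𝓞 K) :=
      key _ _ ℓ0 (b * ℓ1) dvd_rfl (by rw [hℓ2]; push_cast; ring)
    have h12 : IsCoprime ((ℓ2 : ℕ) : 𝓞 K) ((ℓ1 : ℕ) : 𝓞 K) :=
      key _ _ ℓ1 (b * ℓ0) dvd_rfl (by rw [hℓ2]; push_cast; ring)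
    intro Z Z' hZ
    fin_cases Z <;> fin_cases Z'
    · exact absurd rfl hZ
    · exact h01.symm
    · exact h02.symm
    · exact h01
    · exact absurd rfl hZ
    · exact h12.symm
    · exact h02
    · exact h12
    · exact absurd rfl hZ
  have hℓc : ∀ Z (c : 𝓞 K), c ∣ z → IsCoprime ((ℓ Z : ℕ) : 𝓞 K) c := by
    intro Z c hc
    obtain ⟨q, hq⟩ := hℓb Z
    exact key c _ b q (hc.trans hzb) (by rw [hq])
  have hℓP : ∀ Z P, P ∈ Ps → IsCoprime (π P) ((ℓ Z : ℕ) : 𝓞 K) := by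
    intro Z P hP
    obtain ⟨h1, h2, -⟩ := (hPs P).mp hP
    refine (hπ P h2 (hbot P h1)).2.2 _ ?_
    intro hmem
    obtain ⟨q, hq⟩ := hℓb Z
    have h2P : ((2 : ℕ) : 𝓞 K) ∈ P := by
      rw [← h1]
      exact Ideal.absNorm_mem P
    apply h2.ne_top
    rw [Ideal.eq_top_iff_one]
    have : (1 : 𝓞 K) = ((ℓ Z : ℕ) : 𝓞 K) - ((2 : ℕ) : 𝓞 K) * (m * q : 𝓞 K) := by
      rw [hq, hb]
      push_cast
      ring
    rw [this]
    exact P.sub_mem hmem (P.mul_mem_right _ h2P)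
  -- the basic sets
  let B : Fin 3 → Finset (𝓞 K) := fun Z =>
    if Z = X then {y, y'} ∪ Ps.image π else if Z = Y then {x, x'} else ∅
  have hBX : B X = {y, y'} ∪ Ps.image π := if_pos rfl
  have hBY : B Y = {x, x'} := by
    show (if Y = X then _ else if Y = Y then _ else _) = _
    rw [if_neg (Ne.symm hXY), if_pos rfl]
  have hB : ∀ Z s, s ∈ B Z → (Z = X ∧ (s = y ∨ s = y' ∨ ∃ P ∈ Ps, π P = s)) ∨
      (Z = Y ∧ (s = x ∨ s = x')) := by
    intro Z s hs
    by_cases h1 : Z = X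
    · subst h1
      rw [hBX] at hs
      left
      refine ⟨rfl, ?_⟩
      simpa [or_assoc] using hs
    · by_cases h2 : Z = Y
      · subst h2
        rw [hBY] at hs
        right
        refine ⟨rfl, ?_⟩
        simpa using hs
      · exfalso
        have : B Z = ∅ := by
          show (if Z = X then _ else if Z = Y then _ else _) = _
          rw [if_neg h1, if_neg h2]
        rw [this] at hs
        simp at hs
  have hne : ∀ Z s, s ∈ B Z → s ≠ 0 := by
    intro Z s hs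
    rcases hB Z s hs with ⟨-, rfl | rfl | ⟨P, hP, rfl⟩⟩ | ⟨-, rfl | rfl⟩
    · exact hy
    · exact hy'
    · obtain ⟨h1, h2, -⟩ := (hPs P).mp hP
      exact (hπ P h2 (hbot P h1)).1
    · exact hx
    · exact hx'
  have hBℓ : ∀ Z s Z', s ∈ B Z → IsCoprime s ((ℓ Z' : ℕ) : 𝓞 K) := by
    intro Z s Z' hs
    rcases hB Z s hs with ⟨-, rfl | rfl | ⟨P, hP, rfl⟩⟩ | ⟨-, rfl | rfl⟩
    · exact (hℓc Z' _ ⟨y' * (x * x'), by rw [hz]; ring⟩).symm
    · exact (hℓc Z' _ ⟨y * (x * x'), by rw [hz]; ring⟩).symm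
    · exact hℓP Z' P hP
    · exact (hℓc Z' _ ⟨y * y' * x', by rw [hz]; ring⟩).symm
    · exact (hℓc Z' _ ⟨y * y' * x, by rw [hz]; ring⟩).symm
  have hxy : ∀ s s', (s = y ∨ s = y' ∨ ∃ P ∈ Ps, π P = s) → (s' = x ∨ s' = x') →
      IsCoprime s s' := by
    intro s s' hs hs'
    have hd : s' ∣ x * x' := by
      rcases hs' with rfl | rfl
      · exact dvd_mul_right _ _
      · exact dvd_mul_left _ _
    rcases hs with rfl | rfl | ⟨P, hP, rfl⟩
    · exact (hcop.of_mul_left_left).of_isCoprime_of_dvd_right hd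
    · exact (hcop.of_mul_left_right).of_isCoprime_of_dvd_right hd
    · obtain ⟨h1, h2, h3⟩ := (hPs P).mp hP
      refine (hπ P h2 (hbot P h1)).2.2 _ fun hmem => h3 ?_
      exact P.mem_of_dvd hd hmem
  have hBB : ∀ Z Z', Z ≠ Z' → ∀ s ∈ B Z, ∀ s' ∈ B Z', IsCoprime s s' := by
    intro Z Z' hZ s hs s' hs'
    rcases hB Z s hs with ⟨rfl, h1⟩ | ⟨rfl, h1⟩
    · rcases hB Z' s' hs' with ⟨rfl, h2⟩ | ⟨rfl, h2⟩
      · exact absurd rfl hZ
      · exact hxy s s' h1 h2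
    · rcases hB Z' s' hs' with ⟨rfl, h2⟩ | ⟨rfl, h2⟩
      · exact (hxy s' s h2 h1).symm
      · exact absurd rfl hZ
  -- choose k
  have hev : ∀ᶠ k : ℕ in Filter.atTop, ∀ Z : Fin 3, ∀ F : (↥(B Z)) ⊕ τ → 𝓞 K,
      F = Sum.elim (fun i => ((ℓ Z : ℕ) : 𝓞 K) ^ k * i.1)
        (fun t => ((ℓ Z : ℕ) : 𝓞 K) ^ k * (u t : 𝓞 K)) →
      (∀ i (w : InfinitePlace K), 1 < w (F i : K)) ∧
      (∃ a : (↥(B Z)) ⊕ τ → ℝ, (∀ i, 0 < a i) ∧
        ∀ w : InfinitePlace K, ∑ i, a i * Real.log (w (F i : K)) = 1) ∧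
      Submodule.span ℝ (Set.range fun i : (↥(B Z)) ⊕ τ =>
        (fun w : InfinitePlace K => Real.log (w (F i : K)))) = ⊤ := by
    rw [Filter.eventually_all]
    intro Z
    exact group_lemma u t0 ht0 hcone (fun i : ↥(B Z) => i.1) (fun i => hne Z i.1 i.2) (ℓ Z)
      (hℓge Z)
  obtain ⟨k, hk⟩ := hev.exists
  let F : (Z : Fin 3) → (↥(B Z)) ⊕ τ → 𝓞 K := fun Z =>
    Sum.elim (fun i => ((ℓ Z : ℕ) : 𝓞 K) ^ k * i.1)
      (fun t => ((ℓ Z : ℕ) : 𝓞 K) ^ k * (u t : 𝓞 K))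
  have hℓne : ∀ Z, ((((ℓ Z : ℕ) : 𝓞 K) ^ k : 𝓞 K) : K) ≠ 0 := by
    intro Z
    have : ((ℓ Z : ℕ) : 𝓞 K) ^ k ≠ 0 := by
      apply pow_ne_zero
      have : ℓ Z ≠ 0 := by
        have := hℓge Z
        omega
      exact_mod_cast this
    simpa using this
  refine ⟨fun Z => (↥(B Z)) ⊕ τ, fun Z => inferInstance, F, ?_, ?_, ?_⟩
  · refine ⟨fun Z i w => (hk Z (F Z) rfl).1 i w, ?_, ?_, fun Z => (hk Z (F Z) rfl).2.1,
      fun Z => (hk Z (F Z) rfl).2.2⟩
    · intro Z Z' hZ i j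
      -- decompose the elements
      have hdec : ∀ Z (i : (↥(B Z)) ⊕ τ), ∃ s : 𝓞 K, F Z i = ((ℓ Z : ℕ) : 𝓞 K) ^ k * s ∧
          (s ∈ B Z ∨ IsUnit s) := by
        rintro Z (i | t)
        · exact ⟨i.1, rfl, Or.inl i.2⟩
        · exact ⟨u t, rfl, Or.inr (u t).isUnit⟩
      obtain ⟨s, hs, hs2⟩ := hdec Z i
      obtain ⟨s', hs', hs2'⟩ := hdec Z' j
      rw [hs, hs']
      have a1 : IsCoprime (((ℓ Z : ℕ) : 𝓞 K) ^ k) (((ℓ Z' : ℕ) : 𝓞 K) ^ k) :=
        (hℓℓ Z Z' hZ).pow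
      have a2 : IsCoprime (((ℓ Z : ℕ) : 𝓞 K) ^ k) s' := by
        rcases hs2' with h | h
        · exact (hBℓ Z' s' Z h).symm.pow_left
        · exact (isCoprime_of_isUnit h _).symm
      have a3 : IsCoprime s (((ℓ Z' : ℕ) : 𝓞 K) ^ k) := by
        rcases hs2 with h | h
        · exact (hBℓ Z s Z' h).pow_right
        · exact isCoprime_of_isUnit h _
      have a4 : IsCoprime s s' := by
        rcases hs2 with h | h
        · rcases hs2' with h' | h'
          · exact hBB Z Z' hZ s h s' h'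
          · exact (isCoprime_of_isUnit h' _).symm
        · exact isCoprime_of_isUnit h _
      exact (a1.mul_right a2).mul_left (a3.mul_right a4)
    · intro P hP hP2
      by_cases hmem : x * x' ∈ P
      · rcases hP.mem_or_mem hmem with h | h
        · refine ⟨Y, Sum.inl ⟨x, by rw [hBY]; simp⟩, ?_⟩
          exact P.mul_mem_left _ h
        · refine ⟨Y, Sum.inl ⟨x', by rw [hBY]; simp⟩, ?_⟩
          exact P.mul_mem_left _ h
      · have hPm : P ∈ Ps := (hPs P).mpr ⟨hP2, hP, hmem⟩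
        refine ⟨X, Sum.inl ⟨π P, ?_⟩, ?_⟩
        · rw [hBX]
          exact Finset.mem_union_right _ (Finset.mem_image_of_mem π hPm)
        · exact P.mul_mem_left _ (hπ P hP (hbot P hP2)).2.1
  · refine ⟨Sum.inl ⟨y, by rw [hBX]; simp⟩, Sum.inl ⟨y', by rw [hBX]; simp⟩, ?_⟩
    show algebraMap (𝓞 K) K (((ℓ X : ℕ) : 𝓞 K) ^ k * y) /
      algebraMap (𝓞 K) K (((ℓ X : ℕ) : 𝓞 K) ^ k * y') = _
    rw [map_mul, map_mul]
    exact mul_div_mul_left _ _ (hℓne X)
  · refine ⟨Sum.inl ⟨x, by rw [hBY]; simp⟩, Sum.inl ⟨x', by rw [hBY]; simp⟩, ?_⟩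
    show algebraMap (𝓞 K) K (((ℓ Y : ℕ) : 𝓞 K) ^ k * x) /
      algebraMap (𝓞 K) K (((ℓ Y : ℕ) : 𝓞 K) ^ k * x') = _
    rw [map_mul, map_mul]
    exact mul_div_mul_left _ _ (hℓne Y)

end Pool.Agent.H366.NK
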