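import Mathlib
import Pool.Agent.H366.ZC.Base

/-!
# Circle method over the integers of a number field: definitions

`K` is a number field of degree `D = DK K`, `𝓞 K` its ring of integers with the integral basis
`om K j`, `j : JJ K`. Sizes are measured by the values `w x` of the infinite places
`w : InfinitePlace K`. `tr x` is the trace as a real number, `psi x = exp (2 π i tr x)`. `DD K` is
the dual of `𝓞 K` for the trace form. The frequencies are the elements `fr T a`, `a : JJ K → Fin T`,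
of `(1/T) DD K`. The slots are `zz q d v g h = v + q (2^d g + ∑ h_j om_j)`, `0 ≤ h_j < 2^d`, for a
residue `v` modulo `q` and a cell `g`.
-/

set_option autoImplicit false

namespace Pool.Agent.H366.NK

open NumberField
open Pool.Agent.H366.GF (Ex ExC)
open Pool.Agent.H366.ZC (e)

section K

variable (K : Type) [Field K] [NumberField K]

/-- the index type of the integral basis -/
abbrev JJ : Type := Module.Free.ChooseBasisIndex ℤ (𝓞 K)

noncomputable instance : DecidableEq (JJ K) := Classical.decEq _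

/-- the integral basis -/
noncomputable abbrev om : Module.Basis (JJ K) ℤ (𝓞 K) := RingOfIntegers.basis K

/-- the degree of `K` -/
noncomputable abbrev DK : ℕ := Fintype.card (JJ K)

variable {K}

/-- the trace, as a real number -/
noncomputable def tr (x : K) : ℝ := ((Algebra.trace ℚ K x : ℚ) : ℝ)

/-- the additive character `exp (2 π i tr x)` of `K` -/
noncomputable def psi (x : K) : ℂ := e (tr x)

/-- the absolute value of the norm -/
noncomputable def nm (x : K) : ℝ := |((Algebra.norm ℚ x : ℚ) : ℝ)|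

/-- the integer with the coordinates `x` -/
noncomputable def el (x : JJ K → ℤ) : 𝓞 K := ∑ j, (x j : 𝓞 K) * om K j

/-- the elements with coordinates of absolute value at most `X` -/
noncomputable def box (K : Type) [Field K] [NumberField K] (X : ℕ) : Finset (JJ K → ℤ) :=
  Fintype.piFinset fun _ => Finset.Icc (-(X : ℤ)) (X : ℤ)

variable (K) in
/-- the dual of `𝓞 K` for the trace form (the inverse of the different) -/
def DD : Submodule (𝓞 K) K where
  carrier := {b | ∀ x : 𝓞 K, ∃ n : ℤ, Algebra.trace ℚ K (b * (x : K)) = (n : ℚ)}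
  zero_mem' := fun x => ⟨0, by simp⟩
  add_mem' := by
    intro a b ha hb x
    obtain ⟨m, hm⟩ := ha x
    obtain ⟨n, hn⟩ := hb x
    exact ⟨m + n, by rw [add_mul, map_add, hm, hn]; push_cast; ring⟩
  smul_mem' := by
    intro c b hb x
    obtain ⟨n, hn⟩ := hb (c * x)
    refine ⟨n, ?_⟩
    rw [← hn, Algebra.smul_def]
    congr 1
    push_cast
    show (c : K) * b * (x : K) = b * ((c : K) * (x : K))
    ring

/-- the denominator of `β` with respect to `DD K`: the ideal of the `x` with `x β ∈ DD K` -/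
noncomputable def den (β : K) : Ideal (𝓞 K) :=
  (DD K).comap (LinearMap.toSpanSingleton (𝓞 K) K β)

lemma mem_den (β : K) (x : 𝓞 K) : x ∈ den β ↔ (x : K) * β ∈ DD K := by
  unfold den
  rw [Submodule.mem_comap, LinearMap.toSpanSingleton_apply, Algebra.smul_def]

variable (K) in
/-- the dual basis of the integral basis -/
noncomputable def dual : Module.Basis (JJ K) ℚ K :=
  (Algebra.traceForm ℚ K).dualBasis (traceForm_nondegenerate ℚ K) (integralBasis K)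

/-- the frequency `∑ (a_j / T) ω_j^∨` -/
noncomputable def fr (T : ℕ) (a : JJ K → Fin T) : K :=
  ∑ j, (((a j : ℕ) : ℚ) / (T : ℚ)) • dual K j

/-- the constants for `K` -/
structure Cst (K : Type) [Field K] [NumberField K] (c : ℕ) : Prop where
  three : 3 ≤ c
  card : DK K ≤ 2 ^ c
  coord_le : ∀ (x : 𝓞 K) (B : ℝ), (∀ w : InfinitePlace K, w (x : K) ≤ B) →
    ∀ j, |(((om K).repr x j : ℤ) : ℝ)| ≤ 2 ^ c * B
  place_le : ∀ (x : 𝓞 K) (B : ℝ), (∀ j, |(((om K).repr x j : ℤ) : ℝ)| ≤ B) →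
    ∀ w : InfinitePlace K, w (x : K) ≤ 2 ^ c * B
  tr_le : ∀ (x : K) (B : ℝ), (∀ w : InfinitePlace K, w x ≤ B) →
    ∀ j, |tr (x * (om K j : K))| ≤ 2 ^ c * B
  place_le_tr : ∀ (x : K) (B : ℝ), (∀ j, |tr (x * (om K j : K))| ≤ B) →
    ∀ w : InfinitePlace K, w x ≤ 2 ^ c * B

/-! ### slots -/

/-- the slot with the residue `v` modulo `q` in the cell `g` -/
noncomputable def zz (q d : ℕ) (v g : 𝓞 K) (h : JJ K → Fin (2 ^ d)) : 𝓞 K :=
  v + (q : 𝓞 K) * ((2 : 𝓞 K) ^ d * g + ∑ j, (((h j : ℕ) : 𝓞 K)) * om K j)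

/-- admissible residue and cell -/
structure SlotOK (c q γ : ℕ) (v g : 𝓞 K) : Prop where
  cop : IsCoprime v (q : 𝓞 K)
  vle : ∀ w : InfinitePlace K, w (v : K) ≤ 2 ^ c * q
  gge : ∀ w : InfinitePlace K, (2 : ℝ) ^ (c + 4) ≤ w (g : K)
  gle : ∀ w : InfinitePlace K, w (g : K) ≤ (2 : ℝ) ^ γ

/-- `q`: all primes less than `2^κ` divide `q`; `e₀` bounds the size of the slots -/
structure QOK (κ q e₀ γ : ℕ) : Prop where
  κpos : 0 < κ
  qpos : 0 < q
  qe : q * 2 ^ (γ + 1) ≤ 2 ^ e₀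
  small : ∀ p : ℕ, p.Prime → p < 2 ^ κ → p ∣ q

/-- the three multipliers -/
structure Ctx (κ Λ μ q e₀ γ : ℕ) (M : Fin 3 → 𝓞 K) : Prop extends QOK κ q e₀ γ where
  smooth : ∀ X (P : Ideal (𝓞 K)), P.IsPrime → M X ∈ P → (q : 𝓞 K) ∈ P
  Mge : ∀ X (w : InfinitePlace K), 1 ≤ w (M X : K)
  Mle : ∀ X (w : InfinitePlace K), w (M X : K) ≤ 2 ^ μ
  cop : IsCoprime (M 0) (M 1)
  ratio : ∀ X Y (w : InfinitePlace K), w (M X : K) ≤ Λ * w (M Y : K)

/-- the exponent of the modulus -/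
def TE (c s μ e₀ d : ℕ) : ℕ := μ + s * (d + e₀) + 2 * c + 4

/-- the modulus of the circle method -/
def TL (c s μ e₀ d : ℕ) : ℕ := 2 ^ TE c s μ e₀ d

/-- the length of the smoothing -/
def KS (c s μ e₀ d : ℕ) : ℕ := 2 ^ (TE c s μ e₀ d - d / 4)

section TT

variable {s : ℕ}

/-- `(M ∏ z - M ∏ v) / q` -/
noncomputable def ff (q d : ℕ) (M : 𝓞 K) (v g : Fin s → 𝓞 K)
    (h : Fin s → JJ K → Fin (2 ^ d)) : K :=
  ((M * ∏ i, zz q d (v i) (g i) (h i) - M * ∏ i, v i : 𝓞 K) : K) / (q : K)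

/-- the averaged exponential sum -/
noncomputable def TT (q d : ℕ) (M : 𝓞 K) (v g : Fin s → 𝓞 K) (α : K) (V : Finset (Fin s))
    (z : Fin s → JJ K → Fin (2 ^ d)) : ℂ :=
  ExC fun z' : Fin s → JJ K → Fin (2 ^ d) => psi (α * ff q d M v g (V.piecewise z z'))

end TT

/-- `α` is close to `b / r`, `b ∈ DD K`, `r` small -/
def Low (T ρ : ℕ) (α : K) : Prop :=
  ∃ (r : 𝓞 K) (b : K), r ≠ 0 ∧ b ∈ DD K ∧ (∀ w : InfinitePlace K, w (r : K) ≤ ρ) ∧
    ∀ w : InfinitePlace K, w ((r : K) * α - b) ≤ (ρ : ℝ) / T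

/-- `Low`, with a bound for the common divisor of the denominator of `b / r` and `P` -/
def LowG (T ρ : ℕ) (α : K) (P : 𝓞 K) (t : ℕ) : Prop :=
  ∃ (r : 𝓞 K) (b : K), r ≠ 0 ∧ b ∈ DD K ∧ (∀ w : InfinitePlace K, w (r : K) ≤ ρ) ∧
    (∀ w : InfinitePlace K, w ((r : K) * α - b) ≤ (ρ : ℝ) / T) ∧
    (den (b / (r : K)) ⊔ Ideal.span {P}).absNorm ≤ t

/-- the frequencies close to `0` -/
def Zero (T w₀ : ℕ) (a : JJ K → Fin T) : Prop := ∀ j, (a j : ℕ) ≤ w₀ ∨ T ≤ (a j : ℕ) + w₀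

/-- the size of `M ∏ z / q` -/
noncomputable def NN (s q d : ℕ) (M : 𝓞 K) (g : Fin s → 𝓞 K) : ℝ :=
  nm (M : K) * ((q : ℝ) ^ (s - 1)) ^ DK K * (∏ i, nm (g i : K)) * ((2 : ℝ) ^ d) ^ (s * DK K)

open Classical in
/-- the weight: `NN` on the solutions of `M₀ ∏ z₀ = M₁ ∏ z₁ + M₂ ∏ z₂`. -/
noncomputable def Wt (s q d : ℕ) (M : Fin 3 → 𝓞 K) (v g : Fin 3 → Fin s → 𝓞 K)
    (z : Fin 3 → Fin s → JJ K → Fin (2 ^ d)) : ℝ :=
  if M 0 * ∏ i, zz q d (v 0 i) (g 0 i) (z 0 i) =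
    M 1 * ∏ i, zz q d (v 1 i) (g 1 i) (z 1 i) + M 2 * ∏ i, zz q d (v 2 i) (g 2 i) (z 2 i)
  then NN s q d (M 0) (g 0) else 0

open Classical in
/-- the smooth weight -/
noncomputable def Ws (s q d K' : ℕ) (M : Fin 3 → 𝓞 K) (v g : Fin 3 → Fin s → 𝓞 K)
    (z : Fin 3 → Fin s → JJ K → Fin (2 ^ d)) : ℝ :=
  if ∀ j, |(om K).repr (M 0 * ∏ i, zz q d (v 0 i) (g 0 i) (z 0 i) -
    (M 1 * ∏ i, zz q d (v 1 i) (g 1 i) (z 1 i) + M 2 * ∏ i, zz q d (v 2 i) (g 2 i) (z 2 i))) j| ≤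
      ((q * K' : ℕ) : ℤ)
  then NN s q d (M 0) (g 0) / (2 * K' + 1) ^ DK K else 0

/-- the congruence condition -/
def Rel (s q : ℕ) (M : Fin 3 → 𝓞 K) (v : Fin 3 → Fin s → 𝓞 K) : Prop :=
  (q : 𝓞 K) ∣ M 0 * ∏ i, v 0 i - (M 1 * ∏ i, v 1 i + M 2 * ∏ i, v 2 i)

end K

end Pool.Agent.H366.NK
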