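import Pool.Agent.H366.NK.Base

/-! # [BASE2] basic facts: characters, the dual lattice, norms -/

set_option autoImplicit false

namespace Pool.Agent.H366.NK

open NumberField
open Pool.Agent.H366.GF (Ex ExC)
open Pool.Agent.H366.ZC (e)

variable {K : Type} [Field K] [NumberField K]

namespace Base2N

/-- linear bound for the trace of a product -/
theorem tr_bound (y : K) : ∃ C : ℝ, 0 ≤ C ∧ ∀ (x : K) (B : ℝ), (∀ w : InfinitePlace K, w x ≤ B) →
    |tr (x * y)| ≤ C * B := by
  refine ⟨∑ σ : K →ₐ[ℚ] ℂ, ‖σ y‖, Finset.sum_nonneg fun _ _ => norm_nonneg _, ?_⟩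
  intro x B hB
  have h1 : ((tr (x * y) : ℝ) : ℂ) = ∑ σ : K →ₐ[ℚ] ℂ, σ (x * y) := by
    rw [← trace_eq_sum_embeddings (K := ℚ) (L := K) ℂ]
    unfold tr
    simp
  have h2 : |tr (x * y)| = ‖((tr (x * y) : ℝ) : ℂ)‖ := by
    rw [Complex.norm_real, Real.norm_eq_abs]
  rw [h2, h1, Finset.sum_mul]
  refine (norm_sum_le _ _).trans (Finset.sum_le_sum fun σ _ => ?_)
  rw [map_mul, norm_mul, mul_comm]
  refine mul_le_mul_of_nonneg_left ?_ (norm_nonneg _)
  exact hB (InfinitePlace.mk σ.toRingHom)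

/-- linear bound for the places -/
theorem place_bound (y : JJ K → K) (w : InfinitePlace K) (c : JJ K → ℚ) (B : ℝ)
    (h : ∀ j, |((c j : ℚ) : ℝ)| ≤ B) :
    w (∑ j, (c j : K) * y j) ≤ (∑ j, w (y j)) * B := by
  rw [← InfinitePlace.norm_embedding_eq, map_sum, Finset.sum_mul]
  refine (norm_sum_le _ _).trans (Finset.sum_le_sum fun j _ => ?_)
  rw [map_mul, norm_mul, map_ratCast, InfinitePlace.norm_embedding_eq, mul_comm]
  refine mul_le_mul_of_nonneg_left ?_ (apply_nonneg w (y j))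
  refine le_trans (le_of_eq ?_) (h j)
  rw [← Complex.ofReal_ratCast, Complex.norm_real, Real.norm_eq_abs]

theorem trace_dual_om (i j : JJ K) :
    Algebra.trace ℚ K (dual K i * (om K j : K)) = if j = i then 1 else 0 := by
  classical
  have h := LinearMap.BilinForm.apply_dualBasis_left (traceForm_nondegenerate ℚ K)
    (integralBasis K) i j
  rw [Algebra.traceForm_apply, integralBasis_apply] at h
  unfold dual
  rw [show ((om K j : 𝓞 K) : K) = algebraMap (𝓞 K) K (RingOfIntegers.basis K j) from rfl]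
  rw [h]

theorem dual_repr (x : K) (j : JJ K) :
    (dual K).repr x j = Algebra.trace ℚ K (x * (om K j : K)) := by
  unfold dual
  rw [LinearMap.BilinForm.dualBasis_repr_apply, Algebra.traceForm_apply, integralBasis_apply]

theorem sum_dual (x : K) :
    x = ∑ j, ((Algebra.trace ℚ K (x * (om K j : K)) : ℚ) : K) * dual K j := by
  conv_lhs => rw [← (dual K).sum_repr x]
  refine Finset.sum_congr rfl fun j _ => ?_
  rw [dual_repr, Rat.smul_def]

theorem coe_sum_om (x : 𝓞 K) :
    (x : K) = ∑ j, (((om K).repr x j : ℤ) : K) * (om K j : K) := by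
  conv_lhs => rw [← (om K).sum_repr x]
  change algebraMap (𝓞 K) K _ = _
  rw [map_sum]
  refine Finset.sum_congr rfl fun j _ => ?_
  rw [zsmul_eq_mul, map_mul, map_intCast]

theorem repr_eq_trace (x : 𝓞 K) (j : JJ K) :
    (((om K).repr x j : ℤ) : ℚ) = Algebra.trace ℚ K ((x : K) * dual K j) := by
  rw [coe_sum_om x, Finset.sum_mul, map_sum, Finset.sum_eq_single j]
  · have h : (((om K).repr x j : ℤ) : K) * (om K j : K) * dual K j =
        (((om K).repr x j : ℤ) : ℚ) • (dual K j * (om K j : K)) := by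
      rw [Rat.smul_def]
      push_cast
      ring
    rw [h, map_smul, trace_dual_om, if_pos rfl, smul_eq_mul, mul_one]
  · intro i _ hi
    have h : (((om K).repr x i : ℤ) : K) * (om K i : K) * dual K j =
        (((om K).repr x i : ℤ) : ℚ) • (dual K j * (om K i : K)) := by
      rw [Rat.smul_def]
      push_cast
      ring
    rw [h, map_smul, trace_dual_om, if_neg hi, smul_zero]
  · intro h
    exact absurd (Finset.mem_univ j) h

end Base2N

open Base2N

/-- [C1] -/
theorem exists_cst (K : Type) [Field K] [NumberField K] : ∃ c : ℕ, Cst K c := by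
  classical
  choose C₁ hC₁0 hC₁ using fun j : JJ K => tr_bound (K := K) (om K j : K)
  choose C₂ hC₂0 hC₂ using fun j : JJ K => tr_bound (K := K) (dual K j)
  set S₁ : ℝ := ∑ j, C₁ j with hS₁
  set S₂ : ℝ := ∑ j, C₂ j with hS₂
  set S₃ : ℝ := ∑ w : InfinitePlace K, ∑ j, w ((om K j : 𝓞 K) : K) with hS₃
  set S₄ : ℝ := ∑ w : InfinitePlace K, ∑ j, w (dual K j) with hS₄
  have h1 : 0 ≤ S₁ := Finset.sum_nonneg fun j _ => hC₁0 j
  have h2 : 0 ≤ S₂ := Finset.sum_nonneg fun j _ => hC₂0 j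
  have h3 : 0 ≤ S₃ := Finset.sum_nonneg fun w _ => Finset.sum_nonneg fun j _ => apply_nonneg _ _
  have h4 : 0 ≤ S₄ := Finset.sum_nonneg fun w _ => Finset.sum_nonneg fun j _ => apply_nonneg _ _
  obtain ⟨n, hn⟩ := pow_unbounded_of_one_lt (S₁ + S₂ + S₃ + S₄) (by norm_num : (1 : ℝ) < 2)
  have hn' : S₁ + S₂ + S₃ + S₄ ≤ (2 : ℝ) ^ (n + DK K + 3) :=
    hn.le.trans (pow_le_pow_right₀ (by norm_num) (by omega))
  have hne : Nonempty (JJ K) := by
    by_contra h
    rw [not_nonempty_iff] at h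
    have h' := Module.finrank_eq_card_basis (integralBasis K)
    rw [Fintype.card_eq_zero] at h'
    have h'' : 0 < Module.finrank ℚ K := Module.finrank_pos
    omega
  obtain ⟨j₀⟩ := hne
  obtain ⟨w₀⟩ := (inferInstance : Nonempty (InfinitePlace K))
  refine ⟨n + DK K + 3, ⟨by omega, ?_, ?_, ?_, ?_, ?_⟩⟩
  · calc DK K ≤ 2 ^ DK K := Nat.lt_two_pow_self.le
      _ ≤ 2 ^ (n + DK K + 3) := Nat.pow_le_pow_right (by norm_num) (by omega)
  · intro x B hB j
    have hB0 : 0 ≤ B := (apply_nonneg w₀ (x : K)).trans (hB w₀)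
    have h := hC₂ j (x : K) B hB
    have h5 : tr ((x : K) * dual K j) = (((om K).repr x j : ℤ) : ℝ) := by
      unfold tr
      rw [← repr_eq_trace]
      push_cast
      rfl
    rw [h5] at h
    refine h.trans (mul_le_mul_of_nonneg_right ?_ hB0)
    have h6 : C₂ j ≤ S₂ := Finset.single_le_sum (fun i _ => hC₂0 i) (Finset.mem_univ j)
    linarith
  · intro x B hB w
    have hB0 : 0 ≤ B := (abs_nonneg _).trans (hB j₀)
    have h := place_bound (fun j => ((om K j : 𝓞 K) : K)) w (fun j => (((om K).repr x j : ℤ) : ℚ)) B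
      (fun j => by
        have := hB j
        push_cast
        exact this)
    have h5 : (∑ j, (((((om K).repr x j : ℤ) : ℚ)) : K) * (om K j : K)) = (x : K) := by
      conv_rhs => rw [coe_sum_om x]
      refine Finset.sum_congr rfl fun j _ => ?_
      push_cast
      rfl
    rw [h5] at h
    refine h.trans (mul_le_mul_of_nonneg_right ?_ hB0)
    have h6 : ∑ j, w ((om K j : 𝓞 K) : K) ≤ S₃ :=
      Finset.single_le_sum (f := fun w : InfinitePlace K => ∑ j, w ((om K j : 𝓞 K) : K))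
        (fun w _ => Finset.sum_nonneg fun j _ => apply_nonneg _ _) (Finset.mem_univ w)
    linarith
  · intro x B hB j
    have hB0 : 0 ≤ B := (apply_nonneg w₀ x).trans (hB w₀)
    refine (hC₁ j x B hB).trans (mul_le_mul_of_nonneg_right ?_ hB0)
    have h6 : C₁ j ≤ S₁ := Finset.single_le_sum (fun i _ => hC₁0 i) (Finset.mem_univ j)
    linarith
  · intro x B hB w
    have hB0 : 0 ≤ B := (abs_nonneg _).trans (hB j₀)
    have h := place_bound (dual K) w (fun j => Algebra.trace ℚ K (x * (om K j : K))) B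
      (fun j => hB j)
    rw [← sum_dual x] at h
    refine h.trans (mul_le_mul_of_nonneg_right ?_ hB0)
    have h6 : ∑ j, w (dual K j) ≤ S₄ :=
      Finset.single_le_sum (f := fun w : InfinitePlace K => ∑ j, w (dual K j))
        (fun w _ => Finset.sum_nonneg fun j _ => apply_nonneg _ _) (Finset.mem_univ w)
    linarith

theorem tr_add (x y : K) : tr (x + y) = tr x + tr y := by
  unfold tr
  rw [map_add]
  push_cast
  rfl

theorem tr_sub (x y : K) : tr (x - y) = tr x - tr y := by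
  unfold tr
  rw [map_sub]
  push_cast
  rfl

theorem psi_add (x y : K) : psi (x + y) = psi x * psi y := by
  unfold psi
  rw [tr_add, ZC.e_add]

theorem psi_sub (x y : K) : psi (x - y) = psi x * (starRingEnd ℂ) (psi y) := by
  unfold psi
  rw [tr_sub, ZC.e_sub]

theorem psi_zero : psi (0 : K) = 1 := by
  unfold psi tr
  rw [map_zero, Rat.cast_zero, ZC.e_zero]

theorem norm_psi (x : K) : ‖psi x‖ = 1 := ZC.norm_e _

theorem tr_mem_DD {b : K} (hb : b ∈ DD K) (x : 𝓞 K) : ∃ n : ℤ, tr (b * (x : K)) = n := by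
  obtain ⟨n, hn⟩ := hb x
  refine ⟨n, ?_⟩
  unfold tr
  rw [hn]
  push_cast
  rfl

theorem psi_mem_DD {b : K} (hb : b ∈ DD K) : psi b = 1 := by
  obtain ⟨n, hn⟩ := tr_mem_DD hb 1
  have h1 : ((1 : 𝓞 K) : K) = 1 := map_one (algebraMap (𝓞 K) K)
  rw [h1, mul_one] at hn
  unfold psi
  rw [hn, ZC.e_int]

theorem mem_DD_iff (b : K) : b ∈ DD K ↔ ∀ j, ∃ n : ℤ, tr (b * (om K j : K)) = n := by
  constructor
  · intro hb j
    exact tr_mem_DD hb _
  · intro h x
    choose n hn using h
    have hn' : ∀ j, Algebra.trace ℚ K (b * (om K j : K)) = (n j : ℚ) := by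
      intro j
      have h := hn j
      unfold tr at h
      exact_mod_cast h
    refine ⟨∑ j, (om K).repr x j * n j, ?_⟩
    rw [coe_sum_om x, Finset.mul_sum, map_sum]
    push_cast
    refine Finset.sum_congr rfl fun j _ => ?_
    have h1 : b * ((((om K).repr x j : ℤ) : K) * (om K j : K)) =
        (((om K).repr x j : ℤ) : ℚ) • (b * (om K j : K)) := by
      rw [Rat.smul_def]
      push_cast
      ring
    rw [h1, map_smul, hn' j, smul_eq_mul]

theorem coe_mem_DD (x : 𝓞 K) : (x : K) ∈ DD K := by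
  intro y
  refine ⟨Algebra.trace ℤ (𝓞 K) (x * y), ?_⟩
  rw [Algebra.coe_trace_int]
  push_cast
  rfl

theorem mul_mem_DD {b : K} (hb : b ∈ DD K) (x : 𝓞 K) : (x : K) * b ∈ DD K := by
  have h := (DD K).smul_mem x hb
  rwa [Algebra.smul_def] at h

/-- coordinates of a frequency -/
theorem tr_fr (T : ℕ) (a : JJ K → Fin T) (j : JJ K) :
    tr (fr T a * (om K j : K)) = ((a j : ℕ) : ℝ) / T := by
  unfold tr fr
  have h : Algebra.trace ℚ K ((∑ i, (((a i : ℕ) : ℚ) / (T : ℚ)) • dual K i) * (om K j : K)) =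
      ((a j : ℕ) : ℚ) / (T : ℚ) := by
    rw [Finset.sum_mul, map_sum, Finset.sum_eq_single j]
    · rw [smul_mul_assoc, map_smul, trace_dual_om, if_pos rfl, smul_eq_mul, mul_one]
    · intro i _ hi
      rw [smul_mul_assoc, map_smul, trace_dual_om, if_neg (Ne.symm hi), smul_zero]
    · intro h
      exact absurd (Finset.mem_univ j) h
  rw [h]
  push_cast
  rfl

/-- `T fr T a ∈ DD K` -/
theorem fr_mem (T : ℕ) (hT : 0 < T) (a : JJ K → Fin T) : (T : K) * fr T a ∈ DD K := by
  rw [mem_DD_iff]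
  intro j
  refine ⟨((a j : ℕ) : ℤ), ?_⟩
  have h1 : (T : K) * fr T a * (om K j : K) = (T : ℚ) • (fr T a * (om K j : K)) := by
    rw [Rat.smul_def]
    push_cast
    ring
  have h2 : tr ((T : ℚ) • (fr T a * (om K j : K))) = (T : ℝ) * tr (fr T a * (om K j : K)) := by
    unfold tr
    rw [map_smul, smul_eq_mul]
    push_cast
    rfl
  have hT0 : (T : ℝ) ≠ 0 := by exact_mod_cast hT.ne'
  rw [h1, h2, tr_fr]
  field_simp
  push_cast
  rfl

/-- different `a` give different frequencies modulo `DD K` -/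
theorem fr_inj (T : ℕ) (a a' : JJ K → Fin T) (h : fr T a - fr T a' ∈ DD K) : a = a' := by
  rw [mem_DD_iff] at h
  funext j
  obtain ⟨n, hn⟩ := h j
  rw [sub_mul, tr_sub, tr_fr, tr_fr] at hn
  have hT : 0 < T := lt_of_le_of_lt (Nat.zero_le _) (a j).2
  have hT0 : (0 : ℝ) < T := by exact_mod_cast hT
  rw [← sub_div, div_eq_iff hT0.ne'] at hn
  have h1 : ((a j : ℕ) : ℤ) - ((a' j : ℕ) : ℤ) = n * T := by exact_mod_cast hn
  have h2 : ((a j : ℕ) : ℤ) < T := by exact_mod_cast (a j).2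
  have h3 : ((a' j : ℕ) : ℤ) < T := by exact_mod_cast (a' j).2
  have h4 : n = 0 := by
    by_contra hne
    rcases lt_or_gt_of_ne hne with h5 | h5
    · have : n ≤ -1 := by omega
      nlinarith
    · have : 1 ≤ n := by omega
      nlinarith
  rw [h4, zero_mul] at h1
  apply Fin.ext
  omega

theorem tr_mul_el (x : K) (y : JJ K → ℤ) :
    tr (x * (el y : K)) = ∑ j, tr (x * (om K j : K)) * (y j : ℝ) := by
  have h0 : (el y : K) = ∑ j, algebraMap (𝓞 K) K ((y j : 𝓞 K) * om K j) := by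
    change algebraMap (𝓞 K) K (el y) = _
    unfold el
    rw [map_sum]
  rw [h0]
  unfold tr
  rw [Finset.mul_sum, map_sum, Rat.cast_sum]
  refine Finset.sum_congr rfl fun j _ => ?_
  have h1 : x * algebraMap (𝓞 K) K ((y j : 𝓞 K) * om K j) = (y j : ℚ) • (x * (om K j : K)) := by
    rw [map_mul, map_intCast, Rat.smul_def]
    push_cast
    ring
  rw [h1, map_smul, smul_eq_mul]
  push_cast
  ring

theorem repr_el (y : JJ K → ℤ) (j : JJ K) : (om K).repr (el y) j = y j := by
  have h : el y = ∑ j, y j • om K j := by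
    unfold el
    refine Finset.sum_congr rfl fun j _ => ?_
    rw [zsmul_eq_mul]
  rw [h, (om K).repr_sum_self]

theorem el_repr (x : 𝓞 K) : el (fun j => (om K).repr x j) = x := by
  have h : el (fun j => (om K).repr x j) = ∑ j, (om K).repr x j • om K j := by
    unfold el
    refine Finset.sum_congr rfl fun j _ => ?_
    rw [zsmul_eq_mul]
  rw [h, (om K).sum_repr]

open Classical in
/-- orthogonality -/
theorem sum_psi (T : ℕ) (hT : 0 < T) (x : 𝓞 K) :
    ∑ a : JJ K → Fin T, psi (fr T a * (x : K)) =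
      if ∀ j, (T : ℤ) ∣ (om K).repr x j then ((T : ℂ)) ^ DK K else 0 := by
  have esum : ∀ (s : Finset (JJ K)) (f : JJ K → ℝ), e (∑ j ∈ s, f j) = ∏ j ∈ s, e (f j) := by
    intro s f
    induction s using Finset.induction_on with
    | empty => rw [Finset.sum_empty, Finset.prod_empty, ZC.e_zero]
    | insert j s hj ih => rw [Finset.sum_insert hj, Finset.prod_insert hj, ZC.e_add, ih]
  have h1 : ∀ a : JJ K → Fin T, psi (fr T a * (x : K)) =
      ∏ j, e (((a j : ℕ) : ℝ) * (((om K).repr x j : ℤ) : ℝ) / (T : ℝ)) := by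
    intro a
    unfold psi
    conv_lhs => rw [← el_repr x]
    rw [tr_mul_el, esum]
    refine Finset.prod_congr rfl fun j _ => ?_
    rw [tr_fr]
    congr 1
    ring
  have h2 : ∑ a : JJ K → Fin T, psi (fr T a * (x : K)) =
      ∏ j, ∑ b : Fin T, e (((b : ℕ) : ℝ) * (((om K).repr x j : ℤ) : ℝ) / (T : ℝ)) := by
    rw [Finset.prod_univ_sum, Fintype.piFinset_univ]
    exact Finset.sum_congr rfl fun a _ => h1 a
  have h3 : ∀ j, ∑ b : Fin T, e (((b : ℕ) : ℝ) * (((om K).repr x j : ℤ) : ℝ) / (T : ℝ)) =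
      if (T : ℤ) ∣ (om K).repr x j then (T : ℂ) else 0 := by
    intro j
    rw [Fin.sum_univ_eq_sum_range
      (fun b : ℕ => e ((b : ℝ) * (((om K).repr x j : ℤ) : ℝ) / (T : ℝ))) T]
    exact ZC.sum_e T hT _
  rw [h2, Finset.prod_congr rfl fun j _ => h3 j, Fintype.prod_ite_zero, Finset.prod_const,
    Finset.card_univ]

/-- small elements of the dual lattice are `0` -/
theorem DD_eq_zero {c : ℕ} (hc : Cst K c) {b : K} (hb : b ∈ DD K)
    (h : ∀ w : InfinitePlace K, 2 ^ c * w b < 1) : b = 0 := by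
  obtain ⟨w₀, -, hw₀⟩ := Finset.exists_max_image (Finset.univ : Finset (InfinitePlace K))
    (fun w => w b) Finset.univ_nonempty
  have h1 : ∀ j, |tr (b * (om K j : K))| ≤ 2 ^ c * w₀ b :=
    hc.tr_le b (w₀ b) fun w => hw₀ w (Finset.mem_univ w)
  have h2 : ∀ j, |tr (b * (om K j : K))| ≤ 0 := by
    intro j
    obtain ⟨n, hn⟩ := tr_mem_DD hb (om K j)
    have h3 := (h1 j).trans_lt (h w₀)
    rw [hn] at h3 ⊢
    have h4 : |n| < 1 := by exact_mod_cast h3
    have h5 : n = 0 := Int.abs_lt_one_iff.1 h4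
    rw [h5]
    simp
  have h3 := hc.place_le_tr b 0 h2 w₀
  rw [mul_zero] at h3
  exact (map_eq_zero w₀).1 (le_antisymm h3 (apply_nonneg _ _))

theorem nm_mul (x y : K) : nm (x * y) = nm x * nm y := by
  unfold nm
  rw [map_mul]
  push_cast
  rw [abs_mul]

theorem nm_eq_prod (x : K) : nm x = ∏ w : InfinitePlace K, w x ^ w.mult := by
  rw [InfinitePlace.prod_eq_abs_norm]
  unfold nm
  push_cast
  rfl

theorem sum_mult (K : Type) [Field K] [NumberField K] : ∑ w : InfinitePlace K, w.mult = DK K := by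
  rw [InfinitePlace.sum_mult_eq, Module.finrank_eq_card_basis (integralBasis K)]

theorem one_le_nm {x : 𝓞 K} (hx : x ≠ 0) : 1 ≤ nm (x : K) := by
  unfold nm
  rw [← Algebra.coe_norm_int]
  have h : Algebra.norm ℤ x ≠ 0 := Algebra.norm_ne_zero_iff.2 hx
  have h1 : 1 ≤ |Algebra.norm ℤ x| := Int.one_le_abs h
  exact_mod_cast h1

theorem absNorm_span (x : 𝓞 K) : ((Ideal.span {x}).absNorm : ℝ) = nm (x : K) := by
  rw [Ideal.absNorm_span_singleton]
  unfold nm
  rw [← Algebra.coe_norm_int, Nat.cast_natAbs]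
  push_cast
  rfl

theorem nm_natCast (n : ℕ) : nm ((n : ℕ) : K) = (n : ℝ) ^ DK K := by
  rw [nm_eq_prod, ← sum_mult K, ← Finset.prod_pow_eq_pow_sum]
  refine Finset.prod_congr rfl fun w _ => ?_
  congr 1
  rw [← InfinitePlace.norm_embedding_eq, map_natCast, Complex.norm_natCast]

/-- if all places of `x ≠ 0` are at most `ρ`, then all places are at least `1 / ρ^(D-1)` -/
theorem place_ge {x : 𝓞 K} (hx : x ≠ 0) {ρ : ℝ} (hρ : 1 ≤ ρ)
    (h : ∀ w : InfinitePlace K, w (x : K) ≤ ρ) (w : InfinitePlace K) :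
    1 ≤ w (x : K) * ρ ^ (DK K - 1) := by
  classical
  have h1 := one_le_nm hx
  rw [nm_eq_prod, ← Finset.mul_prod_erase _ _ (Finset.mem_univ w)] at h1
  have hm : 1 ≤ w.mult := by
    unfold InfinitePlace.mult
    split_ifs <;> norm_num
  have h2 : w (x : K) ^ w.mult = w (x : K) * w (x : K) ^ (w.mult - 1) := by
    rw [← pow_succ']
    congr 1
    omega
  rw [h2, mul_assoc] at h1
  refine h1.trans (mul_le_mul_of_nonneg_left ?_ (apply_nonneg _ _))
  have hD : DK K - 1 = (w.mult - 1) + ∑ w' ∈ Finset.univ.erase w, w'.mult := by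
    rw [← sum_mult K, ← Finset.add_sum_erase _ _ (Finset.mem_univ w)]
    omega
  rw [hD, pow_add]
  refine mul_le_mul ?_ ?_ ?_ (by positivity)
  · exact pow_le_pow_left₀ (apply_nonneg _ _) (h w) _
  · rw [← Finset.prod_pow_eq_pow_sum]
    exact Finset.prod_le_prod (fun w' _ => pow_nonneg (apply_nonneg _ _) _)
      (fun w' _ => pow_le_pow_left₀ (apply_nonneg _ _) (h w') _)
  · exact Finset.prod_nonneg fun w' _ => pow_nonneg (apply_nonneg _ _) _

/-- `β = b / r`: then `r` is in the denominator of `β`, whose norm is at most `nm r` -/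
theorem mem_den_div {r : 𝓞 K} {b : K} (hr : r ≠ 0) (hb : b ∈ DD K) : r ∈ den (b / (r : K)) := by
  rw [mem_den]
  have hr' : (r : K) ≠ 0 := by
    intro h
    exact hr (RingOfIntegers.ext h)
  rw [mul_div_cancel₀ _ hr']
  exact hb

theorem den_ne_bot (β : K) : den β ≠ ⊥ := by
  obtain ⟨a, b, hb, rfl⟩ := IsFractionRing.div_surjective (A := 𝓞 K) β
  have hb0 : b ≠ 0 := nonZeroDivisors.ne_zero hb
  intro h
  have h1 := mem_den_div hb0 (coe_mem_DD a)
  have h2 : b ∈ (⊥ : Ideal (𝓞 K)) := h ▸ h1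
  exact hb0 (Ideal.mem_bot.1 h2)

theorem den_eq_top_iff (β : K) : den β = ⊤ ↔ β ∈ DD K := by
  have h1 : ((1 : 𝓞 K) : K) = 1 := map_one (algebraMap (𝓞 K) K)
  rw [Ideal.eq_top_iff_one, mem_den, h1, one_mul]

end Pool.Agent.H366.NK
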