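import Pool.Agent.H366.NK.Base2

/-! # [BASE3] basic facts on slots -/

set_option autoImplicit false

namespace Pool.Agent.H366.NK

open NumberField
open Pool.Agent.H366.GF (Ex ExC)
open Pool.Agent.H366.ZC (e)

variable {K : Type} [Field K] [NumberField K]

namespace Base3N

theorem w_nat (w : InfinitePlace K) (n : ℕ) : w ((n : ℕ) : K) = n := by
  rw [← InfinitePlace.norm_embedding_eq, map_natCast, Complex.norm_natCast]

theorem w_neg (w : InfinitePlace K) (x : K) : w (-x) = w x := w.1.map_neg x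

theorem coe_prod' {ι : Type} (B : Finset ι) (f : ι → 𝓞 K) :
    ((∏ i ∈ B, f i : 𝓞 K) : K) = ∏ i ∈ B, (f i : K) := map_prod (algebraMap (𝓞 K) K) _ _

theorem w_add (w : InfinitePlace K) (x y : K) : w (x + y) ≤ w x + w y := w.1.add_le x y

theorem repr_sum {d : ℕ} (h : JJ K → Fin (2 ^ d)) (j : JJ K) :
    (om K).repr (∑ j, (((h j : ℕ) : 𝓞 K)) * om K j) j = ((h j : ℕ) : ℤ) := by
  have e1 : (∑ j, (((h j : ℕ) : 𝓞 K)) * om K j) = ∑ j, ((h j : ℕ) : ℤ) • om K j := by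
    refine Finset.sum_congr rfl fun j _ => ?_
    rw [zsmul_eq_mul]
    push_cast
    rfl
  rw [e1]
  exact congrFun ((om K).repr_sum_self fun j => ((h j : ℕ) : ℤ)) j

theorem zz_sub_eq {q d : ℕ} {v g : 𝓞 K} (h : JJ K → Fin (2 ^ d)) :
    ((zz q d v g h : 𝓞 K) : K) - (q : K) * 2 ^ d * (g : K) =
      (v : K) + (q : K) * ((∑ j, (((h j : ℕ) : 𝓞 K)) * om K j : 𝓞 K) : K) := by
  unfold zz
  show algebraMap (𝓞 K) K (v + (q : 𝓞 K) * ((2 : 𝓞 K) ^ d * g +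
    ∑ j, (((h j : ℕ) : 𝓞 K)) * om K j)) - (q : K) * 2 ^ d * algebraMap (𝓞 K) K g =
      algebraMap (𝓞 K) K v + (q : K) * algebraMap (𝓞 K) K (∑ j, (((h j : ℕ) : 𝓞 K)) * om K j)
  rw [map_add, map_mul, map_add, map_mul, map_pow, map_natCast, map_ofNat]
  ring

end Base3N

section one

variable {c q γ κ e₀ d : ℕ} {v g : 𝓞 K}

/-- a slot is close to `q 2^d g` -/
theorem zz_sub (hc : Cst K c) (hv : SlotOK c q γ v g) (h : JJ K → Fin (2 ^ d))
    (w : InfinitePlace K) :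
    w (((zz q d v g h : 𝓞 K) : K) - (q : K) * 2 ^ d * (g : K)) ≤ q * 2 ^ (c + d + 1) := by
  rw [Base3N.zz_sub_eq]
  refine (Base3N.w_add w _ _).trans ?_
  rw [map_mul, Base3N.w_nat]
  have h1 := hv.vle w
  have h2 := hc.place_le (∑ j, (((h j : ℕ) : 𝓞 K)) * om K j) (2 ^ d) (fun j => by
    rw [Base3N.repr_sum]
    have : ((h j : ℕ) : ℝ) < 2 ^ d := by exact_mod_cast (h j).2
    rw [abs_of_nonneg (by positivity)]
    push_cast
    exact this.le) w
  have h3 : (q : ℝ) * w ((∑ j, (((h j : ℕ) : 𝓞 K)) * om K j : 𝓞 K) : K) ≤ q * (2 ^ c * 2 ^ d) :=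
    mul_le_mul_of_nonneg_left h2 (Nat.cast_nonneg q)
  have h4 : (1 : ℝ) ≤ 2 ^ d := one_le_pow₀ one_le_two
  have h5 : (0 : ℝ) ≤ q * 2 ^ c := by positivity
  have h6 : (2 : ℝ) ^ c * q ≤ q * (2 ^ c * 2 ^ d) := by nlinarith
  have e1 : (q : ℝ) * 2 ^ (c + d + 1) = q * (2 ^ c * 2 ^ d) + q * (2 ^ c * 2 ^ d) := by
    rw [pow_succ, pow_add]; ring
  rw [e1]
  linarith

theorem Base3N.w_main (w : InfinitePlace K) :
    w ((q : K) * 2 ^ d * (g : K)) = q * 2 ^ d * w (g : K) := by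
  rw [map_mul, map_mul, Base3N.w_nat, map_pow]
  have : w (2 : K) = 2 := by exact_mod_cast Base3N.w_nat w 2
  rw [this]

theorem Base3N.err_le (hv : SlotOK c q γ v g) (w : InfinitePlace K) :
    (q : ℝ) * 2 ^ (c + d + 1) ≤ 1 / 8 * (q * 2 ^ d * w (g : K)) := by
  have h1 := hv.gge w
  have h2 : (0 : ℝ) ≤ (q : ℝ) * 2 ^ d := by positivity
  have h3 := mul_le_mul_of_nonneg_left h1 h2
  have e1 : (q : ℝ) * 2 ^ (c + d + 1) = 1 / 8 * (q * 2 ^ d * 2 ^ (c + 4)) := by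
    rw [pow_add, pow_add, pow_add]; ring
  rw [e1]
  linarith

theorem le_zz (hc : Cst K c) (hv : SlotOK c q γ v g) (h : JJ K → Fin (2 ^ d))
    (w : InfinitePlace K) :
    7 / 8 * (q * 2 ^ d * w (g : K)) ≤ w ((zz q d v g h : 𝓞 K) : K) := by
  have h1 := zz_sub (d := d) hc hv h w
  have h2 := Base3N.err_le (d := d) hv w
  have h3 : w ((q : K) * 2 ^ d * (g : K)) ≤ w ((zz q d v g h : 𝓞 K) : K) +
      w (((zz q d v g h : 𝓞 K) : K) - (q : K) * 2 ^ d * (g : K)) := by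
    have e1 : (q : K) * 2 ^ d * (g : K) = ((zz q d v g h : 𝓞 K) : K) +
      (-(((zz q d v g h : 𝓞 K) : K) - (q : K) * 2 ^ d * (g : K))) := by ring
    calc w ((q : K) * 2 ^ d * (g : K)) = w (((zz q d v g h : 𝓞 K) : K) +
      (-(((zz q d v g h : 𝓞 K) : K) - (q : K) * 2 ^ d * (g : K)))) := by rw [← e1]
      _ ≤ _ := (Base3N.w_add w _ _).trans (by rw [Base3N.w_neg])
  rw [Base3N.w_main] at h3
  linarith

theorem zz_le (hc : Cst K c) (hv : SlotOK c q γ v g) (h : JJ K → Fin (2 ^ d))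
    (w : InfinitePlace K) :
    w ((zz q d v g h : 𝓞 K) : K) ≤ 9 / 8 * (q * 2 ^ d * w (g : K)) := by
  have h1 := zz_sub (d := d) hc hv h w
  have h2 := Base3N.err_le (d := d) hv w
  have h3 : w ((zz q d v g h : 𝓞 K) : K) ≤ w ((q : K) * 2 ^ d * (g : K)) +
      w (((zz q d v g h : 𝓞 K) : K) - (q : K) * 2 ^ d * (g : K)) := by
    have e1 : ((zz q d v g h : 𝓞 K) : K) = (q : K) * 2 ^ d * (g : K) +
      (((zz q d v g h : 𝓞 K) : K) - (q : K) * 2 ^ d * (g : K)) := by ring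
    calc w ((zz q d v g h : 𝓞 K) : K) = w ((q : K) * 2 ^ d * (g : K) +
      (((zz q d v g h : 𝓞 K) : K) - (q : K) * 2 ^ d * (g : K))) := by rw [← e1]
      _ ≤ _ := Base3N.w_add w _ _
  rw [Base3N.w_main] at h3
  linarith

theorem two_le_zz (hc : Cst K c) (hQ : QOK κ q e₀ γ) (hv : SlotOK c q γ v g)
    (h : JJ K → Fin (2 ^ d)) (w : InfinitePlace K) :
    2 ^ d ≤ w ((zz q d v g h : 𝓞 K) : K) := by
  refine le_trans ?_ (le_zz hc hv h w)
  have h1 : (1 : ℝ) ≤ q := by exact_mod_cast hQ.qpos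
  have h2 := hv.gge w
  have h3 : (16 : ℝ) ≤ 2 ^ (c + 4) := by
    rw [pow_add]
    have : (1 : ℝ) ≤ 2 ^ c := one_le_pow₀ one_le_two
    linarith
  have h4 : (16 : ℝ) ≤ w (g : K) := h3.trans h2
  have h5 : (0 : ℝ) < 2 ^ d := by positivity
  have h6 : (16 : ℝ) ≤ q * w (g : K) := by nlinarith
  nlinarith

theorem zz_le_two (hc : Cst K c) (hQ : QOK κ q e₀ γ) (hv : SlotOK c q γ v g)
    (h : JJ K → Fin (2 ^ d)) (w : InfinitePlace K) :
    w ((zz q d v g h : 𝓞 K) : K) ≤ 2 ^ (d + e₀) := by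
  refine (zz_le hc hv h w).trans ?_
  have h1 : ((q : ℝ)) * 2 ^ (γ + 1) ≤ 2 ^ e₀ := by exact_mod_cast hQ.qe
  have h2 := hv.gle w
  have h3 : (0 : ℝ) ≤ q * 2 ^ d := by positivity
  have h4 := mul_le_mul_of_nonneg_left h2 h3
  have h5 : (0 : ℝ) < 2 ^ d := by positivity
  have h6 := mul_le_mul_of_nonneg_left h1 h5.le
  rw [pow_add, pow_succ] at *
  have h7 : (0 : ℝ) ≤ q * 2 ^ d * 2 ^ γ := by positivity
  nlinarith

theorem zz_ne_zero (hc : Cst K c) (hq : 0 < q) (hv : SlotOK c q γ v g)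
    (h : JJ K → Fin (2 ^ d)) : zz q d v g h ≠ 0 := by
  intro h0
  obtain ⟨w⟩ : Nonempty (InfinitePlace K) := inferInstance
  have h1 := le_zz (d := d) hc hv h w
  rw [h0] at h1
  have h2 : (0 : ℝ) < w (g : K) := lt_of_lt_of_le (by positivity) (hv.gge w)
  have h3 : (0 : ℝ) < q := by exact_mod_cast hq
  have h4 : (0 : ℝ) < 7 / 8 * (q * 2 ^ d * w (g : K)) := by positivity
  have h5 : w ((0 : 𝓞 K) : K) = 0 := by
    rw [show ((0 : 𝓞 K) : K) = 0 from rfl, map_zero]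
  rw [h5] at h1
  linarith

theorem zz_cop (hv : SlotOK c q γ v g) (h : JJ K → Fin (2 ^ d)) :
    IsCoprime (zz q d v g h) (q : 𝓞 K) := hv.cop.add_mul_left_left _

theorem zz_inj (hq : 0 < q) {h h' : JJ K → Fin (2 ^ d)}
    (hz : zz q d v g h = zz q d v g h') : h = h' := by
  unfold zz at hz
  have hq0 : (q : 𝓞 K) ≠ 0 := by exact_mod_cast hq.ne'
  have h1 := add_left_cancel (mul_left_cancel₀ hq0 (add_left_cancel hz))
  funext j
  have h2 := congrArg (fun x => (om K).repr x j) h1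
  simp only [Base3N.repr_sum] at h2
  exact Fin.ext (by exact_mod_cast h2)

/-- a prime ideal containing a slot has norm at least `2^κ` -/
theorem absNorm_ge (hQ : QOK κ q e₀ γ) {x : 𝓞 K} (hx : IsCoprime x (q : 𝓞 K))
    {P : Ideal (𝓞 K)} (hP : P.IsPrime) (hP0 : P ≠ ⊥) (hxP : x ∈ P) : 2 ^ κ ≤ P.absNorm := by
  have hN0 : P.absNorm ≠ 0 := by
    rw [Ne, Ideal.absNorm_eq_zero_iff]
    exact hP0
  have hmem : ((P.absNorm : ℕ) : 𝓞 K) ∈ P := Ideal.absNorm_mem P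
  -- a prime factor of the norm in `P`
  have key : ∀ n : ℕ, n ≠ 0 → ((n : ℕ) : 𝓞 K) ∈ P → ∃ p : ℕ, p.Prime ∧ p ∣ n ∧ ((p : ℕ) : 𝓞 K) ∈ P := by
    intro n
    induction n using Nat.recOnMul with
    | zero => intro h; exact absurd rfl h
    | one =>
      intro _ h
      rw [Nat.cast_one] at h
      exact absurd ((Ideal.eq_top_iff_one P).mpr h) hP.ne_top
    | prime p hp => intro _ h; exact ⟨p, hp, dvd_rfl, h⟩
    | mul a b iha ihb =>
      intro h0 h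
      rw [Nat.cast_mul] at h
      have ha : a ≠ 0 := left_ne_zero_of_mul h0
      have hb : b ≠ 0 := right_ne_zero_of_mul h0
      rcases hP.mem_or_mem h with h | h
      · obtain ⟨p, hp, hd, hm⟩ := iha ha h
        exact ⟨p, hp, hd.mul_right b, hm⟩
      · obtain ⟨p, hp, hd, hm⟩ := ihb hb h
        exact ⟨p, hp, hd.mul_left a, hm⟩
  obtain ⟨p, hp, hd, hm⟩ := key _ hN0 hmem
  refine le_trans ?_ (Nat.le_of_dvd (Nat.pos_of_ne_zero hN0) hd)
  by_contra hlt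
  push Not at hlt
  obtain ⟨r, hr⟩ := hQ.small p hp hlt
  have hqP : (q : 𝓞 K) ∈ P := by
    rw [hr, Nat.cast_mul]
    exact P.mul_mem_right _ hm
  obtain ⟨a, b, hab⟩ := hx
  apply hP.ne_top
  rw [Ideal.eq_top_iff_one, ← hab]
  exact P.add_mem (P.mul_mem_left _ hxP) (P.mul_mem_left _ hqP)

end one

section many

variable {s c q γ κ e₀ d : ℕ} {v g : Fin s → 𝓞 K}

theorem prod_zz_le (hc : Cst K c) (hQ : QOK κ q e₀ γ) (hv : ∀ i, SlotOK c q γ (v i) (g i))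
    (z : Fin s → JJ K → Fin (2 ^ d)) (B : Finset (Fin s)) (w : InfinitePlace K) :
    w (((∏ i ∈ B, zz q d (v i) (g i) (z i) : 𝓞 K)) : K) ≤ 2 ^ (B.card * (d + e₀)) := by
  rw [Base3N.coe_prod', map_prod, mul_comm B.card, pow_mul]
  refine (Finset.prod_le_prod (fun i _ => apply_nonneg w _)
    (fun i _ => zz_le_two hc hQ (hv i) (z i) w)).trans ?_
  rw [Finset.prod_const]

theorem le_prod_zz (hc : Cst K c) (hQ : QOK κ q e₀ γ) (hv : ∀ i, SlotOK c q γ (v i) (g i))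
    (z : Fin s → JJ K → Fin (2 ^ d)) (B : Finset (Fin s)) (w : InfinitePlace K) :
    2 ^ (B.card * d) ≤ w (((∏ i ∈ B, zz q d (v i) (g i) (z i) : 𝓞 K)) : K) := by
  rw [Base3N.coe_prod', map_prod, mul_comm B.card, pow_mul, ← Finset.prod_const]
  exact Finset.prod_le_prod (fun i _ => by positivity)
    (fun i _ => two_le_zz hc hQ (hv i) (z i) w)

theorem prod_zz_cop (hv : ∀ i, SlotOK c q γ (v i) (g i))
    (z : Fin s → JJ K → Fin (2 ^ d)) (B : Finset (Fin s)) :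
    IsCoprime (∏ i ∈ B, zz q d (v i) (g i) (z i)) (q : 𝓞 K) :=
  IsCoprime.prod_left fun i _ => zz_cop (hv i) (z i)

theorem prod_zz_ne_zero (hc : Cst K c) (hq : 0 < q) (hv : ∀ i, SlotOK c q γ (v i) (g i))
    (z : Fin s → JJ K → Fin (2 ^ d)) (B : Finset (Fin s)) :
    ∏ i ∈ B, zz q d (v i) (g i) (z i) ≠ 0 :=
  Finset.prod_ne_zero_iff.mpr fun i _ => zz_ne_zero hc hq (hv i) (z i)

theorem dvd_prod_zz (v g : Fin s → 𝓞 K) (z : Fin s → JJ K → Fin (2 ^ d)) (B : Finset (Fin s)) :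
    (q : 𝓞 K) ∣ ∏ i ∈ B, zz q d (v i) (g i) (z i) - ∏ i ∈ B, v i := by
  classical
  induction B using Finset.induction_on with
  | empty => simp
  | insert a B ha ih =>
    rw [Finset.prod_insert ha, Finset.prod_insert ha]
    have h1 : (q : 𝓞 K) ∣ zz q d (v a) (g a) (z a) - v a := by
      unfold zz
      rw [add_sub_cancel_left]
      exact dvd_mul_right _ _
    have e1 : zz q d (v a) (g a) (z a) * ∏ i ∈ B, zz q d (v i) (g i) (z i) - v a * ∏ i ∈ B, v i =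
        zz q d (v a) (g a) (z a) * (∏ i ∈ B, zz q d (v i) (g i) (z i) - ∏ i ∈ B, v i) +
          (zz q d (v a) (g a) (z a) - v a) * ∏ i ∈ B, v i := by ring
    rw [e1]
    exact dvd_add (ih.mul_left _) (h1.mul_right _)

/-- `(M ∏ z - M ∏ v) / q` is an integer -/
theorem ff_int (hq : 0 < q) (M : 𝓞 K) (v g : Fin s → 𝓞 K) (z : Fin s → JJ K → Fin (2 ^ d)) :
    ∃ x : 𝓞 K, (x : K) = ff q d M v g z ∧
      M * ∏ i, zz q d (v i) (g i) (z i) = M * ∏ i, v i + (q : 𝓞 K) * x := by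
  obtain ⟨y, hy⟩ := dvd_prod_zz (q := q) v g z Finset.univ
  have hq0 : (q : K) ≠ 0 := by exact_mod_cast hq.ne'
  have e1 : M * ∏ i, zz q d (v i) (g i) (z i) - M * ∏ i, v i = (q : 𝓞 K) * (M * y) := by
    rw [← mul_sub, hy]; ring
  refine ⟨M * y, ?_, ?_⟩
  · unfold ff
    rw [e1, eq_div_iff hq0]
    push_cast
    ring
  · rw [← e1]; ring

end many

end Pool.Agent.H366.NK
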