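import Pool.Agent.H366.NK.Base

/-!
# Cells, residues, slots, multipliers: definitions

The cells are the integers `g` of `K` with `|log w(g) - log u| ≤ Θ` for all infinite places `w`; the
cell `g` occurs with the multiplicity `⌊H₀ / N(g)⌋`. A slot is `(residue, cell, h)`. The multipliers
are `m₀ ∏ α_i ^ (f₀ i)`, `m₁ ∏ β_i ^ (f₁ i)`, `m₂`. The weights are normalized by the density
`rhoq` of the solutions modulo `q`, and restricted by the condition `TC` on the cells: the quotient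
of the two summands is close to `τ`.
-/

set_option autoImplicit false

namespace Pool.Agent.H366.NK

open NumberField
open NumberField.mixedEmbedding (mixedSpace normAtPlace)
open Pool.Agent.H366.GF (Ex ExC)

/-- all the places of `y` are between `u exp(-Θ)` and `u exp(Θ)` -/
def InBox {K : Type} [Field K] [NumberField K] (u Θ : ℝ) (y : mixedSpace K) : Prop :=
  ∀ w : InfinitePlace K, normAtPlace w y ≠ 0 ∧ |Real.log (normAtPlace w y) - Real.log u| ≤ Θ

section K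

variable (K : Type) [Field K] [NumberField K]

noncomputable instance : DecidableEq (InfinitePlace K) := Classical.decEq _

open Classical in
/-- the set of the cells -/
noncomputable def cellSet (u Θ : ℝ) : Finset (𝓞 K) :=
  if h : {g : 𝓞 K | InBox u Θ (mixedEmbedding K (g : K))}.Finite then h.toFinset else ∅

/-- the cells with multiplicities -/
def Cell (u Θ : ℝ) (H₀ : ℕ) : Type :=
  Σ g : {g : 𝓞 K // g ∈ cellSet K u Θ}, Fin ⌊(H₀ : ℝ) / nm ((g : 𝓞 K) : K)⌋₊

noncomputable instance (u Θ : ℝ) (H₀ : ℕ) : Fintype (Cell K u Θ H₀) := by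
  unfold Cell
  infer_instance

variable {K} in
/-- the cell -/
def cg {u Θ : ℝ} {H₀ : ℕ} (j : Cell K u Θ H₀) : 𝓞 K := j.1.1

/-- `H₀ / number of cells` -/
noncomputable def kJ (u Θ : ℝ) (H₀ : ℕ) : ℝ := (H₀ : ℝ) / (Fintype.card (Cell K u Θ H₀) : ℝ)

/-- the invertible residues modulo `q` -/
def Uq (q : ℕ) : Type :=
  {v : JJ K → Fin q // IsCoprime (el fun j => ((v j : ℕ) : ℤ)) (q : 𝓞 K)}

open Classical in
noncomputable instance (q : ℕ) : Fintype (Uq K q) := by
  unfold Uq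
  infer_instance

variable {K} in
/-- the representative of a residue -/
noncomputable def rv {q : ℕ} (v : Uq K q) : 𝓞 K := el fun j => ((v.1 j : ℕ) : ℤ)

/-- the slots -/
abbrev Slot (u Θ : ℝ) (H₀ q d : ℕ) : Type := Uq K q × Cell K u Θ H₀ × (JJ K → Fin (2 ^ d))

variable {K}

open Classical in
/-- the density of the solutions modulo `q` -/
noncomputable def rhoq (q : ℕ) (M : Fin 3 → 𝓞 K) : ℝ :=
  Ex fun p : Uq K q × Uq K q =>
    if (q : 𝓞 K) ∣ M 0 * rv p.1 - (M 1 * rv p.2 + M 2) then 1 else 0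

/-- the condition on the cells: `M₁ ∏ g₁ / (M₂ ∏ g₂)` is close to `τ` -/
def TC {s : ℕ} (τ : mixedSpace K) (ρ : ℝ) (M : Fin 3 → 𝓞 K) (g : Fin 3 → Fin s → 𝓞 K) : Prop :=
  ∀ w : InfinitePlace K, normAtPlace w (mixedEmbedding K
    ((((M 1 * ∏ i, g 1 i : 𝓞 K)) : K) / ((M 2 * ∏ i, g 2 i : 𝓞 K) : K)) - τ) ≤
      ρ * normAtPlace w τ

/-- change of the entry `X`, `i` -/
def upd {A : Type} {s : ℕ} (f : Fin 3 → Fin s → A) (X : Fin 3) (i : Fin s) (a : A) :
    Fin 3 → Fin s → A := Function.update f X (Function.update (f X) i a)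

/-- the multipliers -/
noncomputable def MM {N : ℕ} (m : Fin 3 → 𝓞 K) (α β : InfinitePlace K → 𝓞 K)
    (f : (InfinitePlace K → Fin (2 * N + 1)) × (InfinitePlace K → Fin (2 * N + 1))) :
    Fin 3 → 𝓞 K :=
  ![m 0 * ∏ i, α i ^ (f.1 i : ℕ), m 1 * ∏ i, β i ^ (f.2 i : ℕ), m 2]

section slots

variable {u Θ : ℝ} {H₀ q d s : ℕ}

/-- residues of slots -/
noncomputable def sv (z : Fin 3 → Fin s → Slot K u Θ H₀ q d) : Fin 3 → Fin s → 𝓞 K :=
  fun X i => rv (z X i).1

/-- cells of slots -/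
def sg (z : Fin 3 → Fin s → Slot K u Θ H₀ q d) : Fin 3 → Fin s → 𝓞 K :=
  fun X i => cg (z X i).2.1

/-- last components of slots -/
def sh (z : Fin 3 → Fin s → Slot K u Θ H₀ q d) : Fin 3 → Fin s → JJ K → Fin (2 ^ d) :=
  fun X i => (z X i).2.2

open Classical in
/-- the normalized weight -/
noncomputable def Wf (τ : mixedSpace K) (ρ : ℝ) (M : Fin 3 → 𝓞 K)
    (z : Fin 3 → Fin s → Slot K u Θ H₀ q d) : ℝ :=
  if TC τ ρ M (sg z) then Wt s q d M (sv z) (sg z) (sh z) / rhoq q M else 0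

open Classical in
/-- the normalized smooth weight -/
noncomputable def Wm (K' : ℕ) (τ : mixedSpace K) (ρ : ℝ) (M : Fin 3 → 𝓞 K)
    (z : Fin 3 → Fin s → Slot K u Θ H₀ q d) : ℝ :=
  if Rel s q M (sv z) ∧ TC τ ρ M (sg z) then Ws s q d K' M (sv z) (sg z) (sh z) / rhoq q M
  else 0

end slots

/-- the condition on the base multipliers: for the exponents `N` the three multipliers have
comparable sizes -/
def BaseOK (N : ℕ) (R₀ : ℝ) (m : Fin 3 → 𝓞 K) (α β : InfinitePlace K → 𝓞 K) : Prop :=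
  ∀ w : InfinitePlace K,
    |Real.log (w ((m 1 * ∏ i, β i ^ N : 𝓞 K) : K)) -
      Real.log (w ((m 0 * ∏ i, α i ^ N : 𝓞 K) : K))| ≤ R₀ ∧
    |Real.log (w (m 2 : K)) - Real.log (w ((m 0 * ∏ i, α i ^ N : 𝓞 K) : K))| ≤ R₀

/-- the conditions on the multipliers (`Ctx` without `ratio`, and more) -/
structure Ctx0 (κ μ q e₀ γ : ℕ) (M : Fin 3 → 𝓞 K) : Prop extends QOK κ q e₀ γ where
  smooth : ∀ X (P : Ideal (𝓞 K)), P.IsPrime → M X ∈ P → (q : 𝓞 K) ∈ P
  Mge : ∀ X (w : InfinitePlace K), 1 ≤ w (M X : K)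
  Mle : ∀ X (w : InfinitePlace K), w (M X : K) ≤ 2 ^ μ
  cop : ∀ X Y, X ≠ Y → IsCoprime (M X) (M Y)
  two : ∀ P : Ideal (𝓞 K), P.IsPrime → P.absNorm = 2 → ∃ X, M X ∈ P

/-- the logarithms of the `α i` are linearly independent -/
def LogInd (α : InfinitePlace K → 𝓞 K) : Prop :=
  (∀ i, α i ≠ 0) ∧
    LinearIndependent ℝ fun i : InfinitePlace K =>
      (fun w : InfinitePlace K => Real.log (w (α i : K)))

/-- the target `τ` -/
def TauOK (R₀ : ℝ) (τ : mixedSpace K) : Prop :=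
  ∀ w : InfinitePlace K, normAtPlace w τ ≠ 0 ∧ normAtPlace w (1 + τ) ≠ 0 ∧
    |Real.log (normAtPlace w τ)| ≤ R₀ ∧ |Real.log (normAtPlace w (1 + τ))| ≤ R₀

end K

end Pool.Agent.H366.NK
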