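import Pool.Agent.H366.NK.ZagDefs
import Pool.Agent.H366.ZC.TS2

/-! # [ZAG1] the functionals on Zagier's groups -/

set_option autoImplicit false
set_option linter.unusedSectionVars false

namespace Pool.Agent.H366.NK

open NumberField
open H39Gon (UV cl)
open Pool.Agent.H366.ZC.MotN (Hm)

namespace Zag1N

open Pool.Agent.H366.ZC.MotN (mk2 mk2_apply mkM mkM_apply)
open scoped TensorProduct

/-! ### the polylogarithms and the complex conjugation -/

theorem PLc_conj (k : ℕ) (z : ℂ) :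
    PLc k ((starRingEnd ℂ) z) = (starRingEnd ℂ) (PLc k z) := by
  unfold PLc
  rw [Complex.conj_tsum]
  refine tsum_congr fun m => ?_
  rw [map_div₀, map_pow, map_pow, map_add, map_one, Complex.conj_natCast]

theorem SVz_conj (n : ℕ) (z : ℂ) :
    SVz n ((starRingEnd ℂ) z) = (starRingEnd ℂ) (SVz n z) := by
  unfold SVz
  rw [map_sum]
  refine Finset.sum_congr rfl fun k _ => ?_
  rw [map_mul, Complex.conj_ofReal, PLc_conj, Complex.norm_conj]

theorem SVc_conj (n : ℕ) (z : ℂ) :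
    SVc n ((starRingEnd ℂ) z) = (-1) ^ (n + 1) * SVc n z := by
  unfold SVc
  rw [SVz_conj]
  split_ifs with h
  · rw [Complex.conj_re, (h.add_one).neg_one_pow, one_mul]
  · rw [Complex.conj_im, ((Nat.not_odd_iff_even.1 h).add_one).neg_one_pow, neg_one_mul]

/-! ### linear algebra -/

/-- functionals which factor through a linear map -/
theorem factorK {k : Type} [Field k] {A B Y : Type} [AddCommGroup A] [Module k A] [AddCommGroup B]
    [Module k B] [AddCommGroup Y] [Module k Y] (D : A →ₗ[k] B) (L : A →ₗ[k] Y)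
    (h : ∀ a, D a = 0 → L a = 0) : ∃ θ : B →ₗ[k] Y, ∀ a, θ (D a) = L a := by
  have h1 : LinearMap.ker D ≤ LinearMap.ker L := fun a ha => h a ha
  let L' : (A ⧸ LinearMap.ker D) →ₗ[k] Y := (LinearMap.ker D).liftQ L h1
  let D' : (A ⧸ LinearMap.ker D) →ₗ[k] B := (LinearMap.ker D).liftQ D le_rfl
  have h2 : LinearMap.ker D' = ⊥ := Submodule.ker_liftQ_eq_bot _ _ _ le_rfl
  obtain ⟨g, hg⟩ := D'.exists_leftInverse_of_injective h2
  refine ⟨L' ∘ₗ g, fun a => ?_⟩
  have h3 := LinearMap.congr_fun hg ((LinearMap.ker D).mkQ a)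
  change g (D a) = (LinearMap.ker D).mkQ a at h3
  change L' (g (D a)) = L a
  rw [h3]
  rfl

/-- real coordinates of functionals -/
theorem fd_ext {k : Type} [Field k] [Algebra k ℝ] {V P Y : Type} [AddCommGroup V] [Module k V]
    [Fintype P] [AddCommGroup Y]
    [Module k Y] [Module ℝ Y] [IsScalarTower k ℝ Y] (reg : V →ₗ[k] (P → ℝ))
    (h : ∀ (m : ℕ) (a : Fin m → V), LinearIndependent k a →
      LinearIndependent ℝ fun i => reg (a i))
    (l : V →ₗ[k] Y) : ∃ y : P → Y, ∀ a, l a = ∑ w, reg a w • y w := by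
  classical
  let b := Module.Basis.ofVectorSpace k V
  have hb : LinearIndependent ℝ fun i => reg (b i) := by
    rw [linearIndependent_iff_finset_linearIndependent]
    intro s
    have h1 : LinearIndependent k (fun i : Fin s.card => b (s.equivFin.symm i : _)) :=
      b.linearIndependent.comp (fun i : Fin s.card => ((s.equivFin.symm i : s) : _))
        (Subtype.val_injective.comp s.equivFin.symm.injective)
    have h2 := h _ _ h1
    have h3 := h2.comp s.equivFin s.equivFin.injective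
    convert h3 using 1
    funext i
    simp
  have hinj : LinearMap.ker (Finsupp.linearCombination ℝ fun i => reg (b i)) = ⊥ :=
    LinearMap.ker_eq_bot.2 hb
  obtain ⟨g, hg⟩ := (Finsupp.linearCombination ℝ fun i => reg (b i)).exists_leftInverse_of_injective
    hinj
  let T : (P → ℝ) →ₗ[ℝ] Y := (Finsupp.linearCombination ℝ fun i => l (b i)) ∘ₗ g
  have hT : ∀ i, T (reg (b i)) = l (b i) := by
    intro i
    have h1 : Finsupp.linearCombination ℝ (fun i => reg (b i)) (Finsupp.single i 1) =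
        reg (b i) := by
      rw [Finsupp.linearCombination_single, one_smul]
    change (Finsupp.linearCombination ℝ fun i => l (b i)) (g (reg (b i))) = _
    rw [← h1]
    have h2 := LinearMap.congr_fun hg (Finsupp.single i 1)
    change g _ = Finsupp.single i 1 at h2
    rw [h2, Finsupp.linearCombination_single, one_smul]
  refine ⟨fun w => T (Pi.single w 1), fun a => ?_⟩
  have h1 : l = (T.restrictScalars k) ∘ₗ reg := by
    refine b.ext fun i => ?_
    change l (b i) = T (reg (b i))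
    rw [hT]
  rw [h1]
  change T (reg a) = _
  conv_lhs => rw [pi_eq_sum_univ' (reg a)]
  rw [map_sum]
  refine Finset.sum_congr rfl fun w _ => ?_
  rw [map_smul]

/-- sums over `Ess` -/
theorem sum_Ess {F : Type} [Field F] [NumberField F] {Y : Type} [AddCommMonoid Y] (N : ℕ) (G : ℕ → InfinitePlace F → Y)
    (hG : ∀ n w, ¬ (Odd n ∨ w.IsComplex) → G n w = 0) :
    ∑ j : Ess F N, G (j.1.1 : ℕ) j.1.2 = ∑ n ∈ Finset.Icc 2 N, ∑ w, G n w := by
  classical
  have h1 : ∑ p : Fin (N + 1) × InfinitePlace F with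
      (2 ≤ (p.1 : ℕ) ∧ (Odd (p.1 : ℕ) ∨ p.2.IsComplex)), G (p.1 : ℕ) p.2 =
      ∑ j : Ess F N, G (j.1.1 : ℕ) j.1.2 :=
    Finset.sum_subtype (p := fun p : Fin (N + 1) × InfinitePlace F =>
      2 ≤ (p.1 : ℕ) ∧ (Odd (p.1 : ℕ) ∨ p.2.IsComplex)) (F := (inferInstance : Fintype (Ess F N)))
      _ (fun p => by simp) (fun p => G (p.1 : ℕ) p.2)
  rw [← h1, Finset.sum_filter, Fintype.sum_prod_type]
  have h2 : Finset.Icc 2 N = (Finset.range (N + 1)).filter (fun n => 2 ≤ n) := by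
    ext n
    rw [Finset.mem_Icc, Finset.mem_filter, Finset.mem_range]
    omega
  rw [h2, Finset.sum_filter, Finset.sum_range]
  refine Finset.sum_congr rfl fun n _ => ?_
  by_cases hn : 2 ≤ (n : ℕ)
  · rw [if_pos hn]
    refine Finset.sum_congr rfl fun w _ => ?_
    by_cases hw : Odd (n : ℕ) ∨ w.IsComplex
    · rw [if_pos ⟨hn, hw⟩]
    · rw [if_neg (fun h => hw h.2), hG _ _ hw]
  · rw [if_neg hn]
    refine Finset.sum_eq_zero fun w _ => ?_
    rw [if_neg (fun h => hn h.1)]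

section K

variable {k : Type} [Field k] [Algebra k ℝ] {F : Type} [Field F] [NumberField F]
  {R : ℕ → Submodule k (F →₀ k)}

omit [Algebra k ℝ] in
theorem clk_eq (x : F) : clk k x = (1 : k) ⊗ₜ[ℤ] cl x := by
  unfold clk cl
  split_ifs with h
  · rw [TensorProduct.tmul_zero]
  · rfl


theorem Lsum_single (n : ℕ) (σ : F →+* ℂ) (x : F) :
    Lsum k F n σ (Finsupp.single x 1) = Lcal n (σ x) := by
  unfold Lsum
  rw [Finsupp.linearCombination_single, one_smul]

/-- the coordinates of a functional which vanishes on the relations, on `ker δ_n` -/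
theorem exists_y (n : ℕ) (hn : 2 ≤ n) (hR : KR k F R n ⊓ LinearMap.ker (regZ k F n) ≤ R n)
    (hb : ∀ (m : ℕ) (a : Fin m → (F →₀ k)),
      (∀ i, a i ∈ KR k F R n) → LinearIndependent k (fun i => regZ k F n (a i)) →
      LinearIndependent ℝ (fun i => regZ k F n (a i)))
    {Y : Type} [AddCommGroup Y] [Module k Y] [Module ℝ Y] [IsScalarTower k ℝ Y] (g : (F →₀ k) →ₗ[k] Y)
    (hg : ∀ ξ ∈ R n, g ξ = 0) : ∃ y : Pl F n → Y, ∀ ξ ∈ KR k F R n,
      g ξ = ∑ w, regZ k F n ξ w • y w := by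
  obtain ⟨θ, hθ⟩ := factorK ((regZ k F n) ∘ₗ (KR k F R n).subtype) (g ∘ₗ (KR k F R n).subtype)
    (fun (a : KR k F R n) ha => hg _ (hR (Submodule.mem_inf.2 ⟨a.2, ha⟩)))
  let V : Submodule k (Pl F n → ℝ) := LinearMap.range ((regZ k F n) ∘ₗ (KR k F R n).subtype)
  obtain ⟨y, hy⟩ := fd_ext V.subtype (fun m a ha => by
    have h1 : ∀ i, ∃ c : KR k F R n, regZ k F n (c : F →₀ k) = (a i : Pl F n → ℝ) := fun i => (a i).2
    choose c hc using h1
    have h2 : LinearIndependent k fun i => (a i : Pl F n → ℝ) :=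
      ha.map' V.subtype (LinearMap.ker_eq_bot.2 Subtype.val_injective)
    have h3 := hb m (fun i => (c i : F →₀ k)) (fun i => (c i).2) (by
      simp only [hc]
      exact h2)
    simp only [hc] at h3
    exact h3) (θ ∘ₗ V.subtype)
  refine ⟨y, fun ξ hξ => ?_⟩
  have h1 : θ (regZ k F n ξ) = g ξ := hθ ⟨ξ, hξ⟩
  have h2 : θ (regZ k F n ξ) = ∑ w, regZ k F n ξ w • y w := hy ⟨regZ k F n ξ, ⟨⟨ξ, hξ⟩, rfl⟩⟩
  rw [← h1, h2]

/-- the version with all places -/
theorem exists_y' (n : ℕ) (hn : 2 ≤ n) (hR : KR k F R n ⊓ LinearMap.ker (regZ k F n) ≤ R n)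
    (hb : ∀ (m : ℕ) (a : Fin m → (F →₀ k)),
      (∀ i, a i ∈ KR k F R n) → LinearIndependent k (fun i => regZ k F n (a i)) →
      LinearIndependent ℝ (fun i => regZ k F n (a i)))
    {Y : Type} [AddCommGroup Y] [Module k Y] [Module ℝ Y] [IsScalarTower k ℝ Y] (g : (F →₀ k) →ₗ[k] Y)
    (hg : ∀ ξ ∈ R n, g ξ = 0) : ∃ (y : InfinitePlace F → Y) (h : (F →₀ k) →ₗ[k] Y),
      (∀ w, ¬ (Odd n ∨ w.IsComplex) → y w = 0) ∧ (∀ ξ ∈ KR k F R n, h ξ = 0) ∧
      ∀ ξ, g ξ = h ξ + ∑ w, Lsum k F n w.embedding ξ • y w := by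
  classical
  obtain ⟨y, hy⟩ := exists_y n hn hR hb g hg
  let y' : InfinitePlace F → Y := fun w => if h : Odd n ∨ w.IsComplex then y ⟨w, h⟩ else 0
  have hsum : ∀ c : InfinitePlace F → ℝ, ∑ w, c w • y' w = ∑ w : Pl F n, c w.1 • y w := by
    intro c
    have h1 : ∑ w, c w • y' w = ∑ w with (Odd n ∨ w.IsComplex), c w • y' w := by
      symm
      refine Finset.sum_subset (Finset.filter_subset _ _) fun w _ hw => ?_
      have h2 : ¬ (Odd n ∨ w.IsComplex) := fun h => hw (Finset.mem_filter.2 ⟨Finset.mem_univ _, h⟩)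
      change c w • (if h : Odd n ∨ w.IsComplex then y ⟨w, h⟩ else 0) = 0
      rw [dif_neg h2, smul_zero]
    have h3 : ∑ w with (Odd n ∨ w.IsComplex), c w • y' w = ∑ w : Pl F n, c w.1 • y' w.1 :=
      Finset.sum_subtype (p := fun w : InfinitePlace F => Odd n ∨ w.IsComplex)
        (F := (inferInstance : Fintype (Pl F n))) _ (fun w => by simp) _
    rw [h1, h3]
    refine Finset.sum_congr rfl fun w _ => ?_
    change c w.1 • (if h : Odd n ∨ w.1.IsComplex then y ⟨w.1, h⟩ else 0) = _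
    rw [dif_pos w.2]
  let κ : (F →₀ k) →ₗ[k] Y :=
    { toFun := fun c => g c - ∑ w, Lsum k F n w.embedding c • y' w
      map_add' := fun c c' => by
        simp only [map_add, add_smul, Finset.sum_add_distrib]
        abel
      map_smul' := fun r c => by
        simp only [map_smul, RingHom.id_apply, smul_sub, Finset.smul_sum, smul_assoc] }
  refine ⟨y', κ, fun w hw => ?_, fun ξ hξ => ?_, fun ξ => ?_⟩
  · change (if h : Odd n ∨ w.IsComplex then y ⟨w, h⟩ else 0) = 0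
    rw [dif_neg hw]
  · change g ξ - ∑ w, Lsum k F n w.embedding ξ • y' w = 0
    rw [hsum, hy ξ hξ]
    exact sub_self _
  · change g ξ = g ξ - ∑ w, Lsum k F n w.embedding ξ • y' w + _
    rw [sub_add_cancel]

theorem two_form {Y : Type} [AddCommGroup Y] [Module k Y] (g : (F →₀ k) →ₗ[k] Y)
    (hg : ∀ ξ ∈ KR k F R 2, g ξ = 0) : ∃ p : UV F → (UV F →ₗ[ℤ] Y), Hm 1 p ∧
      ∀ x : F, x ≠ 0 → g (Finsupp.single x 1) = p (cl x) (cl (1 - x)) := by
  obtain ⟨Θ, hΘ⟩ := factorK (dZ2 k F) g (fun a ha => hg a ha)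
  let B : UV F →ₗ[ℤ] (UV F →ₗ[ℤ] Y) := mk2 (fun s v => Θ (ExteriorAlgebra.ι k ((1 : k) ⊗ₜ[ℤ] v) *
      ExteriorAlgebra.ι k ((1 : k) ⊗ₜ[ℤ] s)))
      (fun x y z => by
        rw [TensorProduct.tmul_add, map_add, mul_add, map_add])
      (fun x y z => by
        rw [TensorProduct.tmul_add, map_add, add_mul, map_add])
  refine ⟨fun s => B s, ?_, fun x hx => ?_⟩
  · refine ⟨mkM (fun s => B (s 0)) ?_, fun s => rfl⟩
    intro s i x y
    obtain rfl : i = 0 := Subsingleton.elim (α := Fin 1) _ _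
    simp only [Function.update_self, map_add]
  · rw [← hΘ]
    change Θ (dZ2 k F (Finsupp.single x 1)) = Θ (ExteriorAlgebra.ι k ((1 : k) ⊗ₜ[ℤ] (cl (1 - x))) *
      ExteriorAlgebra.ι k ((1 : k) ⊗ₜ[ℤ] (cl x)))
    unfold dZ2
    rw [Finsupp.linearCombination_single, one_smul, clk_eq,
      clk_eq]

theorem succ_form (n : ℕ) (hn : 2 ≤ n) {Y : Type} [AddCommGroup Y] [Module k Y]
    (g : (F →₀ k) →ₗ[k] Y) (hg : ∀ ξ ∈ KR k F R (n + 1), g ξ = 0) :
    ∃ g' : (F →₀ k) →ₗ[k] (UV F →ₗ[ℤ] Y), (∀ ξ ∈ R n, g' ξ = 0) ∧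
      ∀ x : F, x ≠ 0 → g (Finsupp.single x 1) = g' (Finsupp.single x 1) (cl x) := by
  obtain ⟨r, rfl⟩ : ∃ r, n = r + 2 := ⟨n - 2, by omega⟩
  obtain ⟨Θ, hΘ⟩ := factorK (dZ k F (R (r + 2))) g (fun a ha => hg a ha)
  let g' : (F →₀ k) →ₗ[k] (UV F →ₗ[ℤ] Y) :=
    { toFun := fun ξ => (AddMonoidHom.mk' (fun s : UV F => Θ ((R (r + 2)).mkQ ξ ⊗ₜ[k]
        ((1 : k) ⊗ₜ[ℤ] s))) (fun s s' => by
          rw [TensorProduct.tmul_add, TensorProduct.tmul_add, map_add])).toIntLinearMap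
      map_add' := fun ξ ξ' => by
        ext s
        change Θ _ = Θ _ + Θ _
        rw [map_add, TensorProduct.add_tmul, map_add]
      map_smul' := fun q ξ => by
        ext s
        change Θ _ = q • Θ _
        rw [map_smul, ← TensorProduct.smul_tmul', map_smul] }
  refine ⟨g', fun ξ hξ => ?_, fun x hx => ?_⟩
  · ext s
    change Θ ((R (r + 2)).mkQ ξ ⊗ₜ[k] ((1 : k) ⊗ₜ[ℤ] s)) = 0
    have h1 : (R (r + 2)).mkQ ξ = 0 := (Submodule.Quotient.mk_eq_zero _).2 hξ
    rw [h1, TensorProduct.zero_tmul, map_zero]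
  · rw [← hΘ]
    change Θ (dZ k F (R (r + 2)) (Finsupp.single x 1)) = Θ ((R (r + 2)).mkQ (Finsupp.single x 1) ⊗ₜ[k]
      ((1 : k) ⊗ₜ[ℤ] (cl x)))
    unfold dZ
    rw [Finsupp.linearCombination_single, one_smul, clk_eq]

theorem repZ' (m : ℕ)
    (hR : ∀ n, 2 ≤ n → n ≤ m + 2 → KR k F R n ⊓ LinearMap.ker (regZ k F n) ≤ R n)
    (hb : ∀ n, 2 ≤ n → n ≤ m + 2 → ∀ (r : ℕ) (a : Fin r → (F →₀ k)),
      (∀ i, a i ∈ KR k F R n) → LinearIndependent k (fun i => regZ k F n (a i)) →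
      LinearIndependent ℝ (fun i => regZ k F n (a i))) :
    ∀ {Y : Type} [AddCommGroup Y] [Module k Y] [Module ℝ Y] [IsScalarTower k ℝ Y] (g : (F →₀ k) →ₗ[k] Y),
    (∀ ξ ∈ R (m + 2), g ξ = 0) →
    ∃ (p : UV F → (UV F →ₗ[ℤ] Y)) (f : ℕ → InfinitePlace F → UV F → Y),
      Hm (m + 1) p ∧ (∀ n w, 2 ≤ n → n ≤ m + 2 → Hm (m + 2 - n) (f n w)) ∧
      (∀ n w, ¬ (Odd n ∨ w.IsComplex) → ∀ s, f n w s = 0) ∧
      ∀ x : F, x ≠ 0 → g (Finsupp.single x 1) = p (cl x) (cl (1 - x)) +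
        ∑ n ∈ Finset.Icc 2 (m + 2), ∑ w : InfinitePlace F,
          Lcal n (w.embedding x) • f n w (cl x) := by
  induction m with
  | zero =>
    intro Y _ _ _ _ g hg
    obtain ⟨y, h, hy, hh, hgh⟩ := exists_y' 2 le_rfl (hR 2 le_rfl le_rfl) (hb 2 le_rfl le_rfl) g hg
    obtain ⟨p, hp, hx⟩ := two_form h hh
    refine ⟨p, fun n w _ => if n = 2 then y w else 0, hp, ?_, ?_, ?_⟩
    · intro n w h2 hn
      obtain rfl : n = 2 := by omega
      change Hm 0 _
      exact ⟨MultilinearMap.constOfIsEmpty ℤ _ (y w), fun s => rfl⟩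
    · intro n w hw s
      by_cases h : n = 2
      · subst h
        exact hy w hw
      · change (if n = 2 then y w else 0) = 0
        rw [if_neg h]
    · intro x hx0
      have e : Finset.Icc 2 (0 + 2) = {2} := rfl
      rw [hgh, hx x hx0, e, Finset.sum_singleton]
      congr 1
      refine Finset.sum_congr rfl fun w _ => ?_
      rw [Lsum_single]
      rfl
  | succ m ih =>
    intro Y _ _ _ _ g hg
    obtain ⟨y, h, hy, hh, hgh⟩ := exists_y' (m + 3) (by omega) (hR (m + 3) (by omega) le_rfl)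
      (hb (m + 3) (by omega) le_rfl) g hg
    obtain ⟨g', hg', hgg⟩ := succ_form (m + 2) (by omega) h hh
    obtain ⟨p, f, hp, hf, hf0, hx⟩ := ih (fun n h2 hn => hR n h2 (by omega))
      (fun n h2 hn => hb n h2 (by omega)) g' hg'
    obtain ⟨G, hG⟩ : ∃ G : ℕ → InfinitePlace F → UV F → Y, G = fun n w s =>
      if n = m + 3 then y w else f n w s s := ⟨_, rfl⟩
    have G1 : ∀ n, n ≠ m + 3 → ∀ w, G n w = fun s => f n w s s := by
      intro n h w
      rw [hG]
      funext s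
      change (if n = m + 3 then _ else _) = _
      rw [if_neg h]
    have G2 : ∀ w, G (m + 3) w = fun _ => y w := by
      intro w
      rw [hG]
      funext s
      change (if m + 3 = m + 3 then _ else _) = _
      rw [if_pos rfl]
    refine ⟨fun s => (p s).flip s, G, hp.uncurry2, fun n w h2 hn => ?_,
      fun n w hw s => ?_, fun x hx0 => ?_⟩
    · by_cases h : n = m + 3
      · subst h
        rw [G2]
        have h2 : m + 1 + 2 - (m + 3) = 0 := by omega
        rw [h2]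
        exact ⟨MultilinearMap.constOfIsEmpty ℤ _ (y w), fun s => rfl⟩
      · rw [G1 n h]
        have h1 := (hf n w h2 (by omega)).uncurry
        have h3 : m + 2 - n + 1 = m + 1 + 2 - n := by omega
        rwa [h3] at h1
    · by_cases h : n = m + 3
      · subst h
        rw [G2]
        exact hy w hw
      · rw [G1 n h]
        change f n w s s = 0
        rw [hf0 n w hw]
        rfl
    · have e1 : h (Finsupp.single x 1) = p (cl x) (cl (1 - x)) (cl x) +
          ∑ n ∈ Finset.Icc 2 (m + 2), ∑ w : InfinitePlace F,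
            Lcal n (w.embedding x) • f n w (cl x) (cl x) := by
        rw [hgg x hx0, hx x hx0, LinearMap.add_apply, LinearMap.sum_apply]
        congr 1
        refine Finset.sum_congr rfl fun n _ => ?_
        rw [LinearMap.sum_apply]
        rfl
      have e2 : ∑ n ∈ Finset.Icc 2 (m + 2), ∑ w : InfinitePlace F,
            Lcal n (w.embedding x) • G n w (cl x) =
          ∑ n ∈ Finset.Icc 2 (m + 2), ∑ w : InfinitePlace F,
            Lcal n (w.embedding x) • f n w (cl x) (cl x) := by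
        refine Finset.sum_congr rfl fun n hn => Finset.sum_congr rfl fun w _ => ?_
        have hn' := (Finset.mem_Icc.1 hn).2
        rw [G1 n (by omega)]
      have e3 : ∑ n ∈ Finset.Icc 2 (m + 1 + 2), ∑ w : InfinitePlace F,
            Lcal n (w.embedding x) • G n w (cl x) =
          ∑ n ∈ Finset.Icc 2 (m + 2), ∑ w : InfinitePlace F,
            Lcal n (w.embedding x) • G n w (cl x) +
          ∑ w : InfinitePlace F, Lcal (m + 3) (w.embedding x) • G (m + 3) w (cl x) := by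
        have h1 : m + 1 + 2 = m + 2 + 1 := by ring
        rw [h1]
        exact Finset.sum_Icc_succ_top (by omega) _
      change g (Finsupp.single x 1) = p (cl x) (cl (1 - x)) (cl x) + _
      rw [hgh, e1, e3, e2, add_assoc]
      congr 2
      refine Finset.sum_congr rfl fun w _ => ?_
      rw [G2, Lsum_single]

theorem Lsum_conj (n : ℕ) (σ : F →+* ℂ) (ξ : F →₀ k) :
    Lsum k F n (ComplexEmbedding.conjugate σ) ξ = (-1) ^ (n + 1) * Lsum k F n σ ξ := by
  have h : Lsum k F n (ComplexEmbedding.conjugate σ) = ((-1 : k) ^ (n + 1)) • Lsum k F n σ := by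
    ext x
    change Lsum k F n _ (Finsupp.single x 1) = ((-1 : k) ^ (n + 1)) • Lsum k F n σ (Finsupp.single x 1)
    rw [Lsum_single, Lsum_single, ComplexEmbedding.conjugate_coe_eq, Algebra.smul_def, map_pow,
      map_neg, map_one]
    unfold Lcal
    rw [Complex.norm_conj, ← map_inv₀, SVc_conj, SVc_conj]
    split_ifs <;> ring
  rw [h, LinearMap.smul_apply, Algebra.smul_def, map_pow, map_neg, map_one]

end K

end Zag1N

/-- [ZAG1a] -/
theorem Lcal_conj (n : ℕ) (z : ℂ) : Lcal n ((starRingEnd ℂ) z) = (-1) ^ (n + 1) * Lcal n z := by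
  unfold Lcal
  rw [Complex.norm_conj, ← map_inv₀, Zag1N.SVc_conj, Zag1N.SVc_conj]
  split_ifs <;> ring

variable (k : Type) [Field k] [Algebra k ℝ] (F : Type) [Field F] [NumberField F]

/-- [ZAG1b] -/
theorem RZ_eq (n : ℕ) (hn : 2 ≤ n) :
    RZ k F n = KR k F (RZ k F) n ⊓ LinearMap.ker (regZ k F n) := by
  have key : (⨅ σ : F →+* ℂ, LinearMap.ker (Lsum k F n σ)) = LinearMap.ker (regZ k F n) := by
    ext ξ
    rw [Submodule.mem_iInf, LinearMap.mem_ker]
    constructor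
    · intro h
      funext w
      exact h w.1.embedding
    · intro h σ
      rw [LinearMap.mem_ker]
      have h1 : ∀ w : InfinitePlace F, Lsum k F n w.embedding ξ = 0 := by
        intro w
        by_cases hw : Odd n ∨ w.IsComplex
        · exact congrFun h ⟨w, hw⟩
        · push Not at hw
          have hn' : Even n := Nat.not_odd_iff_even.1 hw.1
          have hr : w.IsReal := InfinitePlace.not_isComplex_iff_isReal.1 hw.2
          have h2 : ComplexEmbedding.conjugate w.embedding = w.embedding :=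
            InfinitePlace.isReal_iff.1 hr
          have h3 := Zag1N.Lsum_conj n w.embedding ξ
          rw [h2, (hn'.add_one).neg_one_pow] at h3
          linarith
      rcases InfinitePlace.embedding_mk_eq σ with h2 | h2
      · have h3 := h1 (InfinitePlace.mk σ)
        rwa [h2] at h3
      · have h3 := h1 (InfinitePlace.mk σ)
        rw [h2, Zag1N.Lsum_conj] at h3
        rcases mul_eq_zero.1 h3 with h4 | h4
        · exact absurd h4 (pow_ne_zero _ (by norm_num))
        · exact h4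
  obtain ⟨r, rfl⟩ : ∃ r, n = r + 2 := ⟨n - 2, by omega⟩
  rw [← key]
  cases r with
  | zero => rfl
  | succ r => rfl

variable (R : ℕ → Submodule k (F →₀ k))

/-- [ZAG1c] functionals which vanish on `ker δ_2` -/
theorem repK_two {Y : Type} [AddCommGroup Y] [Module k Y] (g : (F →₀ k) →ₗ[k] Y)
    (hg : ∀ ξ ∈ KR k F R 2, g ξ = 0) : ∃ p : UV F → (UV F →ₗ[ℤ] Y), Hm 1 p ∧
      ∀ x : F, x ≠ 0 → g (Finsupp.single x 1) = p (cl x) (cl (1 - x)) :=
  Zag1N.two_form g hg

/-- [ZAG1d] functionals which vanish on `ker δ_n`, `n ≥ 3` -/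
theorem repK_succ (n : ℕ) (hn : 2 ≤ n) {Y : Type} [AddCommGroup Y] [Module k Y]
    (g : (F →₀ k) →ₗ[k] Y) (hg : ∀ ξ ∈ KR k F R (n + 1), g ξ = 0) :
    ∃ g' : (F →₀ k) →ₗ[k] (UV F →ₗ[ℤ] Y), (∀ ξ ∈ R n, g' ξ = 0) ∧
      ∀ x : F, x ≠ 0 → g (Finsupp.single x 1) = g' (Finsupp.single x 1) (cl x) :=
  Zag1N.succ_form n hn g hg

/-- [ZAG1e] functionals which vanish on the relations, modulo those which vanish on `ker δ_n` -/
theorem repR_step (n : ℕ) (hn : 2 ≤ n) (hR : KR k F R n ⊓ LinearMap.ker (regZ k F n) ≤ R n)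
    (hb : ∀ (m : ℕ) (a : Fin m → (F →₀ k)),
      (∀ i, a i ∈ KR k F R n) → LinearIndependent k (fun i => regZ k F n (a i)) →
      LinearIndependent ℝ (fun i => regZ k F n (a i)))
    {Y : Type} [AddCommGroup Y] [Module k Y] [Module ℝ Y] [IsScalarTower k ℝ Y] (g : (F →₀ k) →ₗ[k] Y)
    (hg : ∀ ξ ∈ R n, g ξ = 0) : ∃ y : Pl F n → Y, ∀ ξ ∈ KR k F R n,
      g ξ = ∑ w, regZ k F n ξ w • y w :=
  Zag1N.exists_y n hn hR hb g hg

/-- [ZAG1f] -/
theorem repZ (m : ℕ)
    (hR : ∀ n, 2 ≤ n → n ≤ m + 2 → KR k F R n ⊓ LinearMap.ker (regZ k F n) ≤ R n)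
    (hb : ∀ n, 2 ≤ n → n ≤ m + 2 → ∀ (r : ℕ) (a : Fin r → (F →₀ k)),
      (∀ i, a i ∈ KR k F R n) → LinearIndependent k (fun i => regZ k F n (a i)) →
      LinearIndependent ℝ (fun i => regZ k F n (a i))) :
    ∀ {Y : Type} [AddCommGroup Y] [Module k Y] [Module ℝ Y] [IsScalarTower k ℝ Y] (g : (F →₀ k) →ₗ[k] Y),
    (∀ ξ ∈ R (m + 2), g ξ = 0) →
    ∃ (p : UV F → (UV F →ₗ[ℤ] Y)) (f : Ess F (m + 2) → UV F → Y),
      Hm (m + 1) p ∧ (∀ j, Hm (m + 2 - (j.1.1 : ℕ)) (f j)) ∧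
      ∀ x : F, x ≠ 0 → g (Finsupp.single x 1) = p (cl x) (cl (1 - x)) +
        ∑ j : Ess F (m + 2), Lcal (j.1.1 : ℕ) (j.1.2.embedding x) • f j (cl x) := by
  intro Y _ _ _ _ g hg
  obtain ⟨p, f, hp, hf, hf0, hx⟩ := Zag1N.repZ' m hR hb g hg
  refine ⟨p, fun j => f (j.1.1 : ℕ) j.1.2, hp, fun j => hf _ _ j.2.1 (by
    have := j.1.1.2
    omega), fun x hx0 => ?_⟩
  rw [hx x hx0, Zag1N.sum_Ess (m + 2) (fun n w => Lcal n (w.embedding x) • f n w (cl x))
    (fun n w hw => by rw [hf0 n w hw, smul_zero])]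

end Pool.Agent.H366.NK
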