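import Pool.Agent.H366.NK.CpxDefs
import Pool.Agent.H366.NK.Zag1

/-! # [CPX1] functionals on the terms of the complexes, existence of the differentials -/

set_option autoImplicit false
set_option linter.unusedSectionVars false

namespace Pool.Agent.H366.NK

open NumberField
open scoped TensorProduct
open H39Gon (UV cl)

variable {k : Type} [Field k] [Algebra k ℝ] {F : Type} [Field F]

namespace Cpx1N

/-! ### extension from `ℤ` to `k` -/

section Ext

variable {k : Type} [Field k] {A : Type} [AddCommGroup A] {Y : Type} [AddCommGroup Y] [Module k Y]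

variable (k A) in
/-- `a ↦ 1 ⊗ a` -/
noncomputable def mkA : A →ₗ[ℤ] k ⊗[ℤ] A := TensorProduct.mk ℤ k A 1

theorem mkA_apply (a : A) : mkA k A a = (1 : k) ⊗ₜ[ℤ] a := rfl

variable (k A Y) in
/-- restriction of `k`-multilinear maps -/
noncomputable def rho (j : ℕ) : MultilinearMap k (fun _ : Fin j => k ⊗[ℤ] A) Y →ₗ[k]
    MultilinearMap ℤ (fun _ : Fin j => A) Y where
  toFun f := (f.restrictScalars ℤ).compLinearMap (fun _ => mkA k A)
  map_add' f g := by ext v; rfl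
  map_smul' r f := by ext v; rfl

theorem rho_apply {j : ℕ} (f : MultilinearMap k (fun _ : Fin j => k ⊗[ℤ] A) Y) (v : Fin j → A) :
    rho k A Y j f v = f (fun i => (1 : k) ⊗ₜ[ℤ] v i) := rfl

/-- linear maps on `k ⊗ A` are determined by the values on `A` -/
theorem lin_ext {N : Type} [AddCommGroup N] [Module k N] (f g : k ⊗[ℤ] A →ₗ[k] N)
    (h : ∀ a : A, f ((1 : k) ⊗ₜ[ℤ] a) = g ((1 : k) ⊗ₜ[ℤ] a)) : f = g := by
  refine LinearMap.ext fun v => ?_
  induction v using TensorProduct.induction_on with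
  | zero => rw [map_zero, map_zero]
  | tmul r a =>
    have h1 : r ⊗ₜ[ℤ] a = r • ((1 : k) ⊗ₜ[ℤ] a) := by
      rw [TensorProduct.smul_tmul', smul_eq_mul, mul_one]
    rw [h1, map_smul, map_smul, h]
  | add x y hx hy => rw [map_add, map_add, hx, hy]

theorem rho_zero {j : ℕ} : ∀ (f : MultilinearMap k (fun _ : Fin j => k ⊗[ℤ] A) Y),
    rho k A Y j f = 0 → f = 0 := by
  induction j with
  | zero =>
    intro f hf
    ext v
    have hv : v = fun i => (1 : k) ⊗ₜ[ℤ] ((0 : Fin 0 → A) i) := Subsingleton.elim _ _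
    rw [hv, ← rho_apply, hf]
    rfl
  | succ j ih =>
    intro f hf
    have h1 : f.curryLeft = 0 := by
      refine lin_ext _ _ fun a => ?_
      rw [LinearMap.zero_apply]
      refine ih _ ?_
      ext v
      rw [rho_apply, MultilinearMap.curryLeft_apply]
      have h2 : (Fin.cons ((1 : k) ⊗ₜ[ℤ] a) (fun i => (1 : k) ⊗ₜ[ℤ] v i) : Fin (j + 1) → k ⊗[ℤ] A) =
          fun i => (1 : k) ⊗ₜ[ℤ] ((Fin.cons a v : Fin (j + 1) → A) i) := by
        funext i
        refine Fin.cases ?_ (fun i => ?_) i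
        · rw [Fin.cons_zero, Fin.cons_zero]
        · rw [Fin.cons_succ, Fin.cons_succ]
      rw [h2, ← rho_apply, hf]
      rfl
    ext v
    have h3 : f v = f.curryLeft (v 0) (Fin.tail v) := by
      rw [MultilinearMap.curryLeft_apply, Fin.cons_self_tail]
    rw [h3, h1]
    rfl

theorem rho_inj (j : ℕ) : Function.Injective (rho k A Y j) := by
  rw [injective_iff_map_eq_zero]
  exact fun f hf => rho_zero f hf

theorem rho_surj (j : ℕ) : Function.Surjective (rho k A Y j) := by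
  induction j with
  | zero =>
    intro f
    refine ⟨MultilinearMap.constOfIsEmpty k _ (f 0), ?_⟩
    ext v
    have hv : v = 0 := Subsingleton.elim _ _
    rw [rho_apply, hv]
    rfl
  | succ j ih =>
    intro f
    let E := LinearEquiv.ofBijective (rho k A Y j) ⟨rho_inj j, ih⟩
    let g : A →ₗ[ℤ] MultilinearMap k (fun _ : Fin j => k ⊗[ℤ] A) Y :=
      (E.symm.toLinearMap.restrictScalars ℤ) ∘ₗ f.curryLeft
    let G : k ⊗[ℤ] A →ₗ[k] MultilinearMap k (fun _ : Fin j => k ⊗[ℤ] A) Y := g.liftBaseChange k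
    refine ⟨LinearMap.uncurryLeft (M := fun _ : Fin (j + 1) => k ⊗[ℤ] A) G, ?_⟩
    ext v
    rw [rho_apply, LinearMap.uncurryLeft_apply]
    have h1 : G ((1 : k) ⊗ₜ[ℤ] v 0) = E.symm (f.curryLeft (v 0)) := by
      rw [LinearMap.liftBaseChange_tmul, one_smul]; rfl
    rw [h1]
    have h2 : rho k A Y j (E.symm (f.curryLeft (v 0))) = f.curryLeft (v 0) :=
      E.apply_symm_apply _
    have h3 := congrArg (fun t => t (Fin.tail v)) h2
    simp only [MultilinearMap.curryLeft_apply, Fin.cons_self_tail] at h3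
    rw [← h3]
    rfl

/-- the restriction to `A` of an alternating map -/
noncomputable def resA {j : ℕ} (f : (k ⊗[ℤ] A) [⋀^Fin j]→ₗ[k] Y) : A [⋀^Fin j]→ₗ[ℤ] Y :=
  { rho k A Y j f.toMultilinearMap with
    map_eq_zero_of_eq' := by
      intro v i l h hil
      exact f.map_eq_zero_of_eq (fun l => (1 : k) ⊗ₜ[ℤ] v l) (by simp only [h]) hil }

theorem resA_apply {j : ℕ} (f : (k ⊗[ℤ] A) [⋀^Fin j]→ₗ[k] Y) (v : Fin j → A) :
    resA f v = f (fun i => (1 : k) ⊗ₜ[ℤ] v i) := rfl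

theorem resA_inj {j : ℕ} (f : (k ⊗[ℤ] A) [⋀^Fin j]→ₗ[k] Y) (h : resA f = 0) : f = 0 := by
  have h1 : f.toMultilinearMap = 0 := by
    refine rho_zero _ ?_
    ext v
    have h2 := congrArg (fun t : A [⋀^Fin j]→ₗ[ℤ] Y => t v) h
    exact h2
  ext v
  exact congrArg (fun t : MultilinearMap k (fun _ : Fin j => k ⊗[ℤ] A) Y => t v) h1

theorem resA_surj [CharZero k] {j : ℕ} (f : A [⋀^Fin j]→ₗ[ℤ] Y) :
    ∃ g : (k ⊗[ℤ] A) [⋀^Fin j]→ₗ[k] Y, resA g = f := by
  obtain ⟨g, hg⟩ := rho_surj (k := k) (A := A) (Y := Y) j f.toMultilinearMap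
  have hg' : ∀ v : Fin j → A, g (fun i => (1 : k) ⊗ₜ[ℤ] v i) = f v := by
    intro v
    rw [← rho_apply, hg]; rfl
  refine ⟨{ g with
    map_eq_zero_of_eq' := ?_ }, ?_⟩
  · intro v i l h hil
    have h1 : g + g.domDomCongr (Equiv.swap i l) = 0 := by
      refine rho_zero _ ?_
      ext v
      rw [rho_apply, add_apply, MultilinearMap.domDomCongr_apply, hg']
      have h2 : g (fun r => (1 : k) ⊗ₜ[ℤ] v (Equiv.swap i l r)) = f (v ∘ Equiv.swap i l) :=
        hg' (v ∘ Equiv.swap i l)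
      rw [h2, AlternatingMap.map_swap _ _ hil, add_neg_cancel]
      rfl
    have h2 := congrArg (fun t : MultilinearMap k (fun _ : Fin j => k ⊗[ℤ] A) Y => t v) h1
    have h3 : (fun r => v (Equiv.swap i l r)) = v := by
      funext r
      by_cases hri : r = i
      · subst hri
        rw [Equiv.swap_apply_left, h]
      · by_cases hrl : r = l
        · subst hrl
          rw [Equiv.swap_apply_right, h]
        · rw [Equiv.swap_apply_of_ne_of_ne hri hrl]
    have h4 : g v + g v = 0 := by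
      have h5 : g v + g (fun r => v (Equiv.swap i l r)) = 0 := h2
      rwa [h3] at h5
    have h6 : (2 : k) • g v = 0 := by rw [two_smul, h4]
    exact (smul_eq_zero.1 h6).resolve_left two_ne_zero
  · ext v
    rw [resA_apply]
    exact hg' v

variable (k A Y) in
/-- functionals on `Λ^j` -/
noncomputable def Psi (j : ℕ) : (⋀[k]^j (k ⊗[ℤ] A) →ₗ[k] Y) →ₗ[k] (A [⋀^Fin j]→ₗ[ℤ] Y) where
  toFun φ := resA (φ.compAlternatingMap (exteriorPower.ιMulti k j))
  map_add' f g := by ext v; rfl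
  map_smul' r f := by ext v; rfl

theorem Psi_apply {j : ℕ} (φ : ⋀[k]^j (k ⊗[ℤ] A) →ₗ[k] Y) (v : Fin j → A) :
    Psi k A Y j φ v = φ (exteriorPower.ιMulti k j (fun i => (1 : k) ⊗ₜ[ℤ] v i)) := rfl

theorem Psi_bij [CharZero k] (j : ℕ) : Function.Bijective (Psi k A Y j) := by
  constructor
  · rw [injective_iff_map_eq_zero]
    intro φ hφ
    have h := resA_inj (φ.compAlternatingMap (exteriorPower.ιMulti k j)) hφ
    exact exteriorPower.linearMap_ext (by rw [h]; ext v; rfl)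
  · intro θ
    obtain ⟨g, hg⟩ := resA_surj (k := k) θ
    refine ⟨exteriorPower.alternatingMapLinearEquiv g, ?_⟩
    rw [← hg]
    ext v
    rw [Psi_apply, exteriorPower.alternatingMapLinearEquiv_apply_ιMulti]
    rfl

variable (k A Y) in
/-- functionals on `Λ^j` -/
noncomputable def PsiE [CharZero k] (j : ℕ) : (⋀[k]^j (k ⊗[ℤ] A) →ₗ[k] Y) ≃ₗ[k] (A [⋀^Fin j]→ₗ[ℤ] Y) :=
  LinearEquiv.ofBijective (Psi k A Y j) (Psi_bij j)

theorem PsiE_symm_apply [CharZero k] {j : ℕ} (θ : A [⋀^Fin j]→ₗ[ℤ] Y) (v : Fin j → A) :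
    (PsiE k A Y j).symm θ (exteriorPower.ιMulti k j (fun i => (1 : k) ⊗ₜ[ℤ] v i)) = θ v := by
  rw [← Psi_apply]
  have h : Psi k A Y j ((PsiE k A Y j).symm θ) = θ := (PsiE k A Y j).apply_symm_apply θ
  rw [h]

end Ext

/-- linear maps on `(M / R) ⊗ N` -/
noncomputable def liftGen {k : Type} [Field k] {M N P : Type} [AddCommGroup M] [Module k M] (R : Submodule k M)
    [AddCommGroup N] [Module k N] [AddCommGroup P] [Module k P] (f : M →ₗ[k] (N →ₗ[k] P))
    (h : R ≤ LinearMap.ker f) : (M ⧸ R) ⊗[k] N →ₗ[k] P := TensorProduct.lift (R.liftQ f h)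

theorem liftGen_apply {k : Type} [Field k] {M N P : Type} [AddCommGroup M] [Module k M] (R : Submodule k M)
    [AddCommGroup N] [Module k N] [AddCommGroup P] [Module k P] (f : M →ₗ[k] (N →ₗ[k] P))
    (h : R ≤ LinearMap.ker f) (x : M) (y : N) :
    liftGen R f h (R.mkQ x ⊗ₜ[k] y) = f x y := rfl

/-! ### the wedge with a vector -/

section Wdg

variable {k : Type} [Field k] {V : Type} [AddCommGroup V] [Module k V]

variable (k V) in
/-- `v ↦ (ω ↦ v ∧ ω)` -/
noncomputable def wdg (j : ℕ) : V →ₗ[k] (⋀[k]^j V →ₗ[k] ⋀[k]^(j + 1) V) :=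
  (exteriorPower.alternatingMapLinearEquiv
    (R := k) (M := V) (N := ⋀[k]^(j + 1) V) (n := j)).toLinearMap ∘ₗ
      (exteriorPower.ιMulti k (j + 1) (M := V)).curryLeft

theorem wdg_apply {j : ℕ} (v : V) (y : Fin j → V) :
    wdg k V j v (exteriorPower.ιMulti k j y) = exteriorPower.ιMulti k (j + 1) (Fin.cons v y) := by
  unfold wdg
  rw [LinearMap.comp_apply, LinearEquiv.coe_coe,
    exteriorPower.alternatingMapLinearEquiv_apply_ιMulti]
  rfl

theorem wdg_coe {j : ℕ} (v : V) (ω : ⋀[k]^j V) :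
    (wdg k V j v ω : ExteriorAlgebra k V) = ExteriorAlgebra.ι k v * (ω : ExteriorAlgebra k V) := by
  have h : (⋀[k]^(j + 1) V).subtype ∘ₗ wdg k V j v =
      (LinearMap.mulLeft k (ExteriorAlgebra.ι k v)) ∘ₗ (⋀[k]^j V).subtype := by
    apply exteriorPower.linearMap_ext
    ext y
    simp only [LinearMap.compAlternatingMap_apply, LinearMap.comp_apply, wdg_apply,
      Submodule.subtype_apply, exteriorPower.ιMulti_apply_coe, LinearMap.mulLeft_apply]
    rw [ExteriorAlgebra.ιMulti_succ_apply]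
    rfl
  exact LinearMap.congr_fun h ω

end Wdg

end Cpx1N

open Cpx1N

/-- [CPX1a] -/
theorem cz_ext {N : Type} [AddCommGroup N] [Module k N] {m j : ℕ} (f g : CZ k F m j →ₗ[k] N)
    (h : ∀ (x : F) (y : Fin j → VK k F), f (cz k m j x y) = g (cz k m j x y)) : f = g := by
  apply TensorProduct.ext
  apply Submodule.linearMap_qext
  apply Finsupp.lhom_ext'
  intro x
  apply LinearMap.ext_ring
  apply exteriorPower.linearMap_ext
  ext y
  exact h x y

/-- [CPX1b] -/
theorem lz_ext {N : Type} [AddCommGroup N] [Module k N] {j : ℕ} (f g : LZ k F j →ₗ[k] N)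
    (h : ∀ (y : Fin j → VK k F), f (lz k j y) = g (lz k j y)) : f = g := by
  apply exteriorPower.linearMap_ext
  ext y
  exact h y

/-- [CPX1c] the functional on `k[F]` of a functional on `CZ` -/
theorem exists_theta {Y : Type} [AddCommGroup Y] [Module k Y] {m j : ℕ}
    (φ : CZ k F m j →ₗ[k] Y) : ∃ θ : (F →₀ k) →ₗ[k] (UV F [⋀^Fin j]→ₗ[ℤ] Y),
      (∀ ξ ∈ RZ k F m, θ ξ = 0) ∧ ∀ (x : F) (y : Fin j → UV F),
        φ (cz k m j x (fun i => (1 : k) ⊗ₜ[ℤ] y i)) = θ (Finsupp.single x 1) y := by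
  refine ⟨(Psi k (UV F) Y j) ∘ₗ (TensorProduct.curry φ) ∘ₗ (RZ k F m).mkQ, ?_, ?_⟩
  · intro ξ hξ
    have h : (RZ k F m).mkQ ξ = 0 := (Submodule.Quotient.mk_eq_zero _).2 hξ
    rw [LinearMap.comp_apply, LinearMap.comp_apply, h, map_zero, map_zero]
  · intro x y
    rfl

/-- [CPX1d] the converse -/
theorem exists_phi {Y : Type} [AddCommGroup Y] [Module k Y] {m j : ℕ}
    (θ : (F →₀ k) →ₗ[k] (UV F [⋀^Fin j]→ₗ[ℤ] Y)) (hθ : ∀ ξ ∈ RZ k F m, θ ξ = 0) :
    ∃ φ : CZ k F m j →ₗ[k] Y, ∀ (x : F) (y : Fin j → UV F),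
      φ (cz k m j x (fun i => (1 : k) ⊗ₜ[ℤ] y i)) = θ (Finsupp.single x 1) y := by
  have : CharZero k := (algebraMap k ℝ).charZero
  refine ⟨TensorProduct.lift ((PsiE k (UV F) Y j).symm.toLinearMap ∘ₗ
    (RZ k F m).liftQ θ (fun ξ hξ => LinearMap.mem_ker.2 (hθ ξ hξ))), ?_⟩
  intro x y
  unfold cz
  rw [TensorProduct.lift.tmul, LinearMap.comp_apply, Submodule.mkQ_apply, Submodule.liftQ_apply,
    LinearEquiv.coe_coe, PsiE_symm_apply]

/-- [CPX1e] -/
theorem exists_alt {Y : Type} [AddCommGroup Y] [Module k Y] {j : ℕ} (φ : LZ k F j →ₗ[k] Y) :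
    ∃ θ : UV F [⋀^Fin j]→ₗ[ℤ] Y, ∀ y : Fin j → UV F,
      φ (lz k j (fun i => (1 : k) ⊗ₜ[ℤ] y i)) = θ y :=
  ⟨Psi k (UV F) Y j φ, fun _ => rfl⟩

/-- [CPX1f] -/
theorem exists_lphi {Y : Type} [AddCommGroup Y] [Module k Y] {j : ℕ}
    (θ : UV F [⋀^Fin j]→ₗ[ℤ] Y) : ∃ φ : LZ k F j →ₗ[k] Y, ∀ y : Fin j → UV F,
      φ (lz k j (fun i => (1 : k) ⊗ₜ[ℤ] y i)) = θ y := by
  have : CharZero k := (algebraMap k ℝ).charZero
  exact ⟨(PsiE k (UV F) Y j).symm θ, fun y => PsiE_symm_apply θ y⟩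

/-- [CPX1g] it suffices to check on classes of elements of `F^*` -/
theorem cz_ext' {N : Type} [AddCommGroup N] [Module k N] {m j : ℕ} (f g : CZ k F m j →ₗ[k] N)
    (h : ∀ (x : F) (y : Fin j → UV F), f (cz k m j x (fun i => (1 : k) ⊗ₜ[ℤ] y i)) =
      g (cz k m j x (fun i => (1 : k) ⊗ₜ[ℤ] y i))) : f = g := by
  apply cz_ext
  intro x y
  have h1 : (((f - g) ∘ₗ (TensorProduct.mk k (BZ k F m) (⋀[k]^j (VK k F))
      ((RZ k F m).mkQ (Finsupp.single x 1)))).compMultilinearMap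
        (exteriorPower.ιMulti k j (M := VK k F)).toMultilinearMap) = 0 := by
    refine rho_zero _ ?_
    ext v
    change (f - g) (cz k m j x (fun i => (1 : k) ⊗ₜ[ℤ] v i)) = 0
    rw [LinearMap.sub_apply, h, sub_self]
  have h2 := congrArg (fun t : MultilinearMap k (fun _ : Fin j => VK k F) N => t y) h1
  change (f - g) (cz k m j x y) = 0 at h2
  rwa [LinearMap.sub_apply, sub_eq_zero] at h2

/-- [CPX1h] it suffices to check on classes of elements of `F^*` -/
theorem lz_ext' {N : Type} [AddCommGroup N] [Module k N] {j : ℕ} (f g : LZ k F j →ₗ[k] N)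
    (h : ∀ (y : Fin j → UV F), f (lz k j (fun i => (1 : k) ⊗ₜ[ℤ] y i)) =
      g (lz k j (fun i => (1 : k) ⊗ₜ[ℤ] y i))) : f = g := by
  apply lz_ext
  intro y
  have h1 : ((f - g).compMultilinearMap
        (exteriorPower.ιMulti k j (M := VK k F)).toMultilinearMap) = 0 := by
    refine rho_zero _ ?_
    ext v
    change (f - g) (lz k j (fun i => (1 : k) ⊗ₜ[ℤ] v i)) = 0
    rw [LinearMap.sub_apply, h, sub_self]
  have h2 := congrArg (fun t : MultilinearMap k (fun _ : Fin j => VK k F) N => t y) h1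
  change (f - g) (lz k j y) = 0 at h2
  rwa [LinearMap.sub_apply, sub_eq_zero] at h2

namespace Cpx1N

theorem RZ_succ_le (k : Type) [Field k] [Algebra k ℝ] (F : Type) [Field F] (m : ℕ) :
    RZ k F (m + 3) ≤ LinearMap.ker (dZ k F (RZ k F (m + 2))) := by
  rw [RZ]
  exact inf_le_left

theorem RZ_two_le (k : Type) [Field k] [Algebra k ℝ] (F : Type) [Field F] : RZ k F 2 ≤ LinearMap.ker (dZ2 k F) := by
  rw [RZ]
  exact inf_le_left

/-- `{x}_{m+3} ↦ {x}_{m+2} ⊗ x` -/
noncomputable def D0 (k : Type) [Field k] [Algebra k ℝ] (F : Type) [Field F] (m : ℕ) : BZ k F (m + 3) →ₗ[k] BZ k F (m + 2) ⊗[k] VK k F :=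
  (RZ k F (m + 3)).liftQ (dZ k F (RZ k F (m + 2))) (RZ_succ_le k F m)

theorem D0_apply (m : ℕ) (x : F) : D0 k F m ((RZ k F (m + 3)).mkQ (Finsupp.single x 1)) =
    ((RZ k F (m + 2)).mkQ (Finsupp.single x 1)) ⊗ₜ[k] clk k x := by
  unfold D0
  rw [Submodule.mkQ_apply, Submodule.liftQ_apply]
  unfold dZ
  rw [Finsupp.linearCombination_single, one_smul]

/-- the differential `d` -/
noncomputable def dd (k : Type) [Field k] [Algebra k ℝ] (F : Type) [Field F] (m j : ℕ) :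
    CZ k F (m + 3) j →ₗ[k] CZ k F (m + 2) (j + 1) :=
  (LinearMap.lTensor (BZ k F (m + 2)) (TensorProduct.lift (wdg k (VK k F) j))) ∘ₗ
    (TensorProduct.assoc k (BZ k F (m + 2)) (VK k F) (⋀[k]^j (VK k F))).toLinearMap ∘ₗ
      (LinearMap.rTensor (⋀[k]^j (VK k F)) (D0 k F m))

theorem dd_cz (m j : ℕ) (x : F) (y : Fin j → VK k F) :
    dd k F m j (cz k (m + 3) j x y) = cz k (m + 2) (j + 1) x (Fin.cons (clk k x) y) := by
  unfold dd cz
  rw [LinearMap.comp_apply, LinearMap.comp_apply, LinearMap.rTensor_tmul, D0_apply,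
    LinearEquiv.coe_coe, TensorProduct.assoc_tmul, LinearMap.lTensor_tmul,
    TensorProduct.lift.tmul, wdg_apply]

/-- `{x} ↦ (ω ↦ (1 - x) ∧ x ∧ ω)` -/
noncomputable def E0 (k : Type) [Field k] [Algebra k ℝ] (F : Type) [Field F] (j : ℕ) :
    (F →₀ k) →ₗ[k] (⋀[k]^j (VK k F) →ₗ[k] ⋀[k]^(j + 2) (VK k F)) :=
  Finsupp.linearCombination k fun x =>
    (wdg k (VK k F) (j + 1) (clk k (1 - x))) ∘ₗ (wdg k (VK k F) j (clk k x))

theorem E0_coe (j : ℕ) (ξ : F →₀ k) (ω : ⋀[k]^j (VK k F)) :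
    (E0 k F j ξ ω : ExteriorAlgebra k (VK k F)) = dZ2 k F ξ * (ω : ExteriorAlgebra k (VK k F)) := by
  induction ξ using Finsupp.induction_linear with
  | zero => simp
  | add a b ha hb =>
    rw [map_add, map_add, LinearMap.add_apply, add_mul, ← ha, ← hb]
    rfl
  | single x r =>
    unfold E0 dZ2
    rw [Finsupp.linearCombination_single, Finsupp.linearCombination_single, LinearMap.smul_apply,
      LinearMap.comp_apply, smul_mul_assoc, mul_assoc, ← wdg_coe, ← wdg_coe]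
    rfl

theorem E0_ker (k : Type) [Field k] [Algebra k ℝ] (F : Type) [Field F] (j : ℕ) : RZ k F 2 ≤ LinearMap.ker (E0 k F j) := by
  intro ξ hξ
  rw [LinearMap.mem_ker]
  have h := RZ_two_le k F hξ
  rw [LinearMap.mem_ker] at h
  apply LinearMap.ext
  intro ω
  apply Subtype.ext
  rw [E0_coe, h, zero_mul]
  rfl

/-- the differential `e` -/
noncomputable def ee (k : Type) [Field k] [Algebra k ℝ] (F : Type) [Field F] (j : ℕ) : CZ k F 2 j →ₗ[k] LZ k F (j + 2) :=
  liftGen (RZ k F 2) (E0 k F j) (E0_ker k F j)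

theorem ee_cz (j : ℕ) (x : F) (y : Fin j → VK k F) :
    ee k F j (cz k 2 j x y) = lz k (j + 2) (Fin.cons (clk k (1 - x)) (Fin.cons (clk k x) y)) := by
  unfold ee cz lz
  rw [liftGen_apply]
  unfold E0
  rw [Finsupp.linearCombination_single, one_smul, LinearMap.comp_apply, wdg_apply, wdg_apply]

end Cpx1N

/-- [CPX1i] the differentials exist -/
theorem exists_diffZ (k : Type) [Field k] [Algebra k ℝ] (F : Type) [Field F] : Nonempty (DiffZ k F) :=
  ⟨{ d := dd k F
     d_cz := fun m j x y => dd_cz m j x y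
     e := ee k F
     e_cz := fun j x y => ee_cz j x y }⟩

/-- [CPX1j] the differentials are unique -/
theorem diffZ_unique (D D' : DiffZ k F) : D' = D := by
  obtain ⟨d, hd, e, he⟩ := D
  obtain ⟨d', hd', e', he'⟩ := D'
  have h1 : d' = d := by
    funext m j
    exact cz_ext _ _ fun x y => by rw [hd, hd']
  have h2 : e' = e := by
    funext j
    exact cz_ext _ _ fun x y => by rw [he, he']
  subst h1
  subst h2
  rfl

/-- [CPX1k] these are complexes -/
theorem d_comp_d (D : DiffZ k F) (m j : ℕ) (v : CZ k F (m + 1 + 3) j) :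
    D.d m (j + 1) (D.d (m + 1) j v) = 0 := by
  have h : (D.d m (j + 1) : CZ k F (m + 3) (j + 1) →ₗ[k] CZ k F (m + 2) (j + 1 + 1)) ∘ₗ
      (D.d (m + 1) j : CZ k F (m + 1 + 3) j →ₗ[k] CZ k F (m + 3) (j + 1)) = 0 := by
    apply cz_ext
    intro x y
    rw [LinearMap.comp_apply]
    have h1 : D.d (m + 1) j (cz k (m + 1 + 3) j x y) = cz k (m + 3) (j + 1) x (Fin.cons (clk k x) y) :=
      D.d_cz (m + 1) j x y
    rw [h1, D.d_cz]
    unfold cz
    rw [AlternatingMap.map_eq_zero_of_eq (i := 0) (j := 1) _ _ rfl (by simp),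
      TensorProduct.tmul_zero]
    rfl
  exact LinearMap.congr_fun h v

/-- [CPX1l] these are complexes -/
theorem e_comp_d (D : DiffZ k F) (j : ℕ) (v : CZ k F (0 + 3) j) :
    D.e (j + 1) (D.d 0 j v) = 0 := by
  have h : (D.e (j + 1) : CZ k F 2 (j + 1) →ₗ[k] LZ k F (j + 1 + 2)) ∘ₗ
      (D.d 0 j : CZ k F (0 + 3) j →ₗ[k] CZ k F 2 (j + 1)) = 0 := by
    apply cz_ext
    intro x y
    rw [LinearMap.comp_apply]
    have h1 : D.d 0 j (cz k (0 + 3) j x y) = cz k 2 (j + 1) x (Fin.cons (clk k x) y) :=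
      D.d_cz 0 j x y
    rw [h1, D.e_cz]
    unfold lz
    rw [AlternatingMap.map_eq_zero_of_eq (i := Fin.succ 0) (j := Fin.succ (Fin.succ 0)) _ _ rfl
      (fun hh => Fin.succ_ne_zero _ (Fin.succ_injective _ hh).symm)]
    rfl
  exact LinearMap.congr_fun h v

end Pool.Agent.H366.NK
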