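import Pool.Agent.H366.ZC.TS2
import Pool.Graph.R_seed8.H39R2.Gon.E2

/-! # [CPX2] Koszul steps with values in a vector space, alternating in further variables -/

set_option autoImplicit false

namespace Pool.Agent.H366.NK

open Pool.Agent.H366.ZC.MotN (Hm)

variable {V : Type} [AddCommGroup V] {Y : Type} [AddCommGroup Y] [Module ℚ Y]

namespace Cpx2N


/-- composition of an alternating map with a functional -/
noncomputable def coA (k : ℕ) (f : Module.Dual ℚ Y) :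
    (V [⋀^Fin k]→ₗ[ℤ] Y) →ₗ[ℤ] (V [⋀^Fin k]→ₗ[ℤ] ℚ) :=
  (AddMonoidHom.mk' (fun g => f.toAddMonoidHom.toIntLinearMap.compAlternatingMap g)
    (fun g g' => by
      ext y
      change f (g y + g' y) = f (g y) + f (g' y)
      exact map_add f _ _)).toIntLinearMap

theorem coA_apply (k : ℕ) (f : Module.Dual ℚ Y) (g : V [⋀^Fin k]→ₗ[ℤ] Y) (y : Fin k → V) :
    coA k f g y = f (g y) := rfl

/-- composition of a linear map to alternating maps with a functional -/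
noncomputable def coL (k : ℕ) (f : Module.Dual ℚ Y) :
    (V →ₗ[ℤ] (V [⋀^Fin k]→ₗ[ℤ] Y)) →ₗ[ℤ] (V →ₗ[ℤ] (V [⋀^Fin k]→ₗ[ℤ] ℚ)) :=
  (AddMonoidHom.mk' (fun g => (coA k f).comp g)
    (fun g g' => by
      ext v y
      change f (g v y + g' v y) = f (g v y) + f (g' v y)
      exact map_add f _ _)).toIntLinearMap

theorem coL_apply (k : ℕ) (f : Module.Dual ℚ Y) (g : V →ₗ[ℤ] (V [⋀^Fin k]→ₗ[ℤ] Y)) (v : V)
    (y : Fin k → V) : coL k f g v y = f (g v y) := rfl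

variable (r : ((Module.Dual ℚ Y) → ℚ) →ₗ[ℚ] Y)

/-- assembling a family of alternating maps -/
noncomputable def rA (k : ℕ) :
    ((Module.Dual ℚ Y) → (V [⋀^Fin k]→ₗ[ℤ] ℚ)) →ₗ[ℤ] (V [⋀^Fin k]→ₗ[ℤ] Y) :=
  (AddMonoidHom.mk' (fun g => r.toAddMonoidHom.toIntLinearMap.compAlternatingMap
      (AlternatingMap.pi g))
    (fun g g' => by
      ext y
      change r ((fun f => g f y) + (fun f => g' f y)) = r (fun f => g f y) + r (fun f => g' f y)
      exact map_add r _ _)).toIntLinearMap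

theorem rA_apply (k : ℕ) (g : (Module.Dual ℚ Y) → (V [⋀^Fin k]→ₗ[ℤ] ℚ)) (y : Fin k → V) :
    rA r k g y = r (fun f => g f y) := rfl

/-- assembling a family of linear maps to alternating maps -/
noncomputable def rL (k : ℕ) :
    ((Module.Dual ℚ Y) → (V →ₗ[ℤ] (V [⋀^Fin k]→ₗ[ℤ] ℚ))) →ₗ[ℤ]
      (V →ₗ[ℤ] (V [⋀^Fin k]→ₗ[ℤ] Y)) :=
  (AddMonoidHom.mk' (fun g => (rA r k).comp (LinearMap.pi g))
    (fun g g' => by
      ext v y
      change r ((fun f => g f v y) + (fun f => g' f v y)) =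
        r (fun f => g f v y) + r (fun f => g' f v y)
      exact map_add r _ _)).toIntLinearMap

theorem rL_apply (k : ℕ) (g : (Module.Dual ℚ Y) → (V →ₗ[ℤ] (V [⋀^Fin k]→ₗ[ℤ] ℚ))) (v : V)
    (y : Fin k → V) : rL r k g v y = r (fun f => g f v y) := rfl

end Cpx2N

open Cpx2N

/-- [CPX2a] `H39Gon.koszul_step` with values in `Y` -/
theorem koszulY (m j : ℕ) (p : V → (V →ₗ[ℤ] (V [⋀^Fin j]→ₗ[ℤ] Y))) (hp : Hm (m + 2) p)
    (hS : ∀ s : V, p s s = 0)
    (hD : ∀ (i : ℕ) (hi : j = i + 1) (s v : V) (y : Fin i → V),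
      p s v ((Fin.cons s y : Fin (i + 1) → V) ∘ Fin.cast hi) = 0) :
    ∃ p' : V → (V →ₗ[ℤ] (V [⋀^Fin (j + 1)]→ₗ[ℤ] Y)), Hm (m + 1) p' ∧ (∀ s : V, p' s s = 0) ∧
      ∀ (s v : V) (y : Fin j → V), p' s v (Fin.cons s y) = p s v y := by
  obtain ⟨Q, hQ⟩ := hp
  obtain ⟨r, hr⟩ := Pool.Agent.H366.FC.DepN.retract Y
  have h1 := fun f : Module.Dual ℚ Y => H39Gon.koszul_step m j
    ((coL j f).compMultilinearMap Q)
    (fun s => by
      ext y
      change f (Q (fun _ => s) s y) = 0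
      rw [← hQ, hS, AlternatingMap.zero_apply, map_zero])
    (fun i hi s v y => by
      change f (Q (fun _ => s) v _) = 0
      rw [← hQ, hD i hi, map_zero])
  choose Q' hQ1 hQ2 using h1
  refine ⟨fun s => ((rL r (j + 1)).compMultilinearMap (MultilinearMap.pi Q')) (fun _ => s),
    ⟨_, fun s => rfl⟩, fun s => ?_, fun s v y => ?_⟩
  · ext y
    change r (fun f => Q' f (fun _ => s) s y) = 0
    rw [← map_zero r]
    congr 1
    funext f
    rw [hQ1]
    rfl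
  · change r (fun f => Q' f (fun _ => s) v (Fin.cons s y)) = _
    rw [← hr (p s v y)]
    congr 1
    funext f
    rw [hQ2]
    change f (Q (fun _ => s) v y) = _
    rw [← hQ]

/-- [CPX2b] `H39Gon.koszul_last` with values in `Y` -/
theorem koszulY_last (j : ℕ) (p : V → (V →ₗ[ℤ] (V [⋀^Fin j]→ₗ[ℤ] Y))) (hp : Hm 1 p)
    (hS : ∀ s : V, p s s = 0)
    (hD : ∀ (i : ℕ) (hi : j = i + 1) (s v : V) (y : Fin i → V),
      p s v ((Fin.cons s y : Fin (i + 1) → V) ∘ Fin.cast hi) = 0) :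
    ∃ Θ : V [⋀^Fin (j + 2)]→ₗ[ℤ] Y,
      ∀ (s v : V) (y : Fin j → V), Θ (Fin.cons v (Fin.cons s y)) = p s v y := by
  obtain ⟨Q, hQ⟩ := hp
  obtain ⟨r, hr⟩ := Pool.Agent.H366.FC.DepN.retract Y
  let q : V →ₗ[ℤ] (V →ₗ[ℤ] (V [⋀^Fin j]→ₗ[ℤ] Y)) := (AddMonoidHom.mk' p
    (fun x y => by
      have h1 := Q.map_update_add (fun _ => 0) 0 x y
      have e : ∀ z : V, Function.update (fun _ : Fin 1 => (0 : V)) 0 z = fun _ => z := by
        intro z
        ext i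
        fin_cases i
        rfl
      rwa [e, e, e, ← hQ, ← hQ, ← hQ] at h1)).toIntLinearMap
  have hq : ∀ s v, q s v = p s v := fun s v => rfl
  have h1 := fun f : Module.Dual ℚ Y => H39Gon.koszul_last j ((coL j f).comp q)
    (fun s => by
      ext y
      change f (p s s y) = 0
      rw [hS, AlternatingMap.zero_apply, map_zero])
    (fun i hi s v y => by
      change f (p s v _) = 0
      rw [hD i hi, map_zero])
  choose Θ hΘ using h1
  refine ⟨rA r (j + 2) Θ, fun s v y => ?_⟩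
  change r (fun f => Θ f (Fin.cons v (Fin.cons s y))) = _
  rw [← hr (p s v y)]
  congr 1
  funext f
  rw [hΘ]
  rfl

/-- [CPX2c] the Koszul step for `S^a V ⊗ Λ^j V` -/
theorem koszulY' (a j : ℕ) (f : V → (V [⋀^Fin j]→ₗ[ℤ] Y)) (hf : Hm (a + 1) f)
    (hD : ∀ (i : ℕ) (hi : j = i + 1) (s : V) (y : Fin i → V),
      f s ((Fin.cons s y : Fin (i + 1) → V) ∘ Fin.cast hi) = 0) :
    ∃ f' : V → (V [⋀^Fin (j + 1)]→ₗ[ℤ] Y), Hm a f' ∧
      ∀ (s : V) (y : Fin j → V), f' s (Fin.cons s y) = f s y := by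
  obtain ⟨Q, hQ⟩ := hf
  obtain ⟨r, hr⟩ := Pool.Agent.H366.FC.DepN.retract Y
  have h1 : ∀ g : Module.Dual ℚ Y, ∃ Q' : MultilinearMap ℤ (fun _ : Fin a => V)
      (V [⋀^Fin (j + 1)]→ₗ[ℤ] ℚ), ∀ (s : V) (y : Fin j → V),
        Q' (fun _ => s) (Fin.cons s y) = g (f s y) := by
    intro g
    let R : MultilinearMap ℤ (fun _ : Fin (a + 1) => V) (V [⋀^Fin j]→ₗ[ℤ] ℚ) :=
      (coA j g).compMultilinearMap Q
    have hR : ∀ (s : V) (y : Fin j → V), R (fun _ => s) y = g (f s y) := by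
      intro s y
      change g (Q (fun _ => s) y) = _
      rw [← hQ]
    let ρ : MultilinearMap ℤ (fun _ : Fin a => V) (V [⋀^Fin (j + 1)]→ₗ[ℤ] ℚ) :=
      (AlternatingMap.alternatizeUncurryFinLM).compMultilinearMap (H39Gon.D1_kd R)
    refine ⟨((a : ℚ) + 1 + j)⁻¹ • ρ, fun s y => ?_⟩
    have h2 := H39Gon.D1_hom R (fun i hi s y => by rw [hR, hD i hi, map_zero]) s y
    change ((a : ℚ) + 1 + j)⁻¹ * AlternatingMap.alternatizeUncurryFin
      (H39Gon.D1_kd R (fun _ => s)) (Fin.cons s y) = _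
    rw [h2, hR]
    have h3 : ((a : ℚ) + 1 + j) ≠ 0 := by positivity
    field_simp
  choose Q' hQ' using h1
  refine ⟨fun s => ((rA r (j + 1)).compMultilinearMap (MultilinearMap.pi Q')) (fun _ => s),
    ⟨_, fun s => rfl⟩, fun s y => ?_⟩
  change r (fun g => Q' g (fun _ => s) (Fin.cons s y)) = _
  rw [← hr (f s y)]
  congr 1
  funext g
  rw [hQ']

end Pool.Agent.H366.NK
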