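import Pool.Agent.H366.NK.Zag1

/-! # [CPX3] functionals which vanish on Zagier's relations -/

set_option autoImplicit false
set_option linter.unusedSectionVars false

namespace Pool.Agent.H366.NK

open NumberField
open H39Gon (UV cl)
open Pool.Agent.H366.ZC.MotN (Hm)

namespace Cpx3N

open Zag1N (clk_eq factorK)
open Pool.Agent.H366.ZC.MotN (mk2 mk2_apply mkM mkM_apply K0')
open scoped TensorProduct

/-! ### functionals on the exterior algebra -/

section alt

variable {k : Type} [Field k] {C : Type} [AddCommGroup C] [Module k C] {Y : Type}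
  [AddCommGroup Y] [Module k Y]

/-- linear maps are alternating maps in one variable -/
noncomputable def A1 : (C →ₗ[k] Y) →ₗ[k] (C [⋀^Fin 1]→ₗ[k] Y) where
  toFun f := AlternatingMap.ofSubsingleton k C Y (0 : Fin 1) f
  map_add' _ _ := rfl
  map_smul' _ _ := rfl

theorem A1_apply (f : C →ₗ[k] Y) (x : C) : A1 f (fun _ => x) = f x := rfl

/-- antisymmetrisation of bilinear forms -/
noncomputable def A2 : (C →ₗ[k] C →ₗ[k] Y) →ₗ[k] (C [⋀^Fin 2]→ₗ[k] Y) :=
  AlternatingMap.alternatizeUncurryFinLM ∘ₗ (LinearMap.compRight k A1)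

theorem A2_apply (B : C →ₗ[k] C →ₗ[k] Y) (a b : C) : A2 B ![a, b] = B a b - B b a := by
  change AlternatingMap.alternatizeUncurryFin (A1 ∘ₗ B) ![a, b] = _
  rw [AlternatingMap.alternatizeUncurryFin_apply, Fin.sum_univ_two]
  have e0 : (0 : Fin 2).removeNth ![a, b] = fun _ => b := by
    ext i; fin_cases i; rfl
  have e1 : (1 : Fin 2).removeNth ![a, b] = fun _ => a := by
    ext i; fin_cases i; rfl
  rw [e0, e1]
  simp [A1_apply]
  abel

theorem functional_twoK (B : C →ₗ[k] C →ₗ[k] Y) : ∃ θ : ExteriorAlgebra k C →ₗ[k] Y,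
    ∀ a b : C, θ (ExteriorAlgebra.ι k a * ExteriorAlgebra.ι k b) = B a b - B b a := by
  refine ⟨ExteriorAlgebra.liftAlternating (Function.update 0 2 (A2 B)), fun a b => ?_⟩
  have h := ExteriorAlgebra.liftAlternating_apply_ιMulti
    (Function.update (0 : ∀ i, C [⋀^Fin i]→ₗ[k] Y) 2 (A2 B)) ![a, b]
  rw [Function.update_self, A2_apply] at h
  rw [← h]
  congr 1
  simp [ExteriorAlgebra.ιMulti_succ_apply]

end alt


section K

variable {k : Type} [Field k] [Algebra k ℝ] {F : Type} [Field F] [NumberField F]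
  {R : ℕ → Submodule k (F →₀ k)}

/-! ### the first part -/

theorem two_form {Y : Type} [AddCommGroup Y] [Module k Y] (g : (F →₀ k) →ₗ[k] Y)
    (hg : ∀ ξ ∈ KR k F R 2, g ξ = 0) : ∃ p : UV F → (UV F →ₗ[ℤ] Y), Hm 1 p ∧ (∀ s, p s s = 0) ∧
      ∀ x : F, x ≠ 0 → g (Finsupp.single x 1) = p (cl x) (cl (1 - x)) := by
  obtain ⟨Θ, hΘ⟩ := factorK (dZ2 k F) g (fun a ha => hg a ha)
  let B : UV F →ₗ[ℤ] (UV F →ₗ[ℤ] Y) := mk2 (fun s v => Θ (ExteriorAlgebra.ι k ((1 : k) ⊗ₜ[ℤ] v) *
      ExteriorAlgebra.ι k ((1 : k) ⊗ₜ[ℤ] s)))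
      (fun x y z => by
        rw [TensorProduct.tmul_add, map_add, mul_add, map_add])
      (fun x y z => by
        rw [TensorProduct.tmul_add, map_add, add_mul, map_add])
  refine ⟨fun s => B s, ?_, fun s => ?_, fun x hx => ?_⟩
  · refine ⟨mkM (fun s => B (s 0)) ?_, fun s => rfl⟩
    intro s i x y
    obtain rfl : i = 0 := Subsingleton.elim (α := Fin 1) _ _
    simp only [Function.update_self, map_add]
  · change Θ (ExteriorAlgebra.ι k ((1 : k) ⊗ₜ[ℤ] s) * ExteriorAlgebra.ι k ((1 : k) ⊗ₜ[ℤ] s)) = 0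
    rw [ExteriorAlgebra.ι_sq_zero, map_zero]
  · rw [← hΘ]
    change Θ (dZ2 k F (Finsupp.single x 1)) = Θ (ExteriorAlgebra.ι k ((1 : k) ⊗ₜ[ℤ] (cl (1 - x))) *
      ExteriorAlgebra.ι k ((1 : k) ⊗ₜ[ℤ] (cl x)))
    unfold dZ2
    rw [Finsupp.linearCombination_single, one_smul, clk_eq,
      clk_eq]

theorem repZ0 (m : ℕ)
    (hR : ∀ n, 2 ≤ n → n ≤ m + 2 → KR k F R n ⊓ LinearMap.ker (regZ k F n) ≤ R n)
    (hb : ∀ n, 2 ≤ n → n ≤ m + 2 → ∀ (r : ℕ) (a : Fin r → (F →₀ k)),
      (∀ i, a i ∈ KR k F R n) → LinearIndependent k (fun i => regZ k F n (a i)) →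
      LinearIndependent ℝ (fun i => regZ k F n (a i))) :
    ∀ {Y : Type} [AddCommGroup Y] [Module k Y] [Module ℝ Y] [IsScalarTower k ℝ Y] (g : (F →₀ k) →ₗ[k] Y),
    (∀ ξ ∈ R (m + 2), g ξ = 0) →
    ∃ (p : UV F → (UV F →ₗ[ℤ] Y)) (f : ℕ → InfinitePlace F → UV F → Y),
      Hm (m + 1) p ∧ (∀ s, p s s = 0) ∧ (∀ n w, 2 ≤ n → n ≤ m + 2 → Hm (m + 2 - n) (f n w)) ∧
      (∀ n w, ¬ (Odd n ∨ w.IsComplex) → ∀ s, f n w s = 0) ∧
      ∀ x : F, x ≠ 0 → g (Finsupp.single x 1) = p (cl x) (cl (1 - x)) +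
        ∑ n ∈ Finset.Icc 2 (m + 2), ∑ w : InfinitePlace F,
          Lcal n (w.embedding x) • f n w (cl x) := by
  induction m with
  | zero =>
    intro Y _ _ _ _ g hg
    obtain ⟨y, h, hy, hh, hgh⟩ := Zag1N.exists_y' 2 le_rfl (hR 2 le_rfl le_rfl)
      (hb 2 le_rfl le_rfl) g hg
    obtain ⟨p, hp, hpp, hx⟩ := two_form h hh
    refine ⟨p, fun n w _ => if n = 2 then y w else 0, hp, hpp, ?_, ?_, ?_⟩
    · intro n w h2 hn
      obtain rfl : n = 2 := by omega
      change Hm 0 _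
      exact ⟨MultilinearMap.constOfIsEmpty ℤ _ (y w), fun s => rfl⟩
    · intro n w hw s
      by_cases h : n = 2
      · subst h
        exact hy w hw
      · change (if n = 2 then y w else 0) = 0
        rw [if_neg h]
    · intro x hx0
      have e : Finset.Icc 2 (0 + 2) = {2} := rfl
      rw [hgh, hx x hx0, e, Finset.sum_singleton]
      congr 1
      refine Finset.sum_congr rfl fun w _ => ?_
      rw [Zag1N.Lsum_single]
      rfl
  | succ m ih =>
    intro Y _ _ _ _ g hg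
    obtain ⟨y, h, hy, hh, hgh⟩ := Zag1N.exists_y' (m + 3) (by omega) (hR (m + 3) (by omega) le_rfl)
      (hb (m + 3) (by omega) le_rfl) g hg
    obtain ⟨g', hg', hgg⟩ := Zag1N.succ_form (m + 2) (by omega) h hh
    obtain ⟨p, f, hp, hpp, hf, hf0, hx⟩ := ih (fun n h2 hn => hR n h2 (by omega))
      (fun n h2 hn => hb n h2 (by omega)) g' hg'
    obtain ⟨G, hG⟩ : ∃ G : ℕ → InfinitePlace F → UV F → Y, G = fun n w s =>
      if n = m + 3 then y w else f n w s s := ⟨_, rfl⟩
    have G1 : ∀ n, n ≠ m + 3 → ∀ w, G n w = fun s => f n w s s := by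
      intro n h w
      rw [hG]
      funext s
      change (if n = m + 3 then _ else _) = _
      rw [if_neg h]
    have G2 : ∀ w, G (m + 3) w = fun _ => y w := by
      intro w
      rw [hG]
      funext s
      change (if m + 3 = m + 3 then _ else _) = _
      rw [if_pos rfl]
    refine ⟨fun s => (p s).flip s, G, hp.uncurry2, fun s => ?_, fun n w h2 hn => ?_,
      fun n w hw s => ?_, fun x hx0 => ?_⟩
    · change p s s s = 0
      rw [hpp]
      rfl
    · by_cases h : n = m + 3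
      · subst h
        rw [G2]
        have h2 : m + 1 + 2 - (m + 3) = 0 := by omega
        rw [h2]
        exact ⟨MultilinearMap.constOfIsEmpty ℤ _ (y w), fun s => rfl⟩
      · rw [G1 n h]
        have h1 := (hf n w h2 (by omega)).uncurry
        have h3 : m + 2 - n + 1 = m + 1 + 2 - n := by omega
        rwa [h3] at h1
    · by_cases h : n = m + 3
      · subst h
        rw [G2]
        exact hy w hw
      · rw [G1 n h]
        change f n w s s = 0
        rw [hf0 n w hw]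
        rfl
    · have e1 : h (Finsupp.single x 1) = p (cl x) (cl (1 - x)) (cl x) +
          ∑ n ∈ Finset.Icc 2 (m + 2), ∑ w : InfinitePlace F,
            Lcal n (w.embedding x) • f n w (cl x) (cl x) := by
        rw [hgg x hx0, hx x hx0, LinearMap.add_apply, LinearMap.sum_apply]
        congr 1
        refine Finset.sum_congr rfl fun n _ => ?_
        rw [LinearMap.sum_apply]
        rfl
      have e2 : ∑ n ∈ Finset.Icc 2 (m + 2), ∑ w : InfinitePlace F,
            Lcal n (w.embedding x) • G n w (cl x) =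
          ∑ n ∈ Finset.Icc 2 (m + 2), ∑ w : InfinitePlace F,
            Lcal n (w.embedding x) • f n w (cl x) (cl x) := by
        refine Finset.sum_congr rfl fun n hn => Finset.sum_congr rfl fun w _ => ?_
        have hn' := (Finset.mem_Icc.1 hn).2
        rw [G1 n (by omega)]
      have e3 : ∑ n ∈ Finset.Icc 2 (m + 1 + 2), ∑ w : InfinitePlace F,
            Lcal n (w.embedding x) • G n w (cl x) =
          ∑ n ∈ Finset.Icc 2 (m + 2), ∑ w : InfinitePlace F,
            Lcal n (w.embedding x) • G n w (cl x) +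
          ∑ w : InfinitePlace F, Lcal (m + 3) (w.embedding x) • G (m + 3) w (cl x) := by
        have h1 : m + 1 + 2 = m + 2 + 1 := by ring
        rw [h1]
        exact Finset.sum_Icc_succ_top (by omega) _
      change g (Finsupp.single x 1) = p (cl x) (cl (1 - x)) (cl x) + _
      rw [hgh, e1, e3, e2, add_assoc]
      congr 2
      refine Finset.sum_congr rfl fun w _ => ?_
      rw [G2, Zag1N.Lsum_single]

/-! ### the second part -/

theorem Lcal_zero (n : ℕ) : Lcal n 0 = 0 := by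
  have h1 : ∀ r, PLc r 0 = 0 := by
    intro r
    unfold PLc
    simp
  have h2 : SVz n 0 = 0 := by
    unfold SVz
    simp [h1]
  unfold Lcal SVc
  rw [norm_zero, if_pos (by norm_num), h2]
  simp

theorem RZ_Lsum (n : ℕ) (hn : 2 ≤ n) (ξ : F →₀ k) (hξ : ξ ∈ RZ k F n) (σ : F →+* ℂ) :
    Lsum k F n σ ξ = 0 := by
  obtain ⟨r, rfl⟩ : ∃ r, n = r + 2 := ⟨n - 2, by omega⟩
  cases r with
  | zero =>
    have h1 := (Submodule.mem_inf.1 hξ).2
    exact (Submodule.mem_iInf _).1 h1 σ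
  | succ r =>
    have h1 := (Submodule.mem_inf.1 hξ).2
    exact (Submodule.mem_iInf _).1 h1 σ

theorem RZ_dZ (n : ℕ) (hn : 2 ≤ n) (ξ : F →₀ k) (hξ : ξ ∈ RZ k F (n + 1)) :
    dZ k F (RZ k F n) ξ = 0 := by
  obtain ⟨r, rfl⟩ : ∃ r, n = r + 2 := ⟨n - 2, by omega⟩
  exact (Submodule.mem_inf.1 hξ).1

/-- contraction with the last variable -/
theorem contract {Y : Type} [AddCommGroup Y] [Module k Y] (R : Submodule k (F →₀ k))
    (h : F → (UV F →ₗ[ℤ] Y)) (h0 : ∀ ξ ∈ R, Finsupp.linearCombination k h ξ = 0)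
    (ξ : F →₀ k) (hξ : dZ k F R ξ = 0) :
    Finsupp.linearCombination k (fun x => h x (cl x)) ξ = 0 := by
  let B : ((F →₀ k) ⧸ R) →ₗ[k] ((k ⊗[ℤ] Additive Fˣ) →ₗ[k] Y) :=
    (LinearMap.liftBaseChangeEquiv k).toLinearMap ∘ₗ
      (R.liftQ (Finsupp.linearCombination k h) (fun ξ hξ => h0 ξ hξ))
  have key : TensorProduct.lift B ∘ₗ dZ k F R = Finsupp.linearCombination k (fun x => h x (cl x)) := by
    refine Finsupp.lhom_ext' fun x => LinearMap.ext_ring ?_
    change TensorProduct.lift B (dZ k F R (Finsupp.single x 1)) =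
      Finsupp.linearCombination k (fun x => h x (cl x)) (Finsupp.single x 1)
    unfold dZ
    rw [Finsupp.linearCombination_single, Finsupp.linearCombination_single, one_smul, one_smul,
      TensorProduct.lift.tmul, clk_eq]
    change (LinearMap.liftBaseChange k (Finsupp.linearCombination k h (Finsupp.single x 1)))
      ((1 : k) ⊗ₜ[ℤ] cl x) = _
    rw [LinearMap.liftBaseChange_tmul, one_smul, Finsupp.linearCombination_single, one_smul]
  rw [← key]
  change TensorProduct.lift B (dZ k F R ξ) = 0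
  rw [hξ, map_zero]

theorem Lpart (i : ℕ) (hi : 2 ≤ i) (σ : F →+* ℂ) (a : ℕ) :
    ∀ {Y : Type} [AddCommGroup Y] [Module k Y] [Module ℝ Y] [IsScalarTower k ℝ Y] (ψ : UV F → Y), Hm a ψ →
      ∀ ξ ∈ RZ k F (i + a),
        Finsupp.linearCombination k (fun x : F => Lcal i (σ x) • ψ (cl x)) ξ = 0 := by
  induction a with
  | zero =>
    intro Y _ _ _ _ ψ hψ ξ hξ
    let T : ℝ →ₗ[k] Y :=
      { toFun := fun r => r • ψ 0
        map_add' := fun r r' => add_smul _ _ _
        map_smul' := fun a r => smul_assoc a r (ψ 0) }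
    have h1 : Finsupp.linearCombination k (fun x : F => Lcal i (σ x) • ψ (cl x)) =
        T ∘ₗ Lsum k F i σ := by
      refine Finsupp.lhom_ext' fun x => LinearMap.ext_ring ?_
      change Finsupp.linearCombination k (fun x : F => Lcal i (σ x) • ψ (cl x))
        (Finsupp.single x 1) = T (Lsum k F i σ (Finsupp.single x 1))
      rw [Finsupp.linearCombination_single, one_smul, Zag1N.Lsum_single, hψ.zero_const (cl x) 0]
      rfl
    rw [h1]
    change T (Lsum k F i σ ξ) = 0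
    rw [RZ_Lsum i hi ξ hξ σ, map_zero]
  | succ a ih =>
    intro Y _ _ _ _ ψ hψ ξ hξ
    obtain ⟨Ψ, hΨ⟩ := hψ
    let ψ' : UV F → (UV F →ₗ[ℤ] Y) := fun s => Ψ.curryRight (fun _ => s)
    have h1 : ∀ s, ψ s = ψ' s s := by
      intro s
      rw [hΨ]
      change _ = Ψ.curryRight (fun _ => s) s
      rw [MultilinearMap.curryRight_apply]
      congr 1
      funext j
      refine Fin.lastCases ?_ (fun j => ?_) j
      · rw [Fin.snoc_last]
      · rw [Fin.snoc_castSucc]
    have h2 := ih ψ' ⟨Ψ.curryRight, fun s => rfl⟩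
    have h3 := contract (RZ k F (i + a)) (fun x : F => Lcal i (σ x) • ψ' (cl x)) h2 ξ
      (RZ_dZ (i + a) (by omega) ξ hξ)
    have h4 : (fun x : F => Lcal i (σ x) • ψ (cl x)) =
        fun x => (Lcal i (σ x) • ψ' (cl x)) (cl x) := by
      funext x
      rw [LinearMap.smul_apply, h1]
    rw [h4]
    exact h3

theorem Ppart (m : ℕ) : ∀ {Y : Type} [AddCommGroup Y] [Module k Y] [Module ℚ Y]
    (p : UV F → (UV F →ₗ[ℤ] Y)), Hm (m + 1) p → (∀ s, p s s = 0) → ∀ ξ ∈ RZ k F (m + 2),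
      Finsupp.linearCombination k (fun x : F => p (cl x) (cl (1 - x))) ξ = 0 := by
  induction m with
  | zero =>
    intro Y _ _ _ p hp hpp ξ hξ
    obtain ⟨ψ, hψ⟩ := hp
    -- the bilinear form
    have hadd : ∀ x y : UV F, p (x + y) = p x + p y := by
      intro x y
      rw [hψ, hψ, hψ]
      have h1 := ψ.map_update_add (fun _ => (0 : UV F)) 0 x y
      have h2 : ∀ z : UV F, Function.update (fun _ : Fin (0 + 1) => (0 : UV F)) 0 z =
          fun _ => z := by
        intro z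
        funext j
        obtain rfl : j = 0 := Subsingleton.elim (α := Fin 1) _ _
        rw [Function.update_self]
      rw [h2, h2, h2] at h1
      exact h1
    let B : UV F →ₗ[ℤ] (UV F →ₗ[ℤ] Y) := (AddMonoidHom.mk' p hadd).toIntLinearMap
    have hB : ∀ s t, B s t = p s t := fun s t => rfl
    have hanti : ∀ s t, B s t = - B t s := by
      intro s t
      have h1 : B (s + t) (s + t) = 0 := hpp _
      rw [map_add, map_add, LinearMap.add_apply, LinearMap.add_apply] at h1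
      have h2 : B s s = 0 := hpp s
      have h3 : B t t = 0 := hpp t
      rw [h2, h3, zero_add, add_zero] at h1
      rw [add_comm] at h1
      exact eq_neg_of_add_eq_zero_left h1
    let B1 : UV F →ₗ[ℤ] ((k ⊗[ℤ] Additive Fˣ) →ₗ[k] Y) :=
      (AddMonoidHom.mk' (fun s => LinearMap.liftBaseChangeEquiv k (B s)) (fun x y => by
        rw [map_add, map_add])).toIntLinearMap
    let B2 : (k ⊗[ℤ] Additive Fˣ) →ₗ[k] ((k ⊗[ℤ] Additive Fˣ) →ₗ[k] Y) :=
      LinearMap.liftBaseChangeEquiv k B1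
    have hB2 : ∀ s t : UV F, B2 ((1 : k) ⊗ₜ[ℤ] s) ((1 : k) ⊗ₜ[ℤ] t) = B s t := by
      intro s t
      change (LinearMap.liftBaseChange k B1 ((1 : k) ⊗ₜ[ℤ] s)) ((1 : k) ⊗ₜ[ℤ] t) = _
      rw [LinearMap.liftBaseChange_tmul, one_smul]
      change LinearMap.liftBaseChange k (B s) ((1 : k) ⊗ₜ[ℤ] t) = _
      rw [LinearMap.liftBaseChange_tmul, one_smul]
    obtain ⟨Θ, hΘ⟩ := functional_twoK ((1 / 2 : k) • B2.flip)
    have key : Finsupp.linearCombination k (fun x : F => p (cl x) (cl (1 - x))) = Θ ∘ₗ dZ2 k F := by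
      refine Finsupp.lhom_ext' fun x => LinearMap.ext_ring ?_
      change Finsupp.linearCombination k (fun x : F => p (cl x) (cl (1 - x)))
        (Finsupp.single x 1) = Θ (dZ2 k F (Finsupp.single x 1))
      unfold dZ2
      rw [Finsupp.linearCombination_single, Finsupp.linearCombination_single, one_smul, one_smul,
        hΘ, clk_eq, clk_eq]
      simp only [LinearMap.smul_apply, LinearMap.flip_apply, hB2]
      rw [← hB, hanti (cl (1 - x)) (cl x), smul_neg, sub_neg_eq_add, ← add_smul]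
      have hk : CharZero k := (algebraMap k ℝ).charZero
      rw [add_halves, one_smul]
    rw [key]
    change Θ (dZ2 k F ξ) = 0
    have h1 : dZ2 k F ξ = 0 := (Submodule.mem_inf.1 hξ).1
    rw [h1, map_zero]
  | succ m ih =>
    intro Y _ _ _ p hp hpp ξ hξ
    obtain ⟨Q, hQ⟩ := hp
    obtain ⟨Q', q1, q2⟩ := K0' m Q (fun s => by rw [← hQ, hpp])
    have h2 := ih (Y := UV F →ₗ[ℤ] Y) (fun s => Q' (fun _ => s)) ⟨Q', fun s => rfl⟩ q1
    have h3 := contract (RZ k F (m + 2)) (fun x : F => Q' (fun _ => cl x) (cl (1 - x))) h2 ξ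
      (RZ_dZ (m + 2) (by omega) ξ hξ)
    have h4 : (fun x : F => p (cl x) (cl (1 - x))) =
        fun x => Q' (fun _ => cl x) (cl (1 - x)) (cl x) := by
      funext x
      rw [q2, hQ]
    rw [h4]
    exact h3

end K

end Cpx3N

variable (k : Type) [Field k] [Algebra k ℝ] (F : Type) [Field F] [NumberField F]

/-- [CPX3a] `repZ` with one more property -/
theorem repZ' (R : ℕ → Submodule k (F →₀ k)) (m : ℕ)
    (hR : ∀ n, 2 ≤ n → n ≤ m + 2 → KR k F R n ⊓ LinearMap.ker (regZ k F n) ≤ R n)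
    (hb : ∀ n, 2 ≤ n → n ≤ m + 2 → ∀ (r : ℕ) (a : Fin r → (F →₀ k)),
      (∀ i, a i ∈ KR k F R n) → LinearIndependent k (fun i => regZ k F n (a i)) →
      LinearIndependent ℝ (fun i => regZ k F n (a i))) :
    ∀ {Y : Type} [AddCommGroup Y] [Module k Y] [Module ℝ Y] [IsScalarTower k ℝ Y] (g : (F →₀ k) →ₗ[k] Y),
    (∀ ξ ∈ R (m + 2), g ξ = 0) →
    ∃ (p : UV F → (UV F →ₗ[ℤ] Y)) (f : Ess F (m + 2) → UV F → Y),
      Hm (m + 1) p ∧ (∀ s, p s s = 0) ∧ (∀ j, Hm (m + 2 - (j.1.1 : ℕ)) (f j)) ∧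
      ∀ x : F, x ≠ 0 → g (Finsupp.single x 1) = p (cl x) (cl (1 - x)) +
        ∑ j : Ess F (m + 2), Lcal (j.1.1 : ℕ) (j.1.2.embedding x) • f j (cl x) := by
  intro Y _ _ _ _ g hg
  obtain ⟨p, f, hp, hpp, hf, hf0, hx⟩ := Cpx3N.repZ0 m hR hb g hg
  refine ⟨p, fun j => f (j.1.1 : ℕ) j.1.2, hp, hpp, fun j => hf _ _ j.2.1 (by
    have := j.1.1.2
    omega), fun x hx0 => ?_⟩
  rw [hx x hx0, Zag1N.sum_Ess (m + 2) (fun n w => Lcal n (w.embedding x) • f n w (cl x))
    (fun n w hw => by rw [hf0 n w hw, smul_zero])]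

/-- [CPX3b] the converse: all these functionals vanish on the relations -/
theorem rep_RZ (m : ℕ) {Y : Type} [AddCommGroup Y] [Module k Y] [Module ℝ Y] [IsScalarTower k ℝ Y]
    (p : UV F → (UV F →ₗ[ℤ] Y)) (f : Ess F (m + 2) → UV F → Y) (hp : Hm (m + 1) p)
    (hp0 : ∀ s, p s s = 0) (hf : ∀ j, Hm (m + 2 - (j.1.1 : ℕ)) (f j))
    (g : (F →₀ k) →ₗ[k] Y) (hg0 : g (Finsupp.single 0 1) = 0)
    (hg : ∀ x : F, x ≠ 0 → g (Finsupp.single x 1) = p (cl x) (cl (1 - x)) +
        ∑ j : Ess F (m + 2), Lcal (j.1.1 : ℕ) (j.1.2.embedding x) • f j (cl x)) :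
    ∀ ξ ∈ RZ k F (m + 2), g ξ = 0 := by
  intro ξ hξ
  letI : Module ℚ Y := Module.compHom Y (algebraMap ℚ ℝ)
  have key : g = Finsupp.linearCombination k (fun x : F => p (cl x) (cl (1 - x))) +
      ∑ j : Ess F (m + 2), Finsupp.linearCombination k
        (fun x : F => Lcal (j.1.1 : ℕ) (j.1.2.embedding x) • f j (cl x)) := by
    refine Finsupp.lhom_ext' fun x => LinearMap.ext_ring ?_
    change g (Finsupp.single x 1) = (Finsupp.linearCombination k
      (fun x : F => p (cl x) (cl (1 - x))) + ∑ j : Ess F (m + 2), Finsupp.linearCombination k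
        (fun x : F => Lcal (j.1.1 : ℕ) (j.1.2.embedding x) • f j (cl x))) (Finsupp.single x 1)
    rw [LinearMap.add_apply, LinearMap.sum_apply]
    simp only [Finsupp.linearCombination_single, one_smul]
    by_cases hx : x = 0
    · subst hx
      rw [hg0, sub_zero, H39Gon.E2.cl_one, map_zero, zero_add]
      symm
      refine Finset.sum_eq_zero fun j _ => ?_
      rw [map_zero, Cpx3N.Lcal_zero, zero_smul]
    · exact hg x hx
  rw [key, LinearMap.add_apply, LinearMap.sum_apply, Cpx3N.Ppart m p hp hp0 ξ hξ, zero_add]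
  refine Finset.sum_eq_zero fun j _ => ?_
  have hj : (j.1.1 : ℕ) + (m + 2 - (j.1.1 : ℕ)) = m + 2 := by
    have := j.1.1.2
    omega
  exact Cpx3N.Lpart (j.1.1 : ℕ) j.2.1 j.1.2.embedding (m + 2 - (j.1.1 : ℕ)) (f j) (hf j) ξ
    (by rw [hj]; exact hξ)

end Pool.Agent.H366.NK
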