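import Pool.Agent.H366.NK.SVc
import Pool.Agent.H366.ZC.Poly

/-! # [POLYR] one real variable -/

set_option autoImplicit false

namespace Pool.Agent.H366.NK

namespace PolyRN

/-- the exponent `(a, b)` -/
noncomputable def ex (a b : ℕ) : Fin 2 →₀ ℕ := Finsupp.single 0 a + Finsupp.single 1 b

theorem ex_zero (a b : ℕ) : ex a b 0 = a := by
  simp [ex]

theorem ex_one (a b : ℕ) : ex a b 1 = b := by
  simp [ex]

theorem ex_eta (d : Fin 2 →₀ ℕ) : ex (d 0) (d 1) = d := by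
  ext i
  fin_cases i
  · exact ex_zero _ _
  · exact ex_one _ _

/-- a polynomial in two variables as a double sum -/
theorem eval_two (n : ℕ) (p : MvPolynomial (Fin 2) ℝ) (hp : p.totalDegree ≤ n) (x y : ℝ) :
    MvPolynomial.eval ![x, y] p = ∑ a ∈ Finset.range (n + 1), ∑ b ∈ Finset.range (n + 1),
      p.coeff (ex a b) * x ^ a * y ^ b := by
  rw [MvPolynomial.eval_eq', ← Finset.sum_product']
  refine Finset.sum_of_injOn (fun d => (d 0, d 1)) ?_ ?_ ?_ ?_
  · intro d _ d' _ hd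
    have h1 := congrArg Prod.fst hd
    have h2 := congrArg Prod.snd hd
    simp only at h1 h2
    rw [← ex_eta d, ← ex_eta d', h1, h2]
  · intro d hd
    have h1 := (MvPolynomial.le_totalDegree (Finset.mem_coe.mp hd)).trans hp
    have h2 : (d.sum fun _ e => e) = d 0 + d 1 := by
      rw [Finsupp.sum_fintype _ _ (fun _ => rfl), Fin.sum_univ_two]
    rw [h2] at h1
    simp only [Finset.coe_product, Finset.coe_range, Set.mem_prod, Set.mem_Iio]
    omega
  · rintro ⟨a, b⟩ _ hab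
    have h1 : p.coeff (ex a b) = 0 := by
      by_contra hne
      apply hab
      refine ⟨ex a b, Finset.mem_coe.mpr (MvPolynomial.mem_support_iff.mpr hne), ?_⟩
      show (ex a b 0, ex a b 1) = (a, b)
      rw [ex_zero, ex_one]
    show p.coeff (ex a b) * x ^ a * y ^ b = 0
    rw [h1, zero_mul, zero_mul]
  · intro d _
    show p.coeff d * ∏ i : Fin 2, ![x, y] i ^ d i = p.coeff (ex (d 0) (d 1)) * x ^ (d 0) * y ^ (d 1)
    rw [ex_eta, Fin.prod_univ_two, mul_assoc]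
    rfl

theorem SVc_real' (n : ℕ) (hn : Odd n) (x : ℝ) (hx : 0 < x) : SVc n (x : ℂ) = ZC.SV n x := by
  have h1 : SVz n (x : ℂ) = ((ZC.SV n x : ℝ) : ℂ) := by
    unfold SVz ZC.SV
    rw [Complex.ofReal_sum]
    refine Finset.sum_congr rfl fun k _ => ?_
    have h2 : PLc (n - k) (x : ℂ) = ((ZC.PL (n - k) x : ℝ) : ℂ) := ZC.PolyN.PC_ofReal (n - k) x
    rw [h2, Complex.norm_real, Real.norm_eq_abs, abs_of_pos hx]
    push_cast
    ring
  unfold SVc
  rw [if_pos hn, h1, Complex.ofReal_re]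

end PolyRN

/-- [POLYR1] -/
theorem SVc_real (n : ℕ) (hn : Odd n) (x : ℝ) (hx : 0 < x) (hx1 : x ≤ 1) :
    SVc n (x : ℂ) = ZC.SV n x := PolyRN.SVc_real' n hn x hx

open PolyRN in
/-- [POLYR2] `1, 𝓛_3, 𝓛_5, …` are linearly independent over `ℝ[log t, log(1-t)]` on `(0, 1)` -/
theorem indep_real (N : ℕ) (h : Option {n : Fin (N + 1) // 2 ≤ (n : ℕ) ∧ Odd (n : ℕ)} →
      MvPolynomial (Fin 2) ℝ)
    (H : ∀ t : ℝ, 0 < t → t < 1 → MvPolynomial.eval ![Real.log t, Real.log (1 - t)] (h none) +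
      ∑ n : {n : Fin (N + 1) // 2 ≤ (n : ℕ) ∧ Odd (n : ℕ)}, SVc (n.1 : ℕ) (t : ℂ) *
        MvPolynomial.eval ![Real.log t, Real.log (1 - t)] (h (some n)) = 0) : h = 0 := by
  classical
  obtain ⟨g, hg⟩ : ∃ g : ℕ → MvPolynomial (Fin 2) ℝ, g = fun i => if i = 0 then h none else
      if hi : 1 ≤ i ∧ 2 * i + 1 < N + 1 then h (some ⟨⟨2 * i + 1, hi.2⟩, by
        have := hi.1
        show 2 ≤ 2 * i + 1
        omega, ⟨i, rfl⟩⟩) else 0 := ⟨_, rfl⟩
  have hg0 : g 0 = h none := by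
    rw [hg]
    exact if_pos rfl
  have hgs : ∀ s : {n : Fin (N + 1) // 2 ≤ (n : ℕ) ∧ Odd (n : ℕ)},
      g (((s.1 : ℕ) - 1) / 2) = h (some s) := by
    rintro ⟨⟨m, hm⟩, hm2, hmo⟩
    obtain ⟨i, rfl⟩ : ∃ i, m = 2 * i + 1 := hmo
    have hm2' : 2 ≤ 2 * i + 1 := hm2
    show g ((2 * i + 1 - 1) / 2) = _
    have h1 : (2 * i + 1 - 1) / 2 = i := by omega
    rw [h1, hg]
    have h2 : ¬ i = 0 := by omega
    have h3 : 1 ≤ i ∧ 2 * i + 1 < N + 1 := ⟨by omega, hm⟩
    show (if i = 0 then h none else _) = _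
    rw [if_neg h2, dif_pos h3]
  have hgn : ∀ i, i ≠ 0 → ¬ (2 * i + 1 < N + 1) → g i = 0 := by
    intro i hi hi'
    rw [hg]
    show (if i = 0 then h none else _) = _
    rw [if_neg hi, dif_neg (fun h => hi' h.2)]
  -- a bound for the degrees
  obtain ⟨n, hn⟩ : ∃ n : ℕ, ∀ i ∈ Finset.range (N + 1), (g i).totalDegree ≤ n :=
    ⟨(Finset.range (N + 1)).sup fun i => (g i).totalDegree, fun i hi =>
      Finset.le_sup (f := fun i => (g i).totalDegree) hi⟩
  have key := ZC.phi_indep N n (fun i a b => (g i).coeff (ex a b)) (by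
    rintro t ⟨ht0, ht1⟩
    have h1 : ∀ i : Fin (N + 1), (∑ a : Fin (n + 1), ∑ b : Fin (n + 1),
        (g i).coeff (ex a b) * ZC.phi i t * Real.log t ^ (a : ℕ) * Real.log (1 - t) ^ (b : ℕ)) =
        ZC.phi i t * MvPolynomial.eval ![Real.log t, Real.log (1 - t)] (g i) := by
      intro i
      rw [eval_two n (g i) (hn i (Finset.mem_range.mpr i.2)), Finset.mul_sum,
        Finset.sum_range (fun a => ZC.phi i t * ∑ b ∈ Finset.range (n + 1),
          (g i).coeff (ex a b) * Real.log t ^ a * Real.log (1 - t) ^ b)]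
      refine Finset.sum_congr rfl fun a _ => ?_
      rw [Finset.mul_sum, Finset.sum_range (fun b => ZC.phi i t *
          ((g i).coeff (ex a b) * Real.log t ^ (a : ℕ) * Real.log (1 - t) ^ b))]
      refine Finset.sum_congr rfl fun b _ => ?_
      ring
    rw [Finset.sum_congr rfl fun i _ => h1 i,
      ← Finset.sum_range (fun i => ZC.phi i t *
        MvPolynomial.eval ![Real.log t, Real.log (1 - t)] (g i)),
      ← Finset.add_sum_erase _ _ (Finset.mem_range.mpr (Nat.succ_pos N)), hg0]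
    have h2 : ZC.phi 0 t = 1 := if_pos rfl
    rw [h2, one_mul, ← H t ht0 ht1]
    congr 1
    symm
    refine Finset.sum_of_injOn (fun s => ((s.1 : ℕ) - 1) / 2) ?_ ?_ ?_ ?_
    · rintro ⟨⟨m, hm⟩, hm2, hmo⟩ _ ⟨⟨m', hm'⟩, hm2', hmo'⟩ _ hmm
      obtain ⟨i, rfl⟩ : ∃ i, m = 2 * i + 1 := hmo
      obtain ⟨i', rfl⟩ : ∃ i, m' = 2 * i + 1 := hmo'
      have h3 : (2 * i + 1 - 1) / 2 = (2 * i' + 1 - 1) / 2 := hmm
      have h4 : i = i' := by omega
      subst h4
      rfl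
    · rintro ⟨⟨m, hm⟩, hm2, hmo⟩ _
      obtain ⟨i, rfl⟩ : ∃ i, m = 2 * i + 1 := hmo
      have hm2' : 2 ≤ 2 * i + 1 := hm2
      rw [Finset.mem_coe, Finset.mem_erase, Finset.mem_range]
      show (2 * i + 1 - 1) / 2 ≠ 0 ∧ (2 * i + 1 - 1) / 2 < N + 1
      omega
    · intro i hi hi'
      rw [Finset.mem_erase, Finset.mem_range] at hi
      have h3 : g i = 0 := by
        apply hgn i hi.1
        intro h4
        apply hi'
        have h5 : 2 ≤ 2 * i + 1 := by omega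
        refine ⟨⟨⟨2 * i + 1, h4⟩, h5, ⟨i, rfl⟩⟩, by simp, ?_⟩
        show (2 * i + 1 - 1) / 2 = i
        omega
      show ZC.phi i t * MvPolynomial.eval ![Real.log t, Real.log (1 - t)] (g i) = 0
      rw [h3, map_zero, mul_zero]
    · rintro s _
      show SVc (s.1 : ℕ) (t : ℂ) * MvPolynomial.eval ![Real.log t, Real.log (1 - t)] (h (some s)) =
        ZC.phi (((s.1 : ℕ) - 1) / 2) t *
          MvPolynomial.eval ![Real.log t, Real.log (1 - t)] (g (((s.1 : ℕ) - 1) / 2))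
      rw [hgs s]
      congr 1
      obtain ⟨⟨m, hm⟩, hm2, hmo⟩ := s
      obtain ⟨i, rfl⟩ : ∃ i, m = 2 * i + 1 := hmo
      have hm2' : 2 ≤ 2 * i + 1 := hm2
      show SVc (2 * i + 1) (t : ℂ) = ZC.phi ((2 * i + 1 - 1) / 2) t
      have h3 : (2 * i + 1 - 1) / 2 = i := by omega
      have h4 : ¬ i = 0 := by omega
      rw [h3, SVc_real' _ ⟨i, rfl⟩ t ht0, ZC.phi, if_neg h4])
  have hgz : ∀ i, i < N + 1 → g i = 0 := by
    intro i hi
    ext d
    rw [MvPolynomial.coeff_zero]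
    by_contra hne
    have h1 := (MvPolynomial.le_totalDegree (MvPolynomial.mem_support_iff.mpr hne)).trans
      (hn i (Finset.mem_range.mpr hi))
    have h2 : (d.sum fun _ e => e) = d 0 + d 1 := by
      rw [Finsupp.sum_fintype _ _ (fun _ => rfl), Fin.sum_univ_two]
    rw [h2] at h1
    have h3 := congrFun (congrFun (congrFun key ⟨i, hi⟩) ⟨d 0, by omega⟩) ⟨d 1, by omega⟩
    have h4 : (g i).coeff (ex (d 0) (d 1)) = 0 := h3
    rw [ex_eta] at h4
    exact hne h4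
  funext s
  rcases s with _ | s
  · rw [← hg0]
    exact hgz 0 (Nat.succ_pos N)
  · rw [← hgs s]
    apply hgz
    have := s.1.2
    omega

end Pool.Agent.H366.NK
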