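import Pool.Agent.H366.NK.SVc
import Pool.Agent.H366.NK.PolyR

/-! # [POLYC] one complex variable -/

set_option autoImplicit false

namespace Pool.Agent.H366.NK

namespace PolyCN

open Filter Topology Polynomial
open Pool.Agent.H366.ZC (PL SV)
open Pool.Agent.H366.ZC.PolyN

/-! ### basic facts -/

theorem PLc_eq (k : ℕ) (z : ℂ) : PLc k z = PC k z := rfl

theorem PC_zero (z : ℂ) (hz : ‖z‖ < 1) : PC 0 z = z * (1 - z)⁻¹ := by
  unfold PC
  simp only [pow_zero, div_one]
  have h : ∀ m : ℕ, z ^ (m + 1) = z * z ^ m := fun m => by ring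
  simp only [h]
  rw [tsum_mul_left, tsum_geometric_of_norm_lt_one hz]

theorem PC_diff' (k : ℕ) : DifferentiableOn ℂ (PC k) (Metric.ball 0 1) := by
  rcases k with _ | k
  · intro z hz
    rw [mem_ball_zero_iff] at hz
    have h1 : (1 : ℂ) - z ≠ 0 := by
      intro h
      have : z = 1 := (sub_eq_zero.1 h).symm
      rw [this, norm_one] at hz
      exact lt_irrefl _ hz
    have h2 : DifferentiableAt ℂ (fun z : ℂ => z * (1 - z)⁻¹) z :=
      differentiableAt_id.mul (((differentiableAt_const _).sub differentiableAt_id).inv h1)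
    have h3 : (fun z : ℂ => z * (1 - z)⁻¹) =ᶠ[𝓝 z] PC 0 := by
      have h4 : Metric.ball (0 : ℂ) 1 ∈ 𝓝 z :=
        Metric.isOpen_ball.mem_nhds (by rw [mem_ball_zero_iff]; exact hz)
      filter_upwards [h4] with y hy
      rw [mem_ball_zero_iff] at hy
      exact (PC_zero y hy).symm
    exact (h3.differentiableAt_iff.1 h2).differentiableWithinAt
  · exact PC_diff k

/-- the coefficients, real -/
noncomputable def bt (k : ℕ) : ℝ := (2 : ℝ) ^ k * ((bernoulli k : ℚ) : ℝ) / (k.factorial : ℝ)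

theorem SVz_eq (n : ℕ) (z : ℂ) :
    SVz n z = ∑ k ∈ Finset.range n, ((bt k * Real.log ‖z‖ ^ k : ℝ) : ℂ) * PC (n - k) z := rfl

theorem bt_zero : bt 0 = 1 := by
  unfold bt
  simp

theorem bt_one : bt 1 = -1 := by
  unfold bt
  rw [_root_.bernoulli_one]
  norm_num

theorem bt_odd {k : ℕ} (hk : Odd k) (h1 : 1 < k) : bt k = 0 := by
  unfold bt
  rw [bernoulli_eq_zero_of_odd hk h1]
  simp

/-- the derivative in the direction of the angle -/
noncomputable def DD' (n : ℕ) (r : ℝ) : ℝ :=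
  ∑ k ∈ Finset.range n, bt k * Real.log r ^ k * PL (n - 1 - k) r

theorem SVc_real_even {n : ℕ} (hn : ¬ Odd n) {r : ℝ} : SVc n (r : ℂ) = 0 := by
  unfold SVc
  rw [if_neg hn, SVz_eq, Complex.im_sum]
  refine Finset.sum_eq_zero fun k _ => ?_
  rw [PC_ofReal, ← Complex.ofReal_mul, Complex.ofReal_im]

theorem DD'_eq {n : ℕ} (hn : Odd n) (h3 : 3 ≤ n) {r : ℝ} (h0 : 0 < r) :
    DD' (n + 1) r = SVc n (r : ℂ) := by
  unfold DD' SVc
  rw [if_pos hn, SVz_eq, Complex.re_sum, Finset.sum_range_succ, bt_odd hn (by omega), zero_mul,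
    zero_mul, add_zero]
  refine Finset.sum_congr rfl fun k _ => ?_
  rw [PC_ofReal, ← Complex.ofReal_mul, Complex.ofReal_re, Complex.norm_real, Real.norm_eq_abs,
    abs_of_pos h0, Nat.add_sub_cancel]

end PolyCN

open PolyCN Filter Topology in
/-- [POLYC1] -/
theorem SVc_continuousOn (n : ℕ) : ContinuousOn (SVc n) {z : ℂ | 0 < ‖z‖ ∧ ‖z‖ < 1} := by
  have h1 : ContinuousOn (SVz n) {z : ℂ | 0 < ‖z‖ ∧ ‖z‖ < 1} := by
    have h2 : SVz n = fun z => ∑ k ∈ Finset.range n,
      ((bt k * Real.log ‖z‖ ^ k : ℝ) : ℂ) * ZC.PolyN.PC (n - k) z := by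
      funext z
      exact SVz_eq n z
    rw [h2]
    refine continuousOn_finsetSum _ fun k _ => ContinuousOn.mul ?_ ?_
    · refine Complex.continuous_ofReal.comp_continuousOn (continuousOn_const.mul
        (ContinuousOn.pow ?_ _))
      exact continuous_norm.continuousOn.log fun z hz => ne_of_gt hz.1
    · refine (PC_diff' (n - k)).continuousOn.mono fun z hz => ?_
      rw [mem_ball_zero_iff]
      exact hz.2
  unfold SVc
  split_ifs
  · exact Complex.continuous_re.comp_continuousOn h1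
  · exact Complex.continuous_im.comp_continuousOn h1

namespace PolyCN

open Filter Topology Polynomial
open Pool.Agent.H366.ZC (PL SV)
open Pool.Agent.H366.ZC.PolyN

/-- the derivative of `𝓛_n`, `n` even, in the direction of the angle -/
theorem hasDeriv_arg {n : ℕ} (hn : ¬ Odd n) {r : ℝ} (h0 : 0 < r) (h1 : r < 1) :
    HasDerivAt (fun θ : ℝ => SVc n ((r : ℂ) * Complex.exp (θ * Complex.I))) (DD' n r) 0 := by
  have hrne : (r : ℂ) ≠ 0 := by exact_mod_cast h0.ne'
  have hu : HasDerivAt (fun θ : ℝ => (r : ℂ) * Complex.exp (θ * Complex.I))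
      ((r : ℂ) * Complex.I) 0 := by
    have h2 : HasDerivAt (fun θ : ℝ => ((θ : ℝ) : ℂ) * Complex.I) Complex.I 0 := by
      simpa using (Complex.ofRealCLM.hasDerivAt (x := (0 : ℝ))).mul_const Complex.I
    have h3 := (h2.cexp).const_mul (r : ℂ)
    refine h3.congr_deriv ?_
    simp
  have hu0 : (r : ℂ) * Complex.exp (((0 : ℝ) : ℂ) * Complex.I) = r := by simp
  have hnorm : ∀ θ : ℝ, ‖(r : ℂ) * Complex.exp (θ * Complex.I)‖ = r := by
    intro θ
    rw [norm_mul, Complex.norm_exp_ofReal_mul_I, mul_one, Complex.norm_real, Real.norm_eq_abs,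
      abs_of_pos h0]
  have hP : ∀ m : ℕ, HasDerivAt (fun θ : ℝ => PC (m + 1) ((r : ℂ) * Complex.exp (θ * Complex.I)))
      (Complex.I * PC m r) 0 := by
    intro m
    have h2 : HasDerivAt (PC (m + 1)) (PC m r / r) ((r : ℂ) * Complex.exp (((0 : ℝ) : ℂ) * Complex.I)) := by
      rw [hu0]
      refine PC_deriv m r ?_ hrne
      rw [Complex.norm_real, Real.norm_eq_abs, abs_of_pos h0]
      exact h1
    have h3 := HasDerivAt.scomp (0 : ℝ) h2 hu
    refine h3.congr_deriv ?_
    rw [smul_eq_mul]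
    field_simp
  have hS : HasDerivAt (fun θ : ℝ => SVz n ((r : ℂ) * Complex.exp (θ * Complex.I)))
      (((DD' n r : ℝ) : ℂ) * Complex.I) 0 := by
    have h4 : (fun θ : ℝ => SVz n ((r : ℂ) * Complex.exp (θ * Complex.I))) = fun θ : ℝ =>
        ∑ k ∈ Finset.range n, ((bt k * Real.log r ^ k : ℝ) : ℂ) *
          PC (n - k) ((r : ℂ) * Complex.exp (θ * Complex.I)) := by
      funext θ
      rw [SVz_eq, hnorm]
    rw [h4]
    have h5 : HasDerivAt (fun θ : ℝ => ∑ k ∈ Finset.range n, ((bt k * Real.log r ^ k : ℝ) : ℂ) *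
          PC (n - k) ((r : ℂ) * Complex.exp (θ * Complex.I)))
        (∑ k ∈ Finset.range n, ((bt k * Real.log r ^ k : ℝ) : ℂ) *
          (Complex.I * PC (n - 1 - k) r)) 0 := by
      refine HasDerivAt.fun_sum fun k hk => ?_
      have hk' := Finset.mem_range.1 hk
      have h6 := hP (n - 1 - k)
      rw [show n - 1 - k + 1 = n - k by omega] at h6
      exact h6.const_mul _
    refine h5.congr_deriv ?_
    unfold DD'
    rw [Complex.ofReal_sum, Finset.sum_mul]
    refine Finset.sum_congr rfl fun k _ => ?_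
    rw [PC_ofReal]
    push_cast
    ring
  have h7 := Complex.imCLM.hasFDerivAt.comp_hasDerivAt (0 : ℝ) hS
  have h8 : (fun θ : ℝ => SVc n ((r : ℂ) * Complex.exp (θ * Complex.I))) =
      (Complex.imCLM ∘ fun θ : ℝ => SVz n ((r : ℂ) * Complex.exp (θ * Complex.I))) := by
    funext θ
    unfold SVc
    rw [if_neg hn]
    rfl
  rw [h8]
  refine h7.congr_deriv ?_
  simp

/-- a product with a continuous function -/
theorem tendsto_slope {f g : ℝ → ℝ} {f' : ℝ} (hf : HasDerivAt f f' 0) (hf0 : f 0 = 0)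
    (hg : ContinuousAt g 0) : Tendsto (fun θ : ℝ => θ⁻¹ * (f θ * g θ)) (𝓝[≠] 0) (𝓝 (f' * g 0)) := by
  have h1 := hasDerivAt_iff_tendsto_slope_zero.1 hf
  have h2 : Tendsto g (𝓝[≠] 0) (𝓝 (g 0)) := hg.tendsto.mono_left nhdsWithin_le_nhds
  refine (h1.mul h2).congr fun θ => ?_
  rw [zero_add, hf0, sub_zero, smul_eq_mul]
  ring

/-! ### polynomials -/

/-- `p(X, y)` -/
noncomputable def sp (p : MvPolynomial (Fin 2) ℝ) (y : ℂ) : ℂ[X] :=
  MvPolynomial.aeval ![X, C y] p

/-- `p(x, X)` -/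
noncomputable def tp (p : MvPolynomial (Fin 2) ℝ) (x : ℂ) : ℂ[X] :=
  MvPolynomial.aeval ![C x, X] p

theorem sp_eval (p : MvPolynomial (Fin 2) ℝ) (x y : ℂ) : (sp p y).eval x = (tp p x).eval y := by
  induction p using MvPolynomial.induction_on with
  | C a => simp [sp, tp]
  | add p q hp hq =>
    simp only [sp, tp, map_add, eval_add] at *
    rw [hp, hq]
  | mul_X p i hp =>
    simp only [sp, tp, map_mul, eval_mul, MvPolynomial.aeval_X] at *
    rw [hp]
    fin_cases i <;> simp

theorem sp_eval_real (p : MvPolynomial (Fin 2) ℝ) (x y : ℝ) :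
    (sp p y).eval (x : ℂ) = ((MvPolynomial.eval ![x, y] p : ℝ) : ℂ) := by
  induction p using MvPolynomial.induction_on with
  | C a => simp [sp]
  | add p q hp hq =>
    simp only [sp, map_add, eval_add, Complex.ofReal_add] at *
    rw [hp, hq]
  | mul_X p i hp =>
    simp only [sp, map_mul, eval_mul, MvPolynomial.aeval_X, MvPolynomial.eval_X,
      Complex.ofReal_mul] at *
    rw [hp]
    fin_cases i <;> simp

theorem sp_coeff_diff (p : MvPolynomial (Fin 2) ℝ) :
    ∀ s, Differentiable ℂ fun y => (sp p y).coeff s := by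
  induction p using MvPolynomial.induction_on with
  | C a =>
    intro s
    have h : ∀ y, (sp (MvPolynomial.C a) y).coeff s = (C (a : ℂ)).coeff s := by
      intro y
      simp [sp]
    simp only [h]
    exact differentiable_const _
  | add p q hp hq =>
    intro s
    have h : ∀ y, (sp (p + q) y).coeff s = (sp p y).coeff s + (sp q y).coeff s := by
      intro y
      simp only [sp, map_add, coeff_add]
    simp only [h]
    exact (hp s).add (hq s)
  | mul_X p i hp =>
    intro s
    fin_cases i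
    · have h : ∀ y, sp (p * MvPolynomial.X 0) y = sp p y * X := by
        intro y
        simp [sp]
      simp only [Fin.zero_eta, h]
      rcases s with _ | s
      · simp only [mul_coeff_zero, coeff_X_zero, mul_zero]
        exact differentiable_const _
      · simp only [coeff_mul_X]
        exact hp s
    · have h : ∀ y, sp (p * MvPolynomial.X 1) y = sp p y * C y := by
        intro y
        simp [sp]
      simp only [Fin.mk_one, h, coeff_mul_C]
      exact (hp s).mul differentiable_id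

theorem sp_deg (p : MvPolynomial (Fin 2) ℝ) : ∃ d, ∀ y, (sp p y).natDegree ≤ d := by
  induction p using MvPolynomial.induction_on with
  | C a =>
    refine ⟨0, fun y => ?_⟩
    have h : sp (MvPolynomial.C a) y = C (a : ℂ) := by
      simp [sp]
    rw [h, natDegree_C]
  | add p q hp hq =>
    obtain ⟨d, hd⟩ := hp
    obtain ⟨d', hd'⟩ := hq
    refine ⟨max d d', fun y => ?_⟩
    have h : sp (p + q) y = sp p y + sp q y := by
      simp only [sp, map_add]
    rw [h]
    exact (natDegree_add_le _ _).trans (max_le_max (hd y) (hd' y))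
  | mul_X p i hp =>
    obtain ⟨d, hd⟩ := hp
    refine ⟨d + 1, fun y => ?_⟩
    have h : sp (p * MvPolynomial.X i) y = sp p y * (![X, C y] : Fin 2 → ℂ[X]) i := by
      simp only [sp, map_mul, MvPolynomial.aeval_X]
    rw [h]
    refine (natDegree_mul_le).trans (add_le_add (hd y) ?_)
    fin_cases i
    · exact natDegree_X_le
    · simp

/-- the polynomial in `log t` of the function `DD' n` -/
noncomputable def Dp (n : ℕ) (z : ℂ) : ℂ[X] :=
  ∑ k ∈ Finset.range n, C (((bt k : ℝ) : ℂ) * PC (n - 1 - k) z) * X ^ k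

theorem Dp_coeff (n j : ℕ) (z : ℂ) :
    (Dp n z).coeff j = if j < n then ((bt j : ℝ) : ℂ) * PC (n - 1 - j) z else 0 := by
  unfold Dp
  rw [finsetSum_coeff]
  simp only [coeff_C_mul, coeff_X_pow]
  simp only [mul_ite, mul_one, mul_zero]
  rw [Finset.sum_ite_eq]
  simp only [Finset.mem_range]

theorem Dp_eval (n : ℕ) (t : ℝ) :
    (Dp n t).eval ((Real.log t : ℝ) : ℂ) = ((DD' n t : ℝ) : ℂ) := by
  unfold Dp DD'
  rw [eval_finsetSum, Complex.ofReal_sum]
  refine Finset.sum_congr rfl fun k _ => ?_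
  simp only [eval_mul, eval_C, eval_pow, eval_X]
  rw [PC_ofReal]
  push_cast
  ring

theorem Dp_deg (n : ℕ) (z : ℂ) : (Dp n z).natDegree ≤ n := by
  refine natDegree_sum_le_of_forall_le _ _ fun k hk => ?_
  exact (natDegree_C_mul_X_pow_le _ _).trans (Finset.mem_range.1 hk).le

theorem Dp_diff (n j : ℕ) : DifferentiableOn ℂ (fun z => (Dp n z).coeff j) (Metric.ball 0 1) := by
  simp only [Dp_coeff]
  split_ifs
  · exact (differentiableOn_const _).mul (PC_diff' _)
  · exact differentiableOn_const _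

/-! ### asymptotics at `1` -/

theorem asym0 (q : ℂ[X]) : Tendsto (fun x : ℝ => (x : ℂ) * q.eval ((Real.log x : ℝ) : ℂ))
    (𝓝[>] (0 : ℝ)) (𝓝 0) := by
  have h : ∀ x : ℝ, (x : ℂ) * q.eval ((Real.log x : ℝ) : ℂ) =
      ∑ i ∈ Finset.range (q.natDegree + 1), q.coeff i * (((Real.log x : ℝ) : ℂ) ^ i * (x : ℂ)) := by
    intro x
    rw [eval_eq_sum_range, Finset.mul_sum]
    refine Finset.sum_congr rfl fun i _ => ?_
    ring
  simp only [h]
  have h2 : (0 : ℂ) = ∑ i ∈ Finset.range (q.natDegree + 1), q.coeff i * 0 := by simp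
  rw [h2]
  exact tendsto_finsetSum _ fun i _ => (log_pow_mul i).const_mul _

theorem summable_PL (m : ℕ) {t : ℝ} (h0 : 0 < t) (h1 : t < 1) :
    Summable fun j : ℕ => t ^ (j + 1) / ((j : ℝ) + 1) ^ m := by
  refine Summable.of_nonneg_of_le (fun j => by positivity) (fun j => ?_)
    ((summable_geometric_of_lt_one h0.le h1))
  have h2 : (1 : ℝ) ≤ ((j : ℝ) + 1) ^ m := one_le_pow₀ (by
    have : (0 : ℝ) ≤ j := Nat.cast_nonneg j
    linarith)
  rw [div_le_iff₀ (by positivity)]
  have h3 : t ^ (j + 1) ≤ t ^ j := pow_le_pow_of_le_one h0.le h1.le (Nat.le_succ j)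
  have h4 : t ^ j * 1 ≤ t ^ j * ((j : ℝ) + 1) ^ m := mul_le_mul_of_nonneg_left h2 (by positivity)
  linarith

theorem PL_le {m : ℕ} (hm : 1 ≤ m) {t : ℝ} (h0 : 0 < t) (h1 : t < 1) : PL m t ≤ PL 1 t := by
  unfold PL
  refine Summable.tsum_le_tsum (fun j => ?_) (summable_PL m h0 h1) (summable_PL 1 h0 h1)
  refine div_le_div_of_nonneg_left (by positivity) (by positivity) ?_
  have : (0 : ℝ) ≤ j := Nat.cast_nonneg j
  exact pow_le_pow_right₀ (by linarith) hm

theorem PL_nonneg (m : ℕ) {t : ℝ} (h0 : 0 < t) : 0 ≤ PL m t :=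
  tsum_nonneg fun j => by positivity

theorem PL_one {x : ℝ} (h0 : 0 < x) (h1 : x < 1) : PL 1 (1 - x) = -Real.log x := by
  obtain ⟨A, _, hA0, hA⟩ := decomp 0
  have h := hA x h0 h1
  rw [hA0 rfl, zero_add] at h
  unfold Bc at h
  simp only [pow_zero, Nat.factorial_zero, Nat.cast_one, div_one, zero_add] at h
  have h2 : ((PL 1 (1 - x) : ℝ) : ℂ) = ((-Real.log x : ℝ) : ℂ) := by
    rw [h]
    push_cast
    ring
  exact_mod_cast h2

theorem asym1 (q : ℂ[X]) {m : ℕ} (hm : 1 ≤ m) :
    Tendsto (fun x : ℝ => (x : ℂ) * (PC m ((1 - x : ℝ) : ℂ) * q.eval ((Real.log x : ℝ) : ℂ)))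
    (𝓝[>] (0 : ℝ)) (𝓝 0) := by
  rw [tendsto_zero_iff_norm_tendsto_zero]
  have h1 := (tendsto_zero_iff_norm_tendsto_zero.1 (asym0 (X * q)))
  refine squeeze_zero' (Eventually.of_forall fun _ => norm_nonneg _) ?_ h1
  filter_upwards [Ioo_mem_nhdsGT (show (0 : ℝ) < 1 by norm_num)] with x hx
  rw [norm_mul, norm_mul, norm_mul, eval_mul, eval_X, norm_mul]
  refine mul_le_mul_of_nonneg_left ?_ (norm_nonneg _)
  refine mul_le_mul_of_nonneg_right ?_ (norm_nonneg _)
  rw [PC_ofReal, Complex.norm_real, Complex.norm_real, Real.norm_eq_abs, Real.norm_eq_abs]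
  have h0' : 0 < 1 - x := by linarith [hx.2]
  have h1' : 1 - x < 1 := by linarith [hx.1]
  rw [abs_of_nonneg (PL_nonneg m h0')]
  refine (PL_le hm h0' h1').trans ?_
  rw [PL_one hx.1 hx.2]
  exact neg_le_abs _

theorem poly_tendsto_zero (q : ℂ[X])
    (h : Tendsto (fun x : ℝ => q.eval ((Real.log x : ℝ) : ℂ)) (𝓝[>] (0 : ℝ)) (𝓝 0)) : q = 0 := by
  by_cases hdeg : 0 < q.degree
  · have h1 := q.tendsto_norm_atTop hdeg log_norm_tendsto
    have h2 := h.norm
    exact absurd h2 (not_tendsto_nhds_of_tendsto_atTop h1 _)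
  · have h1 := eq_C_of_degree_le_zero (not_lt.1 hdeg)
    rw [h1] at h
    simp only [eval_C] at h
    have h2 : q.coeff 0 = 0 := tendsto_nhds_unique tendsto_const_nhds h
    rw [h1, h2, C_0]

/-- the weight two term -/
theorem key (N : ℕ) (hN : 2 ≤ N) (g : ℕ → MvPolynomial (Fin 2) ℝ)
    (hg : ∀ n, ¬ (2 ≤ n ∧ ¬ Odd n) → g n = 0)
    (H : ∀ t : ℝ, 0 < t → t < 1 → ∑ n ∈ Finset.range (N + 1),
      DD' n t * MvPolynomial.eval ![Real.log t, Real.log (1 - t)] (g n) = 0) : g 2 = 0 := by
  set P : ℂ → ℂ[X] := fun z => ∑ n ∈ Finset.range (N + 1), Dp n z * sp (g n) (LG z) with hP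
  -- coefficients are holomorphic
  have hdiff : ∀ s, DifferentiableOn ℂ (fun z => (P z).coeff s) (Metric.ball 0 1) := by
    intro s
    simp only [hP, finsetSum_coeff, coeff_mul]
    refine DifferentiableOn.fun_sum fun n _ => DifferentiableOn.fun_sum fun x _ => ?_
    refine (Dp_diff n x.1).mul ?_
    exact (sp_coeff_diff (g n) x.2).comp_differentiableOn LG_diff
  have hana : ∀ s, AnalyticOnNhd ℂ (fun z => (P z).coeff s) (Metric.ball 0 1) := fun s =>
    (hdiff s).analyticOnNhd Metric.isOpen_ball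
  have hdeg : ∃ M, ∀ z, (P z).natDegree < M := by
    choose dd hdd using fun n => sp_deg (g n)
    refine ⟨(∑ n ∈ Finset.range (N + 1), (n + dd n)) + 1, fun z => ?_⟩
    refine Nat.lt_succ_of_le ?_
    refine natDegree_sum_le_of_forall_le _ _ fun n hn => ?_
    refine (natDegree_mul_le).trans ?_
    refine (add_le_add (Dp_deg n z) (hdd n (LG z))).trans ?_
    exact Finset.single_le_sum (f := fun n => n + dd n) (fun _ _ => Nat.zero_le _) hn
  obtain ⟨M, hM⟩ := hdeg
  have heval : ∀ t : ℝ, 0 < t → t < 1 → (P t).eval ((Real.log t : ℝ) : ℂ) = 0 := by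
    intro t h0 h1
    simp only [hP]
    rw [eval_finsetSum]
    have h2 := congrArg (fun x : ℝ => (x : ℂ)) (H t h0 h1)
    simp only [Complex.ofReal_sum, Complex.ofReal_zero] at h2
    rw [← h2]
    refine Finset.sum_congr rfl fun n _ => ?_
    rw [eval_mul, Dp_eval, LG_ofReal t h1.le, sp_eval_real]
    push_cast
    rfl
  have hnear : ∀ s, ∀ᶠ z in 𝓝 (0 : ℂ), (P z).coeff s = 0 := by
    refine logP P M hM (fun s => hana s 0 (Metric.mem_ball_self one_pos)) ?_
    filter_upwards [Ioo_mem_nhdsGT (show (0 : ℝ) < 1 by norm_num)] with t ht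
    exact heval t ht.1 ht.2
  have hzero : ∀ t : ℝ, 0 < t → t < 1 → P t = 0 := by
    intro t h0 h1
    ext s
    have h2 := (hana s).eqOn_zero_of_preconnected_of_eventuallyEq_zero
      (convex_ball (0 : ℂ) 1).isPreconnected (Metric.mem_ball_self one_pos) (hnear s)
    have h3 : (t : ℂ) ∈ Metric.ball (0 : ℂ) 1 := by
      rw [mem_ball_zero_iff, Complex.norm_real, Real.norm_eq_abs, abs_of_pos h0]
      exact h1
    have h4 : (P t).coeff s = 0 := h2 h3
    rw [h4, coeff_zero]
  -- the polynomial in the second variable vanishes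
  have hq : ∀ x₀ : ℂ, x₀ ≠ 0 → tp (g 2) x₀ = 0 := by
    intro x₀ hx₀
    have h1 : ∀ x : ℝ, 0 < x → x < 1 → ∑ n ∈ Finset.range (N + 1), (x : ℂ) *
        ((Dp n ((1 - x : ℝ) : ℂ)).eval x₀ * (tp (g n) x₀).eval ((Real.log x : ℝ) : ℂ)) = 0 := by
      intro x h0 h1
      rw [← Finset.mul_sum]
      have h2 := congrArg (fun p => p.eval x₀) (hzero (1 - x) (by linarith) (by linarith))
      simp only [hP, eval_finsetSum, eval_mul, eval_zero, sp_eval] at h2
      rw [LG_ofReal _ (by linarith)] at h2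
      rw [show (1 : ℝ) - (1 - x) = x by ring] at h2
      rw [h2, mul_zero]
    -- the other terms
    have h2 : ∀ n ∈ (Finset.range (N + 1)).erase 2, Tendsto (fun x : ℝ => (x : ℂ) *
        ((Dp n ((1 - x : ℝ) : ℂ)).eval x₀ * (tp (g n) x₀).eval ((Real.log x : ℝ) : ℂ)))
        (𝓝[>] (0 : ℝ)) (𝓝 0) := by
      intro n hn
      by_cases hn2 : 2 ≤ n ∧ ¬ Odd n
      · have hn4 : 4 ≤ n := by
          have h3 := Finset.ne_of_mem_erase hn
          have h4 : n ≠ 3 := by
            rintro rfl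
            exact hn2.2 (by decide)
          omega
        have hodd : Odd (n - 1) := by
          obtain ⟨k, hk⟩ := Nat.not_odd_iff_even.1 hn2.2
          exact ⟨k - 1, by omega⟩
        have h5 : ∀ x : ℝ, (x : ℂ) *
            ((Dp n ((1 - x : ℝ) : ℂ)).eval x₀ * (tp (g n) x₀).eval ((Real.log x : ℝ) : ℂ)) =
            ∑ k ∈ Finset.range (n - 1), ((bt k : ℝ) : ℂ) * x₀ ^ k * ((x : ℂ) *
              (PC (n - 1 - k) ((1 - x : ℝ) : ℂ) *
                (tp (g n) x₀).eval ((Real.log x : ℝ) : ℂ))) := by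
          intro x
          obtain ⟨n', rfl⟩ : ∃ n', n = n' + 1 := ⟨n - 1, by omega⟩
          unfold Dp
          rw [Nat.add_sub_cancel] at hodd ⊢
          rw [Finset.sum_range_succ, bt_odd hodd (by omega), Complex.ofReal_zero, zero_mul, C_0,
            zero_mul, add_zero, eval_finsetSum, Finset.sum_mul, Finset.mul_sum]
          refine Finset.sum_congr rfl fun k _ => ?_
          simp only [eval_mul, eval_C, eval_pow, eval_X]
          ring
        simp only [h5]
        have h6 : (0 : ℂ) = ∑ k ∈ Finset.range (n - 1), ((bt k : ℝ) : ℂ) * x₀ ^ k * 0 := by simp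
        rw [h6]
        refine tendsto_finsetSum _ fun k hk => (asym1 _ ?_).const_mul _
        have := Finset.mem_range.1 hk
        omega
      · rw [hg n hn2]
        simp [tp]
    have h3 : Tendsto (fun x : ℝ => (x : ℂ) *
        ((Dp 2 ((1 - x : ℝ) : ℂ)).eval x₀ * (tp (g 2) x₀).eval ((Real.log x : ℝ) : ℂ)))
        (𝓝[>] (0 : ℝ)) (𝓝 0) := by
      have h4 : Tendsto (fun x : ℝ => -∑ n ∈ (Finset.range (N + 1)).erase 2, (x : ℂ) *
        ((Dp n ((1 - x : ℝ) : ℂ)).eval x₀ * (tp (g n) x₀).eval ((Real.log x : ℝ) : ℂ)))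
        (𝓝[>] (0 : ℝ)) (𝓝 (-0)) := by
        refine Tendsto.neg ?_
        have h5 : (0 : ℂ) = ∑ n ∈ (Finset.range (N + 1)).erase 2, (0 : ℂ) := by simp
        rw [h5]
        exact tendsto_finsetSum _ h2
      rw [neg_zero] at h4
      refine h4.congr' ?_
      filter_upwards [Ioo_mem_nhdsGT (show (0 : ℝ) < 1 by norm_num)] with x hx
      have h5 := h1 x hx.1 hx.2
      rw [← Finset.add_sum_erase _ _ (Finset.mem_range.2 (by omega : 2 < N + 1))] at h5
      linear_combination -h5
    have h4 : Tendsto (fun x : ℝ => (tp (g 2) x₀).eval ((Real.log x : ℝ) : ℂ))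
        (𝓝[>] (0 : ℝ)) (𝓝 0) := by
      have h5 := asym1 (tp (g 2) x₀) (le_refl 1)
      -- `x₀ (1 - x) q = x PC_1 q - (x Dp q)`
      have h6 := h5.sub h3
      have h7 : Tendsto (fun x : ℝ => (x₀ * ((1 - x : ℝ) : ℂ))⁻¹) (𝓝[>] (0 : ℝ)) (𝓝 x₀⁻¹) := by
        have h8 : Tendsto (fun x : ℝ => x₀ * ((1 - x : ℝ) : ℂ)) (𝓝[>] (0 : ℝ)) (𝓝 x₀) := by
          have h9 : Continuous fun x : ℝ => x₀ * ((1 - x : ℝ) : ℂ) := by fun_prop
          have h10 := (h9.tendsto 0).mono_left (nhdsWithin_le_nhds (s := Set.Ioi (0 : ℝ)))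
          simpa using h10
        exact h8.inv₀ hx₀
      have h8 := h7.mul h6
      rw [sub_zero, mul_zero] at h8
      refine h8.congr' ?_
      filter_upwards [Ioo_mem_nhdsGT (show (0 : ℝ) < 1 by norm_num)] with x hx
      have hxne : ((1 - x : ℝ) : ℂ) ≠ 0 := by
        have : (1 - x : ℝ) ≠ 0 := by linarith [hx.2]
        exact_mod_cast this
      have hx0 : (x : ℂ) ≠ 0 := by exact_mod_cast hx.1.ne'
      have h9 : (Dp 2 ((1 - x : ℝ) : ℂ)).eval x₀ =
          PC 1 ((1 - x : ℝ) : ℂ) - PC 0 ((1 - x : ℝ) : ℂ) * x₀ := by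
        unfold Dp
        rw [Finset.sum_range_succ, Finset.sum_range_one, bt_zero, bt_one]
        simp
        ring
      have h10 : PC 0 ((1 - x : ℝ) : ℂ) = ((1 - x : ℝ) : ℂ) * (x : ℂ)⁻¹ := by
        rw [PC_zero]
        · congr 2
          push_cast
          ring
        · rw [Complex.norm_real, Real.norm_eq_abs, abs_of_pos (by linarith [hx.2])]
          linarith [hx.1]
      rw [h9, h10]
      field_simp
      ring
    exact poly_tendsto_zero _ h4
  -- conclusion
  have h5 : g 2 * MvPolynomial.X 0 = 0 := by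
    refine MvPolynomial.funext fun v => ?_
    rw [map_mul, map_zero, MvPolynomial.eval_X]
    rcases eq_or_ne (v 0) 0 with h0 | h0
    · rw [h0, mul_zero]
    · have h6 : v = ![v 0, v 1] := by
        funext i
        fin_cases i <;> rfl
      have h7 := sp_eval_real (g 2) (v 0) (v 1)
      rw [sp_eval, hq _ (by exact_mod_cast h0), eval_zero] at h7
      have h8 : MvPolynomial.eval ![v 0, v 1] (g 2) = 0 := by exact_mod_cast h7.symm
      rw [h6]
      simp only [Matrix.cons_val_zero]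
      rw [h8, zero_mul]
  rcases mul_eq_zero.1 h5 with h6 | h6
  · exact h6
  · exact absurd h6 (MvPolynomial.X_ne_zero 0)

/-- sums over a subtype of `Fin (N + 1)` -/
theorem sum_idx (N : ℕ) (P : Fin (N + 1) → Prop) [DecidablePred P] (f : ℕ → ℝ)
    (hf : ∀ n : Fin (N + 1), ¬ P n → f n = 0) :
    ∑ x : {n : Fin (N + 1) // P n}, f x.1 = ∑ n ∈ Finset.range (N + 1), f n := by
  rw [Finset.sum_range, ← Finset.sum_subtype (Finset.univ.filter P) (by simp) (fun i => f i),
    Finset.sum_filter]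
  refine Finset.sum_congr rfl fun i _ => ?_
  split_ifs with h
  · rfl
  · exact (hf i h).symm

/-- `indep_real` with the index set `{0, …, N}` -/
theorem indep_range (N : ℕ) (p : MvPolynomial (Fin 2) ℝ) (g : ℕ → MvPolynomial (Fin 2) ℝ)
    (H : ∀ t : ℝ, 0 < t → t < 1 → MvPolynomial.eval ![Real.log t, Real.log (1 - t)] p +
      ∑ n ∈ Finset.range (N + 1), SVc n (t : ℂ) *
        MvPolynomial.eval ![Real.log t, Real.log (1 - t)] (g n) = 0)
    (hg : ∀ n, n < 2 → g n = 0) :
    p = 0 ∧ ∀ n, n < N + 1 → Odd n → g n = 0 := by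
  have h1 := indep_real N (fun o => o.elim p fun n => g (n.1 : ℕ)) (by
    intro t h0 h1
    rw [← H t h0 h1]
    refine congrArg₂ (· + ·) rfl ?_
    refine sum_idx N (fun n => 2 ≤ (n : ℕ) ∧ Odd (n : ℕ)) (fun n => SVc n (t : ℂ) *
        MvPolynomial.eval ![Real.log t, Real.log (1 - t)] (g n)) ?_
    intro n hn
    by_cases h2 : 2 ≤ (n : ℕ)
    · rw [SVc_real_even (fun h3 => hn ⟨h2, h3⟩), zero_mul]
    · rw [hg _ (by omega), map_zero, mul_zero])
  constructor
  · exact congrFun h1 none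
  · intro n hn hodd
    by_cases h2 : 2 ≤ n
    · exact congrFun h1 (some ⟨⟨n, hn⟩, h2, hodd⟩)
    · exact hg n (by omega)

end PolyCN

open PolyCN Filter Topology in
/-- [POLYC2] `𝓛_2, 𝓛_3, 𝓛_4, …` and `1` are linearly independent over `ℝ[log|z|, log|1-z|]` on the
punctured unit disc -/
theorem indep_complex (N : ℕ) (h : Option {n : Fin (N + 1) // 2 ≤ (n : ℕ)} →
      MvPolynomial (Fin 2) ℝ)
    (H : ∀ z : ℂ, 0 < ‖z‖ → ‖z‖ < 1 →
      MvPolynomial.eval ![Real.log ‖z‖, Real.log ‖1 - z‖] (h none) +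
      ∑ n : {n : Fin (N + 1) // 2 ≤ (n : ℕ)}, SVc (n.1 : ℕ) z *
        MvPolynomial.eval ![Real.log ‖z‖, Real.log ‖1 - z‖] (h (some n)) = 0) : h = 0 := by
  set g : ℕ → MvPolynomial (Fin 2) ℝ := fun n =>
    if hn : n < N + 1 ∧ 2 ≤ n then h (some ⟨⟨n, hn.1⟩, hn.2⟩) else 0 with hg
  have hgs : ∀ n : {n : Fin (N + 1) // 2 ≤ (n : ℕ)}, h (some n) = g (n.1 : ℕ) := by
    intro n
    simp only [hg]
    rw [dif_pos ⟨n.1.2, n.2⟩]
  have hg2 : ∀ n, n < 2 → g n = 0 := by
    intro n hn
    simp only [hg]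
    rw [dif_neg]
    omega
  have hgN : ∀ n, N + 1 ≤ n → g n = 0 := by
    intro n hn
    simp only [hg]
    rw [dif_neg]
    omega
  have H1 : ∀ z : ℂ, 0 < ‖z‖ → ‖z‖ < 1 →
      MvPolynomial.eval ![Real.log ‖z‖, Real.log ‖1 - z‖] (h none) +
      ∑ n ∈ Finset.range (N + 1), SVc n z *
        MvPolynomial.eval ![Real.log ‖z‖, Real.log ‖1 - z‖] (g n) = 0 := by
    intro z h0 h1
    rw [← H z h0 h1]
    refine congrArg₂ (· + ·) rfl ?_
    simp only [hgs]
    refine (sum_idx N (fun n => 2 ≤ (n : ℕ)) (fun n => SVc n z *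
        MvPolynomial.eval ![Real.log ‖z‖, Real.log ‖1 - z‖] (g n)) ?_).symm
    intro n hn
    rw [hg2 _ (not_le.1 hn), map_zero, mul_zero]
  have hreal : ∀ t : ℝ, 0 < t → t < 1 → ‖(t : ℂ)‖ = t ∧ ‖1 - (t : ℂ)‖ = 1 - t := by
    intro t h0 h1
    constructor
    · rw [Complex.norm_real, Real.norm_eq_abs, abs_of_pos h0]
    · have h2 : (1 : ℂ) - (t : ℂ) = ((1 - t : ℝ) : ℂ) := by push_cast; ring
      rw [h2, Complex.norm_real, Real.norm_eq_abs, abs_of_pos (by linarith)]
  -- odd weights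
  obtain ⟨hnone, hodd'⟩ := indep_range N (h none) g (by
    intro t h0 h1
    obtain ⟨h2, h3⟩ := hreal t h0 h1
    have h4 := H1 t (by rw [h2]; exact h0) (by rw [h2]; exact h1)
    rw [h2, h3] at h4
    exact h4) hg2
  have hodd : ∀ n, Odd n → g n = 0 := by
    intro n hn
    by_cases h2 : n < N + 1
    · exact hodd' n h2 hn
    · exact hgN n (by omega)
  -- the derivative in the direction of the angle
  have H2 : ∀ r : ℝ, 0 < r → r < 1 → ∑ n ∈ Finset.range (N + 1),
      DD' n r * MvPolynomial.eval ![Real.log r, Real.log (1 - r)] (g n) = 0 := by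
    intro r h0 h1
    obtain ⟨hr2, hr3⟩ := hreal r h0 h1
    set u : ℝ → ℂ := fun θ => (r : ℂ) * Complex.exp (θ * Complex.I) with hu
    have hnorm : ∀ θ : ℝ, ‖u θ‖ = r := by
      intro θ
      simp only [hu]
      rw [norm_mul, Complex.norm_exp_ofReal_mul_I, mul_one, Complex.norm_real, Real.norm_eq_abs,
        abs_of_pos h0]
    have hu0 : u 0 = r := by simp [hu]
    set G : ℕ → ℝ → ℝ := fun n θ =>
      MvPolynomial.eval ![Real.log ‖u θ‖, Real.log ‖1 - u θ‖] (g n) with hG
    have hG0 : ∀ n, G n 0 = MvPolynomial.eval ![Real.log r, Real.log (1 - r)] (g n) := by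
      intro n
      simp only [hG]
      rw [hu0, hr2, hr3]
    have hcu : Continuous u := by
      simp only [hu]
      fun_prop
    have hGc : ∀ n, ContinuousAt (G n) 0 := by
      intro n
      simp only [hG]
      have h2 : ContinuousAt (fun θ : ℝ => (![Real.log ‖u θ‖, Real.log ‖1 - u θ‖] : Fin 2 → ℝ)) 0 := by
        rw [continuousAt_pi]
        intro i
        fin_cases i
        · simp only [Fin.zero_eta, Matrix.cons_val_zero]
          refine (hcu.norm.continuousAt).log ?_
          rw [hnorm]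
          exact h0.ne'
        · simp only [Fin.mk_one, Matrix.cons_val_one]
          have h4 : ContinuousAt (fun θ : ℝ => ‖1 - u θ‖) 0 :=
            ((continuous_const.sub hcu).norm).continuousAt
          refine h4.log ?_
          rw [hu0, hr3]
          linarith
      exact (MvPolynomial.continuous_eval (g n)).continuousAt.comp h2
    have hzero : ∀ θ : ℝ, ∑ n ∈ Finset.range (N + 1), SVc n (u θ) * G n θ = 0 := by
      intro θ
      have h2 := H1 (u θ) (by rw [hnorm]; exact h0) (by rw [hnorm]; exact h1)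
      rw [hnone, map_zero, zero_add] at h2
      exact h2
    have hlim : Tendsto (fun θ : ℝ => ∑ n ∈ Finset.range (N + 1), θ⁻¹ * (SVc n (u θ) * G n θ))
        (𝓝[≠] 0) (𝓝 (∑ n ∈ Finset.range (N + 1), DD' n r * G n 0)) := by
      refine tendsto_finsetSum _ fun n _ => ?_
      by_cases hn : Odd n
      · have h2 : ∀ θ, G n θ = 0 := by
          intro θ
          simp only [hG]
          rw [hodd n hn, map_zero]
        simp only [h2, mul_zero]
        exact tendsto_const_nhds
      · refine tendsto_slope (f := fun θ => SVc n (u θ)) (hasDeriv_arg hn h0 h1) ?_ (hGc n)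
        simp only [hu0]
        exact SVc_real_even hn
    have hlim0 : Tendsto (fun θ : ℝ => ∑ n ∈ Finset.range (N + 1), θ⁻¹ * (SVc n (u θ) * G n θ))
        (𝓝[≠] 0) (𝓝 0) := by
      have h2 : ∀ θ : ℝ, ∑ n ∈ Finset.range (N + 1), θ⁻¹ * (SVc n (u θ) * G n θ) = 0 := by
        intro θ
        rw [← Finset.mul_sum, hzero θ, mul_zero]
      simp only [h2]
      exact tendsto_const_nhds
    have h3 := tendsto_nhds_unique hlim hlim0
    simp only [hG0] at h3
    exact h3
  -- weight two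
  have hg2' : g 2 = 0 := by
    by_cases hN : 2 ≤ N
    · refine key N hN g (fun n hn => ?_) H2
      by_cases h2 : 2 ≤ n
      · exact hodd n (by
          by_contra h3
          exact hn ⟨h2, h3⟩)
      · exact hg2 n (by omega)
    · exact hgN 2 (by omega)
  -- even weights
  have heven : ∀ n, g n = 0 := by
    obtain ⟨_, h3⟩ := indep_range N 0 (fun n => g (n + 1)) (by
      intro t h0 h1
      rw [map_zero, zero_add]
      have h2 := H2 t h0 h1
      rw [Finset.sum_range_succ', hg2 0 (by omega), map_zero, mul_zero, add_zero] at h2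
      rw [Finset.sum_range_succ, hgN (N + 1) le_rfl, map_zero, mul_zero, add_zero, ← h2]
      refine Finset.sum_congr rfl fun n _ => ?_
      by_cases hn : Odd n ∧ 3 ≤ n
      · rw [DD'_eq hn.1 hn.2 h0]
      · have h4 : g (n + 1) = 0 := by
          by_cases h5 : Odd n
          · have h6 : n = 1 := by
              obtain ⟨k, hk⟩ := h5
              have h7 : ¬ 3 ≤ n := fun h8 => hn ⟨⟨k, hk⟩, h8⟩
              omega
            rw [h6]
            exact hg2'
          · exact hodd _ (Nat.not_odd_iff_even.1 h5).add_one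
        rw [h4, map_zero, mul_zero, mul_zero]) (by
      intro n hn
      have h4 : n = 0 ∨ n = 1 := by omega
      rcases h4 with rfl | rfl
      · exact hg2 1 (by omega)
      · exact hg2')
    intro n
    by_cases hn : Odd n
    · exact hodd n hn
    · rcases n with _ | n
      · exact hg2 0 (by omega)
      · by_cases h5 : n < N + 1
        · refine h3 n h5 ?_
          by_contra h6
          exact hn (Nat.not_odd_iff_even.1 h6).add_one
        · exact hgN _ (by omega)
  funext o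
  rcases o with _ | n
  · exact hnone
  · rw [hgs n]
    exact heven _

end Pool.Agent.H366.NK
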