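import Pool.Agent.H366.NK.PolyR
import Pool.Agent.H366.NK.PolyC

/-! # [POLYM] several variables -/

set_option autoImplicit false

namespace Pool.Agent.H366.NK

open NumberField
open NumberField.mixedEmbedding (mixedSpace normAtPlace)

variable (K : Type) [Field K] [NumberField K]

namespace PolyMN

/-! ### the components -/

section comp

variable {K}

omit [NumberField K] in
theorem atw_real {w : InfinitePlace K} (h : w.IsReal) (t : mixedSpace K) :
    atw w t = ((t.1 ⟨w, h⟩ : ℝ) : ℂ) := dif_pos h

omit [NumberField K] in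
theorem atw_complex {w : InfinitePlace K} (h : w.IsComplex) (t : mixedSpace K) :
    atw w t = t.2 ⟨w, h⟩ := by
  unfold atw
  rw [dif_neg (InfinitePlace.not_isReal_iff_isComplex.2 h)]

omit [NumberField K] in
theorem norm_atw (w : InfinitePlace K) (t : mixedSpace K) : normAtPlace w t = ‖atw w t‖ := by
  rcases w.isReal_or_isComplex with h | h
  · rw [atw_real h, NumberField.mixedEmbedding.normAtPlace_apply_of_isReal h, Complex.norm_real]
  · rw [atw_complex h, NumberField.mixedEmbedding.normAtPlace_apply_of_isComplex h]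

omit [NumberField K] in
theorem atw_one_sub (w : InfinitePlace K) (t : mixedSpace K) : atw w (1 - t) = 1 - atw w t := by
  rcases w.isReal_or_isComplex with h | h
  · rw [atw_real h, atw_real h]
    show (((1 - t.1 ⟨w, h⟩ : ℝ)) : ℂ) = 1 - ((t.1 ⟨w, h⟩ : ℝ) : ℂ)
    push_cast
    rfl
  · rw [atw_complex h, atw_complex h]
    rfl

omit [NumberField K] in
theorem continuous_atw (w : InfinitePlace K) : Continuous (atw (K := K) w) := by
  rcases w.isReal_or_isComplex with h | h
  · have e : atw (K := K) w = fun t => ((t.1 ⟨w, h⟩ : ℝ) : ℂ) := funext (atw_real h)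
    rw [e]
    exact Complex.continuous_ofReal.comp ((continuous_apply _).comp continuous_fst)
  · have e : atw (K := K) w = fun t => t.2 ⟨w, h⟩ := funext (atw_complex h)
    rw [e]
    exact (continuous_apply _).comp continuous_snd

/-- the domain for one component: the punctured unit disc, or `(0, 1)` -/
def Dm (w : InfinitePlace K) : Set ℂ :=
  {x | 0 < ‖x‖ ∧ ‖x‖ < 1 ∧ (w.IsReal → ((x.re : ℝ) : ℂ) = x ∧ 0 < x.re)}

/-- the point with the components `z` -/
def mk (z : InfinitePlace K → ℂ) : mixedSpace K := (fun w => (z w.1).re, fun w => z w.1)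

omit [NumberField K] in
theorem atw_mk {z : InfinitePlace K → ℂ} {w : InfinitePlace K} (hz : z w ∈ Dm w) :
    atw w (mk z) = z w := by
  rcases w.isReal_or_isComplex with h | h
  · rw [atw_real h]
    exact (hz.2.2 h).1
  · rw [atw_complex h]
    rfl

theorem mk_mem {z : InfinitePlace K → ℂ} (hz : ∀ w, z w ∈ Dm w) : mk z ∈ UU K := by
  intro w
  rw [norm_atw, atw_mk (hz w)]
  exact ⟨(hz w).1, (hz w).2.1⟩

/-- the logarithms -/
noncomputable def sg (z : InfinitePlace K → ℂ) (w : InfinitePlace K) : ℝ × ℝ :=
  (Real.log ‖z w‖, Real.log ‖1 - z w‖)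

/-- a family of pairs as a point -/
def pt {ι : Type} (s : ι → ℝ × ℝ) : ι ⊕ ι → ℝ := Sum.elim (fun w => (s w).1) (fun w => (s w).2)

theorem Lg_mk {z : InfinitePlace K → ℂ} (hz : ∀ w, z w ∈ Dm w) : Lg (mk z) = pt (sg z) := by
  unfold Lg pt sg
  funext w
  rcases w with w | w
  · show Real.log (normAtPlace w (mk z)) = Real.log ‖z w‖
    rw [norm_atw, atw_mk (hz w)]
  · show Real.log (normAtPlace w (1 - mk z)) = Real.log ‖1 - z w‖
    rw [norm_atw, atw_one_sub, atw_mk (hz w)]

end comp

/-! ### substitution of constants for all pairs of variables but one -/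

section subst

open Classical in
/-- the substitution -/
noncomputable def sub {ι : Type} (a : ι) (s : ι → ℝ × ℝ) :
    MvPolynomial (ι ⊕ ι) ℝ →ₐ[ℝ] MvPolynomial (Fin 2) ℝ :=
  MvPolynomial.aeval (Sum.elim
    (fun w => if w = a then MvPolynomial.X 0 else MvPolynomial.C (s w).1)
    (fun w => if w = a then MvPolynomial.X 1 else MvPolynomial.C (s w).2))

open Classical in
theorem eval_sub {ι : Type} (a : ι) (s : ι → ℝ × ℝ) (u : ℝ × ℝ) (P : MvPolynomial (ι ⊕ ι) ℝ) :
    MvPolynomial.eval ![u.1, u.2] (sub a s P) =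
      MvPolynomial.eval (pt (Function.update s a u)) P := by
  have h : (MvPolynomial.eval ![u.1, u.2]).comp (sub a s).toRingHom =
      MvPolynomial.eval (pt (Function.update s a u)) := by
    refine MvPolynomial.ringHom_ext (fun r => ?_) ?_
    · show MvPolynomial.eval ![u.1, u.2] (sub a s (MvPolynomial.C r)) = _
      unfold sub
      rw [MvPolynomial.aeval_C, MvPolynomial.eval_C, MvPolynomial.algebraMap_eq,
        MvPolynomial.eval_C]
    · rintro (w | w)
      · show MvPolynomial.eval ![u.1, u.2] (sub a s (MvPolynomial.X (Sum.inl w))) = _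
        unfold sub
        rw [MvPolynomial.aeval_X, MvPolynomial.eval_X]
        show MvPolynomial.eval ![u.1, u.2]
          (if w = a then MvPolynomial.X 0 else MvPolynomial.C (s w).1) =
          (Function.update s a u w).1
        by_cases hw : w = a
        · subst hw
          rw [if_pos rfl, MvPolynomial.eval_X, Function.update_self]
          rfl
        · rw [if_neg hw, MvPolynomial.eval_C, Function.update_of_ne hw]
      · show MvPolynomial.eval ![u.1, u.2] (sub a s (MvPolynomial.X (Sum.inr w))) = _
        unfold sub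
        rw [MvPolynomial.aeval_X, MvPolynomial.eval_X]
        show MvPolynomial.eval ![u.1, u.2]
          (if w = a then MvPolynomial.X 1 else MvPolynomial.C (s w).2) =
          (Function.update s a u w).2
        by_cases hw : w = a
        · subst hw
          rw [if_pos rfl, MvPolynomial.eval_X, Function.update_self]
          rfl
        · rw [if_neg hw, MvPolynomial.eval_C, Function.update_of_ne hw]
  exact DFunLike.congr_fun h P

/-- products of Zariski dense sets are Zariski dense -/
theorem zariski {ι : Type} [Fintype ι] (S : ι → Set (ℝ × ℝ))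
    (hS : ∀ w, ∀ P : MvPolynomial (Fin 2) ℝ,
      (∀ s ∈ S w, MvPolynomial.eval ![s.1, s.2] P = 0) → P = 0)
    (P : MvPolynomial (ι ⊕ ι) ℝ)
    (H : ∀ s : ι → ℝ × ℝ, (∀ w, s w ∈ S w) → MvPolynomial.eval (pt s) P = 0) : P = 0 := by
  classical
  have key : ∀ T : Finset ι, ∀ s : ι → ℝ × ℝ, (∀ w, w ∉ T → s w ∈ S w) →
      MvPolynomial.eval (pt s) P = 0 := by
    intro T
    induction T using Finset.induction_on with
    | empty => exact fun s hs => H s fun w => hs w (Finset.notMem_empty w)
    | insert a T ha ih =>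
      intro s hs
      have h0 : sub a s P = 0 := by
        refine hS a _ fun u hu => ?_
        rw [eval_sub]
        refine ih _ fun w hw => ?_
        by_cases hwa : w = a
        · rw [hwa, Function.update_self]
          exact hu
        · rw [Function.update_of_ne hwa]
          exact hs w fun h => (Finset.mem_insert.1 h).elim hwa hw
      have h1 := eval_sub a s (s a) P
      rw [h0, map_zero, Function.update_eq_self] at h1
      exact h1.symm
  refine MvPolynomial.funext fun x => ?_
  rw [map_zero]
  have h2 := key Finset.univ (fun w => (x (Sum.inl w), x (Sum.inr w)))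
    fun w hw => absurd (Finset.mem_univ w) hw
  have h3 : pt (fun w => (x (Sum.inl w), x (Sum.inr w))) = x := by
    funext w
    rcases w with w | w <;> rfl
  rw [h3] at h2
  exact h2

end subst

/-! ### one component -/

section one

variable {K}

/-- the weights which occur at the place `w` -/
abbrev TW (N : ℕ) (w : InfinitePlace K) : Type :=
  {n : Fin (N + 1) // 2 ≤ (n : ℕ) ∧ (Odd (n : ℕ) ∨ w.IsComplex)}

open Classical in
omit [NumberField K] in
theorem indep1 (N : ℕ) (w : InfinitePlace K) (h : Option (TW N w) → MvPolynomial (Fin 2) ℝ)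
    (H : ∀ x ∈ Dm w, MvPolynomial.eval ![Real.log ‖x‖, Real.log ‖1 - x‖] (h none) +
      ∑ n : TW N w, SVc (n.1 : ℕ) x *
        MvPolynomial.eval ![Real.log ‖x‖, Real.log ‖1 - x‖] (h (some n)) = 0) : h = 0 := by
  rcases w.isReal_or_isComplex with hw | hw
  · have hiff : ∀ n : Fin (N + 1), (2 ≤ (n : ℕ) ∧ Odd (n : ℕ)) ↔
        (2 ≤ (n : ℕ) ∧ (Odd (n : ℕ) ∨ w.IsComplex)) := by
      intro n
      have h1 : ¬ w.IsComplex := InfinitePlace.not_isComplex_iff_isReal.2 hw
      tauto
    let E : {n : Fin (N + 1) // 2 ≤ (n : ℕ) ∧ Odd (n : ℕ)} ≃ TW N w := Equiv.subtypeEquivRight hiff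
    have h1 := indep_real N (fun i => h (i.map E)) (fun t ht0 ht1 => by
      have e1 : ‖(t : ℂ)‖ = t := by rw [Complex.norm_real, Real.norm_of_nonneg ht0.le]
      have e2 : ‖1 - (t : ℂ)‖ = 1 - t := by
        rw [← Complex.ofReal_one, ← Complex.ofReal_sub, Complex.norm_real,
          Real.norm_of_nonneg (by linarith)]
      have h2 := H (t : ℂ) ⟨by rw [e1]; exact ht0, by rw [e1]; exact ht1,
        fun _ => ⟨by rw [Complex.ofReal_re], by rw [Complex.ofReal_re]; exact ht0⟩⟩
      rw [e1, e2] at h2
      rw [← h2]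
      congr 1
      exact Fintype.sum_equiv E _ _ fun n => rfl)
    funext i
    rcases i with _ | n
    · exact congrFun h1 none
    · obtain ⟨m, rfl⟩ := E.surjective n
      exact congrFun h1 (some m)
  · have hiff : ∀ n : Fin (N + 1), (2 ≤ (n : ℕ)) ↔
        (2 ≤ (n : ℕ) ∧ (Odd (n : ℕ) ∨ w.IsComplex)) := by
      intro n
      tauto
    let E : {n : Fin (N + 1) // 2 ≤ (n : ℕ)} ≃ TW N w := Equiv.subtypeEquivRight hiff
    have h1 := indep_complex N (fun i => h (i.map E)) (fun z hz0 hz1 => by
      have h2 := H z ⟨hz0, hz1, fun hr => absurd hw (InfinitePlace.not_isComplex_iff_isReal.2 hr)⟩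
      rw [← h2]
      congr 1
      exact Fintype.sum_equiv E _ _ fun n => rfl)
    funext i
    rcases i with _ | n
    · exact congrFun h1 none
    · obtain ⟨m, rfl⟩ := E.surjective n
      exact congrFun h1 (some m)

/-- the set of the pairs of logarithms -/
def SS (w : InfinitePlace K) : Set (ℝ × ℝ) :=
  (fun x : ℂ => (Real.log ‖x‖, Real.log ‖1 - x‖)) '' Dm w

theorem SS_dense (w : InfinitePlace K) (P : MvPolynomial (Fin 2) ℝ)
    (H : ∀ s ∈ SS w, MvPolynomial.eval ![s.1, s.2] P = 0) : P = 0 := by
  classical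
  have h1 := indep1 0 w (fun i => i.elim P fun _ => 0) (fun x hx => by
    have h2 := H _ ⟨x, hx, rfl⟩
    have h3 : ∀ n : TW 0 w, SVc (n.1 : ℕ) x * MvPolynomial.eval
        ![Real.log ‖x‖, Real.log ‖1 - x‖] (0 : MvPolynomial (Fin 2) ℝ) = 0 := fun n => by
      rw [map_zero, mul_zero]
    show MvPolynomial.eval ![Real.log ‖x‖, Real.log ‖1 - x‖] P + ∑ n : TW 0 w, SVc (n.1 : ℕ) x *
      MvPolynomial.eval ![Real.log ‖x‖, Real.log ‖1 - x‖] (0 : MvPolynomial (Fin 2) ℝ) = 0
    rw [Finset.sum_eq_zero fun n _ => h3 n, add_zero]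
    exact h2)
  exact congrFun h1 none

theorem dense (P : MvPolynomial (InfinitePlace K ⊕ InfinitePlace K) ℝ)
    (H : ∀ z : InfinitePlace K → ℂ, (∀ w, z w ∈ Dm w) → MvPolynomial.eval (pt (sg z)) P = 0) :
    P = 0 := by
  refine zariski SS (fun w P hP => SS_dense w P hP) P fun s hs => ?_
  choose z hz hzs using hs
  have h1 := H z hz
  have h2 : sg z = s := funext hzs
  rw [h2] at h1
  exact h1

end one

end PolyMN

open PolyMN

theorem isOpen_UU : IsOpen (UU K) := by
  have h : UU K = ⋂ w : InfinitePlace K, {t | 0 < normAtPlace w t ∧ normAtPlace w t < 1} := by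
    ext t
    simp only [UU, Set.mem_ofPred_eq, Set.mem_iInter]
  rw [h]
  refine isOpen_iInter_of_finite fun w => ?_
  have hc := NumberField.mixedEmbedding.continuous_normAtPlace w
  exact (isOpen_lt continuous_const hc).inter (isOpen_lt hc continuous_const)

theorem UU_nonempty : (UU K).Nonempty := by
  refine ⟨mk fun _ => (1 / 2 : ℝ), mk_mem fun w => ?_⟩
  have e1 : ‖(((1 / 2 : ℝ)) : ℂ)‖ = 1 / 2 := by
    rw [Complex.norm_real, Real.norm_of_nonneg (by norm_num)]
  refine ⟨by rw [e1]; norm_num, by rw [e1]; norm_num, fun _ => ⟨by rw [Complex.ofReal_re], ?_⟩⟩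
  rw [Complex.ofReal_re]
  norm_num

theorem UU_ne {t : mixedSpace K} (ht : t ∈ UU K) (w : InfinitePlace K) :
    normAtPlace w t ≠ 0 ∧ normAtPlace w (1 - t) ≠ 0 := by
  refine ⟨(ht w).1.ne', ?_⟩
  rw [norm_atw, atw_one_sub]
  have h1 : ‖atw w t‖ < 1 := by
    rw [← norm_atw]
    exact (ht w).2
  intro h
  have h2 : (1 : ℂ) - atw w t = 0 := norm_eq_zero.1 h
  have h3 : atw w t = 1 := (sub_eq_zero.1 h2).symm
  rw [h3, norm_one] at h1
  exact lt_irrefl _ h1

theorem atw_mixedEmbedding (w : InfinitePlace K) (x : K) :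
    atw w (mixedEmbedding K x) = w.embedding x := by
  rcases w.isReal_or_isComplex with h | h
  · rw [atw_real h, NumberField.mixedEmbedding.mixedEmbedding_apply_isReal,
      InfinitePlace.embedding_of_isReal_apply]
  · rw [atw_complex h, NumberField.mixedEmbedding.mixedEmbedding_apply_isComplex]

/-- [POLYM1] -/
theorem phiN_continuousOn (N : ℕ) (i : Option (Ess K N)) : ContinuousOn (phiN K N i) (UU K) := by
  rcases i with _ | p
  · exact continuousOn_const
  · refine (SVc_continuousOn (p.1.1 : ℕ)).comp (continuous_atw p.1.2).continuousOn ?_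
    intro t ht
    have h1 := ht p.1.2
    rw [norm_atw] at h1
    exact h1

/-- [POLYM2] -/
theorem phiN_indep (N : ℕ)
    (h : Option (Ess K N) → MvPolynomial (InfinitePlace K ⊕ InfinitePlace K) ℝ)
    (H : ∀ t ∈ UU K, ∑ i, phiN K N i t * MvPolynomial.eval (Lg t) (h i) = 0) : h = 0 := by
  classical
  -- the relation at the points `mk z`
  have H1 : ∀ z : InfinitePlace K → ℂ, (∀ w, z w ∈ Dm w) →
      MvPolynomial.eval (pt (sg z)) (h none) + ∑ p : Ess K N, SVc (p.1.1 : ℕ) (z p.1.2) *
        MvPolynomial.eval (pt (sg z)) (h (some p)) = 0 := by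
    intro z hz
    have h1 := H (mk z) (mk_mem hz)
    rw [Fintype.sum_option, Lg_mk hz] at h1
    have h2 : ∀ p : Ess K N, phiN K N (some p) (mk z) = SVc (p.1.1 : ℕ) (z p.1.2) := by
      intro p
      show SVc (p.1.1 : ℕ) (atw p.1.2 (mk z)) = _
      rw [atw_mk (hz _)]
    have h3 : phiN K N none (mk z) = 1 := rfl
    rw [h3, one_mul] at h1
    rw [← h1]
    congr 1
    exact Finset.sum_congr rfl fun p _ => by rw [h2 p]
  -- the coefficients of the polylogarithms vanish
  have H2 : ∀ (w : InfinitePlace K) (z : InfinitePlace K → ℂ), (∀ w, z w ∈ Dm w) →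
      ∀ n : TW N w, MvPolynomial.eval (pt (sg z)) (h (some ⟨(n.1, w), n.2⟩)) = 0 := by
    intro w z hz
    let em : TW N w → Ess K N := fun n => ⟨(n.1, w), n.2⟩
    have hem : Function.Injective em := by
      intro n m hnm
      have h1 : (n.1, w) = (m.1, w) := congrArg Subtype.val hnm
      exact Subtype.ext (congrArg Prod.fst h1)
    have hsplit : ∀ F : Ess K N → ℝ, ∑ p : Ess K N, F p = ∑ n : TW N w, F (em n) +
        ∑ p ∈ Finset.univ.filter (fun p : Ess K N => ¬ p.1.2 = w), F p := by
      intro F
      rw [← Finset.sum_filter_add_sum_filter_not Finset.univ (fun p : Ess K N => p.1.2 = w) F]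
      congr 1
      refine (Finset.sum_bij (fun n _ => em n) (fun n _ => ?_) (fun n _ m _ hnm => hem hnm)
        (fun p hp => ?_) fun n _ => rfl).symm
      · exact Finset.mem_filter.2 ⟨Finset.mem_univ _, rfl⟩
      · have h1 : p.1.2 = w := (Finset.mem_filter.1 hp).2
        subst h1
        exact ⟨⟨p.1.1, p.2⟩, Finset.mem_univ _, rfl⟩
    have h1 := indep1 N w (fun i => i.elim (sub w (sg z) (h none) +
      ∑ p ∈ Finset.univ.filter (fun p : Ess K N => ¬ p.1.2 = w),
        MvPolynomial.C (SVc (p.1.1 : ℕ) (z p.1.2)) * sub w (sg z) (h (some p)))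
      fun n => sub w (sg z) (h (some (em n)))) (fun x hx => by
        have h2 := H1 (Function.update z w x) (fun w' => by
          by_cases hw' : w' = w
          · rw [hw', Function.update_self]
            exact hx
          · rw [Function.update_of_ne hw']
            exact hz w')
        have h3 : sg (Function.update z w x) = Function.update (sg z) w
            (Real.log ‖x‖, Real.log ‖1 - x‖) := by
          funext w'
          unfold sg
          by_cases hw' : w' = w
          · subst hw'
            rw [Function.update_self, Function.update_self]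
          · rw [Function.update_of_ne hw', Function.update_of_ne hw']
        rw [h3, hsplit] at h2
        have h4 : ∀ P : MvPolynomial (InfinitePlace K ⊕ InfinitePlace K) ℝ,
            MvPolynomial.eval ![Real.log ‖x‖, Real.log ‖1 - x‖] (sub w (sg z) P) =
            MvPolynomial.eval (pt (Function.update (sg z) w
              (Real.log ‖x‖, Real.log ‖1 - x‖))) P := fun P =>
          eval_sub w (sg z) (Real.log ‖x‖, Real.log ‖1 - x‖) P
        show MvPolynomial.eval ![Real.log ‖x‖, Real.log ‖1 - x‖] (sub w (sg z) (h none) +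
          ∑ p ∈ Finset.univ.filter (fun p : Ess K N => ¬ p.1.2 = w),
            MvPolynomial.C (SVc (p.1.1 : ℕ) (z p.1.2)) * sub w (sg z) (h (some p))) +
          ∑ n : TW N w, SVc (n.1 : ℕ) x * MvPolynomial.eval
            ![Real.log ‖x‖, Real.log ‖1 - x‖] (sub w (sg z) (h (some (em n)))) = 0
        rw [map_add, map_sum, h4]
        simp only [map_mul, MvPolynomial.eval_C, h4]
        have h5 : ∀ n : TW N w, SVc ((em n).1.1 : ℕ) (Function.update z w x (em n).1.2) =
            SVc (n.1 : ℕ) x := by
          intro n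
          show SVc (n.1 : ℕ) (Function.update z w x w) = _
          rw [Function.update_self]
        have h6 : ∀ p ∈ Finset.univ.filter (fun p : Ess K N => ¬ p.1.2 = w),
            SVc (p.1.1 : ℕ) (Function.update z w x p.1.2) * MvPolynomial.eval
              (pt (Function.update (sg z) w (Real.log ‖x‖, Real.log ‖1 - x‖))) (h (some p)) =
            SVc (p.1.1 : ℕ) (z p.1.2) * MvPolynomial.eval
              (pt (Function.update (sg z) w (Real.log ‖x‖, Real.log ‖1 - x‖))) (h (some p)) := by
          intro p hp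
          rw [Function.update_of_ne (Finset.mem_filter.1 hp).2]
        rw [Finset.sum_congr rfl h6] at h2
        simp only [h5] at h2
        linarith)
    intro n
    have h2 : sub w (sg z) (h (some (em n))) = 0 := congrFun h1 (some n)
    have h3 := eval_sub w (sg z) (sg z w) (h (some (em n)))
    rw [h2, map_zero, Function.update_eq_self] at h3
    exact h3.symm
  have H3 : ∀ p : Ess K N, h (some p) = 0 := fun p =>
    dense _ fun z hz => H2 p.1.2 z hz ⟨p.1.1, p.2⟩
  have H4 : h none = 0 := by
    refine dense _ fun z hz => ?_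
    have h1 := H1 z hz
    simp only [H3, map_zero, mul_zero, Finset.sum_const_zero, add_zero] at h1
    exact h1
  funext i
  rcases i with _ | p
  · exact H4
  · exact H3 p

end Pool.Agent.H366.NK
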