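import Pool.Agent.H366.NK.KeyN
import Pool.Agent.H366.NK.PolyM
import Pool.Agent.H366.ZC.TS2

/-! # [TSN] identities with real coefficients between the elements of a number field -/

set_option autoImplicit false

namespace Pool.Agent.H366.NK

open NumberField
open NumberField.mixedEmbedding (mixedSpace normAtPlace)
open H39Gon (UV cl)
open Pool.Agent.H366.ZC.MotN (Hm)

/-- [TSN] -/
theorem TSIN (K : Type) [Field K] [NumberField K] (N : ℕ) : ∀ (k : ℕ)
    (p : ℕ → UV K → (UV K →ₗ[ℤ] ℝ)) (f : ℕ → Ess K N → UV K → ℝ),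
    (∀ i < k, Hm (i + 1) (p i)) → (∀ i < k, ∀ j, Hm i (f i j)) →
    (∀ x : K, (∀ w : InfinitePlace K, 0 < w x ∧ w x < 1) →
      (∑ i ∈ Finset.range k, p i (cl x) (cl (1 - x))) +
      ∑ j : Ess K N, SVc (j.1.1 : ℕ) (j.1.2.embedding x) *
        ∑ i ∈ Finset.range k, f i j (cl x) = 0) →
    (∀ i < k, ∀ s t : UV K, p i s t = 0) ∧ ∀ i < k, ∀ (j : Ess K N) (s : UV K), f i j s = 0 := by
  intro k
  induction k with
  | zero =>
    intro p f _ _ _
    exact ⟨fun i hi => absurd hi (Nat.not_lt_zero _), fun i hi => absurd hi (Nat.not_lt_zero _)⟩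
  | succ k ih =>
    intro p f hp hf h
    -- the coordinates
    let cf : ((UV K × UV K) × ℤ) →ₗ[ℤ] UV K :=
      (LinearMap.fst ℤ (UV K) (UV K)) ∘ₗ (LinearMap.fst ℤ (UV K × UV K) ℤ)
    let cg : ((UV K × UV K) × ℤ) →ₗ[ℤ] UV K :=
      (LinearMap.snd ℤ (UV K) (UV K)) ∘ₗ (LinearMap.fst ℤ (UV K × UV K) ℤ)
    let cc : ((UV K × UV K) × ℤ) →ₗ[ℤ] ℤ := LinearMap.snd ℤ (UV K × UV K) ℤ
    let F0 : ((UV K × UV K) × ℤ) → ℝ := fun s =>
      ∑ i ∈ Finset.range (k + 1), (cc s : ℝ) ^ (k - i) * p i (cf s) (cg s)
    let F1 : Ess K N → ((UV K × UV K) × ℤ) → ℝ := fun j s =>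
      ∑ i ∈ Finset.range (k + 1), (cc s : ℝ) ^ (k - i) * f i j (cf s)
    have hF0 : Hm (k + 2) F0 := by
      refine Hm.sum _ fun i hi => ?_
      have hi' := Finset.mem_range.1 hi
      have h1 := ((hp i hi').comap cf).map (LinearMap.lcomp ℤ ℝ cg)
      have h2 := h1.uncurry.lin_pow cc (k - i)
      have e : i + 1 + 1 + (k - i) = k + 2 := by omega
      rw [e] at h2
      exact h2
    have hF1 : ∀ j : Ess K N, Hm k (F1 j) := by
      intro j
      refine Hm.sum _ fun i hi => ?_
      have hi' := Finset.mem_range.1 hi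
      have h2 := ((hf i hi' j).comap cf).lin_pow cc (k - i)
      have e : i + (k - i) = k := by omega
      rw [e] at h2
      exact h2
    let dg : Option (Ess K N) → ℕ := fun i => i.elim (k + 2) (fun _ => k)
    let FF : Option (Ess K N) → ((UV K × UV K) × ℤ) → ℝ := fun i => i.elim F0 F1
    have hFF : ∀ i, Hm (dg i) (FF i) := by
      intro i
      cases i with
      | none => exact hF0
      | some j => exact hF1 j
    choose Q hQ using hFF
    have hkey := KEYN (K := K) (Option (Ess K N)) (k + 2) dg
      (by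
        intro i
        cases i with
        | none => exact le_refl (k + 2)
        | some j => exact Nat.le_add_right k 2)
      (UU K) (isOpen_UU K) (fun t ht w => UU_ne K ht w) (phiN K N)
      (phiN_continuousOn K N) (phiN_indep K N) Q
      (by
        intro x hx
        have hx' : ∀ w : InfinitePlace K, 0 < w x ∧ w x < 1 := by
          intro w
          have h1 : 0 < normAtPlace w (mixedEmbedding K x) ∧
            normAtPlace w (mixedEmbedding K x) < 1 := hx w
          rwa [mixedEmbedding.normAtPlace_apply] at h1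
        rw [Fintype.sum_option]
        have e0 : phiN K N none (mixedEmbedding K x) = 1 := rfl
        have e1 : ∀ j : Ess K N, phiN K N (some j) (mixedEmbedding K x) =
            SVc (j.1.1 : ℕ) (j.1.2.embedding x) := by
          intro j
          show SVc (j.1.1 : ℕ) (atw j.1.2 (mixedEmbedding K x)) = _
          rw [atw_mixedEmbedding]
        have e2 : FF none ((cl x, cl (1 - x)), 1) =
            ∑ i ∈ Finset.range (k + 1), p i (cl x) (cl (1 - x)) := by
          show ∑ i ∈ Finset.range (k + 1), (((1 : ℤ) : ℤ) : ℝ) ^ (k - i) *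
            p i (cl x) (cl (1 - x)) = _
          refine Finset.sum_congr rfl fun i _ => ?_
          rw [Int.cast_one, one_pow, one_mul]
        have e3 : ∀ j : Ess K N, FF (some j) ((cl x, cl (1 - x)), 1) =
            ∑ i ∈ Finset.range (k + 1), f i j (cl x) := by
          intro j
          show ∑ i ∈ Finset.range (k + 1), (((1 : ℤ) : ℤ) : ℝ) ^ (k - i) * f i j (cl x) = _
          refine Finset.sum_congr rfl fun i _ => ?_
          rw [Int.cast_one, one_pow, one_mul]
        rw [e0, one_mul, ← hQ none, e2, ← h x hx']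
        refine congrArg _ (Finset.sum_congr rfl fun j _ => ?_)
        rw [e1, ← hQ (some j), e3])
    have hval0 : ∀ a b : UV K, FF none ((a, b), 0) = p k a b := by
      intro a b
      show ∑ i ∈ Finset.range (k + 1), (((0 : ℤ) : ℤ) : ℝ) ^ (k - i) * p i a b = _
      rw [Finset.sum_eq_single k]
      · rw [Nat.sub_self, pow_zero, one_mul]
      · intro i hi hik
        have : i < k := lt_of_le_of_ne (Nat.lt_succ_iff.1 (Finset.mem_range.1 hi)) hik
        rw [Int.cast_zero, zero_pow (by omega), zero_mul]
      · intro hk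
        exact absurd (Finset.mem_range.2 (Nat.lt_succ_self k)) hk
    have hval1 : ∀ (j : Ess K N) (a b : UV K), FF (some j) ((a, b), 0) = f k j a := by
      intro j a b
      show ∑ i ∈ Finset.range (k + 1), (((0 : ℤ) : ℤ) : ℝ) ^ (k - i) * f i j a = _
      rw [Finset.sum_eq_single k]
      · rw [Nat.sub_self, pow_zero, one_mul]
      · intro i hi hik
        have : i < k := lt_of_le_of_ne (Nat.lt_succ_iff.1 (Finset.mem_range.1 hi)) hik
        rw [Int.cast_zero, zero_pow (by omega), zero_mul]
      · intro hk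
        exact absurd (Finset.mem_range.2 (Nat.lt_succ_self k)) hk
    -- the top degree
    have htop0 : ∀ s t : UV K, p k s t = 0 := by
      obtain ⟨P, hP⟩ := hp k (Nat.lt_succ_self k)
      intro s t
      rw [hP s]
      refine finN1 P (fun ι _ F hF a => ?_) s t
      have := hkey ι F hF a none
      rw [← hQ none, hval0, hP] at this
      exact this
    have htop1 : ∀ (j : Ess K N) (s : UV K), f k j s = 0 := by
      intro j s
      obtain ⟨R, hR⟩ := hf k (Nat.lt_succ_self k) j
      rw [hR s]
      refine finN2 R (fun ι _ F hF a => ?_) s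
      have := hkey ι F hF a (some j)
      rw [← hQ (some j), hval1, hR] at this
      exact this
    obtain ⟨h1, h2⟩ := ih p f (fun i hi => hp i (by omega)) (fun i hi => hf i (by omega))
      (by
        intro x hx
        rw [← h x hx, Finset.sum_range_succ, htop0, add_zero]
        refine congrArg _ (Finset.sum_congr rfl fun j _ => ?_)
        rw [Finset.sum_range_succ, htop1 j, add_zero])
    refine ⟨fun i hi => ?_, fun i hi => ?_⟩
    · rcases Nat.lt_succ_iff_lt_or_eq.1 hi with h' | rfl
      · exact h1 i h'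
      · exact htop0
    · rcases Nat.lt_succ_iff_lt_or_eq.1 hi with h' | rfl
      · exact h2 i h'
      · exact htop1

end Pool.Agent.H366.NK
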