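import Pool.Agent.H366.NK.Zag1
import Pool.Agent.H366.NK.TSN

/-! # [ZAG2] Zagier's conjecture -/

set_option autoImplicit false

namespace Pool.Agent.H366.NK

open NumberField
open H39Gon (UV cl)
open Pool.Agent.H366.ZC.MotN (Hm)

/-! ### auxiliary statements -/

namespace Zag2N

/-- rational combinations of an `ℝ`-independent family: `ℚ`-independence implies
`ℝ`-independence -/
theorem li_real {ι : Type} [Fintype ι] {E : Type} [AddCommGroup E] [Module ℝ E] [Module ℚ E]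
    (b : ι → E) (hb : LinearIndependent ℝ b) {k : ℕ} (v : Fin k → E)
    (hv : ∀ i, v i ∈ Submodule.span ℚ (Set.range b)) (hQ : LinearIndependent ℚ v) :
    LinearIndependent ℝ v := by
  classical
  have h1 : ∀ i, ∃ c : ι → ℚ, ∑ j, c j • b j = v i := fun i =>
    (Submodule.mem_span_range_iff_exists_fun ℚ).1 (hv i)
  choose q hq using h1
  rw [Fintype.linearIndependent_iff] at hQ hb ⊢
  intro c hc
  have h2 : ∀ j, ∑ i, c i * (q i j : ℝ) = 0 := by
    refine hb _ ?_
    calc ∑ j, (∑ i, c i * (q i j : ℝ)) • b j = ∑ i, c i • v i := by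
          simp_rw [Finset.sum_smul]
          rw [Finset.sum_comm]
          refine Finset.sum_congr rfl fun i _ => ?_
          rw [← hq i, Finset.smul_sum]
          refine Finset.sum_congr rfl fun j _ => ?_
          rw [mul_smul, Rat.cast_smul_eq_qsmul]
      _ = 0 := hc
  intro i
  rw [← Module.forall_dual_apply_eq_zero_iff ℚ]
  intro φ
  refine hQ (fun i => φ (c i)) ?_ i
  calc ∑ i, φ (c i) • v i = ∑ j, (∑ i, φ (c i) * q i j) • b j := by
        simp_rw [Finset.sum_smul]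
        rw [Finset.sum_comm]
        refine Finset.sum_congr rfl fun i _ => ?_
        rw [← hq i, Finset.smul_sum]
        refine Finset.sum_congr rfl fun j _ => ?_
        rw [mul_smul]
    _ = 0 := by
        refine Finset.sum_eq_zero fun j _ => ?_
        have h3 : ∑ i, φ (c i) * q i j = φ (∑ i, c i * (q i j : ℝ)) := by
          rw [map_sum]
          refine Finset.sum_congr rfl fun i _ => ?_
          have h4 : c i * (q i j : ℝ) = q i j • c i := by
            rw [Rat.smul_def, mul_comm]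
          rw [h4, map_smul, smul_eq_mul, mul_comm]
        rw [h3, h2 j, map_zero, zero_smul]

section

variable (F : Type) [Field F] [NumberField F]

open Classical in
theorem sum_Ess (N : ℕ) (h : ℕ → InfinitePlace F → ℝ) :
    ∑ j : Ess F N, h (j.1.1 : ℕ) j.1.2 =
      ∑ n : Fin (N + 1), ∑ w : InfinitePlace F,
        if 2 ≤ (n : ℕ) ∧ (Odd (n : ℕ) ∨ w.IsComplex) then h n w else 0 := by
  have h1 : ∑ j : Ess F N, h (j.1.1 : ℕ) j.1.2 =
      ∑ p ∈ (Finset.univ : Finset (Fin (N + 1) × InfinitePlace F)).filter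
        (fun p => 2 ≤ (p.1 : ℕ) ∧ (Odd (p.1 : ℕ) ∨ p.2.IsComplex)), h (p.1 : ℕ) p.2 := by
    symm
    refine Finset.sum_bij' (fun p hp => (⟨p, (Finset.mem_filter.1 hp).2⟩ : Ess F N))
      (fun j _ => j.1) (fun _ _ => Finset.mem_univ _)
      (fun j _ => Finset.mem_filter.2 ⟨Finset.mem_univ _, j.2⟩) (fun _ _ => rfl)
      (fun _ _ => rfl) (fun _ _ => rfl)
  rw [h1, Finset.sum_filter, Fintype.sum_prod_type]

open Classical in
theorem sum_Ess_succ (N : ℕ) (hN : 1 ≤ N) (h : ℕ → InfinitePlace F → ℝ) :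
    ∑ j : Ess F (N + 1), h (j.1.1 : ℕ) j.1.2 =
      ∑ j : Ess F N, h (j.1.1 : ℕ) j.1.2 + ∑ w : Pl F (N + 1), h (N + 1) w.1 := by
  rw [sum_Ess, sum_Ess, Fin.sum_univ_castSucc]
  congr 1
  have h2 : ∀ w : InfinitePlace F, (2 ≤ ((Fin.last (N + 1) : Fin (N + 2)) : ℕ) ∧
      (Odd ((Fin.last (N + 1) : Fin (N + 2)) : ℕ) ∨ w.IsComplex)) ↔
      (Odd (N + 1) ∨ w.IsComplex) := by
    intro w
    rw [Fin.val_last]
    constructor
    · exact fun h => h.2
    · exact fun h => ⟨by omega, h⟩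
  simp only [h2]
  rw [← Finset.sum_filter]
  refine Finset.sum_bij' (fun p hp => (⟨p, (Finset.mem_filter.1 hp).2⟩ : Pl F (N + 1)))
      (fun j _ => j.1) (fun _ _ => Finset.mem_univ _)
      (fun j _ => Finset.mem_filter.2 ⟨Finset.mem_univ _, j.2⟩) (fun _ _ => rfl)
      (fun _ _ => rfl) (fun _ _ => rfl)

/-- the special case of `TSIN` which is used -/
theorem tsin' (m : ℕ) (P : UV F → (UV F →ₗ[ℤ] ℝ)) (hP : Hm (m + 1) P)
    (G : Ess F (m + 2) → UV F → ℝ) (hG : ∀ j, Hm (m + 2 - (j.1.1 : ℕ)) (G j))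
    (h : ∀ x : F, (∀ w : InfinitePlace F, 0 < w x ∧ w x < 1) →
      P (cl x) (cl (1 - x)) + ∑ j : Ess F (m + 2), SVc (j.1.1 : ℕ) (j.1.2.embedding x) *
        G j (cl x) = 0) (j : Ess F (m + 2)) (s : UV F) : G j s = 0 := by
  have h1 := TSIN F (m + 2) (m + 1) (fun i => if i = m then P else fun _ => 0)
    (fun i j => if i = m + 2 - (j.1.1 : ℕ) then G j else fun _ => 0) ?_ ?_ ?_
  · have h2 := h1.2 (m + 2 - (j.1.1 : ℕ)) (by have := j.2.1; omega) j s
    simpa using h2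
  · intro i hi
    by_cases him : i = m
    · subst him
      simpa using hP
    · simp only [him, if_false]
      exact ZC.MotN.Hm.zero
  · intro i hi j
    by_cases hij : i = m + 2 - (j.1.1 : ℕ)
    · simp only [← hij, if_true]
      rw [hij]
      exact hG j
    · simp only [hij, if_false]
      exact ZC.MotN.Hm.zero
  · intro x hx
    refine Eq.trans ?_ (h x hx)
    congr 1
    · rw [Finset.sum_eq_single m]
      · simp
      · intro i _ hi
        simp [hi]
      · intro hm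
        exact absurd (Finset.mem_range.2 (Nat.lt_succ_self m)) hm
    · refine Finset.sum_congr rfl fun j _ => ?_
      congr 1
      rw [Finset.sum_eq_single (m + 2 - (j.1.1 : ℕ))]
      · simp
      · intro i _ hi
        simp [hi]
      · intro hm
        refine absurd (Finset.mem_range.2 ?_) hm
        have := j.2.1
        omega

open Classical in
/-- the final step -/
theorem fin_step (m : ℕ) (P : UV F → (UV F →ₗ[ℤ] ℝ)) (hP : Hm (m + 1) P)
    (f : Ess F (m + 1) → UV F → ℝ) (hf : ∀ j, Hm (m + 2 - (j.1.1 : ℕ)) (f j))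
    (c : Pl F (m + 2) → ℝ)
    (h : ∀ x : F, (∀ w : InfinitePlace F, 0 < w x ∧ w x < 1) →
      ∑ w : Pl F (m + 2), SVc (m + 2) (w.1.embedding x) * c w =
      P (cl x) (cl (1 - x)) + ∑ j : Ess F (m + 1), SVc (j.1.1 : ℕ) (j.1.2.embedding x) *
        f j (cl x)) (w : Pl F (m + 2)) : c w = 0 := by
  -- the extension of `f` and `-c` to a function of the weight and the place
  let G0 : ℕ → InfinitePlace F → UV F → ℝ := fun n w =>
    if hn : n < m + 2 ∧ (2 ≤ n ∧ (Odd n ∨ w.IsComplex)) then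
      f ⟨(⟨n, hn.1⟩, w), hn.2⟩
    else if hw : n = m + 2 ∧ (Odd (m + 2) ∨ w.IsComplex) then fun _ => -c ⟨w, hw.2⟩
    else fun _ => 0
  have hG0f : ∀ j : Ess F (m + 1), G0 (j.1.1 : ℕ) j.1.2 = f j := by
    intro j
    have hj : (j.1.1 : ℕ) < m + 2 ∧ (2 ≤ (j.1.1 : ℕ) ∧ (Odd (j.1.1 : ℕ) ∨ j.1.2.IsComplex)) :=
      ⟨j.1.1.2, j.2⟩
    simp only [G0, dif_pos hj]
    rfl
  have hG0c : ∀ w : Pl F (m + 2), G0 (m + 2) w.1 = fun _ => -c w := by
    intro w
    have h1 : ¬ (m + 2 < m + 2 ∧ (2 ≤ m + 2 ∧ (Odd (m + 2) ∨ w.1.IsComplex))) := by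
      intro h
      omega
    have h2 : m + 2 = m + 2 ∧ (Odd (m + 2) ∨ w.1.IsComplex) := ⟨rfl, w.2⟩
    have h3 : G0 (m + 2) w.1 = dite _ _ _ := rfl
    rw [h3, dif_neg h1, dif_pos h2]
  have key := tsin' F m P hP (fun j => G0 (j.1.1 : ℕ) j.1.2) ?_ ?_
  · have h3 := key ⟨(Fin.last (m + 2), w.1), ⟨by simp, by simpa using w.2⟩⟩ 0
    have h4 := congrFun (hG0c w) 0
    simp only [Fin.val_last] at h3
    rw [h4] at h3
    linarith
  · intro j
    by_cases hj : (j.1.1 : ℕ) < m + 2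
    · have hj' : (j.1.1 : ℕ) < m + 2 ∧
          (2 ≤ (j.1.1 : ℕ) ∧ (Odd (j.1.1 : ℕ) ∨ j.1.2.IsComplex)) := ⟨hj, j.2⟩
      simp only [G0, dif_pos hj']
      exact hf ⟨(⟨(j.1.1 : ℕ), hj⟩, j.1.2), j.2⟩
    · have hj2 : (j.1.1 : ℕ) = m + 2 := by
        have := j.1.1.2
        omega
      have h1 : ¬ ((j.1.1 : ℕ) < m + 2 ∧
          (2 ≤ (j.1.1 : ℕ) ∧ (Odd (j.1.1 : ℕ) ∨ j.1.2.IsComplex))) := fun h => hj h.1
      have h2 : (j.1.1 : ℕ) = m + 2 ∧ (Odd (m + 2) ∨ j.1.2.IsComplex) := by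
        refine ⟨hj2, ?_⟩
        have := j.2.2
        rwa [hj2] at this
      simp only [G0, dif_neg h1, dif_pos h2]
      have h5 : m + 2 - (j.1.1 : ℕ) = 0 := by omega
      rw [h5]
      exact ⟨MultilinearMap.constOfIsEmpty ℤ _ (-c ⟨j.1.2, h2.2⟩), fun s => rfl⟩
  · intro x hx
    have h1 := sum_Ess_succ F (m + 1) (by omega)
      (fun n w => SVc n (w.embedding x) * G0 n w (cl x))
    rw [h1]
    have h2 : ∑ j : Ess F (m + 1), SVc (j.1.1 : ℕ) (j.1.2.embedding x) *
        G0 (j.1.1 : ℕ) j.1.2 (cl x) =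
        ∑ j : Ess F (m + 1), SVc (j.1.1 : ℕ) (j.1.2.embedding x) * f j (cl x) :=
      Finset.sum_congr rfl fun j _ => by rw [hG0f]
    have h3 : ∑ w : Pl F (m + 1 + 1), SVc (m + 1 + 1) (w.1.embedding x) *
        G0 (m + 1 + 1) w.1 (cl x) =
        - ∑ w : Pl F (m + 2), SVc (m + 2) (w.1.embedding x) * c w := by
      rw [← Finset.sum_neg_distrib]
      refine Finset.sum_congr rfl fun w _ => ?_
      have h4 := congrFun (hG0c w) (cl x)
      change SVc (m + 2) (w.1.embedding x) * G0 (m + 2) w.1 (cl x) = _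
      rw [h4]
      ring
    rw [h2, h3, h x hx]
    ring

end

end Zag2N

section k

variable (k : Type) [Field k] [Algebra k ℝ] (F : Type) [Field F] [NumberField F]
  (R : ℕ → Submodule k (F →₀ k))

/-- [ZAG2a] the regulators of the elements of `ker δ_n` span `ℝ^{d_n}` -/
theorem reg_span (m : ℕ)
    (hR : ∀ n, 2 ≤ n → n < m + 2 → KR k F R n ⊓ LinearMap.ker (regZ k F n) ≤ R n)
    (hb : ∀ n, 2 ≤ n → n < m + 2 → ∀ (r : ℕ) (a : Fin r → (F →₀ k)),
      (∀ i, a i ∈ KR k F R n) → LinearIndependent k (fun i => regZ k F n (a i)) →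
      LinearIndependent ℝ (fun i => regZ k F n (a i))) :
    Submodule.span ℝ ((regZ k F (m + 2)) '' (KR k F R (m + 2) : Set (F →₀ k))) = ⊤ := by
  classical
  by_contra hne
  obtain ⟨φ, hφ0, hφ⟩ := Submodule.exists_le_ker_of_lt_top _ (lt_top_iff_ne_top.2 hne)
  -- the coefficients
  set c : Pl F (m + 2) → ℝ := fun w => φ (Pi.single w 1) with hc
  have hφc : ∀ v : Pl F (m + 2) → ℝ, φ v = ∑ w, v w * c w := by
    intro v
    conv_lhs => rw [← Finset.univ_sum_single v]
    rw [map_sum]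
    refine Finset.sum_congr rfl fun w _ => ?_
    have h1 : (Pi.single w (v w) : Pl F (m + 2) → ℝ) = v w • Pi.single w 1 := by
      rw [← Pi.single_smul, smul_eq_mul, mul_one]
    rw [h1, map_smul, smul_eq_mul]
  let g : (F →₀ k) →ₗ[k] ℝ := (φ.restrictScalars k) ∘ₗ regZ k F (m + 2)
  have hg : ∀ ξ ∈ KR k F R (m + 2), g ξ = 0 := by
    intro ξ hξ
    exact hφ (Submodule.subset_span ⟨ξ, hξ, rfl⟩)
  have hreg : ∀ (n : ℕ) (x : F) (w : Pl F n), regZ k F n (Finsupp.single x 1) w =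
      Lcal n (w.1.embedding x) := by
    intro n x w
    change Lsum k F n w.1.embedding (Finsupp.single x 1) = _
    rw [Lsum, Finsupp.linearCombination_single, one_smul]
  have hL : ∀ (n : ℕ) (x : F) (w : InfinitePlace F), w x < 1 →
      Lcal n (w.embedding x) = SVc n (w.embedding x) := by
    intro n x w hx
    rw [Lcal, if_pos]
    rw [InfinitePlace.norm_embedding_eq]
    exact hx.le
  have hgx : ∀ x : F, (∀ w : InfinitePlace F, 0 < w x ∧ w x < 1) →
      g (Finsupp.single x 1) = ∑ w : Pl F (m + 2), SVc (m + 2) (w.1.embedding x) * c w := by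
    intro x hx
    change φ (regZ k F (m + 2) (Finsupp.single x 1)) = _
    rw [hφc]
    refine Finset.sum_congr rfl fun w _ => ?_
    rw [hreg, hL _ _ _ (hx w.1).2]
  have hx0 : ∀ x : F, (∀ w : InfinitePlace F, 0 < w x ∧ w x < 1) → x ≠ 0 := by
    rintro x hx rfl
    obtain ⟨w⟩ : Nonempty (InfinitePlace F) := inferInstance
    have := (hx w).1
    rw [map_zero] at this
    exact lt_irrefl _ this
  have hc0 : ∀ w, c w = 0 := by
    rcases m with _ | m
    · obtain ⟨p, hp, hp2⟩ := repK_two k F R g hg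
      refine Zag2N.fin_step F 0 p hp (fun _ _ => 0) (fun _ => ZC.MotN.Hm.zero) c ?_
      intro x hx
      rw [← hgx x hx, hp2 x (hx0 x hx)]
      simp
    · obtain ⟨g', hg', hgg⟩ := repK_succ k F R (m + 2) (by omega) g hg
      obtain ⟨p, f, hp, hf, hpf⟩ := repZ k F R m (fun n h1 h2 => hR n h1 (by omega))
        (fun n h1 h2 => hb n h1 (by omega)) g' hg'
      refine Zag2N.fin_step F (m + 1) (fun s => (p s).flip s) hp.uncurry2
        (fun j s => f j s s) (fun j => ?_) c ?_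
      · have h1 := (hf j).uncurry
        have h2 : m + 2 - (j.1.1 : ℕ) + 1 = m + 1 + 2 - (j.1.1 : ℕ) := by
          have := j.1.1.2
          omega
        rw [h2] at h1
        exact h1
      · intro x hx
        rw [← hgx x hx, hgg x (hx0 x hx), hpf x (hx0 x hx), LinearMap.add_apply,
          LinearMap.sum_apply]
        congr 1
        refine Finset.sum_congr rfl fun j _ => ?_
        rw [hL _ _ _ (hx j.1.2).2]
        rfl
  apply hφ0
  ext v
  simp [hφc, hc0]

end k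

section real

variable (F : Type) [Field F] [NumberField F] (R : ℕ → Submodule ℝ (F →₀ ℝ))

/-- the regulator is onto, for real coefficients -/
theorem reg_onto_real (n : ℕ) (hn : 2 ≤ n)
    (hR : ∀ m, 2 ≤ m → m < n → KR ℝ F R m ⊓ LinearMap.ker (regZ ℝ F m) ≤ R m) :
    (KR ℝ F R n).map (regZ ℝ F n) = ⊤ := by
  obtain ⟨m, rfl⟩ : ∃ m, n = m + 2 := ⟨n - 2, by omega⟩
  have h := reg_span ℝ F R m hR (fun n _ _ r a _ h => h)
  rw [← h, ← Submodule.map_coe, Submodule.span_eq]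

end real

section rat

variable (F : Type) [Field F] [NumberField F] (R : ℕ → Submodule ℚ (F →₀ ℚ))

variable (Λ : (n : ℕ) → Submodule ℚ (Pl F n → ℝ)) (hΛ : BorelBD F R Λ)

include hΛ in
theorem Zag2N.borel_li (n : ℕ) (hn : 2 ≤ n) (k : ℕ) (a : Fin k → (F →₀ ℚ))
    (ha : ∀ i, a i ∈ KR ℚ F R n) (h : LinearIndependent ℚ (fun i => regZ ℚ F n (a i))) :
    LinearIndependent ℝ (fun i => regZ ℚ F n (a i)) := by
  obtain ⟨b, q, hb, hs, -⟩ := hΛ.lattice n hn
  refine Zag2N.li_real b hb _ (fun i => ?_) h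
  rw [← hs]
  exact hΛ.reg_mem n hn _ (ha i)

include hΛ in
/-- [ZAG2b] -/
theorem reg_onto (n : ℕ) (hn : 2 ≤ n)
    (hR : ∀ m, 2 ≤ m → m < n → KR ℚ F R m ⊓ LinearMap.ker (regZ ℚ F m) ≤ R m) :
    (KR ℚ F R n).map (regZ ℚ F n) = Λ n := by
  obtain ⟨m, rfl⟩ : ∃ m, n = m + 2 := ⟨n - 2, by omega⟩
  obtain ⟨b, q, hb, hs, -⟩ := hΛ.lattice (m + 2) hn
  have hle : (KR ℚ F R (m + 2)).map (regZ ℚ F (m + 2)) ≤ Λ (m + 2) := by
    rintro _ ⟨ξ, hξ, rfl⟩
    exact hΛ.reg_mem _ hn ξ hξ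
  have : FiniteDimensional ℚ (Λ (m + 2)) := by
    rw [hs]
    exact FiniteDimensional.span_of_finite ℚ (Set.finite_range b)
  refine Submodule.eq_of_le_of_finrank_le hle ?_
  have h1 : Module.finrank ℚ (Λ (m + 2)) ≤ Fintype.card (Pl F (m + 2)) := by
    rw [hs]
    exact finrank_range_le_card b
  refine h1.trans ?_
  set V := (KR ℚ F R (m + 2)).map (regZ ℚ F (m + 2)) with hV
  have : FiniteDimensional ℚ V := Submodule.finiteDimensional_of_le hle
  let B := Module.finBasis ℚ V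
  have h2 : Submodule.span ℝ ((regZ ℚ F (m + 2)) '' (KR ℚ F R (m + 2) : Set (F →₀ ℚ))) ≤
      Submodule.span ℝ (Set.range fun i => (B i : Pl F (m + 2) → ℝ)) := by
    rw [Submodule.span_le]
    rintro _ ⟨ξ, hξ, rfl⟩
    have hv' : regZ ℚ F (m + 2) ξ ∈ V := ⟨ξ, hξ, rfl⟩
    have h3 : regZ ℚ F (m + 2) ξ = ∑ i, (B.repr ⟨_, hv'⟩ i) • (B i : Pl F (m + 2) → ℝ) := by
      have h4 := congrArg (fun v : V => (v : Pl F (m + 2) → ℝ)) (B.sum_repr ⟨_, hv'⟩)
      simp only [AddSubmonoidClass.coe_finsetSum, Submodule.coe_smul] at h4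
      exact h4.symm
    change regZ ℚ F (m + 2) ξ ∈ Submodule.span ℝ _
    rw [h3]
    refine Submodule.sum_mem _ fun i _ => ?_
    rw [← Rat.cast_smul_eq_qsmul ℝ]
    exact Submodule.smul_mem _ _ (Submodule.subset_span ⟨i, rfl⟩)
  rw [reg_span ℚ F R m hR (fun n h1 _ => Zag2N.borel_li F R Λ hΛ n h1)] at h2
  have h4 : Submodule.span ℝ (Set.range fun i => (B i : Pl F (m + 2) → ℝ)) = ⊤ :=
    top_le_iff.1 h2
  have h5 := finrank_range_le_card (R := ℝ) (fun i => (B i : Pl F (m + 2) → ℝ))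
  rw [Set.finrank, h4, finrank_top, Module.finrank_fintype_fun_eq_card, Fintype.card_fin] at h5
  exact h5

include hΛ in
/-- [ZAG2c] Zagier's conjecture -/
theorem zagier (n : ℕ) (hn : 2 ≤ n)
    (hR : ∀ m, 2 ≤ m → m < n → KR ℚ F R m ⊓ LinearMap.ker (regZ ℚ F m) ≤ R m) :
    ∃ (y : Pl F n → (F →₀ ℚ)) (q : ℚ), (∀ i, y i ∈ KR ℚ F R n) ∧
    q ≠ 0 ∧ (Nonempty (Pl F n) → q = 1) ∧
    dedekindZeta F n = (((q : ℝ) * Real.pi ^ (n * Fintype.card (Pl F (n - 1))) /
      Real.sqrt |(discr F : ℝ)| * (Matrix.of fun i j => regZ ℚ F n (y i) j).det : ℝ) : ℂ) := by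
  obtain ⟨b, q, hb, hs, hq, hz⟩ := hΛ.lattice n hn
  have honto := reg_onto F R Λ hΛ n hn hR
  have hy : ∀ i, ∃ y : F →₀ ℚ, y ∈ KR ℚ F R n ∧ regZ ℚ F n y = b i := by
    intro i
    have h1 : b i ∈ (KR ℚ F R n).map (regZ ℚ F n) := by
      rw [honto, hs]
      exact Submodule.subset_span ⟨i, rfl⟩
    obtain ⟨y, hy, hy2⟩ := h1
    exact ⟨y, hy, hy2⟩
  choose y hy1 hy2 using hy
  by_cases hne : Nonempty (Pl F n)
  · obtain ⟨i₀⟩ := hne
    refine ⟨Function.update y i₀ (q • y i₀), 1, ?_, one_ne_zero, fun _ => rfl, ?_⟩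
    · intro i
      by_cases h : i = i₀
      · subst h
        rw [Function.update_self]
        exact Submodule.smul_mem _ _ (hy1 _)
      · rw [Function.update_of_ne h]
        exact hy1 i
    · rw [hz]
      congr 1
      have hM : (Matrix.of fun i j => regZ ℚ F n (Function.update y i₀ (q • y i₀) i) j) =
          Matrix.updateRow (Matrix.of b) i₀ ((q : ℝ) • (Matrix.of b) i₀) := by
        ext i j
        by_cases h : i = i₀
        · subst h
          rw [Matrix.updateRow_self, Matrix.of_apply, Function.update_self, map_smul, hy2,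
            Pi.smul_apply, Pi.smul_apply, Rat.smul_def]
          rfl
        · rw [Matrix.updateRow_ne h, Matrix.of_apply, Function.update_of_ne h, hy2]
          rfl
      rw [hM, Matrix.det_updateRow_smul, Matrix.updateRow_eq_self]
      push_cast
      ring
  · refine ⟨y, q, hy1, hq, fun h => absurd h hne, ?_⟩
    have hM : (Matrix.of fun i j => regZ ℚ F n (y i) j) = Matrix.of b := by
      ext i j
      rw [Matrix.of_apply, hy2]
      rfl
    rw [hz, hM]

end rat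

end Pool.Agent.H366.NK
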