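import Pool.Agent.H366.NK.Cpx1
import Pool.Agent.H366.NK.Cpx2
import Pool.Agent.H366.NK.Cpx3
import Pool.Agent.H366.NK.Zag2

/-! # [CPX4] the cohomology of the polylogarithmic complexes of a number field -/

set_option autoImplicit false
set_option linter.unusedSectionVars false

namespace Pool.Agent.H366.NK

open NumberField
open scoped TensorProduct
open H39Gon (UV cl)
open Pool.Agent.H366.ZC.MotN (Hm)

/-- `k`-linearly independent regulators of elements of `ker δ_n` are linearly independent over `ℝ` -/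
def LIreg (k : Type) [Field k] [Algebra k ℝ] (F : Type) [Field F] [NumberField F] : Prop :=
  ∀ n, 2 ≤ n → ∀ (r : ℕ) (a : Fin r → (F →₀ k)), (∀ i, a i ∈ KR k F (RZ k F) n) →
    LinearIndependent k (fun i => regZ k F n (a i)) →
    LinearIndependent ℝ (fun i => regZ k F n (a i))

theorem LIreg_real (F : Type) [Field F] [NumberField F] : LIreg ℝ F := fun _ _ _ _ _ h => h

theorem LIreg_rat (F : Type) [Field F] [NumberField F] (Λ : (n : ℕ) → Submodule ℚ (Pl F n → ℝ))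
    (hΛ : BorelBD F (RZ ℚ F) Λ) : LIreg ℚ F := Zag2N.borel_li F (RZ ℚ F) Λ hΛ

/-! ### auxiliary statements -/

namespace Cpx4N

section gen

variable {k : Type} [Field k] [Algebra k ℝ] {U V W : Type} [AddCommGroup U] [Module k U]
  [AddCommGroup V] [Module k V] [AddCommGroup W] [Module k W]

theorem dual_ne {S : Submodule k V} {y : V} (hy : y ∉ S) :
    ∃ φ : V →ₗ[k] ℝ, (∀ s ∈ S, φ s = 0) ∧ φ y ≠ 0 := by
  obtain ⟨φ, h1, h2⟩ := Submodule.exists_dual_map_eq_bot_of_notMem hy inferInstance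
  refine ⟨(Algebra.linearMap k ℝ) ∘ₗ φ, fun s hs => ?_, fun h => h1 ?_⟩
  · have h3 : φ s ∈ S.map φ := Submodule.mem_map_of_mem hs
    rw [h2] at h3
    have h4 : φ s = 0 := by simpa using h3
    rw [LinearMap.comp_apply, h4, map_zero]
  · simpa using h

theorem exact_of_real (f : U →ₗ[k] V) (g : V →ₗ[k] W) (hgf : ∀ u, g (f u) = 0)
    (h : ∀ φ : V →ₗ[k] ℝ, (∀ u, φ (f u) = 0) → ∃ ψ : W →ₗ[k] ℝ, ∀ v, φ v = ψ (g v)) :
    Function.Exact f g := by
  intro y
  constructor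
  · intro hy
    by_contra hn
    have hn' : y ∉ LinearMap.range f := fun ⟨u, hu⟩ => hn ⟨u, hu⟩
    obtain ⟨φ, h1, h2⟩ := dual_ne hn'
    obtain ⟨ψ, hψ⟩ := h φ fun u => h1 _ ⟨u, rfl⟩
    apply h2
    rw [hψ, hy, map_zero]
  · rintro ⟨u, rfl⟩
    exact hgf u

end gen

instance towerA (k : Type) [Field k] [Algebra k ℝ] (V : Type) [AddCommGroup V] (j : ℕ) :
    IsScalarTower k ℝ (V [⋀^Fin j]→ₗ[ℤ] ℝ) :=
  ⟨fun a r f => by
    ext y
    exact smul_assoc a r (f y)⟩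

theorem alt_sum {V : Type} [AddCommGroup V] {j : ℕ} {ι : Type} (S : Finset ι)
    (f : ι → (V [⋀^Fin j]→ₗ[ℤ] ℝ)) (y : Fin j → V) : (∑ i ∈ S, f i) y = ∑ i ∈ S, f i y := by
  classical
  induction S using Finset.induction_on with
  | empty => rw [Finset.sum_empty, Finset.sum_empty, AlternatingMap.zero_apply]
  | insert a S ha ih => rw [Finset.sum_insert ha, Finset.sum_insert ha, AlternatingMap.add_apply, ih]

section F

variable (k : Type) [Field k] [Algebra k ℝ] (F : Type) [Field F]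

theorem cls_zero : clk k (0 : F) = 0 := by
  unfold clk
  rw [dif_pos rfl]

theorem cls_eq' (x : F) : clk k x = (1 : k) ⊗ₜ[ℤ] cl x := by
  unfold clk cl
  split_ifs with h
  · rw [TensorProduct.tmul_zero]
  · rfl

theorem regZ_single (n : ℕ) (x : F) (w : Pl F n) : regZ k F n (Finsupp.single x 1) w =
    Lcal n (w.1.embedding x) := by
  change Lsum k F n w.1.embedding (Finsupp.single x 1) = _
  rw [Lsum, Finsupp.linearCombination_single, one_smul]

theorem dZ_single (R : Submodule k (F →₀ k)) (x : F) : dZ k F R (Finsupp.single x 1) =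
    (R.mkQ (Finsupp.single x 1)) ⊗ₜ[k] clk k x := by
  rw [dZ, Finsupp.linearCombination_single, one_smul]

theorem dZ2_single (x : F) : dZ2 k F (Finsupp.single x 1) =
    ExteriorAlgebra.ι k (clk k (1 - x)) * ExteriorAlgebra.ι k (clk k x) := by
  rw [dZ2, Finsupp.linearCombination_single, one_smul]

theorem cons_tmul {j : ℕ} (x : F) (y : Fin j → UV F) :
    (fun i => (1 : k) ⊗ₜ[ℤ] (Fin.cons (cl x) y : Fin (j + 1) → UV F) i) =
      (Fin.cons (clk k x) (fun i => (1 : k) ⊗ₜ[ℤ] y i) : Fin (j + 1) → VK k F) := by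
  funext i
  refine Fin.cases ?_ (fun i => ?_) i
  · rw [Fin.cons_zero, Fin.cons_zero, cls_eq']
  · rw [Fin.cons_succ, Fin.cons_succ]

theorem zero_of_deg_zero {j : ℕ} {f : UV F → (UV F [⋀^Fin (j + 1)]→ₗ[ℤ] ℝ)} (hf : Hm 0 f)
    (h : ∀ s y, f s (Fin.cons s y) = 0) (s : UV F) : f s = 0 := by
  ext y
  rw [hf.zero_const s (y 0)]
  have := h (y 0) (Fin.tail y)
  rwa [Fin.cons_self_tail] at this

theorem Lcal_eq_SVc (n : ℕ) (x : F) (w : InfinitePlace F) (hx : w x < 1) :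
    Lcal n (w.embedding x) = SVc n (w.embedding x) := by
  rw [Lcal, if_pos]
  rw [InfinitePlace.norm_embedding_eq]
  exact hx.le

theorem SVc_zero (n : ℕ) : SVc n 0 = 0 := by
  have h1 : ∀ k, PLc k 0 = 0 := by
    intro k
    rw [PLc]
    simp
  have h2 : SVz n 0 = 0 := by
    rw [SVz]
    refine Finset.sum_eq_zero fun k _ => ?_
    rw [h1, mul_zero]
  rw [SVc, h2]
  simp

theorem Lcal_zero (n : ℕ) : Lcal n 0 = 0 := by
  rw [Lcal, if_pos (by simp)]
  exact SVc_zero n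

end F

section K

variable (k : Type) [Field k] [Algebra k ℝ] (F : Type) [Field F] [NumberField F]

/-- a special case of `TSIN` -/
theorem tsin2 (N a : ℕ) (P : UV F → (UV F →ₗ[ℤ] ℝ)) (hP : Hm (a + 1) P)
    (dg : Ess F N → ℕ) (G : Ess F N → UV F → ℝ) (hG : ∀ j, Hm (dg j) (G j))
    (h : ∀ x : F, (∀ w : InfinitePlace F, 0 < w x ∧ w x < 1) →
      P (cl x) (cl (1 - x)) + ∑ j : Ess F N, SVc (j.1.1 : ℕ) (j.1.2.embedding x) *
        G j (cl x) = 0) : (∀ s t, P s t = 0) ∧ ∀ (j : Ess F N) (s : UV F), G j s = 0 := by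
  have hk : ∀ j, dg j < a + 1 + ∑ j, dg j := by
    intro j
    have := Finset.single_le_sum (f := dg) (fun _ _ => Nat.zero_le _) (Finset.mem_univ j)
    omega
  have ha : a < a + 1 + ∑ j, dg j := by omega
  have h1 := TSIN F N (a + 1 + ∑ j, dg j) (fun i => if i = a then P else fun _ => 0)
    (fun i j => if i = dg j then G j else fun _ => 0) ?_ ?_ ?_
  · refine ⟨?_, ?_⟩
    · intro s t
      simpa using h1.1 a ha s t
    · intro j s
      simpa using h1.2 (dg j) (hk j) j s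
  · intro i hi
    by_cases him : i = a
    · subst him
      simpa using hP
    · simp only [him, if_false]
      exact ZC.MotN.Hm.zero
  · intro i hi j
    by_cases hij : i = dg j
    · simp only [hij, if_true]
      exact hG j
    · simp only [hij, if_false]
      exact ZC.MotN.Hm.zero
  · intro x hx
    refine Eq.trans ?_ (h x hx)
    congr 1
    · rw [Finset.sum_eq_single a]
      · simp
      · intro i _ hi
        simp [hi]
      · intro hm
        exact absurd (Finset.mem_range.2 ha) hm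
    · refine Finset.sum_congr rfl fun j _ => ?_
      congr 1
      rw [Finset.sum_eq_single (dg j)]
      · simp
      · intro i _ hi
        simp [hi]
      · intro hm
        exact absurd (Finset.mem_range.2 (hk j)) hm

/-- evaluation of all variables but the first -/
noncomputable def ey {j : ℕ} (y : Fin j → UV F) :
    (UV F [⋀^Fin (j + 1)]→ₗ[ℤ] ℝ) →ₗ[ℤ] (UV F →ₗ[ℤ] ℝ) where
  toFun A :=
    { toFun := fun u => A (Fin.cons u y)
      map_add' := fun u v => A.map_vecCons_add y u v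
      map_smul' := fun c u => A.map_vecCons_smul y c u }
  map_add' _ _ := rfl
  map_smul' _ _ := rfl

theorem ne_zero_of (x : F) (hx : ∀ w : InfinitePlace F, 0 < w x ∧ w x < 1) : x ≠ 0 := by
  rintro rfl
  obtain ⟨w⟩ : Nonempty (InfinitePlace F) := inferInstance
  have := (hx w).1
  rw [map_zero] at this
  exact lt_irrefl _ this

/-- `{0}` is a relation -/
theorem single_zero_mem (n : ℕ) (hn : 2 ≤ n) : Finsupp.single (0 : F) (1 : k) ∈ RZ k F n := by
  rw [RZ_eq k F n hn]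
  refine ⟨?_, ?_⟩
  · rcases n with _ | _ | _ | n
    · omega
    · omega
    · change dZ2 k F (Finsupp.single 0 1) = 0
      rw [dZ2_single, cls_zero, map_zero, mul_zero]
    · change dZ k F (RZ k F (n + 2)) (Finsupp.single 0 1) = 0
      rw [dZ_single, cls_zero, TensorProduct.tmul_zero]
  · change regZ k F n (Finsupp.single 0 1) = 0
    funext w
    rw [regZ_single, map_zero, Lcal_zero]
    rfl

theorem cz_zero (n : ℕ) (hn : 2 ≤ n) (j : ℕ) (y : Fin j → VK k F) : cz k n j (0 : F) y = 0 := by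
  rw [cz, Submodule.mkQ_apply, (Submodule.Quotient.mk_eq_zero _).2 (single_zero_mem k F n hn),
    TensorProduct.zero_tmul]

end K

section L

variable (k : Type) [Field k] [Algebra k ℝ] (F : Type) [Field F] [NumberField F] (hΛ : LIreg k F)

include hΛ in
/-- the forms which describe a functional become zero after inserting `s` -/
theorem kill (m j : ℕ) (θ : (F →₀ k) →ₗ[k] (UV F [⋀^Fin (j + 1)]→ₗ[ℤ] ℝ))
    (hθ : ∀ ξ ∈ RZ k F (m + 2), θ ξ = 0)
    (hθ' : ∀ (x : F) (y : Fin j → UV F), x ≠ 0 →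
      θ (Finsupp.single x 1) (Fin.cons (cl x) y) = 0) :
    ∃ (p : UV F → (UV F →ₗ[ℤ] (UV F [⋀^Fin (j + 1)]→ₗ[ℤ] ℝ)))
      (f : Ess F (m + 2) → UV F → (UV F [⋀^Fin (j + 1)]→ₗ[ℤ] ℝ)),
      Hm (m + 1) p ∧ (∀ s, p s s = 0) ∧ (∀ j, Hm (m + 2 - (j.1.1 : ℕ)) (f j)) ∧
      (∀ s t y, p s t (Fin.cons s y) = 0) ∧ (∀ i s y, f i s (Fin.cons s y) = 0) ∧
      ∀ x : F, x ≠ 0 → θ (Finsupp.single x 1) = p (cl x) (cl (1 - x)) +
        ∑ j : Ess F (m + 2), Lcal (j.1.1 : ℕ) (j.1.2.embedding x) • f j (cl x) := by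
  obtain ⟨p, f, hp, hp0, hf, hx⟩ := repZ' k F (RZ k F) m (fun n h1 _ => (RZ_eq k F n h1).ge)
    (fun n h1 _ => hΛ n h1) θ hθ
  have key : ∀ y : Fin j → UV F, (∀ s t, p s t (Fin.cons s y) = 0) ∧
      ∀ i s, f i s (Fin.cons s y) = 0 := by
    intro y
    have hP : Hm (m + 1 + 1) (fun s => ((LinearMap.compRight ℤ (ey F y)) (p s)).flip s) :=
      (hp.map (LinearMap.compRight ℤ (ey F y))).uncurry2
    have hG : ∀ i, Hm (m + 2 - (i.1.1 : ℕ) + 1) (fun s => ey F y (f i s) s) :=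
      fun i => ((hf i).map (ey F y)).uncurry
    have h := tsin2 F (m + 2) (m + 1) (fun s => ((LinearMap.compRight ℤ (ey F y)) (p s)).flip s)
      hP _ (fun i s => ey F y (f i s) s) hG ?_
    · exact ⟨fun s t => h.1 s t, fun i s => h.2 i s⟩
    · intro x hx1
      have hx0 := ne_zero_of F x hx1
      have h1 := hθ' x y hx0
      rw [hx x hx0, AlternatingMap.add_apply, alt_sum] at h1
      rw [← h1]
      change p (cl x) (cl (1 - x)) (Fin.cons (cl x) y) + _ = _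
      congr 1
      refine Finset.sum_congr rfl fun i _ => ?_
      rw [Lcal_eq_SVc F _ _ _ (hx1 i.1.2).2]
      rfl
  exact ⟨p, f, hp, hp0, hf, fun s t y => (key y).1 s t, fun i s y => (key y).2 i s, hx⟩

end L

end Cpx4N

namespace Cpx4N

section M

variable (k : Type) [Field k] [Algebra k ℝ] (F : Type) [Field F] [NumberField F]

/-- the functional of a family of forms -/
theorem mkpsi (m j : ℕ) (p : UV F → (UV F →ₗ[ℤ] (UV F [⋀^Fin j]→ₗ[ℤ] ℝ)))
    (f : Ess F (m + 2) → UV F → (UV F [⋀^Fin j]→ₗ[ℤ] ℝ)) (hp : Hm (m + 1) p)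
    (hp0 : ∀ s, p s s = 0) (hf : ∀ j, Hm (m + 2 - (j.1.1 : ℕ)) (f j)) :
    ∃ ψ : CZ k F (m + 2) j →ₗ[k] ℝ, ∀ x : F, x ≠ 0 → ∀ y : Fin j → UV F,
      ψ (cz k (m + 2) j x (fun i => (1 : k) ⊗ₜ[ℤ] y i)) = p (cl x) (cl (1 - x)) y +
        ∑ i : Ess F (m + 2), Lcal (i.1.1 : ℕ) (i.1.2.embedding x) * f i (cl x) y := by
  classical
  obtain ⟨g, hg⟩ : ∃ g : (F →₀ k) →ₗ[k] (UV F [⋀^Fin j]→ₗ[ℤ] ℝ),
      g = Finsupp.linearCombination k (fun x : F => if x = 0 then 0 else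
        p (cl x) (cl (1 - x)) +
          ∑ i : Ess F (m + 2), Lcal (i.1.1 : ℕ) (i.1.2.embedding x) • f i (cl x)) := ⟨_, rfl⟩
  have hg0 : g (Finsupp.single 0 1) = 0 := by
    rw [hg, Finsupp.linearCombination_single, if_pos rfl, smul_zero]
  have hg1 : ∀ x : F, x ≠ 0 → g (Finsupp.single x 1) = p (cl x) (cl (1 - x)) +
      ∑ i : Ess F (m + 2), Lcal (i.1.1 : ℕ) (i.1.2.embedding x) • f i (cl x) := by
    intro x hx
    rw [hg, Finsupp.linearCombination_single, if_neg hx, one_smul]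
  obtain ⟨ψ, hψ⟩ := exists_phi g (rep_RZ k F m p f hp hp0 hf g hg0 hg1)
  refine ⟨ψ, fun x hx y => ?_⟩
  rw [hψ, hg1 x hx, AlternatingMap.add_apply, alt_sum]
  rfl

variable {F} in
/-- inclusion of the pairs -/
def up {N : ℕ} (i : Ess F N) : Ess F (N + 1) :=
  ⟨(⟨(i.1.1 : ℕ), Nat.lt_succ_of_lt i.1.1.2⟩, i.1.2), i.2⟩

theorem sum_up (N : ℕ) (h : Ess F (N + 1) → ℝ)
    (h0 : ∀ i : Ess F (N + 1), (i.1.1 : ℕ) = N + 1 → h i = 0) :
    ∑ i : Ess F (N + 1), h i = ∑ i : Ess F N, h (up i) := by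
  symm
  refine Fintype.sum_of_injective (up (F := F) (N := N)) ?_ _ h ?_ (fun _ => rfl)
  · rintro ⟨⟨a, v⟩, ha⟩ ⟨⟨b, w⟩, hb⟩ hab
    have h1 := congrArg (fun i : Ess F (N + 1) => (i.1.1 : ℕ)) hab
    have h2 := congrArg (fun i : Ess F (N + 1) => i.1.2) hab
    change (a : ℕ) = (b : ℕ) at h1
    change v = w at h2
    have h3 : a = b := Fin.ext h1
    subst h2
    subst h3
    rfl
  · rintro ⟨⟨a, v⟩, ha⟩ hn
    apply h0
    by_contra hne
    apply hn
    have h1 := a.2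
    have h2 : ¬ (a : ℕ) = N + 1 := hne
    exact ⟨⟨(⟨(a : ℕ), by omega⟩, v), ha⟩, rfl⟩

/-- the elements of degree zero -/
noncomputable def TT (n : ℕ) : (F →₀ k) →ₗ[k] CZ k F n 0 :=
  ((TensorProduct.mk k (BZ k F n) (⋀[k]^0 (VK k F))).flip
    (exteriorPower.ιMulti k 0 (fun i => i.elim0))) ∘ₗ (RZ k F n).mkQ

theorem TT_single (n : ℕ) (x : F) : TT k F n (Finsupp.single x 1) = cz k n 0 x (fun i => i.elim0) :=
  rfl

theorem TT_surj (n : ℕ) (v : CZ k F n 0) : ∃ ξ, TT k F n ξ = v := by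
  by_contra hn
  have hn' : v ∉ LinearMap.range (TT k F n) := fun ⟨u, hu⟩ => hn ⟨u, hu⟩
  obtain ⟨φ, h1, h2⟩ := dual_ne hn'
  apply h2
  have h3 : φ = 0 := cz_ext _ _ fun x y => by
    have h4 : y = fun i => i.elim0 := Subsingleton.elim _ _
    rw [h4, ← TT_single, h1 _ ⟨_, rfl⟩, LinearMap.zero_apply]
  rw [h3, LinearMap.zero_apply]

theorem TT_zero (n : ℕ) (ξ : F →₀ k) (h : ξ ∈ RZ k F n) : TT k F n ξ = 0 := by
  rw [TT, LinearMap.comp_apply, Submodule.mkQ_apply, (Submodule.Quotient.mk_eq_zero _).2 h,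
    map_zero]

theorem d_TT (D : DiffZ k F) (m : ℕ) (ξ : F →₀ k) :
    D.d m 0 (TT k F (m + 3) ξ) = 0 ↔ ξ ∈ KR k F (RZ k F) (m + 3) := by
  have h1 : ((LinearEquiv.lTensor (BZ k F (m + 2)) (exteriorPower.oneEquiv k (VK k F))).toLinearMap ∘ₗ
      D.d m 0) ∘ₗ TT k F (m + 3) = dZ k F (RZ k F (m + 2)) := by
    ext x
    simp only [LinearMap.comp_apply, Finsupp.lsingle_apply, LinearEquiv.coe_coe]
    rw [TT_single, D.d_cz, dZ_single, cz, LinearEquiv.lTensor_tmul,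
      exteriorPower.oneEquiv_ιMulti, Fin.cons_zero]
  change _ ↔ dZ k F (RZ k F (m + 2)) ξ = 0
  rw [← h1, LinearMap.comp_apply, LinearMap.comp_apply, LinearEquiv.coe_coe,
    LinearEquiv.map_eq_zero_iff]

theorem e_TT (D : DiffZ k F) (ξ : F →₀ k) :
    D.e 0 (TT k F 2 ξ) = 0 ↔ ξ ∈ KR k F (RZ k F) 2 := by
  have h1 : ((⋀[k]^2 (VK k F)).subtype ∘ₗ D.e 0) ∘ₗ TT k F 2 = dZ2 k F := by
    ext x
    simp only [LinearMap.comp_apply, Finsupp.lsingle_apply]
    rw [TT_single, D.e_cz, dZ2_single, lz, Submodule.subtype_apply,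
      exteriorPower.ιMulti_apply_coe, ExteriorAlgebra.ιMulti_apply]
    simp [List.ofFn_succ]
  change _ ↔ dZ2 k F ξ = 0
  rw [← h1, LinearMap.comp_apply, LinearMap.comp_apply, Submodule.subtype_apply,
    ZeroMemClass.coe_eq_zero]

end M

section N

variable (k : Type) [Field k] [Algebra k ℝ] (F : Type) [Field F] [NumberField F]

/-- the cohomology in degree one, in general -/
theorem h1_gen (n : ℕ) (hn : 2 ≤ n) {W : Type} [AddCommGroup W] [Module k W]
    (g : CZ k F n 0 →ₗ[k] W) (hg : ∀ ξ, g (TT k F n ξ) = 0 ↔ ξ ∈ KR k F (RZ k F) n)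
    (reg : CZ k F n 0 →ₗ[k] (Pl F n → ℝ))
    (hreg : ∀ (x : F) (y : Fin 0 → VK k F) (w : Pl F n),
      reg (cz k n 0 x y) w = Lcal n (w.1.embedding x)) :
    Set.InjOn reg (LinearMap.ker g : Set (CZ k F n 0)) ∧ (LinearMap.ker g).map reg = (KR k F (RZ k F) n).map (regZ k F n) := by
  have h1 : ∀ ξ, reg (TT k F n ξ) = regZ k F n ξ := by
    have h2 : reg ∘ₗ TT k F n = regZ k F n := by
      refine Finsupp.lhom_ext' fun x => LinearMap.ext_ring ?_
      funext w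
      change reg (TT k F n (Finsupp.single x 1)) w = regZ k F n (Finsupp.single x 1) w
      rw [TT_single, hreg, regZ_single]
    intro ξ
    rw [← h2]
    rfl
  have h3 : ∀ v, g v = 0 → reg v = 0 → v = 0 := by
    intro v hv1 hv2
    obtain ⟨ξ, rfl⟩ := TT_surj k F n v
    apply TT_zero
    rw [RZ_eq k F n hn]
    refine ⟨(hg ξ).1 hv1, ?_⟩
    change regZ k F n ξ = 0
    rw [← h1, hv2]
  refine ⟨?_, ?_⟩
  · intro v hv v' hv' h
    have hv1 : g v = 0 := hv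
    have hv2 : g v' = 0 := hv'
    refine sub_eq_zero.1 (h3 (v - v') ?_ ?_)
    · rw [map_sub, hv1, hv2, sub_zero]
    · rw [map_sub, h, sub_self]
  · apply le_antisymm
    · rintro _ ⟨v, hv, rfl⟩
      obtain ⟨ξ, rfl⟩ := TT_surj k F n v
      exact ⟨ξ, (hg ξ).1 hv, (h1 ξ).symm⟩
    · rintro _ ⟨ξ, hξ, rfl⟩
      exact ⟨TT k F n ξ, (hg ξ).2 hξ, h1 ξ⟩

end N

end Cpx4N

variable (k : Type) [Field k] [Algebra k ℝ] (F : Type) [Field F] [NumberField F] (hΛ : LIreg k F)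

include hΛ in
/-- [CPX4a] -/
theorem exact_d (D : DiffZ k F) (m j : ℕ) : Function.Exact (D.d (m + 1) j) (D.d m (j + 1)) := by
  refine Cpx4N.exact_of_real (D.d (m + 1) j) (D.d m (j + 1)) (d_comp_d D m j) fun φ hφ => ?_
  obtain ⟨θ, hθ, hθ'⟩ := exists_theta φ
  have h1 : ∀ (x : F) (y : Fin j → UV F), x ≠ 0 →
      θ (Finsupp.single x 1) (Fin.cons (cl x) y) = 0 := by
    intro x y _
    rw [← hθ', Cpx4N.cons_tmul]
    have h2 := hφ (cz k (m + 1 + 3) j x (fun i => (1 : k) ⊗ₜ[ℤ] y i))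
    rw [D.d_cz] at h2
    exact h2
  obtain ⟨p, f, hp, hp0, hf, hp1, hf1, hx⟩ := Cpx4N.kill k F hΛ (m + 1) j θ hθ h1
  obtain ⟨p', hp', hp'0, hp'1⟩ := koszulY m (j + 1) p hp hp0 (by
    intro i hi s v y
    obtain rfl : j = i := by omega
    exact hp1 s v y)
  have hf2 : ∀ i : Ess F (m + 2), ∃ f' : UV F → (UV F [⋀^Fin (j + 1 + 1)]→ₗ[ℤ] ℝ),
      Hm (m + 2 - (i.1.1 : ℕ)) f' ∧
      ∀ (s : UV F) (y : Fin (j + 1) → UV F), f' s (Fin.cons s y) = f (Cpx4N.up i) s y := by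
    intro i
    refine koszulY' (m + 2 - (i.1.1 : ℕ)) (j + 1) (f (Cpx4N.up i)) ?_ ?_
    · have h2 := hf (Cpx4N.up i)
      have h3 : m + 1 + 2 - ((Cpx4N.up i).1.1 : ℕ) = m + 2 - (i.1.1 : ℕ) + 1 := by
        have h4 := i.1.1.2
        change m + 1 + 2 - (i.1.1 : ℕ) = m + 2 - (i.1.1 : ℕ) + 1
        omega
      rw [h3] at h2
      exact h2
    · intro i' hi s y
      obtain rfl : j = i' := by omega
      exact hf1 _ s y
  choose f' hf' hf'1 using hf2
  obtain ⟨ψ, hψ⟩ := Cpx4N.mkpsi k F m (j + 1 + 1) p' f' hp' hp'0 hf'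
  have h5 : φ = ψ ∘ₗ D.d m (j + 1) := by
    refine cz_ext' _ _ fun x y => ?_
    by_cases hx0 : x = 0
    · subst hx0
      rw [Cpx4N.cz_zero k F (m + 3) (by omega), map_zero, map_zero]
    · rw [hθ', hx x hx0, LinearMap.comp_apply, D.d_cz, ← Cpx4N.cons_tmul, hψ x hx0, hp'1,
        AlternatingMap.add_apply, Cpx4N.alt_sum]
      congr 1
      simp only [hf'1]
      refine Cpx4N.sum_up F (m + 2) (fun i => (Lcal (i.1.1 : ℕ) (i.1.2.embedding x) •
        f i (cl x)) y) fun i hi => ?_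
      have h6 := hf i
      have h7 : m + 1 + 2 - (i.1.1 : ℕ) = 0 := by omega
      rw [h7] at h6
      rw [Cpx4N.zero_of_deg_zero F h6 (hf1 i), smul_zero, AlternatingMap.zero_apply]
  exact ⟨ψ, fun v => by rw [h5]; rfl⟩

include hΛ in
/-- [CPX4b] -/
theorem exact_e (D : DiffZ k F) (j : ℕ) : Function.Exact (D.d 0 j) (D.e (j + 1)) := by
  refine Cpx4N.exact_of_real (D.d 0 j) (D.e (j + 1)) (e_comp_d D j) fun φ hφ => ?_
  obtain ⟨θ, hθ, hθ'⟩ := exists_theta φ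
  have h1 : ∀ (x : F) (y : Fin j → UV F), x ≠ 0 →
      θ (Finsupp.single x 1) (Fin.cons (cl x) y) = 0 := by
    intro x y _
    rw [← hθ', Cpx4N.cons_tmul]
    have h2 := hφ (cz k (0 + 3) j x (fun i => (1 : k) ⊗ₜ[ℤ] y i))
    rw [D.d_cz] at h2
    exact h2
  obtain ⟨p, f, hp, hp0, hf, hp1, hf1, hx⟩ := Cpx4N.kill k F hΛ 0 j θ hθ h1
  obtain ⟨Θ, hΘ⟩ := koszulY_last (j + 1) p hp hp0 (by
    intro i hi s v y
    obtain rfl : j = i := by omega
    exact hp1 s v y)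
  obtain ⟨ψ, hψ⟩ := exists_lphi (k := k) Θ
  have h5 : φ = ψ ∘ₗ D.e (j + 1) := by
    refine cz_ext' _ _ fun x y => ?_
    by_cases hx0 : x = 0
    · subst hx0
      rw [Cpx4N.cz_zero k F 2 (by omega), map_zero, map_zero]
    · rw [hθ', hx x hx0, LinearMap.comp_apply, D.e_cz, ← Cpx4N.cons_tmul, ← Cpx4N.cons_tmul,
        hψ, hΘ, AlternatingMap.add_apply, Cpx4N.alt_sum]
      rw [Finset.sum_eq_zero, add_zero]
      intro i _
      have h6 := hf i
      have h8 := i.1.1.2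
      have h9 := i.2.1
      have h7 : 0 + 2 - (i.1.1 : ℕ) = 0 := by omega
      rw [h7] at h6
      rw [Cpx4N.zero_of_deg_zero F h6 (hf1 i), smul_zero, AlternatingMap.zero_apply]
  exact ⟨ψ, fun v => by rw [h5]; rfl⟩

/-- [CPX4c] (no hypothesis) -/
theorem surjective_e (D : DiffZ k F) (j : ℕ) : Function.Surjective (D.e j) := by
  intro v
  by_contra hn
  have hn' : v ∉ LinearMap.range (D.e j) := fun ⟨u, hu⟩ => hn ⟨u, hu⟩
  obtain ⟨φ, h1, h2⟩ := Cpx4N.dual_ne hn'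
  apply h2
  obtain ⟨θ, hθ⟩ := exists_alt φ
  have h3 : ∀ (x : F) (y : Fin j → UV F),
      θ (Fin.cons (cl (1 - x)) (Fin.cons (cl x) y)) = 0 := by
    intro x y
    rw [← hθ, Cpx4N.cons_tmul, Cpx4N.cons_tmul]
    have := h1 _ ⟨cz k 2 j x (fun i => (1 : k) ⊗ₜ[ℤ] y i), rfl⟩
    rwa [D.e_cz] at this
  have h4 : ∀ (s t : UV F) (y : Fin j → UV F), θ (Fin.cons t (Fin.cons s y)) = 0 := by
    intro s t y
    have h5 : Hm 0 (fun _ : UV F => (Cpx4N.ey F y ∘ₗ θ.curryLeft).flip) :=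
      ⟨MultilinearMap.constOfIsEmpty ℤ _ _, fun _ => rfl⟩
    have h6 := Cpx4N.tsin2 F 0 0 (fun s => (Cpx4N.ey F y ∘ₗ θ.curryLeft).flip s) h5.uncurry
      (fun _ => 0) (fun _ _ => 0) (fun _ => ZC.MotN.Hm.zero) (fun x _ => by
        rw [Finset.sum_eq_zero (fun _ _ => mul_zero _), add_zero]
        exact h3 x y)
    exact h6.1 s t
  have h5 : φ = 0 := lz_ext' _ _ fun y => by
    rw [hθ, LinearMap.zero_apply]
    have := h4 (y 1) (y 0) (Fin.tail (Fin.tail y))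
    rwa [show (Fin.cons (y 1) (Fin.tail (Fin.tail y)) : Fin (j + 1) → UV F) = Fin.tail y from
      Fin.cons_self_tail (Fin.tail y), Fin.cons_self_tail] at this
  rw [h5, LinearMap.zero_apply]

/-- [CPX4d] the regulators -/
theorem exists_regC : ∃ reg : (n : ℕ) → (CZ k F n 0 →ₗ[k] (Pl F n → ℝ)), ∀ n, 2 ≤ n →
    ∀ (x : F) (y : Fin 0 → VK k F) (w : Pl F n),
      reg n (cz k n 0 x y) w = Lcal n (w.1.embedding x) := by
  have h : ∀ n : ℕ, ∃ reg : CZ k F n 0 →ₗ[k] (Pl F n → ℝ), 2 ≤ n →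
    ∀ (x : F) (y : Fin 0 → VK k F) (w : Pl F n),
      reg (cz k n 0 x y) w = Lcal n (w.1.embedding x) := by
    intro n
    by_cases hn : 2 ≤ n
    · refine ⟨((RZ k F n).liftQ (regZ k F n) ?_) ∘ₗ (TensorProduct.rid k (BZ k F n)).toLinearMap ∘ₗ
        (LinearEquiv.lTensor (BZ k F n) (exteriorPower.zeroEquiv k (VK k F))).toLinearMap,
        fun _ x y w => ?_⟩
      · rw [RZ_eq k F n hn]
        exact inf_le_right
      · rw [LinearMap.comp_apply, LinearMap.comp_apply, LinearEquiv.coe_coe, LinearEquiv.coe_coe,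
          cz, LinearEquiv.lTensor_tmul, exteriorPower.zeroEquiv_ιMulti, TensorProduct.rid_tmul,
          one_smul, Submodule.mkQ_apply, Submodule.liftQ_apply, Cpx4N.regZ_single]
    · exact ⟨0, fun h => absurd h hn⟩
  choose reg hreg using h
  exact ⟨reg, fun n hn => hreg n hn⟩

/-- [CPX4e] the cohomology in degree `1` -/
theorem h1_reg (D : DiffZ k F) (reg : (n : ℕ) → (CZ k F n 0 →ₗ[k] (Pl F n → ℝ)))
    (hreg : ∀ n, 2 ≤ n → ∀ (x : F) (y : Fin 0 → VK k F) (w : Pl F n),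
      reg n (cz k n 0 x y) w = Lcal n (w.1.embedding x)) :
    (∀ m, Set.InjOn (reg (m + 3)) (LinearMap.ker (D.d m 0) : Set (CZ k F (m + 3) 0)) ∧
      (LinearMap.ker (D.d m 0)).map (reg (m + 3)) =
        (KR k F (RZ k F) (m + 3)).map (regZ k F (m + 3))) ∧
    Set.InjOn (reg 2) (LinearMap.ker (D.e 0) : Set (CZ k F 2 0)) ∧
      (LinearMap.ker (D.e 0)).map (reg 2) = (KR k F (RZ k F) 2).map (regZ k F 2) := by
  refine ⟨fun m => ?_, ?_⟩
  · exact Cpx4N.h1_gen k F (m + 3) (by omega) (D.d m 0) (Cpx4N.d_TT k F D m) (reg (m + 3))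
      (hreg (m + 3) (by omega))
  · exact Cpx4N.h1_gen k F 2 le_rfl (D.e 0) (Cpx4N.e_TT k F D) (reg 2) (hreg 2 le_rfl)

end Pool.Agent.H366.NK
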