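import Pool.Agent.H366.NK.ZagDefs

/-!
# The polylogarithmic complexes of a field with Zagier's groups: definitions

`k` is a field of coefficients (`ℚ` or `ℝ`), `B_m(F) ⊗ k = k[F] / R_m` with Zagier's relations `R_m`
(`RZ`). The complex `Γ(F,n) ⊗ k`, `n ≥ 2`, is
`B_n → B_{n-1} ⊗ F^* → B_{n-2} ⊗ Λ²F^* → ... → B_2 ⊗ Λ^{n-2}F^* → Λ^n F^*` (tensored with `k`), with
`B_n` in degree `1`.
-/

set_option autoImplicit false

namespace Pool.Agent.H366.NK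

open NumberField
open scoped TensorProduct

section F

variable (k : Type) [Field k] [Algebra k ℝ] (F : Type) [Field F]

omit [Algebra k ℝ] in
/-- `F^* ⊗ k` -/
abbrev VK : Type := k ⊗[ℤ] Additive Fˣ

/-- Zagier's groups `B_m(F) ⊗ k`, `m ≥ 2` -/
abbrev BZ (m : ℕ) : Type := (F →₀ k) ⧸ RZ k F m

/-- the terms `B_m(F) ⊗ Λ^j F^* ⊗ k` of the complexes -/
abbrev CZ (m j : ℕ) : Type := BZ k F m ⊗[k] ⋀[k]^j (VK k F)

omit [Algebra k ℝ] in
/-- the last terms `Λ^j F^* ⊗ k` -/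
abbrev LZ (j : ℕ) : Type := ⋀[k]^j (VK k F)

variable {F}

/-- `{x}_m ⊗ y_1 ∧ ... ∧ y_j` -/
noncomputable def cz (m j : ℕ) (x : F) (y : Fin j → VK k F) : CZ k F m j :=
  ((RZ k F m).mkQ (Finsupp.single x 1)) ⊗ₜ[k] exteriorPower.ιMulti k j y

omit [Algebra k ℝ] in
/-- `y_1 ∧ ... ∧ y_j` -/
noncomputable def lz (j : ℕ) (y : Fin j → VK k F) : LZ k F j := exteriorPower.ιMulti k j y

variable (F)

/-- The differentials of all the complexes `Γ(F,n) ⊗ k`, `n ≥ 2` (for `x = 0` and `x = 1` note that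
`clk 0 = clk 1 = 0`): the term of degree `i ≤ n - 1` of `Γ(F,n) ⊗ k` is `CZ k F (n - i + 1) (i - 1)`,
the term of degree `n` is `LZ k F n`. -/
structure DiffZ where
  /-- `B_{m+3} ⊗ Λ^j F^* → B_{m+2} ⊗ Λ^{j+1} F^*` -/
  d : ∀ m j : ℕ, CZ k F (m + 3) j →ₗ[k] CZ k F (m + 2) (j + 1)
  d_cz : ∀ m j (x : F) (y : Fin j → VK k F),
    d m j (cz k (m + 3) j x y) = cz k (m + 2) (j + 1) x (Fin.cons (clk k x) y)
  /-- `B_2 ⊗ Λ^j F^* → Λ^{j+2} F^*` -/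
  e : ∀ j : ℕ, CZ k F 2 j →ₗ[k] LZ k F (j + 2)
  e_cz : ∀ j (x : F) (y : Fin j → VK k F),
    e j (cz k 2 j x y) = lz k (j + 2) (Fin.cons (clk k (1 - x)) (Fin.cons (clk k x) y))

end F

end Pool.Agent.H366.NK
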