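import Pool.Agent.H366.NK.ZagDefs

/-!
# The polylogarithmic complexes of a field with Zagier's groups: definitions for the statement

`k` is a field of coefficients (`ℚ` or `ℝ`), `B_m(F) ⊗ k = k[F] / R_m` with Zagier's relations `R_m`
(`RZ`). The complex `Γ(F,n) ⊗ k`, `n ≥ 2`, is
`B_n → B_{n-1} ⊗ F^* → B_{n-2} ⊗ Λ²F^* → ... → B_2 ⊗ Λ^{n-2}F^* → Λ^n F^*` (tensored with `k`), with
`B_n` in degree `1`.
-/

set_option autoImplicit false

namespace Pool.Agent.H366.NK

open NumberField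
open scoped TensorProduct

/-! ### `F^* ⊗ k` and its exterior powers -/

/-- `F^* ⊗ k` -/
def Fk (k : Type) [Field k] (F : Type) [Field F] : Type := k ⊗[ℤ] Additive Fˣ

noncomputable instance (k : Type) [Field k] (F : Type) [Field F] : AddCommGroup (Fk k F) :=
  (inferInstance : AddCommGroup (k ⊗[ℤ] Additive Fˣ))

noncomputable instance (k : Type) [Field k] (F : Type) [Field F] : Module k (Fk k F) :=
  (inferInstance : Module k (k ⊗[ℤ] Additive Fˣ))

/-- the class of `x` in `F^* ⊗ k`; it is `0` for `x = 0` -/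
noncomputable def fk (k : Type) [Field k] {F : Type} [Field F] (x : F) : Fk k F := clk k x

/-- the exterior power `Λ^j V` -/
def Ext (k : Type) [Field k] (V : Type) [AddCommGroup V] [Module k V] (j : ℕ) : Type := ⋀[k]^j V

noncomputable instance (k : Type) [Field k] (V : Type) [AddCommGroup V] [Module k V] (j : ℕ) :
    AddCommGroup (Ext k V j) := (inferInstance : AddCommGroup (⋀[k]^j V))

noncomputable instance (k : Type) [Field k] (V : Type) [AddCommGroup V] [Module k V] (j : ℕ) :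
    Module k (Ext k V j) := (inferInstance : Module k (⋀[k]^j V))

/-- `y_1 ∧ ... ∧ y_j` -/
noncomputable def wedge (k : Type) [Field k] {V : Type} [AddCommGroup V] [Module k V] {j : ℕ}
    (y : Fin j → V) : Ext k V j := exteriorPower.ιMulti k j y

/-! ### tensor products -/

/-- the tensor product `V ⊗ W` -/
def Tens (k : Type) [Field k] (V W : Type) [AddCommGroup V] [Module k V] [AddCommGroup W]
    [Module k W] : Type := V ⊗[k] W

noncomputable instance (k : Type) [Field k] (V W : Type) [AddCommGroup V] [Module k V]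
    [AddCommGroup W] [Module k W] : AddCommGroup (Tens k V W) :=
  (inferInstance : AddCommGroup (V ⊗[k] W))

noncomputable instance (k : Type) [Field k] (V W : Type) [AddCommGroup V] [Module k V]
    [AddCommGroup W] [Module k W] : Module k (Tens k V W) :=
  (inferInstance : Module k (V ⊗[k] W))

/-- `v ⊗ w` -/
noncomputable def tens (k : Type) [Field k] {V W : Type} [AddCommGroup V] [Module k V]
    [AddCommGroup W] [Module k W] (v : V) (w : W) : Tens k V W := v ⊗ₜ[k] w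

section F

variable (k : Type) [Field k] [Algebra k ℝ] (F : Type) [Field F]

/-- Zagier's groups `B_m(F) ⊗ k = k[F] / R_m`, `m ≥ 2` -/
def Bk (m : ℕ) : Type := (F →₀ k) ⧸ RZ k F m

noncomputable instance (m : ℕ) : AddCommGroup (Bk k F m) :=
  (inferInstance : AddCommGroup ((F →₀ k) ⧸ RZ k F m))

noncomputable instance (m : ℕ) : Module k (Bk k F m) :=
  (inferInstance : Module k ((F →₀ k) ⧸ RZ k F m))

variable {F} in
/-- `{x}_m` -/
noncomputable def bk (m : ℕ) (x : F) : Bk k F m := (RZ k F m).mkQ (Finsupp.single x 1)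

/-- the terms `B_m(F) ⊗ Λ^j F^* ⊗ k` of the complexes -/
def Tk (m j : ℕ) : Type := Tens k (Bk k F m) (Ext k (Fk k F) j)

noncomputable instance (m j : ℕ) : AddCommGroup (Tk k F m j) :=
  (inferInstance : AddCommGroup (Tens k (Bk k F m) (Ext k (Fk k F) j)))

noncomputable instance (m j : ℕ) : Module k (Tk k F m j) :=
  (inferInstance : Module k (Tens k (Bk k F m) (Ext k (Fk k F) j)))

variable {F} in
/-- `{x}_m ⊗ y_1 ∧ ... ∧ y_j` -/
noncomputable def tk (m j : ℕ) (x : F) (y : Fin j → Fk k F) : Tk k F m j :=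
  tens k (bk k m x) (wedge k y)

/-- The differentials of all the complexes `Γ(F,n) ⊗ k`, `n ≥ 2` (for `x = 0` and `x = 1` note that
`fk 0 = fk 1 = 0`): the term of degree `i ≤ n - 1` of `Γ(F,n) ⊗ k` is `Tk k F (n - i + 1) (i - 1)`,
the term of degree `n` is `Ext k (Fk k F) n`. -/
structure Diffs where
  /-- `B_{m+3} ⊗ Λ^j F^* → B_{m+2} ⊗ Λ^{j+1} F^*` -/
  d : ∀ m j : ℕ, Tk k F (m + 3) j →ₗ[k] Tk k F (m + 2) (j + 1)
  d_tk : ∀ m j (x : F) (y : Fin j → Fk k F),
    d m j (tk k (m + 3) j x y) = tk k (m + 2) (j + 1) x (Fin.cons (fk k x) y)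
  /-- `B_2 ⊗ Λ^j F^* → Λ^{j+2} F^*` -/
  e : ∀ j : ℕ, Tk k F 2 j →ₗ[k] Ext k (Fk k F) (j + 2)
  e_tk : ∀ j (x : F) (y : Fin j → Fk k F),
    e j (tk k 2 j x y) = wedge k (Fin.cons (fk k (1 - x)) (Fin.cons (fk k x) y))

variable {k F}

/-- `H^i(Γ(F,n) ⊗ k) = 0` for all `n ≥ 2` and all `i ≥ 2`: exactness at the terms
`B_{m+2} ⊗ Λ^{j+1} F^*` and surjectivity of the last maps `B_2 ⊗ Λ^j F^* → Λ^{j+2} F^*` -/
structure Diffs.ExactAbove (D : Diffs k F) : Prop where
  exact_d : ∀ m j : ℕ, Function.Exact (D.d (m + 1) j) (D.d m (j + 1))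
  exact_e : ∀ j : ℕ, Function.Exact (D.d 0 j) (D.e (j + 1))
  surj_e : ∀ j : ℕ, Function.Surjective (D.e j)

variable [NumberField F]

/-- the regulators `{x}_n ↦ (𝓛_n(σ_w x))_w` are well-defined on `B_n(F) ⊗ k` and map
`H^1(Γ(F,n) ⊗ k)` bijectively onto `V n ⊆ ℝ^{d_n}`, for all `n ≥ 2` -/
def Diffs.HOne (D : Diffs k F) (V : (n : ℕ) → Submodule k (Pl F n → ℝ)) : Prop :=
  ∃ reg : (n : ℕ) → (Tk k F n 0 →ₗ[k] (Pl F n → ℝ)),
    (∀ n, 2 ≤ n → ∀ (x : F) (y : Fin 0 → Fk k F) (w : Pl F n),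
      reg n (tk k n 0 x y) w = Lcal n (w.1.embedding x)) ∧
    Set.BijOn (reg 2) {v | D.e 0 v = 0} (V 2) ∧
    ∀ m, Set.BijOn (reg (m + 3)) {v | D.d m 0 v = 0} (V (m + 3))

variable (k F) in
/-- The differentials exist and are unique, `H^i = 0` for `i ≥ 2`, and `H^1 = V n`. -/
def Cohomology (V : (n : ℕ) → Submodule k (Pl F n → ℝ)) : Prop :=
  ∃ D : Diffs k F, (∀ D' : Diffs k F, D' = D) ∧ D.ExactAbove ∧ D.HOne V

end F

end Pool.Agent.H366.NK
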