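import Pool.Agent.H366.NK.Cpx4
import Pool.Agent.H366.NK.CpxStmt

/-! # The cohomology of the polylogarithmic complexes of a number field -/

set_option autoImplicit false

namespace Pool.Agent.H366.NK

open NumberField
open scoped TensorProduct

section F

variable (k : Type) [Field k] [Algebra k ℝ] (F : Type) [Field F]

/-- the differentials, with the short definitions -/
noncomputable def toDiffs (D : DiffZ k F) : Diffs k F where
  d := D.d
  d_tk := D.d_cz
  e := D.e
  e_tk := D.e_cz

/-- and conversely -/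
noncomputable def ofDiffs (D : Diffs k F) : DiffZ k F where
  d := D.d
  d_cz := D.d_tk
  e := D.e
  e_cz := D.e_tk

theorem toDiffs_ofDiffs (D : Diffs k F) : toDiffs k F (ofDiffs k F D) = D := rfl

theorem diffs_unique (D D' : Diffs k F) : D' = D := by
  have h := diffZ_unique (ofDiffs k F D) (ofDiffs k F D')
  rw [← toDiffs_ofDiffs k F D, ← toDiffs_ofDiffs k F D', h]

variable [NumberField F]

theorem cohomology (h : LIreg k F) :
    Cohomology k F fun n => (KR k F (RZ k F) n).map (regZ k F n) := by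
  obtain ⟨D⟩ := exists_diffZ k F
  obtain ⟨reg, hreg⟩ := exists_regC k F
  obtain ⟨h1, h2, h3⟩ := h1_reg k F D reg hreg
  refine ⟨toDiffs k F D, fun D' => diffs_unique k F _ D', ⟨fun m j => exact_d k F h D m j,
    fun j => exact_e k F h D j, fun j => surjective_e k F D j⟩, reg, hreg, ?_, fun m => ?_⟩
  · refine ⟨fun v hv => ?_, h2, fun v hv => ?_⟩
    · change _ ∈ (KR k F (RZ k F) 2).map (regZ k F 2)
      rw [← h3]
      exact ⟨v, hv, rfl⟩
    · change _ ∈ (KR k F (RZ k F) 2).map (regZ k F 2) at hv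
      rw [← h3] at hv
      obtain ⟨u, hu, rfl⟩ := hv
      exact ⟨u, hu, rfl⟩
  · refine ⟨fun v hv => ?_, (h1 m).1, fun v hv => ?_⟩
    · change _ ∈ (KR k F (RZ k F) (m + 3)).map (regZ k F (m + 3))
      rw [← (h1 m).2]
      exact ⟨v, hv, rfl⟩
    · change _ ∈ (KR k F (RZ k F) (m + 3)).map (regZ k F (m + 3)) at hv
      rw [← (h1 m).2] at hv
      obtain ⟨u, hu, rfl⟩ := hv
      exact ⟨u, hu, rfl⟩

variable {k F}

theorem Cohomology.congr {V V' : (n : ℕ) → Submodule k (Pl F n → ℝ)} (h : Cohomology k F V)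
    (hV : ∀ n, 2 ≤ n → V n = V' n) : Cohomology k F V' := by
  obtain ⟨D, h1, h2, reg, h3, h4, h5⟩ := h
  refine ⟨D, h1, h2, reg, h3, ?_, fun m => ?_⟩
  · rw [← hV 2 le_rfl]
    exact h4
  · rw [← hV (m + 3) (by omega)]
    exact h5 m

end F

end Pool.Agent.H366.NK
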