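import Pool.Agent.H366.NK.Base2

/-! # [PACK] counting lattice points by places -/

set_option autoImplicit false

namespace Pool.Agent.H366.NK

open NumberField
open Pool.Agent.H366.GF (Ex ExC)
open Pool.Agent.H366.ZC (e)

variable {K : Type} [Field K] [NumberField K]

namespace PackN

/-- the cell of a complex number `z` with `|z| ≤ b`, mesh `b / (2 n)` -/
noncomputable def cellr (b : ℝ) (n : ℕ) (t : ℝ) : ℤ := ⌊(t + b) * (2 * n / b)⌋

theorem cellr_mem {b : ℝ} (hb : 0 < b) (n : ℕ) {t : ℝ} (ht : |t| ≤ b) :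
    cellr b n t ∈ Finset.Icc (0 : ℤ) (4 * n) := by
  have h1 := abs_le.1 ht
  have hn : (0 : ℝ) ≤ n := Nat.cast_nonneg n
  have h2 : 0 ≤ 2 * (n : ℝ) / b := by positivity
  rw [Finset.mem_Icc]
  constructor
  · exact Int.floor_nonneg.2 (mul_nonneg (by linarith [h1.1]) h2)
  · refine Int.floor_le_iff.2 ?_
    have h3 : (t + b) * (2 * n / b) ≤ (2 * b) * (2 * n / b) :=
      mul_le_mul_of_nonneg_right (by linarith [h1.2]) h2
    have h4 : (2 * b) * (2 * n / b) = 4 * n := by
      field_simp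
      ring
    push_cast
    linarith

theorem cellr_close {b : ℝ} (hb : 0 < b) {n : ℕ} (hn : 1 ≤ n) {t u : ℝ}
    (h : cellr b n t = cellr b n u) : |t - u| < b / (2 * n) := by
  have hn' : (0 : ℝ) < n := by exact_mod_cast (show 0 < n by omega)
  have h1 := Int.abs_sub_lt_one_of_floor_eq_floor h
  have h2 : (t + b) * (2 * n / b) - (u + b) * (2 * n / b) = (t - u) * (2 * n / b) := by ring
  have h3 : (0 : ℝ) < 2 * n / b := by positivity
  rw [h2, abs_mul, abs_of_pos h3] at h1
  rw [lt_div_iff₀ (by positivity)]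
  have h4 : |t - u| * (2 * n / b) = |t - u| * (2 * n) / b := by ring
  rw [h4, div_lt_one hb] at h1
  exact h1

open Classical in
/-- the cell of `x` at the place `w` -/
noncomputable def cell (w : InfinitePlace K) (b : ℝ) (n : ℕ) (x : K) : ℤ × ℤ :=
  (cellr b n (w.embedding x).re, if w.IsReal then 0 else cellr b n (w.embedding x).im)

open Classical in
/-- the cells at the place `w` -/
noncomputable def cells (w : InfinitePlace K) (n : ℕ) : Finset (ℤ × ℤ) :=
  Finset.Icc (0 : ℤ) (4 * n) ×ˢ (if w.IsReal then {0} else Finset.Icc (0 : ℤ) (4 * n))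

omit [NumberField K] in
theorem cell_mem (w : InfinitePlace K) {b : ℝ} (hb : 0 < b) (n : ℕ) {x : K} (hx : w x ≤ b) :
    cell w b n x ∈ cells w n := by
  have h0 : ‖w.embedding x‖ ≤ b := by rwa [InfinitePlace.norm_embedding_eq]
  unfold cell cells
  rw [Finset.mem_product]
  refine ⟨cellr_mem hb n ((Complex.abs_re_le_norm _).trans h0), ?_⟩
  dsimp only
  split_ifs
  · exact Finset.mem_singleton_self _
  · exact cellr_mem hb n ((Complex.abs_im_le_norm _).trans h0)

omit [NumberField K] in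
theorem card_cells (w : InfinitePlace K) {n : ℕ} (hn : 1 ≤ n) :
    (cells w n).card ≤ (5 * n) ^ w.mult := by
  have h1 : (Finset.Icc (0 : ℤ) (4 * n)).card = 4 * n + 1 := by
    rw [Int.card_Icc]
    omega
  unfold cells InfinitePlace.mult
  rw [Finset.card_product, h1]
  split_ifs
  · rw [Finset.card_singleton, pow_one]
    omega
  · rw [h1, pow_two]
    exact Nat.mul_le_mul (by omega) (by omega)

theorem cell_close (w : InfinitePlace K) {b : ℝ} (hb : 0 < b) {n : ℕ} (hn : 1 ≤ n) {x y : K}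
    (h : cell w b n x = cell w b n y) : w (x - y) ≤ b / n := by
  have hn' : (0 : ℝ) < n := by exact_mod_cast (show 0 < n by omega)
  have h1 := cellr_close hb hn (congrArg Prod.fst h)
  have h2 : |(w.embedding (x - y)).im| ≤ b / (2 * n) := by
    by_cases hw : w.IsReal
    · have h3 : (w.embedding (x - y)).im = 0 := by
        rw [← InfinitePlace.embedding_of_isReal_apply hw]
        exact Complex.ofReal_im _
      rw [h3, abs_zero]
      positivity
    · have h3 := congrArg Prod.snd h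
      unfold cell at h3
      simp only [hw, if_false] at h3
      have h4 := cellr_close hb hn h3
      rw [map_sub, Complex.sub_im]
      exact h4.le
  rw [← InfinitePlace.norm_embedding_eq]
  refine (Complex.norm_le_abs_re_add_abs_im _).trans ?_
  have h5 : |(w.embedding (x - y)).re| ≤ b / (2 * n) := by
    rw [map_sub, Complex.sub_re]
    exact h1.le
  have h6 : b / (2 * n) + b / (2 * n) = b / n := by
    field_simp
    ring
  linarith

end PackN

/-- [PIG] pigeonhole principle, place by place -/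
theorem pigeonhole (N : InfinitePlace K → ℕ) (hN : ∀ w, 1 ≤ N w) (b : InfinitePlace K → ℝ)
    (hb : ∀ w, 0 < b w) (A : Finset K) (hA : ∀ x ∈ A, ∀ y ∈ A, ∀ w : InfinitePlace K,
      w (x - y) ≤ b w) (hcard : ∏ w : InfinitePlace K, (5 * N w) ^ w.mult < A.card) :
    ∃ x ∈ A, ∃ y ∈ A, x ≠ y ∧ ∀ w : InfinitePlace K, w (x - y) ≤ b w / N w := by
  classical
  have hne : A.Nonempty := Finset.card_pos.1 (lt_of_le_of_lt (Nat.zero_le _) hcard)
  obtain ⟨x0, hx0⟩ := hne
  have hc : (Fintype.piFinset fun w : InfinitePlace K => PackN.cells w (N w)).card < A.card := by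
    rw [Fintype.card_piFinset]
    exact lt_of_le_of_lt (Finset.prod_le_prod' fun w _ => PackN.card_cells w (hN w)) hcard
  obtain ⟨x, hx, y, hy, hxy, h⟩ := Finset.exists_ne_map_eq_of_card_lt_of_maps_to hc
    (f := fun x (w : InfinitePlace K) => PackN.cell w (b w) (N w) (x - x0)) (by
      intro x hx
      exact Finset.mem_coe.2 (Fintype.mem_piFinset.2 fun w =>
        PackN.cell_mem w (hb w) (N w) (hA x (Finset.mem_coe.1 hx) x0 hx0 w)))
  refine ⟨x, hx, y, hy, hxy, fun w => ?_⟩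
  have h1 := PackN.cell_close w (hb w) (hN w) (congrFun h w)
  rwa [sub_sub_sub_cancel_right] at h1

/-- [PACK1] -/
theorem pack_DD (K : Type) [Field K] [NumberField K] : ∃ C : ℕ, ∀ b : InfinitePlace K → ℝ,
    (∀ w, 1 ≤ b w) → ∀ A : Finset K,
    (∀ x ∈ A, ∀ y ∈ A, x - y ∈ DD K ∧ ∀ w : InfinitePlace K, w (x - y) ≤ b w) →
    (A.card : ℝ) ≤ 2 ^ C * ∏ w : InfinitePlace K, b w ^ w.mult := by
  obtain ⟨c, hc⟩ := exists_cst K
  refine ⟨(c + 6) * ∑ w : InfinitePlace K, w.mult, fun b hb A hA => ?_⟩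
  set N : InfinitePlace K → ℕ := fun w => ⌈(2 : ℝ) ^ (c + 2) * b w⌉₊ with hNdef
  have hb0 : ∀ w, 0 < b w := fun w => by linarith [hb w]
  have hNge : ∀ w, (2 : ℝ) ^ (c + 2) * b w ≤ N w := fun w => Nat.le_ceil _
  have hN0 : ∀ w, (0 : ℝ) < N w := fun w => lt_of_lt_of_le (by have := hb0 w; positivity) (hNge w)
  have hN : ∀ w, 1 ≤ N w := fun w => by
    have := hN0 w
    exact_mod_cast this
  have hle : A.card ≤ ∏ w : InfinitePlace K, (5 * N w) ^ w.mult := by
    by_contra hcon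
    push Not at hcon
    obtain ⟨x, hx, y, hy, hxy, h⟩ := pigeonhole N hN b hb0 A (fun x hx y hy => (hA x hx y hy).2) hcon
    refine hxy (sub_eq_zero.1 (DD_eq_zero hc (hA x hx y hy).1 fun w => ?_))
    have h1 := h w
    have h2 : b w / N w ≤ 1 / (2 : ℝ) ^ (c + 2) := by
      rw [div_le_div_iff₀ (hN0 w) (by positivity), one_mul, mul_comm]
      exact hNge w
    have h3 : (2 : ℝ) ^ c * w (x - y) ≤ 2 ^ c * (1 / (2 : ℝ) ^ (c + 2)) :=
      mul_le_mul_of_nonneg_left (h1.trans h2) (by positivity)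
    have h4 : (2 : ℝ) ^ c * (1 / (2 : ℝ) ^ (c + 2)) = 1 / 4 := by
      rw [pow_add]
      field_simp
      norm_num
    linarith
  have h1 : (A.card : ℝ) ≤ ∏ w : InfinitePlace K, ((5 * N w : ℝ)) ^ w.mult := by
    exact_mod_cast hle
  refine h1.trans ?_
  rw [pow_mul, Finset.prod_pow_eq_pow_sum Finset.univ _ _ |>.symm, ← Finset.prod_mul_distrib]
  refine Finset.prod_le_prod (fun w _ => by have := hN0 w; positivity) fun w _ => ?_
  rw [← mul_pow]
  refine pow_le_pow_left₀ (by have := hN0 w; positivity) ?_ _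
  have h2 : (N w : ℝ) < (2 : ℝ) ^ (c + 2) * b w + 1 := Nat.ceil_lt_add_one (by
    have := hb0 w
    positivity)
  have h3 : (1 : ℝ) ≤ (2 : ℝ) ^ (c + 2) * b w := by
    have h4 : (1 : ℝ) ≤ 2 ^ (c + 2) := one_le_pow₀ (by norm_num)
    nlinarith [hb w]
  have h5 : (2 : ℝ) ^ (c + 6) * b w = 16 * ((2 : ℝ) ^ (c + 2) * b w) := by
    rw [show c + 6 = (c + 2) + 4 by ring, pow_add (2 : ℝ) (c + 2) 4]
    ring
  rw [h5]
  nlinarith

/-- [PACK2] -/
theorem pack_int (K : Type) [Field K] [NumberField K] : ∃ C : ℕ, ∀ b : InfinitePlace K → ℝ,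
    (∀ w, 1 ≤ b w) → ∀ A : Finset (𝓞 K),
    (∀ x ∈ A, ∀ w : InfinitePlace K, w (x : K) ≤ b w) →
    (A.card : ℝ) ≤ 2 ^ C * ∏ w : InfinitePlace K, b w ^ w.mult := by
  classical
  obtain ⟨C, hC⟩ := pack_DD K
  refine ⟨C + ∑ w : InfinitePlace K, w.mult, fun b hb A hA => ?_⟩
  have h1 := hC (fun w => 2 * b w) (fun w => by linarith [hb w])
    (A.image (fun x : 𝓞 K => (x : K))) (by
      intro x' hx' y' hy'
      obtain ⟨x, hx, rfl⟩ := Finset.mem_image.1 hx'
      obtain ⟨y, hy, rfl⟩ := Finset.mem_image.1 hy'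
      refine ⟨(DD K).sub_mem (coe_mem_DD x) (coe_mem_DD y), fun w => ?_⟩
      have h2 : w ((x : K) - (y : K)) ≤ w (x : K) + w (y : K) := by
        have := w.1.sub_le_add (x : K) (y : K)
        exact this
      linarith [hA x hx w, hA y hy w])
  rw [Finset.card_image_of_injective _ RingOfIntegers.coe_injective] at h1
  refine h1.trans (le_of_eq ?_)
  rw [pow_add, ← Finset.prod_pow_eq_pow_sum Finset.univ _ (2 : ℝ), mul_assoc,
    ← Finset.prod_mul_distrib]
  simp only [mul_pow]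

namespace PackN

/-- `x ↦ psi (y x)` modulo `I` -/
theorem psi_congr (I : Ideal (𝓞 K)) {x : K} (h : ∀ y ∈ I, (y : K) * x ∈ DD K) {y y' : 𝓞 K}
    (hy : Ideal.Quotient.mk I y = Ideal.Quotient.mk I y') :
    psi ((y : K) * x) = psi ((y' : K) * x) := by
  have h1 := psi_mem_DD (h _ (Ideal.Quotient.eq.1 hy))
  have h2 : (y : K) * x = ((y - y' : 𝓞 K) : K) * x + (y' : K) * x := by
    push_cast
    ring
  rw [h2, psi_add, h1, one_mul]

/-- the character of `𝓞 K / I` defined by an `x` annihilated by `I` -/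
noncomputable def chr (I : Ideal (𝓞 K)) (x : K) (h : ∀ y ∈ I, (y : K) * x ∈ DD K) :
    AddChar (𝓞 K ⧸ I) ℂ where
  toFun c := psi (((Quotient.out c : 𝓞 K) : K) * x)
  map_zero_eq_one' := by
    have h1 : Ideal.Quotient.mk I (Quotient.out (0 : 𝓞 K ⧸ I)) = Ideal.Quotient.mk I 0 := by
      rw [map_zero]
      exact Quotient.out_eq _
    have h2 : ((0 : 𝓞 K) : K) * x = 0 := by
      change algebraMap (𝓞 K) K 0 * x = 0
      rw [map_zero, zero_mul]
    rw [psi_congr I h h1, h2, psi_zero]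
  map_add_eq_mul' := by
    intro a b
    have h1 : Ideal.Quotient.mk I (Quotient.out (a + b)) =
        Ideal.Quotient.mk I (Quotient.out a + Quotient.out b) := by
      rw [map_add]
      have ea : Ideal.Quotient.mk I (Quotient.out a) = a := Quotient.out_eq _
      have eb : Ideal.Quotient.mk I (Quotient.out b) = b := Quotient.out_eq _
      have eab : Ideal.Quotient.mk I (Quotient.out (a + b)) = a + b := Quotient.out_eq _
      rw [ea, eb, eab]
    rw [psi_congr I h h1, ← psi_add]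
    congr 1
    push_cast
    ring

theorem chr_apply (I : Ideal (𝓞 K)) (x : K) (h : ∀ y ∈ I, (y : K) * x ∈ DD K) (y : 𝓞 K) :
    chr I x h (Ideal.Quotient.mk I y) = psi ((y : K) * x) :=
  psi_congr I h (Quotient.out_eq _)

theorem mem_DD_of_psi {x : K} (h : ∀ y : 𝓞 K, psi ((y : K) * x) = 1) : x ∈ DD K := by
  intro y
  obtain ⟨n, hn⟩ := (ZC.e_eq_one_iff _).1 (h y)
  refine ⟨n, ?_⟩
  unfold tr at hn
  rw [mul_comm]
  exact_mod_cast hn

end PackN

/-- [KILL] the classes in `K / DD K` which are annihilated by an ideal -/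
theorem card_killed (I : Ideal (𝓞 K)) (hI : I ≠ ⊥) (A : Finset K)
    (h : ∀ x ∈ A, ∀ y ∈ I, (y : K) * x ∈ DD K)
    (hinj : ∀ x ∈ A, ∀ x' ∈ A, x - x' ∈ DD K → x = x') : A.card ≤ I.absNorm := by
  classical
  have hfin : Finite (𝓞 K ⧸ I) := Ideal.finiteQuotientOfFreeOfNeBot I hI
  have := Fintype.ofFinite (𝓞 K ⧸ I)
  have h1 : Fintype.card (AddChar (𝓞 K ⧸ I) ℂ) = I.absNorm := by
    rw [AddChar.card_eq, Ideal.absNorm_apply, Submodule.cardQuot_apply, Nat.card_eq_fintype_card]
  rw [← h1, ← Finset.card_univ, ← Finset.card_attach]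
  refine Finset.card_le_card_of_injOn (fun x : A => PackN.chr I x (h x x.2))
    (fun _ _ => Finset.mem_coe.2 (Finset.mem_univ _)) ?_
  intro x _ x' _ hxx
  refine Subtype.ext (hinj x x.2 x' x'.2 (PackN.mem_DD_of_psi fun y => ?_))
  have h2 := congrArg (fun χ : AddChar (𝓞 K ⧸ I) ℂ => χ (Ideal.Quotient.mk I y)) hxx
  simp only [PackN.chr_apply] at h2
  rw [mul_sub, psi_sub, h2, ← psi_sub, sub_self, psi_zero]

end Pool.Agent.H366.NK
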