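import Pool.Agent.H366.NK.Base3
import Pool.Agent.H366.NK.Pack

/-! # [DIV] divisors and fibres of products -/

set_option autoImplicit false

namespace Pool.Agent.H366.NK

open NumberField
open Pool.Agent.H366.GF (Ex ExC)
open Pool.Agent.H366.ZC (e)

variable {K : Type} [Field K] [NumberField K]

variable (K) in
/-- the small factor `2^(d / (640 D))` -/
noncomputable def sm (d : ℕ) : ℝ := 2 ^ (d / (640 * DK K))

namespace DivN

open Pool.Agent.H366.GF (prob_union)

/-- probability of independent conditions -/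
lemma prob_box {α : Type} [Fintype α] [Nonempty α] {s : ℕ} (B : Finset (Fin s))
    (S : Fin s → Finset α) (c : Fin s → ℝ)
    (hS : ∀ i ∈ B, ((S i).card : ℝ) ≤ c i * Fintype.card α)
    [DecidablePred fun h : Fin s → α => ∀ i ∈ B, h i ∈ S i] :
    Ex (fun h : Fin s → α => if ∀ i ∈ B, h i ∈ S i then (1 : ℝ) else 0) ≤ ∏ i ∈ B, c i := by
  classical
  have hN0 : (0 : ℝ) < Fintype.card α := by exact_mod_cast Fintype.card_pos
  rw [Ex, Finset.sum_boole]
  have h1 : (Finset.univ.filter fun h : Fin s → α => ∀ i ∈ B, h i ∈ S i) =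
      Fintype.piFinset (fun i => if i ∈ B then S i else Finset.univ) := by
    ext h
    simp only [Finset.mem_filter, Finset.mem_univ, true_and, Fintype.mem_piFinset]
    refine forall_congr' fun i => ?_
    by_cases hi : i ∈ B <;> simp [hi]
  rw [h1, Fintype.card_piFinset, Fintype.card_fun, Fintype.card_fin]
  push_cast
  have h2 : (((Fintype.card α : ℕ) : ℝ) ^ s) = ∏ _i : Fin s, ((Fintype.card α : ℕ) : ℝ) := by
    rw [Finset.prod_const, Finset.card_univ, Fintype.card_fin]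
  rw [h2, ← Finset.prod_div_distrib, ← Finset.prod_ite_mem_eq B]
  refine Finset.prod_le_prod (fun i _ => by positivity) fun i _ => ?_
  by_cases hi : i ∈ B
  · rw [if_pos hi, if_pos hi, div_le_iff₀ hN0]
    exact hS i hi
  · rw [if_neg hi, if_neg hi, Finset.card_univ, div_self hN0.ne']

/-- splitting a divisor of a product of ideals -/
lemma split_dvd {s : ℕ} (z : Fin s → Ideal (𝓞 K)) (B : Finset (Fin s)) :
    ∀ {r : Ideal (𝓞 K)}, r ∣ ∏ i ∈ B, z i →
      ∃ w : Fin s → Ideal (𝓞 K), (∀ i ∈ B, w i ∣ z i) ∧ ∏ i ∈ B, w i = r := by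
  classical
  induction B using Finset.induction_on with
  | empty =>
    intro r h
    refine ⟨fun _ => 1, by simp, ?_⟩
    rw [Finset.prod_empty] at h ⊢
    have := Ideal.le_of_dvd h
    rw [Ideal.one_eq_top] at this ⊢
    exact (top_le_iff.1 this).symm
  | insert i B hi ih =>
    intro r h
    rw [Finset.prod_insert hi] at h
    obtain ⟨r1, r2, h1, h2, h3⟩ := exists_dvd_and_dvd_of_dvd_mul h
    obtain ⟨w, hw, hw2⟩ := ih h2
    refine ⟨Function.update w i r1, ?_, ?_⟩
    · intro j hj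
      by_cases hji : j = i
      · subst hji
        rw [Function.update_self]
        exact h1
      · rw [Function.update_of_ne hji]
        exact hw j (Finset.mem_of_mem_insert_of_ne hj hji)
    · rw [Finset.prod_insert hi, Function.update_self]
      have h4 : ∏ j ∈ B, Function.update w i r1 j = ∏ j ∈ B, w j := by
        refine Finset.prod_congr rfl fun j hj => ?_
        rw [Function.update_of_ne]
        rintro rfl
        exact hi hj
      rw [h4, hw2, ← h3]

lemma card_pi {α : Type} {s D : ℕ} (B : Finset (Fin s)) (T : Finset α) (t0 : α)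
    (hT : T.card ≤ D) :
    (Fintype.piFinset (fun i : Fin s => if i ∈ B then T else {t0})).card ≤ D ^ B.card := by
  classical
  rw [Fintype.card_piFinset]
  have h3 : (∏ i : Fin s, (if i ∈ B then T else {t0}).card) = T.card ^ B.card := by
    rw [← Finset.prod_const, ← Finset.prod_ite_mem_eq B]
    refine Finset.prod_congr rfl fun i _ => ?_
    by_cases hi : i ∈ B <;> simp [hi]
  rw [h3]
  exact Nat.pow_le_pow_left hT _

lemma DK_pos : 0 < DK K := by
  have h1 : 0 < Module.finrank ℤ (𝓞 K) := by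
    rw [RingOfIntegers.rank]
    exact Module.finrank_pos
  rwa [Module.finrank_eq_card_chooseBasisIndex] at h1

lemma card_JJ (d : ℕ) : Fintype.card (JJ K → Fin (2 ^ d)) = 2 ^ (d * DK K) := by
  rw [Fintype.card_fun, Fintype.card_fin, pow_mul]

lemma num_aux {b s D κ d e₀ : ℕ} (hb : b ≤ s) (hD : 0 < D) (hκ : 640 * s ^ 2 * D ^ 2 ≤ κ) :
    b * ((b * (d + e₀) * D) / κ) ≤ d / (640 * D) + e₀ := by
  rcases Nat.eq_zero_or_pos b with rfl | hb0
  · simp
  have hs : 0 < s := by omega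
  set A := (b * (d + e₀) * D) / κ with hA
  have h1 : A * κ ≤ b * (d + e₀) * D := Nat.div_mul_le_self _ _
  have h2 : (s * A * (640 * D)) * (s * D) ≤ (d + e₀) * (s * D) := by
    calc (s * A * (640 * D)) * (s * D) = A * (640 * s ^ 2 * D ^ 2) := by ring
      _ ≤ A * κ := Nat.mul_le_mul_left _ hκ
      _ ≤ b * (d + e₀) * D := h1
      _ ≤ s * (d + e₀) * D := by gcongr
      _ = (d + e₀) * (s * D) := by ring
  have h3 : s * A * (640 * D) ≤ d + e₀ := Nat.le_of_mul_le_mul_right h2 (by positivity)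
  have h4 : s * A ≤ (d + e₀) / (640 * D) := (Nat.le_div_iff_mul_le (by positivity)).2 h3
  have h5 : (d + e₀) / (640 * D) ≤ d / (640 * D) + e₀ := by
    rw [← Nat.add_mul_div_left d e₀ (show 0 < 640 * D by positivity)]
    refine Nat.div_le_div_right ?_
    have : e₀ ≤ 640 * D * e₀ := Nat.le_mul_of_pos_left _ (by positivity)
    omega
  calc b * A ≤ s * A := Nat.mul_le_mul_right _ hb
    _ ≤ _ := h4
    _ ≤ _ := h5

lemma num_aux' {b s D κ d e₀ : ℕ} (hb : b ≤ s) (hD : 0 < D) (hκ : 640 * s ^ 2 * D ^ 2 ≤ κ) :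
    (b * (d + e₀) * D) / κ ≤ d / (640 * D) + e₀ := by
  rcases Nat.eq_zero_or_pos b with rfl | hb0
  · simp
  · exact (Nat.le_mul_of_pos_left _ hb0).trans (num_aux hb hD hκ)

end DivN

open DivN
open Pool.Agent.H366.GF (prob_union)

theorem divisors_finite {I : Ideal (𝓞 K)} (hI : I ≠ ⊥) : {J : Ideal (𝓞 K) | J ∣ I}.Finite := by
  letI : Fintype {J : Ideal (𝓞 K) // J ∣ I} :=
    UniqueFactorizationMonoid.fintypeSubtypeDvd I hI
  have h : Finite {J : Ideal (𝓞 K) // J ∣ I} := Finite.of_fintype _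
  exact Set.finite_coe_iff.1 h

/-- [D1] an ideal without prime factors of small norm has few divisors -/
theorem card_divisors_le {κ m : ℕ} (hκ : 0 < κ) {I : Ideal (𝓞 K)} (hI : I ≠ ⊥)
    (hm : I.absNorm ≤ 2 ^ m)
    (h : ∀ P : Ideal (𝓞 K), P.IsPrime → I ≤ P → 2 ^ κ ≤ P.absNorm) :
    {J : Ideal (𝓞 K) | J ∣ I}.ncard ≤ 2 ^ (m / κ) := by
  classical
  have hI0 : I ≠ 0 := hI
  set nf := UniqueFactorizationMonoid.normalizedFactors I with hnf
  have h1 : {J : Ideal (𝓞 K) | J ∣ I}.ncard ≤ 2 ^ Multiset.card nf := by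
    have h2 : {J : Ideal (𝓞 K) | J ∣ I}.ncard ≤
        ((Multiset.powerset nf).toFinset : Set (Multiset (Ideal (𝓞 K)))).ncard := by
      refine Set.ncard_le_ncard_of_injOn UniqueFactorizationMonoid.normalizedFactors ?_ ?_
        (Finset.finite_toSet _)
      · intro J hJ
        have hJ' : J ∣ I := hJ
        have hJ0 : J ≠ 0 := ne_zero_of_dvd_ne_zero hI0 hJ'
        simp only [Finset.mem_coe, Multiset.mem_toFinset, Multiset.mem_powerset]
        exact (UniqueFactorizationMonoid.dvd_iff_normalizedFactors_le_normalizedFactors hJ0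
          hI0).1 hJ'
      · intro J hJ J' hJ' heq
        have hJ0 : J ≠ 0 := ne_zero_of_dvd_ne_zero hI0 hJ
        have hJ0' : J' ≠ 0 := ne_zero_of_dvd_ne_zero hI0 hJ'
        have := (UniqueFactorizationMonoid.associated_iff_normalizedFactors_eq_normalizedFactors
          hJ0 hJ0').2 heq
        exact associated_iff_eq.1 this
    rw [Set.ncard_coe_finset] at h2
    refine h2.trans ((Multiset.toFinset_card_le _).trans ?_)
    rw [Multiset.card_powerset]
  refine h1.trans (Nat.pow_le_pow_right (by norm_num) ?_)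
  rw [Nat.le_div_iff_mul_le hκ, mul_comm]
  have h3 : (2 ^ κ) ^ Multiset.card nf ≤ I.absNorm := by
    have h4 : I.absNorm = (nf.map Ideal.absNorm).prod := by
      conv_lhs => rw [← Ideal.prod_normalizedFactors_eq_self hI0]
      rw [map_multiset_prod]
    rw [h4, ← Multiset.card_map Ideal.absNorm nf]
    refine Multiset.pow_card_le_prod fun x hx => ?_
    rw [Multiset.mem_map] at hx
    obtain ⟨P, hP, rfl⟩ := hx
    have hPp := UniqueFactorizationMonoid.prime_of_normalized_factor P hP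
    exact h P (Ideal.isPrime_of_prime hPp)
      (Ideal.le_of_dvd (UniqueFactorizationMonoid.dvd_of_mem_normalizedFactors hP))
  rw [← pow_mul] at h3
  exact (Nat.pow_le_pow_iff_right (by norm_num)).1 (h3.trans hm)

theorem card_divisors_mul {I I' : Ideal (𝓞 K)} (hI : I ≠ ⊥) (hI' : I' ≠ ⊥) :
    {J : Ideal (𝓞 K) | J ∣ I * I'}.ncard ≤
      {J : Ideal (𝓞 K) | J ∣ I}.ncard * {J : Ideal (𝓞 K) | J ∣ I'}.ncard := by
  have hf := (divisors_finite hI).prod (divisors_finite hI')
  have h1 : {J : Ideal (𝓞 K) | J ∣ I * I'} ⊆ (fun p : Ideal (𝓞 K) × Ideal (𝓞 K) => p.1 * p.2) ''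
      ({J : Ideal (𝓞 K) | J ∣ I} ×ˢ {J : Ideal (𝓞 K) | J ∣ I'}) := by
    intro J hJ
    obtain ⟨J1, J2, h1, h2, h3⟩ := exists_dvd_and_dvd_of_dvd_mul (show J ∣ I * I' from hJ)
    exact ⟨(J1, J2), ⟨h1, h2⟩, h3.symm⟩
  rw [← Set.ncard_prod]
  exact (Set.ncard_le_ncard h1 (hf.image _)).trans (Set.ncard_image_le hf)

namespace DivN

/-- the number of divisors of a product of slots -/
lemma divs_prod {c : ℕ} (hc : Cst K c) {κ q e₀ γ s : ℕ} (hQ : QOK κ q e₀ γ) {d : ℕ}
    {v g : Fin s → 𝓞 K} (hv : ∀ i, SlotOK c q γ (v i) (g i)) (B : Finset (Fin s))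
    (z : Fin s → JJ K → Fin (2 ^ d)) :
    {J : Ideal (𝓞 K) | J ∣ Ideal.span {∏ i ∈ B, zz q d (v i) (g i) (z i)}}.ncard ≤
      2 ^ ((B.card * (d + e₀) * DK K) / κ) := by
  have hne := prod_zz_ne_zero hc hQ.qpos hv z B
  set x := ∏ i ∈ B, zz q d (v i) (g i) (z i) with hx
  refine card_divisors_le hQ.κpos (by rwa [Ne, Ideal.span_singleton_eq_bot]) ?_ ?_
  · have h1 : ((Ideal.span {x}).absNorm : ℝ) ≤ 2 ^ (B.card * (d + e₀) * DK K) := by
      rw [absNorm_span, nm_eq_prod]
      calc ∏ w : InfinitePlace K, w (x : K) ^ w.mult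
          ≤ ∏ w : InfinitePlace K, ((2 : ℝ) ^ (B.card * (d + e₀))) ^ w.mult := by
            refine Finset.prod_le_prod (fun w _ => by positivity) fun w _ => ?_
            exact pow_le_pow_left₀ (by positivity) (prod_zz_le hc hQ hv z B w) _
        _ = 2 ^ (B.card * (d + e₀) * DK K) := by
            rw [Finset.prod_pow_eq_pow_sum, sum_mult, ← pow_mul]
    exact_mod_cast h1
  · intro P hP hle
    have hxP : x ∈ P := hle (Ideal.mem_span_singleton_self x)
    refine absNorm_ge hQ (prod_zz_cop hv z B) hP ?_ hxP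
    rintro rfl
    exact hne (by simpa using hxP)

/-- slots with the same ideal -/
lemma fibre_unit (K : Type) [Field K] [NumberField K] {c : ℕ} (hc : Cst K c) {κ q e₀ γ : ℕ}
    (hQ : QOK κ q e₀ γ) : ∃ C : ℕ, ∀ (d : ℕ) (v g : 𝓞 K), SlotOK c q γ v g →
    ∀ (F : Finset (JJ K → Fin (2 ^ d))) (I : Ideal (𝓞 K)),
      (∀ h ∈ F, Ideal.span {zz q d v g h} = I) → F.card ≤ 2 ^ C := by
  classical
  obtain ⟨C, hC⟩ := pack_int K
  refine ⟨C + e₀ * DK K, fun d v g hv F I hF => ?_⟩
  rcases F.eq_empty_or_nonempty with rfl | ⟨h0, hh0⟩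
  · simp
  have hdvd : ∀ h ∈ F, ∃ u : 𝓞 K, zz q d v g h = zz q d v g h0 * u := by
    intro h hh
    have h1 : Ideal.span {zz q d v g h} ≤ Ideal.span {zz q d v g h0} :=
      le_of_eq ((hF h hh).trans (hF h0 hh0).symm)
    exact Ideal.span_singleton_le_span_singleton.1 h1
  have hz0 := zz_ne_zero hc hQ.qpos hv h0
  set f : (JJ K → Fin (2 ^ d)) → 𝓞 K := fun h =>
    if hh : ∃ u : 𝓞 K, zz q d v g h = zz q d v g h0 * u then hh.choose else 0 with hf
  have hfs : ∀ h ∈ F, zz q d v g h = zz q d v g h0 * f h := by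
    intro h hh
    simp only [hf]
    rw [dif_pos (hdvd h hh)]
    exact (hdvd h hh).choose_spec
  have hinj : Set.InjOn f F := by
    intro h hh h' hh' heq
    refine zz_inj hQ.qpos (v := v) (g := g) ?_
    rw [hfs h hh, hfs h' hh', heq]
  have h2 := hC (fun _ => 2 ^ e₀) (fun _ => one_le_pow₀ (by norm_num)) (F.image f) (by
    intro x hx w
    rw [Finset.mem_image] at hx
    obtain ⟨h, hh, rfl⟩ := hx
    have h3 := zz_le_two hc hQ hv h w
    have h4 := two_le_zz hc hQ hv h0 w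
    rw [hfs h hh] at h3
    have h5 : (((zz q d v g h0 * f h : 𝓞 K)) : K) = (zz q d v g h0 : K) * (f h : K) := by
      push_cast
      ring
    rw [h5, map_mul, pow_add] at h3
    have h6 : (0 : ℝ) < 2 ^ d := by positivity
    have h7 : (0 : ℝ) ≤ w (f h : K) := by positivity
    nlinarith)
  rw [Finset.card_image_of_injOn hinj, Finset.prod_pow_eq_pow_sum, sum_mult, ← pow_mul,
    ← pow_add] at h2
  exact_mod_cast h2

open Classical in
/-- the number of entries of a slot dividing `x` -/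
lemma card_slot_dvd (K : Type) [Field K] [NumberField K] {c : ℕ} (hc : Cst K c) {κ q e₀ γ : ℕ}
    (hQ : QOK κ q e₀ γ) : ∃ C : ℕ, ∀ (d : ℕ) (v g : 𝓞 K), SlotOK c q γ v g →
    ∀ x : 𝓞 K, x ≠ 0 → (Finset.univ.filter fun h : JJ K → Fin (2 ^ d) =>
      zz q d v g h ∣ x).card ≤ 2 ^ C * {J : Ideal (𝓞 K) | J ∣ Ideal.span {x}}.ncard := by
  obtain ⟨C, hC⟩ := fibre_unit K hc hQ
  refine ⟨C, fun d v g hv x hx => ?_⟩
  have hx' : Ideal.span {x} ≠ ⊥ := by rwa [Ne, Ideal.span_singleton_eq_bot]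
  set S := Finset.univ.filter fun h : JJ K → Fin (2 ^ d) => zz q d v g h ∣ x with hS
  refine (Finset.card_le_mul_card_image (f := fun h => Ideal.span {zz q d v g h}) S (2 ^ C)
    ?_).trans ?_
  · intro I _
    refine hC d v g hv _ I ?_
    intro h hh
    rw [Finset.mem_filter] at hh
    exact hh.2
  · refine Nat.mul_le_mul_left _ ?_
    rw [← Set.ncard_coe_finset]
    refine Set.ncard_le_ncard ?_ (divisors_finite hx')
    intro I hI
    simp only [Finset.coe_image, Set.mem_image, Finset.mem_coe] at hI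
    obtain ⟨h, hh, rfl⟩ := hI
    rw [hS, Finset.mem_filter] at hh
    show Ideal.span {zz q d v g h} ∣ Ideal.span {x}
    rw [Ideal.dvd_span_singleton, Ideal.mem_span_singleton]
    exact hh.2

end DivN

/-- [D2] the distribution of a product of slots -/
theorem prob_fibre {c : ℕ} (hc : Cst K c) {κ q e₀ γ s : ℕ} (hQ : QOK κ q e₀ γ)
    (hκ : 640 * s ^ 2 * DK K ^ 2 ≤ κ) : ∃ C : ℕ, ∀ (d : ℕ) (v g : Fin s → 𝓞 K),
    (∀ i, SlotOK c q γ (v i) (g i)) → ∀ (B : Finset (Fin s)) (x : 𝓞 K),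
    Ex (fun z : Fin s → JJ K → Fin (2 ^ d) =>
      open Classical in if ∏ i ∈ B, zz q d (v i) (g i) (z i) = x then (1 : ℝ) else 0) ≤
      2 ^ C * sm K d / 2 ^ (d * DK K * B.card) := by
  classical
  obtain ⟨C, hC⟩ := card_slot_dvd K hc hQ
  refine ⟨C * s + e₀, fun d v g hv B x => ?_⟩
  have hsm0 : 0 < sm K d := by unfold sm; positivity
  by_cases hex : ∃ h : Fin s → JJ K → Fin (2 ^ d), ∏ i ∈ B, zz q d (v i) (g i) (h i) = x
  · obtain ⟨h0, hh0⟩ := hex
    have hx0 : x ≠ 0 := hh0 ▸ prod_zz_ne_zero hc hQ.qpos hv h0 B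
    have hcard : {J : Ideal (𝓞 K) | J ∣ Ideal.span {x}}.ncard ≤
        2 ^ ((B.card * (d + e₀) * DK K) / κ) := hh0 ▸ divs_prod hc hQ hv B h0
    set A := (B.card * (d + e₀) * DK K) / κ with hA
    have hBs : B.card ≤ s := by
      have := Finset.card_le_univ B
      rwa [Fintype.card_fin] at this
    have hBA : B.card * A ≤ d / (640 * DK K) + e₀ := num_aux hBs DK_pos hκ
    have h1 : Ex (fun z : Fin s → JJ K → Fin (2 ^ d) =>
        if ∏ i ∈ B, zz q d (v i) (g i) (z i) = x then (1 : ℝ) else 0) ≤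
        Ex (fun z : Fin s → JJ K → Fin (2 ^ d) => if ∀ i ∈ B, z i ∈
          Finset.univ.filter (fun h : JJ K → Fin (2 ^ d) => zz q d (v i) (g i) h ∣ x)
          then (1 : ℝ) else 0) := by
      refine Pool.Agent.H366.GF.Ex_mono fun z => ?_
      by_cases hz : ∏ i ∈ B, zz q d (v i) (g i) (z i) = x
      · rw [if_pos hz, if_pos]
        intro i hi
        rw [Finset.mem_filter]
        exact ⟨Finset.mem_univ _, hz ▸ Finset.dvd_prod_of_mem _ hi⟩
      · rw [if_neg hz]
        split_ifs <;> norm_num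
    have h2 := prob_box B (fun i => Finset.univ.filter (fun h : JJ K → Fin (2 ^ d) =>
      zz q d (v i) (g i) h ∣ x)) (fun _ => (2 : ℝ) ^ C * 2 ^ A / 2 ^ (d * DK K)) (by
        intro i _
        rw [card_JJ]
        push_cast
        rw [div_mul_cancel₀ _ (by positivity)]
        have h3 := (hC d (v i) (g i) (hv i) x hx0).trans (Nat.mul_le_mul_left _ hcard)
        exact_mod_cast h3)
    refine (h1.trans h2).trans ?_
    rw [Finset.prod_const, div_pow, ← pow_mul]
    refine div_le_div_of_nonneg_right ?_ (by positivity)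
    rw [mul_pow, ← pow_mul, ← pow_mul, sm, ← pow_add, ← pow_add]
    refine pow_le_pow_right₀ (by norm_num) ?_
    have h4 : C * B.card ≤ C * s := Nat.mul_le_mul_left _ hBs
    have h5 : A * B.card = B.card * A := mul_comm _ _
    omega
  · push Not at hex
    have h1 : Ex (fun z : Fin s → JJ K → Fin (2 ^ d) =>
        if ∏ i ∈ B, zz q d (v i) (g i) (z i) = x then (1 : ℝ) else 0) = 0 := by
      rw [Ex, Finset.sum_eq_zero, zero_div]
      intro h _
      rw [if_neg (hex h)]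
    rw [h1]
    positivity

namespace DivN

open Classical in
/-- the number of entries of a slot in an ideal -/
lemma card_slot_ideal {q d : ℕ} (J : Ideal (𝓞 K)) (hJ : J ≠ ⊥) (hJd : J.absNorm ≤ 2 ^ d)
    (hJq : IsCoprime J (Ideal.span {(q : 𝓞 K)})) (c : 𝓞 K) :
    (Finset.univ.filter fun h : JJ K → Fin (2 ^ d) =>
      c + (q : 𝓞 K) * ∑ j, (((h j : ℕ) : 𝓞 K)) * om K j ∈ J).card * J.absNorm ≤
        (2 * 2 ^ d) ^ DK K := by
  set n := J.absNorm with hn
  have hn0 : n ≠ 0 := by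
    rw [hn]
    exact Ideal.absNorm_ne_zero_iff J |>.2 (Ideal.finiteQuotientOfFreeOfNeBot J hJ)
  have : NeZero n := ⟨hn0⟩
  have : Finite (𝓞 K ⧸ J) := Ideal.finiteQuotientOfFreeOfNeBot J hJ
  have hnJ : ((n : ℕ) : 𝓞 K ⧸ J) = 0 := by
    have h1 := Ideal.absNorm_mem J
    rw [← Ideal.Quotient.eq_zero_iff_mem] at h1
    simpa using h1
  -- the homomorphism
  set ψ : ZMod n →+ 𝓞 K ⧸ J := ZMod.lift n ⟨Int.castAddHom (𝓞 K ⧸ J), by
    simpa using hnJ⟩ with hψ
  have hψn : ∀ m : ℕ, ψ (m : ZMod n) = (m : 𝓞 K ⧸ J) := by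
    intro m
    have h1 : ψ ((m : ℤ) : ZMod n) = ((m : ℤ) : 𝓞 K ⧸ J) := by
      rw [hψ, ZMod.lift_coe]
      rfl
    simpa using h1
  have hψz : ∀ m : ℤ, ψ (m : ZMod n) = (m : 𝓞 K ⧸ J) := by
    intro m
    rw [hψ, ZMod.lift_coe]
    rfl
  set φ : (JJ K → ZMod n) → 𝓞 K ⧸ J := fun r =>
    ∑ j, ψ (r j) * Ideal.Quotient.mk J (om K j) with hφ
  have hφadd : ∀ r r', φ (r + r') = φ r + φ r' := by
    intro r r'
    simp only [hφ, Pi.add_apply, map_add, add_mul, Finset.sum_add_distrib]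
  have hφh : ∀ h : JJ K → Fin (2 ^ d), φ (fun j => ((h j : ℕ) : ZMod n)) =
      Ideal.Quotient.mk J (∑ j, (((h j : ℕ) : 𝓞 K)) * om K j) := by
    intro h
    simp only [hφ, hψn, map_sum, map_mul, map_natCast]
  have hφsurj : Function.Surjective φ := by
    intro y
    obtain ⟨x, rfl⟩ := Ideal.Quotient.mk_surjective y
    refine ⟨fun j => (((om K).repr x j : ℤ) : ZMod n), ?_⟩
    simp only [hφ, hψz]
    conv_rhs => rw [← (om K).sum_repr x]
    rw [map_sum]
    refine Finset.sum_congr rfl fun j _ => ?_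
    rw [zsmul_eq_mul, map_mul, map_intCast]
  set S := Finset.univ.filter fun h : JJ K → Fin (2 ^ d) =>
      c + (q : 𝓞 K) * ∑ j, (((h j : ℕ) : 𝓞 K)) * om K j ∈ J with hS
  rcases S.eq_empty_or_nonempty with hemp | ⟨h0, hh0⟩
  · rw [hemp]
    simp
  -- `q` is a unit modulo `J`
  have hcancel : ∀ x y : 𝓞 K, c + (q : 𝓞 K) * x ∈ J → c + (q : 𝓞 K) * y ∈ J →
      Ideal.Quotient.mk J x = Ideal.Quotient.mk J y := by
    intro x y hx hy
    have h1 : (q : 𝓞 K) * (x - y) ∈ J := by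
      have := J.sub_mem hx hy
      have h2 : c + (q : 𝓞 K) * x - (c + (q : 𝓞 K) * y) = (q : 𝓞 K) * (x - y) := by ring
      rwa [h2] at this
    obtain ⟨a, ha, b, hb, hab⟩ := Ideal.isCoprime_iff_exists.1 hJq
    obtain ⟨b', rfl⟩ := Ideal.mem_span_singleton'.1 hb
    rw [Ideal.Quotient.eq]
    have h3 : x - y = (x - y) * a + b' * ((q : 𝓞 K) * (x - y)) := by
      calc x - y = (x - y) * (a + b' * (q : 𝓞 K)) := by rw [hab, mul_one]
        _ = _ := by ring
    rw [h3]
    exact J.add_mem (J.mul_mem_left _ ha) (J.mul_mem_left _ h1)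
  set t0 := Ideal.Quotient.mk J (∑ j, (((h0 j : ℕ) : 𝓞 K)) * om K j) with ht0
  have hS1 : ∀ h ∈ S, φ (fun j => ((h j : ℕ) : ZMod n)) = t0 := by
    intro h hh
    rw [hφh]
    rw [hS, Finset.mem_filter] at hh hh0
    exact hcancel _ _ hh.2 hh0.2
  -- the fibre
  set F : Finset (JJ K → ZMod n) := Finset.univ.filter fun r => φ r = t0 with hF
  have hFcard : F.card * n ≤ n ^ DK K := by
    obtain ⟨σ, hσ⟩ := hφsurj.hasRightInverse
    have h1 : Nat.card (F × (𝓞 K ⧸ J)) ≤ Nat.card (JJ K → ZMod n) := by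
      refine Nat.card_le_card_of_injective (fun p : F × (𝓞 K ⧸ J) => (p.1 : JJ K → ZMod n) + σ p.2)
        ?_
      rintro ⟨⟨r, hr⟩, t⟩ ⟨⟨r', hr'⟩, t'⟩ heq
      simp only at heq
      rw [hF, Finset.mem_filter] at hr hr'
      have h2 : φ (r + σ t) = φ (r' + σ t') := by rw [heq]
      rw [hφadd, hφadd, hr.2, hr'.2, hσ t, hσ t', add_right_inj] at h2
      subst h2
      rw [add_left_inj] at heq
      subst heq
      rfl
    rw [Nat.card_prod, Nat.card_eq_fintype_card, Fintype.card_coe] at h1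
    have h3 : Nat.card (𝓞 K ⧸ J) = n := by
      rw [hn, Ideal.absNorm_apply, Submodule.cardQuot_apply]
    have h4 : Nat.card (JJ K → ZMod n) = n ^ DK K := by
      rw [Nat.card_eq_fintype_card, Fintype.card_fun, ZMod.card]
    rw [h3, h4] at h1
    exact h1
  -- the cells
  set Mm := 2 ^ d / n + 1 with hMm
  have hcell : ∀ h : JJ K → Fin (2 ^ d), ∀ j, (h j : ℕ) / n < Mm := by
    intro h j
    exact Nat.lt_succ_of_le (Nat.div_le_div_right (h j).2.le)
  have hSF : S.card ≤ Mm ^ DK K * F.card := by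
    have h1 : S.card ≤ ((Finset.univ : Finset (JJ K → Fin Mm)) ×ˢ F).card := by
      refine Finset.card_le_card_of_injOn (fun h => ((fun j => ⟨(h j : ℕ) / n, hcell h j⟩ :
        JJ K → Fin Mm), (fun j => ((h j : ℕ) : ZMod n)))) ?_ ?_
      · intro h hh
        rw [Finset.mem_coe, Finset.mem_product]
        refine ⟨Finset.mem_univ _, ?_⟩
        rw [hF, Finset.mem_filter]
        exact ⟨Finset.mem_univ _, hS1 h hh⟩
      · intro h _ h' _ heq
        rw [Prod.mk.injEq] at heq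
        funext j
        have e1 := congrFun heq.1 j
        have e2 := congrFun heq.2 j
        rw [Fin.mk.injEq] at e1
        rw [ZMod.natCast_eq_natCast_iff'] at e2
        apply Fin.ext
        rw [← Nat.div_add_mod (h j : ℕ) n, ← Nat.div_add_mod (h' j : ℕ) n, e1, e2]
    rw [Finset.card_product, Finset.card_univ, Fintype.card_fun, Fintype.card_fin] at h1
    exact h1
  calc S.card * n ≤ Mm ^ DK K * F.card * n := Nat.mul_le_mul_right _ hSF
    _ = Mm ^ DK K * (F.card * n) := by ring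
    _ ≤ Mm ^ DK K * n ^ DK K := Nat.mul_le_mul_left _ hFcard
    _ = (Mm * n) ^ DK K := (mul_pow _ _ _).symm
    _ ≤ (2 * 2 ^ d) ^ DK K := by
        refine Nat.pow_le_pow_left ?_ _
        rw [hMm, Nat.add_mul]
        have := Nat.div_mul_le_self (2 ^ d) n
        omega

end DivN

/-- [D3] the probability that an ideal divides a product of slots -/
theorem prob_dvd {q d s : ℕ} (hq : 0 < q) (v g : Fin s → 𝓞 K) (B : Finset (Fin s))
    (R : Ideal (𝓞 K)) (hR : R ≠ ⊥) (hRd : R.absNorm ≤ 2 ^ d)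
    (hRq : IsCoprime R (Ideal.span {(q : 𝓞 K)})) :
    Ex (fun z : Fin s → JJ K → Fin (2 ^ d) =>
      open Classical in if ∏ i ∈ B, zz q d (v i) (g i) (z i) ∈ R then (1 : ℝ) else 0) ≤
      (({J : Ideal (𝓞 K) | J ∣ R}.ncard : ℝ) * 2 ^ DK K) ^ B.card / R.absNorm := by
  classical
  set DR := (divisors_finite hR).toFinset with hDR
  have hDRc : DR.card = {J : Ideal (𝓞 K) | J ∣ R}.ncard :=
    (Set.ncard_eq_toFinset_card _ (divisors_finite hR)).symm
  have hR0 : 0 < R.absNorm := Nat.pos_of_ne_zero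
    (Ideal.absNorm_ne_zero_iff R |>.2 (Ideal.finiteQuotientOfFreeOfNeBot R hR))
  have h1 := prob_union
    ((Fintype.piFinset (fun i : Fin s => if i ∈ B then DR else {(⊤ : Ideal (𝓞 K))})).filter
      (fun w => ∏ i ∈ B, w i = R))
    (fun z : Fin s → JJ K → Fin (2 ^ d) => ∏ i ∈ B, zz q d (v i) (g i) (z i) ∈ R)
    (fun w z => ∀ i ∈ B, z i ∈ Finset.univ.filter (fun h : JJ K → Fin (2 ^ d) =>
      (v i + (q : 𝓞 K) * ((2 : 𝓞 K) ^ d * g i)) +
        (q : 𝓞 K) * ∑ j, (((h j : ℕ) : 𝓞 K)) * om K j ∈ w i))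
    (by
      intro z hz
      have hz' : R ∣ ∏ i ∈ B, Ideal.span {zz q d (v i) (g i) (z i)} := by
        rw [Ideal.prod_span_singleton, Ideal.dvd_span_singleton]
        exact hz
      obtain ⟨w, hw, hw2⟩ := split_dvd (fun i => Ideal.span {zz q d (v i) (g i) (z i)}) B hz'
      refine ⟨fun i => if i ∈ B then w i else ⊤, ?_, ?_⟩
      · rw [Finset.mem_filter, Fintype.mem_piFinset]
        constructor
        · intro i
          by_cases hi : i ∈ B
          · simp only [if_pos hi]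
            rw [hDR, Set.Finite.mem_toFinset]
            show w i ∣ R
            exact hw2 ▸ Finset.dvd_prod_of_mem _ hi
          · simp [if_neg hi]
        · rw [← hw2]
          exact Finset.prod_congr rfl fun i hi => if_pos hi
      · intro i hi
        simp only [if_pos hi, Finset.mem_filter, Finset.mem_univ, true_and]
        have h2 := hw i hi
        rw [Ideal.dvd_span_singleton] at h2
        have h3 : zz q d (v i) (g i) (z i) = (v i + (q : 𝓞 K) * ((2 : 𝓞 K) ^ d * g i)) +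
            (q : 𝓞 K) * ∑ j, (((z i j : ℕ) : 𝓞 K)) * om K j := by
          unfold zz
          ring
        rw [h3] at h2
        exact h2)
    (((2 : ℝ) ^ DK K) ^ B.card / R.absNorm)
    (by
      intro w hw
      rw [Finset.mem_filter, Fintype.mem_piFinset] at hw
      have hw1 : ∀ i ∈ B, w i ∣ R := by
        intro i hi
        have := hw.1 i
        rw [if_pos hi, hDR, Set.Finite.mem_toFinset] at this
        exact this
      have hw0 : ∀ i ∈ B, w i ≠ ⊥ := fun i hi h0 => by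
        have := hw1 i hi
        rw [h0] at this
        exact hR (zero_dvd_iff.1 this)
      have hwn : ∀ i ∈ B, 0 < (w i).absNorm := fun i hi => Nat.pos_of_ne_zero
        (Ideal.absNorm_ne_zero_iff (w i) |>.2 (Ideal.finiteQuotientOfFreeOfNeBot (w i)
          (hw0 i hi)))
      have hprod : ∏ i ∈ B, ((2 : ℝ) ^ DK K / ((w i).absNorm : ℝ)) =
          ((2 : ℝ) ^ DK K) ^ B.card / R.absNorm := by
        rw [Finset.prod_div_distrib, Finset.prod_const, ← hw.2, map_prod]
        push_cast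
        rfl
      rw [← hprod]
      refine prob_box B _ (fun i => (2 : ℝ) ^ DK K / ((w i).absNorm : ℝ)) ?_
      intro i hi
      have h5 := card_slot_ideal (q := q) (d := d) (w i) (hw0 i hi)
        ((Nat.le_of_dvd hR0 (Ideal.absNorm_dvd_absNorm_of_le (Ideal.le_of_dvd (hw1 i hi)))).trans
          hRd) (hRq.of_isCoprime_of_dvd_left (hw1 i hi))
        (v i + (q : 𝓞 K) * ((2 : 𝓞 K) ^ d * g i))
      have h6 : ((w i).absNorm : ℝ) > 0 := by exact_mod_cast hwn i hi
      rw [div_mul_eq_mul_div, le_div_iff₀ h6, card_JJ]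
      push_cast
      have h7 : (2 : ℝ) ^ DK K * 2 ^ (d * DK K) = (2 * 2 ^ d) ^ DK K := by
        rw [mul_pow, ← pow_mul]
      rw [h7]
      exact_mod_cast h5)
  refine h1.trans ?_
  rw [mul_pow, mul_div_assoc]
  refine mul_le_mul_of_nonneg_right ?_ (by positivity)
  have h4 := (Finset.card_filter_le
    (Fintype.piFinset (fun i : Fin s => if i ∈ B then DR else {(⊤ : Ideal (𝓞 K))}))
    (fun w => ∏ i ∈ B, w i = R)).trans (card_pi B DR ⊤ hDRc.le)
  exact_mod_cast h4

/-- [D4] the number of divisors of `M ∏ z` -/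
theorem card_div_prod {c : ℕ} (hc : Cst K c) {κ q e₀ γ s : ℕ} (hQ : QOK κ q e₀ γ)
    (hκ : 640 * s ^ 2 * DK K ^ 2 ≤ κ) (M : 𝓞 K) (hM : M ≠ 0) :
    ∃ C : ℕ, ∀ (d : ℕ) (v g : Fin s → 𝓞 K),
    (∀ i, SlotOK c q γ (v i) (g i)) → ∀ (B : Finset (Fin s)) (z : Fin s → JJ K → Fin (2 ^ d)),
    ({J : Ideal (𝓞 K) | J ∣ Ideal.span {M * ∏ i ∈ B, zz q d (v i) (g i) (z i)}}.ncard : ℝ) ≤
      2 ^ C * sm K d := by
  set nM := {J : Ideal (𝓞 K) | J ∣ Ideal.span {M}}.ncard with hnM
  refine ⟨nM + e₀, fun d v g hv B z => ?_⟩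
  have hM' : Ideal.span {M} ≠ ⊥ := by rwa [Ne, Ideal.span_singleton_eq_bot]
  have hP' : Ideal.span {∏ i ∈ B, zz q d (v i) (g i) (z i)} ≠ ⊥ := by
    rw [Ne, Ideal.span_singleton_eq_bot]
    exact prod_zz_ne_zero hc hQ.qpos hv z B
  have hBs : B.card ≤ s := by
    have := Finset.card_le_univ B
    rwa [Fintype.card_fin] at this
  rw [← Ideal.span_singleton_mul_span_singleton]
  have h1 := card_divisors_mul hM' hP'
  have h2 := divs_prod hc hQ hv B z
  have h3 : (B.card * (d + e₀) * DK K) / κ ≤ d / (640 * DK K) + e₀ := num_aux' hBs DK_pos hκ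
  have h4 : nM ≤ 2 ^ nM := Nat.lt_two_pow_self.le
  have h5 : {J : Ideal (𝓞 K) | J ∣ Ideal.span {M} *
      Ideal.span {∏ i ∈ B, zz q d (v i) (g i) (z i)}}.ncard ≤
      2 ^ nM * 2 ^ (d / (640 * DK K) + e₀) :=
    h1.trans (Nat.mul_le_mul h4 (h2.trans (Nat.pow_le_pow_right (by norm_num) h3)))
  have h6 : (2 : ℝ) ^ (nM + e₀) * sm K d = ((2 ^ nM * 2 ^ (d / (640 * DK K) + e₀) : ℕ) : ℝ) := by
    rw [sm]
    push_cast
    ring
  rw [h6]
  exact_mod_cast h5

end Pool.Agent.H366.NK
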