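import Pool.Agent.H366.NK.UniN

/-! # [EXPN] multilinear expansions -/

set_option autoImplicit false

namespace Pool.Agent.H366.NK

namespace ExpNN

section A

variable {W : Type} [AddCommGroup W] {n' : ℕ}

/-- functions of `n'` slots are functions of `n ≥ n'` slots -/
theorem slots {ι S : Type} [Fintype ι] [DecidableEq ι] [Nonempty ι] {n : ℕ} (hn : n' ≤ n)
    (F' : (Fin n' → ι) → (Fin n' → S) → ℝ) :
    ∃ F : (Fin n → ι) → (Fin n → S) → ℝ, ∀ z : ι → S,
      ∑ j : Fin n' → ι, F' j (z ∘ j) = ∑ j : Fin n → ι, F j (z ∘ j) := by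
  classical
  obtain ⟨r, rfl⟩ := Nat.exists_eq_add_of_le hn
  obtain ⟨i₀⟩ := (inferInstance : Nonempty ι)
  refine ⟨fun j s => if (fun k : Fin r => j (Fin.natAdd n' k)) = (fun _ => i₀) then
    F' (fun k => j (Fin.castAdd r k)) (fun k => s (Fin.castAdd r k)) else 0, fun z => ?_⟩
  rw [← (Fin.appendEquiv n' r (α := ι)).sum_comp, Fintype.sum_prod_type]
  refine Finset.sum_congr rfl fun j _ => ?_
  have h1 : ∀ j'' : Fin r → ι,
      (if (fun k : Fin r => Fin.appendEquiv n' r (j, j'') (Fin.natAdd n' k)) = (fun _ => i₀) then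
        F' (fun k => Fin.appendEquiv n' r (j, j'') (Fin.castAdd r k))
          (fun k => (z ∘ Fin.appendEquiv n' r (j, j'')) (Fin.castAdd r k)) else 0) =
      if j'' = (fun _ => i₀) then F' j (z ∘ j) else 0 := by
    intro j''
    have h2 : (fun k : Fin r => Fin.appendEquiv n' r (j, j'') (Fin.natAdd n' k)) = j'' := by
      funext k
      simp [Fin.appendEquiv]
    have h3 : (fun k : Fin n' => Fin.appendEquiv n' r (j, j'') (Fin.castAdd r k)) = j := by
      funext k
      simp [Fin.appendEquiv]
    have h4 : (fun k : Fin n' => (z ∘ Fin.appendEquiv n' r (j, j'')) (Fin.castAdd r k)) =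
        z ∘ j := by
      funext k
      simp [Fin.appendEquiv]
    rw [h2, h3, h4]
  rw [Finset.sum_congr rfl fun j'' _ => h1 j'', Finset.sum_ite_eq', if_pos (Finset.mem_univ _)]

/-- functions of `n` slots form a vector space -/
theorem slots_sum {ι S J : Type} [Fintype ι] [Fintype J] {n : ℕ} (H : J → (ι → S) → ℝ)
    (h : ∀ f, ∃ F : (Fin n → ι) → (Fin n → S) → ℝ, ∀ z : ι → S, H f z = ∑ j, F j (z ∘ j)) :
    ∃ F : (Fin n → ι) → (Fin n → S) → ℝ, ∀ z : ι → S, ∑ f, H f z = ∑ j, F j (z ∘ j) := by
  choose F hF using h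
  refine ⟨fun j s => ∑ f, F f j s, fun z => ?_⟩
  rw [Finset.sum_comm]
  refine Finset.sum_congr rfl fun f _ => ?_
  rw [hF]

variable {G P ι S : Type} [Fintype G] [Fintype P] [Fintype ι] [DecidableEq G] [DecidableEq P]
  [DecidableEq ι]

/-- the coefficients of `1, a_g` in terms of `vo v` -/
noncomputable def cf (A : G → Option P → ℝ) (lam : G → ι → S → ℝ) (z : ι → S) :
    Option G → Option P → ℝ
  | none, o => if o = none then 1 else 0
  | some g, o => A g o + if o = none then ∑ i, lam g i (z i) else 0

/-- the vectors -/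
def yy (w : G → W) (w' : W) : Option G → W
  | none => w'
  | some g => w g

/-- the coefficients of the expansion -/
noncomputable def GG (Q : MultilinearMap ℤ (fun _ : Fin n' => W) ℝ)
    (A : G → Option P → ℝ) (w : G → W) (w₀ : W) (β : ι → S → W) (lam : G → ι → S → ℝ)
    (z : ι → S) (gg : Fin n' → Option P) : ℝ :=
  ∑ f : Fin n' → Option G, (∏ k, cf A lam z (f k) (gg k)) *
    Q (fun k => yy w (w₀ + ∑ i, β i (z i)) (f k))

theorem GG_spec (Q : MultilinearMap ℤ (fun _ : Fin n' => W) ℝ)
    (A : G → Option P → ℝ) (w : G → W) (w₀ : W) (β : ι → S → W) (lam : G → ι → S → ℝ)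
    (v : P → ℝ) (a : G → ℤ) (z : ι → S)
    (h : ∀ g, (a g : ℝ) = ∑ o : Option P, A g o * vo v o + ∑ i, lam g i (z i)) :
    Q (fun _ => w₀ + ∑ i, β i (z i) + ∑ g, a g • w g) = ∑ gg : Fin n' → Option P,
      (∏ k, vo v (gg k)) * GG Q A w w₀ β lam z gg := by
  classical
  set w' : W := w₀ + ∑ i, β i (z i) with hw'
  let b : Option G → ℤ := fun o => o.elim 1 a
  have hb : ∀ o, (b o : ℝ) = ∑ o', cf A lam z o o' * vo v o' := by
    intro o
    cases o with
    | none =>
      show ((1 : ℤ) : ℝ) = _
      have h1 : ∀ o' : Option P, cf A lam z none o' * vo v o' =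
          if o' = none then vo v o' else 0 := by
        intro o'
        show (if o' = none then (1 : ℝ) else 0) * vo v o' = _
        split_ifs <;> simp
      rw [Finset.sum_congr rfl fun o' _ => h1 o', Finset.sum_ite_eq', if_pos (Finset.mem_univ _)]
      simp [vo]
    | some g =>
      show ((a g : ℤ) : ℝ) = _
      have h1 : ∀ o' : Option P, cf A lam z (some g) o' * vo v o' =
          A g o' * vo v o' + if o' = none then (∑ i, lam g i (z i)) * vo v o' else 0 := by
        intro o'
        show (A g o' + if o' = none then ∑ i, lam g i (z i) else 0) * vo v o' = _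
        split_ifs <;> ring
      rw [Finset.sum_congr rfl fun o' _ => h1 o', Finset.sum_add_distrib, Finset.sum_ite_eq',
        if_pos (Finset.mem_univ _), h g]
      simp [vo]
  have h1 : w' + ∑ g, a g • w g = ∑ o, b o • yy w w' o := by
    rw [Fintype.sum_option]
    show w' + _ = (1 : ℤ) • w' + _
    rw [one_zsmul]
    rfl
  rw [h1]
  have h2 : Q (fun _ => ∑ o, b o • yy w w' o) =
      ∑ f : Fin n' → Option G, Q (fun k => b (f k) • yy w w' (f k)) :=
    Q.map_sum (fun _ o => b o • yy w w' o)
  rw [h2]
  have h3 : ∀ f : Fin n' → Option G, Q (fun k => b (f k) • yy w w' (f k)) =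
      ∑ gg : Fin n' → Option P, (∏ k, vo v (gg k)) *
        ((∏ k, cf A lam z (f k) (gg k)) * Q (fun k => yy w w' (f k))) := by
    intro f
    rw [Q.map_smul_univ (fun k => b (f k)) (fun k => yy w w' (f k)), zsmul_eq_mul, Int.cast_prod,
      Finset.prod_congr rfl fun k _ => hb (f k), Finset.prod_univ_sum, Finset.sum_mul]
    rw [Fintype.piFinset_univ]
    refine Finset.sum_congr rfl fun g _ => ?_
    rw [Finset.prod_mul_distrib]
    ring
  rw [Finset.sum_congr rfl fun f _ => h3 f, Finset.sum_comm]
  refine Finset.sum_congr rfl fun g _ => ?_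
  unfold GG
  rw [Finset.mul_sum]

/-- the coefficient of a slot -/
noncomputable def sR (gg : Option P) : Option G → ℝ → ℝ
  | none, _ => if gg = none then 1 else 0
  | some _, r => r

/-- the vector of a slot -/
def sW (w : G → W) : Option G → W → W
  | none, y => y
  | some g, _ => w g

/-- one term of the expansion as a multilinear map of pairs (vector, coefficient) -/
noncomputable def MM (Q : MultilinearMap ℤ (fun _ : Fin n' => W) ℝ) (w : G → W)
    (gg : Fin n' → Option P) (f : Fin n' → Option G) :
    MultilinearMap ℤ (fun _ : Fin n' => W × ℝ) ℝ where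
  toFun u := (∏ k, sR (gg k) (f k) (u k).2) * Q (fun k => sW w (f k) (u k).1)
  map_update_add' := by
    intro inst u k x y
    have hinst : inst = instDecidableEqFin n' := Subsingleton.elim _ _
    subst hinst
    have hQ : ∀ c : W × ℝ, (fun k' => sW w (f k') (Function.update u k c k').1) =
        Function.update (fun k' => sW w (f k') (u k').1) k (sW w (f k) c.1) := by
      intro c
      funext k'
      by_cases hk : k' = k
      · subst hk; simp
      · simp [Function.update_of_ne hk]
    have hP : ∀ c : W × ℝ, ∏ k', sR (gg k') (f k') (Function.update u k c k').2 =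
        sR (gg k) (f k) c.2 * ∏ k' ∈ Finset.univ.erase k, sR (gg k') (f k') (u k').2 := by
      intro c
      rw [← Finset.mul_prod_erase Finset.univ _ (Finset.mem_univ k), Function.update_self]
      congr 1
      refine Finset.prod_congr rfl fun k' hk' => ?_
      rw [Function.update_of_ne (Finset.ne_of_mem_erase hk')]
    rw [hQ, hQ, hQ, hP, hP, hP]
    cases hf : f k with
    | none =>
      show _ * Q (Function.update _ k (x + y).1) = _ * Q (Function.update _ k x.1) +
        _ * Q (Function.update _ k y.1)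
      rw [Prod.fst_add, Q.map_update_add]
      show (if gg k = none then (1 : ℝ) else 0) * _ * _ = (if gg k = none then (1 : ℝ) else 0) * _ * _ +
        (if gg k = none then (1 : ℝ) else 0) * _ * _
      ring
    | some g =>
      show (x + y).2 * _ * Q (Function.update _ k (w g)) = x.2 * _ * Q (Function.update _ k (w g)) +
        y.2 * _ * Q (Function.update _ k (w g))
      rw [Prod.snd_add]
      ring
  map_update_smul' := by
    intro inst u k c x
    have hinst : inst = instDecidableEqFin n' := Subsingleton.elim _ _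
    subst hinst
    have hQ : ∀ c : W × ℝ, (fun k' => sW w (f k') (Function.update u k c k').1) =
        Function.update (fun k' => sW w (f k') (u k').1) k (sW w (f k) c.1) := by
      intro c
      funext k'
      by_cases hk : k' = k
      · subst hk; simp
      · simp [Function.update_of_ne hk]
    have hP : ∀ c : W × ℝ, ∏ k', sR (gg k') (f k') (Function.update u k c k').2 =
        sR (gg k) (f k) c.2 * ∏ k' ∈ Finset.univ.erase k, sR (gg k') (f k') (u k').2 := by
      intro c
      rw [← Finset.mul_prod_erase Finset.univ _ (Finset.mem_univ k), Function.update_self]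
      congr 1
      refine Finset.prod_congr rfl fun k' hk' => ?_
      rw [Function.update_of_ne (Finset.ne_of_mem_erase hk')]
    rw [hQ, hQ, hP, hP]
    cases hf : f k with
    | none =>
      show _ * Q (Function.update _ k (c • x).1) = c • (_ * Q (Function.update _ k x.1))
      rw [Prod.smul_fst, Q.map_update_smul]
      show (if gg k = none then (1 : ℝ) else 0) * _ * _ =
        c • ((if gg k = none then (1 : ℝ) else 0) * _ * _)
      rw [zsmul_eq_mul, zsmul_eq_mul]
      ring
    | some g =>
      show (c • x).2 * _ * Q (Function.update _ k (w g)) =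
        c • (x.2 * _ * Q (Function.update _ k (w g)))
      rw [Prod.smul_snd, zsmul_eq_mul, zsmul_eq_mul]
      ring

theorem MM_apply (Q : MultilinearMap ℤ (fun _ : Fin n' => W) ℝ) (w : G → W)
    (gg : Fin n' → Option P) (f : Fin n' → Option G) (u : Fin n' → W × ℝ) :
    MM Q w gg f u = (∏ k, sR (gg k) (f k) (u k).2) * Q (fun k => sW w (f k) (u k).1) := rfl

theorem one_term [Nonempty ι] (Q : MultilinearMap ℤ (fun _ : Fin n' => W) ℝ) {n : ℕ} (hn : n' ≤ n)
    (A : G → Option P → ℝ) (w : G → W) (w₀ : W) (β : ι → S → W) (lam : G → ι → S → ℝ)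
    (gg : Fin n' → Option P) (f : Fin n' → Option G) :
    ∃ F : (Fin n → ι) → (Fin n → S) → ℝ, ∀ z : ι → S,
      (∏ k, cf A lam z (f k) (gg k)) * Q (fun k => yy w (w₀ + ∑ i, β i (z i)) (f k)) =
        ∑ j, F j (z ∘ j) := by
  classical
  obtain ⟨i₀⟩ := (inferInstance : Nonempty ι)
  let uu : Fin n' → ι → S → W × ℝ := fun k i s =>
    ((if i = i₀ then w₀ else 0) + β i s,
      (if i = i₀ then (f k).elim 0 (fun g => A g (gg k)) else 0) +
        (if gg k = none then (f k).elim 0 (fun g => lam g i s) else 0))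
  have h1 : ∀ z : ι → S, (∏ k, cf A lam z (f k) (gg k)) *
      Q (fun k => yy w (w₀ + ∑ i, β i (z i)) (f k)) =
      MM Q w gg f (fun k => ∑ i, uu k i (z i)) := by
    intro z
    rw [MM_apply]
    have hfst : ∀ k, (∑ i, uu k i (z i)).1 = w₀ + ∑ i, β i (z i) := by
      intro k
      rw [Prod.fst_sum]
      show ∑ i, ((if i = i₀ then w₀ else 0) + β i (z i)) = _
      rw [Finset.sum_add_distrib, Finset.sum_ite_eq', if_pos (Finset.mem_univ _)]
    have hsnd : ∀ k, (∑ i, uu k i (z i)).2 = (f k).elim 0 (fun g => A g (gg k)) +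
        if gg k = none then ∑ i, (f k).elim 0 (fun g => lam g i (z i)) else 0 := by
      intro k
      rw [Prod.snd_sum]
      show ∑ i, ((if i = i₀ then (f k).elim 0 (fun g => A g (gg k)) else 0) +
        (if gg k = none then (f k).elim 0 (fun g => lam g i (z i)) else 0)) = _
      rw [Finset.sum_add_distrib, Finset.sum_ite_eq', if_pos (Finset.mem_univ _)]
      congr 1
      split_ifs
      · rfl
      · exact Finset.sum_const_zero
    congr 1
    · refine Finset.prod_congr rfl fun k _ => ?_
      rw [hsnd]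
      cases hf : f k with
      | none => rfl
      | some g => rfl
    · congr 1
      funext k
      rw [hfst]
      cases hf : f k with
      | none => rfl
      | some g => rfl
  obtain ⟨F, hF⟩ := slots (n := n) hn
    (fun (j : Fin n' → ι) (s : Fin n' → S) => MM Q w gg f (fun k => uu k (j k) (s k)))
  refine ⟨F, fun z => ?_⟩
  rw [← hF z, h1]
  exact (MM Q w gg f).map_sum (fun k i => uu k i (z i))

end A

end ExpNN

/-- [EXPN] -/
theorem expand {W : Type} [AddCommGroup W] {n' : ℕ}
    (Q : MultilinearMap ℤ (fun _ : Fin n' => W) ℝ) (G P ι S : Type) [Fintype G] [Fintype P]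
    [Fintype ι] [DecidableEq G] [DecidableEq P] [DecidableEq ι] [Nonempty ι] (w : G → W)
    (A : G → Option P → ℝ) (w₀ : W) (β : ι → S → W) (lam : G → ι → S → ℝ) (n : ℕ)
    (hn : n' ≤ n) :
    ∃ 𝒢 : (ι → S) → (Fin n' → Option P) → ℝ,
      (∀ (v : P → ℝ) (a : G → ℤ) (z : ι → S),
        (∀ g, (a g : ℝ) = ∑ o : Option P, A g o * vo v o + ∑ i, lam g i (z i)) →
        Q (fun _ => w₀ + ∑ i, β i (z i) + ∑ g, a g • w g) =
          ∑ gg : Fin n' → Option P, (∏ k, vo v (gg k)) * 𝒢 z gg) ∧
      ∀ gg : Fin n' → Option P, ∃ F : (Fin n → ι) → (Fin n → S) → ℝ,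
        ∀ z : ι → S, 𝒢 z gg = ∑ j, F j (z ∘ j) := by
  refine ⟨ExpNN.GG Q A w w₀ β lam, fun v a z h => ExpNN.GG_spec Q A w w₀ β lam v a z h, ?_⟩
  intro gg
  exact ExpNN.slots_sum
    (fun (f : Fin n' → Option G) (z : ι → S) => (∏ k, ExpNN.cf A lam z (f k) (gg k)) *
      Q (fun k => ExpNN.yy w (w₀ + ∑ i, β i (z i)) (f k)))
    (fun f => ExpNN.one_term Q hn A w w₀ β lam gg f)

end Pool.Agent.H366.NK
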