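import Pool.Agent.H366.NK.Adm

/-! # [FINN] from the key theorem to all arguments -/

set_option autoImplicit false

namespace Pool.Agent.H366.NK

open NumberField
open H39Gon (UV cl)

variable {K : Type} [Field K] [NumberField K]

/-- `∑ a_i cl(F_i)` -/
noncomputable def SF {ι : Fin 3 → Type} [∀ X, Fintype (ι X)] (F : (X : Fin 3) → ι X → 𝓞 K)
    (a : (X : Fin 3) → ι X → ℤ) (X : Fin 3) : UV K := ∑ i, a X i • cl (F X i : K)

namespace FinNN

open H39Gon.TaskB

omit [NumberField K] in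
lemma coe_one' : ((1 : 𝓞 K) : K) = 1 := rfl

omit [NumberField K] in
lemma coe_mul' (a b : 𝓞 K) : ((a * b : 𝓞 K) : K) = (a : K) * (b : K) := rfl

omit [NumberField K] in
lemma coe_pow' (a : 𝓞 K) (n : ℕ) : ((a ^ n : 𝓞 K) : K) = (a : K) ^ n := rfl

omit [NumberField K] in
/-- a family with all coefficients zero -/
lemma SF_zero {ι : Fin 3 → Type} [∀ X, Fintype (ι X)] (F : (X : Fin 3) → ι X → 𝓞 K)
    (a : (X : Fin 3) → ι X → ℤ) (X : Fin 3) (ha : a X = 0) : SF F a X = 0 := by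
  unfold SF
  rw [ha]
  simp

open Classical in
/-- the coefficients `t` at `i` and `-t` at `j` -/
lemma SF_two {ι : Fin 3 → Type} [∀ X, Fintype (ι X)] (F : (X : Fin 3) → ι X → 𝓞 K) (hF : Adm F)
    (a : (X : Fin 3) → ι X → ℤ) (X : Fin 3) (i j : ι X) (t : ℤ)
    (ha : a X = fun k => (if k = i then t else 0) - (if k = j then t else 0)) :
    SF F a X = t • cl ((F X i : K) / (F X j : K)) := by
  have h0 : ∀ k, (F X k : K) ≠ 0 := by
    intro k hk
    obtain ⟨w⟩ : Nonempty (InfinitePlace K) := inferInstance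
    have h1 := hF.one_lt X k w
    rw [hk, map_zero] at h1
    exact absurd h1 (by norm_num)
  unfold SF
  rw [ha, cl_div (h0 i) (h0 j), zsmul_sub]
  simp only [sub_smul, Finset.sum_sub_distrib, ite_smul, zero_smul, Finset.sum_ite_eq',
    Finset.mem_univ, if_true]

/-- `P (t₁ cl(y/y') - t₀ cl(x/x'), -t₀ cl(x/x')) = 0`, the pair `(x, x')` in the group `0` -/
lemma useA {m : ℕ} (P : MultilinearMap ℤ (fun _ : Fin m => UV K) (UV K →ₗ[ℤ] ℝ))
    (h : ∀ (ι : Fin 3 → Type) [∀ X, Fintype (ι X)] (F : (X : Fin 3) → ι X → 𝓞 K), Adm F →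
      ∀ a : (X : Fin 3) → ι X → ℤ,
        P (fun _ => SF F a 1 - SF F a 0) (SF F a 2 - SF F a 0) = 0)
    (y y' x x' : 𝓞 K) (hy : y ≠ 0) (hy' : y' ≠ 0) (hx : x ≠ 0) (hx' : x' ≠ 0)
    (hcop : IsCoprime (y * y') (x * x')) (t : ℤ) :
    P (fun _ => cl ((y : K) / (y' : K)) - t • cl ((x : K) / (x' : K)))
      (0 - t • cl ((x : K) / (x' : K))) = 0 := by
  classical
  obtain ⟨ι, hι, F, hF, ⟨i, j, hij⟩, ⟨i', j', hij'⟩⟩ :=
    exists_adm y y' x x' hy hy' hx hx' hcop 1 0 (by decide)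
  obtain ⟨a, ha⟩ : ∃ a : (X : Fin 3) → ι X → ℤ, a = Function.update (Function.update
      (fun _ _ => (0 : ℤ)) 1 (fun k => (if k = i then (1 : ℤ) else 0) - (if k = j then 1 else 0))) 0
      (fun k => (if k = i' then t else 0) - (if k = j' then t else 0)) := ⟨_, rfl⟩
  have h1 := h ι F hF a
  have e1 : SF F a 1 = cl ((y : K) / (y' : K)) := by
    rw [SF_two F hF a 1 i j 1, hij, one_smul]
    rw [ha, Function.update_of_ne (by decide), Function.update_self]
  have e0 : SF F a 0 = t • cl ((x : K) / (x' : K)) := by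
    rw [SF_two F hF a 0 i' j' t, hij']
    rw [ha, Function.update_self]
  have e2 : SF F a 2 = 0 := by
    refine SF_zero F a 2 ?_
    rw [ha, Function.update_of_ne (by decide), Function.update_of_ne (by decide)]
    rfl
  rw [e0, e1, e2] at h1
  exact h1

/-- `P (cl(y/y'), cl(x/x')) = 0`, the pair `(x, x')` in the group `2` -/
lemma useB {m : ℕ} (P : MultilinearMap ℤ (fun _ : Fin m => UV K) (UV K →ₗ[ℤ] ℝ))
    (h : ∀ (ι : Fin 3 → Type) [∀ X, Fintype (ι X)] (F : (X : Fin 3) → ι X → 𝓞 K), Adm F →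
      ∀ a : (X : Fin 3) → ι X → ℤ,
        P (fun _ => SF F a 1 - SF F a 0) (SF F a 2 - SF F a 0) = 0)
    (y y' x x' : 𝓞 K) (hy : y ≠ 0) (hy' : y' ≠ 0) (hx : x ≠ 0) (hx' : x' ≠ 0)
    (hcop : IsCoprime (y * y') (x * x')) :
    P (fun _ => cl ((y : K) / (y' : K))) (cl ((x : K) / (x' : K))) = 0 := by
  classical
  obtain ⟨ι, hι, F, hF, ⟨i, j, hij⟩, ⟨i', j', hij'⟩⟩ :=
    exists_adm y y' x x' hy hy' hx hx' hcop 1 2 (by decide)
  obtain ⟨a, ha⟩ : ∃ a : (X : Fin 3) → ι X → ℤ, a = Function.update (Function.update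
      (fun _ _ => (0 : ℤ)) 1 (fun k => (if k = i then (1 : ℤ) else 0) - (if k = j then 1 else 0))) 2
      (fun k => (if k = i' then 1 else 0) - (if k = j' then 1 else 0)) := ⟨_, rfl⟩
  have h1 := h ι F hF a
  have e1 : SF F a 1 = cl ((y : K) / (y' : K)) := by
    rw [SF_two F hF a 1 i j 1, hij, one_smul]
    rw [ha, Function.update_of_ne (by decide), Function.update_self]
  have e2 : SF F a 2 = cl ((x : K) / (x' : K)) := by
    rw [SF_two F hF a 2 i' j' 1, hij', one_smul]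
    rw [ha, Function.update_self]
  have e0 : SF F a 0 = 0 := by
    refine SF_zero F a 0 ?_
    rw [ha, Function.update_of_ne (by decide), Function.update_of_ne (by decide)]
    rfl
  rw [e0, e1, e2, sub_zero, sub_zero] at h1
  exact h1

omit [NumberField K] in
/-- homogeneity in the first variable -/
lemma hom_left {m : ℕ} (P : MultilinearMap ℤ (fun _ : Fin m => UV K) (UV K →ₗ[ℤ] ℝ)) (n : ℤ)
    (u v : UV K) : P (fun _ => n • u) v = (n : ℝ) ^ m * P (fun _ => u) v := by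
  have h := P.map_smul_univ (fun _ => n) (fun _ => u)
  rw [h, LinearMap.smul_apply, zsmul_eq_mul]
  simp

/-- every class is a quotient of two integers -/
lemma exists_quot (f : UV K) : ∃ a b : 𝓞 K, a ≠ 0 ∧ b ≠ 0 ∧ f = cl ((a : K) / (b : K)) := by
  obtain ⟨x, hx, rfl⟩ := exists_cl f
  obtain ⟨a, b, hb, hab⟩ := IsFractionRing.div_surjective (A := 𝓞 K) x
  have hb0 : b ≠ 0 := nonZeroDivisors.ne_zero hb
  refine ⟨a, b, ?_, hb0, ?_⟩
  · rintro rfl
    rw [map_zero, zero_div] at hab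
    exact hx hab.symm
  · rw [← hab]

omit [NumberField K] in
lemma coe_ne {a : 𝓞 K} (ha : a ≠ 0) : (a : K) ≠ 0 := by
  simpa using ha

/-- the unit case -/
lemma unitCase {m : ℕ} (P : MultilinearMap ℤ (fun _ : Fin m => UV K) (UV K →ₗ[ℤ] ℝ))
    (h : ∀ (ι : Fin 3 → Type) [∀ X, Fintype (ι X)] (F : (X : Fin 3) → ι X → 𝓞 K), Adm F →
      ∀ a : (X : Fin 3) → ι X → ℤ,
        P (fun _ => SF F a 1 - SF F a 0) (SF F a 2 - SF F a 0) = 0)
    (x : 𝓞 K) (hx : IsUnit x) (f : UV K) : P (fun _ => f) (cl (x : K)) = 0 := by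
  obtain ⟨a, b, ha, hb, rfl⟩ := exists_quot f
  have h1 := useB P h a b x 1 ha hb hx.ne_zero one_ne_zero
    ((isCoprime_one_right (x := a * b)).of_isCoprime_of_dvd_right
      (by rw [mul_one]; exact (hx.dvd : x ∣ 1)))
  rw [coe_one', div_one] at h1
  exact h1

/-- the `P`-primary part of `a^h` -/
lemma exists_part {Q : Ideal (𝓞 K)} (hQ : Prime Q) {n : ℕ} {π : 𝓞 K}
    (hπ : Ideal.span {π} = Q ^ n) {a : 𝓞 K} (ha : a ≠ 0) :
    ∃ (s : ℕ) (y : 𝓞 K), y ≠ 0 ∧ a ^ n = π ^ s * y ∧ y ∉ Q := by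
  have ha' : Ideal.span {a} ≠ ⊥ := by
    rw [Ne, Ideal.span_singleton_eq_bot]
    exact ha
  obtain ⟨c, hc, hc'⟩ := (FiniteMultiplicity.of_prime_left hQ ha').exists_eq_pow_mul_and_not_dvd
  obtain ⟨s, hs⟩ : ∃ s, s = multiplicity Q (Ideal.span {a}) := ⟨_, rfl⟩
  rw [← hs] at hc
  have h1 : Ideal.span {a ^ n} = Ideal.span {π ^ s} * c ^ n := by
    rw [← Ideal.span_singleton_pow, hc, mul_pow, ← pow_mul, mul_comm s n, pow_mul, ← hπ,
      Ideal.span_singleton_pow]
  have h20 : Ideal.span {a ^ n} ≤ Ideal.span {π ^ s} := by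
    rw [h1]
    exact Ideal.mul_le_left
  have h2 : π ^ s ∣ a ^ n := Ideal.span_singleton_le_span_singleton.1 h20
  obtain ⟨y, hy⟩ := h2
  have hy0 : y ≠ 0 := by
    rintro rfl
    rw [mul_zero] at hy
    exact pow_ne_zero n ha hy
  have hπs : Ideal.span {π ^ s} ≠ (⊥ : Ideal (𝓞 K)) := by
    rw [Ne, Ideal.span_singleton_eq_bot]
    intro h3
    rw [h3, zero_mul] at hy
    exact pow_ne_zero n ha hy
  refine ⟨s, y, hy0, hy, fun hyQ => hc' ?_⟩
  have h3 : Ideal.span {y} = c ^ n := by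
    rw [hy, ← Ideal.span_singleton_mul_span_singleton] at h1
    exact mul_left_cancel₀ hπs h1
  have h4 : Q ∣ c ^ n := by
    rw [← h3, Ideal.dvd_span_singleton]
    exact hyQ
  exact hQ.dvd_of_dvd_pow h4

/-- the prime case -/
lemma primeCase {m : ℕ} (P : MultilinearMap ℤ (fun _ : Fin m => UV K) (UV K →ₗ[ℤ] ℝ))
    (h : ∀ (ι : Fin 3 → Type) [∀ X, Fintype (ι X)] (F : (X : Fin 3) → ι X → 𝓞 K), Adm F →
      ∀ a : (X : Fin 3) → ι X → ℤ,
        P (fun _ => SF F a 1 - SF F a 0) (SF F a 2 - SF F a 0) = 0)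
    {Q : Ideal (𝓞 K)} (hQ : Prime Q) {n : ℕ} (hn : n ≠ 0) {π : 𝓞 K}
    (hπ : Ideal.span {π} = Q ^ n) (f : UV K) : P (fun _ => f) (cl (π : K)) = 0 := by
  obtain ⟨a, b, ha, hb, hf⟩ := exists_quot f
  obtain ⟨s, y, hy0, hy, hyQ⟩ := exists_part hQ hπ ha
  obtain ⟨t, y', hy'0, hy', hy'Q⟩ := exists_part hQ hπ hb
  have hπ0 : π ≠ 0 := by
    rintro rfl
    have h1 : Q ^ n = ⊥ := by
      rw [← hπ, Ideal.span_singleton_eq_bot]
    exact pow_ne_zero n hQ.ne_zero h1
  have hQp : Q.IsPrime := Ideal.isPrime_of_prime hQ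
  have hQm : Q.IsMaximal := hQp.isMaximal hQ.ne_zero
  have hyy : y * y' ∉ Q := fun hm => (hQp.mem_or_mem hm).elim hyQ hy'Q
  have hcop : IsCoprime (y * y') (π * 1) := by
    rw [mul_one, ← Ideal.isCoprime_span_singleton_iff, hπ]
    refine IsCoprime.pow_right ?_
    rw [Ideal.isCoprime_iff_sup_eq, sup_comm]
    refine hQm.out.2 _ (lt_of_le_of_ne le_sup_left fun he => hyy ?_)
    rw [he]
    exact Ideal.mem_sup_right (Ideal.mem_span_singleton_self _)
  -- the class of `f^n`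
  have hfn : (n : ℤ) • f = cl ((y : K) / (y' : K)) - ((t : ℤ) - s) • cl (π : K) := by
    rw [hf, natCast_zsmul, cl_div (coe_ne ha) (coe_ne hb), nsmul_sub, ← cl_pow (coe_ne ha),
      ← cl_pow (coe_ne hb), cl_div (coe_ne hy0) (coe_ne hy'0)]
    have e1 : ((a : K)) ^ n = (π : K) ^ s * (y : K) := by
      have := congrArg (fun z : 𝓞 K => (z : K)) hy
      simpa using this
    have e2 : ((b : K)) ^ n = (π : K) ^ t * (y' : K) := by
      have := congrArg (fun z : 𝓞 K => (z : K)) hy'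
      simpa using this
    rw [e1, e2, cl_mul (pow_ne_zero _ (coe_ne hπ0)) (coe_ne hy0),
      cl_mul (pow_ne_zero _ (coe_ne hπ0)) (coe_ne hy'0), cl_pow (coe_ne hπ0), cl_pow (coe_ne hπ0),
      sub_zsmul, natCast_zsmul, natCast_zsmul]
    abel
  have hn' : ((n : ℤ) : ℝ) ≠ 0 := by exact_mod_cast hn
  have key : P (fun _ => (n : ℤ) • f) (cl (π : K)) = 0 := by
    by_cases hts : (t : ℤ) - s = 0
    · rw [hfn, hts, zero_smul, sub_zero]
      have h1 := useB P h y y' π 1 hy0 hy'0 hπ0 one_ne_zero hcop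
      rwa [coe_one', div_one] at h1
    · rw [hfn]
      have h1 := useA P h y y' π 1 hy0 hy'0 hπ0 one_ne_zero hcop ((t : ℤ) - s)
      rw [coe_one', div_one, zero_sub, map_neg, neg_eq_zero, map_zsmul, zsmul_eq_mul] at h1
      have h2 : (((t : ℤ) - s : ℤ) : ℝ) ≠ 0 := by exact_mod_cast hts
      exact (mul_eq_zero.1 h1).resolve_left h2
  rw [hom_left] at key
  exact (mul_eq_zero.1 key).resolve_left (pow_ne_zero _ hn')

end FinNN

/-- [FINN1] -/
theorem finN1 {m : ℕ} (P : MultilinearMap ℤ (fun _ : Fin (m + 1) => UV K) (UV K →ₗ[ℤ] ℝ))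
    (h : ∀ (ι : Fin 3 → Type) [∀ X, Fintype (ι X)] (F : (X : Fin 3) → ι X → 𝓞 K), Adm F →
      ∀ a : (X : Fin 3) → ι X → ℤ,
        P (fun _ => SF F a 1 - SF F a 0) (SF F a 2 - SF F a 0) = 0) :
    ∀ f g : UV K, P (fun _ => f) g = 0 := by
  open FinNN H39Gon.TaskB in
  classical
  obtain ⟨n, hn⟩ : ∃ n, n = Fintype.card (ClassGroup (𝓞 K)) := ⟨_, rfl⟩
  have hn0 : n ≠ 0 := by rw [hn]; exact Fintype.card_ne_zero
  have hprin : ∀ I : Ideal (𝓞 K), I ≠ 0 → ∃ π : 𝓞 K, Ideal.span {π} = I ^ n := by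
    intro I hI
    have hmem : I ^ n ∈ nonZeroDivisors (Ideal (𝓞 K)) :=
      pow_mem (mem_nonZeroDivisors_of_ne_zero hI) n
    have h1 : ClassGroup.mk0 (⟨I, mem_nonZeroDivisors_of_ne_zero hI⟩ :
        nonZeroDivisors (Ideal (𝓞 K))) ^ n = 1 := by
      rw [hn]
      exact pow_card_eq_one
    rw [← map_pow] at h1
    have h2 : (I ^ n).IsPrincipal := (ClassGroup.mk0_eq_one_iff hmem).1 h1
    obtain ⟨π, hπ⟩ := h2.principal
    exact ⟨π, hπ.symm⟩
  -- all integers whose ideal is an `n`-th power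
  have hall : ∀ I : Ideal (𝓞 K), I ≠ 0 → ∀ x : 𝓞 K, Ideal.span {x} = I ^ n → ∀ f : UV K,
      P (fun _ => f) (cl (x : K)) = 0 := by
    intro I
    induction I using UniqueFactorizationMonoid.induction_on_prime with
    | h₁ => intro h0; exact absurd rfl h0
    | h₂ J hJ =>
      intro _ x hx f
      refine unitCase P h x ?_ f
      rw [← Ideal.span_singleton_eq_top, hx]
      rw [Ideal.isUnit_iff] at hJ
      rw [hJ, Ideal.top_pow]
    | h₃ J Q hJ hQ ih =>
      intro hne x hx f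
      obtain ⟨π, hπ⟩ := hprin Q hQ.ne_zero
      obtain ⟨y, hy⟩ := hprin J hJ
      have hπ0 : π ≠ 0 := by
        rintro rfl
        have h1 : Q ^ n = ⊥ := by
          rw [← hπ, Ideal.span_singleton_eq_bot]
        exact pow_ne_zero n hQ.ne_zero h1
      have hx0 : x ≠ 0 := by
        rintro rfl
        have h1 : (Q * J) ^ n = ⊥ := by
          rw [← hx, Ideal.span_singleton_eq_bot]
        exact pow_ne_zero n hne h1
      have h1 : Ideal.span {x} = Ideal.span {π * y} := by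
        rw [hx, mul_pow, ← hπ, ← hy, Ideal.span_singleton_mul_span_singleton]
      have h20 : Ideal.span {x} ≤ Ideal.span {π} := by
        rw [h1, ← Ideal.span_singleton_mul_span_singleton]
        exact Ideal.mul_le_left
      have h2 : π ∣ x := Ideal.span_singleton_le_span_singleton.1 h20
      obtain ⟨z, hz⟩ := h2
      have hz0 : z ≠ 0 := by
        rintro rfl
        rw [mul_zero] at hz
        exact hx0 hz
      have h3 : Ideal.span {z} = J ^ n := by
        rw [hz, ← Ideal.span_singleton_mul_span_singleton, ← Ideal.span_singleton_mul_span_singleton,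
          hy] at h1
        refine mul_left_cancel₀ ?_ h1
        rw [Ne, Ideal.zero_eq_bot, Ideal.span_singleton_eq_bot]
        exact hπ0
      rw [hz, coe_mul', cl_mul (coe_ne hπ0) (coe_ne hz0), map_add, primeCase P h hQ hn0 hπ f,
        ih hJ z h3 f, add_zero]
  have hint : ∀ x : 𝓞 K, x ≠ 0 → ∀ f : UV K, P (fun _ => f) (cl (x : K)) = 0 := by
    intro x hx f
    have h1 := hall (Ideal.span {x}) (by
      rw [Ne, Ideal.zero_eq_bot, Ideal.span_singleton_eq_bot]; exact hx) (x ^ n)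
      (Ideal.span_singleton_pow x n).symm f
    rw [coe_pow', cl_pow (coe_ne hx), map_nsmul, nsmul_eq_mul] at h1
    have h2 : ((n : ℕ) : ℝ) ≠ 0 := by exact_mod_cast hn0
    exact (mul_eq_zero.1 h1).resolve_left h2
  intro f g
  obtain ⟨a, b, ha, hb, rfl⟩ := exists_quot g
  rw [cl_div (coe_ne ha) (coe_ne hb), map_sub, hint a ha f, hint b hb f, sub_zero]

/-- [FINN2] -/
theorem finN2 {m : ℕ} (R : MultilinearMap ℤ (fun _ : Fin m => UV K) ℝ)
    (h : ∀ (ι : Fin 3 → Type) [∀ X, Fintype (ι X)] (F : (X : Fin 3) → ι X → 𝓞 K), Adm F →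
      ∀ a : (X : Fin 3) → ι X → ℤ, R (fun _ => SF F a 1 - SF F a 0) = 0) :
    ∀ f : UV K, R (fun _ => f) = 0 := by
  open FinNN H39Gon.TaskB in
  classical
  intro f
  obtain ⟨y, y', hy, hy', rfl⟩ := exists_quot f
  obtain ⟨ι, hι, F, hF, ⟨i, j, hij⟩, -⟩ :=
    exists_adm y y' 1 1 hy hy' one_ne_zero one_ne_zero (by
      rw [mul_one]; exact isCoprime_one_right) 1 0 (by decide)
  obtain ⟨a, ha⟩ : ∃ a : (X : Fin 3) → ι X → ℤ, a = Function.update
      (fun _ _ => (0 : ℤ)) 1 (fun k => (if k = i then (1 : ℤ) else 0) - (if k = j then 1 else 0)) :=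
    ⟨_, rfl⟩
  have h1 := h ι F hF a
  have e1 : SF F a 1 = cl ((y : K) / (y' : K)) := by
    rw [SF_two F hF a 1 i j 1, hij, one_smul]
    rw [ha, Function.update_self]
  have e0 : SF F a 0 = 0 := by
    refine SF_zero F a 0 ?_
    rw [ha, Function.update_of_ne (by decide)]
    rfl
  rw [e0, e1, sub_zero] at h1
  exact h1

end Pool.Agent.H366.NK
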