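import Pool.Agent.H366.NK.Rho

/-! # [LATBALL] cells in a small multiplicative neighbourhood -/

set_option autoImplicit false

namespace Pool.Agent.H366.NK

open NumberField
open NumberField.mixedEmbedding (mixedSpace normAtPlace)
open Pool.Agent.H366.GF (Ex ExC)

namespace LatBallN

open MeasureTheory NumberField.InfinitePlace
open scoped NNReal ENNReal Classical

variable {K : Type} [Field K] [NumberField K]

variable (K) in
/-- fundamental domain of the lattice of the integers -/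
noncomputable def FD : Set (mixedSpace K) :=
  ZSpan.fundamentalDomain (mixedEmbedding.latticeBasis K)

lemma FD_isBounded : Bornology.IsBounded (FD K) :=
  ZSpan.fundamentalDomain_isBounded _

lemma normAtPlace_le_norm (w : InfinitePlace K) (y : mixedSpace K) : normAtPlace w y ≤ ‖y‖ := by
  rw [mixedEmbedding.norm_eq_sup'_normAtPlace]
  exact Finset.le_sup' (fun w => normAtPlace w y) (Finset.mem_univ w)

lemma FD_bdd : ∃ δ : ℝ, 0 < δ ∧ ∀ y ∈ FD K, ∀ w : InfinitePlace K, normAtPlace w y < δ := by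
  obtain ⟨r, hr⟩ := (FD_isBounded (K := K)).exists_norm_le
  refine ⟨max r 0 + 1, by positivity, fun y hy w => ?_⟩
  have h1 := hr y hy
  have h2 := normAtPlace_le_norm w y
  have h3 := le_max_left r 0
  linarith

lemma FD_meas : MeasurableSet (FD K) := ZSpan.fundamentalDomain_measurableSet _

variable (K) in
/-- the covolume -/
noncomputable def V₀ : ℝ := (volume (FD K)).toReal

lemma V₀_pos : 0 < V₀ K := by
  unfold V₀
  refine ENNReal.toReal_pos ?_ ?_
  · exact ZSpan.measure_fundamentalDomain_ne_zero _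
  · exact (FD_isBounded (K := K)).measure_lt_top.ne

lemma vol_FD : volume (FD K) = ENNReal.ofReal (V₀ K) := by
  unfold V₀
  rw [ENNReal.ofReal_toReal]
  exact (FD_isBounded (K := K)).measure_lt_top.ne

lemma exists_floor (y : mixedSpace K) : ∃ g : 𝓞 K, y - mixedEmbedding K (g : K) ∈ FD K := by
  have h1 := (ZSpan.floor (mixedEmbedding.latticeBasis K) y).2
  rw [mixedEmbedding.mem_span_latticeBasis] at h1
  obtain ⟨g, hg⟩ := h1
  refine ⟨g, ?_⟩
  have h2 := ZSpan.fract_mem_fundamentalDomain (mixedEmbedding.latticeBasis K) y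
  rw [ZSpan.fract_apply, ← hg] at h2
  exact h2

lemma mem_lat (g : 𝓞 K) : mixedEmbedding K (g : K) ∈
    Submodule.span ℤ (Set.range (mixedEmbedding.latticeBasis K)) := by
  rw [mixedEmbedding.mem_span_latticeBasis]
  exact ⟨g, rfl⟩

lemma floor_unique {y : mixedSpace K} {g g' : 𝓞 K} (h : y - mixedEmbedding K (g : K) ∈ FD K)
    (h' : y - mixedEmbedding K (g' : K) ∈ FD K) : g = g' := by
  have key : ∀ g : 𝓞 K, y - mixedEmbedding K (g : K) ∈ FD K →
      ZSpan.fract (mixedEmbedding.latticeBasis K) y = y - mixedEmbedding K (g : K) := by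
    intro g hg
    have h1 : y = (y - mixedEmbedding K (g : K)) + mixedEmbedding K (g : K) := by ring
    conv_lhs => rw [h1]
    rw [ZSpan.fract_add_ZSpan _ _ (mem_lat g)]
    exact ZSpan.fract_eq_self.2 hg
  have h1 := key g h
  have h2 := key g' h'
  rw [h1] at h2
  have h3 : mixedEmbedding K (g : K) = mixedEmbedding K (g' : K) := sub_right_injective h2
  exact RingOfIntegers.coe_injective (NumberField.mixedEmbedding_injective K h3)

/-- translates of the fundamental domain -/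
def TT (g : 𝓞 K) : Set (mixedSpace K) := {y | y - mixedEmbedding K (g : K) ∈ FD K}

lemma TT_eq (g : 𝓞 K) : TT g = (fun y => y + -mixedEmbedding K (g : K)) ⁻¹' FD K := by
  ext y
  unfold TT
  rw [Set.mem_ofPred_eq, Set.mem_preimage, sub_eq_add_neg]

lemma TT_meas (g : 𝓞 K) : MeasurableSet (TT g) := by
  rw [TT_eq]
  exact (measurable_add_const _) FD_meas

lemma vol_TT (g : 𝓞 K) : volume (TT g) = ENNReal.ofReal (V₀ K) := by
  rw [TT_eq, measure_preimage_add_right, vol_FD]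

/-- the product of balls -/
def BB (r : InfinitePlace K → ℝ≥0) (x : mixedSpace K) : Set (mixedSpace K) :=
  {y | ∀ w, normAtPlace w (y - x) < r w}

lemma mem_convexBodyLT (r : InfinitePlace K → ℝ≥0) (y : mixedSpace K) :
    y ∈ mixedEmbedding.convexBodyLT K r ↔ ∀ w, normAtPlace w y < r w := by
  simp only [Set.mem_prod, Set.mem_pi, Set.mem_univ, mem_ball_zero_iff, forall_true_left,
    Subtype.forall]
  constructor
  · rintro ⟨h1, h2⟩ w
    rcases isReal_or_isComplex w with hw | hw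
    · rw [mixedEmbedding.normAtPlace_apply_of_isReal hw]
      exact h1 w hw
    · rw [mixedEmbedding.normAtPlace_apply_of_isComplex hw]
      exact h2 w hw
  · intro h
    refine ⟨fun w hw => ?_, fun w hw => ?_⟩
    · have := h w
      rwa [mixedEmbedding.normAtPlace_apply_of_isReal hw] at this
    · have := h w
      rwa [mixedEmbedding.normAtPlace_apply_of_isComplex hw] at this

lemma BB_eq (r : InfinitePlace K → ℝ≥0) (x : mixedSpace K) :
    BB r x = (fun y => y + -x) ⁻¹' (mixedEmbedding.convexBodyLT K r) := by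
  ext y
  rw [Set.mem_preimage, mem_convexBodyLT, ← sub_eq_add_neg]
  rfl

lemma vol_BB (r : InfinitePlace K → ℝ≥0) (x : mixedSpace K) :
    volume (BB r x) = ENNReal.ofReal
      ((mixedEmbedding.convexBodyLTFactor K : ℝ) * ∏ w, (r w : ℝ) ^ w.mult) := by
  rw [BB_eq, measure_preimage_add_right, mixedEmbedding.convexBodyLT_volume]
  rw [ENNReal.ofReal_mul (NNReal.coe_nonneg _), ENNReal.ofReal_coe_nnreal]
  congr 1
  have : (∏ w, (r w : ℝ) ^ w.mult) = ((∏ w, (r w) ^ w.mult : ℝ≥0) : ℝ) := by push_cast; rfl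
  rw [this, ENNReal.ofReal_coe_nnreal]

/-- upper bound for the number of lattice points -/
lemma card_le (A : Finset (𝓞 K)) (r : InfinitePlace K → ℝ≥0) (x : mixedSpace K)
    (h : ∀ g ∈ A, TT g ⊆ BB r x) : (A.card : ℝ) * V₀ K ≤
      (mixedEmbedding.convexBodyLTFactor K : ℝ) * ∏ w, (r w : ℝ) ^ w.mult := by
  have h1 : volume (⋃ g ∈ A, TT g) = ∑ g ∈ A, volume (TT g) := by
    refine measure_biUnion_finset ?_ fun g _ => TT_meas g
    intro g _ g' _ hne
    refine Set.disjoint_left.2 fun y hy hy' => hne (floor_unique hy hy')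
  have h2 : volume (⋃ g ∈ A, TT g) ≤ volume (BB r x) :=
    measure_mono (Set.iUnion₂_subset h)
  rw [h1, vol_BB] at h2
  simp only [vol_TT] at h2
  rw [Finset.sum_const, nsmul_eq_mul, ← ENNReal.ofReal_natCast, ← ENNReal.ofReal_mul
    (Nat.cast_nonneg _)] at h2
  refine (ENNReal.ofReal_le_ofReal_iff ?_).1 h2
  positivity

/-- lower bound for the number of lattice points -/
lemma le_card (A : Finset (𝓞 K)) (r : InfinitePlace K → ℝ≥0) (x : mixedSpace K)
    (h : ∀ y ∈ BB r x, ∀ g : 𝓞 K, y ∈ TT g → g ∈ A) :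
    (mixedEmbedding.convexBodyLTFactor K : ℝ) * ∏ w, (r w : ℝ) ^ w.mult ≤
      (A.card : ℝ) * V₀ K := by
  have h1 : volume (⋃ g ∈ A, TT g) ≤ ∑ g ∈ A, volume (TT g) := measure_biUnion_finset_le _ _
  have h2 : volume (BB r x) ≤ volume (⋃ g ∈ A, TT g) := by
    refine measure_mono fun y hy => ?_
    obtain ⟨g, hg⟩ := exists_floor y
    exact Set.mem_iUnion₂.2 ⟨g, h y hy g hg, hg⟩
  have h3 := h2.trans h1
  rw [vol_BB] at h3
  simp only [vol_TT] at h3
  rw [Finset.sum_const, nsmul_eq_mul, ← ENNReal.ofReal_natCast, ← ENNReal.ofReal_mul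
    (Nat.cast_nonneg _)] at h3
  refine (ENNReal.ofReal_le_ofReal_iff ?_).1 h3
  have := V₀_pos (K := K)
  positivity

/-- the norm of a point of the mixed space -/
noncomputable def NX (x : mixedSpace K) : ℝ := ∏ w : InfinitePlace K, normAtPlace w x ^ w.mult

lemma NX_pos {x : mixedSpace K} (hx : ∀ w : InfinitePlace K, normAtPlace w x ≠ 0) : 0 < NX x :=
  Finset.prod_pos fun w _ =>
    pow_pos (lt_of_le_of_ne (mixedEmbedding.normAtPlace_nonneg w x) (Ne.symm (hx w))) _

lemma prod_const_mul (c : ℝ) (x : mixedSpace K) :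
    ∏ w : InfinitePlace K, (c * normAtPlace w x) ^ w.mult = c ^ DK K * NX x := by
  simp only [mul_pow]
  rw [Finset.prod_mul_distrib, Finset.prod_pow_eq_pow_sum, sum_mult]
  rfl

lemma near {ρ : ℝ} {g : 𝓞 K} {x : mixedSpace K} {w : InfinitePlace K}
    (h : normAtPlace w (mixedEmbedding K (g : K) - x) ≤ ρ * normAtPlace w x) :
    (1 - ρ) * normAtPlace w x ≤ w (g : K) ∧ w (g : K) ≤ (1 + ρ) * normAtPlace w x := by
  have h1 : normAtPlace w (mixedEmbedding K (g : K)) ≤
      normAtPlace w (mixedEmbedding K (g : K) - x) + normAtPlace w x := by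
    have := mixedEmbedding.normAtPlace_add_le w (mixedEmbedding K (g : K) - x) x
    rwa [sub_add_cancel] at this
  have h2 : normAtPlace w x ≤ normAtPlace w (mixedEmbedding K (g : K)) +
      normAtPlace w (mixedEmbedding K (g : K) - x) := by
    have := mixedEmbedding.normAtPlace_add_le w (mixedEmbedding K (g : K))
      (-(mixedEmbedding K (g : K) - x))
    rw [mixedEmbedding.normAtPlace_neg] at this
    have h3 : mixedEmbedding K (g : K) + -(mixedEmbedding K (g : K) - x) = x := by ring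
    rwa [h3] at this
  rw [mixedEmbedding.normAtPlace_apply] at h1 h2
  constructor <;> linarith

lemma near_log {ρ : ℝ} (hρ : ρ ≤ 1 / 4) {g : 𝓞 K} {x : mixedSpace K}
    {w : InfinitePlace K} (hx : normAtPlace w x ≠ 0)
    (h : normAtPlace w (mixedEmbedding K (g : K) - x) ≤ ρ * normAtPlace w x) :
    0 < w (g : K) ∧ |Real.log (w (g : K)) - Real.log (normAtPlace w x)| ≤ 1 := by
  have hx0 : 0 < normAtPlace w x :=
    lt_of_le_of_ne (mixedEmbedding.normAtPlace_nonneg w x) (Ne.symm hx)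
  obtain ⟨h1, h2⟩ := near h
  have h3 : 3 / 4 * normAtPlace w x ≤ w (g : K) := le_trans (by nlinarith) h1
  have h4 : w (g : K) ≤ 5 / 4 * normAtPlace w x := le_trans h2 (by nlinarith)
  have h5 : 0 < w (g : K) := lt_of_lt_of_le (by positivity) h3
  refine ⟨h5, ?_⟩
  rw [← Real.log_div h5.ne' hx0.ne']
  have h6 : 3 / 4 ≤ w (g : K) / normAtPlace w x := by rwa [le_div_iff₀ hx0]
  have h7 : w (g : K) / normAtPlace w x ≤ 5 / 4 := by rwa [div_le_iff₀ hx0]
  have h8 := Real.log_le_sub_one_of_pos (div_pos h5 hx0)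
  have h9 := Real.one_sub_inv_le_log_of_pos (div_pos h5 hx0)
  have h10 : (w (g : K) / normAtPlace w x)⁻¹ ≤ (3 / 4)⁻¹ := by
    apply inv_anti₀ (by norm_num) h6
  rw [abs_le]
  constructor
  · have h11 : (3 / 4 : ℝ)⁻¹ = 4 / 3 := by norm_num
    rw [h11] at h10
    linarith
  · linarith

lemma nm_near {ρ : ℝ} (hρ0 : 0 < ρ) (hρ : ρ ≤ 1 / 4) {g : 𝓞 K} {x : mixedSpace K}
    (h : ∀ w : InfinitePlace K,
      normAtPlace w (mixedEmbedding K (g : K) - x) ≤ ρ * normAtPlace w x) :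
    (1 - ρ) ^ DK K * NX x ≤ nm (g : K) ∧ nm (g : K) ≤ (1 + ρ) ^ DK K * NX x := by
  rw [nm_eq_prod, ← prod_const_mul, ← prod_const_mul]
  constructor
  · refine Finset.prod_le_prod (fun w _ => ?_) fun w _ => ?_
    · have := mixedEmbedding.normAtPlace_nonneg w x
      exact pow_nonneg (mul_nonneg (by linarith) this) _
    · have := mixedEmbedding.normAtPlace_nonneg w x
      exact pow_le_pow_left₀ (mul_nonneg (by linarith) this) (near (h w)).1 _
  · refine Finset.prod_le_prod (fun w _ => ?_) fun w _ => ?_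
    · exact pow_nonneg (apply_nonneg w _) _
    · exact pow_le_pow_left₀ (apply_nonneg w _) (near (h w)).2 _

lemma small_rho (D : ℕ) {ε : ℝ} (hε : 0 < ε) : ∃ ρ₀ : ℝ, 0 < ρ₀ ∧ ρ₀ ≤ 1 / 4 ∧
    ∀ ρ : ℝ, 0 < ρ → ρ ≤ ρ₀ → (1 + ρ) ^ D ≤ (1 + ε) * (1 - ρ) ^ D ∧
      (1 - ε) * (1 + ρ) ^ D ≤ (1 - ρ) ^ D * (1 - ρ) := by
  have h1 : ContinuousAt (fun ρ : ℝ => (1 + ε) * (1 - ρ) ^ D - (1 + ρ) ^ D) 0 := by
    fun_prop
  have h2 : ContinuousAt (fun ρ : ℝ => (1 - ρ) ^ D * (1 - ρ) - (1 - ε) * (1 + ρ) ^ D) 0 := by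
    fun_prop
  have h3 := h1.eventually (lt_mem_nhds (show (0 : ℝ) < (1 + ε) * (1 - 0) ^ D - (1 + 0) ^ D by
    simp [hε]))
  have h4 := h2.eventually (lt_mem_nhds (show (0 : ℝ) <
    (1 - 0) ^ D * (1 - 0) - (1 - ε) * (1 + 0) ^ D by simp [hε]))
  obtain ⟨r, hr, hr2⟩ := Metric.eventually_nhds_iff.1 (h3.and h4)
  refine ⟨min (r / 2) (1 / 4), by positivity, min_le_right _ _, fun ρ h0 hle => ?_⟩
  have h5 : dist ρ 0 < r := by
    rw [Real.dist_eq, sub_zero, abs_of_pos h0]
    have := min_le_left (r / 2) (1 / 4)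
    linarith
  obtain ⟨h6, h7⟩ := hr2 h5
  constructor <;> linarith

end LatBallN

open Classical in
/-- [LATBALL] -/
theorem latball (K : Type) [Field K] [NumberField K] : ∃ ν : ℝ, 0 < ν ∧ ∀ ε₃ : ℝ, 0 < ε₃ →
    ∃ ρ₀ : ℝ, 0 < ρ₀ ∧ ∀ ρ : ℝ, 0 < ρ → ρ ≤ ρ₀ → ∃ U₁ : ℝ, ∀ u Θ : ℝ, 0 < u → 2 ≤ Θ →
    U₁ ≤ u * Real.exp (-Θ) → ∃ H₁ : ℕ, ∀ H₀ : ℕ, H₁ ≤ H₀ → ∀ x : mixedSpace K,
    (∀ w : InfinitePlace K, normAtPlace w x ≠ 0) → ∀ P : ℝ,
    P = Ex (fun j : Cell K u Θ H₀ => if ∀ w : InfinitePlace K,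
      normAtPlace w (mixedEmbedding K (cg j : K) - x) ≤ ρ * normAtPlace w x then (1 : ℝ) else 0) →
    P ≤ (1 + ε₃) * (kJ K u Θ H₀ * ν * ρ ^ DK K) ∧
      (InBox u (Θ - 1) x → (1 - ε₃) * (kJ K u Θ H₀ * ν * ρ ^ DK K) ≤ P) ∧
      (¬ InBox u (Θ + 1) x → P = 0) := by
  obtain ⟨δ, hδ, hδ2⟩ := LatBallN.FD_bdd (K := K)
  have hV := LatBallN.V₀_pos (K := K)
  set C : ℝ := (mixedEmbedding.convexBodyLTFactor K : ℝ) with hC
  have hC0 : 0 < C := by
    have := mixedEmbedding.convexBodyLTFactor_ne_zero K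
    rw [hC]
    exact lt_of_le_of_ne (NNReal.coe_nonneg _) (fun h => this (by exact_mod_cast h.symm))
  refine ⟨C / LatBallN.V₀ K, by positivity, fun ε hε => ?_⟩
  obtain ⟨ρ₀, hρ₀, hρ4, hρ₀2⟩ := LatBallN.small_rho (DK K) hε
  refine ⟨ρ₀, hρ₀, fun ρ hρ hρle => ?_⟩
  obtain ⟨hρa, hρb⟩ := hρ₀2 ρ hρ hρle
  have hρ4' : ρ ≤ 1 / 4 := hρle.trans hρ4
  refine ⟨δ * Real.exp 1 / ρ ^ 2, fun u Θ hu hΘ hU => ?_⟩
  refine ⟨⌈(u * Real.exp Θ) ^ DK K / ρ⌉₊, fun H₀ hH x hx P hP => ?_⟩
  set A : Finset (𝓞 K) := (cellSet K u Θ).filter fun g => ∀ w : InfinitePlace K,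
    normAtPlace w (mixedEmbedding K (g : K) - x) ≤ ρ * normAtPlace w x with hA
  set X := LatBallN.NX x with hX
  have hX0 : 0 < X := LatBallN.NX_pos hx
  have hx0 : ∀ w : InfinitePlace K, 0 < normAtPlace w x := fun w =>
    lt_of_le_of_ne (mixedEmbedding.normAtPlace_nonneg w x) (Ne.symm (hx w))
  -- the sum
  set S : ℝ := ∑ g ∈ A, (⌊(H₀ : ℝ) / nm (g : K)⌋₊ : ℝ) with hS
  have hPS : P = S / (Fintype.card (Cell K u Θ H₀) : ℝ) := by
    rw [hP]
    unfold Ex
    congr 1
    refine (sum_cell u Θ H₀ (fun g : 𝓞 K => if ∀ w : InfinitePlace K,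
      normAtPlace w (mixedEmbedding K (g : K) - x) ≤ ρ * normAtPlace w x then (1 : ℝ)
      else 0)).trans ?_
    rw [hS, hA, Finset.sum_filter]
    refine Finset.sum_congr rfl fun g _ => ?_
    split_ifs <;> simp
  have hS0 : 0 ≤ S := Finset.sum_nonneg fun g _ => Nat.cast_nonneg _
  have hH0 : (0 : ℝ) ≤ H₀ := Nat.cast_nonneg _
  have hρD : 0 < ρ ^ DK K := pow_pos hρ _
  have h1ρ : (0 : ℝ) < 1 - ρ := by linarith
  have h1ρD : 0 < (1 - ρ) ^ DK K := pow_pos h1ρ _
  have h1ρD' : 0 < (1 + ρ) ^ DK K := pow_pos (by linarith) _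
  -- the third claim
  have hout : ¬ InBox u (Θ + 1) x → A = ∅ := by
    intro hn
    rw [Finset.eq_empty_iff_forall_notMem]
    intro g hg
    rw [hA, Finset.mem_filter, mem_cellSet] at hg
    apply hn
    intro w
    refine ⟨hx w, ?_⟩
    have h1 := (hg.1 w).2
    rw [mixedEmbedding.normAtPlace_apply] at h1
    have h2 := (LatBallN.near_log hρ4' (hx w) (hg.2 w)).2
    have h3 := abs_le.1 h1
    have h4 := abs_le.1 h2
    rw [abs_le]
    constructor <;> linarith
  -- size of `x`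
  have hbig : InBox u (Θ + 1) x → ∀ w : InfinitePlace K, δ ≤ ρ ^ 2 * normAtPlace w x := by
    intro hb w
    have h1 := (abs_le.1 (hb w).2).1
    have h2 : u * Real.exp (-Θ) * Real.exp (-1) ≤ normAtPlace w x := by
      conv_lhs => rw [← Real.exp_log hu]
      rw [← Real.exp_add, ← Real.exp_add, ← Real.le_log_iff_exp_le (hx0 w)]
      linarith
    have h3 : δ * Real.exp 1 / ρ ^ 2 * Real.exp (-1) ≤ normAtPlace w x :=
      le_trans (mul_le_mul_of_nonneg_right hU (Real.exp_pos _).le) h2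
    have h4 : δ * Real.exp 1 / ρ ^ 2 * Real.exp (-1) = δ / ρ ^ 2 := by
      rw [Real.exp_neg]
      field_simp
    rw [h4, div_le_iff₀ (by positivity)] at h3
    linarith
  -- upper bound for the number
  have hup : InBox u (Θ + 1) x →
      (A.card : ℝ) * LatBallN.V₀ K ≤ C * ((ρ * (1 + ρ)) ^ DK K * X) := by
    intro hb
    have h1 := LatBallN.card_le A
      (fun w => ⟨ρ * (1 + ρ) * normAtPlace w x, by have := (hx0 w).le; positivity⟩) x
      (by
        intro g hg y hy w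
        rw [hA, Finset.mem_filter] at hg
        have h2 := hg.2 w
        have h3 := hδ2 _ hy w
        have h4 := mixedEmbedding.normAtPlace_add_le w (y - mixedEmbedding K (g : K))
          (mixedEmbedding K (g : K) - x)
        rw [sub_add_sub_cancel] at h4
        have h5 := hbig hb w
        show normAtPlace w (y - x) < ρ * (1 + ρ) * normAtPlace w x
        nlinarith)
    refine h1.trans (le_of_eq ?_)
    rw [← LatBallN.prod_const_mul]
    rfl
  -- lower bound for the number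
  have hlow : InBox u (Θ - 1) x →
      C * ((ρ * (1 - ρ)) ^ DK K * X) ≤ (A.card : ℝ) * LatBallN.V₀ K := by
    intro hb
    have hb' : InBox u (Θ + 1) x := fun w => ⟨(hb w).1, (hb w).2.trans (by linarith)⟩
    have h1 := LatBallN.le_card A
      (fun w => ⟨ρ * (1 - ρ) * normAtPlace w x, by have := (hx0 w).le; positivity⟩) x
      (by
        intro y hy g hg
        have h6 : ∀ w : InfinitePlace K,
            normAtPlace w (mixedEmbedding K (g : K) - x) ≤ ρ * normAtPlace w x := by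
          intro w
          have h2 : normAtPlace w (y - x) < ρ * (1 - ρ) * normAtPlace w x := hy w
          have h3 := hδ2 _ hg w
          have h4 := mixedEmbedding.normAtPlace_add_le w (-(y - mixedEmbedding K (g : K)))
            (y - x)
          rw [mixedEmbedding.normAtPlace_neg, neg_sub, sub_add_sub_cancel] at h4
          have h5 := hbig hb' w
          nlinarith
        rw [hA, Finset.mem_filter, mem_cellSet]
        refine ⟨fun w => ?_, h6⟩
        obtain ⟨h7, h8⟩ := LatBallN.near_log hρ4' (hx w) (h6 w)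
        rw [mixedEmbedding.normAtPlace_apply]
        refine ⟨h7.ne', ?_⟩
        have h9 := abs_le.1 h8
        have h10 := abs_le.1 (hb w).2
        rw [abs_le]
        constructor <;> linarith)
    refine le_trans (le_of_eq ?_) h1
    rw [← LatBallN.prod_const_mul]
    rfl
  -- norms
  have hnm : ∀ g ∈ A, (1 - ρ) ^ DK K * X ≤ nm (g : K) ∧ nm (g : K) ≤ (1 + ρ) ^ DK K * X :=
    fun g hg => LatBallN.nm_near hρ hρ4' (by rw [hA, Finset.mem_filter] at hg; exact hg.2)
  have hSup : InBox u (Θ + 1) x → S ≤ (1 + ε) * (H₀ * (C / LatBallN.V₀ K) * ρ ^ DK K) := by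
    intro hb
    have h1 : S ≤ A.card * ((H₀ : ℝ) / ((1 - ρ) ^ DK K * X)) := by
      rw [hS, ← nsmul_eq_mul, ← Finset.sum_const]
      refine Finset.sum_le_sum fun g hg => ?_
      obtain ⟨h2, _⟩ := hnm g hg
      have h3 : 0 < (1 - ρ) ^ DK K * X := by positivity
      refine (Nat.floor_le (div_nonneg hH0 (h3.le.trans h2))).trans ?_
      exact div_le_div_of_nonneg_left hH0 h3 h2
    refine h1.trans ?_
    have h2 := hup hb
    rw [mul_pow] at h2
    have h3 : (A.card : ℝ) ≤ C * (ρ ^ DK K * (1 + ρ) ^ DK K * X) / LatBallN.V₀ K := by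
      rwa [le_div_iff₀ hV]
    calc (A.card : ℝ) * ((H₀ : ℝ) / ((1 - ρ) ^ DK K * X)) ≤
        C * (ρ ^ DK K * (1 + ρ) ^ DK K * X) / LatBallN.V₀ K *
          ((H₀ : ℝ) / ((1 - ρ) ^ DK K * X)) :=
          mul_le_mul_of_nonneg_right h3 (by positivity)
      _ = (H₀ * (C / LatBallN.V₀ K) * ρ ^ DK K) * ((1 + ρ) ^ DK K / (1 - ρ) ^ DK K) := by
          field_simp
      _ ≤ (H₀ * (C / LatBallN.V₀ K) * ρ ^ DK K) * (1 + ε) := by
          refine mul_le_mul_of_nonneg_left ?_ (by positivity)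
          rwa [div_le_iff₀ h1ρD]
      _ = _ := by ring
  have hSlow : InBox u (Θ - 1) x → (1 - ε) * (H₀ * (C / LatBallN.V₀ K) * ρ ^ DK K) ≤ S := by
    intro hb
    have h1 : A.card * ((1 - ρ) * ((H₀ : ℝ) / ((1 + ρ) ^ DK K * X))) ≤ S := by
      rw [hS, ← nsmul_eq_mul, ← Finset.sum_const]
      refine Finset.sum_le_sum fun g hg => ?_
      obtain ⟨h2, h2'⟩ := hnm g hg
      have h3 : 0 < (1 - ρ) ^ DK K * X := by positivity
      have h4 : 0 < nm (g : K) := lt_of_lt_of_le h3 h2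
      have h5 : nm (g : K) ≤ (u * Real.exp Θ) ^ DK K := by
        rw [nm_eq_prod, ← sum_mult K, ← Finset.prod_pow_eq_pow_sum]
        refine Finset.prod_le_prod (fun w _ => pow_nonneg (apply_nonneg w _) _) fun w _ => ?_
        refine pow_le_pow_left₀ (apply_nonneg w _) ?_ _
        rw [hA, Finset.mem_filter, mem_cellSet] at hg
        obtain ⟨h6, h7⟩ := hg.1 w
        rw [mixedEmbedding.normAtPlace_apply] at h6 h7
        have h8 : 0 < w (g : K) := lt_of_le_of_ne (apply_nonneg w _) (Ne.symm h6)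
        conv_rhs => rw [← Real.exp_log hu]
        rw [← Real.exp_add, ← Real.log_le_iff_le_exp h8]
        have := (abs_le.1 h7).2
        linarith
      have h6 : (u * Real.exp Θ) ^ DK K ≤ ρ * H₀ := by
        have := Nat.ceil_le.1 hH
        rw [div_le_iff₀ hρ] at this
        linarith
      have h7 : (H₀ : ℝ) / nm (g : K) - 1 ≤ (⌊(H₀ : ℝ) / nm (g : K)⌋₊ : ℝ) := by
        have := Nat.lt_floor_add_one ((H₀ : ℝ) / nm (g : K))
        linarith
      refine le_trans ?_ h7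
      have h8 : 1 ≤ ρ * ((H₀ : ℝ) / nm (g : K)) := by
        rw [← mul_div_assoc, le_div_iff₀ h4]
        linarith
      have h9 : (H₀ : ℝ) / ((1 + ρ) ^ DK K * X) ≤ (H₀ : ℝ) / nm (g : K) :=
        div_le_div_of_nonneg_left hH0 h4 h2'
      have h10 : (1 - ρ) * ((H₀ : ℝ) / ((1 + ρ) ^ DK K * X)) ≤
          (1 - ρ) * ((H₀ : ℝ) / nm (g : K)) := mul_le_mul_of_nonneg_left h9 h1ρ.le
      linarith
    refine le_trans ?_ h1
    have h2 := hlow hb
    rw [mul_pow] at h2
    have h3 : C * (ρ ^ DK K * (1 - ρ) ^ DK K * X) / LatBallN.V₀ K ≤ (A.card : ℝ) := by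
      rwa [div_le_iff₀ hV]
    calc (1 - ε) * (H₀ * (C / LatBallN.V₀ K) * ρ ^ DK K) ≤
        ((1 - ρ) ^ DK K * (1 - ρ) / (1 + ρ) ^ DK K) *
          (H₀ * (C / LatBallN.V₀ K) * ρ ^ DK K) := by
          refine mul_le_mul_of_nonneg_right ?_ (by positivity)
          rwa [le_div_iff₀ h1ρD']
      _ = C * (ρ ^ DK K * (1 - ρ) ^ DK K * X) / LatBallN.V₀ K *
          ((1 - ρ) * ((H₀ : ℝ) / ((1 + ρ) ^ DK K * X))) := by
          field_simp
      _ ≤ _ := mul_le_mul_of_nonneg_right h3 (by positivity)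
  have hkJ : ∀ c : ℝ, c * (kJ K u Θ H₀ * (C / LatBallN.V₀ K) * ρ ^ DK K) =
      (c * (H₀ * (C / LatBallN.V₀ K) * ρ ^ DK K)) / (Fintype.card (Cell K u Θ H₀) : ℝ) := by
    intro c
    unfold kJ
    ring
  rw [hkJ, hkJ, hPS]
  refine ⟨?_, fun hb => div_le_div_of_nonneg_right (hSlow hb) (Nat.cast_nonneg _), fun hn => ?_⟩
  · refine div_le_div_of_nonneg_right ?_ (Nat.cast_nonneg _)
    by_cases hb : InBox u (Θ + 1) x
    · exact hSup hb
    · have : S = 0 := by rw [hS, hout hb, Finset.sum_empty]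
      rw [this]
      positivity
  · have : S = 0 := by rw [hS, hout hn, Finset.sum_empty]
    rw [this, zero_div]

end Pool.Agent.H366.NK
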