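import Mathlib

/-! # [LATBOX] lattice points in large boxes -/

set_option autoImplicit false

namespace Pool.Agent.H366.NK

namespace LatBoxN

open MeasureTheory Set

variable {W : Type} [Fintype W]

/-- the unit cube with the corner `n` -/
def cell (n : W → ℤ) : Set (W → ℝ) := Set.pi Set.univ fun i => Set.Ico (n i : ℝ) ((n i : ℝ) + 1)

omit [Fintype W] in
lemma mem_cell {n : W → ℤ} {t : W → ℝ} : t ∈ cell n ↔ ∀ i, (n i : ℝ) ≤ t i ∧ t i < (n i : ℝ) + 1 := by
  unfold cell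
  rw [Set.mem_univ_pi]
  exact Iff.rfl

omit [Fintype W] in
lemma mem_cell_iff {n : W → ℤ} {t : W → ℝ} : t ∈ cell n ↔ ∀ i, ⌊t i⌋ = n i := by
  rw [mem_cell]
  exact forall_congr' fun i => Int.floor_eq_iff.symm

lemma volume_cell (n : W → ℤ) : volume (cell n) = 1 := by
  unfold cell
  rw [Real.volume_pi_Ico]
  simp

lemma measurable_cell (n : W → ℤ) : MeasurableSet (cell n) :=
  MeasurableSet.univ_pi fun _ => measurableSet_Ico

lemma volume_biUnion (S : Finset (W → ℤ)) : volume (⋃ n ∈ S, cell n) = (S.card : ENNReal) := by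
  rw [measure_biUnion_finset]
  · simp only [volume_cell, Finset.sum_const, nsmul_eq_mul, mul_one]
  · intro m _ n _ hmn
    rw [Function.onFun, Set.disjoint_left]
    intro t ht ht'
    exact hmn (funext fun i => ((mem_cell_iff.1 ht) i).symm.trans ((mem_cell_iff.1 ht') i))
  · exact fun n _ => measurable_cell n

/-- the cube with the centre `y` -/
def cube (y : W → ℝ) (ρ : ℝ) : Set (W → ℝ) := Set.Icc (fun w => y w - ρ) (fun w => y w + ρ)

omit [Fintype W] in
lemma mem_cube {y x : W → ℝ} {ρ : ℝ} : x ∈ cube y ρ ↔ ∀ w, |y w - x w| ≤ ρ := by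
  unfold cube
  rw [Set.mem_Icc, Pi.le_def, Pi.le_def, ← forall_and]
  refine forall_congr' fun w => ?_
  rw [abs_le]
  constructor
  · rintro ⟨h1, h2⟩
    constructor <;> linarith
  · rintro ⟨h1, h2⟩
    constructor <;> linarith

lemma volume_cube (y : W → ℝ) {ρ : ℝ} (hρ : 0 ≤ ρ) :
    volume (cube y ρ) = ENNReal.ofReal ((2 * ρ) ^ Fintype.card W) := by
  unfold cube
  rw [Real.volume_Icc_pi]
  have h : ∀ w : W, (y w + ρ) - (y w - ρ) = 2 * ρ := fun w => by ring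
  simp only [h, Finset.prod_const, Finset.card_univ]
  rw [ENNReal.ofReal_pow (by positivity)]

/-- the two bounds for the number of lattice points in a cube -/
lemma core (T : (W → ℝ) ≃ₗ[ℝ] (W → ℝ)) :
    ∃ c δ : ℝ, 0 < c ∧ 0 ≤ δ ∧ ∀ (y : W → ℝ) (ρ : ℝ) (S : Finset (W → ℤ)), 0 ≤ ρ →
      (∀ n, n ∈ S ↔ ∀ w, |y w - T (fun i => (n i : ℝ)) w| ≤ ρ) →
      (S.card : ℝ) ≤ c * (2 * (ρ + δ)) ^ Fintype.card W ∧
      (δ ≤ ρ → c * (2 * (ρ - δ)) ^ Fintype.card W ≤ (S.card : ℝ)) := by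
  classical
  set c : ℝ := |LinearMap.det (T.symm : (W → ℝ) →ₗ[ℝ] (W → ℝ))| with hc
  have hc0 : 0 < c := abs_pos.2 (LinearEquiv.isUnit_det' T.symm).ne_zero
  set TC : (W → ℝ) →L[ℝ] (W → ℝ) := LinearMap.toContinuousLinearMap (T : (W → ℝ) →ₗ[ℝ] (W → ℝ))
    with hTC
  have hTCa : ∀ t, TC t = T t := fun t => rfl
  set δ : ℝ := ‖TC‖ with hδ
  have hδ0 : 0 ≤ δ := norm_nonneg _
  -- points of a cell are close to the corner
  have hclose : ∀ (n : W → ℤ) (t : W → ℝ), t ∈ cell n → ∀ w,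
      |T t w - T (fun i => (n i : ℝ)) w| ≤ δ := by
    intro n t ht w
    have h1 : ‖t - fun i => (n i : ℝ)‖ ≤ 1 := by
      rw [pi_norm_le_iff_of_nonneg zero_le_one]
      intro i
      have h2 := mem_cell.1 ht i
      rw [Pi.sub_apply, Real.norm_eq_abs, abs_le]
      constructor <;> linarith [h2.1, h2.2]
    have h3 : ‖TC (t - fun i => (n i : ℝ))‖ ≤ δ := by
      refine (TC.le_opNorm _).trans ?_
      calc δ * ‖t - fun i => (n i : ℝ)‖ ≤ δ * 1 := mul_le_mul_of_nonneg_left h1 hδ0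
        _ = δ := mul_one _
    have h4 := norm_le_pi_norm (TC (t - fun i => (n i : ℝ))) w
    rw [map_sub, Pi.sub_apply, hTCa, hTCa, Real.norm_eq_abs] at h4
    rw [map_sub, hTCa, hTCa] at h3
    exact h4.trans h3
  have hvol : ∀ (y : W → ℝ) (r : ℝ), 0 ≤ r →
      volume ((T : (W → ℝ) → (W → ℝ)) ⁻¹' cube y r)
        = ENNReal.ofReal (c * (2 * r) ^ Fintype.card W) := by
    intro y r hr
    rw [Measure.addHaar_preimage_linearEquiv, volume_cube y hr, ← ENNReal.ofReal_mul (abs_nonneg _)]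
  refine ⟨c, δ, hc0, hδ0, fun y ρ S hρ hS => ⟨?_, fun hδρ => ?_⟩⟩
  · have hsub : (⋃ n ∈ S, cell n) ⊆ (T : (W → ℝ) → (W → ℝ)) ⁻¹' cube y (ρ + δ) := by
      intro t ht
      rw [Set.mem_iUnion₂] at ht
      obtain ⟨n, hn, ht⟩ := ht
      rw [Set.mem_preimage, mem_cube]
      intro w
      have h1 := (hS n).1 hn w
      have h2 := hclose n t ht w
      have h3 : y w - T t w = (y w - T (fun i => (n i : ℝ)) w)
        - (T t w - T (fun i => (n i : ℝ)) w) := by ring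
      rw [h3]
      exact (abs_sub _ _).trans (add_le_add h1 h2)
    have h4 := measure_mono (μ := volume) hsub
    rw [volume_biUnion, hvol y _ (by linarith)] at h4
    have h5 : (S.card : ENNReal) = ENNReal.ofReal (S.card : ℝ) := (ENNReal.ofReal_natCast _).symm
    rw [h5] at h4
    exact (ENNReal.ofReal_le_ofReal_iff (by positivity)).1 h4
  · have hsub : (T : (W → ℝ) → (W → ℝ)) ⁻¹' cube y (ρ - δ) ⊆ (⋃ n ∈ S, cell n) := by
      intro t ht
      rw [Set.mem_preimage, mem_cube] at ht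
      rw [Set.mem_iUnion₂]
      have hcell : t ∈ cell fun i => ⌊t i⌋ := mem_cell_iff.2 fun i => rfl
      refine ⟨fun i => ⌊t i⌋, (hS _).2 fun w => ?_, hcell⟩
      have h2 := hclose _ t hcell w
      have h3 : y w - T (fun i => ((⌊t i⌋ : ℤ) : ℝ)) w
          = (y w - T t w) + (T t w - T (fun i => ((⌊t i⌋ : ℤ) : ℝ)) w) := by ring
      rw [h3]
      have h6 := (abs_add_le _ _).trans (add_le_add (ht w) h2)
      linarith
    have h4 := measure_mono (μ := volume) hsub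
    rw [volume_biUnion, hvol y _ (by linarith)] at h4
    have h5 : (S.card : ENNReal) = ENNReal.ofReal (S.card : ℝ) := (ENNReal.ofReal_natCast _).symm
    rw [h5] at h4
    exact (ENNReal.ofReal_le_ofReal_iff (by positivity)).1 h4

/-- the quotients tend to one -/
lemma limits (a : ℝ) (r : ℕ) {ε : ℝ} (hε : 0 < ε) : ∃ Θ₁ : ℝ, 0 < Θ₁ ∧ |a| ≤ Θ₁ ∧
    ∀ Θ : ℝ, Θ₁ ≤ Θ → (2 * (Θ + a)) ^ r ≤ (1 + ε) * (2 * Θ) ^ r ∧
      (1 - ε) * (2 * Θ) ^ r ≤ (2 * (Θ - a)) ^ r := by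
  have h1 : Filter.Tendsto (fun Θ : ℝ => (1 + a / Θ) ^ r) Filter.atTop (nhds 1) := by
    have h2 : Filter.Tendsto (fun Θ : ℝ => a / Θ) Filter.atTop (nhds 0) :=
      Filter.Tendsto.div_atTop tendsto_const_nhds Filter.tendsto_id
    have h3 := ((tendsto_const_nhds (x := (1 : ℝ))).add h2).pow r
    simpa using h3
  have h1' : Filter.Tendsto (fun Θ : ℝ => (1 - a / Θ) ^ r) Filter.atTop (nhds 1) := by
    have h2 : Filter.Tendsto (fun Θ : ℝ => a / Θ) Filter.atTop (nhds 0) :=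
      Filter.Tendsto.div_atTop tendsto_const_nhds Filter.tendsto_id
    have h3 := ((tendsto_const_nhds (x := (1 : ℝ))).sub h2).pow r
    simpa using h3
  have h4 := (h1.eventually_le_const (show (1 : ℝ) < 1 + ε by linarith)).and
    ((h1'.eventually_const_le (show 1 - ε < (1 : ℝ) by linarith)).and
      ((Filter.eventually_gt_atTop (0 : ℝ)).and (Filter.eventually_ge_atTop |a|)))
  obtain ⟨Θ₁, hΘ₁⟩ := Filter.eventually_atTop.1 h4
  refine ⟨Θ₁, (hΘ₁ Θ₁ le_rfl).2.2.1, (hΘ₁ Θ₁ le_rfl).2.2.2, fun Θ hΘ => ?_⟩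
  obtain ⟨h5, h6, h7, -⟩ := hΘ₁ Θ hΘ
  have h8 : 0 ≤ (2 * Θ) ^ r := by positivity
  constructor
  · have h9 : (2 * (Θ + a)) ^ r = (1 + a / Θ) ^ r * (2 * Θ) ^ r := by
      rw [← mul_pow]
      congr 1
      field_simp
    rw [h9]
    exact mul_le_mul_of_nonneg_right h5 h8
  · have h9 : (2 * (Θ - a)) ^ r = (1 - a / Θ) ^ r * (2 * Θ) ^ r := by
      rw [← mul_pow]
      congr 1
      field_simp
    rw [h9]
    exact mul_le_mul_of_nonneg_right h6 h8

end LatBoxN

open LatBoxN in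
open Classical in
/-- [LATBOX] `L` a basis of `ℝ^W`; the number of lattice points in a large cube does not depend
much on the centre of the cube. -/
theorem latbox (W : Type) [Fintype W] [Nonempty W] (L : W → W → ℝ)
    (hL : LinearIndependent ℝ L) :
    ∃ ν : ℝ, 0 < ν ∧ ∀ ε₂ : ℝ, 0 < ε₂ → ∃ Θ₁ : ℝ, ∀ Θ : ℝ, Θ₁ ≤ Θ → ∀ R₁ : ℝ,
      ∃ N₁ : ℕ, ∀ N : ℕ, N₁ ≤ N → ∀ Θ' : ℝ, |Θ' - Θ| ≤ 1 → ∀ y : W → ℝ, (∀ w, |y w| ≤ R₁) →
      |((Finset.univ.filter fun f : W → Fin (2 * N + 1) =>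
          ∀ w, |y w - ∑ i, (((f i : ℕ) : ℝ) - N) * L i w| ≤ Θ').card : ℝ) -
        ν * Θ ^ Fintype.card W| ≤ ε₂ * (ν * Θ ^ Fintype.card W) := by
  set r := Fintype.card W with hr
  let b := basisOfLinearIndependentOfCardEqFinrank hL (by simp)
  have hb : ∀ i, b i = L i := fun i => by
    rw [coe_basisOfLinearIndependentOfCardEqFinrank]
  let T : (W → ℝ) ≃ₗ[ℝ] (W → ℝ) := b.equivFun.symm
  have hT : ∀ (t : W → ℝ) (w : W), T t w = ∑ i, t i * L i w := by
    intro t w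
    show b.equivFun.symm t w = _
    rw [Module.Basis.equivFun_symm_apply, Finset.sum_apply]
    refine Finset.sum_congr rfl fun i _ => ?_
    rw [Pi.smul_apply, hb, smul_eq_mul]
  obtain ⟨c, δ, hc, hδ, hcore⟩ := core T
  refine ⟨c * 2 ^ r, by positivity, fun ε₂ hε₂ => ?_⟩
  obtain ⟨Θ₀, hΘ₀, haΘ, hlim⟩ := limits (1 + δ) r hε₂
  rw [abs_of_nonneg (by linarith)] at haΘ
  refine ⟨Θ₀, fun Θ hΘ R₁ => ?_⟩
  -- the bound for the coefficients
  set C : ℝ := ‖(LinearMap.toContinuousLinearMap (T.symm : (W → ℝ) →ₗ[ℝ] (W → ℝ)))‖ with hC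
  have hC0 : 0 ≤ C := norm_nonneg _
  have hcoef : ∀ (t : W → ℝ) (X : ℝ), 0 ≤ X → (∀ w, |T t w| ≤ X) → ∀ i, |t i| ≤ C * X := by
    intro t X hX h i
    have h1 : ‖T t‖ ≤ X := (pi_norm_le_iff_of_nonneg hX).2 fun w => by
      rw [Real.norm_eq_abs]
      exact h w
    have h2 : ‖(LinearMap.toContinuousLinearMap (T.symm : (W → ℝ) →ₗ[ℝ] (W → ℝ))) (T t)‖
        ≤ C * ‖T t‖ := ContinuousLinearMap.le_opNorm _ _
    have h3 : (LinearMap.toContinuousLinearMap (T.symm : (W → ℝ) →ₗ[ℝ] (W → ℝ))) (T t) = t :=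
      T.symm_apply_apply t
    rw [h3] at h2
    have h4 := norm_le_pi_norm t i
    rw [Real.norm_eq_abs] at h4
    exact h4.trans (h2.trans (mul_le_mul_of_nonneg_left h1 hC0))
  obtain ⟨N₁, hN₁⟩ := exists_nat_ge (C * (|R₁| + (Θ + 1)))
  refine ⟨N₁, fun N hN Θ' hΘ' y hy => ?_⟩
  rw [abs_le] at hΘ'
  have hΘ'0 : 0 ≤ Θ' := by linarith [hΘ'.1]
  set F := Finset.univ.filter fun f : W → Fin (2 * N + 1) =>
          ∀ w, |y w - ∑ i, (((f i : ℕ) : ℝ) - N) * L i w| ≤ Θ' with hF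
  let φ : (W → Fin (2 * N + 1)) → (W → ℤ) := fun f i => ((f i : ℕ) : ℤ) - (N : ℤ)
  have hφ : Function.Injective φ := by
    intro f g h
    funext i
    have h1 := congrFun h i
    apply Fin.ext
    simp only [φ] at h1
    omega
  have hcard : (F.image φ).card = F.card := Finset.card_image_of_injective _ hφ
  have hS : ∀ n, n ∈ F.image φ ↔ ∀ w, |y w - T (fun i => (n i : ℝ)) w| ≤ Θ' := by
    intro n
    rw [Finset.mem_image]
    constructor
    · rintro ⟨f, hf, rfl⟩ w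
      rw [hF, Finset.mem_filter] at hf
      have h1 := hf.2 w
      rw [hT]
      simp only [φ]
      push_cast
      exact h1
    · intro h
      have h1 : ∀ w, |T (fun i => (n i : ℝ)) w| ≤ |R₁| + (Θ + 1) := by
        intro w
        have h2 := h w
        have h3 := hy w
        rw [abs_le] at h2 h3 ⊢
        have h4 := le_abs_self R₁
        constructor <;> linarith [h2.1, h2.2, h3.1, h3.2, hΘ'.2]
      have h5 : ∀ i, |(n i : ℝ)| ≤ N := fun i =>
        (hcoef _ _ (add_nonneg (abs_nonneg _) (by linarith)) h1 i).trans (hN₁.trans (by exact_mod_cast hN))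
      have h6 : ∀ i, -(N : ℤ) ≤ n i ∧ n i ≤ N := by
        intro i
        have h7 := abs_le.1 (h5 i)
        exact ⟨by exact_mod_cast h7.1, by exact_mod_cast h7.2⟩
      refine ⟨fun i => ⟨(n i + N).toNat, ?_⟩, ?_, ?_⟩
      · have := h6 i
        omega
      · rw [hF, Finset.mem_filter]
        refine ⟨Finset.mem_univ _, fun w => ?_⟩
        have h8 := h w
        rw [hT] at h8
        have h9 : ∀ i, (((n i + N).toNat : ℕ) : ℝ) - N = (n i : ℝ) := by
          intro i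
          have h10 : (((n i + N).toNat : ℕ) : ℤ) = n i + N := Int.toNat_of_nonneg (by
            have := h6 i
            omega)
          have h11 : (((n i + N).toNat : ℕ) : ℝ) = ((n i + N : ℤ) : ℝ) := by
            rw [← h10]
            norm_cast
          rw [h11]
          push_cast
          ring
        simp only [h9]
        exact h8
      · funext i
        simp only [φ]
        have := h6 i
        omega
  obtain ⟨hup, hlow⟩ := hcore y Θ' (F.image φ) hΘ'0 hS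
  rw [hcard] at hup hlow
  have hl := hlim Θ hΘ
  have hlow' := hlow (by linarith [hΘ'.1])
  have e1 : c * (2 * (Θ' + δ)) ^ r ≤ c * (2 * (Θ + (1 + δ))) ^ r := by
    refine mul_le_mul_of_nonneg_left (pow_le_pow_left₀ (by positivity) ?_ r) hc.le
    linarith [hΘ'.2]
  have e2 : c * (2 * (Θ - (1 + δ))) ^ r ≤ c * (2 * (Θ' - δ)) ^ r := by
    refine mul_le_mul_of_nonneg_left (pow_le_pow_left₀ ?_ ?_ r) hc.le
    · linarith
    · linarith [hΘ'.1]
  have e3 := mul_le_mul_of_nonneg_left hl.1 hc.le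
  have e4 := mul_le_mul_of_nonneg_left hl.2 hc.le
  have e5 : c * 2 ^ r * Θ ^ r = c * (2 * Θ) ^ r := by
    rw [mul_pow]
    ring
  rw [e5, abs_le]
  constructor
  · have : (F.card : ℝ) ≥ c * ((1 - ε₂) * (2 * Θ) ^ r) := by linarith
    linarith
  · have : (F.card : ℝ) ≤ c * ((1 + ε₂) * (2 * Θ) ^ r) := by linarith
    linarith

end Pool.Agent.H366.NK
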