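import Pool.Agent.H366.NK.RSN
import Pool.Agent.H366.NK.LatBox
import Pool.Agent.H366.NK.LatBall

/-! # [FLATA] the smooth weights are flat -/

set_option autoImplicit false

namespace Pool.Agent.H366.NK

open NumberField
open NumberField.mixedEmbedding (mixedSpace normAtPlace)
open Pool.Agent.H366.GF (Ex ExC)

variable {K : Type} [Field K] [NumberField K]

namespace FlatAN

open Pool.Agent.H366.GF (Ex_mono Ex_const Ex_sum Ex_mul_left Ex_mul_right Ex_equiv Ex_prod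
  Ex_nonneg Ex_comm)

section resample

variable {A B : Type} {s : ℕ}

lemma upd_self (f : Fin 3 → Fin s → A) (X : Fin 3) (i : Fin s) (a : A) : upd f X i a X i = a := by
  unfold upd
  rw [Function.update_self, Function.update_self]

lemma upd_other (f : Fin 3 → Fin s → A) {X Y : Fin 3} (h : Y ≠ X) (i : Fin s) (a : A) :
    upd f X i a Y = f Y := by
  unfold upd
  rw [Function.update_of_ne h]

lemma upd_ne (f : Fin 3 → Fin s → A) (X : Fin 3) {i k : Fin s} (h : k ≠ i) (a : A) :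
    upd f X i a X k = f X k := by
  unfold upd
  rw [Function.update_self, Function.update_of_ne h]

lemma upd_upd (f : Fin 3 → Fin s → A) (X : Fin 3) (i : Fin s) (a : A) :
    upd (upd f X i a) X i (f X i) = f := by
  unfold upd
  rw [Function.update_self, Function.update_idem, Function.update_idem,
    Function.update_eq_self, Function.update_eq_self]

lemma upd_comm (f : Fin 3 → Fin s → A) {X Y : Fin 3} (h : X ≠ Y) (i j : Fin s) (a b : A) :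
    upd (upd f X i a) Y j b = upd (upd f Y j b) X i a := by
  unfold upd
  rw [Function.update_of_ne h.symm, Function.update_of_ne h, Function.update_comm h]

lemma comp_upd (φ : A → B) (f : Fin 3 → Fin s → A) (X : Fin 3) (i : Fin s) (a : A) :
    (fun Y k => φ (upd f X i a Y k)) = upd (fun Y k => φ (f Y k)) X i (φ a) := by
  funext Y k
  by_cases hY : Y = X
  · subst hY
    by_cases hk : k = i
    · subst hk
      rw [upd_self, upd_self]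
    · rw [upd_ne _ _ hk, upd_ne _ _ hk]
  · rw [upd_other _ hY, upd_other _ hY]

/-- exchange of a coordinate -/
def swp (X : Fin 3) (i : Fin s) : ((Fin 3 → Fin s → A) × A) ≃ ((Fin 3 → Fin s → A) × A) where
  toFun p := (upd p.1 X i p.2, p.1 X i)
  invFun p := (upd p.1 X i p.2, p.1 X i)
  left_inv p := by
    obtain ⟨w, h⟩ := p
    simp only [upd_upd, upd_self]
  right_inv p := by
    obtain ⟨w, h⟩ := p
    simp only [upd_upd, upd_self]

variable [Fintype A] [Nonempty A]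

lemma Ex_upd (X : Fin 3) (i : Fin s) (G : (Fin 3 → Fin s → A) → ℝ) :
    Ex G = Ex (fun w => Ex (fun a => G (upd w X i a))) := by
  rw [← Ex_prod (fun p : (Fin 3 → Fin s → A) × A => G (upd p.1 X i p.2))]
  have h1 := Ex_equiv (swp (A := A) X i) (fun p => G p.1)
  have h2 : Ex (fun p : (Fin 3 → Fin s → A) × A => G p.1) = Ex G := by
    rw [Ex_prod]
    simp only [Ex_const]
  rw [← h2, ← h1]
  rfl

omit [Fintype A] [Nonempty A] in
lemma pw_upd (V : Fin 3 → Finset (Fin s)) (z w : Fin 3 → Fin s → A) {X : Fin 3} {i : Fin s}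
    (hi : i ∉ V X) (a : A) :
    (fun Y => (V Y).piecewise (z Y) (upd w X i a Y)) =
      upd (fun Y => (V Y).piecewise (z Y) (w Y)) X i a := by
  funext Y
  by_cases hY : Y = X
  · subst hY
    funext k
    by_cases hk : k = i
    · subst hk
      rw [Finset.piecewise_eq_of_notMem _ _ _ hi, upd_self, upd_self]
    · rw [upd_ne _ _ hk]
      by_cases hkV : k ∈ V Y
      · rw [Finset.piecewise_eq_of_mem _ _ _ hkV, Finset.piecewise_eq_of_mem _ _ _ hkV]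
      · rw [Finset.piecewise_eq_of_notMem _ _ _ hkV, Finset.piecewise_eq_of_notMem _ _ _ hkV,
          upd_ne _ _ hk]
  · rw [upd_other _ hY, upd_other _ hY]

lemma avg (i₀ i₁ : Fin s) (F : (Fin 3 → Fin s → A) → ℝ) (V : Fin 3 → Finset (Fin s))
    (h0 : i₀ ∉ V 0) (h1 : i₁ ∉ V 1) (z : Fin 3 → Fin s → A) (e : ℝ)
    (hB : ∀ w, |Ex (fun b => Ex (fun a => F (upd (upd w 1 i₁ b) 0 i₀ a))) - 1| ≤ e) :
    |Ex (fun z' : Fin 3 → Fin s → A => F (fun X => (V X).piecewise (z X) (z' X))) - 1| ≤ e := by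
  rw [Ex_upd 0 i₀, Ex_upd 1 i₁]
  have h2 : ∀ (w : Fin 3 → Fin s → A) (b a : A),
      (fun X => (V X).piecewise (z X) (upd (upd w 1 i₁ b) 0 i₀ a X)) =
        upd (upd (fun X => (V X).piecewise (z X) (w X)) 1 i₁ b) 0 i₀ a := by
    intro w b a
    rw [pw_upd V z _ h0, pw_upd V z _ h1]
  simp only [h2]
  rw [abs_le]
  have h3 : ∀ w, 1 - e ≤ Ex (fun b => Ex (fun a => F (upd (upd w 1 i₁ b) 0 i₀ a))) ∧
      Ex (fun b => Ex (fun a => F (upd (upd w 1 i₁ b) 0 i₀ a))) ≤ 1 + e := by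
    intro w
    have := abs_le.1 (hB w)
    constructor <;> linarith [this.1, this.2]
  constructor
  · have h4 : Ex (fun _ : Fin 3 → Fin s → A => (1 - e)) ≤
        Ex (fun w : Fin 3 → Fin s → A => Ex (fun b => Ex (fun a =>
          F (upd (upd (fun X => (V X).piecewise (z X) (w X)) 1 i₁ b) 0 i₀ a)))) :=
      Ex_mono fun w => (h3 _).1
    rw [Ex_const] at h4
    linarith
  · have h4 : Ex (fun w : Fin 3 → Fin s → A => Ex (fun b => Ex (fun a =>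
          F (upd (upd (fun X => (V X).piecewise (z X) (w X)) 1 i₁ b) 0 i₀ a)))) ≤
        Ex (fun _ : Fin 3 → Fin s → A => (1 + e)) :=
      Ex_mono fun w => (h3 _).2
    rw [Ex_const] at h4
    linarith

end resample

/-! ### separation of the residues -/

section sep

variable {U J H : Type} [Fintype U] [Fintype J] [Fintype H] [Nonempty H]

/-- the averages over the residues and over the cells separate -/
lemma sep_eq (R : U → U → ℝ) (ρ : ℝ) (hρ : Ex (fun p : U × U => R p.1 p.2) = ρ) (hρ0 : ρ ≠ 0)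
    (g : J → ℝ) :
    Ex (fun b : U × J × H => Ex (fun a : U => R a b.1 / ρ * g b.2.1)) = Ex g := by
  have h1 : ∀ b : U × J × H, Ex (fun a : U => R a b.1 / ρ * g b.2.1) =
      Ex (fun a : U => R a b.1 / ρ) * g b.2.1 := fun b => Ex_mul_right _ _
  simp only [h1]
  rw [Ex_prod]
  have h2 : ∀ b : U, Ex (fun y : J × H => Ex (fun a : U => R a b / ρ) * g y.1) =
      Ex (fun a : U => R a b / ρ) * Ex g := by
    intro b
    rw [Ex_mul_left, Ex_prod]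
    simp only [Ex_const]
  simp only [h2]
  rw [Ex_mul_right]
  have h3 : Ex (fun b : U => Ex (fun a : U => R a b / ρ)) = 1 := by
    rw [Ex_comm, ← Ex_prod (fun p : U × U => R p.1 p.2 / ρ)]
    have : (fun p : U × U => R p.1 p.2 / ρ) = fun p : U × U => ρ⁻¹ * R p.1 p.2 := by
      funext p
      rw [div_eq_mul_inv, mul_comm]
    rw [this, Ex_mul_left, hρ, inv_mul_cancel₀ hρ0]
  rw [h3, one_mul]

lemma sep_le (R : U → U → ℝ) (hR : ∀ a b, 0 ≤ R a b) (ρ : ℝ)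
    (hρ : Ex (fun p : U × U => R p.1 p.2) = ρ) (hρ0 : 0 < ρ) (g : J → ℝ)
    (W : U × J × H → U → ℝ) (hW : ∀ b a, W b a ≤ g b.2.1) :
    Ex (fun b : U × J × H => Ex (fun a : U => R a b.1 / ρ * W b a)) ≤ Ex g := by
  rw [← sep_eq (H := H) R ρ hρ hρ0.ne' g]
  exact Ex_mono fun b => Ex_mono fun a =>
    mul_le_mul_of_nonneg_left (hW b a) (div_nonneg (hR _ _) hρ0.le)

lemma le_sep (R : U → U → ℝ) (hR : ∀ a b, 0 ≤ R a b) (ρ : ℝ)
    (hρ : Ex (fun p : U × U => R p.1 p.2) = ρ) (hρ0 : 0 < ρ) (g : J → ℝ)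
    (W : U × J × H → U → ℝ) (hW : ∀ b a, g b.2.1 ≤ W b a) :
    Ex g ≤ Ex (fun b : U × J × H => Ex (fun a : U => R a b.1 / ρ * W b a)) := by
  rw [← sep_eq (H := H) R ρ hρ hρ0.ne' g]
  exact Ex_mono fun b => Ex_mono fun a =>
    mul_le_mul_of_nonneg_left (hW b a) (div_nonneg (hR _ _) hρ0.le)

end sep

/-! ### the final summation -/

section fin

variable {F₀ F₁ J : Type} [Fintype F₀] [Fintype F₁] [Fintype J]

lemma sum_up (δ kj a₁ p₁ a₂ : ℝ) (hδ : 0 < δ) (hkj : 0 < kj) (ha₁ : 0 < a₁) (hp₁ : 0 < p₁)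
    (T : F₀ × F₁ → ℝ) (tc : F₁ → J → Prop) (out1 : F₀ → F₁ → J → Prop) (out2 : F₁ → Prop)
    [∀ f j, Decidable (tc f j)] [∀ f g j, Decidable (out1 f g j)] [∀ f, Decidable (out2 f)]
    (hT : ∀ f, T f ≤ Ex fun j : J => if tc f.2 j then
      (if out1 f.1 f.2 j then (1 + δ) * kj else 0) else 0)
    (hc1 : ∀ f₁ j, tc f₁ j → ∑ f₀, (if out1 f₀ f₁ j then (1 : ℝ) else 0) ≤ (1 + δ) * a₁)
    (hP : ∀ f₁, (Ex fun j : J => if tc f₁ j then (1 : ℝ) else 0) ≤ (1 + δ) * p₁)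
    (hP0 : ∀ f₁, ¬ out2 f₁ → (Ex fun j : J => if tc f₁ j then (1 : ℝ) else 0) = 0)
    (hc2 : ∑ f₁, (if out2 f₁ then (1 : ℝ) else 0) ≤ (1 + δ) * a₂) :
    ∑ f, T f ≤ (1 + δ) ^ 4 * (kj * a₁ * p₁ * a₂) := by
  have h1 : ∑ f, T f ≤ ∑ f₁ : F₁, ∑ f₀ : F₀, Ex fun j : J => if tc f₁ j then
      (if out1 f₀ f₁ j then (1 + δ) * kj else 0) else 0 := by
    rw [Finset.sum_comm, ← Finset.sum_product' (f := fun f₀ f₁ => Ex fun j : J => if tc f₁ j then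
      (if out1 f₀ f₁ j then (1 + δ) * kj else 0) else 0)]
    exact Finset.sum_le_sum fun f _ => hT f
  have h2 : ∀ f₁ : F₁, (∑ f₀ : F₀, Ex fun j : J => if tc f₁ j then
      (if out1 f₀ f₁ j then (1 + δ) * kj else 0) else 0) ≤
      (1 + δ) ^ 2 * (kj * a₁) * (Ex fun j : J => if tc f₁ j then (1 : ℝ) else 0) := by
    intro f₁
    rw [← Ex_sum, ← Ex_mul_left]
    refine Ex_mono fun j => ?_
    by_cases h : tc f₁ j
    · simp only [if_pos h]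
      have h3 : ∀ f₀ : F₀, (if out1 f₀ f₁ j then (1 + δ) * kj else 0) =
          ((1 + δ) * kj) * (if out1 f₀ f₁ j then (1 : ℝ) else 0) := by
        intro f₀
        split_ifs <;> ring
      simp only [h3]
      rw [← Finset.mul_sum]
      have := mul_le_mul_of_nonneg_left (hc1 f₁ j h) (by positivity : 0 ≤ (1 + δ) * kj)
      linarith
    · simp only [if_neg h]
      simp
  have h3 : ∀ f₁ : F₁, (Ex fun j : J => if tc f₁ j then (1 : ℝ) else 0) ≤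
      (1 + δ) * p₁ * (if out2 f₁ then (1 : ℝ) else 0) := by
    intro f₁
    by_cases h : out2 f₁
    · rw [if_pos h, mul_one]
      exact hP f₁
    · rw [if_neg h, mul_zero]
      exact (hP0 f₁ h).le
  refine h1.trans ((Finset.sum_le_sum fun f₁ _ => (h2 f₁).trans
    (mul_le_mul_of_nonneg_left (h3 f₁) (by positivity))).trans ?_)
  rw [← Finset.mul_sum, ← Finset.mul_sum]
  have h4 := mul_le_mul_of_nonneg_left hc2
    (by positivity : 0 ≤ (1 + δ) ^ 2 * (kj * a₁) * ((1 + δ) * p₁))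
  have h5 : (1 + δ) ^ 4 * (kj * a₁ * p₁ * a₂) =
      (1 + δ) ^ 2 * (kj * a₁) * ((1 + δ) * p₁) * ((1 + δ) * a₂) := by ring
  rw [h5]
  linarith

lemma le_sum (δ kj a₁ p₁ a₂ : ℝ) (hδ1 : δ < 1) (hkj : 0 < kj) (ha₁ : 0 < a₁)
    (hp₁ : 0 < p₁)
    (T : F₀ × F₁ → ℝ) (tc : F₁ → J → Prop) (in1 : F₀ → F₁ → J → Prop) (in2 : F₁ → Prop)
    [∀ f j, Decidable (tc f j)] [∀ f g j, Decidable (in1 f g j)] [∀ f, Decidable (in2 f)]
    (hT : ∀ f, (Ex fun j : J => if tc f.2 j then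
      (if in1 f.1 f.2 j then (1 - δ) * kj else 0) else 0) ≤ T f)
    (hc1 : ∀ f₁ j, tc f₁ j → (1 - δ) * a₁ ≤ ∑ f₀, (if in1 f₀ f₁ j then (1 : ℝ) else 0))
    (hP : ∀ f₁, in2 f₁ → (1 - δ) * p₁ ≤ (Ex fun j : J => if tc f₁ j then (1 : ℝ) else 0))
    (hc2 : (1 - δ) * a₂ ≤ ∑ f₁, (if in2 f₁ then (1 : ℝ) else 0)) :
    (1 - δ) ^ 4 * (kj * a₁ * p₁ * a₂) ≤ ∑ f, T f := by
  have hd : 0 < 1 - δ := by linarith
  have h1 : (∑ f₁ : F₁, ∑ f₀ : F₀, Ex fun j : J => if tc f₁ j then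
      (if in1 f₀ f₁ j then (1 - δ) * kj else 0) else 0) ≤ ∑ f, T f := by
    rw [Finset.sum_comm, ← Finset.sum_product' (f := fun f₀ f₁ => Ex fun j : J => if tc f₁ j then
      (if in1 f₀ f₁ j then (1 - δ) * kj else 0) else 0)]
    exact Finset.sum_le_sum fun f _ => hT f
  have h2 : ∀ f₁ : F₁, (1 - δ) ^ 2 * (kj * a₁) *
      (Ex fun j : J => if tc f₁ j then (1 : ℝ) else 0) ≤ (∑ f₀ : F₀, Ex fun j : J => if tc f₁ j then
      (if in1 f₀ f₁ j then (1 - δ) * kj else 0) else 0) := by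
    intro f₁
    rw [← Ex_sum, ← Ex_mul_left]
    refine Ex_mono fun j => ?_
    by_cases h : tc f₁ j
    · simp only [if_pos h]
      have h3 : ∀ f₀ : F₀, (if in1 f₀ f₁ j then (1 - δ) * kj else 0) =
          ((1 - δ) * kj) * (if in1 f₀ f₁ j then (1 : ℝ) else 0) := by
        intro f₀
        split_ifs <;> ring
      simp only [h3]
      rw [← Finset.mul_sum]
      have := mul_le_mul_of_nonneg_left (hc1 f₁ j h) (by positivity : 0 ≤ (1 - δ) * kj)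
      linarith
    · simp only [if_neg h]
      simp
  have h3 : ∀ f₁ : F₁, (1 - δ) * p₁ * (if in2 f₁ then (1 : ℝ) else 0) ≤
      (Ex fun j : J => if tc f₁ j then (1 : ℝ) else 0) := by
    intro f₁
    by_cases h : in2 f₁
    · rw [if_pos h, mul_one]
      exact hP f₁ h
    · rw [if_neg h, mul_zero]
      exact Ex_nonneg fun j => by split_ifs <;> norm_num
  refine le_trans ?_ (le_trans (Finset.sum_le_sum fun f₁ _ =>
    (mul_le_mul_of_nonneg_left (h3 f₁) (by positivity)).trans (h2 f₁)) h1)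
  rw [← Finset.mul_sum, ← Finset.mul_sum]
  have h4 := mul_le_mul_of_nonneg_left hc2
    (by positivity : 0 ≤ (1 - δ) ^ 2 * (kj * a₁) * ((1 - δ) * p₁))
  have h5 : (1 - δ) ^ 4 * (kj * a₁ * p₁ * a₂) =
      (1 - δ) ^ 2 * (kj * a₁) * ((1 - δ) * p₁) * ((1 - δ) * a₂) := by ring
  rw [h5]
  linarith

end fin

/-! ### the weights -/

section weights

variable {u Θ : ℝ} {H₀ q d s : ℕ}

lemma nm_nonneg (x : K) : 0 ≤ nm x := abs_nonneg _

lemma NN_nonneg (s q d : ℕ) (M : 𝓞 K) (g : Fin s → 𝓞 K) : 0 ≤ NN s q d M g := by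
  unfold NN
  have := nm_nonneg (M : K)
  have h2 : 0 ≤ ∏ i, nm (g i : K) := Finset.prod_nonneg fun i _ => nm_nonneg _
  positivity

lemma Ws_nonneg (s q d K' : ℕ) (M : Fin 3 → 𝓞 K) (v g : Fin 3 → Fin s → 𝓞 K)
    (z : Fin 3 → Fin s → JJ K → Fin (2 ^ d)) : 0 ≤ Ws s q d K' M v g z := by
  unfold Ws
  split_ifs
  · exact div_nonneg (NN_nonneg _ _ _ _ _) (by positivity)
  · exact le_rfl

lemma TC_congr (τ : mixedSpace K) (ρ : ℝ) (M M' : Fin 3 → 𝓞 K) (g g' : Fin 3 → Fin s → 𝓞 K)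
    (h1 : g 1 = g' 1) (h2 : g 2 = g' 2) (h3 : M 1 = M' 1) (h4 : M 2 = M' 2) :
    TC τ ρ M g ↔ TC τ ρ M' g' := by
  unfold TC
  rw [h1, h2, h3, h4]

open Classical in
lemma Wm_eq (K' : ℕ) (τ : mixedSpace K) (ρ : ℝ) (M : Fin 3 → 𝓞 K)
    (w : Fin 3 → Fin s → Slot K u Θ H₀ q d) (i₀ i₁ : Fin s) (b : Slot K u Θ H₀ q d) (a : Uq K q)
    (p : Cell K u Θ H₀ × (JJ K → Fin (2 ^ d))) :
    Wm K' τ ρ M (upd (upd w 1 i₁ b) 0 i₀ (a, p)) =
      (if Rel s q M (fun X i => rv (upd (upd (fun X i => (w X i).1) 0 i₀ a) 1 i₁ b.1 X i))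
        then (1 : ℝ) else 0) / rhoq q M *
      (if TC τ ρ M (fun X i => cg (upd (fun X i => (w X i).2.1) 1 i₁ b.2.1 X i)) then
        Ws s q d K' M (fun X i => rv (upd (upd (fun X i => (w X i).1) 0 i₀ a) 1 i₁ b.1 X i))
          (fun X i => cg (upd (upd (fun X i => (w X i).2.1) 1 i₁ b.2.1) 0 i₀ p.1 X i))
          (upd (upd (fun X i => (w X i).2.2) 1 i₁ b.2.2) 0 i₀ p.2) else 0) := by
  have e1 : sv (upd (upd w 1 i₁ b) 0 i₀ (a, p)) =
      fun X i => rv (upd (upd (fun X i => (w X i).1) 0 i₀ a) 1 i₁ b.1 X i) := by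
    have h1 := comp_upd (fun t : Slot K u Θ H₀ q d => t.1) (upd w 1 i₁ b) 0 i₀ (a, p)
    have h2 := comp_upd (fun t : Slot K u Θ H₀ q d => t.1) w 1 i₁ b
    rw [h2] at h1
    have h3 := h1.trans (upd_comm _ (by decide : (1 : Fin 3) ≠ 0) i₁ i₀ b.1 a)
    unfold sv
    funext X i
    exact congrArg rv (congrFun (congrFun h3 X) i)
  have e2 : sg (upd (upd w 1 i₁ b) 0 i₀ (a, p)) =
      fun X i => cg (upd (upd (fun X i => (w X i).2.1) 1 i₁ b.2.1) 0 i₀ p.1 X i) := by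
    have h1 := comp_upd (fun t : Slot K u Θ H₀ q d => t.2.1) (upd w 1 i₁ b) 0 i₀ (a, p)
    have h2 := comp_upd (fun t : Slot K u Θ H₀ q d => t.2.1) w 1 i₁ b
    rw [h2] at h1
    unfold sg
    funext X i
    exact congrArg cg (congrFun (congrFun h1 X) i)
  have e3 : sh (upd (upd w 1 i₁ b) 0 i₀ (a, p)) =
      upd (upd (fun X i => (w X i).2.2) 1 i₁ b.2.2) 0 i₀ p.2 := by
    have h1 := comp_upd (fun t : Slot K u Θ H₀ q d => t.2.2) (upd w 1 i₁ b) 0 i₀ (a, p)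
    have h2 := comp_upd (fun t : Slot K u Θ H₀ q d => t.2.2) w 1 i₁ b
    rw [h2] at h1
    exact h1
  have e4 : TC τ ρ M (sg (upd (upd w 1 i₁ b) 0 i₀ (a, p))) ↔
      TC τ ρ M (fun X i => cg (upd (fun X i => (w X i).2.1) 1 i₁ b.2.1 X i)) := by
    rw [e2]
    refine TC_congr _ _ _ _ _ _ ?_ ?_ rfl rfl
    · simp only [upd_other _ (by decide : (1 : Fin 3) ≠ 0)]
    · simp only [upd_other _ (by decide : (2 : Fin 3) ≠ 0)]
  unfold Wm
  rw [e1, e3]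
  by_cases hR : Rel s q M
      (fun X i => rv (upd (upd (fun X i => (w X i).1) 0 i₀ a) 1 i₁ b.1 X i))
  · by_cases hTC : TC τ ρ M (fun X i => cg (upd (fun X i => (w X i).2.1) 1 i₁ b.2.1 X i))
    · rw [if_pos ⟨hR, e4.2 hTC⟩, if_pos hR, if_pos hTC, e2]
      ring
    · rw [if_neg (fun h => hTC (e4.1 h.2)), if_neg hTC, mul_zero]
  · rw [if_neg (fun h => hR h.1), if_neg hR, zero_div, zero_mul]

end weights

/-! ### places -/

section places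

variable {u Θ : ℝ} {H₀ s : ℕ}

lemma place_pos {x : 𝓞 K} (hx : x ≠ 0) (w : InfinitePlace K) : 0 < w (x : K) := by
  rw [InfinitePlace.pos_iff]
  exact RingOfIntegers.coe_ne_zero_iff.2 hx

lemma cg_ne (j : Cell K u Θ H₀) : cg j ≠ 0 := by
  intro h
  obtain ⟨w⟩ : Nonempty (InfinitePlace K) := inferInstance
  have := (cg_inBox j w).1
  rw [mixedEmbedding.normAtPlace_apply, h] at this
  exact this (by simp)

lemma log_cg (j : Cell K u Θ H₀) (w : InfinitePlace K) :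
    |Real.log (w (cg j : K)) - Real.log u| ≤ Θ := by
  have := (cg_inBox j w).2
  rwa [mixedEmbedding.normAtPlace_apply] at this

lemma coe_prod (S : Finset (Fin s)) (g : Fin s → 𝓞 K) :
    ((∏ i ∈ S, g i : 𝓞 K) : K) = ∏ i ∈ S, (g i : K) := map_prod (algebraMap (𝓞 K) K) _ _

lemma place_prod (S : Finset (Fin s)) (g : Fin s → 𝓞 K) (w : InfinitePlace K) :
    w ((∏ i ∈ S, g i : 𝓞 K) : K) = ∏ i ∈ S, w (g i : K) := by
  rw [coe_prod, map_prod]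

lemma prod_cg_ne (S : Finset (Fin s)) (j : Fin s → Cell K u Θ H₀) :
    (∏ i ∈ S, cg (j i)) ≠ 0 := Finset.prod_ne_zero_iff.2 fun i _ => cg_ne _

/-- the size of a product of cells -/
lemma log_prod_cg (S : Finset (Fin s)) (j : Fin s → Cell K u Θ H₀) (w : InfinitePlace K) :
    |Real.log (w ((∏ i ∈ S, cg (j i) : 𝓞 K) : K)) - S.card * Real.log u| ≤ S.card * Θ := by
  rw [place_prod, Real.log_prod fun i _ => (place_pos (cg_ne (j i)) w).ne']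
  have h1 : ∑ i ∈ S, Real.log (w (cg (j i) : K)) - S.card * Real.log u =
      ∑ i ∈ S, (Real.log (w (cg (j i) : K)) - Real.log u) := by
    rw [Finset.sum_sub_distrib, Finset.sum_const, nsmul_eq_mul]
  rw [h1]
  refine (Finset.abs_sum_le_sum_abs _ _).trans ?_
  refine (Finset.sum_le_sum fun i _ => log_cg (j i) w).trans ?_
  rw [Finset.sum_const, nsmul_eq_mul]

/-- the size of a multiplier -/
lemma log_mult (m : 𝓞 K) (hm : m ≠ 0) (α : InfinitePlace K → 𝓞 K) (hα : ∀ i, α i ≠ 0)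
    (f : InfinitePlace K → ℕ) (w : InfinitePlace K) :
    Real.log (w ((m * ∏ i, α i ^ f i : 𝓞 K) : K)) =
      Real.log (w (m : K)) + ∑ i, (f i : ℝ) * Real.log (w (α i : K)) := by
  have h1 : ((m * ∏ i, α i ^ f i : 𝓞 K) : K) = (m : K) * ∏ i, (α i : K) ^ f i := by
    push_cast
    rfl
  rw [h1, map_mul, map_prod]
  simp only [map_pow]
  rw [Real.log_mul (place_pos hm w).ne' (Finset.prod_ne_zero_iff.2 fun i _ =>
    pow_ne_zero _ (place_pos (hα i) w).ne'), Real.log_prod fun i _ =>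
    pow_ne_zero _ (place_pos (hα i) w).ne']
  simp only [Real.log_pow]

/-- a point of the box in terms of the exponents -/
lemma inBox_iff (Θ' : ℝ) {N : ℕ} (L : InfinitePlace K → InfinitePlace K → ℝ)
    (f : InfinitePlace K → Fin (2 * N + 1)) (y : mixedSpace K) (c : InfinitePlace K → ℝ)
    (hne : ∀ w, normAtPlace w y ≠ 0)
    (hy : ∀ w, Real.log (normAtPlace w y) = c w - ∑ i, ((f i : ℕ) : ℝ) * L i w) :
    InBox u Θ' y ↔ ∀ w, |(c w - N * ∑ i, L i w - Real.log u) -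
      ∑ i, (((f i : ℕ) : ℝ) - N) * L i w| ≤ Θ' := by
  unfold InBox
  refine forall_congr' fun w => ?_
  have h1 : Real.log (normAtPlace w y) - Real.log u = (c w - N * ∑ i, L i w - Real.log u) -
      ∑ i, (((f i : ℕ) : ℝ) - N) * L i w := by
    rw [hy]
    simp only [sub_mul]
    rw [Finset.sum_sub_distrib, ← Finset.mul_sum]
    ring
  rw [h1]
  exact ⟨fun h => h.2, fun h => ⟨hne w, h⟩⟩

open Classical in
/-- counting the exponents -/
lemma count (Θ' : ℝ) {N : ℕ} (L : InfinitePlace K → InfinitePlace K → ℝ)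
    (y : (InfinitePlace K → Fin (2 * N + 1)) → mixedSpace K) (c : InfinitePlace K → ℝ)
    (hne : ∀ f w, normAtPlace w (y f) ≠ 0)
    (hy : ∀ f w, Real.log (normAtPlace w (y f)) = c w - ∑ i, ((f i : ℕ) : ℝ) * L i w) :
    ∑ f, (if InBox u Θ' (y f) then (1 : ℝ) else 0) =
      ((Finset.univ.filter fun f : InfinitePlace K → Fin (2 * N + 1) =>
          ∀ w, |(c w - N * ∑ i, L i w - Real.log u) -
            ∑ i, (((f i : ℕ) : ℝ) - N) * L i w| ≤ Θ').card : ℝ) := by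
  rw [Finset.card_filter]
  push_cast
  refine Finset.sum_congr rfl fun f _ => ?_
  by_cases h : InBox u Θ' (y f)
  · rw [if_pos h, if_pos ((inBox_iff Θ' L f (y f) c (hne f) (hy f)).1 h)]
  · rw [if_neg h, if_neg fun h' => h ((inBox_iff Θ' L f (y f) c (hne f) (hy f)).2 h')]

lemma emb_aux (P1 P2 C : K) (h1 : P1 ≠ 0) (h2 : P2 ≠ 0) (τ : mixedSpace K) :
    mixedEmbedding K (P1 * C / P2) - τ =
      mixedEmbedding K (P1 / P2) * (mixedEmbedding K C - mixedEmbedding K (P2 / P1) * τ) := by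
  have e5 : P1 / P2 * (P2 / P1) = 1 := by field_simp
  have e6 : P1 / P2 * C = P1 * C / P2 := by ring
  have e7 : mixedEmbedding K (P1 / P2) * (mixedEmbedding K (P2 / P1) * τ) = τ := by
    rw [← mul_assoc, ← map_mul, e5, map_one, one_mul]
  rw [mul_sub, e7, ← map_mul, e6]

lemma nap_aux (P1 P2 : K) (h1 : P1 ≠ 0) (h2 : P2 ≠ 0) (τ : mixedSpace K) (w : InfinitePlace K) :
    normAtPlace w τ = w (P1 / P2) * normAtPlace w (mixedEmbedding K (P2 / P1) * τ) := by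
  have e5 : P1 / P2 * (P2 / P1) = 1 := by field_simp
  rw [map_mul, mixedEmbedding.normAtPlace_apply, ← mul_assoc, ← map_mul, e5, map_one, one_mul]

/-- the condition `TC` in terms of the cell of one slot -/
lemma tc_ball (M : Fin 3 → 𝓞 K) (h1 : M 1 ≠ 0) (h2 : M 2 ≠ 0)
    (jj : Fin 3 → Fin s → Cell K u Θ H₀) (i₁ : Fin s) (j₁ : Cell K u Θ H₀) (τ : mixedSpace K)
    (ρ : ℝ) (xx : mixedSpace K)
    (hxx : xx = mixedEmbedding K (((M 2 * ∏ i, cg (jj 2 i) : 𝓞 K) : K) /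
      ((M 1 * ∏ i ∈ Finset.univ.erase i₁, cg (jj 1 i) : 𝓞 K) : K)) * τ) :
    TC τ ρ M (fun X i => cg (upd jj 1 i₁ j₁ X i)) ↔ ∀ w : InfinitePlace K,
      normAtPlace w (mixedEmbedding K (cg j₁ : K) - xx) ≤ ρ * normAtPlace w xx := by
  have hP1 : (((M 1 * ∏ i ∈ Finset.univ.erase i₁, cg (jj 1 i) : 𝓞 K)) : K) ≠ 0 :=
    RingOfIntegers.coe_ne_zero_iff.2 (mul_ne_zero h1 (prod_cg_ne _ _))
  have hP2 : (((M 2 * ∏ i, cg (jj 2 i) : 𝓞 K)) : K) ≠ 0 :=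
    RingOfIntegers.coe_ne_zero_iff.2 (mul_ne_zero h2 (prod_cg_ne _ _))
  have e1 : ((M 1 * ∏ i, cg (upd jj 1 i₁ j₁ 1 i) : 𝓞 K) : K) =
      ((M 1 * ∏ i ∈ Finset.univ.erase i₁, cg (jj 1 i) : 𝓞 K) : K) * (cg j₁ : K) := by
    have : (∏ i, cg (upd jj 1 i₁ j₁ 1 i)) =
        (∏ i ∈ Finset.univ.erase i₁, cg (jj 1 i)) * cg j₁ := by
      rw [← Finset.prod_erase_mul _ _ (Finset.mem_univ i₁), upd_self]
      congr 1
      refine Finset.prod_congr rfl fun i hi => ?_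
      rw [upd_ne _ _ (Finset.ne_of_mem_erase hi)]
    rw [this, ← mul_assoc]
    push_cast
    rfl
  have e2 : (fun i => cg (upd jj 1 i₁ j₁ 2 i)) = fun i => cg (jj 2 i) := by
    rw [upd_other _ (by decide : (2 : Fin 3) ≠ 1)]
  unfold TC
  refine forall_congr' fun w => ?_
  have e3 : (∏ i, cg (upd jj 1 i₁ j₁ 2 i)) = ∏ i, cg (jj 2 i) :=
    Finset.prod_congr rfl fun i _ => congrFun e2 i
  simp only [e3]
  rw [e1]
  have e4 := emb_aux _ _ (cg j₁ : K) hP1 hP2 τ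
  have e7 := nap_aux _ _ hP1 hP2 τ w
  rw [← hxx] at e4 e7
  have hpos := InfinitePlace.pos_iff (w := w).2 (div_ne_zero hP1 hP2)
  rw [e4, map_mul, mixedEmbedding.normAtPlace_apply, e7]
  constructor
  · intro h
    rw [mul_left_comm ρ] at h
    exact le_of_mul_le_mul_left h hpos
  · intro h
    have h3 := mul_le_mul_of_nonneg_left h hpos.le
    linarith

/-- consequences of `TC`: no cancellation -/
lemma bb (R₀ : ℝ) (τ : mixedSpace K) (hτ : TauOK R₀ τ) (ρ : ℝ) (hρ : 0 < ρ) (hρ1 : ρ ≤ 1)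
    (hρ2 : ρ ≤ Real.exp (-(2 * R₀)) / 2) (a b : 𝓞 K) (hb : b ≠ 0) (w : InfinitePlace K)
    (h : normAtPlace w (mixedEmbedding K ((a : K) / (b : K)) - τ) ≤ ρ * normAtPlace w τ) :
    w (a : K) + w (b : K) ≤ (2 * Real.exp R₀ + 1) * (2 * Real.exp R₀) * w ((a + b : 𝓞 K) : K) ∧
      w ((a + b : 𝓞 K) : K) ≠ 0 ∧
      |Real.log (w ((a + b : 𝓞 K) : K)) - Real.log (w (b : K))| ≤ R₀ + 1 := by
  obtain ⟨t1, t2, t3, t4⟩ := hτ w
  have hbK : (b : K) ≠ 0 := RingOfIntegers.coe_ne_zero_iff.2 hb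
  have hwb : 0 < w (b : K) := place_pos hb w
  set t : K := (a : K) / (b : K) with ht
  have n0 : 0 < normAtPlace w τ :=
    lt_of_le_of_ne (mixedEmbedding.normAtPlace_nonneg w τ) (Ne.symm t1)
  have n1 : 0 < normAtPlace w (1 + τ) :=
    lt_of_le_of_ne (mixedEmbedding.normAtPlace_nonneg w _) (Ne.symm t2)
  have u1 : normAtPlace w τ ≤ Real.exp R₀ := by
    rw [← Real.log_le_iff_le_exp n0]
    exact (le_abs_self _).trans t3
  have u2 : normAtPlace w (1 + τ) ≤ Real.exp R₀ := by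
    rw [← Real.log_le_iff_le_exp n1]
    exact (le_abs_self _).trans t4
  have u3 : Real.exp (-R₀) ≤ normAtPlace w (1 + τ) := by
    rw [← Real.le_log_iff_exp_le n1]
    have := neg_abs_le (Real.log (normAtPlace w (1 + τ)))
    linarith
  have v1 : w t ≤ 2 * Real.exp R₀ := by
    have h1 : mixedEmbedding K t = (mixedEmbedding K t - τ) + τ := by ring
    have h2 := mixedEmbedding.normAtPlace_add_le w (mixedEmbedding K t - τ) τ
    rw [← h1, mixedEmbedding.normAtPlace_apply] at h2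
    nlinarith
  have v2 : normAtPlace w (1 + τ) ≤ w (1 + t) + ρ * normAtPlace w τ := by
    have h1 : (1 + τ : mixedSpace K) = mixedEmbedding K (1 + t) +
        -(mixedEmbedding K t - τ) := by
      rw [map_add, map_one]
      ring
    have h2 := mixedEmbedding.normAtPlace_add_le w (mixedEmbedding K (1 + t))
      (-(mixedEmbedding K t - τ))
    rw [← h1, mixedEmbedding.normAtPlace_apply, mixedEmbedding.normAtPlace_neg] at h2
    linarith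
  have v3 : w (1 + t) ≤ 2 * Real.exp R₀ := by
    have h1 : mixedEmbedding K (1 + t) = (1 + τ) + (mixedEmbedding K t - τ) := by
      rw [map_add, map_one]
      ring
    have h2 := mixedEmbedding.normAtPlace_add_le w (1 + τ) (mixedEmbedding K t - τ)
    rw [← h1, mixedEmbedding.normAtPlace_apply] at h2
    nlinarith
  have v4 : Real.exp (-R₀) / 2 ≤ w (1 + t) := by
    have h1 : ρ * normAtPlace w τ ≤ Real.exp (-(2 * R₀)) / 2 * Real.exp R₀ :=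
      mul_le_mul hρ2 u1 n0.le (by positivity)
    have h2 : Real.exp (-(2 * R₀)) / 2 * Real.exp R₀ = Real.exp (-R₀) / 2 := by
      rw [div_mul_eq_mul_div, ← Real.exp_add]
      congr 2
      ring
    linarith
  have v5 : 0 < w (1 + t) := lt_of_lt_of_le (by positivity) v4
  have e1 : ((a + b : 𝓞 K) : K) = (b : K) * (1 + t) := by
    rw [ht]
    field_simp
    push_cast
    ring
  have e2 : w ((a + b : 𝓞 K) : K) = w (b : K) * w (1 + t) := by rw [e1, map_mul]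
  have e3 : w (a : K) = w (b : K) * w t := by
    rw [← map_mul, ht]
    congr 1
    field_simp
  refine ⟨?_, ?_, ?_⟩
  · rw [e2, e3]
    have h1 : 1 ≤ 2 * Real.exp R₀ * w (1 + t) := by
      have h2 := mul_le_mul_of_nonneg_left v4 (by positivity : 0 ≤ 2 * Real.exp R₀)
      have h3 : 2 * Real.exp R₀ * (Real.exp (-R₀) / 2) = 1 := by
        have : Real.exp R₀ * Real.exp (-R₀) = 1 := by
          rw [← Real.exp_add, add_neg_cancel, Real.exp_zero]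
        linarith
      linarith
    have h4 : w (b : K) * w t + w (b : K) ≤ w (b : K) * (2 * Real.exp R₀ + 1) := by nlinarith
    have h5 : w (b : K) * (2 * Real.exp R₀ + 1) * 1 ≤
        w (b : K) * (2 * Real.exp R₀ + 1) * (2 * Real.exp R₀ * w (1 + t)) :=
      mul_le_mul_of_nonneg_left h1 (by positivity)
    linarith
  · rw [e2]
    positivity
  · rw [e2, Real.log_mul hwb.ne' v5.ne', add_sub_cancel_left]
    have l2 : Real.log 2 ≤ 1 := by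
      have := Real.log_le_sub_one_of_pos (by norm_num : (0 : ℝ) < 2)
      linarith
    rw [abs_le]
    constructor
    · have h1 := Real.log_le_log (by positivity) v4
      rw [Real.log_div (Real.exp_pos _).ne' (by norm_num), Real.log_exp] at h1
      linarith
    · have h1 := Real.log_le_log v5 v3
      rw [Real.log_mul (by norm_num) (Real.exp_pos _).ne', Real.log_exp] at h1
      linarith

end places

/-! ### averages of the weights -/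

section avs

variable {u Θ : ℝ} {H₀ q d s : ℕ}

open Classical in
lemma T_eq (K' : ℕ) (τ : mixedSpace K) (ρ : ℝ) (M : Fin 3 → 𝓞 K)
    (w : Fin 3 → Fin s → Slot K u Θ H₀ q d) (i₀ i₁ : Fin s) :
    Ex (fun b : Slot K u Θ H₀ q d => Ex (fun a : Slot K u Θ H₀ q d =>
      Wm K' τ ρ M (upd (upd w 1 i₁ b) 0 i₀ a))) =
    Ex (fun b : Slot K u Θ H₀ q d => Ex (fun a : Uq K q =>
      (if Rel s q M (fun X i => rv (upd (upd (fun X i => (w X i).1) 0 i₀ a) 1 i₁ b.1 X i))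
        then (1 : ℝ) else 0) / rhoq q M *
      (if TC τ ρ M (fun X i => cg (upd (fun X i => (w X i).2.1) 1 i₁ b.2.1 X i)) then
        Ex (fun p : Cell K u Θ H₀ × (JJ K → Fin (2 ^ d)) => Ws s q d K' M
          (fun X i => rv (upd (upd (fun X i => (w X i).1) 0 i₀ a) 1 i₁ b.1 X i))
          (fun X i => cg (upd (upd (fun X i => (w X i).2.1) 1 i₁ b.2.1) 0 i₀ p.1 X i))
          (upd (upd (fun X i => (w X i).2.2) 1 i₁ b.2.2) 0 i₀ p.2)) else 0))) := by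
  congr 1
  funext b
  rw [Ex_prod]
  congr 1
  funext a
  simp only [Wm_eq]
  rw [Ex_mul_left]
  congr 1
  by_cases h : TC τ ρ M (fun X i => cg (upd (fun X i => (w X i).2.1) 1 i₁ b.2.1 X i))
  · simp only [if_pos h]
  · simp only [if_neg h]
    simp [Ex]

variable [Nonempty (Cell K u Θ H₀)]

open Classical in
lemma T_up (hq : 0 < q) (K' : ℕ) (τ : mixedSpace K) (ρ : ℝ) (M : Fin 3 → 𝓞 K)
    (hM : 0 < rhoq q M)
    (w : Fin 3 → Fin s → Slot K u Θ H₀ q d) (i₀ i₁ : Fin s) (tc : Cell K u Θ H₀ → Prop)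
    (htc : ∀ j₁, TC τ ρ M (fun X i => cg (upd (fun X i => (w X i).2.1) 1 i₁ j₁ X i)) ↔ tc j₁)
    (g : Cell K u Θ H₀ → ℝ)
    (hg : ∀ (v : Fin 3 → Fin s → Uq K q) (j₁ : Cell K u Θ H₀)
      (h : Fin 3 → Fin s → JJ K → Fin (2 ^ d)), tc j₁ →
      Ex (fun p : Cell K u Θ H₀ × (JJ K → Fin (2 ^ d)) => Ws s q d K' M (fun X i => rv (v X i))
          (fun X i => cg (upd (upd (fun X i => (w X i).2.1) 1 i₁ j₁) 0 i₀ p.1 X i))
          (upd h 0 i₀ p.2)) ≤ g j₁) :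
    Ex (fun b : Slot K u Θ H₀ q d => Ex (fun a : Slot K u Θ H₀ q d =>
      Wm K' τ ρ M (upd (upd w 1 i₁ b) 0 i₀ a))) ≤
    Ex (fun j₁ : Cell K u Θ H₀ => if tc j₁ then g j₁ else 0) := by
  rw [T_eq]
  have : Nonempty (JJ K → Fin (2 ^ d)) := ⟨fun _ => ⟨0, Nat.two_pow_pos d⟩⟩
  refine sep_le (H := JJ K → Fin (2 ^ d)) (fun a b : Uq K q =>
    (if Rel s q M (fun X i => rv (upd (upd (fun X i => (w X i).1) 0 i₀ a) 1 i₁ b X i))
        then (1 : ℝ) else 0)) (fun a b => ?_) (rhoq q M) (rho_avg hq M _ i₀ i₁) hM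
    (fun j₁ : Cell K u Θ H₀ => if tc j₁ then g j₁ else 0) _ (fun b a => ?_)
  · split_ifs <;> norm_num
  · by_cases h : TC τ ρ M (fun X i => cg (upd (fun X i => (w X i).2.1) 1 i₁ b.2.1 X i))
    · rw [if_pos h, if_pos ((htc _).1 h)]
      exact hg _ _ _ ((htc _).1 h)
    · rw [if_neg h, if_neg fun h' => h ((htc _).2 h')]

open Classical in
lemma le_T (hq : 0 < q) (K' : ℕ) (τ : mixedSpace K) (ρ : ℝ) (M : Fin 3 → 𝓞 K)
    (hM : 0 < rhoq q M)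
    (w : Fin 3 → Fin s → Slot K u Θ H₀ q d) (i₀ i₁ : Fin s) (tc : Cell K u Θ H₀ → Prop)
    (htc : ∀ j₁, TC τ ρ M (fun X i => cg (upd (fun X i => (w X i).2.1) 1 i₁ j₁ X i)) ↔ tc j₁)
    (g : Cell K u Θ H₀ → ℝ)
    (hg : ∀ (v : Fin 3 → Fin s → Uq K q) (j₁ : Cell K u Θ H₀)
      (h : Fin 3 → Fin s → JJ K → Fin (2 ^ d)), tc j₁ → g j₁ ≤
      Ex (fun p : Cell K u Θ H₀ × (JJ K → Fin (2 ^ d)) => Ws s q d K' M (fun X i => rv (v X i))
          (fun X i => cg (upd (upd (fun X i => (w X i).2.1) 1 i₁ j₁) 0 i₀ p.1 X i))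
          (upd h 0 i₀ p.2))) :
    Ex (fun j₁ : Cell K u Θ H₀ => if tc j₁ then g j₁ else 0) ≤
    Ex (fun b : Slot K u Θ H₀ q d => Ex (fun a : Slot K u Θ H₀ q d =>
      Wm K' τ ρ M (upd (upd w 1 i₁ b) 0 i₀ a))) := by
  rw [T_eq]
  have : Nonempty (JJ K → Fin (2 ^ d)) := ⟨fun _ => ⟨0, Nat.two_pow_pos d⟩⟩
  refine le_sep (H := JJ K → Fin (2 ^ d)) (fun a b : Uq K q =>
    (if Rel s q M (fun X i => rv (upd (upd (fun X i => (w X i).1) 0 i₀ a) 1 i₁ b X i))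
        then (1 : ℝ) else 0)) (fun a b => ?_) (rhoq q M) (rho_avg hq M _ i₀ i₁) hM
    (fun j₁ : Cell K u Θ H₀ => if tc j₁ then g j₁ else 0) _ (fun b a => ?_)
  · split_ifs <;> norm_num
  · by_cases h : TC τ ρ M (fun X i => cg (upd (fun X i => (w X i).2.1) 1 i₁ b.2.1 X i))
    · rw [if_pos h, if_pos ((htc _).1 h)]
      exact hg _ _ _ ((htc _).1 h)
    · rw [if_neg h, if_neg fun h' => h ((htc _).2 h')]

end avs

/-! ### sizes -/

section sizes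

variable {u Θ : ℝ} {H₀ s : ℕ}

lemma y_size {N : ℕ} (m₀ : 𝓞 K) (hm : m₀ ≠ 0) (α : InfinitePlace K → 𝓞 K) (hα : ∀ i, α i ≠ 0)
    (f : InfinitePlace K → Fin (2 * N + 1)) (P S : 𝓞 K) (hP : P ≠ 0) (hS : S ≠ 0)
    (w : InfinitePlace K) :
    normAtPlace w (mixedEmbedding K ((S : K) / ((m₀ * (∏ i, α i ^ (f i : ℕ)) * P : 𝓞 K) : K))) ≠ 0 ∧
    Real.log (normAtPlace w (mixedEmbedding K
      ((S : K) / ((m₀ * (∏ i, α i ^ (f i : ℕ)) * P : 𝓞 K) : K)))) =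
      (Real.log (w (S : K)) - Real.log (w (m₀ : K)) - Real.log (w (P : K))) -
        ∑ i, ((f i : ℕ) : ℝ) * Real.log (w (α i : K)) := by
  have hne : m₀ * (∏ i, α i ^ (f i : ℕ)) ≠ 0 :=
    mul_ne_zero hm (Finset.prod_ne_zero_iff.2 fun i _ => pow_ne_zero _ (hα i))
  have h1 := (place_pos hS w).ne'
  have h2 := (place_pos hne w).ne'
  have h3 := (place_pos hP w).ne'
  have e1 : w ((m₀ * (∏ i, α i ^ (f i : ℕ)) * P : 𝓞 K) : K) =
      w ((m₀ * (∏ i, α i ^ (f i : ℕ)) : 𝓞 K) : K) * w (P : K) := by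
    rw [← map_mul]
    congr 1
  rw [mixedEmbedding.normAtPlace_apply, map_div₀, e1]
  refine ⟨div_ne_zero h1 (mul_ne_zero h2 h3), ?_⟩
  rw [Real.log_div h1 (mul_ne_zero h2 h3), Real.log_mul h2 h3, log_mult m₀ hm α hα]
  ring

lemma x_size {N : ℕ} (m₁ : 𝓞 K) (hm : m₁ ≠ 0) (β : InfinitePlace K → 𝓞 K) (hβ : ∀ i, β i ≠ 0)
    (f : InfinitePlace K → Fin (2 * N + 1)) (P S : 𝓞 K) (hP : P ≠ 0) (hS : S ≠ 0)
    (τ : mixedSpace K) (w : InfinitePlace K) (hτ : normAtPlace w τ ≠ 0) :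
    normAtPlace w (mixedEmbedding K
      ((S : K) / ((m₁ * (∏ i, β i ^ (f i : ℕ)) * P : 𝓞 K) : K)) * τ) ≠ 0 ∧
    Real.log (normAtPlace w (mixedEmbedding K
      ((S : K) / ((m₁ * (∏ i, β i ^ (f i : ℕ)) * P : 𝓞 K) : K)) * τ)) =
      (Real.log (w (S : K)) - Real.log (w (m₁ : K)) - Real.log (w (P : K)) +
        Real.log (normAtPlace w τ)) - ∑ i, ((f i : ℕ) : ℝ) * Real.log (w (β i : K)) := by
  obtain ⟨h1, h2⟩ := y_size m₁ hm β hβ f P S hP hS w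
  rw [map_mul]
  refine ⟨mul_ne_zero h1 hτ, ?_⟩
  rw [Real.log_mul h1 hτ, h2]
  ring

lemma eps_lemma {ε : ℝ} (hε : 0 < ε) : ∃ δ : ℝ, 0 < δ ∧ δ < 1 ∧ (1 + δ) ^ 4 ≤ 1 + ε ∧
    1 - ε ≤ (1 - δ) ^ 4 := by
  refine ⟨min ε 1 / 16, by positivity, ?_, ?_, ?_⟩
  · have := min_le_right ε 1
    linarith
  · have h1 := min_le_right ε 1
    have h2 := min_le_left ε 1
    have h0 : 0 < min ε 1 := by positivity
    generalize min ε 1 = t at *
    have h3 : (1 + t / 16) ^ 2 ≤ 1 + t * (3 / 16) := by nlinarith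
    have h4 : (1 + t / 16) ^ 4 ≤ (1 + t * (3 / 16)) ^ 2 := by
      have : (1 + t / 16) ^ 4 = ((1 + t / 16) ^ 2) ^ 2 := by ring
      rw [this]
      exact pow_le_pow_left₀ (by positivity) h3 2
    nlinarith
  · have h1 := min_le_right ε 1
    have h2 := min_le_left ε 1
    have h0 : 0 < min ε 1 := by positivity
    generalize min ε 1 = t at *
    have h3 : 1 - t * (2 / 16) ≤ (1 - t / 16) ^ 2 := by nlinarith
    have h4 : (1 - t * (2 / 16)) ^ 2 ≤ (1 - t / 16) ^ 4 := by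
      have : (1 - t / 16) ^ 4 = ((1 - t / 16) ^ 2) ^ 2 := by ring
      rw [this]
      exact pow_le_pow_left₀ (by linarith) h3 2
    nlinarith

end sizes

end FlatAN

namespace FlatAN

open Pool.Agent.H366.GF (Ex_mono Ex_const Ex_sum Ex_mul_left Ex_nonneg)

lemma card_erase {s : ℕ} (i : Fin s) : (((Finset.univ.erase i).card : ℕ) : ℝ) = (s : ℝ) - 1 := by
  rw [Finset.card_erase_of_mem (Finset.mem_univ i), Finset.card_univ, Fintype.card_fin,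
    Nat.cast_sub (by have := i.isLt; omega)]
  simp

open Classical in
/-- the estimate for given values of all the slots but two -/
lemma main_est {c : ℕ} (s : ℕ) (α β : InfinitePlace K → 𝓞 K)
    (hα0 : ∀ i, α i ≠ 0) (hβ0 : ∀ i, β i ≠ 0) (R₀ δ ρ Θ u : ℝ) (N H₀ : ℕ) (hδ : 0 < δ)
    (hδ1 : δ < 1) (hρ : 0 < ρ) (hρ2 : ρ ≤ 1) (hρ3 : ρ ≤ Real.exp (-(2 * R₀)) / 2)
    (hu : 0 < u) (hΘ : 2 ≤ Θ) [Nonempty (Cell K u Θ H₀)]
    (a₁ a₂ p₁ : ℝ) (ha₁ : 0 < a₁) (ha₂ : 0 < a₂) (hp₁ : 0 < p₁) (hkJ : 0 < kJ K u Θ H₀)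
    (R₁ : ℝ) (hR₁ : R₁ = 3 * |R₀| + 2 * s * Θ + 1)
    (boxa : ∀ Θ' : ℝ, |Θ' - Θ| ≤ 1 → ∀ y : InfinitePlace K → ℝ, (∀ w, |y w| ≤ R₁) →
      |((Finset.univ.filter fun f : InfinitePlace K → Fin (2 * N + 1) =>
          ∀ w, |y w - ∑ i, (((f i : ℕ) : ℝ) - N) * Real.log (w (α i : K))| ≤ Θ').card : ℝ) -
        a₁| ≤ δ * a₁)
    (boxb : ∀ Θ' : ℝ, |Θ' - Θ| ≤ 1 → ∀ y : InfinitePlace K → ℝ, (∀ w, |y w| ≤ R₁) →
      |((Finset.univ.filter fun f : InfinitePlace K → Fin (2 * N + 1) =>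
          ∀ w, |y w - ∑ i, (((f i : ℕ) : ℝ) - N) * Real.log (w (β i : K))| ≤ Θ').card : ℝ) -
        a₂| ≤ δ * a₂)
    (ball : ∀ x : mixedSpace K, (∀ w : InfinitePlace K, normAtPlace w x ≠ 0) → ∀ P : ℝ,
      P = Ex (fun j : Cell K u Θ H₀ => if ∀ w : InfinitePlace K,
        normAtPlace w (mixedEmbedding K (cg j : K) - x) ≤ ρ * normAtPlace w x
        then (1 : ℝ) else 0) →
      P ≤ (1 + δ) * p₁ ∧ (InBox u (Θ - 1) x → (1 - δ) * p₁ ≤ P) ∧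
      (¬ InBox u (Θ + 1) x → P = 0))
    (κ μ q e₀ γ : ℕ) (m : Fin 3 → 𝓞 K)
    (hctx : ∀ f, Ctx0 κ μ q e₀ γ (MM (N := N) m α β f)) (hbase : BaseOK N R₀ m α β)
    (d : ℕ)
    (rsn : ∀ f, ∀ (v : Fin 3 → Fin s → Uq K q)
      (j : Fin 3 → Fin s → Cell K u Θ H₀) (h : Fin 3 → Fin s → JJ K → Fin (2 ^ d)) (i₀ : Fin s),
    (∀ w : InfinitePlace K, w ((MM (N := N) m α β f 1 * ∏ i, cg (j 1 i) : 𝓞 K) : K) +
      w ((MM (N := N) m α β f 2 * ∏ i, cg (j 2 i) : 𝓞 K) : K) ≤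
      (2 * Real.exp R₀ + 1) * (2 * Real.exp R₀) *
        w ((MM (N := N) m α β f 1 * ∏ i, cg (j 1 i) +
          MM (N := N) m α β f 2 * ∏ i, cg (j 2 i) : 𝓞 K) : K)) →
    ∀ (E : ℝ) (y : mixedSpace K),
      E = Ex (fun p : Cell K u Θ H₀ × (JJ K → Fin (2 ^ d)) =>
        Ws s q d (KS c s μ e₀ d) (MM (N := N) m α β f) (fun X i => rv (v X i))
          (fun X i => cg (upd j 0 i₀ p.1 X i)) (upd h 0 i₀ p.2)) →
      y = mixedEmbedding K (((MM (N := N) m α β f 1 * ∏ i, cg (j 1 i) +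
        MM (N := N) m α β f 2 * ∏ i, cg (j 2 i) : 𝓞 K) : K) /
        ((MM (N := N) m α β f 0 * ∏ i ∈ Finset.univ.erase i₀, cg (j 0 i) : 𝓞 K) : K)) →
      E ≤ (1 + δ) * kJ K u Θ H₀ ∧ (InBox u (Θ - 1) y → (1 - δ) * kJ K u Θ H₀ ≤ E) ∧
        (¬ InBox u (Θ + 1) y → E = 0))
    (τ : mixedSpace K) (hτ : TauOK R₀ τ) (i₀ i₁ : Fin s)
    (W : Fin 3 → Fin s → Slot K u Θ H₀ q d) :
    (1 - δ) ^ 4 * (kJ K u Θ H₀ * a₁ * p₁ * a₂) ≤
      ∑ f, Ex (fun b : Slot K u Θ H₀ q d => Ex (fun a : Slot K u Θ H₀ q d =>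
        Wm (KS c s μ e₀ d) τ ρ (MM (N := N) m α β f) (upd (upd W 1 i₁ b) 0 i₀ a))) ∧
    ∑ f, Ex (fun b : Slot K u Θ H₀ q d => Ex (fun a : Slot K u Θ H₀ q d =>
        Wm (KS c s μ e₀ d) τ ρ (MM (N := N) m α β f) (upd (upd W 1 i₁ b) 0 i₀ a))) ≤
      (1 + δ) ^ 4 * (kJ K u Θ H₀ * a₁ * p₁ * a₂) := by
  set J0 : Fin 3 → Fin s → Cell K u Θ H₀ := fun X i => (W X i).2.1 with hJ0
  have hM : ∀ f X, MM (N := N) m α β f X ≠ 0 := by
    intro f X h0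
    obtain ⟨w⟩ : Nonempty (InfinitePlace K) := inferInstance
    have := (hctx f).Mge X w
    rw [h0] at this
    simp at this
    linarith
  let fN : InfinitePlace K → Fin (2 * N + 1) := fun _ => ⟨N, by omega⟩
  have hm0 : m 0 ≠ 0 := by
    intro h0
    refine hM (fN, fN) 0 ?_
    show m 0 * _ = 0
    rw [h0, zero_mul]
  have hm1 : m 1 ≠ 0 := by
    intro h0
    refine hM (fN, fN) 1 ?_
    show m 1 * _ = 0
    rw [h0, zero_mul]
  have hm2 : m 2 ≠ 0 := hM (fN, fN) 2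
  have hq : 0 < q := (hctx (fN, fN)).qpos
  -- the two products
  let P1 : 𝓞 K := ∏ i ∈ Finset.univ.erase i₁, cg (J0 1 i)
  let P0 : 𝓞 K := ∏ i ∈ Finset.univ.erase i₀, cg (J0 0 i)
  let P2 : 𝓞 K := m 2 * ∏ i, cg (J0 2 i)
  have hP1 : P1 ≠ 0 := prod_cg_ne _ _
  have hP0 : P0 ≠ 0 := prod_cg_ne _ _
  have hP2 : P2 ≠ 0 := mul_ne_zero hm2 (prod_cg_ne _ _)
  obtain ⟨xx, hxx⟩ : ∃ xx : (InfinitePlace K → Fin (2 * N + 1)) → mixedSpace K, ∀ f₁, xx f₁ =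
      mixedEmbedding K ((P2 : K) / ((m 1 * (∏ i, β i ^ (f₁ i : ℕ)) * P1 : 𝓞 K) : K)) * τ :=
    ⟨_, fun _ => rfl⟩
  obtain ⟨tc, htc0⟩ : ∃ tc : (InfinitePlace K → Fin (2 * N + 1)) → Cell K u Θ H₀ → Prop,
      ∀ f₁ j₁, tc f₁ j₁ ↔ ∀ w : InfinitePlace K,
        normAtPlace w (mixedEmbedding K (cg j₁ : K) - xx f₁) ≤ ρ * normAtPlace w (xx f₁) :=
    ⟨_, fun _ _ => Iff.rfl⟩
  have htc : ∀ (f : (InfinitePlace K → Fin (2 * N + 1)) × (InfinitePlace K → Fin (2 * N + 1)))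
      (j₁ : Cell K u Θ H₀), TC τ ρ (MM (N := N) m α β f) (fun X i => cg (upd J0 1 i₁ j₁ X i)) ↔
        tc f.2 j₁ := by
    intro f j₁
    rw [htc0]
    exact tc_ball _ (hM f 1) (hM f 2) J0 i₁ j₁ τ ρ _ (hxx f.2)
  -- the numerator of `y`
  obtain ⟨S, hSd⟩ : ∃ S : (InfinitePlace K → Fin (2 * N + 1)) → Cell K u Θ H₀ → 𝓞 K, ∀ f₁ j₁,
      S f₁ j₁ = m 1 * (∏ i, β i ^ (f₁ i : ℕ)) * (∏ i, cg (upd J0 1 i₁ j₁ 1 i)) +
      m 2 * ∏ i, cg (upd J0 1 i₁ j₁ 2 i) := ⟨_, fun _ _ => rfl⟩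
  obtain ⟨yy, hyy⟩ : ∃ yy : (InfinitePlace K → Fin (2 * N + 1)) →
      (InfinitePlace K → Fin (2 * N + 1)) → Cell K u Θ H₀ → mixedSpace K, ∀ f₀ f₁ j₁,
      yy f₀ f₁ j₁ = mixedEmbedding K ((S f₁ j₁ : K) /
        ((m 0 * (∏ i, α i ^ (f₀ i : ℕ)) * P0 : 𝓞 K) : K)) := ⟨_, fun _ _ _ => rfl⟩
  have e2 : ∀ j₁, (∏ i, cg (upd J0 1 i₁ j₁ 2 i)) = ∏ i, cg (J0 2 i) := by
    intro j₁
    refine Finset.prod_congr rfl fun i _ => ?_
    rw [upd_other _ (by decide : (2 : Fin 3) ≠ 1)]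
  have e0 : ∀ j₁, (∏ i ∈ Finset.univ.erase i₀, cg (upd J0 1 i₁ j₁ 0 i)) = P0 := by
    intro j₁
    refine Finset.prod_congr rfl fun i _ => ?_
    rw [upd_other _ (by decide : (0 : Fin 3) ≠ 1)]
  -- no cancellation
  have hbb : ∀ f₁ j₁, tc f₁ j₁ → ∀ w : InfinitePlace K,
      w ((m 1 * (∏ i, β i ^ (f₁ i : ℕ)) * (∏ i, cg (upd J0 1 i₁ j₁ 1 i)) : 𝓞 K) : K) +
        w ((m 2 * ∏ i, cg (upd J0 1 i₁ j₁ 2 i) : 𝓞 K) : K) ≤
        (2 * Real.exp R₀ + 1) * (2 * Real.exp R₀) * w ((S f₁ j₁ : 𝓞 K) : K) ∧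
      w ((S f₁ j₁ : 𝓞 K) : K) ≠ 0 ∧
      |Real.log (w ((S f₁ j₁ : 𝓞 K) : K)) -
        Real.log (w ((m 2 * ∏ i, cg (upd J0 1 i₁ j₁ 2 i) : 𝓞 K) : K))| ≤ R₀ + 1 := by
    intro f₁ j₁ h w
    have h1 := (htc (fN, f₁) j₁).2 h w
    rw [hSd]
    exact bb R₀ τ hτ ρ hρ hρ2 hρ3 _ _ (mul_ne_zero hm2 (prod_cg_ne _ _)) w h1
  have hS : ∀ f₁ j₁, tc f₁ j₁ → S f₁ j₁ ≠ 0 := by
    intro f₁ j₁ h h0
    obtain ⟨w⟩ : Nonempty (InfinitePlace K) := inferInstance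
    refine (hbb f₁ j₁ h w).2.1 ?_
    rw [h0]
    simp
  have hE : ∀ (f : (InfinitePlace K → Fin (2 * N + 1)) × (InfinitePlace K → Fin (2 * N + 1)))
      (v : Fin 3 → Fin s → Uq K q) (j₁ : Cell K u Θ H₀)
      (h : Fin 3 → Fin s → JJ K → Fin (2 ^ d)), tc f.2 j₁ → ∀ E : ℝ,
      E = Ex (fun p : Cell K u Θ H₀ × (JJ K → Fin (2 ^ d)) => Ws s q d (KS c s μ e₀ d)
        (MM (N := N) m α β f) (fun X i => rv (v X i))
          (fun X i => cg (upd (upd J0 1 i₁ j₁) 0 i₀ p.1 X i)) (upd h 0 i₀ p.2)) →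
      E ≤ (1 + δ) * kJ K u Θ H₀ ∧ (InBox u (Θ - 1) (yy f.1 f.2 j₁) → (1 - δ) * kJ K u Θ H₀ ≤ E) ∧
        (¬ InBox u (Θ + 1) (yy f.1 f.2 j₁) → E = 0) := by
    intro f v j₁ h htc' E hE'
    have g := fun w => (hbb f.2 j₁ htc' w).1
    simp only [hSd] at g
    refine rsn f v (upd J0 1 i₁ j₁) h i₀ g E (yy f.1 f.2 j₁) hE' ?_
    rw [e0, hyy, hSd]
    rfl
  -- sizes
  have hsz : ∀ (w : InfinitePlace K), |Real.log (w ((∏ i, cg (J0 2 i) : 𝓞 K) : K)) -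
      s * Real.log u| ≤ s * Θ := by
    intro w
    have := log_prod_cg Finset.univ (J0 2) w
    rwa [Finset.card_univ, Fintype.card_fin] at this
  have hsz1 : ∀ (w : InfinitePlace K), |Real.log (w (P1 : K)) -
      ((s : ℝ) - 1) * Real.log u| ≤ ((s : ℝ) - 1) * Θ := by
    intro w
    have := log_prod_cg (Finset.univ.erase i₁) (J0 1) w
    rwa [card_erase] at this
  have hsz0 : ∀ (w : InfinitePlace K), |Real.log (w (P0 : K)) -
      ((s : ℝ) - 1) * Real.log u| ≤ ((s : ℝ) - 1) * Θ := by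
    intro w
    have := log_prod_cg (Finset.univ.erase i₀) (J0 0) w
    rwa [card_erase] at this
  have hP2s : ∀ (w : InfinitePlace K), Real.log (w (P2 : K)) = Real.log (w (m 2 : K)) +
      Real.log (w ((∏ i, cg (J0 2 i) : 𝓞 K) : K)) := by
    intro w
    rw [← Real.log_mul (place_pos hm2 w).ne' (place_pos (prod_cg_ne _ _) w).ne', ← map_mul]
    congr 2
  have hb1 : ∀ w : InfinitePlace K, |(Real.log (w (m 1 : K)) +
      N * ∑ i, Real.log (w (β i : K))) - (Real.log (w (m 0 : K)) +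
      N * ∑ i, Real.log (w (α i : K)))| ≤ R₀ := by
    intro w
    have h1 := (hbase w).1
    rw [log_mult _ hm1 β hβ0 (fun _ => N), log_mult _ hm0 α hα0 (fun _ => N),
      ← Finset.mul_sum, ← Finset.mul_sum] at h1
    exact h1
  have hb2 : ∀ w : InfinitePlace K, |Real.log (w (m 2 : K)) - (Real.log (w (m 0 : K)) +
      N * ∑ i, Real.log (w (α i : K)))| ≤ R₀ := by
    intro w
    have h1 := (hbase w).2
    rw [log_mult _ hm0 α hα0 (fun _ => N), ← Finset.mul_sum] at h1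
    exact h1
  have hR0 : R₀ ≤ |R₀| := le_abs_self R₀
  have hsΘ : (0 : ℝ) ≤ Θ := by linarith
  -- counting `f₀`
  have hcy : ∀ f₁ j₁, tc f₁ j₁ → ∀ Θ' : ℝ, |Θ' - Θ| ≤ 1 →
      |∑ f₀, (if InBox u Θ' (yy f₀ f₁ j₁) then (1 : ℝ) else 0) - a₁| ≤ δ * a₁ := by
    intro f₁ j₁ h Θ' hΘ'
    rw [count Θ' (fun i w => Real.log (w (α i : K))) (fun f₀ => yy f₀ f₁ j₁)
      (fun w => Real.log (w (S f₁ j₁ : K)) - Real.log (w (m 0 : K)) - Real.log (w (P0 : K)))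
      (fun f₀ w => by
        rw [hyy]
        exact (y_size (m 0) hm0 α hα0 f₀ P0 (S f₁ j₁) hP0 (hS f₁ j₁ h) w).1)
      (fun f₀ w => by
        rw [hyy]
        exact (y_size (m 0) hm0 α hα0 f₀ P0 (S f₁ j₁) hP0 (hS f₁ j₁ h) w).2)]
    refine boxa Θ' hΘ' _ fun w => ?_
    have g1 := (hbb f₁ j₁ h w).2.2
    rw [e2 j₁] at g1
    have g2 := hP2s w
    have g3 := hsz w
    have g4 := hsz0 w
    have g5 := hb2 w
    change |Real.log (w ((S f₁ j₁ : 𝓞 K) : K)) - Real.log (w (P2 : K))| ≤ R₀ + 1 at g1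
    rw [g2] at g1
    rw [hR₁]
    rw [abs_le] at g1 g3 g4 g5 ⊢
    constructor <;> nlinarith
  -- counting `f₁`
  have hcx : ∀ Θ' : ℝ, |Θ' - Θ| ≤ 1 →
      |∑ f₁, (if InBox u Θ' (xx f₁) then (1 : ℝ) else 0) - a₂| ≤ δ * a₂ := by
    intro Θ' hΘ'
    rw [count Θ' (fun i w => Real.log (w (β i : K))) xx
      (fun w => Real.log (w (P2 : K)) - Real.log (w (m 1 : K)) - Real.log (w (P1 : K)) +
        Real.log (normAtPlace w τ))
      (fun f₁ w => by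
        rw [hxx]
        exact (x_size (m 1) hm1 β hβ0 f₁ P1 P2 hP1 hP2 τ w (hτ w).1).1)
      (fun f₁ w => by
        rw [hxx]
        exact (x_size (m 1) hm1 β hβ0 f₁ P1 P2 hP1 hP2 τ w (hτ w).1).2)]
    refine boxb Θ' hΘ' _ fun w => ?_
    have g2 := hP2s w
    have g3 := hsz w
    have g4 := hsz1 w
    have g5 := hb2 w
    have g6 := hb1 w
    have g7 := (hτ w).2.2.1
    simp only [g2]
    rw [hR₁]
    rw [abs_le] at g3 g4 g5 g6 g7 ⊢
    constructor <;> nlinarith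
  have hxne : ∀ f₁ (w : InfinitePlace K), normAtPlace w (xx f₁) ≠ 0 := fun f₁ w => by
    rw [hxx]
    exact (x_size (m 1) hm1 β hβ0 f₁ P1 P2 hP1 hP2 τ w (hτ w).1).1
  have hball : ∀ f₁, (Ex fun j : Cell K u Θ H₀ => if tc f₁ j then (1 : ℝ) else 0) ≤
      (1 + δ) * p₁ ∧ (InBox u (Θ - 1) (xx f₁) → (1 - δ) * p₁ ≤
        (Ex fun j : Cell K u Θ H₀ => if tc f₁ j then (1 : ℝ) else 0)) ∧
      (¬ InBox u (Θ + 1) (xx f₁) →
        (Ex fun j : Cell K u Θ H₀ => if tc f₁ j then (1 : ℝ) else 0) = 0) := by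
    intro f₁
    refine ball (xx f₁) (hxne f₁) _ ?_
    congr 1
    funext j
    by_cases h : tc f₁ j
    · rw [if_pos h, if_pos ((htc0 f₁ j).1 h)]
    · rw [if_neg h, if_neg fun h' => h ((htc0 f₁ j).2 h')]
  have t1 : |Θ + 1 - Θ| ≤ 1 := by
    rw [add_sub_cancel_left]
    simp
  have t2 : |Θ - 1 - Θ| ≤ 1 := by
    rw [sub_sub_cancel_left]
    simp
  constructor
  · refine le_sum (F₀ := InfinitePlace K → Fin (2 * N + 1)) δ (kJ K u Θ H₀) a₁ p₁ a₂ hδ1 hkJ ha₁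
      hp₁ _ tc (fun f₀ f₁ j₁ => InBox u (Θ - 1) (yy f₀ f₁ j₁)) (fun f₁ => InBox u (Θ - 1) (xx f₁))
      (fun f => ?_) (fun f₁ j₁ h => ?_) (fun f₁ h => ?_) ?_
    · refine le_T hq (KS c s μ e₀ d) τ ρ _ (rho_pos (hctx f)) W i₀ i₁ (tc f.2) (htc f)
        (fun j₁ => if InBox u (Θ - 1) (yy f.1 f.2 j₁) then (1 - δ) * kJ K u Θ H₀ else 0) ?_
      intro v j₁ h htc'
      obtain ⟨-, g2, -⟩ := hE f v j₁ h htc' _ rfl
      by_cases hin : InBox u (Θ - 1) (yy f.1 f.2 j₁)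
      · rw [if_pos hin]
        exact g2 hin
      · rw [if_neg hin]
        exact Ex_nonneg fun p => Ws_nonneg _ _ _ _ _ _ _ _
    · have := (abs_le.1 (hcy f₁ j₁ h _ t2)).1
      linarith
    · exact (hball f₁).2.1 h
    · have := (abs_le.1 (hcx _ t2)).1
      linarith
  · refine sum_up (F₀ := InfinitePlace K → Fin (2 * N + 1)) δ (kJ K u Θ H₀) a₁ p₁ a₂ hδ hkJ ha₁
      hp₁ _ tc (fun f₀ f₁ j₁ => InBox u (Θ + 1) (yy f₀ f₁ j₁))
      (fun f₁ => InBox u (Θ + 1) (xx f₁))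
      (fun f => ?_) (fun f₁ j₁ h => ?_) (fun f₁ => ?_) (fun f₁ h => ?_) ?_
    · refine T_up hq (KS c s μ e₀ d) τ ρ _ (rho_pos (hctx f)) W i₀ i₁ (tc f.2) (htc f)
        (fun j₁ => if InBox u (Θ + 1) (yy f.1 f.2 j₁) then (1 + δ) * kJ K u Θ H₀ else 0) ?_
      intro v j₁ h htc'
      obtain ⟨g1, -, g3⟩ := hE f v j₁ h htc' _ rfl
      by_cases hin : InBox u (Θ + 1) (yy f.1 f.2 j₁)
      · rw [if_pos hin]
        exact g1
      · rw [if_neg hin]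
        exact (g3 hin).le
    · have := (abs_le.1 (hcy f₁ j₁ h _ t1)).2
      linarith
    · exact (hball f₁).1
    · exact (hball f₁).2.2 h
    · have := (abs_le.1 (hcx _ t1)).2
      linarith

end FlatAN

open FlatAN in
open Pool.Agent.H366.GF (Ex_mono Ex_const Ex_sum Ex_mul_left) in
/-- [FLATA] -/
theorem FLATA {c : ℕ} (hc : Cst K c) (s : ℕ) (hs : 1 ≤ s) (α β : InfinitePlace K → 𝓞 K)
    (hα : LogInd α) (hβ : LogInd β) (R₀ ε : ℝ) (hε : 0 < ε) : ∃ ρ₀ : ℝ, 0 < ρ₀ ∧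
    ∀ ρ : ℝ, 0 < ρ → ρ ≤ ρ₀ → ∃ Θ : ℝ, 2 ≤ Θ ∧ ∃ N₁ : ℕ, ∀ N : ℕ, N₁ ≤ N →
    ∃ U₁ : ℝ, ∀ u : ℝ, 0 < u → U₁ ≤ u * Real.exp (-Θ) → ∀ γ : ℕ, u * Real.exp Θ ≤ 2 ^ γ →
    ∃ (H₀ : ℕ) (A : ℝ), 0 < A ∧ Nonempty (Cell K u Θ H₀) ∧
    ∀ (κ μ q e₀ : ℕ) (m : Fin 3 → 𝓞 K),
    (∀ f, Ctx0 κ μ q e₀ γ (MM (N := N) m α β f)) → BaseOK N R₀ m α β →
    ∃ d₀ : ℕ, ∀ d : ℕ, d₀ ≤ d → ∀ τ : mixedSpace K, TauOK R₀ τ →
    ∀ V : Fin 3 → Finset (Fin s), (∀ X, (V X).card < s) →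
    ∀ z : Fin 3 → Fin s → Slot K u Θ H₀ q d,
    |Ex (fun z' : Fin 3 → Fin s → Slot K u Θ H₀ q d => ∑ f, A *
      Wm (KS c s μ e₀ d) τ ρ (MM (N := N) m α β f) (fun X => (V X).piecewise (z X) (z' X))) - 1| ≤
      ε := by
  classical
  obtain ⟨hα0, hαl⟩ := hα
  obtain ⟨hβ0, hβl⟩ := hβ
  obtain ⟨νa, hνa, boxa⟩ := latbox (InfinitePlace K) (fun i w => Real.log (w (α i : K))) hαl
  obtain ⟨νb, hνb, boxb⟩ := latbox (InfinitePlace K) (fun i w => Real.log (w (β i : K))) hβl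
  obtain ⟨νc, hνc, ball⟩ := latball K
  obtain ⟨δ, hδ, hδ1, hδu, hδl⟩ := eps_lemma hε
  obtain ⟨Θa, boxa⟩ := boxa δ hδ
  obtain ⟨Θb, boxb⟩ := boxb δ hδ
  obtain ⟨ρa, hρa, ball⟩ := ball δ hδ
  refine ⟨min ρa (min 1 (Real.exp (-(2 * R₀)) / 2)), by positivity, fun ρ hρ hρ' => ?_⟩
  have hρ1 : ρ ≤ ρa := hρ'.trans (min_le_left _ _)
  have hρ2 : ρ ≤ 1 := hρ'.trans ((min_le_right _ _).trans (min_le_left _ _))
  have hρ3 : ρ ≤ Real.exp (-(2 * R₀)) / 2 := hρ'.trans ((min_le_right _ _).trans (min_le_right _ _))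
  obtain ⟨Ub, ball⟩ := ball ρ hρ hρ1
  obtain ⟨Θ, hΘ2, hΘa, hΘb⟩ : ∃ Θ : ℝ, 2 ≤ Θ ∧ Θa ≤ Θ ∧ Θb ≤ Θ :=
    ⟨max 2 (max Θa Θb), le_max_left _ _, (le_max_left _ _).trans (le_max_right _ _),
      (le_max_right _ _).trans (le_max_right _ _)⟩
  refine ⟨Θ, hΘ2, ?_⟩
  obtain ⟨Na, boxa⟩ := boxa Θ hΘa (3 * |R₀| + 2 * s * Θ + 1)
  obtain ⟨Nb, boxb⟩ := boxb Θ hΘb (3 * |R₀| + 2 * s * Θ + 1)
  refine ⟨max Na Nb, fun N hN => ?_⟩
  obtain ⟨Ur, rsn⟩ := RSN hc s hs ((2 * Real.exp R₀ + 1) * (2 * Real.exp R₀)) δ hδ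
  refine ⟨max (max Ub Ur) (2 ^ (c + 4)), fun u hu hU γ hγ => ?_⟩
  have hU1 : Ub ≤ u * Real.exp (-Θ) := ((le_max_left _ _).trans (le_max_left _ _)).trans hU
  have hU2 : Ur ≤ u * Real.exp (-Θ) := ((le_max_right _ _).trans (le_max_left _ _)).trans hU
  have hU3 : 2 ^ (c + 4) ≤ u * Real.exp (-Θ) := (le_max_right _ _).trans hU
  obtain ⟨H1, ball⟩ := ball u Θ hu hΘ2 hU1
  obtain ⟨H2, rsn⟩ := rsn u Θ γ hu hΘ2 hU2 hU3 hγ
  obtain ⟨H3, hne⟩ := cell_nonempty hc u Θ (by linarith) hU3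
  obtain ⟨H₀, hH0, hH1, hH2, hH3⟩ : ∃ H₀ : ℕ, 0 < H₀ ∧ H1 ≤ H₀ ∧ H2 ≤ H₀ ∧ H3 ≤ H₀ :=
    ⟨H1 + H2 + H3 + 1, by omega, by omega, by omega, by omega⟩
  have hne' := hne H₀ hH3
  have hkJ : 0 < kJ K u Θ H₀ := by
    unfold kJ
    have h1 : 0 < Fintype.card (Cell K u Θ H₀) := Fintype.card_pos
    positivity
  have hΘpos : 0 < Θ := by linarith
  set a₁ : ℝ := νa * Θ ^ Fintype.card (InfinitePlace K) with ha₁
  set a₂ : ℝ := νb * Θ ^ Fintype.card (InfinitePlace K) with ha₂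
  set p₁ : ℝ := kJ K u Θ H₀ * νc * ρ ^ DK K with hp₁
  have ha₁' : 0 < a₁ := by positivity
  have ha₂' : 0 < a₂ := by positivity
  have hp₁' : 0 < p₁ := by positivity
  refine ⟨H₀, (kJ K u Θ H₀ * a₁ * p₁ * a₂)⁻¹, by positivity, hne', ?_⟩
  intro κ μ q e₀ m hctx hbase
  choose d₁ hd₁ using fun f => rsn H₀ hH2 κ μ q e₀ (MM (N := N) m α β f) (hctx f).toQOK
    (hctx f).Mge (hctx f).Mle
  refine ⟨Finset.univ.sup d₁, fun d hd τ hτ V hV z => ?_⟩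
  have hdl : ∀ f, d₁ f ≤ d := fun f => (Finset.le_sup (f := d₁) (Finset.mem_univ f)).trans hd
  obtain ⟨i₀, hi₀⟩ : ∃ i, i ∉ V 0 := by
    by_contra h
    push Not at h
    have : V 0 = Finset.univ := Finset.eq_univ_iff_forall.2 h
    have h2 := hV 0
    rw [this, Finset.card_univ, Fintype.card_fin] at h2
    omega
  obtain ⟨i₁, hi₁⟩ : ∃ i, i ∉ V 1 := by
    by_contra h
    push Not at h
    have : V 1 = Finset.univ := Finset.eq_univ_iff_forall.2 h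
    have h2 := hV 1
    rw [this, Finset.card_univ, Fintype.card_fin] at h2
    omega
  have hq : 0 < q := (hctx (fun _ => ⟨N, by omega⟩, fun _ => ⟨N, by omega⟩)).qpos
  have hnU : Nonempty (Uq K q) := uq_nonempty q hq
  have hnJ : Nonempty (JJ K → Fin (2 ^ d)) := ⟨fun _ => ⟨0, Nat.two_pow_pos d⟩⟩
  refine avg i₀ i₁ (fun Z => ∑ f, (kJ K u Θ H₀ * a₁ * p₁ * a₂)⁻¹ *
      Wm (KS c s μ e₀ d) τ ρ (MM (N := N) m α β f) Z) V hi₀ hi₁ z ε fun W => ?_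
  have hsum : Ex (fun b : Slot K u Θ H₀ q d => Ex (fun a : Slot K u Θ H₀ q d =>
      ∑ f, (kJ K u Θ H₀ * a₁ * p₁ * a₂)⁻¹ *
        Wm (KS c s μ e₀ d) τ ρ (MM (N := N) m α β f) (upd (upd W 1 i₁ b) 0 i₀ a))) =
      (kJ K u Θ H₀ * a₁ * p₁ * a₂)⁻¹ * ∑ f, Ex (fun b : Slot K u Θ H₀ q d =>
        Ex (fun a : Slot K u Θ H₀ q d =>
        Wm (KS c s μ e₀ d) τ ρ (MM (N := N) m α β f) (upd (upd W 1 i₁ b) 0 i₀ a))) := by
    simp only [Ex_sum, Ex_mul_left]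
    rw [Finset.mul_sum]
  rw [hsum]
  obtain ⟨g1, g2⟩ := main_est (c := c) s α β hα0 hβ0 R₀ δ ρ Θ u N H₀ hδ hδ1 hρ hρ2 hρ3 hu hΘ2
    a₁ a₂ p₁ ha₁' ha₂' hp₁' hkJ _ rfl
    (fun Θ' h' y hy => boxa N ((le_max_left _ _).trans hN) Θ' h' y hy)
    (fun Θ' h' y hy => boxb N ((le_max_right _ _).trans hN) Θ' h' y hy)
    (ball H₀ hH1) κ μ q e₀ γ m hctx hbase d
    (fun f => hd₁ f d (hdl f)) τ hτ i₀ i₁ W
  have hQ : 0 < kJ K u Θ H₀ * a₁ * p₁ * a₂ := by positivity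
  generalize (∑ f, Ex (fun b : Slot K u Θ H₀ q d =>
        Ex (fun a : Slot K u Θ H₀ q d =>
        Wm (KS c s μ e₀ d) τ ρ (MM (N := N) m α β f) (upd (upd W 1 i₁ b) 0 i₀ a)))) = T at g1 g2 ⊢
  generalize kJ K u Θ H₀ * a₁ * p₁ * a₂ = Q at g1 g2 hQ ⊢
  rw [abs_le, inv_mul_eq_div]
  constructor
  · have : (1 - δ) ^ 4 ≤ T / Q := by
      rw [le_div_iff₀ hQ]
      exact g1
    linarith
  · have : T / Q ≤ (1 + δ) ^ 4 := by
      rw [div_le_iff₀ hQ]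
      exact g2
    linarith

end Pool.Agent.H366.NK
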