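import Pool.Agent.H366.NK.Cell
import Pool.Agent.H366.NK.Base3

/-! # [RHO] residues and basic facts on cells -/

set_option autoImplicit false

namespace Pool.Agent.H366.NK

open NumberField
open NumberField.mixedEmbedding (mixedSpace normAtPlace)
open Pool.Agent.H366.GF (Ex ExC)

variable {K : Type} [Field K] [NumberField K]

namespace RhoN

lemma el_add (x y : JJ K → ℤ) : el (x + y) = el x + el y := by
  unfold el
  rw [← Finset.sum_add_distrib]
  refine Finset.sum_congr rfl fun j _ => ?_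
  rw [Pi.add_apply]
  push_cast
  ring

lemma el_smul (n : ℤ) (x : JJ K → ℤ) : el (fun j => n * x j) = (n : 𝓞 K) * el x := by
  unfold el
  rw [Finset.mul_sum]
  refine Finset.sum_congr rfl fun j _ => ?_
  push_cast
  ring

/-- every integer coprime to `q` has a representative -/
lemma exists_red {q : ℕ} (hq : 0 < q) (x : 𝓞 K) (hx : IsCoprime x (q : 𝓞 K)) :
    ∃ v : Uq K q, (q : 𝓞 K) ∣ rv v - x := by
  have hq' : (0 : ℤ) < q := by exact_mod_cast hq
  set y : 𝓞 K := el fun j => (om K).repr x j / (q : ℤ) with hy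
  have h1 : el (fun j => (om K).repr x j % (q : ℤ)) = x - (q : 𝓞 K) * y := by
    have h2 : el (fun j => (om K).repr x j % (q : ℤ)) +
        el (fun j => (q : ℤ) * ((om K).repr x j / (q : ℤ))) = x := by
      rw [← el_add]
      conv_rhs => rw [← el_repr x]
      congr 1
      funext j
      exact Int.emod_add_mul_ediv _ _
    rw [el_smul, Int.cast_natCast] at h2
    linear_combination h2
  have h3 : ∀ j, ((((om K).repr x j % (q : ℤ)).toNat : ℕ) : ℤ) = (om K).repr x j % (q : ℤ) :=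
    fun j => Int.toNat_of_nonneg (Int.emod_nonneg _ hq'.ne')
  have h4 : ∀ j, ((om K).repr x j % (q : ℤ)).toNat < q := by
    intro j
    have := Int.emod_lt_of_pos ((om K).repr x j) hq'
    have := h3 j
    omega
  have h5 : (el fun j => (((⟨_, h4 j⟩ : Fin q) : ℕ) : ℤ)) = x - (q : 𝓞 K) * y := by
    rw [← h1]
    congr 1
    funext j
    exact h3 j
  have h6 : IsCoprime (el fun j => (((⟨_, h4 j⟩ : Fin q) : ℕ) : ℤ)) (q : 𝓞 K) := by
    rw [h5, sub_eq_add_neg, ← mul_neg]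
    exact IsCoprime.add_mul_left_left hx _
  refine ⟨⟨fun j => ⟨_, h4 j⟩, h6⟩, ?_⟩
  show (q : 𝓞 K) ∣ (el fun j => (((⟨_, h4 j⟩ : Fin q) : ℕ) : ℤ)) - x
  rw [h5]
  exact ⟨-y, by ring⟩

lemma rv_inj {q : ℕ} {v v' : Uq K q} (h : (q : 𝓞 K) ∣ rv v - rv v') : v = v' := by
  obtain ⟨z, hz⟩ := h
  apply Subtype.ext
  funext j
  have h1 : (om K).repr (rv v - rv v') j = (q : ℤ) * (om K).repr z j := by
    rw [hz]
    have : (q : 𝓞 K) * z = (q : ℤ) • z := by
      rw [zsmul_eq_mul]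
      push_cast
      rfl
    rw [this, map_zsmul]
    simp
  rw [map_sub, Finsupp.sub_apply] at h1
  unfold rv at h1
  rw [repr_el, repr_el] at h1
  have h2 := (v.1 j).2
  have h3 := (v'.1 j).2
  apply Fin.ext
  have h4 : (q : ℤ) ∣ (((v.1 j : ℕ) : ℤ) - ((v'.1 j : ℕ) : ℤ)) := ⟨_, h1⟩
  have h5 : |(((v.1 j : ℕ) : ℤ) - ((v'.1 j : ℕ) : ℤ))| < (q : ℤ) := by
    rw [abs_lt]
    constructor <;> omega
  have h6 := Int.eq_zero_of_abs_lt_dvd h4 h5
  omega

/-- multiplication by `t` on the residues -/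
lemma exists_mul {q : ℕ} (hq : 0 < q) (t : 𝓞 K) (ht : IsCoprime t (q : 𝓞 K)) :
    ∃ σ : Uq K q ≃ Uq K q, ∀ v, (q : 𝓞 K) ∣ rv (σ v) - t * rv v := by
  have h1 : ∀ v : Uq K q, ∃ v' : Uq K q, (q : 𝓞 K) ∣ rv v' - t * rv v := fun v =>
    exists_red hq _ (IsCoprime.mul_left ht v.2)
  choose f hf using h1
  have hinj : Function.Injective f := by
    intro v v' h
    apply rv_inj
    have h2 := hf v
    have h3 := hf v'
    rw [h] at h2
    have h4 : (q : 𝓞 K) ∣ t * (rv v - rv v') := by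
      have := dvd_sub h3 h2
      have h5 : rv (f v') - t * rv v' - (rv (f v') - t * rv v) = t * (rv v - rv v') := by ring
      rwa [h5] at this
    exact ht.symm.dvd_of_dvd_mul_left h4
  exact ⟨Equiv.ofBijective f (Finite.injective_iff_bijective.1 hinj), hf⟩

end RhoN

theorem mem_cellSet (u Θ : ℝ) (g : 𝓞 K) :
    g ∈ cellSet K u Θ ↔ InBox u Θ (mixedEmbedding K (g : K)) := by
  have hfin : {g : 𝓞 K | InBox u Θ (mixedEmbedding K (g : K))}.Finite := by
    have h1 := NumberField.Embeddings.finite_of_norm_le K ℂ (Real.exp (Real.log u + Θ))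
    have h2 : Set.Finite ((fun g : 𝓞 K => (g : K)) ⁻¹'
        {x : K | IsIntegral ℤ x ∧ ∀ φ : K →+* ℂ, ‖φ x‖ ≤ Real.exp (Real.log u + Θ)}) :=
      h1.preimage (Function.Injective.injOn (RingOfIntegers.coe_injective))
    refine h2.subset fun g hg => ?_
    refine ⟨g.isIntegral_coe, fun φ => ?_⟩
    have h3 := hg (InfinitePlace.mk φ)
    rw [mixedEmbedding.normAtPlace_apply, InfinitePlace.apply] at h3
    obtain ⟨h4, h5⟩ := h3
    have h6 : 0 < ‖φ (g : K)‖ := lt_of_le_of_ne (norm_nonneg _) (Ne.symm h4)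
    have h7 := (abs_le.1 h5).2
    rw [← Real.log_le_iff_le_exp h6]
    linarith
  unfold cellSet
  rw [dif_pos hfin, Set.Finite.mem_toFinset]
  rfl

theorem cg_inBox {u Θ : ℝ} {H₀ : ℕ} (j : Cell K u Θ H₀) :
    InBox u Θ (mixedEmbedding K (cg j : K)) :=
  (mem_cellSet u Θ _).1 j.1.2

/-- sums over cells -/
theorem sum_cell (u Θ : ℝ) (H₀ : ℕ) (f : 𝓞 K → ℝ) :
    ∑ j : Cell K u Θ H₀, f (cg j) =
      ∑ g ∈ cellSet K u Θ, (⌊(H₀ : ℝ) / nm (g : K)⌋₊ : ℝ) * f g := by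
  have h1 : ∑ j : Cell K u Θ H₀, f (cg j) =
      ∑ j : (Σ g : {g : 𝓞 K // g ∈ cellSet K u Θ}, Fin ⌊(H₀ : ℝ) / nm ((g : 𝓞 K) : K)⌋₊),
        f j.1.1 := Fintype.sum_equiv (Equiv.refl _) _ _ fun _ => rfl
  rw [h1, Fintype.sum_sigma, ← Finset.sum_coe_sort (cellSet K u Θ)
    (fun g => (⌊(H₀ : ℝ) / nm (g : K)⌋₊ : ℝ) * f g)]
  refine Finset.sum_congr rfl fun g _ => ?_
  simp

/-- there are cells -/
theorem cell_nonempty {c : ℕ} (hc : Cst K c) (u Θ : ℝ) (hΘ : 1 ≤ Θ)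
    (hu : 2 ^ (c + 4) ≤ u * Real.exp (-Θ)) : ∃ H₁ : ℕ, ∀ H₀ : ℕ, H₁ ≤ H₀ →
    Nonempty (Cell K u Θ H₀) := by
  have hu1 : 1 ≤ u := by
    have h1 : (1 : ℝ) ≤ 2 ^ (c + 4) := one_le_pow₀ (by norm_num)
    have h2 : Real.exp (-Θ) ≤ 1 := Real.exp_le_one_iff.2 (by linarith)
    have h3 : 0 < Real.exp (-Θ) := Real.exp_pos _
    have h4 : 0 < u := by
      by_contra h
      push Not at h
      nlinarith
    nlinarith
  set n : ℕ := ⌈u⌉₊ with hn
  have hn1 : u ≤ n := Nat.le_ceil u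
  have hn2 : (n : ℝ) < u + 1 := Nat.ceil_lt_add_one (by linarith)
  have hn0 : (0 : ℝ) < n := by linarith
  have hg : ((n : ℕ) : 𝓞 K) ∈ cellSet K u Θ := by
    rw [mem_cellSet]
    intro w
    rw [mixedEmbedding.normAtPlace_apply]
    have h1 : w (((n : 𝓞 K)) : K) = n := by
      push_cast
      rw [← w.norm_embedding_eq, map_natCast, Complex.norm_natCast]
    rw [h1]
    refine ⟨hn0.ne', ?_⟩
    rw [abs_of_nonneg (sub_nonneg.2 (Real.log_le_log (by linarith) hn1)),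
      ← Real.log_div hn0.ne' (by linarith)]
    have h2 : (n : ℝ) / u ≤ 2 := by
      rw [div_le_iff₀ (by linarith)]
      linarith
    have h3 : Real.log (n / u) ≤ Real.log 2 := Real.log_le_log (by positivity) h2
    have h4 := Real.log_two_lt_d9
    linarith
  refine ⟨⌈nm (((n : 𝓞 K)) : K)⌉₊, fun H₀ hH => ⟨⟨⟨(n : 𝓞 K), hg⟩, ⟨0, ?_⟩⟩⟩⟩
  rw [Nat.floor_pos]
  have hne : (n : 𝓞 K) ≠ 0 := by
    have : n ≠ 0 := by
      rintro h
      rw [h] at hn0
      simp at hn0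
    exact_mod_cast this
  have h5 := one_le_nm hne
  rw [one_le_div (by linarith)]
  exact Nat.ceil_le.1 hH

theorem uq_nonempty (q : ℕ) (hq : 0 < q) : Nonempty (Uq K q) := by
  obtain ⟨v, _⟩ := RhoN.exists_red hq (1 : 𝓞 K) isCoprime_one_left
  exact ⟨v⟩

/-- slots are admissible -/
theorem slotOK {c : ℕ} (hc : Cst K c) {u Θ : ℝ} {H₀ q γ : ℕ} (hu : 0 < u)
    (h1 : 2 ^ (c + 4) ≤ u * Real.exp (-Θ)) (h2 : u * Real.exp Θ ≤ 2 ^ γ) (v : Uq K q)
    (j : Cell K u Θ H₀) : SlotOK c q γ (rv v) (cg j) := by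
  have h3 := cg_inBox j
  refine ⟨v.2, fun w => ?_, fun w => ?_, fun w => ?_⟩
  · refine hc.place_le (rv v) q (fun i => ?_) w
    unfold rv
    rw [repr_el]
    have := (v.1 i).2
    have h4 : (((v.1 i : ℕ) : ℤ) : ℝ) = ((v.1 i : ℕ) : ℝ) := by push_cast; rfl
    rw [h4, abs_of_nonneg (Nat.cast_nonneg _)]
    exact_mod_cast this.le
  · obtain ⟨h4, h5⟩ := h3 w
    rw [mixedEmbedding.normAtPlace_apply] at h4 h5
    have h6 : 0 < w (cg j : K) := lt_of_le_of_ne (apply_nonneg w _) (Ne.symm h4)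
    refine h1.trans ?_
    rw [← Real.exp_log h6]
    conv_lhs => rw [← Real.exp_log hu]
    rw [← Real.exp_add]
    refine Real.exp_le_exp.2 ?_
    have := (abs_le.1 h5).1
    linarith
  · obtain ⟨h4, h5⟩ := h3 w
    rw [mixedEmbedding.normAtPlace_apply] at h4 h5
    have h6 : 0 < w (cg j : K) := lt_of_le_of_ne (apply_nonneg w _) (Ne.symm h4)
    refine le_trans ?_ h2
    rw [← Real.exp_log h6]
    conv_rhs => rw [← Real.exp_log hu]
    rw [← Real.exp_add]
    refine Real.exp_le_exp.2 ?_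
    have := (abs_le.1 h5).2
    linarith

namespace RhoN

lemma prod_upd {q s : ℕ} (v : Fin s → Uq K q) (i₀ : Fin s) (a : Uq K q) :
    ∏ i, rv (Function.update v i₀ a i) = rv a * ∏ i ∈ Finset.univ.erase i₀, rv (v i) := by
  classical
  rw [← Finset.mul_prod_erase _ _ (Finset.mem_univ i₀), Function.update_self]
  congr 1
  refine Finset.prod_congr rfl fun i hi => ?_
  rw [Function.update_of_ne (Finset.ne_of_mem_erase hi)]

lemma prod_cop {q s : ℕ} (v : Fin s → Uq K q) (B : Finset (Fin s)) :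
    IsCoprime (∏ i ∈ B, rv (v i)) (q : 𝓞 K) :=
  IsCoprime.prod_left fun i _ => (v i).2

end RhoN

/-- [RHO1] the density modulo `q` does not depend on the other residues -/
theorem rho_avg {s q : ℕ} (hq : 0 < q) (M : Fin 3 → 𝓞 K) (v : Fin 3 → Fin s → Uq K q)
    (i₀ i₁ : Fin s) :
    (Ex fun p : Uq K q × Uq K q => open Classical in
      if Rel s q M (fun X i => rv (upd (upd v 0 i₀ p.1) 1 i₁ p.2 X i)) then (1 : ℝ) else 0) =
      rhoq q M := by
  classical
  set A : 𝓞 K := ∏ i ∈ Finset.univ.erase i₀, rv (v 0 i) with hA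
  set B : 𝓞 K := ∏ i ∈ Finset.univ.erase i₁, rv (v 1 i) with hB
  set C : 𝓞 K := ∏ i, rv (v 2 i) with hC
  have hAc : IsCoprime A (q : 𝓞 K) := RhoN.prod_cop _ _
  have hBc : IsCoprime B (q : 𝓞 K) := RhoN.prod_cop _ _
  have hCc : IsCoprime C (q : 𝓞 K) := RhoN.prod_cop _ _
  -- inverse of `C`
  obtain ⟨D, E, hDE⟩ := id hCc
  have hDc : IsCoprime D (q : 𝓞 K) := ⟨C, E, by rw [← hDE]; ring⟩
  obtain ⟨σ, hσ⟩ := RhoN.exists_mul hq (D * A) (IsCoprime.mul_left hDc hAc)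
  obtain ⟨τ, hτ⟩ := RhoN.exists_mul hq (D * B) (IsCoprime.mul_left hDc hBc)
  unfold rhoq
  refine Eq.trans ?_ (Pool.Agent.H366.GF.Ex_equiv (σ.prodCongr τ) (fun p : Uq K q × Uq K q =>
    if (q : 𝓞 K) ∣ M 0 * rv p.1 - (M 1 * rv p.2 + M 2) then (1 : ℝ) else 0))
  congr 1
  funext p
  have h0 : ∏ i, rv (upd (upd v 0 i₀ p.1) 1 i₁ p.2 0 i) = rv p.1 * A := by
    have : ∀ i, upd (upd v 0 i₀ p.1) 1 i₁ p.2 0 i = Function.update (v 0) i₀ p.1 i := by
      intro i
      simp [upd]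
    rw [Finset.prod_congr rfl fun i _ => by rw [this i], RhoN.prod_upd]
  have h1 : ∏ i, rv (upd (upd v 0 i₀ p.1) 1 i₁ p.2 1 i) = rv p.2 * B := by
    have : ∀ i, upd (upd v 0 i₀ p.1) 1 i₁ p.2 1 i = Function.update (v 1) i₁ p.2 i := by
      intro i
      simp [upd]
    rw [Finset.prod_congr rfl fun i _ => by rw [this i], RhoN.prod_upd]
  have h2 : ∏ i, rv (upd (upd v 0 i₀ p.1) 1 i₁ p.2 2 i) = C := by
    rw [hC]
    refine Finset.prod_congr rfl fun i _ => ?_
    simp [upd]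
  have h3 : Rel s q M (fun X i => rv (upd (upd v 0 i₀ p.1) 1 i₁ p.2 X i)) ↔
      (q : 𝓞 K) ∣ M 0 * (rv p.1 * A) - (M 1 * (rv p.2 * B) + M 2 * C) := by
    unfold Rel
    simp only [h0, h1, h2]
  have h4 : (q : 𝓞 K) ∣ M 0 * (rv p.1 * A) - (M 1 * (rv p.2 * B) + M 2 * C) ↔
      (q : 𝓞 K) ∣ M 0 * rv ((σ.prodCongr τ) p).1 - (M 1 * rv ((σ.prodCongr τ) p).2 + M 2) := by
    have h5 : (q : 𝓞 K) ∣ M 0 * (rv p.1 * A) - (M 1 * (rv p.2 * B) + M 2 * C) ↔
        (q : 𝓞 K) ∣ D * (M 0 * (rv p.1 * A) - (M 1 * (rv p.2 * B) + M 2 * C)) :=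
      ⟨fun h => h.mul_left _, fun h => hDc.symm.dvd_of_dvd_mul_left h⟩
    rw [h5]
    obtain ⟨x, hx⟩ := hσ p.1
    obtain ⟨y, hy⟩ := hτ p.2
    have h6 : M 0 * rv ((σ.prodCongr τ) p).1 - (M 1 * rv ((σ.prodCongr τ) p).2 + M 2) =
        D * (M 0 * (rv p.1 * A) - (M 1 * (rv p.2 * B) + M 2 * C)) +
          (q : 𝓞 K) * (M 0 * x - M 1 * y - E * M 2) := by
      have e1 : rv ((σ.prodCongr τ) p).1 = D * A * rv p.1 + (q : 𝓞 K) * x := by
        rw [← hx]
        show rv (σ p.1) = _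
        ring
      have e2 : rv ((σ.prodCongr τ) p).2 = D * B * rv p.2 + (q : 𝓞 K) * y := by
        rw [← hy]
        show rv (τ p.2) = _
        ring
      rw [e1, e2]
      linear_combination (M 2) * hDE
    rw [h6]
    exact (dvd_add_left (dvd_mul_right _ _)).symm
  by_cases h7 : Rel s q M (fun X i => rv (upd (upd v 0 i₀ p.1) 1 i₁ p.2 X i))
  · rw [if_pos h7, if_pos (h4.1 (h3.1 h7))]
  · rw [if_neg h7, if_neg fun h => h7 (h3.2 (h4.2 h))]

namespace RhoN

lemma inv_pow {R : Type} [CommRing R] {P : Ideal R} (hP : P.IsMaximal) {x : R} (hx : x ∉ P)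
    (e : ℕ) : ∃ y, x * y - 1 ∈ P ^ e := by
  have h1 : IsCoprime (Ideal.span {x}) P := by
    rw [Ideal.isCoprime_iff_sup_eq]
    refine hP.1.2 _ (lt_of_le_of_ne le_sup_right fun h => hx ?_)
    rw [h]
    exact Ideal.mem_sup_left (Ideal.mem_span_singleton_self x)
  have h2 : IsCoprime (Ideal.span {x}) (P ^ e) := h1.pow_right
  rw [Ideal.isCoprime_iff_exists] at h2
  obtain ⟨i, hi, j, hj, hij⟩ := h2
  obtain ⟨y, hy⟩ := Ideal.mem_span_singleton.1 hi
  refine ⟨y, ?_⟩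
  have h3 : x * y - 1 = -j := by
    rw [← hy, ← hij]
    ring
  rw [h3]
  exact (P ^ e).neg_mem hj

/-- local solutions -/
lemma local_sol {P : Ideal (𝓞 K)} (hP : P.IsPrime) (hP0 : P ≠ ⊥) (M : Fin 3 → 𝓞 K)
    (hcop : ∀ X Y, X ≠ Y → IsCoprime (M X) (M Y)) (htwo : P.absNorm = 2 → ∃ X, M X ∈ P)
    (e : ℕ) : ∃ a b : 𝓞 K, a ∉ P ∧ b ∉ P ∧ M 0 * a - (M 1 * b + M 2) ∈ P ^ (e + 1) := by
  have hPm : P.IsMaximal := hP.isMaximal hP0
  have h1P : (1 : 𝓞 K) ∉ P := fun h => hP.ne_top ((Ideal.eq_top_iff_one P).2 h)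
  have hle : P ^ (e + 1) ≤ P := Ideal.pow_le_self (Nat.succ_ne_zero e)
  have hne : ∀ X Y, X ≠ Y → M X ∈ P → M Y ∉ P := by
    intro X Y hXY hX hY
    obtain ⟨a, b, hab⟩ := hcop X Y hXY
    apply h1P
    rw [← hab]
    exact P.add_mem (P.mul_mem_left _ hX) (P.mul_mem_left _ hY)
  by_cases h0 : M 0 ∈ P
  · have h1 : M 1 ∉ P := hne 0 1 (by decide) h0
    have h2 : M 2 ∉ P := hne 0 2 (by decide) h0
    obtain ⟨y, hy⟩ := inv_pow hPm h1 (e + 1)
    refine ⟨1, y * (M 0 - M 2), h1P, fun hb => ?_, ?_⟩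
    · have h3 : M 0 - (M 0 - M 2) + (M 0 - M 2) * (1 - M 1 * y) + M 1 * (y * (M 0 - M 2)) =
          M 0 := by ring
      have h4 : M 2 = M 0 - (M 1 * (y * (M 0 - M 2)) - (M 0 - M 2) * (M 1 * y - 1)) := by ring
      apply h2
      rw [h4]
      exact P.sub_mem h0 (P.sub_mem (P.mul_mem_left _ hb) (P.mul_mem_left _ (hle hy)))
    · have h3 : M 0 * 1 - (M 1 * (y * (M 0 - M 2)) + M 2) = -(M 0 - M 2) * (M 1 * y - 1) := by
        ring
      rw [h3]
      exact (P ^ (e + 1)).mul_mem_left _ hy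
  · obtain ⟨b, hb, hb2⟩ : ∃ b, b ∉ P ∧ M 1 * b + M 2 ∉ P := by
      by_cases h1 : M 1 ∈ P
      · refine ⟨1, h1P, fun h => hne 1 2 (by decide) h1 ?_⟩
        have : M 2 = M 1 * 1 + M 2 - M 1 * 1 := by ring
        rw [this]
        exact P.sub_mem h (P.mul_mem_right _ h1)
      · by_cases h2 : M 2 ∈ P
        · refine ⟨1, h1P, fun h => h1 ?_⟩
          have : M 1 = M 1 * 1 + M 2 - M 2 := by ring
          rw [this]
          exact P.sub_mem h h2
        · by_cases h3 : M 1 * 1 + M 2 ∈ P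
          · by_cases h4 : ∃ c, c ∉ P ∧ c - 1 ∉ P
            · obtain ⟨c, hc, hc1⟩ := h4
              refine ⟨c, hc, fun h => ?_⟩
              have h5 : M 1 * (c - 1) ∈ P := by
                have : M 1 * (c - 1) = (M 1 * c + M 2) - (M 1 * 1 + M 2) := by ring
                rw [this]
                exact P.sub_mem h h3
              rcases hP.mem_or_mem h5 with h6 | h6
              · exact h1 h6
              · exact hc1 h6
            · exfalso
              push Not at h4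
              have h5 : P.absNorm = 2 := by
                rw [Ideal.absNorm_apply, Submodule.cardQuot_apply]
                have h6 : (Set.univ : Set (𝓞 K ⧸ P)) = {0, 1} := by
                  ext z
                  obtain ⟨c, rfl⟩ := Ideal.Quotient.mk_surjective z
                  simp only [Set.mem_univ, Set.mem_insert_iff, Set.mem_singleton_iff, true_iff]
                  by_cases hc : c ∈ P
                  · left
                    exact Ideal.Quotient.eq_zero_iff_mem.2 hc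
                  · right
                    have := h4 c hc
                    rw [← map_one (Ideal.Quotient.mk P), Ideal.Quotient.eq]
                    exact this
                have h7 : (0 : 𝓞 K ⧸ P) ≠ 1 := by
                  intro h
                  apply h1P
                  rw [← Ideal.Quotient.eq_zero_iff_mem, map_one, h]
                rw [← Nat.card_univ, h6, Nat.card_coe_set_eq, Set.ncard_pair h7]
              obtain ⟨X, hX⟩ := htwo h5
              fin_cases X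
              · exact h0 hX
              · exact h1 hX
              · exact h2 hX
          · exact ⟨1, h1P, h3⟩
    obtain ⟨y, hy⟩ := inv_pow hPm h0 (e + 1)
    refine ⟨y * (M 1 * b + M 2), b, fun ha => ?_, hb, ?_⟩
    · apply hb2
      have h4 : M 1 * b + M 2 = M 0 * (y * (M 1 * b + M 2)) -
          (M 1 * b + M 2) * (M 0 * y - 1) := by ring
      rw [h4]
      exact P.sub_mem (P.mul_mem_left _ ha) (P.mul_mem_left _ (hle hy))
    · have h3 : M 0 * (y * (M 1 * b + M 2)) - (M 1 * b + M 2) =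
          (M 1 * b + M 2) * (M 0 * y - 1) := by ring
      rw [h3]
      exact (P ^ (e + 1)).mul_mem_left _ hy

/-- solutions modulo `q` -/
lemma global_sol {q : ℕ} (hq : 0 < q) (M : Fin 3 → 𝓞 K)
    (hcop : ∀ X Y, X ≠ Y → IsCoprime (M X) (M Y))
    (htwo : ∀ P : Ideal (𝓞 K), P.IsPrime → P.absNorm = 2 → ∃ X, M X ∈ P) :
    ∃ a b : 𝓞 K, IsCoprime a (q : 𝓞 K) ∧ IsCoprime b (q : 𝓞 K) ∧
      (q : 𝓞 K) ∣ M 0 * a - (M 1 * b + M 2) := by
  classical
  set I : Ideal (𝓞 K) := Ideal.span {(q : 𝓞 K)} with hI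
  have hq0 : (q : 𝓞 K) ≠ 0 := by exact_mod_cast hq.ne'
  have hI0 : I ≠ ⊥ := by
    rw [hI, Ne, Ideal.span_singleton_eq_bot]
    exact hq0
  set S := (UniqueFactorizationMonoid.normalizedFactors I).toFinset with hS
  set ee : Ideal (𝓞 K) → ℕ := fun P => (UniqueFactorizationMonoid.normalizedFactors I).count P
    with hee
  have hprime : ∀ P ∈ S, Prime P := fun P hP =>
    UniqueFactorizationMonoid.prime_of_normalized_factor P (Multiset.mem_toFinset.1 hP)
  have hloc : ∀ P : S, ∃ a b : 𝓞 K, a ∉ (P : Ideal (𝓞 K)) ∧ b ∉ (P : Ideal (𝓞 K)) ∧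
      M 0 * a - (M 1 * b + M 2) ∈ (P : Ideal (𝓞 K)) ^ (ee P + 1) := fun P =>
    local_sol (Ideal.isPrime_of_prime (hprime P P.2)) (hprime P P.2).ne_zero M hcop
      (htwo _ (Ideal.isPrime_of_prime (hprime P P.2))) _
  choose fa fb hfa hfb hfab using hloc
  obtain ⟨a, ha⟩ := IsDedekindDomain.exists_forall_sub_mem_ideal (s := S) (fun P => P)
    (fun P => ee P + 1) hprime (fun _ _ _ _ h => h) fa
  obtain ⟨b, hb⟩ := IsDedekindDomain.exists_forall_sub_mem_ideal (s := S) (fun P => P)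
    (fun P => ee P + 1) hprime (fun _ _ _ _ h => h) fb
  have hle : ∀ P : Ideal (𝓞 K), P ^ (ee P + 1) ≤ P := fun P => Ideal.pow_le_self (Nat.succ_ne_zero _)
  have hcp : ∀ x : 𝓞 K, (∀ P ∈ S, x ∉ P) → IsCoprime x (q : 𝓞 K) := by
    intro x hx
    rw [← Ideal.isCoprime_span_singleton_iff, Ideal.isCoprime_iff_sup_eq]
    by_contra hne
    obtain ⟨P, hP, hle⟩ := Ideal.exists_le_maximal _ hne
    have hP0 : P ≠ ⊥ := by
      intro h
      rw [h] at hle
      exact hI0 (le_bot_iff.1 (le_trans le_sup_right hle))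
    have hPp : Prime P := Ideal.prime_of_isPrime hP0 hP.isPrime
    have hmem : P ∈ S := by
      rw [hS, Multiset.mem_toFinset, UniqueFactorizationMonoid.mem_normalizedFactors_iff hI0]
      exact ⟨hPp, Ideal.dvd_iff_le.2 (le_trans le_sup_right hle)⟩
    exact hx P hmem (hle (Ideal.mem_sup_left (Ideal.mem_span_singleton_self x)))
  refine ⟨a, b, hcp a fun P hP h => hfa ⟨P, hP⟩ ?_, hcp b fun P hP h => hfb ⟨P, hP⟩ ?_, ?_⟩
  · have h1 := hle P (ha P hP)
    have h2 : fa ⟨P, hP⟩ = a - (a - fa ⟨P, hP⟩) := by ring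
    rw [h2]
    exact P.sub_mem h h1
  · have h1 := hle P (hb P hP)
    have h2 : fb ⟨P, hP⟩ = b - (b - fb ⟨P, hP⟩) := by ring
    rw [h2]
    exact P.sub_mem h h1
  · rw [← Ideal.mem_span_singleton, ← hI]
    have h1 : (∏ P ∈ S, P ^ ee P) = I := by
      conv_rhs => rw [← Ideal.prod_normalizedFactors_eq_self hI0]
      rw [Finset.prod_multiset_count]
    rw [← h1, ← IsDedekindDomain.inf_pow_eq_prod_of_prime S (fun P => P) ee hprime
      (fun _ _ _ _ h => h), Submodule.mem_finsetInf]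
    intro P hP
    have h2 : M 0 * a - (M 1 * b + M 2) ∈ P ^ (ee P + 1) := by
      have h3 : M 0 * a - (M 1 * b + M 2) = M 0 * (a - fa ⟨P, hP⟩) - M 1 * (b - fb ⟨P, hP⟩) +
          (M 0 * fa ⟨P, hP⟩ - (M 1 * fb ⟨P, hP⟩ + M 2)) := by ring
      rw [h3]
      exact Ideal.add_mem _ (Ideal.sub_mem _ (Ideal.mul_mem_left _ _ (ha P hP))
        (Ideal.mul_mem_left _ _ (hb P hP))) (hfab ⟨P, hP⟩)
    exact Ideal.pow_le_pow_right (Nat.le_succ _) h2

end RhoN

/-- [RHO2] there are solutions modulo `q` -/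
theorem rho_pos {κ μ q e₀ γ : ℕ} {M : Fin 3 → 𝓞 K} (hC : Ctx0 κ μ q e₀ γ M) :
    0 < rhoq q M := by
  classical
  obtain ⟨a, b, ha, hb, hab⟩ := RhoN.global_sol hC.qpos M hC.cop hC.two
  obtain ⟨x, hx⟩ := RhoN.exists_red hC.qpos a ha
  obtain ⟨y, hy⟩ := RhoN.exists_red hC.qpos b hb
  have h1 : (q : 𝓞 K) ∣ M 0 * rv x - (M 1 * rv y + M 2) := by
    have h2 : M 0 * rv x - (M 1 * rv y + M 2) = M 0 * (rv x - a) - M 1 * (rv y - b) +
        (M 0 * a - (M 1 * b + M 2)) := by ring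
    rw [h2]
    exact dvd_add (dvd_sub (hx.mul_left _) (hy.mul_left _)) hab
  have : Nonempty (Uq K q) := ⟨x⟩
  unfold rhoq Ex
  refine div_pos ?_ (by exact_mod_cast Fintype.card_pos)
  refine Finset.sum_pos' (fun p _ => ?_) ⟨(x, y), Finset.mem_univ _, ?_⟩
  · split_ifs <;> norm_num
  · rw [if_pos h1]
    exact one_pos

end Pool.Agent.H366.NK
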