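import Pool.Agent.H366.NK.AI
import Pool.Agent.H366.NK.FlatA
import Pool.Agent.H366.NK.Noncop
import Pool.Agent.H366.NK.Rho
import Pool.Agent.H366.GF.AI1

/-! # [FLAT] the weights are flat -/

set_option autoImplicit false

namespace Pool.Agent.H366.NK

open NumberField
open NumberField.mixedEmbedding (mixedSpace normAtPlace)
open Pool.Agent.H366.GF (Ex ExC)

namespace FlatN

open Pool.Agent.H366.GF (Ex_mono Ex_nonneg Ex_const Ex_add Ex_sub Ex_mul_left Ex_mul_right Ex_sum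
  Ex_comm Ex_equiv Ex_prod Ex3 Ex_pw3)

/-! ### abstract averages -/

/-- the final step -/
lemma fin_step {α : Type} [Fintype α] [Nonempty α] (A : α → ℝ) (P : α → Prop) [DecidablePred P]
    (e₁ p : ℝ) (hA : ∀ z, 0 ≤ A z) (hE : Ex A ≤ 1 + e₁)
    (hc : Ex (fun z => if P z then |A z - 1| else 0) ≤ e₁)
    (hn : Ex (fun z => if P z then (0 : ℝ) else 1) ≤ p) :
    Ex (fun z => |A z - 1|) ≤ 3 * e₁ + 2 * p := by
  have hpt : ∀ z, |A z - 1| ≤ 2 * (if P z then |A z - 1| else 0) + A z +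
      2 * (if P z then (0 : ℝ) else 1) - 1 := by
    intro z
    have h0 := hA z
    split_ifs with hcop
    · have := neg_abs_le (A z - 1)
      linarith
    · have : |A z - 1| ≤ A z + 1 := by
        rw [abs_le]; constructor <;> linarith
      linarith
  refine (Ex_mono hpt).trans ?_
  rw [Ex_sub, Ex_add, Ex_add, Ex_mul_left, Ex_mul_left, Ex_const]
  linarith

/-- the coprime part -/
lemma cop_bd {L α : Type} [Fintype L] [Fintype α] [Nonempty α] (P : α → Prop) [DecidablePred P]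
    (c : ℝ) (hc : 0 ≤ c) (a b : L → α → ℝ) (e' e'' : ℝ) (he' : 0 ≤ e')
    (hAI : ∀ l, Ex (fun z => if P z then |a l z - b l z| else 0) ≤ e'')
    (hRS : ∀ z, |∑ l, c * b l z - 1| ≤ e') :
    Ex (fun z => if P z then |∑ l, c * a l z - 1| else 0) ≤
      (Fintype.card L : ℝ) * (c * e'') + e' := by
  have hpt : ∀ z, (if P z then |∑ l, c * a l z - 1| else 0) ≤
      ∑ l, c * (if P z then |a l z - b l z| else 0) + e' := by
    intro z
    split_ifs with h
    · have h1 : ∑ l, c * a l z - 1 = ∑ l, c * (a l z - b l z) + (∑ l, c * b l z - 1) := by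
        rw [← add_sub_assoc, ← Finset.sum_add_distrib]
        congr 1
        exact Finset.sum_congr rfl fun l _ => by ring
      rw [h1]
      refine (abs_add_le _ _).trans (add_le_add ?_ (hRS z))
      refine (Finset.abs_sum_le_sum_abs _ _).trans (le_of_eq ?_)
      exact Finset.sum_congr rfl fun l _ => by rw [abs_mul, abs_of_nonneg hc]
    · simpa using he'
  refine (Ex_mono hpt).trans ?_
  rw [Ex_add, Ex_sum, Ex_const]
  refine add_le_add ?_ le_rfl
  calc ∑ l, Ex (fun z => c * (if P z then |a l z - b l z| else 0)) ≤ ∑ _l : L, c * e'' := by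
        refine Finset.sum_le_sum fun l _ => ?_
        rw [Ex_mul_left]
        exact mul_le_mul_of_nonneg_left (hAI l) hc
    _ = _ := by rw [Finset.sum_const, Finset.card_univ, nsmul_eq_mul]

lemma pow_small (C δ : ℝ) (hδ : 0 < δ) : ∃ n₀ : ℕ, ∀ n : ℕ, n₀ ≤ n → C / 2 ^ n ≤ δ := by
  obtain ⟨n₀, hn₀⟩ := pow_unbounded_of_one_lt (C / δ) (one_lt_two : (1 : ℝ) < 2)
  refine ⟨n₀, fun n hn => ?_⟩
  have h1 : (2 : ℝ) ^ n₀ ≤ 2 ^ n := pow_le_pow_right₀ (by norm_num) hn
  rw [div_lt_iff₀ hδ] at hn₀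
  rw [div_le_iff₀ (by positivity)]
  nlinarith

lemma abs_Ex_le {α : Type} [Fintype α] (f : α → ℝ) : |Ex f| ≤ Ex fun x => |f x| := by
  unfold Pool.Agent.H366.GF.Ex
  rw [abs_div, abs_of_nonneg (Nat.cast_nonneg (Fintype.card α) : (0 : ℝ) ≤ _)]
  exact div_le_div_of_nonneg_right (Finset.abs_sum_le_sum_abs _ _) (Nat.cast_nonneg _)

lemma Ex_coord {σ S : Type} [Fintype σ] [DecidableEq σ] [Fintype S] [Nonempty S] (i : σ)
    (f : S → ℝ) : Ex (fun z : σ → S => f (z i)) = Ex f := by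
  have h1 := Ex_equiv (Equiv.funSplitAt i S) (fun p => f p.1)
  have h2 : (fun z : σ → S => f (z i)) =
    fun z => (fun p : S × ({j // j ≠ i} → S) => f p.1) (Equiv.funSplitAt i S z) := rfl
  rw [h2, h1, Ex_prod]
  congr 1
  funext z
  exact Ex_const (α := {j // j ≠ i} → S) (f z)

section split

variable {κ σ A B C : Type} [Fintype κ] [DecidableEq κ] [Fintype σ] [DecidableEq σ]
  [Fintype A] [Fintype B] [Fintype C]

/-- splitting off the last components -/
def spl (κ σ A B C : Type) : ((κ → σ → A × B) × (κ → σ → C)) ≃ (κ → σ → A × B × C) where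
  toFun p := fun X i => ((p.1 X i).1, (p.1 X i).2, p.2 X i)
  invFun z := (fun X i => ((z X i).1, (z X i).2.1), fun X i => (z X i).2.2)
  left_inv _ := rfl
  right_inv _ := rfl

/-- splitting of a family of pairs -/
def spl2 (κ σ A B : Type) : ((κ → σ → A) × (κ → σ → B)) ≃ (κ → σ → A × B) where
  toFun p := fun X i => (p.1 X i, p.2 X i)
  invFun z := (fun X i => (z X i).1, fun X i => (z X i).2)
  left_inv _ := rfl
  right_inv _ := rfl

lemma Ex_spl (F : (κ → σ → A × B × C) → ℝ) :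
    Ex F = Ex fun a : κ → σ → A × B => Ex fun h : κ → σ → C => F (spl κ σ A B C (a, h)) := by
  rw [← Ex_equiv (spl κ σ A B C) F, Ex_prod]

lemma Ex_fst [Nonempty B] (F : (κ → σ → A) → ℝ) :
    Ex (fun a : κ → σ → A × B => F (fun X i => (a X i).1)) = Ex F := by
  rw [← Ex_equiv (spl2 κ σ A B), Ex_prod]
  congr 1
  funext v
  exact Ex_const (α := κ → σ → B) (F v)

omit [Fintype κ] [DecidableEq κ] [Fintype σ] [Fintype A] [Fintype B] [Fintype C] in
lemma pw_spl (V : κ → Finset σ) (a a' : κ → σ → A × B) (h h' : κ → σ → C) :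
    (fun X => (V X).piecewise (spl κ σ A B C (a, h) X) (spl κ σ A B C (a', h') X)) =
      spl κ σ A B C (fun X => (V X).piecewise (a X) (a' X),
        fun X => (V X).piecewise (h X) (h' X)) := by
  funext X i
  by_cases hi : i ∈ V X
  · simp [spl, Finset.piecewise, hi]
  · simp [spl, Finset.piecewise, hi]

/-- averaging the first components -/
lemma split_bd [Nonempty A] (V : κ → Finset σ) (P : (κ → σ → A) → (κ → σ → B) → Prop)
    [∀ a h, Decidable (P a h)]
    (hP : ∀ (a a' : κ → σ → A) (h : κ → σ → B), P a h →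
      P (fun X => (V X).piecewise (a X) (a' X)) h)
    (W : (κ → σ → A) → (κ → σ → B) → ℝ) (Ψ : (κ → σ → A) → ℝ)
    (hΨ : ∀ a, Ex (fun h : κ → σ → B => if P a h then
      |Ex fun h' : κ → σ → B => W a (fun X => (V X).piecewise (h X) (h' X))| else 0) ≤ Ψ a) :
    Ex (fun a : κ → σ → A => Ex fun h : κ → σ → B => if P a h then
      |Ex fun a' : κ → σ → A => Ex fun h' : κ → σ → B =>
        W (fun X => (V X).piecewise (a X) (a' X)) (fun X => (V X).piecewise (h X) (h' X))|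
      else 0) ≤ Ex Ψ := by
  have h1 : ∀ (a : κ → σ → A) (h : κ → σ → B), (if P a h then
      |Ex fun a' : κ → σ → A => Ex fun h' : κ → σ → B =>
        W (fun X => (V X).piecewise (a X) (a' X)) (fun X => (V X).piecewise (h X) (h' X))|
      else 0) ≤ Ex fun a' : κ → σ → A =>
        if P (fun X => (V X).piecewise (a X) (a' X)) h then
          |Ex fun h' : κ → σ → B => W (fun X => (V X).piecewise (a X) (a' X))
            (fun X => (V X).piecewise (h X) (h' X))| else 0 := by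
    intro a h
    split_ifs with hPa
    · refine (abs_Ex_le _).trans (Ex_mono fun a' => ?_)
      rw [if_pos (hP a a' h hPa)]
    · refine Ex_nonneg fun a' => ?_
      split_ifs
      · exact abs_nonneg _
      · exact le_rfl
  refine (Ex_mono fun a => Ex_mono fun h => h1 a h).trans ?_
  have h2 : ∀ a : κ → σ → A, (Ex fun h : κ → σ → B => Ex fun a' : κ → σ → A =>
        if P (fun X => (V X).piecewise (a X) (a' X)) h then
          |Ex fun h' : κ → σ → B => W (fun X => (V X).piecewise (a X) (a' X))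
            (fun X => (V X).piecewise (h X) (h' X))| else 0) ≤
      Ex fun a' : κ → σ → A => Ψ (fun X => (V X).piecewise (a X) (a' X)) := by
    intro a
    rw [Ex_comm]
    exact Ex_mono fun a' => hΨ _
  refine (Ex_mono h2).trans (le_of_eq ?_)
  exact Ex_pw3 V Ψ

end split

/-! ### residues -/

variable {K : Type} [Field K] [NumberField K]

open Classical in
/-- the density of the solutions modulo `q`, averaged over all residues -/
lemma rel_avg {s q : ℕ} (hs : 0 < s) (hq : 0 < q) (M : Fin 3 → 𝓞 K) :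
    Ex (fun v : Fin 3 → Fin s → Uq K q =>
      if Rel s q M (fun X i => rv (v X i)) then (1 : ℝ) else 0) = rhoq q M := by
  have : Nonempty (Uq K q) := uq_nonempty q hq
  let i₀ : Fin s := ⟨0, hs⟩
  let V : Fin 3 → Finset (Fin s) := ![Finset.univ.erase i₀, Finset.univ.erase i₀, Finset.univ]
  have hpw : ∀ v v' : Fin 3 → Fin s → Uq K q, (fun X => (V X).piecewise (v X) (v' X)) =
      fun X i => upd (upd v 0 i₀ (v' 0 i₀)) 1 i₀ (v' 1 i₀) X i := by
    intro v v'
    funext X i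
    by_cases hi : i = i₀
    · subst hi
      fin_cases X
      · simp [V, upd, Finset.piecewise]
      · simp [V, upd, Finset.piecewise]
      · simp [V, upd, Finset.piecewise]
    · fin_cases X
      · simp [V, upd, Finset.piecewise, hi]
      · simp [V, upd, Finset.piecewise, hi]
      · simp [V, upd, Finset.piecewise]
  rw [← Ex_pw3 V]
  have h1 : ∀ v : Fin 3 → Fin s → Uq K q, (Ex fun v' : Fin 3 → Fin s → Uq K q =>
      if Rel s q M (fun X i => rv ((V X).piecewise (v X) (v' X) i)) then (1 : ℝ) else 0) =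
      rhoq q M := by
    intro v
    have h2 : (fun v' : Fin 3 → Fin s → Uq K q =>
        if Rel s q M (fun X i => rv ((V X).piecewise (v X) (v' X) i)) then (1 : ℝ) else 0) =
        fun v' => (fun (x y _ : Fin s → Uq K q) =>
          if Rel s q M (fun X i => rv (upd (upd v 0 i₀ (x i₀)) 1 i₀ (y i₀) X i)) then (1 : ℝ)
          else 0) (v' 0) (v' 1) (v' 2) := by
      funext v'
      have h3 := hpw v v'
      have h4 : (fun X i => rv ((V X).piecewise (v X) (v' X) i)) =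
          fun X i => rv (upd (upd v 0 i₀ (v' 0 i₀)) 1 i₀ (v' 1 i₀) X i) := by
        funext X i
        exact congrArg rv (congrFun (congrFun h3 X) i)
      rw [h4]
    rw [h2, Ex3 (fun (x y _ : Fin s → Uq K q) =>
      if Rel s q M (fun X i => rv (upd (upd v 0 i₀ (x i₀)) 1 i₀ (y i₀) X i)) then (1 : ℝ)
      else 0)]
    simp only [Ex_const]
    rw [Ex_coord i₀ (fun a : Uq K q => Ex fun y : Fin s → Uq K q =>
      if Rel s q M (fun X i => rv (upd (upd v 0 i₀ a) 1 i₀ (y i₀) X i)) then (1 : ℝ) else 0)]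
    have h5 : ∀ a : Uq K q, (Ex fun y : Fin s → Uq K q =>
        if Rel s q M (fun X i => rv (upd (upd v 0 i₀ a) 1 i₀ (y i₀) X i)) then (1 : ℝ) else 0) =
        Ex fun b : Uq K q =>
          if Rel s q M (fun X i => rv (upd (upd v 0 i₀ a) 1 i₀ b X i)) then (1 : ℝ) else 0 :=
      fun a => Ex_coord i₀ (fun b : Uq K q =>
        if Rel s q M (fun X i => rv (upd (upd v 0 i₀ a) 1 i₀ b X i)) then (1 : ℝ) else 0)
    simp only [h5]
    rw [← Ex_prod (fun p : Uq K q × Uq K q =>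
      if Rel s q M (fun X i => rv (upd (upd v 0 i₀ p.1) 1 i₀ p.2 X i)) then (1 : ℝ) else 0)]
    exact rho_avg hq M v i₀ i₀
  simp only [h1]
  exact Ex_const _

/-! ### the ratios of the multipliers -/

lemma log_prod_bd {N : ℕ} (α : InfinitePlace K → 𝓞 K) (hα : ∀ i, α i ≠ 0) (x : 𝓞 K)
    (hx : x ≠ 0) (f : InfinitePlace K → Fin (2 * N + 1)) (w : InfinitePlace K) :
    |Real.log (w ((x * ∏ i, α i ^ (f i : ℕ) : 𝓞 K) : K)) -
      Real.log (w ((x * ∏ i, α i ^ N : 𝓞 K) : K))| ≤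
      N * ∑ i, ∑ w' : InfinitePlace K, |Real.log (w' (α i : K))| := by
  have hx' : w (x : K) ≠ 0 := by
    intro h
    exact hx (RingOfIntegers.coe_eq_zero_iff.mp ((map_eq_zero w).mp h))
  have hα' : ∀ i, w (α i : K) ≠ 0 := by
    intro i h
    exact hα i (RingOfIntegers.coe_eq_zero_iff.mp ((map_eq_zero w).mp h))
  have h1 : ∀ g : InfinitePlace K → ℕ, Real.log (w ((x * ∏ i, α i ^ g i : 𝓞 K) : K)) =
      Real.log (w (x : K)) + ∑ i, (g i : ℝ) * Real.log (w (α i : K)) := by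
    intro g
    have h2 : ((x * ∏ i, α i ^ g i : 𝓞 K) : K) = (x : K) * ∏ i, (α i : K) ^ g i := by
      push_cast
      rfl
    rw [h2, map_mul, map_prod, Real.log_mul hx' (Finset.prod_ne_zero_iff.mpr fun i _ => by
      rw [map_pow]; exact pow_ne_zero _ (hα' i)), Real.log_prod (fun i _ => by
      rw [map_pow]; exact pow_ne_zero _ (hα' i))]
    congr 1
    exact Finset.sum_congr rfl fun i _ => by rw [map_pow, Real.log_pow]
  rw [h1 (fun i => (f i : ℕ)), h1 (fun _ => N), add_sub_add_left_eq_sub,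
    ← Finset.sum_sub_distrib, Finset.mul_sum]
  refine (Finset.abs_sum_le_sum_abs _ _).trans (Finset.sum_le_sum fun i _ => ?_)
  rw [← sub_mul, abs_mul]
  refine mul_le_mul ?_ ?_ (abs_nonneg _) (Nat.cast_nonneg _)
  · have h3 : ((f i : ℕ) : ℝ) ≤ 2 * N := by
      have := (f i).2
      have h4 : (f i : ℕ) ≤ 2 * N := by omega
      exact_mod_cast h4
    have h5 : (0 : ℝ) ≤ ((f i : ℕ) : ℝ) := Nat.cast_nonneg _
    rw [abs_le]
    constructor <;> linarith
  · exact Finset.single_le_sum (f := fun w' : InfinitePlace K => |Real.log (w' (α i : K))|)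
      (fun w' _ => abs_nonneg _) (Finset.mem_univ w)

/-- the ratios of the multipliers are bounded -/
lemma ratio_bd (N : ℕ) (R₀ : ℝ) (α β : InfinitePlace K → 𝓞 K) (hα : ∀ i, α i ≠ 0)
    (hβ : ∀ i, β i ≠ 0) : ∃ Λ : ℕ, ∀ (κ μ q e₀ γ : ℕ) (m : Fin 3 → 𝓞 K)
    (f : (InfinitePlace K → Fin (2 * N + 1)) × (InfinitePlace K → Fin (2 * N + 1))),
    Ctx0 κ μ q e₀ γ (MM m α β f) → BaseOK N R₀ m α β → Ctx κ Λ μ q e₀ γ (MM m α β f) := by
  let L : ℝ := |R₀| + N * (∑ i, ∑ w' : InfinitePlace K, |Real.log (w' (α i : K))|) +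
    N * (∑ i, ∑ w' : InfinitePlace K, |Real.log (w' (β i : K))|)
  refine ⟨⌈Real.exp (2 * L)⌉₊, ?_⟩
  intro κ μ q e₀ γ m f hC hB
  have hMne : ∀ X, MM m α β f X ≠ 0 := by
    intro X h
    obtain ⟨w⟩ : Nonempty (InfinitePlace K) := inferInstance
    have h1 := hC.Mge X w
    rw [h] at h1
    simp at h1
    linarith
  have hm0 : m 0 ≠ 0 := by
    intro h
    apply hMne 0
    simp [MM, h]
  have hm1 : m 1 ≠ 0 := by
    intro h
    apply hMne 1
    simp [MM, h]
  have hS0 : 0 ≤ N * (∑ i, ∑ w' : InfinitePlace K, |Real.log (w' (α i : K))|) :=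
    mul_nonneg (Nat.cast_nonneg _) (Finset.sum_nonneg fun i _ => Finset.sum_nonneg fun w _ =>
      abs_nonneg _)
  have hS1 : 0 ≤ N * (∑ i, ∑ w' : InfinitePlace K, |Real.log (w' (β i : K))|) :=
    mul_nonneg (Nat.cast_nonneg _) (Finset.sum_nonneg fun i _ => Finset.sum_nonneg fun w _ =>
      abs_nonneg _)
  have hR : R₀ ≤ |R₀| := le_abs_self _
  have hR0 : 0 ≤ |R₀| := abs_nonneg _
  -- all logarithms are close to the one of the base multiplier
  have hlog : ∀ X (w : InfinitePlace K), |Real.log (w (MM m α β f X : K)) -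
      Real.log (w ((m 0 * ∏ i, α i ^ N : 𝓞 K) : K))| ≤ L := by
    intro X w
    obtain ⟨hB1, hB2⟩ := hB w
    fin_cases X
    · have h1 := log_prod_bd α hα (m 0) hm0 f.1 w
      change |Real.log (w ((m 0 * ∏ i, α i ^ (f.1 i : ℕ) : 𝓞 K) : K)) - _| ≤ L
      refine h1.trans ?_
      simp only [L]
      linarith
    · have h1 := log_prod_bd β hβ (m 1) hm1 f.2 w
      change |Real.log (w ((m 1 * ∏ i, β i ^ (f.2 i : ℕ) : 𝓞 K) : K)) - _| ≤ L
      have h2 := abs_sub_le (Real.log (w ((m 1 * ∏ i, β i ^ (f.2 i : ℕ) : 𝓞 K) : K)))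
        (Real.log (w ((m 1 * ∏ i, β i ^ N : 𝓞 K) : K)))
        (Real.log (w ((m 0 * ∏ i, α i ^ N : 𝓞 K) : K)))
      refine h2.trans ?_
      simp only [L]
      linarith
    · change |Real.log (w ((m 2 : 𝓞 K) : K)) - _| ≤ L
      refine hB2.trans ?_
      simp only [L]
      linarith
  refine ⟨hC.toQOK, hC.smooth, hC.Mge, hC.Mle, hC.cop 0 1 (by decide), ?_⟩
  intro X Y w
  have hX : 0 < w (MM m α β f X : K) := lt_of_lt_of_le one_pos (hC.Mge X w)
  have hY : 0 < w (MM m α β f Y : K) := lt_of_lt_of_le one_pos (hC.Mge Y w)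
  have h1 := abs_le.mp (hlog X w)
  have h2 := abs_le.mp (hlog Y w)
  have h3 : Real.log (w (MM m α β f X : K)) ≤ 2 * L + Real.log (w (MM m α β f Y : K)) := by
    linarith [h1.2, h2.1]
  have h4 := Real.exp_le_exp.mpr h3
  rw [Real.exp_add, Real.exp_log hX, Real.exp_log hY] at h4
  exact h4.trans (mul_le_mul_of_nonneg_right (Nat.le_ceil _) hY.le)

/-! ### the weights -/

lemma nm_nonneg (x : K) : 0 ≤ nm x := abs_nonneg _

lemma NN_nonneg (s q d : ℕ) (M : 𝓞 K) (g : Fin s → 𝓞 K) : 0 ≤ NN s q d M g := by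
  unfold NN
  have h1 := nm_nonneg (M : K)
  have h2 : 0 ≤ ∏ i, nm (g i : K) := Finset.prod_nonneg fun i _ => nm_nonneg _
  positivity

lemma Wt_nonneg (s q d : ℕ) (M : Fin 3 → 𝓞 K) (v g : Fin 3 → Fin s → 𝓞 K)
    (z : Fin 3 → Fin s → JJ K → Fin (2 ^ d)) : 0 ≤ Wt s q d M v g z := by
  unfold Wt
  split_ifs
  · exact NN_nonneg _ _ _ _ _
  · exact le_rfl

lemma rhoq_nonneg (q : ℕ) (M : Fin 3 → 𝓞 K) : 0 ≤ rhoq q M := by
  unfold rhoq
  refine Ex_nonneg fun p => ?_
  split_ifs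
  · exact zero_le_one
  · exact le_rfl

lemma Wf_nonneg {u Θ : ℝ} {H₀ q d s : ℕ} (τ : mixedSpace K) (ρ : ℝ) (M : Fin 3 → 𝓞 K)
    (z : Fin 3 → Fin s → Slot K u Θ H₀ q d) : 0 ≤ Wf τ ρ M z := by
  unfold Wf
  split_ifs
  · exact div_nonneg (Wt_nonneg _ _ _ _ _ _ _) (rhoq_nonneg _ _)
  · exact le_rfl

/-- solutions satisfy the congruence -/
lemma Wt_eq_zero {s q d : ℕ} {M : Fin 3 → 𝓞 K} {v g : Fin 3 → Fin s → 𝓞 K}
    (hrel : ¬ Rel s q M v) (z : Fin 3 → Fin s → JJ K → Fin (2 ^ d)) : Wt s q d M v g z = 0 := by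
  unfold Wt
  rw [if_neg]
  intro h
  apply hrel
  obtain ⟨x0, h0⟩ := dvd_prod_zz (q := q) (v 0) (g 0) (z 0) Finset.univ
  obtain ⟨x1, h1⟩ := dvd_prod_zz (q := q) (v 1) (g 1) (z 1) Finset.univ
  obtain ⟨x2, h2⟩ := dvd_prod_zz (q := q) (v 2) (g 2) (z 2) Finset.univ
  refine ⟨M 1 * x1 + M 2 * x2 - M 0 * x0, ?_⟩
  linear_combination h + (-M 0) * h0 + M 1 * h1 + M 2 * h2

/-! ### averaging the analytic input over residues and cells -/

section avg

variable {c γ : ℕ} {u Θ : ℝ} {H₀ q d s : ℕ}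

/-- the coprimality condition -/
def PP (V : Fin 3 → Finset (Fin s)) (z : Fin 3 → Fin s → Slot K u Θ H₀ q d) : Prop :=
  IsCoprime (∏ i ∈ V 0, zz q d (sv z 0 i) (sg z 0 i) (sh z 0 i))
    (∏ i ∈ V 1, zz q d (sv z 1 i) (sg z 1 i) (sh z 1 i))

/-- slots from residues with cells and last components -/
abbrev jn (a : Fin 3 → Fin s → Uq K q × Cell K u Θ H₀) (h : Fin 3 → Fin s → JJ K → Fin (2 ^ d)) :
    Fin 3 → Fin s → Slot K u Θ H₀ q d :=
  spl (Fin 3) (Fin s) (Uq K q) (Cell K u Θ H₀) (JJ K → Fin (2 ^ d)) (a, h)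

lemma PP_pw (V : Fin 3 → Finset (Fin s)) (a a' : Fin 3 → Fin s → Uq K q × Cell K u Θ H₀)
    (h : Fin 3 → Fin s → JJ K → Fin (2 ^ d)) (hP : PP V (jn a h)) :
    PP V (jn (fun X => (V X).piecewise (a X) (a' X)) h) := by
  have h1 : ∀ X, ∀ i ∈ V X, zz q d
      (sv (jn (fun X => (V X).piecewise (a X) (a' X)) h) X i)
      (sg (jn (fun X => (V X).piecewise (a X) (a' X)) h) X i)
      (sh (jn (fun X => (V X).piecewise (a X) (a' X)) h) X i) =
      zz q d (sv (jn a h) X i) (sg (jn a h) X i) (sh (jn a h) X i) := by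
    intro X i hi
    have h2 : (V X).piecewise (a X) (a' X) i = a X i := Finset.piecewise_eq_of_mem _ _ _ hi
    change zz q d (rv ((V X).piecewise (a X) (a' X) i).1) (cg ((V X).piecewise (a X) (a' X) i).2)
      (h X i) = zz q d (rv (a X i).1) (cg (a X i).2) (h X i)
    rw [h2]
  unfold PP at hP ⊢
  rw [Finset.prod_congr rfl (h1 0), Finset.prod_congr rfl (h1 1)]
  exact hP

open Classical in
lemma AI_avg [Nonempty (Cell K u Θ H₀)] (hs : 0 < s) (hq : 0 < q) (τ : mixedSpace K) (ρ : ℝ)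
    (M : Fin 3 → 𝓞 K) (hρ : 0 < rhoq q M) (K' : ℕ) (V : Fin 3 → Finset (Fin s)) (e'' : ℝ)
    (he : 0 ≤ e'')
    (hslot : ∀ (v : Uq K q) (j : Cell K u Θ H₀), SlotOK c q γ (rv v) (cg j))
    (hAI : ∀ v g : Fin 3 → Fin s → 𝓞 K, (∀ X i, SlotOK c q γ (v X i) (g X i)) → Rel s q M v →
      Ex (fun z : Fin 3 → Fin s → JJ K → Fin (2 ^ d) =>
        if IsCoprime (∏ i ∈ V 0, zz q d (v 0 i) (g 0 i) (z 0 i))
          (∏ i ∈ V 1, zz q d (v 1 i) (g 1 i) (z 1 i))
        then |Ex (fun z' : Fin 3 → Fin s → JJ K → Fin (2 ^ d) =>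
            Wt s q d M v g (fun X => (V X).piecewise (z X) (z' X))) -
          Ex (fun z' : Fin 3 → Fin s → JJ K → Fin (2 ^ d) =>
            Ws s q d K' M v g (fun X => (V X).piecewise (z X) (z' X)))|
        else 0) ≤ e'') :
    Ex (fun z : Fin 3 → Fin s → Slot K u Θ H₀ q d => if PP V z then
      |Ex (fun z' : Fin 3 → Fin s → Slot K u Θ H₀ q d =>
          Wf τ ρ M (fun X => (V X).piecewise (z X) (z' X))) -
        Ex (fun z' : Fin 3 → Fin s → Slot K u Θ H₀ q d =>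
          Wm K' τ ρ M (fun X => (V X).piecewise (z X) (z' X)))| else 0) ≤ e'' := by
  have : Nonempty (Uq K q) := uq_nonempty q hq
  let W : (Fin 3 → Fin s → Uq K q × Cell K u Θ H₀) → (Fin 3 → Fin s → JJ K → Fin (2 ^ d)) → ℝ :=
    fun a h => Wf τ ρ M (jn a h) - Wm K' τ ρ M (jn a h)
  let Ψ : (Fin 3 → Fin s → Uq K q × Cell K u Θ H₀) → ℝ := fun a =>
    (e'' / rhoq q M) * (if Rel s q M (fun X i => rv (a X i).1) then (1 : ℝ) else 0)
  have hΨ : ∀ a, Ex (fun h : Fin 3 → Fin s → JJ K → Fin (2 ^ d) => if PP V (jn a h) then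
      |Ex fun h' : Fin 3 → Fin s → JJ K → Fin (2 ^ d) =>
        W a (fun X => (V X).piecewise (h X) (h' X))| else 0) ≤ Ψ a := by
    intro a
    have hΨ0 : 0 ≤ Ψ a := by
      refine mul_nonneg (div_nonneg he hρ.le) ?_
      split_ifs
      · exact zero_le_one
      · exact le_rfl
    -- when the weights vanish
    have hzero : (∀ h, W a h = 0) → Ex (fun h : Fin 3 → Fin s → JJ K → Fin (2 ^ d) =>
        if PP V (jn a h) then |Ex fun h' : Fin 3 → Fin s → JJ K → Fin (2 ^ d) =>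
          W a (fun X => (V X).piecewise (h X) (h' X))| else 0) ≤ Ψ a := by
      intro h0
      simp only [h0]
      have h1 : ∀ h : Fin 3 → Fin s → JJ K → Fin (2 ^ d), (if PP V (jn a h) then
          |Ex fun _ : Fin 3 → Fin s → JJ K → Fin (2 ^ d) => (0 : ℝ)| else 0) = 0 := by
        intro h
        split_ifs
        · rw [Ex_const, abs_zero]
        · rfl
      simp only [h1]
      rw [Ex_const]
      exact hΨ0
    by_cases hT : TC τ ρ M (fun X i => cg (a X i).2)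
    · by_cases hR : Rel s q M (fun X i => rv (a X i).1)
      · have hWa : ∀ h, W a h = (rhoq q M)⁻¹ *
            (Wt s q d M (fun X i => rv (a X i).1) (fun X i => cg (a X i).2) h -
              Ws s q d K' M (fun X i => rv (a X i).1) (fun X i => cg (a X i).2) h) := by
          intro h
          have h1 : Wf τ ρ M (jn a h) =
              Wt s q d M (fun X i => rv (a X i).1) (fun X i => cg (a X i).2) h / rhoq q M :=
            if_pos hT
          have h2 : Wm K' τ ρ M (jn a h) =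
              Ws s q d K' M (fun X i => rv (a X i).1) (fun X i => cg (a X i).2) h / rhoq q M :=
            if_pos ⟨hR, hT⟩
          change Wf τ ρ M (jn a h) - Wm K' τ ρ M (jn a h) = _
          rw [h1, h2]
          ring
        have h3 := hAI (fun X i => rv (a X i).1) (fun X i => cg (a X i).2)
          (fun X i => hslot _ _) hR
        have h4 : ∀ h : Fin 3 → Fin s → JJ K → Fin (2 ^ d), (if PP V (jn a h) then
            |Ex fun h' : Fin 3 → Fin s → JJ K → Fin (2 ^ d) =>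
              W a (fun X => (V X).piecewise (h X) (h' X))| else 0) =
            (rhoq q M)⁻¹ * (if IsCoprime
              (∏ i ∈ V 0, zz q d (rv (a 0 i).1) (cg (a 0 i).2) (h 0 i))
              (∏ i ∈ V 1, zz q d (rv (a 1 i).1) (cg (a 1 i).2) (h 1 i))
            then |Ex (fun z' : Fin 3 → Fin s → JJ K → Fin (2 ^ d) =>
                Wt s q d M (fun X i => rv (a X i).1) (fun X i => cg (a X i).2)
                  (fun X => (V X).piecewise (h X) (z' X))) -
              Ex (fun z' : Fin 3 → Fin s → JJ K → Fin (2 ^ d) =>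
                Ws s q d K' M (fun X i => rv (a X i).1) (fun X i => cg (a X i).2)
                  (fun X => (V X).piecewise (h X) (z' X)))|
            else 0) := by
          intro h
          simp only [hWa]
          rw [Ex_mul_left, Ex_sub, abs_mul, abs_of_nonneg (inv_nonneg.mpr hρ.le)]
          by_cases hc : IsCoprime (∏ i ∈ V 0, zz q d (rv (a 0 i).1) (cg (a 0 i).2) (h 0 i))
              (∏ i ∈ V 1, zz q d (rv (a 1 i).1) (cg (a 1 i).2) (h 1 i))
          · have hc' : PP V (jn a h) := hc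
            rw [if_pos hc, if_pos hc']
          · have hc' : ¬ PP V (jn a h) := hc
            rw [if_neg hc, if_neg hc', mul_zero]
        simp only [h4]
        rw [Ex_mul_left]
        have h5 : Ψ a = (rhoq q M)⁻¹ * e'' := by
          change (e'' / rhoq q M) * (if Rel s q M (fun X i => rv (a X i).1) then (1 : ℝ) else 0) = _
          rw [if_pos hR, mul_one, div_eq_mul_inv, mul_comm]
        rw [h5]
        exact mul_le_mul_of_nonneg_left h3 (inv_nonneg.mpr hρ.le)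
      · apply hzero
        intro h
        have h1 : Wf τ ρ M (jn a h) =
            Wt s q d M (fun X i => rv (a X i).1) (fun X i => cg (a X i).2) h / rhoq q M :=
          if_pos hT
        have h2 : Wm K' τ ρ M (jn a h) = 0 := if_neg fun hc => hR hc.1
        change Wf τ ρ M (jn a h) - Wm K' τ ρ M (jn a h) = 0
        rw [h1, h2, Wt_eq_zero hR, zero_div, sub_zero]
    · apply hzero
      intro h
      have h1 : Wf τ ρ M (jn a h) = 0 := if_neg hT
      have h2 : Wm K' τ ρ M (jn a h) = 0 := if_neg fun hc => hT hc.2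
      change Wf τ ρ M (jn a h) - Wm K' τ ρ M (jn a h) = 0
      rw [h1, h2, sub_zero]
  have key := split_bd V (fun a h => PP V (jn a h)) (fun a a' h => PP_pw V a a' h) W Ψ hΨ
  have hEΨ : Ex Ψ = e'' := by
    change Ex (fun a : Fin 3 → Fin s → Uq K q × Cell K u Θ H₀ => (e'' / rhoq q M) *
      (if Rel s q M (fun X i => rv (a X i).1) then (1 : ℝ) else 0)) = e''
    rw [Ex_mul_left, Ex_fst (fun v : Fin 3 → Fin s → Uq K q =>
      if Rel s q M (fun X i => rv (v X i)) then (1 : ℝ) else 0), rel_avg hs hq M,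
      div_mul_cancel₀ _ hρ.ne']
  rw [hEΨ] at key
  refine le_trans (le_of_eq ?_) key
  rw [Ex_spl]
  congr 1
  funext a
  congr 1
  funext h
  congr 1
  congr 1
  rw [← Ex_sub, Ex_spl]
  congr 1
  funext a'
  congr 1
  funext h'
  rw [pw_spl]

open Classical in
lemma noncop_avg [Nonempty (Cell K u Θ H₀)] (hq : 0 < q) (V : Fin 3 → Finset (Fin s)) (p : ℝ)
    (hslot : ∀ (v : Uq K q) (j : Cell K u Θ H₀), SlotOK c q γ (rv v) (cg j))
    (hn : ∀ v g : Fin 3 → Fin s → 𝓞 K, (∀ X i, SlotOK c q γ (v X i) (g X i)) →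
      Ex (fun z₀ : Fin s → JJ K → Fin (2 ^ d) => Ex (fun z₁ : Fin s → JJ K → Fin (2 ^ d) =>
        if IsCoprime (∏ i ∈ V 0, zz q d (v 0 i) (g 0 i) (z₀ i))
          (∏ i ∈ V 1, zz q d (v 1 i) (g 1 i) (z₁ i))
        then (0 : ℝ) else 1)) ≤ p) :
    Ex (fun z : Fin 3 → Fin s → Slot K u Θ H₀ q d => if PP V z then (0 : ℝ) else 1) ≤ p := by
  have : Nonempty (Uq K q) := uq_nonempty q hq
  rw [Ex_spl]
  have h1 : ∀ a : Fin 3 → Fin s → Uq K q × Cell K u Θ H₀,
      (Ex fun h : Fin 3 → Fin s → JJ K → Fin (2 ^ d) =>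
        if PP V (jn a h) then (0 : ℝ) else 1) ≤ p := by
    intro a
    refine le_trans (le_of_eq ?_) (hn (fun X i => rv (a X i).1) (fun X i => cg (a X i).2)
      (fun X i => hslot _ _))
    have h2 := Ex3 (fun z₀ z₁ _ : Fin s → JJ K → Fin (2 ^ d) =>
      if IsCoprime (∏ i ∈ V 0, zz q d (rv (a 0 i).1) (cg (a 0 i).2) (z₀ i))
        (∏ i ∈ V 1, zz q d (rv (a 1 i).1) (cg (a 1 i).2) (z₁ i)) then (0 : ℝ) else 1)
    refine Eq.trans ?_ (h2.trans ?_)
    · rfl
    · simp only [Ex_const]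
  exact (Ex_mono h1).trans (le_of_eq (Ex_const p))

end avg

end FlatN

variable {K : Type} [Field K] [NumberField K]

open FlatN in
open Pool.Agent.H366.GF (Ex_mono Ex_nonneg Ex_const Ex_add Ex_sub Ex_mul_left Ex_sum Ex_pw3) in
/-- [FLAT] -/
theorem FLAT {c : ℕ} (hc : Cst K c) (k : ℕ) (α β : InfinitePlace K → 𝓞 K)
    (hα : LogInd α) (hβ : LogInd β) (R₀ ε : ℝ) (hε : 0 < ε) : ∃ ρ₀ : ℝ, 0 < ρ₀ ∧
    ∀ ρ : ℝ, 0 < ρ → ρ ≤ ρ₀ → ∃ Θ : ℝ, 2 ≤ Θ ∧ ∃ N : ℕ, ∃ U₁ : ℝ, ∀ u : ℝ, 0 < u →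
    U₁ ≤ u * Real.exp (-Θ) → ∀ γ : ℕ, u * Real.exp Θ ≤ 2 ^ γ →
    ∃ (H₀ : ℕ) (A : ℝ) (κ₀ : ℕ), 0 < A ∧ Nonempty (Cell K u Θ H₀) ∧
    ∀ (κ μ q e₀ : ℕ) (m : Fin 3 → 𝓞 K), κ₀ ≤ κ →
    (∀ f, Ctx0 κ μ q e₀ γ (MM (N := N) m α β f)) → BaseOK N R₀ m α β →
    ∃ d₀ : ℕ, ∀ d : ℕ, d₀ ≤ d → ∀ τ : mixedSpace K, TauOK R₀ τ →
    ∀ V : Fin 3 → Finset (Fin (4 * k + 4)), (∀ X, (V X).card ≤ k) →
    Ex (fun z : Fin 3 → Fin (4 * k + 4) → Slot K u Θ H₀ q d =>
      |Ex (fun z' : Fin 3 → Fin (4 * k + 4) → Slot K u Θ H₀ q d => ∑ f, A *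
        Wf τ ρ (MM (N := N) m α β f) (fun X => (V X).piecewise (z X) (z' X))) - 1|) ≤ ε := by
  classical
  obtain ⟨ρ₀, hρ₀, hFA⟩ := FLATA hc (4 * k + 4) (by omega) α β hα hβ R₀ (ε / 24) (by positivity)
  refine ⟨ρ₀, hρ₀, fun ρ hρ hρ' => ?_⟩
  obtain ⟨Θ, hΘ, N, hN⟩ := hFA ρ hρ hρ'
  obtain ⟨U₁, hU₁⟩ := hN N le_rfl
  refine ⟨Θ, hΘ, N, max U₁ (2 ^ (c + 4)), ?_⟩
  intro u hu hU γ hγ
  have hU1 : U₁ ≤ u * Real.exp (-Θ) := (le_max_left _ _).trans hU
  have hU2 : 2 ^ (c + 4) ≤ u * Real.exp (-Θ) := (le_max_right _ _).trans hU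
  obtain ⟨H₀, A, hA, hCell, hmain⟩ := hU₁ u hu hU1 γ hγ
  obtain ⟨Λ, hΛ⟩ := ratio_bd N R₀ α β hα.1 hβ.1
  have hLne : Nonempty ((InfinitePlace K → Fin (2 * N + 1)) × (InfinitePlace K → Fin (2 * N + 1))) :=
    ⟨(fun _ => ⟨0, by omega⟩, fun _ => ⟨0, by omega⟩)⟩
  set nL : ℝ := (Fintype.card ((InfinitePlace K → Fin (2 * N + 1)) ×
    (InfinitePlace K → Fin (2 * N + 1))) : ℝ) with hnL
  have hnL0 : 0 < nL := by rw [hnL]; exact_mod_cast Fintype.card_pos
  have hε'' : 0 < ε / 24 / (nL * A) := by positivity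
  obtain ⟨κ₁, hAI⟩ := AI hc k Λ γ (ε / 24 / (nL * A)) hε''
  obtain ⟨C₁, hC₁⟩ := noncop hc
  obtain ⟨κ₂, hκ₂⟩ := pow_small ((k : ℝ) ^ 2 * 2 ^ C₁) (ε / 8) (by positivity)
  refine ⟨H₀, A, max κ₁ κ₂, hA, hCell, ?_⟩
  intro κ μ q e₀ m hκ hC hB
  obtain ⟨f₀⟩ := hLne
  have hQ : QOK κ q e₀ γ := (hC f₀).toQOK
  choose d₁ hd₁ using fun f => hAI κ μ q e₀ (MM (N := N) m α β f) ((le_max_left _ _).trans hκ)
    (hΛ κ μ q e₀ γ m f (hC f) hB)
  obtain ⟨d₂, hd₂⟩ := hmain κ μ q e₀ m hC hB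
  obtain ⟨d₃, hd₃⟩ := hC₁ k (4 * k + 4) hQ (ε / 8) (by positivity)
  refine ⟨max (Finset.univ.sup d₁) (max d₂ d₃), ?_⟩
  intro d hd τ hτ V hV
  have hdl : ∀ f, d₁ f ≤ d := fun f =>
    (Finset.le_sup (f := d₁) (Finset.mem_univ f)).trans ((le_max_left _ _).trans hd)
  have hd2 : d₂ ≤ d := (le_max_left _ _).trans ((le_max_right _ _).trans hd)
  have hd3 : d₃ ≤ d := (le_max_right _ _).trans ((le_max_right _ _).trans hd)
  have hUne : Nonempty (Uq K q) := uq_nonempty q hQ.qpos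
  have hSne : Nonempty (Slot K u Θ H₀ q d) :=
    ⟨(Classical.choice hUne, Classical.choice hCell, fun _ => ⟨0, Nat.two_pow_pos d⟩)⟩
  have hslot : ∀ (v : Uq K q) (j : Cell K u Θ H₀), SlotOK c q γ (rv v) (cg j) :=
    fun v j => slotOK hc hu hU2 hγ v j
  have hcop : ∀ V' : Fin 3 → Finset (Fin (4 * k + 4)), (∀ X, (V' X).card ≤ k) →
      Ex (fun z : Fin 3 → Fin (4 * k + 4) → Slot K u Θ H₀ q d => if PP V' z
        then |Ex (fun z' : Fin 3 → Fin (4 * k + 4) → Slot K u Θ H₀ q d => ∑ f, A *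
          Wf τ ρ (MM (N := N) m α β f) (fun X => (V' X).piecewise (z X) (z' X))) - 1|
        else 0) ≤ ε / 12 := by
    intro V' hV'
    have hsum : ∀ (W : ((InfinitePlace K → Fin (2 * N + 1)) × (InfinitePlace K → Fin (2 * N + 1))) →
        (Fin 3 → Fin (4 * k + 4) → Slot K u Θ H₀ q d) → ℝ), Ex (fun z' => ∑ f, A * W f z') =
        ∑ f, A * Ex (W f) := by
      intro W
      rw [Ex_sum]
      exact Finset.sum_congr rfl fun f _ => Ex_mul_left _ _
    have h1 := cop_bd (fun z : Fin 3 → Fin (4 * k + 4) → Slot K u Θ H₀ q d => PP V' z) A hA.le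
      (fun f z => Ex (fun z' : Fin 3 → Fin (4 * k + 4) → Slot K u Θ H₀ q d =>
        Wf τ ρ (MM (N := N) m α β f) (fun X => (V' X).piecewise (z X) (z' X))))
      (fun f z => Ex (fun z' : Fin 3 → Fin (4 * k + 4) → Slot K u Θ H₀ q d =>
        Wm (KS c (4 * k + 4) μ e₀ d) τ ρ (MM (N := N) m α β f)
          (fun X => (V' X).piecewise (z X) (z' X))))
      (ε / 24) (ε / 24 / (nL * A)) (by positivity)
      (fun f => AI_avg (c := c) (γ := γ) (by omega) hQ.qpos τ ρ (MM (N := N) m α β f)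
        (rho_pos (hC f)) (KS c (4 * k + 4) μ e₀ d) V' (ε / 24 / (nL * A)) hε''.le hslot
        (fun v g hvg hrel => hd₁ f d (hdl f) v g hvg hrel V' hV'))
      (fun z => by
        rw [← hsum]
        exact hd₂ d hd2 τ hτ V' (fun X => by have := hV' X; omega) z)
    have h2 : nL * (A * (ε / 24 / (nL * A))) = ε / 24 := by field_simp
    rw [← hnL, h2] at h1
    refine le_trans (le_of_eq ?_) (h1.trans (by linarith))
    congr 1
    funext z
    rw [hsum]
  have hE : Ex (fun z : Fin 3 → Fin (4 * k + 4) → Slot K u Θ H₀ q d =>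
      Ex (fun z' : Fin 3 → Fin (4 * k + 4) → Slot K u Θ H₀ q d => ∑ f, A *
        Wf τ ρ (MM (N := N) m α β f) (fun X => (V X).piecewise (z X) (z' X)))) ≤
      1 + ε / 12 := by
    rw [Ex_pw3 V (fun z => ∑ f, A * Wf τ ρ (MM (N := N) m α β f) z),
      ← Ex_pw3 (fun _ => ∅) (fun z => ∑ f, A * Wf τ ρ (MM (N := N) m α β f) z)]
    have h1 := hcop (fun _ => ∅) (fun _ => Nat.zero_le _)
    have h2 : ∀ z : Fin 3 → Fin (4 * k + 4) → Slot K u Θ H₀ q d,
        Ex (fun z' : Fin 3 → Fin (4 * k + 4) → Slot K u Θ H₀ q d => ∑ f, A *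
          Wf τ ρ (MM (N := N) m α β f)
            (fun X => (∅ : Finset (Fin (4 * k + 4))).piecewise (z X) (z' X))) ≤ 1 +
        (if PP (fun _ => (∅ : Finset (Fin (4 * k + 4)))) z
        then |Ex (fun z' : Fin 3 → Fin (4 * k + 4) → Slot K u Θ H₀ q d => ∑ f, A *
          Wf τ ρ (MM (N := N) m α β f)
            (fun X => (∅ : Finset (Fin (4 * k + 4))).piecewise (z X) (z' X))) - 1| else 0) := by
      intro z
      have hPP : PP (fun _ => (∅ : Finset (Fin (4 * k + 4)))) z := by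
        unfold PP
        rw [Finset.prod_empty, Finset.prod_empty]
        exact isCoprime_one_left
      rw [if_pos hPP]
      have := le_abs_self (Ex (fun z' : Fin 3 → Fin (4 * k + 4) → Slot K u Θ H₀ q d => ∑ f, A *
          Wf τ ρ (MM (N := N) m α β f)
            (fun X => (∅ : Finset (Fin (4 * k + 4))).piecewise (z X) (z' X))) - 1)
      linarith
    refine (Ex_mono h2).trans ?_
    rw [Ex_add, Ex_const]
    exact add_le_add le_rfl h1
  have hn : Ex (fun z : Fin 3 → Fin (4 * k + 4) → Slot K u Θ H₀ q d =>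
      if PP V z then (0 : ℝ) else 1) ≤ ε / 4 := by
    refine noncop_avg (c := c) (γ := γ) hQ.qpos V (ε / 4) hslot (fun v g hvg => ?_)
    refine (hd₃ d hd3 v g hvg V hV).trans ?_
    have h1 := hκ₂ κ ((le_max_right _ _).trans hκ)
    linarith
  have := fin_step (fun z : Fin 3 → Fin (4 * k + 4) → Slot K u Θ H₀ q d =>
      Ex (fun z' : Fin 3 → Fin (4 * k + 4) → Slot K u Θ H₀ q d => ∑ f, A *
        Wf τ ρ (MM (N := N) m α β f) (fun X => (V X).piecewise (z X) (z' X))))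
    (fun z => PP V z) (ε / 12) (ε / 4)
    (fun z => Ex_nonneg fun z' => Finset.sum_nonneg fun f _ => mul_nonneg hA.le
      (Wf_nonneg _ _ _ _)) hE (hcop V hV) hn
  linarith

end Pool.Agent.H366.NK
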