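import Mathlib

/-! # The single-valued polylogarithms: definition -/

set_option autoImplicit false

namespace Pool.Agent.H366.NK

open NumberField
open NumberField.mixedEmbedding (mixedSpace normAtPlace)

/-- the polylogarithm `Li_k(z) = ∑_{m ≥ 1} z^m / m^k`, `|z| < 1` -/
noncomputable def PLc (k : ℕ) (z : ℂ) : ℂ := ∑' m : ℕ, z ^ (m + 1) / ((m : ℂ) + 1) ^ k

/-- `∑_{k < n} (2^k B_k / k!) log|z|^k Li_{n-k}(z)` -/
noncomputable def SVz (n : ℕ) (z : ℂ) : ℂ :=
  ∑ k ∈ Finset.range n, (((2 : ℝ) ^ k * ((bernoulli k : ℚ) : ℝ) / (k.factorial : ℝ) *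
    Real.log ‖z‖ ^ k : ℝ) : ℂ) * PLc (n - k) z

/-- Zagier's single-valued polylogarithm `𝓛_n(z)`, `|z| < 1`: the real part (`n` odd) or the
imaginary part (`n` even) of `∑_{k < n} (2^k B_k / k!) log|z|^k Li_{n-k}(z)`. -/
noncomputable def SVc (n : ℕ) (z : ℂ) : ℝ := if Odd n then (SVz n z).re else (SVz n z).im

section K

variable (K : Type) [Field K] [NumberField K]

/-- the pairs of a weight `2 ≤ n ≤ N` and a place `w` such that `𝓛_n` does not vanish on the
completion at `w`: `n` is odd or `w` is complex. -/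
def Ess (N : ℕ) : Type :=
  {p : Fin (N + 1) × InfinitePlace K // 2 ≤ (p.1 : ℕ) ∧ (Odd (p.1 : ℕ) ∨ p.2.IsComplex)}

open Classical in
noncomputable instance (N : ℕ) : Fintype (Ess K N) := by
  unfold Ess
  infer_instance

variable {K}

open Classical in
/-- the component at `w`, as a complex number -/
noncomputable def atw (w : InfinitePlace K) (t : mixedSpace K) : ℂ :=
  if h : w.IsReal then ((t.1 ⟨w, h⟩ : ℝ) : ℂ)
  else t.2 ⟨w, InfinitePlace.not_isReal_iff_isComplex.1 h⟩

/-- the logarithms of the absolute values of `t` and `1 - t` -/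
noncomputable def Lg (t : mixedSpace K) : InfinitePlace K ⊕ InfinitePlace K → ℝ :=
  Sum.elim (fun w => Real.log (normAtPlace w t)) (fun w => Real.log (normAtPlace w (1 - t)))

variable (K) in
/-- all components of `t` are different from `0` and of absolute value less than `1` -/
def UU : Set (mixedSpace K) := {t | ∀ w : InfinitePlace K, 0 < normAtPlace w t ∧ normAtPlace w t < 1}

variable (K) in
/-- `1` and the `𝓛_n(t_w)` -/
noncomputable def phiN (N : ℕ) (i : Option (Ess K N)) (t : mixedSpace K) : ℝ :=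
  i.elim 1 fun p => SVc (p.1.1 : ℕ) (atw p.1.2 t)

end K

end Pool.Agent.H366.NK
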