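import Pool.Agent.H366.NK.Adm
import Pool.Agent.H366.NK.Cell
import Pool.Agent.H366.NK.SVc

/-! # Preparations for the key theorem: linear algebra -/

set_option autoImplicit false

namespace Pool.Agent.H366.NK

open NumberField
open NumberField.mixedEmbedding (mixedSpace normAtPlace)

/-- [KEYA1] -/
theorem lin_alg (G P : Type) [Fintype G] [Fintype P] (ell : (G → ℝ) →ₗ[ℝ] (P → ℝ))
    (h : Function.Surjective ell) : ∃ (U : ℕ) (io : G → Fin U → ℝ) (ka : G → P → ℝ)
      (pi' : Fin U → G → ℝ),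
      (∀ (e : G → ℝ) (g : G), e g = ∑ j, io g j * (∑ g', pi' j g' * e g') +
        ∑ p, ka g p * ell e p) ∧
      (∀ u : Fin U → ℝ, ell (fun g => ∑ j, io g j * u j) = 0) ∧
      ∀ (u : Fin U → ℝ) (j : Fin U), ∑ g, pi' j g * (∑ j', io g j' * u j') = u j := by
  classical
  obtain ⟨S, hS⟩ := LinearMap.exists_rightInverse_of_surjective ell (LinearMap.range_eq_top.2 h)
  have hS' : ∀ y, ell (S y) = y := fun y => LinearMap.congr_fun hS y
  obtain ⟨π₀, hπ⟩ : ∃ π₀ : (G → ℝ) →ₗ[ℝ] LinearMap.ker ell, ∀ e, (π₀ e : G → ℝ) = e - S (ell e) := by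
    refine ⟨LinearMap.codRestrict (LinearMap.ker ell) (LinearMap.id - S ∘ₗ ell) ?_, fun e => rfl⟩
    intro e
    rw [LinearMap.mem_ker]
    show ell (e - S (ell e)) = 0
    rw [map_sub, hS', sub_self]
  have hfun : ∀ {Q : Type} [Fintype Q] {W : Type} [AddCommGroup W] [Module ℝ W]
      (f : (Q → ℝ) →ₗ[ℝ] W) (x : Q → ℝ), f x = ∑ q, x q • f (fun q' => if q = q' then 1 else 0) := by
    intro Q _ W _ _ f x
    exact LinearMap.pi_apply_eq_sum_univ f x
  obtain ⟨b, -⟩ : ∃ b : Module.Basis (Fin (Module.finrank ℝ (LinearMap.ker ell))) ℝ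
      (LinearMap.ker ell), True := ⟨Module.finBasis ℝ _, trivial⟩
  obtain ⟨Q, hQ⟩ : ∃ Q : Fin (Module.finrank ℝ (LinearMap.ker ell)) → ((G → ℝ) →ₗ[ℝ] ℝ),
      ∀ j e, Q j e = b.repr (π₀ e) j := ⟨fun j => (b.coord j) ∘ₗ π₀, fun j e => rfl⟩
  have hQs : ∀ j e, ∑ g', Q j (fun q' => if g' = q' then 1 else 0) * e g' = Q j e := by
    intro j e
    rw [hfun (Q j) e]
    refine Finset.sum_congr rfl fun g _ => ?_
    rw [smul_eq_mul, mul_comm]
  have hSs : ∀ y g, ∑ p, S (fun q' => if p = q' then 1 else 0) g * y p = S y g := by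
    intro y g
    rw [hfun S y, Finset.sum_apply]
    refine Finset.sum_congr rfl fun p _ => ?_
    rw [Pi.smul_apply, smul_eq_mul, mul_comm]
  have hcomb : ∀ u : Fin (Module.finrank ℝ (LinearMap.ker ell)) → ℝ,
      (fun g => ∑ j, (b j : G → ℝ) g * u j) = ((∑ j, u j • b j : LinearMap.ker ell) : G → ℝ) := by
    intro u
    funext g
    rw [Submodule.coe_sum, Finset.sum_apply]
    refine Finset.sum_congr rfl fun j _ => ?_
    rw [Submodule.coe_smul, Pi.smul_apply, smul_eq_mul, mul_comm]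
  refine ⟨Module.finrank ℝ (LinearMap.ker ell), fun g j => (b j : G → ℝ) g,
    fun g p => S (fun q' => if p = q' then 1 else 0) g,
    fun j g => Q j (fun q' => if g = q' then 1 else 0), ?_, ?_, ?_⟩
  · intro e g
    rw [hSs]
    have h1 : ∑ j, (b j : G → ℝ) g * (∑ g', Q j (fun q' => if g' = q' then 1 else 0) * e g') =
        (fun g => ∑ j, (b j : G → ℝ) g * b.repr (π₀ e) j) g := by
      refine Finset.sum_congr rfl fun j _ => ?_
      rw [hQs, hQ]
    rw [h1, hcomb, b.sum_repr, hπ, Pi.sub_apply]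
    ring
  · intro u
    rw [hcomb]
    exact LinearMap.mem_ker.1 (∑ j, u j • b j : LinearMap.ker ell).2
  · intro u j
    have h1 := hQs j (fun g => ∑ j', (b j' : G → ℝ) g * u j')
    rw [hQ, hcomb] at h1
    have h2 : π₀ ((∑ j, u j • b j : LinearMap.ker ell) : G → ℝ) = ∑ j, u j • b j := by
      apply Subtype.ext
      rw [hπ]
      have h3 : ell ((∑ j, u j • b j : LinearMap.ker ell) : G → ℝ) = 0 :=
        LinearMap.mem_ker.1 (∑ j, u j • b j : LinearMap.ker ell).2
      rw [h3, map_zero, sub_zero]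
    rw [h2, b.repr_sum_self] at h1
    rw [← h1]
    refine Finset.sum_congr rfl fun g _ => ?_
    rw [← congrFun (hcomb u) g]

/-- [KEYA2] -/
theorem exists_ind {J P : Type} [Fintype J] [Fintype P] (v : J → P → ℝ)
    (h : Submodule.span ℝ (Set.range v) = ⊤) :
    ∃ a : P → J, Function.Injective a ∧ LinearIndependent ℝ (fun p => v (a p)) := by
  classical
  obtain ⟨κ, a, ha, hsp, hli⟩ := exists_linearIndependent' ℝ v
  have : Finite κ := Finite.of_injective a ha
  have : Fintype κ := Fintype.ofFinite κ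
  have h1 := Module.finrank_eq_card_basis (Module.Basis.mk hli (by rw [hsp, h]))
  rw [Module.finrank_fintype_fun_eq_card] at h1
  obtain ⟨f⟩ := Fintype.card_eq.1 h1
  exact ⟨fun p => a (f p), ha.comp f.injective, hli.comp f f.injective⟩

section

variable {K : Type} [Field K] [NumberField K] {ι : Fin 3 → Type} [∀ X, Fintype (ι X)]

/-- `∑_i e(X,i) log w(F X i)` -/
noncomputable def LX (F : (X : Fin 3) → ι X → 𝓞 K) (X : Fin 3) (e : (Σ X : Fin 3, ι X) → ℝ)
    (w : InfinitePlace K) : ℝ := ∑ i, e ⟨X, i⟩ * Real.log (w (F X i : K))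

/-- the logarithms of the quotients of the multipliers with the exponents `e` -/
noncomputable def ell (F : (X : Fin 3) → ι X → 𝓞 K) :
    ((Σ X : Fin 3, ι X) → ℝ) →ₗ[ℝ] (InfinitePlace K ⊕ InfinitePlace K → ℝ) where
  toFun e := Sum.elim (fun w => LX F 1 e w - LX F 0 e w) (fun w => LX F 2 e w - LX F 0 e w)
  map_add' e e' := by
    funext p
    cases p <;> simp only [Sum.elim_inl, Sum.elim_inr, Pi.add_apply, LX, add_mul,
      Finset.sum_add_distrib] <;> ring
  map_smul' r e := by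
    funext p
    cases p <;> simp only [Sum.elim_inl, Sum.elim_inr, Pi.smul_apply, smul_eq_mul, LX, mul_assoc,
      ← Finset.mul_sum, RingHom.id_apply] <;> ring

/-- [KEYA3] -/
theorem ell_surjective {F : (X : Fin 3) → ι X → 𝓞 K} (hF : Adm F) :
    Function.Surjective (ell F) := by
  intro y
  have h1 : ∀ (X : Fin 3) (z : InfinitePlace K → ℝ), ∃ e : ι X → ℝ,
      ∀ w, ∑ i, e i * Real.log (w (F X i : K)) = z w := by
    intro X z
    have h2 : z ∈ Submodule.span ℝ (Set.range fun i : ι X =>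
        (fun w : InfinitePlace K => Real.log (w (F X i : K)))) := by
      rw [hF.span X]
      exact Submodule.mem_top
    obtain ⟨e, he⟩ := (Submodule.mem_span_range_iff_exists_fun ℝ).1 h2
    refine ⟨e, fun w => ?_⟩
    rw [← he, Finset.sum_apply]
    rfl
  choose e he using fun X => h1 X
    ((![0, fun w => y (Sum.inl w), fun w => y (Sum.inr w)] : Fin 3 → InfinitePlace K → ℝ) X)
  have h3 : ∀ X w, LX F X (fun x => e x.1 x.2) w =
      (![0, fun w => y (Sum.inl w), fun w => y (Sum.inr w)] : Fin 3 → InfinitePlace K → ℝ) X w :=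
    fun X w => he X w
  refine ⟨fun x => e x.1 x.2, ?_⟩
  funext p
  cases p with
  | inl w =>
    show LX F 1 (fun x => e x.1 x.2) w - LX F 0 (fun x => e x.1 x.2) w = _
    rw [h3, h3]
    exact sub_zero _
  | inr w =>
    show LX F 2 (fun x => e x.1 x.2) w - LX F 0 (fun x => e x.1 x.2) w = _
    rw [h3, h3]
    exact sub_zero _

/-- [KEYA4] -/
theorem exists_pos {F : (X : Fin 3) → ι X → 𝓞 K} (hF : Adm F) :
    ∃ e : (Σ X : Fin 3, ι X) → ℝ, (∀ g, 0 < e g) ∧ ell F e = 0 := by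
  choose a ha hw using hF.cone
  have h3 : ∀ X w, LX F X (fun x => a x.1 x.2) w = 1 := fun X w => hw X w
  refine ⟨fun x => a x.1 x.2, fun x => ha x.1 x.2, ?_⟩
  funext p
  cases p with
  | inl w =>
    show LX F 1 (fun x => a x.1 x.2) w - LX F 0 (fun x => a x.1 x.2) w = 0
    rw [h3, h3, sub_self]
  | inr w =>
    show LX F 2 (fun x => a x.1 x.2) w - LX F 0 (fun x => a x.1 x.2) w = 0
    rw [h3, h3, sub_self]

/-- [KEYA5] a bound for `ell` -/
theorem ell_le (F : (X : Fin 3) → ι X → 𝓞 K) : ∃ C : ℝ, 0 ≤ C ∧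
    ∀ (e : (Σ X : Fin 3, ι X) → ℝ) (B : ℝ), (∀ g, |e g| ≤ B) → ∀ p, |ell F e p| ≤ C * B := by
  classical
  obtain ⟨T, hT⟩ : ∃ T : (Σ X : Fin 3, ι X) → ℝ, ∀ x, T x =
      ∑ w : InfinitePlace K, |Real.log (w (F x.1 x.2 : K))| := ⟨_, fun x => rfl⟩
  have hT0 : ∀ x, 0 ≤ T x := by
    intro x
    rw [hT]
    exact Finset.sum_nonneg fun w _ => abs_nonneg _
  refine ⟨2 * ∑ x, T x, mul_nonneg (by norm_num) (Finset.sum_nonneg fun x _ => hT0 x), ?_⟩
  intro e B hB
  have h1 : ∀ X w, |LX F X e w| ≤ (∑ x, T x) * B := by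
    intro X w
    have h2 : |LX F X e w| ≤ ∑ i : ι X, T ⟨X, i⟩ * B := by
      refine (Finset.abs_sum_le_sum_abs _ _).trans (Finset.sum_le_sum fun i _ => ?_)
      rw [abs_mul, mul_comm]
      have h3 : |Real.log (w (F X i : K))| ≤ T ⟨X, i⟩ := by
        rw [hT]
        exact Finset.single_le_sum (f := fun w : InfinitePlace K => |Real.log (w (F X i : K))|)
          (fun w _ => abs_nonneg _) (Finset.mem_univ w)
      exact mul_le_mul h3 (hB ⟨X, i⟩) (abs_nonneg _) (hT0 _)
    refine h2.trans ?_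
    rw [Finset.sum_mul, Fintype.sum_sigma]
    refine Finset.single_le_sum (f := fun X => ∑ i : ι X, T ⟨X, i⟩ * B) (fun Y _ => ?_)
      (Finset.mem_univ X)
    refine Finset.sum_nonneg fun i _ => ?_
    exact mul_nonneg (hT0 _) ((abs_nonneg _).trans (hB ⟨Y, i⟩))
  intro p
  cases p with
  | inl w =>
    have h4 : |LX F 1 e w - LX F 0 e w| ≤ |LX F 1 e w| + |LX F 0 e w| := abs_sub _ _
    have h5 := h1 1 w
    have h6 := h1 0 w
    show |LX F 1 e w - LX F 0 e w| ≤ _
    linarith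
  | inr w =>
    have h4 : |LX F 2 e w - LX F 0 e w| ≤ |LX F 2 e w| + |LX F 0 e w| := abs_sub _ _
    have h5 := h1 2 w
    have h6 := h1 0 w
    show |LX F 2 e w - LX F 0 e w| ≤ _
    linarith

end

end Pool.Agent.H366.NK
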