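import Pool.Agent.H366.NK.Cell
import Pool.Agent.H366.NK.Base3
import Pool.Agent.H366.NK.SVc

/-! # Preparations for the key theorem: the solutions are close to the target -/

set_option autoImplicit false

namespace Pool.Agent.H366.NK

open NumberField
open NumberField.mixedEmbedding (mixedSpace normAtPlace)

variable {K : Type} [Field K] [NumberField K]

namespace KeyBN

omit [NumberField K] in
theorem place_natCast (w : InfinitePlace K) (n : ℕ) : w ((n : ℕ) : K) = n := by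
  rw [← InfinitePlace.norm_embedding_eq w, map_natCast, Complex.norm_natCast]

omit [NumberField K] in
theorem coe_mul' (a b : 𝓞 K) : ((a * b : 𝓞 K) : K) = (a : K) * (b : K) := map_mul _ a b

omit [NumberField K] in
theorem coe_add' (a b : 𝓞 K) : ((a + b : 𝓞 K) : K) = (a : K) + (b : K) := map_add _ a b

omit [NumberField K] in
theorem place_two_pow (w : InfinitePlace K) (d : ℕ) : w ((2 : K) ^ d) = 2 ^ d := by
  have := place_natCast w (2 ^ d)
  push_cast at this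
  exact this

omit [NumberField K] in
theorem place_add_le (w : InfinitePlace K) (x y : K) : w (x + y) ≤ w x + w y :=
  w.1.add_le x y

omit [NumberField K] in
theorem place_neg (w : InfinitePlace K) (x : K) : w (-x) = w x := w.1.map_neg x

theorem mem_cell {u Θ : ℝ} {H₀ : ℕ} (j : Cell K u Θ H₀) :
    InBox u Θ (mixedEmbedding K ((cg j : 𝓞 K) : K)) := by
  have h : (cg j : 𝓞 K) ∈ cellSet K u Θ := j.1.2
  unfold cellSet at h
  split_ifs at h with hf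
  · exact hf.mem_toFinset.1 h
  · simp at h

theorem cg_ge {u Θ : ℝ} {H₀ : ℕ} (hu : 0 < u) (j : Cell K u Θ H₀) (w : InfinitePlace K) :
    u * Real.exp (-Θ) ≤ w ((cg j : 𝓞 K) : K) := by
  obtain ⟨h0, h1⟩ := mem_cell j w
  rw [mixedEmbedding.normAtPlace_apply] at h0 h1
  have hpos : 0 < w ((cg j : 𝓞 K) : K) := lt_of_le_of_ne (apply_nonneg _ _) (Ne.symm h0)
  have h2 := (abs_le.1 h1).1
  calc u * Real.exp (-Θ) = Real.exp (Real.log u + -Θ) := by
        rw [Real.exp_add, Real.exp_log hu]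
    _ ≤ Real.exp (Real.log (w ((cg j : 𝓞 K) : K))) := Real.exp_le_exp.2 (by linarith)
    _ = w ((cg j : 𝓞 K) : K) := Real.exp_log hpos

theorem rv_le {c : ℕ} (hc : Cst K c) {q : ℕ} (v : Uq K q) (w : InfinitePlace K) :
    w ((rv v : 𝓞 K) : K) ≤ 2 ^ c * q := by
  refine hc.place_le (rv v) q (fun j => ?_) w
  unfold rv
  rw [repr_el]
  have h := (v.1 j).2.le
  rw [Int.cast_natCast, abs_of_nonneg (Nat.cast_nonneg _)]
  exact_mod_cast h

theorem sum_le {c : ℕ} (hc : Cst K c) {d : ℕ} (h : JJ K → Fin (2 ^ d)) (w : InfinitePlace K) :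
    w (((∑ j, (((h j : ℕ) : 𝓞 K)) * om K j : 𝓞 K)) : K) ≤ 2 ^ c * 2 ^ d := by
  have h1 : (∑ j, (((h j : ℕ) : 𝓞 K)) * om K j : 𝓞 K) = el fun j => ((h j : ℕ) : ℤ) := by
    unfold el
    refine Finset.sum_congr rfl fun j _ => ?_
    rw [Int.cast_natCast]
  rw [h1]
  refine hc.place_le _ (2 ^ d) (fun j => ?_) w
  rw [repr_el]
  have h := (h j).2.le
  rw [Int.cast_natCast, abs_of_nonneg (Nat.cast_nonneg _)]
  exact_mod_cast h

theorem zz_sub_le {c : ℕ} (hc : Cst K c) {u Θ : ℝ} {H₀ q d : ℕ} (z : Slot K u Θ H₀ q d)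
    (w : InfinitePlace K) :
    w (((zz q d (rv z.1) (cg z.2.1) z.2.2 : 𝓞 K) : K) - (q : K) * 2 ^ d * ((cg z.2.1 : 𝓞 K) : K))
      ≤ q * 2 ^ d * 2 ^ (c + 1) := by
  have h1 : ((zz q d (rv z.1) (cg z.2.1) z.2.2 : 𝓞 K) : K) -
      (q : K) * 2 ^ d * ((cg z.2.1 : 𝓞 K) : K) =
        ((rv z.1 : 𝓞 K) : K) +
          (q : K) * (((∑ j, (((z.2.2 j : ℕ) : 𝓞 K)) * om K j : 𝓞 K)) : K) := by
    simp only [zz, map_add, map_mul, map_pow, map_natCast, map_ofNat]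
    ring
  rw [h1]
  have h2 := rv_le hc z.1 w
  have h3 := sum_le hc z.2.2 w
  have h4 : w ((q : K) * (((∑ j, (((z.2.2 j : ℕ) : 𝓞 K)) * om K j : 𝓞 K)) : K)) ≤
      q * (2 ^ c * 2 ^ d) := by
    rw [map_mul, place_natCast]
    exact mul_le_mul_of_nonneg_left h3 (Nat.cast_nonneg _)
  have h5 : (1 : ℝ) ≤ 2 ^ d := one_le_pow₀ (by norm_num)
  have hq : (0 : ℝ) ≤ q := Nat.cast_nonneg _
  have h6 : (2 : ℝ) ^ c * q ≤ q * (2 ^ c * 2 ^ d) := by
    have h7 : (0 : ℝ) ≤ 2 ^ c * q := by positivity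
    nlinarith
  calc w _ ≤ w ((rv z.1 : 𝓞 K) : K) +
        w ((q : K) * (((∑ j, (((z.2.2 j : ℕ) : 𝓞 K)) * om K j : 𝓞 K)) : K)) :=
        place_add_le w _ _
    _ ≤ q * (2 ^ c * 2 ^ d) + q * (2 ^ c * 2 ^ d) := add_le_add (h2.trans h6) h4
    _ = q * 2 ^ d * 2 ^ (c + 1) := by ring

/-- product of factors close to `1` -/
theorem prod_close {ι : Type} (w : InfinitePlace K) (ε : ℝ) (hε : 0 ≤ ε) (a : ι → K)
    (S : Finset ι) (h : ∀ i ∈ S, w (a i - 1) ≤ ε) :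
    w ((∏ i ∈ S, a i) - 1) ≤ (1 + ε) ^ S.card - 1 := by
  classical
  induction S using Finset.induction_on with
  | empty => simp
  | insert i S hi ih =>
    rw [Finset.prod_insert hi, Finset.card_insert_of_notMem hi]
    have h1 := ih fun j hj => h j (Finset.mem_insert_of_mem hj)
    have h2 := h i (Finset.mem_insert_self i S)
    have h3 : a i * ∏ j ∈ S, a j - 1 = a i * ((∏ j ∈ S, a j) - 1) + (a i - 1) := by ring
    have h4 : w (a i) ≤ 1 + ε := by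
      have h5 : a i = 1 + (a i - 1) := by ring
      calc w (a i) = w (1 + (a i - 1)) := by rw [← h5]
        _ ≤ w 1 + w (a i - 1) := place_add_le w _ _
        _ ≤ 1 + ε := by rw [map_one]; linarith
    rw [h3]
    calc w (a i * ((∏ j ∈ S, a j) - 1) + (a i - 1)) ≤
        w (a i * ((∏ j ∈ S, a j) - 1)) + w (a i - 1) := place_add_le w _ _
      _ = w (a i) * w ((∏ j ∈ S, a j) - 1) + w (a i - 1) := by rw [map_mul]
      _ ≤ (1 + ε) * ((1 + ε) ^ S.card - 1) + ε :=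
        add_le_add (mul_le_mul h4 h1 (apply_nonneg _ _) (by linarith)) h2
      _ = (1 + ε) ^ (S.card + 1) - 1 := by ring

theorem exists_eps (s : ℕ) (r : ℝ) (hr : 0 < r) :
    ∃ ε : ℝ, 0 < ε ∧ (1 + ε) ^ s - 1 ≤ r := by
  have h1 : Continuous fun ε : ℝ => (1 + ε) ^ s - 1 := by fun_prop
  have h2 : Filter.Tendsto (fun ε : ℝ => (1 + ε) ^ s - 1) (nhds 0) (nhds 0) := by
    have := h1.tendsto 0
    simpa using this
  have h3 := h2.eventually (gt_mem_nhds hr)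
  obtain ⟨e, he, h4⟩ := Metric.eventually_nhds_iff.1 h3
  refine ⟨e / 2, by linarith, (h4 ?_).le⟩
  rw [Real.dist_eq, sub_zero, abs_of_pos (by linarith)]
  linarith

end KeyBN

open KeyBN

/-- [KEYB1] the inverse of `t / (1 + t)` -/
theorem exists_tau (t : mixedSpace K)
    (h : ∀ w : InfinitePlace K, normAtPlace w t ≠ 0 ∧ normAtPlace w (1 - t) ≠ 0) :
    ∃ τ : mixedSpace K, τ * (1 - t) = t ∧ (1 + τ) * (1 - t) = 1 ∧
      ∀ w : InfinitePlace K, normAtPlace w τ ≠ 0 ∧ normAtPlace w (1 + τ) ≠ 0 := by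
  have h1 : ∀ w : {w : InfinitePlace K // w.IsReal}, 1 - t.1 w ≠ 0 := by
    intro w h0
    apply (h w.1).2
    rw [mixedEmbedding.normAtPlace_apply_of_isReal w.2]
    show ‖(1 : ℝ) - t.1 w‖ = 0
    rw [h0, norm_zero]
  have h2 : ∀ w : {w : InfinitePlace K // w.IsComplex}, 1 - t.2 w ≠ 0 := by
    intro w h0
    apply (h w.1).2
    rw [mixedEmbedding.normAtPlace_apply_of_isComplex w.2]
    show ‖(1 : ℂ) - t.2 w‖ = 0
    rw [h0, norm_zero]
  have hτ : ((fun w => t.1 w / (1 - t.1 w), fun w => t.2 w / (1 - t.2 w)) : mixedSpace K) *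
      (1 - t) = t := by
    refine Prod.ext (funext fun w => ?_) (funext fun w => ?_)
    · show t.1 w / (1 - t.1 w) * (1 - t.1 w) = t.1 w
      exact div_mul_cancel₀ _ (h1 w)
    · show t.2 w / (1 - t.2 w) * (1 - t.2 w) = t.2 w
      exact div_mul_cancel₀ _ (h2 w)
  generalize ((fun w => t.1 w / (1 - t.1 w), fun w => t.2 w / (1 - t.2 w)) : mixedSpace K) = τ
    at hτ
  have h3 : (1 + τ) * (1 - t) = 1 := by
    rw [add_mul, hτ, one_mul]; ring
  refine ⟨τ, hτ, h3, fun w => ⟨?_, ?_⟩⟩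
  · intro h0
    apply (h w).1
    rw [← hτ, map_mul, h0, zero_mul]
  · intro h0
    have h4 : normAtPlace w ((1 + τ) * (1 - t)) = 1 := by rw [h3, map_one]
    rw [map_mul, h0, zero_mul] at h4
    exact zero_ne_one h4

open scoped Classical in
/-- [KEYB2] the distance in the mixed space -/
theorem dist_le_of (t t' : mixedSpace K) (δ : ℝ)
    (h : ∀ w : InfinitePlace K, normAtPlace w (t - t') ≤ δ) : dist t t' ≤ δ := by
  rw [dist_eq_norm, mixedEmbedding.norm_eq_sup'_normAtPlace]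
  exact Finset.sup'_le _ _ fun w _ => h w

/-- [KEYB3] slots are not zero -/
theorem slot_ne_zero {c : ℕ} (hc : Cst K c) {u Θ : ℝ} {H₀ q d : ℕ} (hu : 0 < u)
    (hq : 0 < q) (hU : 2 ^ (c + 2) ≤ u * Real.exp (-Θ)) (z : Slot K u Θ H₀ q d) :
    zz q d (rv z.1) (cg z.2.1) z.2.2 ≠ 0 := by
  intro h0
  obtain ⟨w⟩ : Nonempty (InfinitePlace K) := inferInstance
  have h1 := zz_sub_le hc z w
  have h2 := cg_ge hu z.2.1 w
  rw [h0] at h1
  have h3 : w (((0 : 𝓞 K) : K) - (q : K) * 2 ^ d * ((cg z.2.1 : 𝓞 K) : K)) =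
      q * 2 ^ d * w ((cg z.2.1 : 𝓞 K) : K) := by
    have h4 : ((0 : 𝓞 K) : K) = 0 := map_zero _
    rw [h4, zero_sub, place_neg, map_mul, map_mul, place_natCast, place_two_pow]
  rw [h3] at h1
  have hq' : (0 : ℝ) < q * 2 ^ d := by positivity
  have h5 : w ((cg z.2.1 : 𝓞 K) : K) ≤ 2 ^ (c + 1) := le_of_mul_le_mul_left h1 hq'
  have h6 : (2 : ℝ) ^ (c + 1) < 2 ^ (c + 2) := pow_lt_pow_right₀ (by norm_num) (by omega)
  linarith

namespace KeyBN

/-- one slot, divided by `q 2^d g`, is close to `1` -/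
theorem slot_close {c : ℕ} (hc : Cst K c) {u Θ : ℝ} {H₀ q d : ℕ} (hu : 0 < u) (hq : 0 < q)
    {ε : ℝ} (hε : 0 < ε) (hU : 2 ^ (c + 1) / ε ≤ u * Real.exp (-Θ)) (z : Slot K u Θ H₀ q d)
    (w : InfinitePlace K) :
    w (((zz q d (rv z.1) (cg z.2.1) z.2.2 : 𝓞 K) : K) /
      ((q : K) * 2 ^ d * ((cg z.2.1 : 𝓞 K) : K)) - 1) ≤ ε := by
  have h1 := zz_sub_le hc z w
  have h2 := cg_ge hu z.2.1 w
  have h0 : 0 < w ((cg z.2.1 : 𝓞 K) : K) := lt_of_lt_of_le (by positivity) h2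
  have hg : ((cg z.2.1 : 𝓞 K) : K) ≠ 0 := by
    intro h; rw [h, map_zero] at h0; exact lt_irrefl _ h0
  have hqK : (q : K) ≠ 0 := by exact_mod_cast hq.ne'
  have hne : (q : K) * 2 ^ d * ((cg z.2.1 : 𝓞 K) : K) ≠ 0 :=
    mul_ne_zero (mul_ne_zero hqK (pow_ne_zero _ two_ne_zero)) hg
  have h4 := place_two_pow w d
  have h3 : w ((q : K) * 2 ^ d * ((cg z.2.1 : 𝓞 K) : K)) =
      q * 2 ^ d * w ((cg z.2.1 : 𝓞 K) : K) := by
    rw [map_mul, map_mul, place_natCast, h4]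
  rw [div_sub_one hne, map_div₀, h3, div_le_iff₀ (by positivity)]
  refine h1.trans ?_
  have h5 : (2 : ℝ) ^ (c + 1) ≤ ε * w ((cg z.2.1 : 𝓞 K) : K) := by
    rw [div_le_iff₀ hε] at hU
    calc (2 : ℝ) ^ (c + 1) ≤ u * Real.exp (-Θ) * ε := hU
      _ ≤ w ((cg z.2.1 : 𝓞 K) : K) * ε := mul_le_mul_of_nonneg_right h2 hε.le
      _ = _ := mul_comm _ _
  calc (q : ℝ) * 2 ^ d * 2 ^ (c + 1) ≤ q * 2 ^ d * (ε * w ((cg z.2.1 : 𝓞 K) : K)) :=
        mul_le_mul_of_nonneg_left h5 (by positivity)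
    _ = _ := by ring

/-- the place estimate -/
theorem final_est (w : InfinitePlace K) (x y t τ : mixedSpace K) (R₀ δ r : ℝ)
    (hxy : x * (1 + y) = y) (h1 : τ * (1 - t) = t) (h2 : (1 + τ) * (1 - t) = 1)
    (hτ : normAtPlace w τ ≤ Real.exp R₀) (hτ1 : Real.exp (-R₀) ≤ normAtPlace w (1 + τ))
    (hr : normAtPlace w (y - τ) ≤ r * normAtPlace w τ) (hr0 : 0 ≤ r)
    (hr1 : r * Real.exp R₀ ≤ Real.exp (-R₀) / 2)
    (hr2 : r * Real.exp R₀ ≤ δ * (Real.exp (-R₀) / 2 * Real.exp (-R₀))) :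
    normAtPlace w (x - t) ≤ δ := by
  have h3 : t * (1 + τ) = τ := by
    calc t * (1 + τ) = τ * (1 - t) * (1 + τ) := by rw [h1]
      _ = τ * ((1 + τ) * (1 - t)) := by ring
      _ = τ := by rw [h2, mul_one]
  have h4 : (x - t) * ((1 + y) * (1 + τ)) = y - τ := by
    calc (x - t) * ((1 + y) * (1 + τ)) = (x * (1 + y)) * (1 + τ) - (t * (1 + τ)) * (1 + y) := by
          ring
      _ = y * (1 + τ) - τ * (1 + y) := by rw [hxy, h3]
      _ = y - τ := by ring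
  have h5 : normAtPlace w (x - t) * (normAtPlace w (1 + y) * normAtPlace w (1 + τ)) =
      normAtPlace w (y - τ) := by
    rw [← map_mul, ← map_mul, h4]
  have h6 : normAtPlace w (y - τ) ≤ r * Real.exp R₀ :=
    hr.trans (mul_le_mul_of_nonneg_left hτ hr0)
  have h7 : Real.exp (-R₀) / 2 ≤ normAtPlace w (1 + y) := by
    have h8 : 1 + τ = (1 + y) + -(y - τ) := by ring
    have h9 : normAtPlace w (1 + τ) ≤ normAtPlace w (1 + y) + normAtPlace w (y - τ) := by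
      rw [h8]
      refine (mixedEmbedding.normAtPlace_add_le w _ _).trans ?_
      rw [mixedEmbedding.normAtPlace_neg]
    linarith
  have hexp := Real.exp_pos (-R₀)
  have h10 : Real.exp (-R₀) / 2 * Real.exp (-R₀) ≤ normAtPlace w (1 + y) * normAtPlace w (1 + τ) :=
    mul_le_mul h7 hτ1 hexp.le (le_trans (by positivity) h7)
  have h11 : 0 < Real.exp (-R₀) / 2 * Real.exp (-R₀) := by positivity
  by_contra hcon
  rw [not_le] at hcon
  have h12 : 0 ≤ normAtPlace w (x - t) := mixedEmbedding.normAtPlace_nonneg w _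
  have h13 : normAtPlace w (x - t) * (Real.exp (-R₀) / 2 * Real.exp (-R₀)) ≤
      normAtPlace w (x - t) * (normAtPlace w (1 + y) * normAtPlace w (1 + τ)) :=
    mul_le_mul_of_nonneg_left h10 h12
  have h14 : δ * (Real.exp (-R₀) / 2 * Real.exp (-R₀)) <
      normAtPlace w (x - t) * (Real.exp (-R₀) / 2 * Real.exp (-R₀)) :=
    mul_lt_mul_of_pos_right hcon h11
  linarith

end KeyBN

/-- [KEYB4] the solutions are close to the target. Here `B / A` is `M₁ ∏ z₁ / (M₀ ∏ z₀)`. -/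
theorem close_sol {c : ℕ} (hc : Cst K c) (s : ℕ) (R₀ δ : ℝ) (hδ : 0 < δ) :
    ∃ (ρ₁ U₂ : ℝ), 0 < ρ₁ ∧ ∀ (u Θ : ℝ), 0 < u → U₂ ≤ u * Real.exp (-Θ) → ∀ (H₀ q d : ℕ),
      0 < q → ∀ (τ t : mixedSpace K), TauOK R₀ τ → τ * (1 - t) = t → (1 + τ) * (1 - t) = 1 →
      ∀ ρ : ℝ, 0 < ρ → ρ ≤ ρ₁ → ∀ (M : Fin 3 → 𝓞 K), (∀ X, M X ≠ 0) →
      ∀ z : Fin 3 → Fin s → Slot K u Θ H₀ q d, TC τ ρ M (sg z) →
      M 0 * ∏ i, zz q d (sv z 0 i) (sg z 0 i) (sh z 0 i) =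
        M 1 * ∏ i, zz q d (sv z 1 i) (sg z 1 i) (sh z 1 i) +
          M 2 * ∏ i, zz q d (sv z 2 i) (sg z 2 i) (sh z 2 i) →
      ∀ w : InfinitePlace K, normAtPlace w (mixedEmbedding K
        (((M 1 * ∏ i, zz q d (sv z 1 i) (sg z 1 i) (sh z 1 i) : 𝓞 K) : K) /
          ((M 0 * ∏ i, zz q d (sv z 0 i) (sg z 0 i) (sh z 0 i) : 𝓞 K) : K)) - t) ≤ δ := by
  -- the bound `r`
  obtain ⟨r, hr⟩ : ∃ r : ℝ, r = min (Real.exp (-R₀) / 2) (δ * (Real.exp (-R₀) / 2 *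
    Real.exp (-R₀))) / Real.exp R₀ := ⟨_, rfl⟩
  have hr0 : 0 < r := by
    rw [hr]
    refine div_pos (lt_min (by positivity) (by positivity)) (Real.exp_pos _)
  have hrm : r * Real.exp R₀ = min (Real.exp (-R₀) / 2) (δ * (Real.exp (-R₀) / 2 *
      Real.exp (-R₀))) := by
    rw [hr, div_mul_cancel₀ _ (Real.exp_pos _).ne']
  have hr1 : r * Real.exp R₀ ≤ Real.exp (-R₀) / 2 := by rw [hrm]; exact min_le_left _ _
  have hr2 : r * Real.exp R₀ ≤ δ * (Real.exp (-R₀) / 2 * Real.exp (-R₀)) := by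
    rw [hrm]; exact min_le_right _ _
  obtain ⟨ε, hε, hεs⟩ := exists_eps s (min (1 / 2) (r / 16))
    (lt_min (by norm_num) (by linarith))
  obtain ⟨ε₂, hε₂⟩ : ∃ ε₂ : ℝ, ε₂ = (1 + ε) ^ s - 1 := ⟨_, rfl⟩
  have hε₂a : ε₂ ≤ 1 / 2 := by rw [hε₂]; exact hεs.trans (min_le_left _ _)
  have hε₂b : ε₂ ≤ r / 16 := by rw [hε₂]; exact hεs.trans (min_le_right _ _)
  have hε₂0 : 0 ≤ ε₂ := by
    rw [hε₂]
    have := one_le_pow₀ (n := s) (show (1 : ℝ) ≤ 1 + ε by linarith)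
    linarith
  refine ⟨min 1 (r / 2), max (2 ^ (c + 2)) (2 ^ (c + 1) / ε), lt_min one_pos (by linarith), ?_⟩
  intro u Θ hu hU H₀ q d hq τ t hτ h1 h2 ρ hρ hρ1 M hM z hTC hsol w
  have hU1 := (le_max_left _ _).trans hU
  have hU2 := (le_max_right _ _).trans hU
  have hρa : ρ ≤ 1 := hρ1.trans (min_le_left _ _)
  have hρb : ρ ≤ r / 2 := hρ1.trans (min_le_right _ _)
  -- abbreviations
  obtain ⟨Z, hZ⟩ : ∃ Z : Fin 3 → 𝓞 K, Z = fun X => ∏ i, zz q d (sv z X i) (sg z X i) (sh z X i) :=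
    ⟨_, rfl⟩
  obtain ⟨G, hG⟩ : ∃ G : Fin 3 → 𝓞 K, G = fun X => ∏ i, sg z X i := ⟨_, rfl⟩
  have hZX : ∀ X, (∏ i, zz q d (sv z X i) (sg z X i) (sh z X i) : 𝓞 K) = Z X := fun X => by rw [hZ]
  have hGX : ∀ X, (∏ i, sg z X i : 𝓞 K) = G X := fun X => by rw [hG]
  rw [hZX, hZX, hZX] at hsol
  rw [hZX, hZX]
  have hTCw := hTC w
  rw [hGX, hGX] at hTCw
  have hZ0 : ∀ X, Z X ≠ 0 := fun X => by
    rw [← hZX]
    exact Finset.prod_ne_zero_iff.2 fun i _ => slot_ne_zero hc hu hq hU1 (z X i)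
  have hg0 : ∀ X i, sg z X i ≠ 0 := fun X i => by
    intro h
    have h3 := cg_ge hu (z X i).2.1 w
    have h4 : w ((cg (z X i).2.1 : 𝓞 K) : K) = 0 := by
      have h5 : cg (z X i).2.1 = 0 := h
      have h6 : ((0 : 𝓞 K) : K) = 0 := map_zero _
      rw [h5, h6, map_zero]
    rw [h4] at h3
    have : 0 < u * Real.exp (-Θ) := by positivity
    linarith
  have hG0 : ∀ X, G X ≠ 0 := fun X => by
    rw [← hGX]
    exact Finset.prod_ne_zero_iff.2 fun i _ => hg0 X i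
  have hZK : ∀ X, ((Z X : 𝓞 K) : K) ≠ 0 := fun X => by
    rw [Ne, RingOfIntegers.coe_eq_zero_iff]; exact hZ0 X
  have hGK : ∀ X, ((G X : 𝓞 K) : K) ≠ 0 := fun X => by
    rw [Ne, RingOfIntegers.coe_eq_zero_iff]; exact hG0 X
  have hMK : ∀ X, ((M X : 𝓞 K) : K) ≠ 0 := fun X => by
    rw [Ne, RingOfIntegers.coe_eq_zero_iff]; exact hM X
  -- the products of the slots
  obtain ⟨k, hk⟩ : ∃ k : Fin 3 → K, k = fun X =>
      ((Z X : 𝓞 K) : K) / (((q : K) * 2 ^ d) ^ s * ((G X : 𝓞 K) : K)) := ⟨_, rfl⟩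
  have hqK : (q : K) * 2 ^ d ≠ 0 :=
    mul_ne_zero (by exact_mod_cast hq.ne') (pow_ne_zero _ two_ne_zero)
  have hk1 : ∀ X, w (k X - 1) ≤ ε₂ := by
    intro X
    have h3 : k X = ∏ i, ((zz q d (sv z X i) (sg z X i) (sh z X i) : 𝓞 K) : K) /
        ((q : K) * 2 ^ d * ((sg z X i : 𝓞 K) : K)) := by
      rw [Finset.prod_div_distrib, Finset.prod_mul_distrib, Finset.prod_const, Finset.card_univ,
        Fintype.card_fin, hk, hZ, hG]
      simp only [map_prod]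
    rw [h3, hε₂]
    have h4 := prod_close w ε hε.le (fun i => ((zz q d (sv z X i) (sg z X i) (sh z X i) : 𝓞 K) : K) /
        ((q : K) * 2 ^ d * ((sg z X i : 𝓞 K) : K))) Finset.univ
        (fun i _ => slot_close hc hu hq hε hU2 (z X i) w)
    rwa [Finset.card_univ, Fintype.card_fin] at h4
  have hk0 : ∀ X, k X ≠ 0 := fun X => by
    rw [hk]
    exact div_ne_zero (hZK X) (mul_ne_zero (pow_ne_zero _ hqK) (hGK X))
  have hZk : ∀ X, ((Z X : 𝓞 K) : K) = k X * (((q : K) * 2 ^ d) ^ s * ((G X : 𝓞 K) : K)) := fun X => by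
    rw [hk]
    exact (div_mul_cancel₀ _ (mul_ne_zero (pow_ne_zero _ hqK) (hGK X))).symm
  have hk2 : 1 / 2 ≤ w (k 2) := by
    have h3 : (1 : K) = k 2 + -(k 2 - 1) := by ring
    have h4 : (1 : ℝ) ≤ w (k 2) + w (k 2 - 1) := by
      calc (1 : ℝ) = w (1 : K) := (map_one w).symm
        _ = w (k 2 + -(k 2 - 1)) := by rw [← h3]
        _ ≤ w (k 2) + w (-(k 2 - 1)) := place_add_le w _ _
        _ = w (k 2) + w (k 2 - 1) := by rw [place_neg]
    have := hk1 2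
    linarith
  have hkq : w (k 1 / k 2 - 1) ≤ 4 * ε₂ := by
    rw [div_sub_one (hk0 2), map_div₀, div_le_iff₀ (by linarith)]
    have h3 : k 1 - k 2 = (k 1 - 1) + -(k 2 - 1) := by ring
    have h4 : w (k 1 - k 2) ≤ ε₂ + ε₂ := by
      rw [h3]
      refine (place_add_le w _ _).trans ?_
      rw [place_neg]
      exact add_le_add (hk1 1) (hk1 2)
    nlinarith
  -- `y` and `x`
  obtain ⟨y, hy⟩ : ∃ y : K, y = ((M 1 * Z 1 : 𝓞 K) : K) / ((M 2 * Z 2 : 𝓞 K) : K) := ⟨_, rfl⟩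
  obtain ⟨yg, hyg⟩ : ∃ yg : K, yg = ((M 1 * G 1 : 𝓞 K) : K) / ((M 2 * G 2 : 𝓞 K) : K) := ⟨_, rfl⟩
  rw [← hyg] at hTCw
  have hyy : y - yg = yg * (k 1 / k 2 - 1) := by
    have h3 : y = yg * (k 1 / k 2) := by
      rw [hy, hyg, coe_mul', coe_mul', coe_mul', coe_mul']
      rw [hZk 1, hZk 2]
      have a1 := hMK 1
      have a2 := hMK 2
      have a3 := hGK 1
      have a4 := hGK 2
      have a5 := hk0 2
      have a6 := pow_ne_zero s hqK
      field_simp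
    rw [h3]; ring
  have hx : ((M 1 * Z 1 : 𝓞 K) : K) / ((M 0 * Z 0 : 𝓞 K) : K) * (1 + y) = y := by
    have h3 : ((M 0 * Z 0 : 𝓞 K) : K) = ((M 1 * Z 1 : 𝓞 K) : K) + ((M 2 * Z 2 : 𝓞 K) : K) := by
      rw [hsol, coe_add']
    have a0 : ((M 0 * Z 0 : 𝓞 K) : K) ≠ 0 := by
      rw [coe_mul']; exact mul_ne_zero (hMK 0) (hZK 0)
    have a2 : ((M 2 * Z 2 : 𝓞 K) : K) ≠ 0 := by
      rw [coe_mul']; exact mul_ne_zero (hMK 2) (hZK 2)
    rw [hy]
    have h4 : 1 + ((M 1 * Z 1 : 𝓞 K) : K) / ((M 2 * Z 2 : 𝓞 K) : K) =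
        ((M 0 * Z 0 : 𝓞 K) : K) / ((M 2 * Z 2 : 𝓞 K) : K) := by
      rw [h3, add_div, div_self a2, add_comm]
    rw [h4]
    field_simp
  have hx' := congrArg (mixedEmbedding K) hx
  rw [map_mul, map_add, map_one] at hx'
  obtain ⟨hτa, hτb, hτc, hτd⟩ := hτ w
  have hnn : ∀ v : mixedSpace K, 0 ≤ normAtPlace w v := fun v =>
    mixedEmbedding.normAtPlace_nonneg w v
  have hp1 : 0 < normAtPlace w τ := lt_of_le_of_ne (hnn _) (Ne.symm hτa)
  have hp2 : 0 < normAtPlace w (1 + τ) := lt_of_le_of_ne (hnn _) (Ne.symm hτb)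
  refine final_est w _ (mixedEmbedding K y) t τ R₀ δ r hx' h1 h2 ?_ ?_ ?_ hr0.le hr1 hr2
  · rw [← Real.exp_log hp1]
    exact Real.exp_le_exp.2 (abs_le.1 hτc).2
  · rw [← Real.exp_log hp2]
    exact Real.exp_le_exp.2 (abs_le.1 hτd).1
  · have h3 : mixedEmbedding K y - τ =
        (mixedEmbedding K yg - τ) + mixedEmbedding K (yg * (k 1 / k 2 - 1)) := by
      rw [← hyy, map_sub]; ring
    have h4 : normAtPlace w (mixedEmbedding K yg) ≤ 2 * normAtPlace w τ := by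
      have h5 : mixedEmbedding K yg = (mixedEmbedding K yg - τ) + τ := by ring
      have h6 : normAtPlace w (mixedEmbedding K yg) ≤
          normAtPlace w (mixedEmbedding K yg - τ) + normAtPlace w τ := by
        calc normAtPlace w (mixedEmbedding K yg) =
            normAtPlace w ((mixedEmbedding K yg - τ) + τ) := by rw [← h5]
          _ ≤ _ := mixedEmbedding.normAtPlace_add_le w _ _
      nlinarith
    rw [h3]
    refine (mixedEmbedding.normAtPlace_add_le w _ _).trans ?_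
    rw [map_mul, map_mul, mixedEmbedding.normAtPlace_apply w (k 1 / k 2 - 1)]
    have h7 : normAtPlace w (mixedEmbedding K yg) * w (k 1 / k 2 - 1) ≤
        (2 * normAtPlace w τ) * (4 * ε₂) :=
      mul_le_mul h4 hkq (apply_nonneg _ _) (by positivity)
    have h8 : ρ * normAtPlace w τ ≤ r / 2 * normAtPlace w τ :=
      mul_le_mul_of_nonneg_right hρb hp1.le
    have h9 : ε₂ * normAtPlace w τ ≤ r / 16 * normAtPlace w τ :=
      mul_le_mul_of_nonneg_right hε₂b hp1.le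
    calc _ ≤ ρ * normAtPlace w τ + (2 * normAtPlace w τ) * (4 * ε₂) := add_le_add hTCw h7
      _ = ρ * normAtPlace w τ + 8 * (ε₂ * normAtPlace w τ) := by ring
      _ ≤ r / 2 * normAtPlace w τ + 8 * (r / 16 * normAtPlace w τ) := by linarith
      _ = r * normAtPlace w τ := by ring

end Pool.Agent.H366.NK
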