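import Pool.Agent.H366.NK.KeyA
import Pool.Agent.H366.ZC.KeyB

/-! # Preparations for the key theorem: the conditions on the multipliers -/

set_option autoImplicit false

namespace Pool.Agent.H366.NK

open NumberField
open NumberField.mixedEmbedding (mixedSpace normAtPlace)
open Pool.Agent.H366.ZC.KeyZN (qq)

variable {K : Type} [Field K] [NumberField K] {ι : Fin 3 → Type} [∀ X, Fintype (ι X)]

/-- `∏_i F_i ^ e(X,i)` -/
noncomputable def PF (F : (X : Fin 3) → ι X → 𝓞 K) (e : (Σ X : Fin 3, ι X) → ℕ) (X : Fin 3) :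
    𝓞 K := ∏ i, F X i ^ e ⟨X, i⟩

open Classical in
/-- the exponents of the multipliers -/
noncomputable def exf {N : ℕ} (e : (Σ X : Fin 3, ι X) → ℕ) (a : InfinitePlace K → ι 0)
    (b : InfinitePlace K → ι 1)
    (f : (InfinitePlace K → Fin (2 * N + 1)) × (InfinitePlace K → Fin (2 * N + 1)))
    (g : Σ X : Fin 3, ι X) : ℕ :=
  e g + (∑ w, if g = ⟨0, a w⟩ then (f.1 w : ℕ) else 0) +
    ∑ w, if g = ⟨1, b w⟩ then (f.2 w : ℕ) else 0

namespace KeyCN

theorem sum_ite_congr {A : Type} [Fintype A] {p : A → Prop} (i1 i2 : ∀ x, Decidable (p x))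
    {k : A → ℕ} : ∑ x, (@ite _ (p x) (i1 x) (k x) 0) = ∑ x, (@ite _ (p x) (i2 x) (k x) 0) := by
  refine Finset.sum_congr rfl fun x _ => ?_
  by_cases h : p x
  · rw [if_pos h, if_pos h]
  · rw [if_neg h, if_neg h]

theorem sum_ite_irrel {A : Type} [Fintype A] {p : A → Prop} (i1 i2 : ∀ x, Decidable (p x))
    {k : A → ℕ} (h : ∑ x, (@ite _ (p x) (i1 x) (k x) 0) = 0) :
    ∑ x, (@ite _ (p x) (i2 x) (k x) 0) = 0 := by
  exact (sum_ite_congr i2 i1).trans h

theorem ne_zero_of_adm {F : (X : Fin 3) → ι X → 𝓞 K} (hF : Adm F) (X : Fin 3) (i : ι X) :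
    F X i ≠ 0 := by
  intro h
  obtain ⟨w⟩ : Nonempty (InfinitePlace K) := inferInstance
  have h1 := hF.one_lt X i w
  rw [h] at h1
  have h2 : w ((0 : 𝓞 K) : K) = 0 := by
    rw [show ((0 : 𝓞 K) : K) = 0 from map_zero (algebraMap (𝓞 K) K), map_zero]
  rw [h2] at h1
  linarith

theorem place_PF (F : (X : Fin 3) → ι X → 𝓞 K) (e : (Σ X : Fin 3, ι X) → ℕ)
    (X : Fin 3) (w : InfinitePlace K) :
    w (PF F e X : K) = ∏ i, w (F X i : K) ^ e ⟨X, i⟩ := by
  unfold PF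
  have h : ((∏ i, F X i ^ e ⟨X, i⟩ : 𝓞 K) : K) = ∏ i, (F X i : K) ^ e ⟨X, i⟩ := by
    have := map_prod (algebraMap (𝓞 K) K) (fun i => F X i ^ e ⟨X, i⟩) Finset.univ
    simp only [map_pow] at this
    exact this
  rw [h, map_prod]
  refine Finset.prod_congr rfl fun i _ => ?_
  rw [map_pow]

/-- a prime ideal containing `n` contains every `Q` divisible by the prime factors of `n` -/
theorem mem_of_nat {P : Ideal (𝓞 K)} (hP : P.IsPrime) (Q : ℕ) :
    ∀ n : ℕ, n ≠ 0 → (∀ p : ℕ, p.Prime → p ∣ n → p ∣ Q) → (n : 𝓞 K) ∈ P → (Q : 𝓞 K) ∈ P := by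
  intro n
  induction n using Nat.strong_induction_on with
  | _ n ih =>
    intro hn hQ hmem
    by_cases h1 : n = 1
    · exfalso
      rw [h1, Nat.cast_one] at hmem
      exact hP.ne_top ((Ideal.eq_top_iff_one _).mpr hmem)
    · have hp := Nat.minFac_prime h1
      obtain ⟨m, hm⟩ := Nat.minFac_dvd n
      have hm0 : m ≠ 0 := by
        rintro rfl
        rw [mul_zero] at hm
        exact hn hm
      have hmem2 : ((n.minFac * m : ℕ) : 𝓞 K) ∈ P := by rw [← hm]; exact hmem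
      rw [Nat.cast_mul] at hmem2
      rcases hP.mem_or_mem hmem2 with h | h
      · obtain ⟨r, hr⟩ := hQ _ hp (Nat.minFac_dvd n)
        rw [hr, Nat.cast_mul]
        exact P.mul_mem_right _ h
      · refine ih m ?_ hm0 (fun p hp' hpm => hQ p hp' (hm ▸ Dvd.dvd.mul_left hpm _)) h
        have h2 := hp.two_le
        have h3 : 0 < m := Nat.pos_of_ne_zero hm0
        rw [hm]
        nlinarith [hm]

end KeyCN

/-- [KEYC1] -/
theorem MM_eq {N : ℕ} (F : (X : Fin 3) → ι X → 𝓞 K) (e : (Σ X : Fin 3, ι X) → ℕ)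
    (a : InfinitePlace K → ι 0) (b : InfinitePlace K → ι 1)
    (f : (InfinitePlace K → Fin (2 * N + 1)) × (InfinitePlace K → Fin (2 * N + 1))) :
    MM (PF F e) (fun w => F 0 (a w)) (fun w => F 1 (b w)) f = PF F (exf e a b f) := by
  classical
  have key : ∀ (X : Fin 3) (c : InfinitePlace K → ι X) (k : InfinitePlace K → ℕ),
      ∏ i, F X i ^ (∑ w, if (⟨X, i⟩ : Σ X : Fin 3, ι X) = ⟨X, c w⟩ then k w else 0) =
        ∏ w, F X (c w) ^ k w := by
    intro X c k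
    have h1 : ∀ i, F X i ^ (∑ w, if (⟨X, i⟩ : Σ X : Fin 3, ι X) = ⟨X, c w⟩ then k w else 0) =
        ∏ w, F X i ^ (if (⟨X, i⟩ : Σ X : Fin 3, ι X) = ⟨X, c w⟩ then k w else 0) := by
      intro i
      rw [Finset.prod_pow_eq_pow_sum]
    rw [Finset.prod_congr rfl fun i _ => h1 i, Finset.prod_comm]
    refine Finset.prod_congr rfl fun w _ => ?_
    rw [Finset.prod_eq_single (c w)]
    · rw [if_pos rfl]
    · intro i _ hi
      rw [if_neg, pow_zero]
      intro h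
      apply hi
      have h2 := Sigma.mk.inj_iff.mp h
      exact eq_of_heq h2.2
    · intro h
      exact absurd (Finset.mem_univ _) h
  funext X
  fin_cases X
  · show PF F e 0 * ∏ w, F 0 (a w) ^ (f.1 w : ℕ) = PF F (exf e a b f) 0
    rw [← key 0 a fun w => (f.1 w : ℕ), PF, PF, ← Finset.prod_mul_distrib]
    refine Finset.prod_congr rfl fun i _ => ?_
    rw [← pow_add]
    congr 1
    unfold exf
    have h0 : ∑ w, (if (⟨0, i⟩ : Σ X : Fin 3, ι X) = ⟨1, b w⟩ then (f.2 w : ℕ) else 0) = 0 :=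
      Finset.sum_eq_zero fun w _ => if_neg fun h => by
        have : (0 : Fin 3) = 1 := congrArg Sigma.fst h
        exact absurd this (by decide)
    rw [KeyCN.sum_ite_irrel _ _ h0, add_zero]
  · show PF F e 1 * ∏ w, F 1 (b w) ^ (f.2 w : ℕ) = PF F (exf e a b f) 1
    rw [← key 1 b fun w => (f.2 w : ℕ), PF, PF, ← Finset.prod_mul_distrib]
    refine Finset.prod_congr rfl fun i _ => ?_
    rw [← pow_add]
    congr 1
    unfold exf
    have h0 : ∑ w, (if (⟨1, i⟩ : Σ X : Fin 3, ι X) = ⟨0, a w⟩ then (f.1 w : ℕ) else 0) = 0 :=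
      Finset.sum_eq_zero fun w _ => if_neg fun h => by
        have : (1 : Fin 3) = 0 := congrArg Sigma.fst h
        exact absurd this (by decide)
    rw [KeyCN.sum_ite_irrel _ _ h0, add_zero]
  · show PF F e 2 = PF F (exf e a b f) 2
    rw [PF, PF]
    refine Finset.prod_congr rfl fun i _ => ?_
    congr 1
    unfold exf
    have h0 : ∑ w, (if (⟨2, i⟩ : Σ X : Fin 3, ι X) = ⟨0, a w⟩ then (f.1 w : ℕ) else 0) = 0 :=
      Finset.sum_eq_zero fun w _ => if_neg fun h => by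
        have : (2 : Fin 3) = 0 := congrArg Sigma.fst h
        exact absurd this (by decide)
    have h1 : ∑ w, (if (⟨2, i⟩ : Σ X : Fin 3, ι X) = ⟨1, b w⟩ then (f.2 w : ℕ) else 0) = 0 :=
      Finset.sum_eq_zero fun w _ => if_neg fun h => by
        have : (2 : Fin 3) = 1 := congrArg Sigma.fst h
        exact absurd this (by decide)
    rw [KeyCN.sum_ite_irrel _ _ h0, KeyCN.sum_ite_irrel _ _ h1, add_zero, add_zero]

/-- [KEYC2] the exponents are close to `e + N (…)` -/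
theorem exf_le {N : ℕ} (e : (Σ X : Fin 3, ι X) → ℕ) (a : InfinitePlace K → ι 0)
    (b : InfinitePlace K → ι 1) (ha : Function.Injective a) (hb : Function.Injective b)
    (f : (InfinitePlace K → Fin (2 * N + 1)) × (InfinitePlace K → Fin (2 * N + 1)))
    (g : Σ X : Fin 3, ι X) : e g ≤ exf e a b f g ∧ exf e a b f g ≤ e g + 2 * N := by
  classical
  unfold exf
  refine ⟨by omega, ?_⟩
  rw [add_assoc]
  apply Nat.add_le_add_left
  have hX : ∀ (X : Fin 3) (c : InfinitePlace K → ι X) (hc : Function.Injective c)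
      (k : InfinitePlace K → Fin (2 * N + 1)) (dec : ∀ w, Decidable (g = ⟨X, c w⟩)),
      (∑ w, @ite _ (g = ⟨X, c w⟩) (dec w) (k w : ℕ) 0) = 0 ∨
        (g.1 = X ∧ (∑ w, @ite _ (g = ⟨X, c w⟩) (dec w) (k w : ℕ) 0) ≤ 2 * N) := by
    intro X c hc k dec
    by_cases h : ∃ w, g = ⟨X, c w⟩
    · obtain ⟨w, hw⟩ := h
      right
      refine ⟨by rw [hw], ?_⟩
      rw [Finset.sum_eq_single w]
      · rw [if_pos hw]
        have := (k w).2
        omega
      · intro w' _ hw'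
        rw [if_neg]
        intro h'
        apply hw'
        rw [hw] at h'
        have h2 := Sigma.mk.inj_iff.mp h'
        exact (hc (eq_of_heq h2.2)).symm
      · intro h'
        exact absurd (Finset.mem_univ _) h'
    · left
      exact Finset.sum_eq_zero fun w _ => if_neg fun h' => h ⟨w, h'⟩
  rcases hX 0 a ha f.1 _ with h1 | ⟨h1, h1'⟩
  · rcases hX 1 b hb f.2 _ with h2 | ⟨h2, h2'⟩
    · rw [h1, h2]
      omega
    · rw [h1, zero_add]
      exact h2'
  · rcases hX 1 b hb f.2 _ with h2 | ⟨h2, h2'⟩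
    · rw [h2, add_zero]
      exact h1'
    · exfalso
      rw [h1] at h2
      exact absurd h2 (by decide)

/-- [KEYC3] -/
theorem PF_ne_zero {F : (X : Fin 3) → ι X → 𝓞 K} (hF : Adm F) (e : (Σ X : Fin 3, ι X) → ℕ)
    (X : Fin 3) : PF F e X ≠ 0 := by
  unfold PF
  rw [Finset.prod_ne_zero_iff]
  intro i _
  exact pow_ne_zero _ (KeyCN.ne_zero_of_adm hF X i)

/-- [KEYC4] -/
theorem log_PF {F : (X : Fin 3) → ι X → 𝓞 K} (hF : Adm F) (e : (Σ X : Fin 3, ι X) → ℕ)
    (X : Fin 3) (w : InfinitePlace K) :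
    Real.log (w (PF F e X : K)) = LX F X (fun g => (e g : ℝ)) w := by
  rw [KeyCN.place_PF, Real.log_prod]
  · unfold LX
    refine Finset.sum_congr rfl fun i _ => ?_
    rw [Real.log_pow]
  · intro i _
    have := hF.one_lt X i w
    positivity

/-- [KEYC5] the prime factors of the multipliers -/
theorem exists_kappa {F : (X : Fin 3) → ι X → 𝓞 K} (hF : Adm F) : ∃ κ₁ : ℕ, 0 < κ₁ ∧
    ∀ κ : ℕ, κ₁ ≤ κ → ∀ (μ e₀ γ : ℕ) (e : (Σ X : Fin 3, ι X) → ℕ), (∀ g, 1 ≤ e g) →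
      (∀ X (w : InfinitePlace K), w (PF F e X : K) ≤ 2 ^ μ) →
      qq κ * 2 ^ (γ + 1) ≤ 2 ^ e₀ → Ctx0 κ μ (qq κ) e₀ γ (PF F e) := by
  classical
  refine ⟨1 + ∑ X, ∑ i, (Ideal.span {F X i} : Ideal (𝓞 K)).absNorm, by omega, ?_⟩
  intro κ hκ μ e₀ γ e he hμ hq
  have hle : ∀ X i, (Ideal.span {F X i} : Ideal (𝓞 K)).absNorm < 2 ^ κ := by
    intro X i
    have h1 : (Ideal.span {F X i} : Ideal (𝓞 K)).absNorm ≤
        ∑ i, (Ideal.span {F X i} : Ideal (𝓞 K)).absNorm :=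
      Finset.single_le_sum (f := fun i => (Ideal.span {F X i} : Ideal (𝓞 K)).absNorm)
        (fun _ _ => Nat.zero_le _) (Finset.mem_univ i)
    have h2 : ∑ i, (Ideal.span {F X i} : Ideal (𝓞 K)).absNorm ≤
        ∑ X, ∑ i, (Ideal.span {F X i} : Ideal (𝓞 K)).absNorm :=
      Finset.single_le_sum (f := fun X => ∑ i, (Ideal.span {F X i} : Ideal (𝓞 K)).absNorm)
        (fun _ _ => Nat.zero_le _) (Finset.mem_univ X)
    have h3 : κ < 2 ^ κ := Nat.lt_two_pow_self
    omega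
  refine ⟨⟨by omega, Pool.Agent.H366.ZC.KeyZN.qq_pos κ, hq, ?_⟩, ?_, ?_, hμ, ?_, ?_⟩
  · intro p hp hpk
    exact (Pool.Agent.H366.ZC.KeyZN.dvd_qq hp).mpr hpk
  · intro X P hP hmem
    unfold PF at hmem
    rw [Ideal.IsPrime.prod_mem_iff] at hmem
    obtain ⟨i, -, hi⟩ := hmem
    have hi2 : F X i ∈ P := hP.mem_of_pow_mem _ hi
    have hspan : Ideal.span {F X i} ≤ P := by
      rw [Ideal.span_singleton_le_iff_mem]
      exact hi2
    have hn0 : (Ideal.span {F X i} : Ideal (𝓞 K)).absNorm ≠ 0 := by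
      rw [Ne, Ideal.absNorm_eq_zero_iff, Ideal.span_singleton_eq_bot]
      exact KeyCN.ne_zero_of_adm hF X i
    refine KeyCN.mem_of_nat hP (qq κ) _ hn0 ?_ (hspan (Ideal.absNorm_mem _))
    intro p hp hpn
    refine (Pool.Agent.H366.ZC.KeyZN.dvd_qq hp).mpr ?_
    exact lt_of_le_of_lt (Nat.le_of_dvd (Nat.pos_of_ne_zero hn0) hpn) (hle X i)
  · intro X w
    rw [KeyCN.place_PF]
    calc (1 : ℝ) = ∏ i : ι X, (1 : ℝ) := by rw [Finset.prod_const_one]
      _ ≤ ∏ i, w (F X i : K) ^ e ⟨X, i⟩ :=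
        Finset.prod_le_prod (fun _ _ => zero_le_one) fun i _ =>
          one_le_pow₀ (hF.one_lt X i w).le
  · intro X Y hXY
    unfold PF
    exact IsCoprime.prod_left fun i _ => IsCoprime.prod_right fun j _ =>
      (hF.cop X Y hXY i j).pow
  · intro P hP h2
    obtain ⟨X, i, hi⟩ := hF.two P hP h2
    refine ⟨X, ?_⟩
    have hd : F X i ∣ PF F e X := by
      unfold PF
      exact (dvd_pow_self (F X i) (by have := he ⟨X, i⟩; omega)).trans
        (Finset.dvd_prod_of_mem (fun i => F X i ^ e ⟨X, i⟩) (Finset.mem_univ i))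
    exact P.mem_of_dvd hd hi

/-- [KEYC6] `BaseOK`: the exponents `e + N (…)` are close to `e'`, `ell e' = 0` -/
theorem baseOK_of {F : (X : Fin 3) → ι X → 𝓞 K} (hF : Adm F) {N : ℕ}
    (e : (Σ X : Fin 3, ι X) → ℕ) (a : InfinitePlace K → ι 0) (b : InfinitePlace K → ι 1)
    (ha : Function.Injective a) (hb : Function.Injective b)
    (e' : (Σ X : Fin 3, ι X) → ℝ) (he' : ell F e' = 0) (C : ℝ) (hC : 0 ≤ C)
    (hCell : ∀ (e : (Σ X : Fin 3, ι X) → ℝ) (B : ℝ), (∀ g, |e g| ≤ B) →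
      ∀ p, |ell F e p| ≤ C * B)
    (he : ∀ g : Σ X : Fin 3, ι X, |((exf e a b (N := N) (fun _ => ⟨N, by omega⟩,
      fun _ => ⟨N, by omega⟩) g : ℕ) : ℝ) - e' g| ≤ 1) :
    BaseOK N C (PF F e) (fun w => F 0 (a w)) (fun w => F 1 (b w)) := by
  classical
  intro w
  have hMM := MM_eq (N := N) F e a b (fun _ => ⟨N, by omega⟩, fun _ => ⟨N, by omega⟩)
  set ex : (Σ X : Fin 3, ι X) → ℕ := exf e a b (N := N) (fun _ => ⟨N, by omega⟩,
      fun _ => ⟨N, by omega⟩) with hex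
  have h0 : PF F e 0 * ∏ i, F 0 (a i) ^ N = PF F ex 0 := congrFun hMM 0
  have h1 : PF F e 1 * ∏ i, F 1 (b i) ^ N = PF F ex 1 := congrFun hMM 1
  have h2 : PF F e 2 = PF F ex 2 := congrFun hMM 2
  rw [h0, h1, h2, log_PF hF, log_PF hF, log_PF hF]
  have hsub : ell F (fun g => (ex g : ℝ)) = ell F (fun g => (ex g : ℝ) - e' g) := by
    have h3 : (fun g => (ex g : ℝ) - e' g) = (fun g => (ex g : ℝ)) - e' := rfl
    rw [h3, map_sub, he', sub_zero]
  have hb1 := hCell (fun g => (ex g : ℝ) - e' g) 1 he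
  rw [← hsub, mul_one] at hb1
  exact ⟨hb1 (Sum.inl w), hb1 (Sum.inr w)⟩

end Pool.Agent.H366.NK
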