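import Pool.Agent.H366.NK.KeyB
import Pool.Agent.H366.NK.KeyC
import Pool.Agent.H366.NK.ExpN
import Pool.Agent.H366.NK.FinN
import Pool.Agent.H366.ZC.KeyC

/-! # Preparations for the key theorem: the arguments at a solution -/

set_option autoImplicit false

namespace Pool.Agent.H366.NK

open NumberField
open NumberField.mixedEmbedding (mixedSpace normAtPlace)
open H39Gon H39Gon.TaskB

namespace KeyNN

variable {K : Type} [Field K] [NumberField K] {ι : Fin 3 → Type} [∀ X, Fintype (ι X)]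
  {u Θ : ℝ} {H₀ q d s : ℕ}

/-- the value of the slot -/
noncomputable def zv (z : Slot K u Θ H₀ q d) : 𝓞 K := zz q d (rv z.1) (cg z.2.1) z.2.2

/-- the contribution of the slot `x` -/
noncomputable def bt (x : Fin 3 × Fin s) (z : Slot K u Θ H₀ q d) : (UV K × UV K) × ℤ :=
  ((![(-cl (zv z : K), -cl (zv z : K)), (cl (zv z : K), 0), (0, cl (zv z : K))] :
    Fin 3 → UV K × UV K) x.1, 0)

/-- the contribution of the multiplier `g` -/
noncomputable def wg (F : (X : Fin 3) → ι X → 𝓞 K) (g : Σ X : Fin 3, ι X) :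
    (UV K × UV K) × ℤ :=
  ((![(-cl (F g.1 g.2 : K), -cl (F g.1 g.2 : K)), (cl (F g.1 g.2 : K), 0),
    (0, cl (F g.1 g.2 : K))] : Fin 3 → UV K × UV K) g.1, 0)

lemma co_mul (a b : 𝓞 K) : ((a * b : 𝓞 K) : K) = (a : K) * (b : K) := by push_cast; rfl

lemma co_add (a b : 𝓞 K) : ((a + b : 𝓞 K) : K) = (a : K) + (b : K) := by push_cast; rfl

lemma co_pow (a : 𝓞 K) (n : ℕ) : ((a ^ n : 𝓞 K) : K) = (a : K) ^ n := by push_cast; rfl

lemma co_prod {J : Type} (S : Finset J) (f : J → 𝓞 K) :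
    ((∏ i ∈ S, f i : 𝓞 K) : K) = ∏ i ∈ S, (f i : K) := by push_cast; rfl

lemma F_ne {F : (X : Fin 3) → ι X → 𝓞 K} (hF : Adm F) (X : Fin 3) (i : ι X) :
    (F X i : K) ≠ 0 := by
  obtain ⟨w⟩ : Nonempty (InfinitePlace K) := inferInstance
  intro h
  have := hF.one_lt X i w
  rw [h, map_zero] at this
  linarith

lemma cl_PF {F : (X : Fin 3) → ι X → 𝓞 K} (hF : Adm F) (e : (Σ X : Fin 3, ι X) → ℕ) (X : Fin 3) :
    cl (PF F e X : K) = ∑ i, (e ⟨X, i⟩ : ℤ) • cl (F X i : K) := by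
  unfold PF
  rw [co_prod, cl_prod]
  · refine Finset.sum_congr rfl fun i _ => ?_
    rw [co_pow, cl_pow (F_ne hF X i), natCast_zsmul]
  · intro i _
    rw [co_pow]
    exact pow_ne_zero _ (F_ne hF X i)

lemma cl_prodz (X : Fin 3) (z : Fin 3 × Fin s → Slot K u Θ H₀ q d) (hz : ∀ x, zv (z x) ≠ 0) :
    cl ((∏ i, zv (z (X, i)) : 𝓞 K) : K) = ∑ i, cl (zv (z (X, i)) : K) := by
  rw [co_prod, cl_prod]
  intro i _
  exact RingOfIntegers.coe_ne_zero_iff.2 (hz _)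

lemma sum_wg (F : (X : Fin 3) → ι X → 𝓞 K) (a : (Σ X : Fin 3, ι X) → ℤ) :
    ∑ g, a g • wg F g = ((∑ i, a ⟨1, i⟩ • cl (F 1 i : K) - ∑ i, a ⟨0, i⟩ • cl (F 0 i : K),
      ∑ i, a ⟨2, i⟩ • cl (F 2 i : K) - ∑ i, a ⟨0, i⟩ • cl (F 0 i : K)), 0) := by
  have hneg : ∀ (r : ℤ) (y : UV K), r • (-y) = -(r • y) := fun r y => zsmul_neg y r
  have hzero : ∀ r : ℤ, r • (0 : ℤ) = 0 := fun r => smul_zero r
  have hzero' : ∀ r : ℤ, r • (0 : UV K) = 0 := fun r => zsmul_zero r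
  rw [Fintype.sum_sigma, Fin.sum_univ_three]
  have e0 : ∀ i, a ⟨0, i⟩ • wg F ⟨0, i⟩ =
    ((-(a ⟨0, i⟩ • cl (F 0 i : K)), -(a ⟨0, i⟩ • cl (F 0 i : K))), (0 : ℤ)) := by
    intro i
    show ((a ⟨0, i⟩ • (-cl (F 0 i : K)), a ⟨0, i⟩ • (-cl (F 0 i : K))), a ⟨0, i⟩ • (0 : ℤ)) = _
    rw [hneg, hzero]
  have e1 : ∀ i, a ⟨1, i⟩ • wg F ⟨1, i⟩ = ((a ⟨1, i⟩ • cl (F 1 i : K), 0), (0 : ℤ)) := by
    intro i
    show ((a ⟨1, i⟩ • cl (F 1 i : K), a ⟨1, i⟩ • (0 : UV K)), a ⟨1, i⟩ • (0 : ℤ)) = _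
    rw [hzero', hzero]
  have e2 : ∀ i, a ⟨2, i⟩ • wg F ⟨2, i⟩ = ((0, a ⟨2, i⟩ • cl (F 2 i : K)), (0 : ℤ)) := by
    intro i
    show ((a ⟨2, i⟩ • (0 : UV K), a ⟨2, i⟩ • cl (F 2 i : K)), a ⟨2, i⟩ • (0 : ℤ)) = _
    rw [hzero', hzero]
  simp only [e0, e1, e2]
  refine Prod.ext (Prod.ext ?_ ?_) ?_
  · simp only [Prod.fst_add, Prod.fst_sum, Finset.sum_neg_distrib, Finset.sum_const_zero,
      add_zero]
    abel
  · simp only [Prod.fst_add, Prod.snd_add, Prod.snd_sum, Prod.fst_sum, Finset.sum_neg_distrib,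
      Finset.sum_const_zero, add_zero, zero_add]
    abel
  · simp only [Prod.snd_add, Prod.snd_sum, Finset.sum_const_zero, add_zero]

/-- the argument at a solution -/
noncomputable def xx (F : (X : Fin 3) → ι X → 𝓞 K) (e : (Σ X : Fin 3, ι X) → ℕ)
    (z : Fin 3 × Fin s → Slot K u Θ H₀ q d) : K :=
  ((PF F e 1 * ∏ i, zv (z (1, i)) : 𝓞 K) : K) / ((PF F e 0 * ∏ i, zv (z (0, i)) : 𝓞 K) : K)

lemma one_sub_xx {F : (X : Fin 3) → ι X → 𝓞 K} (hF : Adm F) (e : (Σ X : Fin 3, ι X) → ℕ)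
    (z : Fin 3 × Fin s → Slot K u Θ H₀ q d) (hz : ∀ x, zv (z x) ≠ 0)
    (h : PF F e 0 * ∏ i, zv (z (0, i)) = PF F e 1 * ∏ i, zv (z (1, i)) +
      PF F e 2 * ∏ i, zv (z (2, i))) :
    1 - xx F e z = ((PF F e 2 * ∏ i, zv (z (2, i)) : 𝓞 K) : K) /
      ((PF F e 0 * ∏ i, zv (z (0, i)) : 𝓞 K) : K) := by
  have h0 : ((PF F e 0 * ∏ i, zv (z (0, i)) : 𝓞 K) : K) ≠ 0 := by
    rw [RingOfIntegers.coe_ne_zero_iff]
    exact mul_ne_zero (PF_ne_zero hF e 0) (Finset.prod_ne_zero_iff.2 fun i _ => hz _)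
  unfold xx
  rw [eq_div_iff h0, sub_mul, one_mul, div_mul_cancel₀ _ h0, h, co_add]
  ring

/-- the arguments at a solution -/
lemma eval_point {F : (X : Fin 3) → ι X → 𝓞 K} (hF : Adm F) (e : (Σ X : Fin 3, ι X) → ℕ)
    (z : Fin 3 × Fin s → Slot K u Θ H₀ q d) (hz : ∀ x, zv (z x) ≠ 0)
    (h : PF F e 0 * ∏ i, zv (z (0, i)) = PF F e 1 * ∏ i, zv (z (1, i)) +
      PF F e 2 * ∏ i, zv (z (2, i))) :
    (((cl (xx F e z), cl (1 - xx F e z)), 1) : (UV K × UV K) × ℤ) =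
      ((0, 0), 1) + ∑ x, bt x (z x) + ∑ g, ((e g : ℕ) : ℤ) • wg F g := by
  have hP : ∀ X, (PF F e X : K) ≠ 0 := fun X =>
    RingOfIntegers.coe_ne_zero_iff.2 (PF_ne_zero hF e X)
  have hZ : ∀ X : Fin 3, ((∏ i, zv (z (X, i)) : 𝓞 K) : K) ≠ 0 := fun X =>
    RingOfIntegers.coe_ne_zero_iff.2 (Finset.prod_ne_zero_iff.2 fun i _ => hz _)
  have hb : ∑ x, bt x (z x) = (((∑ i, cl (zv (z (1, i)) : K) - ∑ i, cl (zv (z (0, i)) : K),
      ∑ i, cl (zv (z (2, i)) : K) - ∑ i, cl (zv (z (0, i)) : K)), 0) : (UV K × UV K) × ℤ) := by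
    rw [Fintype.sum_prod_type, Fin.sum_univ_three]
    have e0 : ∀ i : Fin s, bt (0, i) (z (0, i)) =
      ((-cl (zv (z (0, i)) : K), -cl (zv (z (0, i)) : K)), (0 : ℤ)) := fun i => rfl
    have e1 : ∀ i : Fin s, bt (1, i) (z (1, i)) = ((cl (zv (z (1, i)) : K), 0), (0 : ℤ)) :=
      fun i => rfl
    have e2 : ∀ i : Fin s, bt (2, i) (z (2, i)) = ((0, cl (zv (z (2, i)) : K)), (0 : ℤ)) :=
      fun i => rfl
    simp only [e0, e1, e2]
    refine Prod.ext (Prod.ext ?_ ?_) ?_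
    · simp only [Prod.fst_add, Prod.fst_sum, Finset.sum_neg_distrib, Finset.sum_const_zero,
        add_zero]
      abel
    · simp only [Prod.fst_add, Prod.snd_add, Prod.snd_sum, Prod.fst_sum, Finset.sum_neg_distrib,
        Finset.sum_const_zero, add_zero, zero_add]
      abel
    · simp only [Prod.snd_add, Prod.snd_sum, Finset.sum_const_zero, add_zero]
  rw [one_sub_xx hF e z hz h, sum_wg, hb]
  unfold xx
  rw [cl_div (by rw [co_mul]; exact mul_ne_zero (hP 1) (hZ 1))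
    (by rw [co_mul]; exact mul_ne_zero (hP 0) (hZ 0)),
    cl_div (by rw [co_mul]; exact mul_ne_zero (hP 2) (hZ 2))
    (by rw [co_mul]; exact mul_ne_zero (hP 0) (hZ 0)), co_mul, co_mul, co_mul,
    cl_mul (hP 0) (hZ 0), cl_mul (hP 1) (hZ 1), cl_mul (hP 2) (hZ 2), cl_PF hF, cl_PF hF,
    cl_PF hF, cl_prodz 0 z hz, cl_prodz 1 z hz, cl_prodz 2 z hz]
  refine Prod.ext (Prod.ext ?_ ?_) ?_
  · simp only [Prod.fst_add, zero_add]
    abel
  · simp only [Prod.fst_add, Prod.snd_add, zero_add]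
    abel
  · simp only [Prod.snd_add, add_zero]

/-- signs -/
noncomputable def cc (X : Fin 3) : InfinitePlace K ⊕ InfinitePlace K → ℝ :=
  Sum.elim (fun _ => (![-1, 1, 0] : Fin 3 → ℝ) X) (fun _ => (![-1, 0, 1] : Fin 3 → ℝ) X)

/-- the place -/
def lw : InfinitePlace K ⊕ InfinitePlace K → InfinitePlace K := Sum.elim id id

/-- the logarithms at a solution -/
lemma Lg_xx {F : (X : Fin 3) → ι X → 𝓞 K} (hF : Adm F) (e : (Σ X : Fin 3, ι X) → ℕ)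
    (z : Fin 3 × Fin s → Slot K u Θ H₀ q d) (hz : ∀ x, zv (z x) ≠ 0)
    (h : PF F e 0 * ∏ i, zv (z (0, i)) = PF F e 1 * ∏ i, zv (z (1, i)) +
      PF F e 2 * ∏ i, zv (z (2, i))) (p : InfinitePlace K ⊕ InfinitePlace K) :
    Lg (mixedEmbedding K (xx F e z)) p = ell F (fun g => (e g : ℝ)) p +
      ∑ x : Fin 3 × Fin s, cc x.1 p * Real.log (lw p (zv (z x) : K)) := by
  have hP : ∀ X, (PF F e X : K) ≠ 0 := fun X =>
    RingOfIntegers.coe_ne_zero_iff.2 (PF_ne_zero hF e X)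
  have hZ : ∀ X : Fin 3, ((∏ i, zv (z (X, i)) : 𝓞 K) : K) ≠ 0 := fun X =>
    RingOfIntegers.coe_ne_zero_iff.2 (Finset.prod_ne_zero_iff.2 fun i _ => hz _)
  have hlog : ∀ (X : Fin 3) (w : InfinitePlace K),
      Real.log (w ((PF F e X * ∏ i, zv (z (X, i)) : 𝓞 K) : K)) =
        LX F X (fun g => (e g : ℝ)) w + ∑ i, Real.log (w (zv (z (X, i)) : K)) := by
    intro X w
    rw [co_mul, map_mul, Real.log_mul ((map_ne_zero w).2 (hP X)) ((map_ne_zero w).2 (hZ X)),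
      log_PF hF, co_prod, map_prod, Real.log_prod]
    intro i _
    exact (map_ne_zero w).2 (RingOfIntegers.coe_ne_zero_iff.2 (hz (X, i)))
  have hne : ∀ (X : Fin 3) (w : InfinitePlace K),
      w ((PF F e X * ∏ i, zv (z (X, i)) : 𝓞 K) : K) ≠ 0 := by
    intro X w
    rw [co_mul, map_mul]
    exact mul_ne_zero ((map_ne_zero w).2 (hP X)) ((map_ne_zero w).2 (hZ X))
  cases p with
  | inl w =>
    show Real.log (normAtPlace w (mixedEmbedding K (xx F e z))) = (LX F 1 _ w - LX F 0 _ w) + _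
    rw [mixedEmbedding.normAtPlace_apply]
    unfold xx
    rw [map_div₀, Real.log_div (hne 1 w) (hne 0 w), hlog, hlog, Fintype.sum_prod_type,
      Fin.sum_univ_three]
    show _ = _ + (∑ i, (-1 : ℝ) * Real.log (w (zv (z (0, i)) : K)) +
      ∑ i, (1 : ℝ) * Real.log (w (zv (z (1, i)) : K)) +
      ∑ i, (0 : ℝ) * Real.log (w (zv (z (2, i)) : K)))
    simp only [neg_mul, one_mul, zero_mul, Finset.sum_neg_distrib, Finset.sum_const_zero]
    ring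
  | inr w =>
    show Real.log (normAtPlace w (1 - mixedEmbedding K (xx F e z))) =
      (LX F 2 _ w - LX F 0 _ w) + _
    rw [← map_one (mixedEmbedding K), ← map_sub, mixedEmbedding.normAtPlace_apply,
      one_sub_xx hF e z hz h, map_div₀, Real.log_div (hne 2 w) (hne 0 w), hlog, hlog,
      Fintype.sum_prod_type, Fin.sum_univ_three]
    show _ = _ + (∑ i, (-1 : ℝ) * Real.log (w (zv (z (0, i)) : K)) +
      ∑ i, (0 : ℝ) * Real.log (w (zv (z (1, i)) : K)) +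
      ∑ i, (1 : ℝ) * Real.log (w (zv (z (2, i)) : K)))
    simp only [neg_mul, one_mul, zero_mul, Finset.sum_neg_distrib, Finset.sum_const_zero]
    ring

section affine

variable {U : ℕ} (io : (Σ X : Fin 3, ι X) → Fin U → ℝ)
  (ka : (Σ X : Fin 3, ι X) → InfinitePlace K ⊕ InfinitePlace K → ℝ)
  (pi' : Fin U → (Σ X : Fin 3, ι X) → ℝ)

/-- the linear parts -/
noncomputable def AA (E : ℝ) (g : Σ X : Fin 3, ι X) :
    Option (Fin U ⊕ (InfinitePlace K ⊕ InfinitePlace K)) → ℝ :=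
  fun o => o.elim 0 (Sum.elim (fun j => E * io g j) (fun p => ka g p))

/-- the slot parts -/
noncomputable def lam (g : Σ X : Fin 3, ι X) (x : Fin 3 × Fin s) (z : Slot K u Θ H₀ q d) : ℝ :=
  - ∑ p, ka g p * (cc x.1 p * Real.log (lw p (zv z : K)))

lemma sum_AA (E : ℝ) (g : Σ X : Fin 3, ι X)
    (v : Fin U ⊕ (InfinitePlace K ⊕ InfinitePlace K) → ℝ) :
    ∑ o, AA io ka E g o * vo v o = ∑ j, E * io g j * v (Sum.inl j) +
      ∑ p, ka g p * v (Sum.inr p) := by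
  rw [Fintype.sum_option, Fintype.sum_sum_type]
  show (0 : ℝ) * _ + _ = _
  rw [zero_mul, zero_add]
  rfl

lemma sum_lam (g : Σ X : Fin 3, ι X) (z : Fin 3 × Fin s → Slot K u Θ H₀ q d) :
    ∑ x, lam ka g x (z x) = - ∑ p, ka g p * ∑ x : Fin 3 × Fin s, cc x.1 p *
      Real.log (lw p (zv (z x) : K)) := by
  unfold lam
  rw [Finset.sum_neg_distrib, Finset.sum_comm]
  congr 1
  refine Finset.sum_congr rfl fun p _ => ?_
  rw [Finset.mul_sum]

variable {io ka pi'}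

/-- the exponents in terms of the coordinates -/
lemma affine1 {F : (X : Fin 3) → ι X → 𝓞 K} (hF : Adm F)
    (h1 : ∀ (e : (Σ X : Fin 3, ι X) → ℝ) (g : Σ X : Fin 3, ι X),
      e g = ∑ j, io g j * (∑ g', pi' j g' * e g') + ∑ p, ka g p * ell F e p)
    {E : ℝ} (hE : E ≠ 0) (e : (Σ X : Fin 3, ι X) → ℕ)
    (z : Fin 3 × Fin s → Slot K u Θ H₀ q d) (hz : ∀ x, zv (z x) ≠ 0)
    (h : PF F e 0 * ∏ i, zv (z (0, i)) = PF F e 1 * ∏ i, zv (z (1, i)) +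
      PF F e 2 * ∏ i, zv (z (2, i))) (g : Σ X : Fin 3, ι X) :
    (((e g : ℕ) : ℤ) : ℝ) = ∑ o, AA io ka E g o * vo (Sum.elim
      (fun j => (∑ g', pi' j g' * (e g' : ℝ)) / E) (Lg (mixedEmbedding K (xx F e z)))) o +
      ∑ x, lam ka g x (z x) := by
  rw [sum_AA, sum_lam, Int.cast_natCast, h1 (fun g => (e g : ℝ)) g]
  simp only [Sum.elim_inl, Sum.elim_inr, Lg_xx hF e z hz h, mul_add, Finset.sum_add_distrib]
  have : ∀ j, E * io g j * ((∑ g', pi' j g' * (e g' : ℝ)) / E) =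
      io g j * ∑ g', pi' j g' * (e g' : ℝ) := by
    intro j
    field_simp
  simp only [this]
  ring

/-- all integers have such a representation -/
lemma affine2 {F : (X : Fin 3) → ι X → 𝓞 K}
    (h1 : ∀ (e : (Σ X : Fin 3, ι X) → ℝ) (g : Σ X : Fin 3, ι X),
      e g = ∑ j, io g j * (∑ g', pi' j g' * e g') + ∑ p, ka g p * ell F e p)
    {E : ℝ} (hE : E ≠ 0) (a : (Σ X : Fin 3, ι X) → ℤ)
    (z : Fin 3 × Fin s → Slot K u Θ H₀ q d) :
    ∃ v : Fin U ⊕ (InfinitePlace K ⊕ InfinitePlace K) → ℝ, ∀ g, (a g : ℝ) =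
      ∑ o, AA io ka E g o * vo v o + ∑ x, lam ka g x (z x) := by
  obtain ⟨b, hb⟩ : ∃ b : (Σ X : Fin 3, ι X) → ℝ, ∀ g, b g = a g - ∑ x, lam ka g x (z x) :=
    ⟨_, fun _ => rfl⟩
  refine ⟨Sum.elim (fun j => (∑ g', pi' j g' * b g') / E) (ell F b), fun g => ?_⟩
  rw [sum_AA]
  have h2 := h1 b g
  rw [hb g] at h2
  have : ∀ j, E * io g j * ((∑ g', pi' j g' * b g') / E) =
      io g j * ∑ g', pi' j g' * b g' := by
    intro j
    field_simp
  simp only [Sum.elim_inl, Sum.elim_inr, this]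
  linarith

end affine

end KeyNN

end Pool.Agent.H366.NK
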