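import Pool.Agent.H366.NK.KeyD

/-! # Preparations for the key theorem: choice of the constants -/

set_option autoImplicit false

namespace Pool.Agent.H366.NK

open NumberField
open NumberField.mixedEmbedding (mixedSpace normAtPlace)
open H39Gon H39Gon.TaskB

namespace KeyNN

/-- the choice of the exponents -/
lemma exists_exp {G : Type} [Fintype G] {N U : ℕ} (io : G → Fin U → ℝ) (pi' : Fin U → G → ℝ)
    (h3 : ∀ (u : Fin U → ℝ) (j : Fin U), ∑ g, pi' j g * (∑ j', io g j' * u j') = u j)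
    (ud : Fin N → Fin U → ℝ) (hud : ∀ c g, 0 < ∑ j, io g j * ud c j) (N' : ℕ) (nb : G → ℕ)
    (hnb : ∀ g, nb g ≤ 2 * N') (δ : ℝ) (hδ : 0 < δ) :
    ∃ (E : ℝ) (e : Fin N → G → ℕ), 0 < E ∧ (∀ c g, 1 ≤ e c g) ∧
      (∀ c g, |((e c g + nb g : ℕ) : ℝ) - E * ∑ j, io g j * ud c j| ≤ 1) ∧
      ∀ c (e' : G → ℕ), (∀ g, e c g ≤ e' g ∧ e' g ≤ e c g + 2 * N') →
        ∀ j, |(∑ g, pi' j g * (e' g : ℝ)) / E - ud c j| ≤ δ := by
  obtain ⟨m, hm, hmS⟩ : ∃ m : ℝ, 0 < m ∧ ∀ c g, m ≤ ∑ j, io g j * ud c j := by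
    rcases isEmpty_or_nonempty (Fin N × G) with hN | hN
    · exact ⟨1, one_pos, fun c g => (hN.false (c, g)).elim⟩
    · obtain ⟨x, hx⟩ := Finite.exists_min (fun x : Fin N × G => ∑ j, io x.2 j * ud x.1 j)
      exact ⟨_, hud x.1 x.2, fun c g => hx (c, g)⟩
  obtain ⟨P, hP0, hP⟩ : ∃ P : ℝ, 0 ≤ P ∧ ∀ j, ∑ g, |pi' j g| ≤ P := by
    refine ⟨∑ j, ∑ g, |pi' j g|, by positivity, fun j => ?_⟩
    exact Finset.single_le_sum (f := fun j => ∑ g, |pi' j g|) (fun j _ => by positivity)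
      (Finset.mem_univ j)
  obtain ⟨E, hE1, hE2⟩ : ∃ E : ℝ, (2 * N' + 2) / m ≤ E ∧ P * (2 * N' + 1) / δ + 1 ≤ E :=
    ⟨max ((2 * N' + 2) / m) (P * (2 * N' + 1) / δ + 1), le_max_left _ _, le_max_right _ _⟩
  have hE0 : 0 < E := by
    have : 0 ≤ P * (2 * N' + 1) / δ := by positivity
    linarith
  have hS : ∀ c g, (2 * N' + 2 : ℝ) ≤ E * ∑ j, io g j * ud c j := by
    intro c g
    rw [div_le_iff₀ hm] at hE1
    exact hE1.trans (mul_le_mul_of_nonneg_left (hmS c g) hE0.le)
  have hfl : ∀ c g, 2 * N' + 2 ≤ ⌊E * ∑ j, io g j * ud c j⌋₊ := by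
    intro c g
    refine Nat.le_floor ?_
    push_cast
    exact hS c g
  have hES0 : ∀ c g, 0 ≤ E * ∑ j, io g j * ud c j := fun c g => by
    have := hS c g
    have h0 : (0 : ℝ) ≤ 2 * N' + 2 := by positivity
    linarith
  refine ⟨E, fun c g => ⌊E * ∑ j, io g j * ud c j⌋₊ - nb g, hE0, fun c g => ?_, fun c g => ?_,
    fun c e' he' j => ?_⟩
  · have h1 := hfl c g
    have h2 := hnb g
    show 1 ≤ ⌊E * ∑ j, io g j * ud c j⌋₊ - nb g
    omega
  · have h1 := hfl c g
    have h2 := hnb g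
    have h3 : ⌊E * ∑ j, io g j * ud c j⌋₊ - nb g + nb g = ⌊E * ∑ j, io g j * ud c j⌋₊ := by
      omega
    rw [h3, abs_le]
    have h4 := Nat.floor_le (hES0 c g)
    have h5 := Nat.lt_floor_add_one (E * ∑ j, io g j * ud c j)
    constructor <;> linarith
  · have h4 : ∀ g, |(e' g : ℝ) - E * ∑ j, io g j * ud c j| ≤ 2 * N' + 1 := by
      intro g
      have h1 := hfl c g
      have h2 := hnb g
      obtain ⟨h5, h6⟩ := he' g
      have h7 : ⌊E * ∑ j, io g j * ud c j⌋₊ ≤ e' g + 2 * N' := by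
        simp only at h5
        omega
      have h8 : e' g ≤ ⌊E * ∑ j, io g j * ud c j⌋₊ + 2 * N' := by
        simp only at h6
        omega
      have h7' : ((⌊E * ∑ j, io g j * ud c j⌋₊ : ℕ) : ℝ) ≤ e' g + 2 * N' := by exact_mod_cast h7
      have h8' : (e' g : ℝ) ≤ ((⌊E * ∑ j, io g j * ud c j⌋₊ : ℕ) : ℝ) + 2 * N' := by
        exact_mod_cast h8
      have h9 := Nat.floor_le (hES0 c g)
      have h10 := Nat.lt_floor_add_one (E * ∑ j, io g j * ud c j)
      rw [abs_le]
      constructor <;> linarith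
    have h5 : (∑ g, pi' j g * (e' g : ℝ)) / E - ud c j =
        (∑ g, pi' j g * ((e' g : ℝ) - E * ∑ j', io g j' * ud c j')) / E := by
      have h6 : ∑ g, pi' j g * (E * ∑ j', io g j' * ud c j') = E * ud c j := by
        rw [← h3 (ud c) j, Finset.mul_sum]
        refine Finset.sum_congr rfl fun g _ => ?_
        ring
      simp only [mul_sub, Finset.sum_sub_distrib]
      rw [h6, sub_div, mul_div_cancel_left₀ _ hE0.ne']
    rw [h5, abs_div, abs_of_pos hE0, div_le_iff₀ hE0]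
    calc |∑ g, pi' j g * ((e' g : ℝ) - E * ∑ j', io g j' * ud c j')| ≤
        ∑ g, |pi' j g * ((e' g : ℝ) - E * ∑ j', io g j' * ud c j')| :=
          Finset.abs_sum_le_sum_abs _ _
      _ ≤ ∑ g, |pi' j g| * (2 * N' + 1) := by
          refine Finset.sum_le_sum fun g _ => ?_
          rw [abs_mul]
          exact mul_le_mul_of_nonneg_left (h4 g) (abs_nonneg _)
      _ = (∑ g, |pi' j g|) * (2 * N' + 1) := by rw [Finset.sum_mul]
      _ ≤ P * (2 * N' + 1) := mul_le_mul_of_nonneg_right (hP j) (by positivity)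
      _ ≤ δ * E := by
          have h6 : P * (2 * N' + 1) / δ ≤ E := by linarith
          rw [div_le_iff₀ hδ] at h6
          linarith

lemma zs_sum {W G : Type} [AddCommGroup W] [Fintype G] (j : ℤ) (a : G → ℤ) (w : G → W) :
    j • (∑ g, a g • w g) = ∑ g, (j * a g) • w g := by
  rw [Finset.smul_sum]
  exact Finset.sum_congr rfl fun g _ => (mul_smul j (a g) (w g)).symm

lemma good_point {A : Type} {i₁ i₂ : Fintype A} (hA : Nonempty A) (P : A → Prop)
    {i₃ : DecidablePred P}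
    (h : (((@Finset.univ A i₁).filter P).card : ℝ) ≤ 1 / 2 * (@Fintype.card A i₂ : ℝ)) :
    ∃ z, ¬ P z := by
  by_contra hcon
  push Not at hcon
  have h0 : i₁ = i₂ := Subsingleton.elim _ _
  subst h0
  rw [Finset.filter_true_of_mem fun z _ => hcon z, Finset.card_univ] at h
  have h5 : (0 : ℝ) < (Fintype.card A : ℝ) := by exact_mod_cast Fintype.card_pos
  linarith

variable {K : Type} [Field K] [NumberField K]

/-- a common bound for the targets -/
lemma exists_R {N : ℕ} (τ : Fin N → mixedSpace K)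
    (h : ∀ c (w : InfinitePlace K), normAtPlace w (τ c) ≠ 0 ∧ normAtPlace w (1 + τ c) ≠ 0)
    (C : ℝ) : ∃ R₀ : ℝ, C ≤ R₀ ∧ ∀ c, TauOK R₀ (τ c) := by
  refine ⟨max C (∑ c, ∑ w : InfinitePlace K, (|Real.log (normAtPlace w (τ c))| +
    |Real.log (normAtPlace w (1 + τ c))|)), le_max_left _ _, fun c w => ?_⟩
  have h1 : |Real.log (normAtPlace w (τ c))| + |Real.log (normAtPlace w (1 + τ c))| ≤
      ∑ c, ∑ w : InfinitePlace K, (|Real.log (normAtPlace w (τ c))| +
        |Real.log (normAtPlace w (1 + τ c))|) := by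
    refine le_trans ?_ (Finset.single_le_sum (f := fun c => ∑ w : InfinitePlace K,
      (|Real.log (normAtPlace w (τ c))| + |Real.log (normAtPlace w (1 + τ c))|))
      (fun c _ => by positivity) (Finset.mem_univ c))
    exact Finset.single_le_sum (f := fun w : InfinitePlace K =>
      |Real.log (normAtPlace w (τ c))| + |Real.log (normAtPlace w (1 + τ c))|)
      (fun c _ => by positivity) (Finset.mem_univ w)
  refine ⟨(h c w).1, (h c w).2, ?_, ?_⟩
  · refine le_trans (le_trans ?_ h1) (le_max_right _ _)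
    linarith [abs_nonneg (Real.log (normAtPlace w (1 + τ c)))]
  · refine le_trans (le_trans ?_ h1) (le_max_right _ _)
    linarith [abs_nonneg (Real.log (normAtPlace w (τ c)))]

lemma BaseOK.mono {N : ℕ} {R R' : ℝ} (hR : R ≤ R') {m : Fin 3 → 𝓞 K}
    {α β : InfinitePlace K → 𝓞 K} (h : BaseOK N R m α β) : BaseOK N R' m α β :=
  fun w => ⟨(h w).1.trans hR, (h w).2.trans hR⟩

/-- a common bound for finitely many multipliers -/
lemma exists_mu {J : Type} [Fintype J] (f : J → Fin 3 → 𝓞 K) :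
    ∃ μ : ℕ, ∀ j X (w : InfinitePlace K), w (f j X : K) ≤ 2 ^ μ := by
  obtain ⟨μ, hμ⟩ := exists_nat_ge (∑ j, ∑ X, ∑ w : InfinitePlace K, w (f j X : K))
  refine ⟨μ, fun j X w => ?_⟩
  have h1 : w (f j X : K) ≤ ∑ j, ∑ X, ∑ w : InfinitePlace K, w (f j X : K) := by
    refine le_trans ?_ (Finset.single_le_sum (f := fun j => ∑ X, ∑ w : InfinitePlace K,
      w (f j X : K)) (fun j _ => Finset.sum_nonneg fun X _ => Finset.sum_nonneg fun w _ =>
        apply_nonneg w _) (Finset.mem_univ j))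
    refine le_trans ?_ (Finset.single_le_sum (f := fun X => ∑ w : InfinitePlace K,
      w (f j X : K)) (fun X _ => Finset.sum_nonneg fun w _ => apply_nonneg w _)
        (Finset.mem_univ X))
    exact Finset.single_le_sum (f := fun w : InfinitePlace K => w (f j X : K))
      (fun w _ => apply_nonneg w _) (Finset.mem_univ w)
  refine (h1.trans hμ).trans ?_
  have : μ < 2 ^ μ := Nat.lt_two_pow_self
  exact_mod_cast this.le

lemma Lg_continuousOn {𝒰 : Set (mixedSpace K)}
    (h0 : ∀ t ∈ 𝒰, ∀ w : InfinitePlace K, normAtPlace w t ≠ 0 ∧ normAtPlace w (1 - t) ≠ 0) :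
    ContinuousOn (Lg (K := K)) 𝒰 := by
  rw [continuousOn_pi]
  intro p
  cases p with
  | inl w =>
    refine ContinuousOn.log ?_ fun t ht => (h0 t ht w).1
    exact (mixedEmbedding.continuous_normAtPlace w).continuousOn
  | inr w =>
    refine ContinuousOn.log ?_ fun t ht => (h0 t ht w).2
    exact ((mixedEmbedding.continuous_normAtPlace w).comp
      (continuous_const.sub continuous_id)).continuousOn

end KeyNN

end Pool.Agent.H366.NK
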