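import Pool.Agent.H366.NK.Flat
import Pool.Agent.H366.NK.KeyE
import Pool.Agent.H366.ZC.CtrV

/-! # [KEYN] the key theorem for number fields -/

set_option autoImplicit false

namespace Pool.Agent.H366.NK

open NumberField
open NumberField.mixedEmbedding (mixedSpace normAtPlace)
open H39Gon (UV cl)
open Pool.Agent.H366.GF (Ex)
open Pool.Agent.H366.ZC (CTRv leadW)
open Pool.Agent.H366.ZC.KeyZN (qq qq_pos prt prt_card pw_curry Ex_curry)

variable {K : Type} [Field K] [NumberField K]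

open KeyNN in
/-- [KEYN] -/
theorem KEYN (I : Type) [Fintype I] (n : ℕ) (deg : I → ℕ) (hdeg : ∀ i, deg i ≤ n)
    (𝒰 : Set (mixedSpace K)) (h𝒰 : IsOpen 𝒰)
    (h0 : ∀ t ∈ 𝒰, ∀ w : InfinitePlace K, normAtPlace w t ≠ 0 ∧ normAtPlace w (1 - t) ≠ 0)
    (φ : I → mixedSpace K → ℝ) (hφc : ∀ i, ContinuousOn (φ i) 𝒰)
    (hind : ∀ h : I → MvPolynomial (InfinitePlace K ⊕ InfinitePlace K) ℝ,
      (∀ t ∈ 𝒰, ∑ i, φ i t * MvPolynomial.eval (Lg t) (h i) = 0) → h = 0)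
    (Q : ∀ i, MultilinearMap ℤ (fun _ : Fin (deg i) => (UV K × UV K) × ℤ) ℝ)
    (hQ : ∀ x : K, mixedEmbedding K x ∈ 𝒰 →
      ∑ i, φ i (mixedEmbedding K x) * Q i (fun _ => ((cl x, cl (1 - x)), 1)) = 0)
    (ι : Fin 3 → Type) [∀ X, Fintype (ι X)] (F : (X : Fin 3) → ι X → 𝓞 K) (hF : Adm F)
    (a : (X : Fin 3) → ι X → ℤ) (i : I) :
    Q i (fun _ => ((SF F a 1 - SF F a 0, SF F a 2 - SF F a 0), 0)) = 0 := by
  classical
  obtain ⟨c₁, hc⟩ := exists_cst K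
  obtain ⟨U, io, ka, pi', h1, h2, h3⟩ := lin_alg (Σ X, ι X) (InfinitePlace K ⊕ InfinitePlace K)
    (ell F) (ell_surjective hF)
  -- the open set
  obtain ⟨Os, hOsdef⟩ : ∃ Os : Set (Fin U → ℝ), Os = {u | ∀ g, 0 < ∑ j, io g j * u j} :=
    ⟨_, rfl⟩
  have hOs : IsOpen Os := by
    have h4 : Os = ⋂ g, {u | 0 < ∑ j, io g j * u j} := by
      rw [hOsdef]
      ext u
      simp
    rw [h4]
    refine isOpen_iInter_of_finite fun g => ?_
    exact isOpen_lt continuous_const (by fun_prop)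
  have hOs' : Os.Nonempty := by
    obtain ⟨e, he, he0⟩ := exists_pos hF
    refine ⟨fun j => ∑ g', pi' j g' * e g', ?_⟩
    rw [hOsdef]
    intro g
    have h4 := h1 e g
    rw [he0] at h4
    simp only [Pi.zero_apply, mul_zero, Finset.sum_const_zero, add_zero] at h4
    rw [← h4]
    exact he g
  obtain ⟨N, ud, td, hud, hy, hst⟩ := unisolvent I (Fin U) (InfinitePlace K ⊕ InfinitePlace K)
    (mixedSpace K) deg φ Lg 𝒰 hφc (Lg_continuousOn h0) hind Os hOs hOs'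
  obtain ⟨k, hk⟩ : ∃ k : ℕ, k = 2 * n := ⟨_, rfl⟩
  obtain ⟨s, hs⟩ : ∃ s : ℕ, s = 4 * k + 4 := ⟨_, rfl⟩
  obtain ⟨ε, hε, hctr⟩ := CTRv (Fin 3 × Fin s) (Fin N) n (1 / 2) (by norm_num)
  obtain ⟨δ, hδ, hstab⟩ := hst ε hε
  -- balls in `𝒰`
  obtain ⟨δ', hδ', hδ'δ, hball⟩ : ∃ δ' : ℝ, 0 < δ' ∧ δ' ≤ δ ∧ ∀ c t, dist t (td c) ≤ δ' →
      t ∈ 𝒰 := by
    have h4 : ∀ c, ∃ r : ℝ, 0 < r ∧ ∀ t, dist t (td c) ≤ r → t ∈ 𝒰 := by
      intro c
      obtain ⟨r, hr, hr2⟩ := Metric.isOpen_iff.1 h𝒰 (td c) (hud c).2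
      exact ⟨r / 2, by positivity, fun t ht => hr2 (by rw [Metric.mem_ball]; linarith)⟩
    choose r hr hr2 using h4
    rcases isEmpty_or_nonempty (Fin N) with hN | hN
    · exact ⟨δ, hδ, le_rfl, fun c => (hN.false c).elim⟩
    · obtain ⟨c₀, hc₀⟩ := Finite.exists_min r
      exact ⟨min δ (r c₀), lt_min hδ (hr c₀), min_le_left _ _, fun c t ht =>
        hr2 c t ((ht.trans (min_le_right _ _)).trans (hc₀ c))⟩
  have hτ := fun c => exists_tau (td c) (h0 _ (hud c).2)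
  choose τ hτ1 hτ2 hτ3 using hτ
  obtain ⟨C, hC, hCell⟩ := ell_le F
  obtain ⟨R₀, hR, hTau⟩ := exists_R τ hτ3 C
  obtain ⟨ρ₁, U₂, hρ₁, hclose⟩ := close_sol hc s R₀ δ' hδ'
  obtain ⟨a₀, ha₀, hα⟩ := exists_ind (fun (i : ι 0) (w : InfinitePlace K) =>
    Real.log (w (F 0 i : K))) (hF.span 0)
  obtain ⟨b₀, hb₀, hβ⟩ := exists_ind (fun (i : ι 1) (w : InfinitePlace K) =>
    Real.log (w (F 1 i : K))) (hF.span 1)
  have hFne : ∀ X i, F X i ≠ 0 := fun X i => RingOfIntegers.coe_ne_zero_iff.1 (F_ne hF X i)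
  obtain ⟨ρ₀, hρ₀, hflat⟩ := FLAT hc k (fun w => F 0 (a₀ w)) (fun w => F 1 (b₀ w))
    ⟨fun w => hFne _ _, hα⟩ ⟨fun w => hFne _ _, hβ⟩ R₀ ε hε
  obtain ⟨ρ, hρ⟩ : ∃ ρ : ℝ, ρ = min ρ₀ ρ₁ := ⟨_, rfl⟩
  have hρpos : 0 < ρ := by rw [hρ]; exact lt_min hρ₀ hρ₁
  obtain ⟨Θ, hΘ, N', U₁, hU⟩ := hflat ρ hρpos (by rw [hρ]; exact min_le_left _ _)
  -- the size of the cells
  obtain ⟨u, hu0, hu1, hu2, hu3⟩ : ∃ u : ℝ, 0 < u ∧ U₁ ≤ u * Real.exp (-Θ) ∧
      U₂ ≤ u * Real.exp (-Θ) ∧ (2 : ℝ) ^ (c₁ + 2) ≤ u * Real.exp (-Θ) := by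
    refine ⟨max (max U₁ U₂) (2 ^ (c₁ + 2)) * Real.exp Θ, ?_, ?_, ?_, ?_⟩
    · exact mul_pos (lt_max_of_lt_right (by positivity)) (Real.exp_pos _)
    all_goals rw [mul_assoc, ← Real.exp_add, add_neg_cancel, Real.exp_zero, mul_one]
    · exact (le_max_left _ _).trans (le_max_left _ _)
    · exact (le_max_right _ _).trans (le_max_left _ _)
    · exact le_max_right _ _
  obtain ⟨γ, hγ⟩ : ∃ γ : ℕ, u * Real.exp Θ ≤ 2 ^ γ := by
    obtain ⟨γ, hγ⟩ := exists_nat_ge (u * Real.exp Θ)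
    refine ⟨γ, hγ.trans ?_⟩
    exact_mod_cast (Nat.lt_two_pow_self (n := γ)).le
  obtain ⟨H₀, A, κ₀, hA, hne, hflat2⟩ := hU u hu0 hu1 γ hγ
  obtain ⟨κ₁, hκ₁, hkap⟩ := exists_kappa hF
  obtain ⟨κ, hκ⟩ : ∃ κ : ℕ, κ = max κ₀ κ₁ := ⟨_, rfl⟩
  obtain ⟨e₀, he₀⟩ : ∃ e₀ : ℕ, qq κ * 2 ^ (γ + 1) ≤ 2 ^ e₀ := ⟨_, (Nat.lt_two_pow_self).le⟩
  -- the exponents
  obtain ⟨nb, hnb⟩ : ∃ nb : (Σ X, ι X) → ℕ, nb = exf (N := N') (fun _ => 0) a₀ b₀
    (fun _ => ⟨N', by omega⟩, fun _ => ⟨N', by omega⟩) := ⟨_, rfl⟩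
  have hnb2 : ∀ g, nb g ≤ 2 * N' := by
    intro g
    rw [hnb]
    have := (exf_le (N := N') (fun _ => 0) a₀ b₀ ha₀ hb₀ (fun _ => ⟨N', by omega⟩,
      fun _ => ⟨N', by omega⟩) g).2
    simpa using this
  obtain ⟨E, e, hE, he1, hexp, hnear⟩ := exists_exp io pi' h3 ud (fun c g => by
    have := (hud c).1
    rw [hOsdef] at this
    exact this g) N' nb hnb2 δ hδ
  obtain ⟨μ, hμ⟩ := exists_mu (fun x : Fin N × ((InfinitePlace K → Fin (2 * N' + 1)) ×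
    (InfinitePlace K → Fin (2 * N' + 1))) => PF F (exf (e x.1) a₀ b₀ x.2))
  have hctx : ∀ c f, Ctx0 κ μ (qq κ) e₀ γ (MM (N := N') (PF F (e c)) (fun w => F 0 (a₀ w))
      (fun w => F 1 (b₀ w)) f) := by
    intro c f
    rw [MM_eq]
    exact hkap κ (by rw [hκ]; exact le_max_right _ _) μ e₀ γ _
      (fun g => (he1 c g).trans (exf_le (e c) a₀ b₀ ha₀ hb₀ f g).1)
      (fun X w => hμ (c, f) X w) he₀
  have hbase : ∀ c, BaseOK N' R₀ (PF F (e c)) (fun w => F 0 (a₀ w)) (fun w => F 1 (b₀ w)) := by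
    intro c
    refine KeyNN.BaseOK.mono hR (baseOK_of hF (e c) a₀ b₀ ha₀ hb₀
      (fun g => E * ∑ j, io g j * ud c j) ?_ C hC hCell ?_)
    · have h4 : (fun g : Σ X, ι X => E * ∑ j, io g j * ud c j) =
        E • (fun g : Σ X, ι X => ∑ j, io g j * ud c j) := rfl
      rw [h4, map_smul, h2, smul_zero]
    · intro g
      have h4 := hexp c g
      have h5 : exf (N := N') (e c) a₀ b₀ (fun _ => ⟨N', by omega⟩, fun _ => ⟨N', by omega⟩) g =
          e c g + nb g := by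
        rw [hnb]
        unfold exf
        ring
      rw [h5]
      exact h4
  have hfl := fun c => hflat2 κ μ (qq κ) e₀ (PF F (e c)) (by rw [hκ]; exact le_max_left _ _)
    (hctx c) (hbase c)
  choose d₀ hd₀ using hfl
  obtain ⟨d, hd⟩ : ∃ d : ℕ, d = ∑ c, d₀ c := ⟨_, rfl⟩
  have hdc : ∀ c, d₀ c ≤ d := by
    intro c
    rw [hd]
    exact Finset.single_le_sum (f := d₀) (fun _ _ => Nat.zero_le _) (Finset.mem_univ c)
  have hqp := qq_pos κ
  have hneS : Nonempty (Slot K u Θ H₀ (qq κ) d) := by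
    obtain ⟨x⟩ := uq_nonempty (K := K) (qq κ) hqp
    obtain ⟨y⟩ := hne
    have : Nonempty (Fin (2 ^ d)) := ⟨⟨0, by positivity⟩⟩
    obtain ⟨w⟩ : Nonempty (JJ K → Fin (2 ^ d)) := inferInstance
    exact ⟨(x, y, w)⟩
  have : Nonempty (Fin 3 × Fin s) := ⟨(0, ⟨0, by omega⟩)⟩
  have hzne : ∀ z : Slot K u Θ H₀ (qq κ) d, zv z ≠ 0 := fun z =>
    slot_ne_zero hc hu0 hqp hu3 z
  -- the expansions
  have hexpd := fun i : I => expand (Q i) (Σ X, ι X)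
    (Fin U ⊕ (InfinitePlace K ⊕ InfinitePlace K)) (Fin 3 × Fin s) (Slot K u Θ H₀ (qq κ) d)
    (wg F) (AA io ka E) (((0 : UV K), (0 : UV K)), (1 : ℤ)) (fun x => bt x) (lam ka) n (hdeg i)
  choose 𝒢 h𝒢1 h𝒢2 using hexpd
  obtain ⟨y, hyd⟩ : ∃ y : (Fin 3 × Fin s → Slot K u Θ H₀ (qq κ) d) →
      (Σ i : I, (Fin (deg i) → Option (Fin U ⊕ (InfinitePlace K ⊕ InfinitePlace K)))) → ℝ,
      ∀ z ig, y z ig = 𝒢 ig.1 z ig.2 := ⟨_, fun _ _ => rfl⟩
  obtain ⟨G, hG⟩ : ∃ G : Fin N → (Fin 3 × Fin s → Slot K u Θ H₀ (qq κ) d) → ℝ, ∀ c z,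
    G c z = ∑ ig, Psi deg φ (Sum.elim (ud c) (Lg (td c))) (td c) ig * y z ig :=
    ⟨_, fun _ _ => rfl⟩
  obtain ⟨w, hw⟩ : ∃ w : Fin N → ((InfinitePlace K → Fin (2 * N' + 1)) ×
      (InfinitePlace K → Fin (2 * N' + 1))) → (Fin 3 × Fin s → Slot K u Θ H₀ (qq κ) d) → ℝ,
    ∀ c f z, w c f z = A * Wf (τ c) ρ (MM (N := N') (PF F (e c)) (fun w => F 0 (a₀ w))
      (fun w => F 1 (b₀ w)) f) (fun X i => z (X, i)) := ⟨_, fun _ _ _ => rfl⟩
  -- the key relation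
  have hkey : ∀ c f z, ∃ ϑ : Fin N → ℝ, (∀ c', |ϑ c'| ≤ ε) ∧
      (w c f z ≠ 0 → G c z + ∑ c', ϑ c' * G c' z = 0) := by
    intro c f z
    by_cases hwz : w c f z = 0
    · exact ⟨fun _ => 0, fun _ => by rw [abs_zero]; exact hε.le, fun h => absurd hwz h⟩
    · have hWf : Wf (τ c) ρ (MM (N := N') (PF F (e c)) (fun w => F 0 (a₀ w))
          (fun w => F 1 (b₀ w)) f) (fun X i => z (X, i)) ≠ 0 := by
        intro h
        rw [hw, h, mul_zero] at hwz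
        exact hwz rfl
      rw [MM_eq] at hWf
      obtain ⟨e', he'⟩ : ∃ e' : (Σ X, ι X) → ℕ, e' = exf (e c) a₀ b₀ f := ⟨_, rfl⟩
      rw [← he'] at hWf
      unfold Wf at hWf
      have hTC : TC (τ c) ρ (PF F e') (sg (fun X i => z (X, i))) := by
        by_contra hcon
        rw [if_neg hcon] at hWf
        exact hWf rfl
      rw [if_pos hTC] at hWf
      have hsol : PF F e' 0 * ∏ i, zv (z (0, i)) = PF F e' 1 * ∏ i, zv (z (1, i)) +
          PF F e' 2 * ∏ i, zv (z (2, i)) := by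
        by_contra hcon
        apply hWf
        unfold Wt
        rw [if_neg, zero_div]
        exact hcon
      have hcl := hclose u Θ hu0 hu2 H₀ (qq κ) d hqp (τ c) (td c) (hTau c) (hτ1 c) (hτ2 c) ρ hρpos
        (by rw [hρ]; exact min_le_right _ _) (PF F e') (fun X => PF_ne_zero hF e' X)
        (fun X i => z (X, i)) hTC hsol
      have hdist : dist (mixedEmbedding K (xx F e' z)) (td c) ≤ δ' :=
        dist_le_of _ _ _ hcl
      have ht𝒰 := hball c _ hdist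
      obtain ⟨ϑ, hϑ1, hϑ2⟩ := hstab c (fun j => (∑ g', pi' j g' * (e' g' : ℝ)) / E)
        (mixedEmbedding K (xx F e' z)) ht𝒰
        (fun j => hnear c e' (fun g => by rw [he']; exact exf_le (e c) a₀ b₀ ha₀ hb₀ f g) j)
        (hdist.trans hδ'δ)
      refine ⟨ϑ, hϑ1, fun _ => ?_⟩
      simp only [hG]
      rw [← hϑ2 (y z), ← hQ (xx F e' z) ht𝒰, Fintype.sum_sigma]
      refine Finset.sum_congr rfl fun i _ => ?_
      have h5 := h𝒢1 i (Sum.elim (fun j => (∑ g', pi' j g' * (e' g' : ℝ)) / E)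
        (Lg (mixedEmbedding K (xx F e' z)))) (fun g => ((e' g : ℕ) : ℤ)) z
        (fun g => affine1 hF h1 hE.ne' e' z (fun x => hzne _) hsol g)
      rw [← eval_point hF e' z (fun x => hzne _) hsol] at h5
      rw [h5, Finset.mul_sum]
      refine Finset.sum_congr rfl fun gg _ => ?_
      rw [hyd]
      unfold Psi
      ring
  choose ϑ hϑ1 hϑ2 using hkey
  -- the contraction theorem
  have hmain := hctr (Slot K u Θ H₀ (qq κ) d) ((InfinitePlace K → Fin (2 * N' + 1)) ×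
    (InfinitePlace K → Fin (2 * N' + 1))) w G ϑ ?_ hϑ1 ?_ ?_ (fun c l z => hϑ2 c l z)
  · -- a good point
    obtain ⟨z, hz⟩ : ∃ z, ∀ c, G c z = 0 := by
      obtain ⟨z, hz⟩ := good_point inferInstance _ hmain
      push Not at hz
      exact ⟨z, hz⟩
    have hall : ∀ a' : (Σ X, ι X) → ℤ, Q i (fun _ => (((0 : UV K), (0 : UV K)), (1 : ℤ)) +
        ∑ x, bt x (z x) + ∑ g, a' g • wg F g) = 0 := by
      intro a'
      obtain ⟨v, hv⟩ := affine2 h1 hE.ne' a' z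
      rw [h𝒢1 i v a' z hv]
      have h7 := hy (y z) (fun c => by rw [← hG]; exact hz c) i v
      refine Eq.trans (Finset.sum_congr rfl fun gg _ => ?_) h7
      rw [hyd]
    have hlead := leadW (Q i) (hdeg i) (∑ g : Σ X, ι X, a g.1 g.2 • wg F g)
      ((((0 : UV K), (0 : UV K)), (1 : ℤ)) + ∑ x, bt x (z x)) (fun j => (j : ℤ))
      Nat.cast_injective (fun j _ => by
        have h8 := hall (fun g => (j : ℤ) * a g.1 g.2)
        have h9 : (fun _ : Fin (deg i) => (((0 : UV K), (0 : UV K)), (1 : ℤ)) +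
            ∑ x, bt x (z x) + ∑ g : Σ X, ι X, ((j : ℤ) * a g.1 g.2) • wg F g) =
            fun _ => ((j : ℤ) • (∑ g : Σ X, ι X, a g.1 g.2 • wg F g) +
              ((((0 : UV K), (0 : UV K)), (1 : ℤ)) + ∑ x, bt x (z x))) := by
          funext _
          rw [zs_sum (j : ℤ) (fun g : Σ X, ι X => a g.1 g.2) (wg F), add_comm]
        rw [← h9]
        exact h8)
    rw [sum_wg F (fun g => a g.1 g.2)] at hlead
    exact hlead
  · -- nonneg
    intro c f z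
    rw [hw]
    refine mul_nonneg hA.le ?_
    unfold Wf
    split_ifs
    · refine div_nonneg ?_ ?_
      · unfold Wt
        split_ifs
        · unfold NN nm; positivity
        · exact le_rfl
      · unfold rhoq Ex
        refine div_nonneg (Finset.sum_nonneg fun p _ => ?_) (by positivity)
        split_ifs <;> norm_num
    · exact le_rfl
  · -- flatness
    intro c V hV
    have h4 := hd₀ c d (hdc c) (τ c) (hTau c)
    rw [← hs] at h4
    have h5 := h4 (prt V) (fun X => by rw [hk]; exact (prt_card V X).trans hV)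
    rw [← Ex_curry] at h5
    have hcard : (0 : ℝ) < (Fintype.card (Fin 3 × Fin s → Slot K u Θ H₀ (qq κ) d) : ℝ) := by
      exact_mod_cast Fintype.card_pos
    rw [Ex, div_le_iff₀ hcard] at h5
    refine le_trans (le_of_eq ?_) h5
    refine Finset.sum_congr rfl fun z _ => ?_
    rw [← Ex_curry, Ex]
    congr 4
    funext z'
    rw [← pw_curry]
    refine Finset.sum_congr rfl fun l _ => ?_
    rw [hw]
  · -- degree
    intro c
    have h4 : ∀ ig : (Σ i : I, (Fin (deg i) → Option (Fin U ⊕ (InfinitePlace K ⊕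
        InfinitePlace K)))), ∃ Fn : (Fin n → Fin 3 × Fin s) →
          (Fin n → Slot K u Θ H₀ (qq κ) d) → ℝ,
          ∀ z : Fin 3 × Fin s → Slot K u Θ H₀ (qq κ) d, y z ig = ∑ j, Fn j (z ∘ j) := by
      intro ig
      obtain ⟨Fn, hFn⟩ := h𝒢2 ig.1 ig.2
      exact ⟨Fn, fun z => by rw [hyd]; exact hFn z⟩
    choose Fn hFn using h4
    refine ⟨fun j o => ∑ ig, Psi deg φ (Sum.elim (ud c) (Lg (td c))) (td c) ig * Fn ig j o, ?_⟩
    intro z
    rw [hG]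
    simp only [hFn, Finset.mul_sum]
    rw [Finset.sum_comm]

end Pool.Agent.H366.NK
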