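import Pool.Agent.H366.NK.Pack
import Pool.Agent.H366.ZC.MS

/-! # [MS] a bilinear exponential sum -/

set_option autoImplicit false

namespace Pool.Agent.H366.NK

open NumberField
open Pool.Agent.H366.GF (Ex ExC)
open Pool.Agent.H366.ZC (e)

variable {K : Type} [Field K] [NumberField K]

namespace MSN

lemma el_sub (x y : JJ K → ℤ) : el (x - y) = el x - el y := by
  unfold el
  rw [← Finset.sum_sub_distrib]
  refine Finset.sum_congr rfl fun j _ => ?_
  rw [Pi.sub_apply]
  push_cast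
  ring

lemma el_injective : Function.Injective (el : (JJ K → ℤ) → 𝓞 K) := by
  intro x y h
  funext j
  rw [← repr_el x j, ← repr_el y j, h]

lemma el_zero : el (0 : JJ K → ℤ) = 0 := by
  unfold el
  simp

/-- the sum in one variable -/
lemma sum_Icc_le {Y : ℕ} (hY : 0 < Y) (t : ℝ) :
    ‖∑ y ∈ Finset.Icc (-(Y : ℤ)) (Y : ℤ), e (t * (y : ℝ))‖ ≤
      ZC.MSN.G Y (2 * Y + 1) ⌊(Y : ℝ) * Int.fract t⌋₊ := by
  have h1 : ∑ y ∈ Finset.Icc (-(Y : ℤ)) (Y : ℤ), e (t * (y : ℝ)) =
      e (-(t * Y)) * ∑ i ∈ Finset.range (2 * Y + 1), e (t * (i : ℝ)) := by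
    rw [Finset.mul_sum]
    symm
    refine Finset.sum_bij' (fun i _ => (i : ℤ) - Y) (fun y _ => (y + Y).toNat) ?_ ?_ ?_ ?_ ?_
    · intro i hi
      rw [Finset.mem_range] at hi
      rw [Finset.mem_Icc]
      omega
    · intro y hy
      rw [Finset.mem_Icc] at hy
      rw [Finset.mem_range]
      omega
    · intro i hi
      simp
    · intro y hy
      rw [Finset.mem_Icc] at hy
      rw [Int.toNat_of_nonneg (by omega)]
      ring
    · intro i hi
      rw [← ZC.e_add]
      congr 1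
      push_cast
      ring
  rw [h1, norm_mul, ZC.norm_e, one_mul]
  have hY0 : (0:ℝ) < Y := by exact_mod_cast hY
  have hf0 := Int.fract_nonneg t
  have hf1 := Int.fract_lt_one t
  have hp : 0 ≤ (Y : ℝ) * Int.fract t := mul_nonneg hY0.le hf0
  set l : ℕ := ⌊(Y : ℝ) * Int.fract t⌋₊ with hl
  have hl1 : (l : ℝ) ≤ (Y : ℝ) * Int.fract t := Nat.floor_le hp
  have hl2 : (Y : ℝ) * Int.fract t < l + 1 := Nat.lt_floor_add_one _
  have hlY : l < Y := by
    have : (l : ℝ) < Y := by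
      refine lt_of_le_of_lt hl1 ?_
      nlinarith
    exact_mod_cast this
  refine ZC.MSN.le_G (η := (Y : ℝ) * Int.fract t - l) (n := ⌊t⌋) hY hlY (by linarith)
    (by linarith) ?_ (2 * Y + 1)
  have : ((l : ℝ) + ((Y : ℝ) * Int.fract t - l)) / Y = Int.fract t := by
    field_simp
    ring
  rw [this]
  exact (Int.fract_add_floor t).symm

lemma floor_lt {Y : ℕ} (hY : 0 < Y) (t : ℝ) : ⌊(Y : ℝ) * Int.fract t⌋₊ < Y := by
  have hY0 : (0:ℝ) < Y := by exact_mod_cast hY
  have hf0 := Int.fract_nonneg t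
  have hf1 := Int.fract_lt_one t
  have hp : 0 ≤ (Y : ℝ) * Int.fract t := mul_nonneg hY0.le hf0
  have : ((⌊(Y : ℝ) * Int.fract t⌋₊ : ℕ) : ℝ) < Y := by
    refine lt_of_le_of_lt (Nat.floor_le hp) ?_
    nlinarith
  exact_mod_cast this

/-- two numbers in the same cell -/
lemma close {Y : ℕ} (hY : 0 < Y) {t t' : ℝ}
    (h : ⌊(Y : ℝ) * Int.fract t⌋₊ = ⌊(Y : ℝ) * Int.fract t'⌋₊) :
    ∃ n : ℤ, |t - t' - n| ≤ 1 / (Y : ℝ) := by
  have hY0 : (0:ℝ) < Y := by exact_mod_cast hY
  refine ⟨⌊t⌋ - ⌊t'⌋, ?_⟩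
  have e1 : t - t' - ((⌊t⌋ - ⌊t'⌋ : ℤ) : ℝ) = Int.fract t - Int.fract t' := by
    rw [← Int.self_sub_floor t, ← Int.self_sub_floor t']
    push_cast
    ring
  rw [e1]
  have a1 := Nat.floor_le (mul_nonneg hY0.le (Int.fract_nonneg t))
  have a2 := Nat.floor_le (mul_nonneg hY0.le (Int.fract_nonneg t'))
  have b1 := Nat.lt_floor_add_one ((Y : ℝ) * Int.fract t)
  have b2 := Nat.lt_floor_add_one ((Y : ℝ) * Int.fract t')
  rw [h] at a1 b1
  have : |(Y : ℝ) * (Int.fract t - Int.fract t')| ≤ 1 := by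
    rw [abs_le]
    constructor <;> nlinarith
  rw [abs_mul, abs_of_pos hY0] at this
  rw [le_div_iff₀ hY0, mul_comm]
  exact this

/-- the inner sum is a product -/
lemma inner_eq (α : K) (x : JJ K → ℤ) (Y : ℕ) :
    ∑ y ∈ box K Y, psi (α * (el x : K) * (el y : K)) =
      ∏ j : JJ K, ∑ y ∈ Finset.Icc (-(Y : ℤ)) (Y : ℤ),
        e (tr (α * (el x : K) * (om K j : K)) * (y : ℝ)) := by
  rw [Finset.prod_univ_sum]
  unfold box
  refine Finset.sum_congr rfl fun y _ => ?_
  unfold psi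
  rw [tr_mul_el]
  have : ∀ (s : Finset (JJ K)) (f : JJ K → ℝ), e (∑ j ∈ s, f j) = ∏ j ∈ s, e (f j) := by
    intro s f
    classical
    induction s using Finset.induction_on with
    | empty => simp [ZC.e_zero]
    | insert a s ha ih =>
      rw [Finset.sum_insert ha, Finset.prod_insert ha, ZC.e_add, ih]
  exact this _ _

lemma w_add (w : InfinitePlace K) (a b : K) : w (a + b) ≤ w a + w b := w.1.add_le a b

lemma w_sub (w : InfinitePlace K) (a b : K) : w (a - b) ≤ w a + w b := by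
  have h := w_add w a (-b)
  have h2 : w (-b) = w b := by
    show w.1 (-b) = w.1 b
    exact w.1.map_neg b
  rw [h2, ← sub_eq_add_neg] at h
  exact h

lemma w_nonneg (w : InfinitePlace K) (a : K) : 0 ≤ w a := apply_nonneg w a

/-- an element of the dual lattice with given coordinates -/
lemma exists_DD (k : JJ K → ℤ) : ∃ b ∈ DD K, ∀ j, tr (b * (om K j : K)) = (k j : ℝ) := by
  classical
  have key : ∀ j, tr ((∑ i, (k i : ℚ) • dual K i) * (om K j : K)) = (k j : ℝ) := by
    intro j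
    unfold tr
    have h1 : Algebra.trace ℚ K ((∑ i, (k i : ℚ) • dual K i) * (om K j : K)) = (k j : ℚ) := by
      rw [Finset.sum_mul, map_sum]
      have h2 : ∀ i, Algebra.trace ℚ K (((k i : ℚ) • dual K i) * (om K j : K)) =
          if j = i then (k i : ℚ) else 0 := by
        intro i
        rw [smul_mul_assoc, map_smul]
        have h3 := LinearMap.BilinForm.apply_dualBasis_left (B := Algebra.traceForm ℚ K)
          (traceForm_nondegenerate ℚ K) (integralBasis K) i j
        rw [Algebra.traceForm_apply, integralBasis_apply] at h3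
        have h4 : Algebra.trace ℚ K (dual K i * (om K j : K)) = if j = i then 1 else 0 := h3
        rw [h4, smul_eq_mul]
        split_ifs
        · ring
        · ring
      rw [Finset.sum_congr rfl fun i _ => h2 i]
      simp
    rw [h1]
    norm_cast
  refine ⟨∑ i, (k i : ℚ) • dual K i, ?_, key⟩
  rw [mem_DD_iff]
  exact fun j => ⟨k j, key j⟩

open Classical in
/-- the coefficients for which `α x` is close to `DD K` -/
noncomputable def near (α : K) (X Y : ℕ) : Finset (JJ K → ℤ) :=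
  (box K (2 * X)).filter fun x =>
    ∀ j, ∃ n : ℤ, |tr (α * (el x : K) * (om K j : K)) - n| ≤ 1 / (Y : ℝ)

lemma near_spec {c : ℕ} (hc : Cst K c) {α : K} {X Y : ℕ} {x : JJ K → ℤ} (hx : x ∈ near α X Y) :
    (∀ w : InfinitePlace K, w (el x : K) ≤ 2 ^ c * (2 * X)) ∧
    ∃ n ∈ DD K, ∀ w : InfinitePlace K, w (α * (el x : K) - n) ≤ 2 ^ c / Y := by
  classical
  unfold near at hx
  obtain ⟨hx1, hx2⟩ := Finset.mem_filter.1 hx
  unfold box at hx1
  rw [Fintype.mem_piFinset] at hx1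
  constructor
  · refine hc.place_le (el x) (2 * X) fun j => ?_
    rw [repr_el]
    have := hx1 j
    rw [Finset.mem_Icc] at this
    rw [abs_le]
    constructor
    · have h1 := this.1
      have : (-((2 * X : ℕ) : ℤ) : ℝ) ≤ (x j : ℝ) := by exact_mod_cast h1
      push_cast at this
      linarith
    · have h1 := this.2
      have : (x j : ℝ) ≤ (((2 * X : ℕ) : ℤ) : ℝ) := by exact_mod_cast h1
      push_cast at this
      linarith
  · choose k hk using hx2
    obtain ⟨n, hn, hnk⟩ := exists_DD k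
    refine ⟨n, hn, fun w => ?_⟩
    have := hc.place_le_tr (α * (el x : K) - n) (1 / (Y : ℝ)) (fun j => by
      rw [sub_mul, tr_sub, hnk]
      exact hk j) w
    rw [mul_one_div] at this
    exact this

/-- [KEY] -/
lemma prop {c : ℕ} (hc : Cst K c) {α : K} {X Y : ℕ} (hX : 0 < X) (hY : 2 ^ (3 * c + 3) * X ≤ Y)
    {x x' : 𝓞 K} {n n' : K} (hx : ∀ w : InfinitePlace K, w (x : K) ≤ 2 ^ c * (2 * X))
    (hx' : ∀ w : InfinitePlace K, w (x' : K) ≤ 2 ^ c * (2 * X)) (hn : n ∈ DD K) (hn' : n' ∈ DD K)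
    (h : ∀ w : InfinitePlace K, w (α * (x : K) - n) ≤ 2 ^ c / Y)
    (h' : ∀ w : InfinitePlace K, w (α * (x' : K) - n') ≤ 2 ^ c / Y) :
    n * (x' : K) = n' * (x : K) := by
  have hX0 : (0:ℝ) < X := by exact_mod_cast hX
  have hY1 : (2:ℝ) ^ (3 * c + 3) * X ≤ Y := by exact_mod_cast hY
  have hY0 : (0:ℝ) < Y := lt_of_lt_of_le (by positivity) hY1
  have hu : n * (x' : K) - n' * (x : K) ∈ DD K := by
    refine Submodule.sub_mem _ ?_ ?_
    · rw [mul_comm]; exact mul_mem_DD hn x'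
    · rw [mul_comm]; exact mul_mem_DD hn' x
  have hz : n * (x' : K) - n' * (x : K) = 0 := by
    refine DD_eq_zero hc hu fun w => ?_
    have e1 : n * (x' : K) - n' * (x : K) =
        (α * (x' : K) - n') * (x : K) - (α * (x : K) - n) * (x' : K) := by ring
    have b1 : w (n * (x' : K) - n' * (x : K)) ≤
        2 ^ c / Y * (2 ^ c * (2 * X)) + 2 ^ c / Y * (2 ^ c * (2 * X)) := by
      rw [e1]
      refine (w_sub w _ _).trans ?_
      rw [map_mul, map_mul]
      have g1 := mul_le_mul (h' w) (hx w) (w_nonneg w _) (by positivity)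
      have g2 := mul_le_mul (h w) (hx' w) (w_nonneg w _) (by positivity)
      linarith
    have e2 : (2:ℝ) ^ c * (2 ^ c / Y * (2 ^ c * (2 * X)) + 2 ^ c / Y * (2 ^ c * (2 * X))) =
        (2 ^ (3 * c + 2) * X) / Y := by
      have : (2:ℝ) ^ (3 * c + 2) = 2 ^ c * 2 ^ c * 2 ^ c * 4 := by
        rw [show 3 * c + 2 = c + c + c + 2 by ring, pow_add, pow_add, pow_add]
        norm_num
      rw [this]
      field_simp
      ring
    have b2 := mul_le_mul_of_nonneg_left b1 (by positivity : (0:ℝ) ≤ 2 ^ c)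
    rw [e2] at b2
    refine lt_of_le_of_lt b2 ?_
    rw [div_lt_one hY0]
    refine lt_of_lt_of_le ?_ hY1
    have : (2:ℝ) ^ (3 * c + 3) = 2 ^ (3 * c + 2) * 2 := by rw [← pow_succ]
    rw [this]
    have hp : (0:ℝ) < 2 ^ (3 * c + 2) * X := by positivity
    linarith
  exact sub_eq_zero.1 hz

/-- the number of coefficients for which `α x` is close to `DD K` -/
lemma card_near {c : ℕ} (hc : Cst K c) (c₂ : ℕ) {X Y ρ T : ℕ} {α : K} (hρ : 1 ≤ ρ) (hρX : ρ ≤ X)
    (hY : 2 ^ (3 * c + 3) * X ≤ Y) (hT : 0 < T) (hT2 : T ≤ 2 ^ c₂ * (X * Y))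
    (h : ¬ Low T ρ α) :
    ((near α X Y).card : ℝ) ≤ (5 * (2 ^ (c + c₂ + 3) * (X / ρ))) ^ DK K := by
  classical
  have hX : 0 < X := lt_of_lt_of_le hρ hρX
  have hX0 : (0:ℝ) < X := by exact_mod_cast hX
  have hρ0 : (0:ℝ) < ρ := by exact_mod_cast hρ
  have hT0 : (0:ℝ) < T := by exact_mod_cast hT
  have hY1 : (2:ℝ) ^ (3 * c + 3) * X ≤ Y := by exact_mod_cast hY
  have hY0 : (0:ℝ) < Y := lt_of_lt_of_le (by positivity) hY1
  have hXρ : (1:ℝ) ≤ X / ρ := by
    rw [le_div_iff₀ hρ0, one_mul]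
    exact_mod_cast hρX
  have hTR : (T:ℝ) ≤ 2 ^ c₂ * (X * Y) := by exact_mod_cast hT2
  -- the common quotient
  obtain ⟨β, hβ⟩ : ∃ β : K, ∀ x ∈ near α X Y, β * (el x : K) ∈ DD K ∧
      ∀ w : InfinitePlace K, w ((α - β) * (el x : K)) ≤ 2 ^ c / Y := by
    by_cases hne : ∃ x ∈ near α X Y, x ≠ 0
    · obtain ⟨x₁, hx₁, hne⟩ := hne
      have hel : (el x₁ : K) ≠ 0 := by
        intro h0
        have h1 : el x₁ = 0 := by exact_mod_cast h0
        rw [← el_zero] at h1
        exact hne (el_injective h1)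
      obtain ⟨hs1, n₁, hn₁, hd₁⟩ := near_spec hc hx₁
      refine ⟨n₁ / (el x₁ : K), fun x hx => ?_⟩
      obtain ⟨hs, n, hn, hd⟩ := near_spec hc hx
      have hkey := prop hc hX hY hs hs1 hn hn₁ hd hd₁
      have heq : n₁ / (el x₁ : K) * (el x : K) = n := by
        rw [div_mul_eq_mul_div, ← hkey]
        field_simp
      rw [heq]
      refine ⟨hn, fun w => ?_⟩
      rw [sub_mul, heq]
      exact hd w
    · push Not at hne
      refine ⟨0, fun x hx => ?_⟩
      have := hne x hx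
      subst this
      rw [el_zero]
      refine ⟨by simp, fun w => ?_⟩
      simp
      positivity
  -- the cells
  by_contra hcard
  push Not at hcard
  set N0 : ℕ := ⌈(2:ℝ) ^ (c + c₂ + 2) * (X / ρ)⌉₊ with hN0
  have hN1 : (2:ℝ) ^ (c + c₂ + 2) * (X / ρ) ≤ N0 := Nat.le_ceil _
  have hp1 : (1:ℝ) ≤ 2 ^ (c + c₂ + 2) * (X / ρ) := by
    have : (1:ℝ) ≤ 2 ^ (c + c₂ + 2) := one_le_pow₀ (by norm_num)
    nlinarith
  have hN2 : (N0:ℝ) ≤ 2 ^ (c + c₂ + 3) * (X / ρ) := by
    have h1 := Nat.ceil_lt_add_one (by positivity : (0:ℝ) ≤ 2 ^ (c + c₂ + 2) * (X / ρ))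
    have h2 : (2:ℝ) ^ (c + c₂ + 3) = 2 * 2 ^ (c + c₂ + 2) := by
      rw [show c + c₂ + 3 = (c + c₂ + 2) + 1 by ring, pow_succ]
      ring
    rw [h2]
    rw [← hN0] at h1
    linarith
  have hN3 : 1 ≤ N0 := by
    have : (1:ℝ) ≤ N0 := hp1.trans hN1
    exact_mod_cast this
  have hN00 : (0:ℝ) < N0 := by exact_mod_cast hN3
  set b : InfinitePlace K → ℝ := fun w => 2 ^ (c + 2) * X / max 1 (2 * X * Y * w (α - β)) with hb
  have hmax : ∀ w : InfinitePlace K, 1 ≤ max 1 (2 * X * Y * w (α - β)) := fun w => le_max_left _ _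
  have hb0 : ∀ w, 0 < b w := by
    intro w
    have := hmax w
    rw [hb]
    exact div_pos (by positivity) (by linarith)
  let A : Finset K := (near α X Y).image fun x => (el x : K)
  have hAcard : A.card = (near α X Y).card := by
    refine Finset.card_image_of_injective _ ?_
    intro x y hxy
    have hxy' : (el x : K) = (el y : K) := hxy
    have : el x = el y := by exact_mod_cast hxy'
    exact el_injective this
  have hsize : ∀ x ∈ near α X Y, ∀ y ∈ near α X Y, ∀ w : InfinitePlace K,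
      w ((el x : K) - (el y : K)) ≤ b w := by
    intro x hx y hy w
    rw [hb]
    simp only
    have hm := hmax w
    rw [le_div_iff₀ (by linarith)]
    have e0 : (2:ℝ) ^ (c + 2) = 2 ^ c * 4 := by rw [pow_add]; norm_num
    have s1 : w ((el x : K) - (el y : K)) ≤ 2 ^ (c + 2) * X := by
      refine (w_sub w _ _).trans ?_
      have a1 := (near_spec hc hx).1 w
      have a2 := (near_spec hc hy).1 w
      rw [e0]
      linarith
    rcases max_choice 1 (2 * X * Y * w (α - β)) with hmx | hmx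
    · rw [hmx, mul_one]
      exact s1
    · rw [hmx]
      have a1 := (hβ x hx).2 w
      have a2 := (hβ y hy).2 w
      have a3 : w ((α - β) * ((el x : K) - (el y : K))) ≤ 2 ^ c / Y + 2 ^ c / Y := by
        rw [mul_sub]
        refine (w_sub w _ _).trans ?_
        linarith
      rw [map_mul] at a3
      have e1 : w ((el x : K) - (el y : K)) * (2 * X * Y * w (α - β)) =
          (w (α - β) * w ((el x : K) - (el y : K))) * (2 * X * Y) := by ring
      rw [e1, e0]
      have a4 := mul_le_mul_of_nonneg_right a3 (by positivity : (0:ℝ) ≤ 2 * X * Y)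
      refine a4.trans (le_of_eq ?_)
      field_simp
      ring
  have hprod : ∏ w : InfinitePlace K, (5 * N0) ^ w.mult = (5 * N0) ^ DK K := by
    rw [Finset.prod_pow_eq_pow_sum, sum_mult]
  obtain ⟨x, hx, y, hy, hxy, hw⟩ := pigeonhole (fun _ => N0) (fun _ => hN3) b hb0 A
    (by
      intro x hx y hy w
      obtain ⟨x', hx', rfl⟩ := Finset.mem_image.1 hx
      obtain ⟨y', hy', rfl⟩ := Finset.mem_image.1 hy
      exact hsize x' hx' y' hy' w)
    (by
      rw [hprod, hAcard]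
      have h1 : ((5 * N0 : ℕ) : ℝ) ^ DK K < ((near α X Y).card : ℝ) := by
        refine lt_of_le_of_lt ?_ hcard
        push_cast
        gcongr
      exact_mod_cast h1)
  obtain ⟨x', hx', rfl⟩ := Finset.mem_image.1 hx
  obtain ⟨y', hy', rfl⟩ := Finset.mem_image.1 hy
  apply h
  refine ⟨el x' - el y', β * (el x' : K) - β * (el y' : K), ?_, ?_, ?_, ?_⟩
  · intro h0
    apply hxy
    rw [sub_eq_zero.1 h0]
  · exact Submodule.sub_mem _ (hβ x' hx').1 (hβ y' hy').1
  · intro w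
    have h1 := hw w
    have e1 : ((el x' - el y' : 𝓞 K) : K) = (el x' : K) - (el y' : K) := by push_cast; ring
    rw [e1]
    refine h1.trans ?_
    rw [div_le_iff₀ hN00]
    have h2 : b w ≤ 2 ^ (c + 2) * X := by
      rw [hb]
      exact div_le_self (by positivity) (hmax w)
    refine h2.trans ?_
    have h3 := mul_le_mul_of_nonneg_left hN1 hρ0.le
    refine le_trans ?_ h3
    have e2 : (ρ:ℝ) * (2 ^ (c + c₂ + 2) * (X / ρ)) = 2 ^ c₂ * (2 ^ (c + 2) * X) := by
      rw [show c + c₂ + 2 = c₂ + (c + 2) by ring, pow_add]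
      field_simp
    rw [e2]
    have : (1:ℝ) ≤ 2 ^ c₂ := one_le_pow₀ (by norm_num)
    have hp : (0:ℝ) ≤ 2 ^ (c + 2) * X := by positivity
    nlinarith
  · intro w
    have h1 := hw w
    have e1 : ((el x' - el y' : 𝓞 K) : K) = (el x' : K) - (el y' : K) := by push_cast; ring
    have e3 : ((el x' - el y' : 𝓞 K) : K) * α - (β * (el x' : K) - β * (el y' : K)) =
        (α - β) * ((el x' : K) - (el y' : K)) := by
      rw [e1]
      ring
    rw [e3, map_mul]
    have hm := hmax w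
    have hw0 := w_nonneg w (α - β)
    have h2 : w (α - β) * w ((el x' : K) - (el y' : K)) ≤ w (α - β) * (b w / N0) :=
      mul_le_mul_of_nonneg_left h1 hw0
    refine h2.trans ?_
    have h3 : w (α - β) * b w ≤ 2 ^ (c + 1) / Y := by
      rw [hb]
      simp only
      rw [mul_div_assoc', div_le_div_iff₀ (by linarith) hY0]
      have h4 := le_max_right 1 (2 * X * Y * w (α - β))
      have e4 : (2:ℝ) ^ (c + 2) = 2 ^ (c + 1) * 2 := by rw [← pow_succ]
      rw [e4]
      have h5 := mul_le_mul_of_nonneg_left h4 (by positivity : (0:ℝ) ≤ 2 ^ (c + 1))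
      nlinarith
    rw [mul_div_assoc', div_le_div_iff₀ hN00 hT0]
    have h6 : w (α - β) * b w * T ≤ 2 ^ (c + 1) / Y * (2 ^ c₂ * (X * Y)) :=
      mul_le_mul h3 hTR hT0.le (by positivity)
    refine h6.trans ?_
    have h7 := mul_le_mul_of_nonneg_left hN1 hρ0.le
    refine le_trans ?_ h7
    have e5 : (ρ:ℝ) * (2 ^ (c + c₂ + 2) * (X / ρ)) = 2 * (2 ^ (c + 1) * 2 ^ c₂ * X) := by
      rw [show c + c₂ + 2 = (c + 1) + c₂ + 1 by ring, pow_succ, pow_add]
      field_simp
    rw [e5]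
    have e6 : (2:ℝ) ^ (c + 1) / Y * (2 ^ c₂ * (X * Y)) = 2 ^ (c + 1) * 2 ^ c₂ * X := by
      field_simp
    rw [e6]
    have hp : (0:ℝ) ≤ 2 ^ (c + 1) * 2 ^ c₂ * X := by positivity
    linarith

lemma G_sum {Y m : ℕ} (hY : 0 < Y) (hm : Y ≤ 2 ^ m) :
    ∑ l ∈ Finset.range Y, ZC.MSN.G Y (2 * Y + 1) l ≤ 16 * (Y * (m + 1)) := by
  refine (ZC.MSN.sum_G (2 * Y + 1) hm).trans ?_
  have hY0 : (1:ℝ) ≤ Y := by exact_mod_cast hY
  have hm0 : (0:ℝ) ≤ m := by positivity
  push_cast
  nlinarith [mul_nonneg (by linarith : (0:ℝ) ≤ Y) hm0]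

/-- the cell of `x` -/
noncomputable def cell (α : K) (Y : ℕ) (x : JJ K → ℤ) : JJ K → ℕ :=
  fun j => ⌊(Y : ℝ) * Int.fract (tr (α * (el x : K) * (om K j : K)))⌋₊

/-- few points in each cell -/
lemma card_cell (α : K) {X Y : ℕ} (hY : 0 < Y) (m : JJ K → ℕ) (S : Finset (JJ K → ℤ))
    (hS : S ⊆ box K X) (hm : ∀ x ∈ S, cell α Y x = m) : S.card ≤ (near α X Y).card := by
  classical
  rcases S.eq_empty_or_nonempty with h0 | ⟨x₀, hx₀⟩
  · rw [h0]
    simp
  · refine Finset.card_le_card_of_injOn (fun x => x - x₀) ?_ ?_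
    · intro x hx
      have hx := Finset.mem_coe.1 hx
      have h1 := hS hx
      have h2 := hS hx₀
      unfold box at h1 h2
      rw [Fintype.mem_piFinset] at h1 h2
      refine Finset.mem_coe.2 ?_
      unfold near
      refine Finset.mem_filter.2 ⟨?_, fun j => ?_⟩
      · unfold box
        rw [Fintype.mem_piFinset]
        intro j
        have a1 := h1 j
        have a2 := h2 j
        rw [Finset.mem_Icc] at a1 a2 ⊢
        show -((2 * X : ℕ) : ℤ) ≤ x j - x₀ j ∧ x j - x₀ j ≤ ((2 * X : ℕ) : ℤ)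
        push_cast
        constructor <;> linarith [a1.1, a1.2, a2.1, a2.2]
      · have e1 : tr (α * (el (x - x₀) : K) * (om K j : K)) =
            tr (α * (el x : K) * (om K j : K)) - tr (α * (el x₀ : K) * (om K j : K)) := by
          rw [← tr_sub, el_sub]
          congr 1
          push_cast
          ring
        rw [e1]
        refine close hY ?_
        have b1 := congrFun (hm x hx) j
        have b2 := congrFun (hm x₀ hx₀) j
        unfold cell at b1 b2
        rw [b1, b2]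
    · intro x _ y _ hxy
      exact sub_left_injective hxy

end MSN

open MSN in
/-- [MS] -/
theorem box_sum {c : ℕ} (hc : Cst K c) (c₂ : ℕ) : ∃ C : ℕ, ∀ (X Y ρ T m : ℕ) (α : K),
    1 ≤ ρ → ρ ≤ X → 2 ^ C * X ≤ Y → 0 < T → T ≤ 2 ^ c₂ * (X * Y) → Y ≤ 2 ^ m → ¬ Low T ρ α →
    ∑ x ∈ box K X, ‖∑ y ∈ box K Y, psi (α * (el x : K) * (el y : K))‖ ≤
      2 ^ C * ((X : ℝ) * Y * (m + 1) / ρ) ^ DK K := by
  classical
  refine ⟨max (3 * c + 3) ((c + c₂ + 10) * DK K), ?_⟩
  intro X Y ρ T m α hρ hρX hXY hT hT2 hYm hlow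
  have hX : 0 < X := lt_of_lt_of_le hρ hρX
  have hX0 : (0:ℝ) < X := by exact_mod_cast hX
  have hρ0 : (0:ℝ) < ρ := by exact_mod_cast hρ
  have hY3 : 2 ^ (3 * c + 3) * X ≤ Y := by
    refine le_trans ?_ hXY
    exact Nat.mul_le_mul_right _ (Nat.pow_le_pow_right (by norm_num) (le_max_left _ _))
  have hY : 0 < Y := lt_of_lt_of_le (by positivity) hY3
  have hY0 : (0:ℝ) < Y := by exact_mod_cast hY
  have hnear := card_near hc c₂ hρ hρX hY3 hT hT2 hlow
  have hG0 : ∀ m' : JJ K → ℕ, 0 ≤ ∏ j, ZC.MSN.G Y (2 * Y + 1) (m' j) := fun m' =>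
    Finset.prod_nonneg fun j _ => ZC.MSN.G_nonneg _ _ _
  have hpt : ∀ x ∈ box K X, ‖∑ y ∈ box K Y, psi (α * (el x : K) * (el y : K))‖ ≤
      ∏ j, ZC.MSN.G Y (2 * Y + 1) (cell α Y x j) := by
    intro x _
    rw [inner_eq, norm_prod]
    exact Finset.prod_le_prod (fun j _ => norm_nonneg _) fun j _ => sum_Icc_le hY _
  have hmaps : ∀ x ∈ box K X, cell α Y x ∈ Fintype.piFinset fun _ : JJ K => Finset.range Y := by
    intro x _
    rw [Fintype.mem_piFinset]
    intro j
    rw [Finset.mem_range]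
    exact floor_lt hY _
  calc ∑ x ∈ box K X, ‖∑ y ∈ box K Y, psi (α * (el x : K) * (el y : K))‖
      ≤ ∑ x ∈ box K X, ∏ j, ZC.MSN.G Y (2 * Y + 1) (cell α Y x j) := Finset.sum_le_sum hpt
    _ = ∑ m' ∈ Fintype.piFinset fun _ : JJ K => Finset.range Y,
          ∑ x ∈ (box K X).filter (fun x => cell α Y x = m'),
            ∏ j, ZC.MSN.G Y (2 * Y + 1) (cell α Y x j) :=
        (Finset.sum_fiberwise_of_maps_to hmaps _).symm
    _ ≤ ∑ m' ∈ Fintype.piFinset fun _ : JJ K => Finset.range Y,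
          ((near α X Y).card : ℝ) * ∏ j, ZC.MSN.G Y (2 * Y + 1) (m' j) := by
        refine Finset.sum_le_sum fun m' _ => ?_
        have h1 : ∑ x ∈ (box K X).filter (fun x => cell α Y x = m'),
            ∏ j, ZC.MSN.G Y (2 * Y + 1) (cell α Y x j) =
            (((box K X).filter (fun x => cell α Y x = m')).card : ℝ) *
              ∏ j, ZC.MSN.G Y (2 * Y + 1) (m' j) := by
          rw [← nsmul_eq_mul, ← Finset.sum_const]
          refine Finset.sum_congr rfl fun x hx => ?_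
          rw [(Finset.mem_filter.1 hx).2]
        rw [h1]
        refine mul_le_mul_of_nonneg_right ?_ (hG0 m')
        exact_mod_cast card_cell α hY m' _ (Finset.filter_subset _ _) fun x hx =>
          (Finset.mem_filter.1 hx).2
    _ = ((near α X Y).card : ℝ) * (∑ l ∈ Finset.range Y, ZC.MSN.G Y (2 * Y + 1) l) ^ DK K := by
        rw [← Finset.mul_sum]
        congr 1
        rw [← Finset.prod_univ_sum (fun _ : JJ K => Finset.range Y)
          (fun _ l => ZC.MSN.G Y (2 * Y + 1) l), Finset.prod_const, Finset.card_univ]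
    _ ≤ (5 * (2 ^ (c + c₂ + 3) * (X / ρ))) ^ DK K * (16 * (Y * (m + 1))) ^ DK K := by
        refine mul_le_mul hnear ?_ ?_ (by positivity)
        · exact pow_le_pow_left₀ (Finset.sum_nonneg fun l _ => ZC.MSN.G_nonneg _ _ _)
            (G_sum hY hYm) _
        · exact pow_nonneg (Finset.sum_nonneg fun l _ => ZC.MSN.G_nonneg _ _ _) _
    _ = (5 * 2 ^ (c + c₂ + 7)) ^ DK K * ((X : ℝ) * Y * (m + 1) / ρ) ^ DK K := by
        rw [← mul_pow, ← mul_pow]
        congr 1
        have : (2:ℝ) ^ (c + c₂ + 7) = 2 ^ (c + c₂ + 3) * 16 := by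
          rw [show c + c₂ + 7 = (c + c₂ + 3) + 4 by ring, pow_add]
          norm_num
        rw [this]
        field_simp
    _ ≤ 2 ^ max (3 * c + 3) ((c + c₂ + 10) * DK K) * ((X : ℝ) * Y * (m + 1) / ρ) ^ DK K := by
        refine mul_le_mul_of_nonneg_right ?_ (by positivity)
        have h1 : (5 * (2:ℝ) ^ (c + c₂ + 7)) ^ DK K ≤ (2 ^ (c + c₂ + 10)) ^ DK K := by
          refine pow_le_pow_left₀ (by positivity) ?_ _
          have : (2:ℝ) ^ (c + c₂ + 10) = 8 * 2 ^ (c + c₂ + 7) := by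
            rw [show c + c₂ + 10 = (c + c₂ + 7) + 3 by ring, pow_add]
            norm_num
            ring
          rw [this]
          have : (0:ℝ) < 2 ^ (c + c₂ + 7) := by positivity
          linarith
        refine h1.trans ?_
        rw [← pow_mul]
        exact pow_le_pow_right₀ (by norm_num) (le_max_right _ _)

end Pool.Agent.H366.NK
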