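import Pool.Agent.H366.NK.Div
import Pool.Agent.H366.NK.MS
import Pool.Agent.H366.GF.L1

/-! # [L1] mean square for a fixed frequency -/

set_option autoImplicit false

namespace Pool.Agent.H366.NK

open NumberField
open Pool.Agent.H366.GF (Ex ExC)
open Pool.Agent.H366.ZC (e)

variable {K : Type} [Field K] [NumberField K]

namespace L1N

open Pool.Agent.H366.GF (Ex_mono Ex_nonneg Ex_const ExC_const Ex_mul_left
  Ex_mul_right ExC_mul_left ExC_mul_right Ex_sum ExC_sum norm_ExC_le Ex_sq_le norm_ExC_sq_le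
  Ex_pw pw_pw)
open Pool.Agent.H366.GF.L1N (ExC_pw normsq_ExC norm_ExC2_le)

variable {q d s : ℕ} {M : 𝓞 K} {v g : Fin s → 𝓞 K} {α : K}

instance inst_ne (d : ℕ) : Nonempty (JJ K → Fin (2 ^ d)) := ⟨fun _ => ⟨0, by positivity⟩⟩

omit [NumberField K] in
lemma place_natCast (w : InfinitePlace K) (n : ℕ) : w ((n : ℕ) : K) = n := by
  rw [← InfinitePlace.norm_embedding_eq, map_natCast, Complex.norm_natCast]

omit [NumberField K] in
lemma place_sub_le (w : InfinitePlace K) (x y : K) : w (x - y) ≤ w x + w y := by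
  rw [← InfinitePlace.norm_embedding_eq, ← InfinitePlace.norm_embedding_eq,
    ← InfinitePlace.norm_embedding_eq, map_sub]
  exact norm_sub_le _ _

omit [NumberField K] in
lemma coe_mul' (x y : 𝓞 K) : ((x * y : 𝓞 K) : K) = (x : K) * (y : K) :=
  map_mul (algebraMap (𝓞 K) K) x y

omit [NumberField K] in
lemma coe_sub' (x y : 𝓞 K) : ((x - y : 𝓞 K) : K) = (x : K) - (y : K) :=
  map_sub (algebraMap (𝓞 K) K) x y

omit [NumberField K] in
lemma coe_zero' : ((0 : 𝓞 K) : K) = 0 := map_zero (algebraMap (𝓞 K) K)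

omit [NumberField K] in
lemma coe_natCast' (n : ℕ) : (((n : ℕ) : 𝓞 K) : K) = (n : K) :=
  map_natCast (algebraMap (𝓞 K) K) n

/-- averaging over more variables increases nothing -/
lemma TT_mono (V B : Finset (Fin s)) (hVB : V ⊆ B) :
    Ex (fun z : Fin s → JJ K → Fin (2 ^ d) => ‖TT q d M v g α V z‖ ^ 2) ≤
      Ex (fun z : Fin s → JJ K → Fin (2 ^ d) => ‖TT q d M v g α B z‖ ^ 2) := by
  have h1 : ∀ z : Fin s → JJ K → Fin (2 ^ d), TT q d M v g α V z =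
      ExC (fun z' : Fin s → JJ K → Fin (2 ^ d) =>
        TT q d M v g α B (V.piecewise z z')) := by
    intro z
    simp only [TT]
    rw [← ExC_pw B]
    refine congrArg ExC (funext fun z' => congrArg ExC (funext fun z'' => ?_))
    rw [pw_pw hVB]
  rw [← Ex_pw V (fun z : Fin s → JJ K → Fin (2 ^ d) => ‖TT q d M v g α B z‖ ^ 2)]
  refine Ex_mono fun z => ?_
  rw [h1 z]
  exact norm_ExC_sq_le _

lemma prod_pw (B : Finset (Fin s)) (z z' : Fin s → JJ K → Fin (2 ^ d)) :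
    ∏ i, zz q d (v i) (g i) (B.piecewise z z' i) =
      (∏ i ∈ B, zz q d (v i) (g i) (z i)) * ∏ i ∈ Bᶜ, zz q d (v i) (g i) (z' i) := by
  rw [← Finset.prod_mul_prod_compl B]
  congr 1
  · refine Finset.prod_congr rfl fun i hi => ?_
    rw [Finset.piecewise_eq_of_mem _ _ _ hi]
  · refine Finset.prod_congr rfl fun i hi => ?_
    rw [Finset.piecewise_eq_of_notMem _ _ _ (Finset.mem_compl.1 hi)]

/-- the sum as a function of the product of the first slots -/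
noncomputable def FF (q d : ℕ) (M : 𝓞 K) (v g : Fin s → 𝓞 K) (α : K) (B : Finset (Fin s))
    (w : 𝓞 K) : ℂ :=
  ExC (fun z' : Fin s → JJ K → Fin (2 ^ d) =>
    psi (α * (((M * (w * ∏ i ∈ Bᶜ, zz q d (v i) (g i) (z' i)) : 𝓞 K) : K) / (q : K))))

lemma norm_TT_eq (B : Finset (Fin s)) (z : Fin s → JJ K → Fin (2 ^ d)) :
    ‖TT q d M v g α B z‖ =
      ‖FF q d M v g α B (∏ i ∈ B, zz q d (v i) (g i) (z i))‖ := by
  have h1 : TT q d M v g α B z =
      FF q d M v g α B (∏ i ∈ B, zz q d (v i) (g i) (z i)) *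
        (starRingEnd ℂ) (psi (α * (((M * ∏ i, v i : 𝓞 K) : K) / (q : K)))) := by
    simp only [TT, FF]
    rw [← ExC_mul_right]
    refine congrArg ExC (funext fun z' => ?_)
    rw [← psi_sub]
    refine congrArg psi ?_
    rw [ff, prod_pw, coe_sub']
    ring
  rw [h1, norm_mul, RCLike.norm_conj, norm_psi, mul_one]

open Classical in
/-- comparison of an average with the sum over a parametrized set of values -/
lemma Ex_fibre {α V ι : Type} [Fintype α] (f : α → V) (g : ι → V) (S : Finset ι)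
    (hg : ∀ x, ∃ c ∈ S, g c = f x) (p : ℝ)
    (hp : ∀ c ∈ S, Ex (fun x => if f x = g c then (1 : ℝ) else 0) ≤ p) (G : V → ℝ)
    (hG : ∀ F, 0 ≤ G F) : Ex (fun x => G (f x)) ≤ p * ∑ c ∈ S, G (g c) := by
  calc Ex (fun x => G (f x))
      ≤ Ex (fun x => ∑ c ∈ S, G (g c) * (if f x = g c then (1 : ℝ) else 0)) := by
        refine Ex_mono fun x => ?_
        obtain ⟨c, hcS, hc⟩ := hg x
        refine le_trans (le_of_eq ?_) (Finset.single_le_sum (f := fun c => G (g c) *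
          (if f x = g c then (1 : ℝ) else 0)) (fun c _ => mul_nonneg (hG _) (by split_ifs <;> simp))
          hcS)
        simp [hc]
    _ = ∑ c ∈ S, G (g c) * Ex (fun x => (if f x = g c then (1 : ℝ) else 0)) := by
        rw [Ex_sum]
        exact Finset.sum_congr rfl fun c _ => Ex_mul_left _ _
    _ ≤ ∑ c ∈ S, G (g c) * p :=
        Finset.sum_le_sum fun c hc => mul_le_mul_of_nonneg_left (hp c hc) (hG _)
    _ = p * ∑ c ∈ S, G (g c) := by rw [← Finset.sum_mul, mul_comm]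

/-- small elements lie in the box -/
lemma exists_box {c : ℕ} (hc : Cst K c) (x : 𝓞 K) (n : ℕ)
    (hx : ∀ w : InfinitePlace K, w (x : K) ≤ 2 ^ n) : ∃ y ∈ box K (2 ^ (c + n)), el y = x := by
  refine ⟨fun j => (om K).repr x j, ?_, el_repr x⟩
  rw [box, Fintype.mem_piFinset]
  intro j
  have h := hc.coord_le x (2 ^ n) hx j
  rw [Finset.mem_Icc, ← abs_le]
  have h2 : ((|(om K).repr x j| : ℤ) : ℝ) ≤ (((2 ^ (c + n) : ℕ) : ℤ) : ℝ) := by
    rw [Int.cast_abs]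
    refine h.trans (le_of_eq ?_)
    push_cast
    rw [pow_add]
  exact_mod_cast h2

omit [NumberField K] in
lemma prod_v_le {c κ e₀ γ : ℕ} (hQ : QOK κ q e₀ γ) (hv : ∀ i, SlotOK c q γ (v i) (g i))
    (hd : c ≤ d) (B : Finset (Fin s)) (w : InfinitePlace K) :
    w (((∏ i ∈ B, v i : 𝓞 K)) : K) ≤ 2 ^ (B.card * (d + e₀)) := by
  have hqe : (q : ℝ) ≤ 2 ^ e₀ := by
    have h1 : q ≤ 2 ^ e₀ :=
      le_trans (Nat.le_mul_of_pos_right q (by positivity)) hQ.qe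
    exact_mod_cast h1
  have h1 : ∀ i, w ((v i : 𝓞 K) : K) ≤ 2 ^ (d + e₀) := by
    intro i
    refine ((hv i).vle w).trans ?_
    rw [pow_add]
    have h2 : (2 : ℝ) ^ c ≤ 2 ^ d := pow_le_pow_right₀ (by norm_num) hd
    exact mul_le_mul h2 hqe (by positivity) (by positivity)
  have h2 : (((∏ i ∈ B, v i : 𝓞 K)) : K) = ∏ i ∈ B, ((v i : 𝓞 K) : K) :=
    map_prod (algebraMap (𝓞 K) K) _ _
  have h3 : w (((∏ i ∈ B, v i : 𝓞 K)) : K) = ∏ i ∈ B, w ((v i : 𝓞 K) : K) := by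
    rw [h2, map_prod]
  rw [h3]
  calc ∏ i ∈ B, w ((v i : 𝓞 K) : K) ≤ ∏ _i ∈ B, (2 : ℝ) ^ (d + e₀) :=
        Finset.prod_le_prod (fun i _ => apply_nonneg w _) (fun i _ => h1 i)
    _ = 2 ^ (B.card * (d + e₀)) := by
        rw [Finset.prod_const, ← pow_mul, mul_comm]

/-- step 1 -/
lemma step1 {c κ e₀ γ : ℕ} (hc : Cst K c) (hQ : QOK κ q e₀ γ)
    (hv : ∀ i, SlotOK c q γ (v i) (g i)) (hd : c ≤ d) (B : Finset (Fin s)) (p : ℝ)
    (hp : ∀ x : 𝓞 K, Ex (fun z : Fin s → JJ K → Fin (2 ^ d) =>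
      open Classical in if ∏ i ∈ B, zz q d (v i) (g i) (z i) = x then (1 : ℝ) else 0) ≤ p) :
    Ex (fun z : Fin s → JJ K → Fin (2 ^ d) => ‖TT q d M v g α B z‖ ^ 2) ≤
      p * ∑ y ∈ box K (2 ^ (c + (1 + B.card * (d + e₀)))),
        ‖FF q d M v g α B (∏ i ∈ B, v i + (q : 𝓞 K) * el y)‖ ^ 2 := by
  simp only [norm_TT_eq]
  refine Ex_fibre (fun z : Fin s → JJ K → Fin (2 ^ d) => ∏ i ∈ B, zz q d (v i) (g i) (z i))
    (fun y : JJ K → ℤ => ∏ i ∈ B, v i + (q : 𝓞 K) * el y)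
    (box K (2 ^ (c + (1 + B.card * (d + e₀)))))
    ?_ p (fun y _ => hp _) (fun w => ‖FF q d M v g α B w‖ ^ 2)
    (fun F => by positivity)
  intro z
  obtain ⟨t, ht⟩ := dvd_prod_zz (q := q) v g z B
  have hqpos : (1 : ℝ) ≤ q := by exact_mod_cast hQ.qpos
  have hb : ∀ w : InfinitePlace K, w (t : K) ≤ 2 ^ (1 + B.card * (d + e₀)) := by
    intro w
    have h1 : (q : ℝ) * w (t : K) = w (((∏ i ∈ B, zz q d (v i) (g i) (z i) : 𝓞 K) : K) -
        ((∏ i ∈ B, v i : 𝓞 K) : K)) := by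
      rw [← place_natCast w q, ← map_mul]
      congr 1
      have h2 := congrArg (fun x : 𝓞 K => (x : K)) ht
      simp only [coe_sub', coe_mul', coe_natCast'] at h2
      exact h2.symm
    have h3 : w (((∏ i ∈ B, zz q d (v i) (g i) (z i) : 𝓞 K) : K) -
        ((∏ i ∈ B, v i : 𝓞 K) : K)) ≤ w ((∏ i ∈ B, zz q d (v i) (g i) (z i) : 𝓞 K) : K) +
        w ((∏ i ∈ B, v i : 𝓞 K) : K) := place_sub_le w _ _
    have h5 := prod_zz_le hc hQ hv z B w
    have h6 := prod_v_le hQ hv hd B w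
    have h7 : w (t : K) ≤ (q : ℝ) * w (t : K) :=
      le_mul_of_one_le_left (apply_nonneg w _) hqpos
    rw [pow_add, pow_one]
    linarith
  obtain ⟨y, hy, hyt⟩ := exists_box hc t _ hb
  refine ⟨y, hy, ?_⟩
  rw [hyt, ← ht]
  ring

/-- step 2 -/
lemma sum_FF (hq : 0 < q) (B : Finset (Fin s)) (w : 𝓞 K) (S : Finset (JJ K → ℤ)) :
    ∑ y ∈ S, ‖FF q d M v g α B (w + (q : 𝓞 K) * el y)‖ ^ 2 ≤
      Ex (fun z'' : Fin s → JJ K → Fin (2 ^ d) => Ex (fun z' : Fin s → JJ K → Fin (2 ^ d) =>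
        ‖∑ y ∈ S, psi (α * ((M * (∏ i ∈ Bᶜ, zz q d (v i) (g i) (z'' i) -
            ∏ i ∈ Bᶜ, zz q d (v i) (g i) (z' i)) : 𝓞 K) : K) * (el y : K))‖)) := by
  have hq0 : (q : K) ≠ 0 := by exact_mod_cast hq.ne'
  have h1 : ((∑ y ∈ S, ‖FF q d M v g α B (w + (q : 𝓞 K) * el y)‖ ^ 2 : ℝ) : ℂ) =
      ExC (fun x : Fin s → JJ K → Fin (2 ^ d) => ExC (fun x' : Fin s → JJ K → Fin (2 ^ d) =>
        psi (α * (((M * (w * (∏ i ∈ Bᶜ, zz q d (v i) (g i) (x i) -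
          ∏ i ∈ Bᶜ, zz q d (v i) (g i) (x' i))) : 𝓞 K) : K) / (q : K))) *
        ∑ y ∈ S, psi (α * ((M * (∏ i ∈ Bᶜ, zz q d (v i) (g i) (x i) -
            ∏ i ∈ Bᶜ, zz q d (v i) (g i) (x' i)) : 𝓞 K) : K) * (el y : K)))) := by
    rw [Complex.ofReal_sum]
    simp only [FF, normsq_ExC]
    rw [← ExC_sum]
    refine congrArg ExC (funext fun x => ?_)
    rw [← ExC_sum]
    refine congrArg ExC (funext fun x' => ?_)
    rw [Finset.mul_sum]
    refine Finset.sum_congr rfl fun y _ => ?_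
    rw [← psi_sub, ← psi_add]
    refine congrArg psi ?_
    generalize (∏ i ∈ Bᶜ, zz q d (v i) (g i) (x i)) = A
    generalize (∏ i ∈ Bᶜ, zz q d (v i) (g i) (x' i)) = C
    generalize el y = Y
    simp only [map_add, map_mul, map_natCast, map_sub]
    field_simp
  have h4 : (∑ y ∈ S, ‖FF q d M v g α B (w + (q : 𝓞 K) * el y)‖ ^ 2 : ℝ) =
      ‖((∑ y ∈ S, ‖FF q d M v g α B (w + (q : 𝓞 K) * el y)‖ ^ 2 : ℝ) : ℂ)‖ := by
    rw [Complex.norm_real, Real.norm_of_nonneg]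
    exact Finset.sum_nonneg fun c _ => by positivity
  rw [h4, h1]
  refine norm_ExC2_le _ _ fun x y => ?_
  rw [norm_mul, norm_psi, one_mul]

/-- step 3 -/
lemma step3 {c κ e₀ γ μ : ℕ} (hc : Cst K c) (hQ : QOK κ q e₀ γ)
    (hv : ∀ i, SlotOK c q γ (v i) (g i)) (hM0 : M ≠ 0)
    (hM : ∀ w : InfinitePlace K, w (M : K) ≤ 2 ^ μ) (B : Finset (Fin s)) (p : ℝ) (hp0 : 0 ≤ p)
    (hp : ∀ x : 𝓞 K, Ex (fun z : Fin s → JJ K → Fin (2 ^ d) =>
      open Classical in if ∏ i ∈ B, zz q d (v i) (g i) (z i) = x then (1 : ℝ) else 0) ≤ p)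
    (G : 𝓞 K → ℝ) (hG : ∀ x, 0 ≤ G x) (z'' : Fin s → JJ K → Fin (2 ^ d)) :
    Ex (fun z' : Fin s → JJ K → Fin (2 ^ d) => G (M * (∏ i ∈ B, zz q d (v i) (g i) (z'' i) -
            ∏ i ∈ B, zz q d (v i) (g i) (z' i)))) ≤
      p * ∑ x ∈ box K (2 ^ (c + (1 + μ + B.card * (d + e₀)))), G (el x) := by
  refine Ex_fibre (fun z' : Fin s → JJ K → Fin (2 ^ d) =>
    M * (∏ i ∈ B, zz q d (v i) (g i) (z'' i) - ∏ i ∈ B, zz q d (v i) (g i) (z' i)))
    (fun x : JJ K → ℤ => el x) _ ?_ p ?_ G hG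
  · intro z'
    refine exists_box hc _ _ ?_
    intro w
    have h1 := prod_zz_le hc hQ hv z'' B w
    have h2 := prod_zz_le hc hQ hv z' B w
    have h3 : w (((∏ i ∈ B, zz q d (v i) (g i) (z'' i) : 𝓞 K) : K) -
        ((∏ i ∈ B, zz q d (v i) (g i) (z' i) : 𝓞 K) : K)) ≤
        w ((∏ i ∈ B, zz q d (v i) (g i) (z'' i) : 𝓞 K) : K) +
        w ((∏ i ∈ B, zz q d (v i) (g i) (z' i) : 𝓞 K) : K) := place_sub_le w _ _
    have h5 : w ((M * (∏ i ∈ B, zz q d (v i) (g i) (z'' i) -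
        ∏ i ∈ B, zz q d (v i) (g i) (z' i)) : 𝓞 K) : K) = w (M : K) *
        w (((∏ i ∈ B, zz q d (v i) (g i) (z'' i) : 𝓞 K) : K) -
        ((∏ i ∈ B, zz q d (v i) (g i) (z' i) : 𝓞 K) : K)) := by
      rw [coe_mul', coe_sub', map_mul]
    rw [h5]
    calc w (M : K) * w (((∏ i ∈ B, zz q d (v i) (g i) (z'' i) : 𝓞 K) : K) -
        ((∏ i ∈ B, zz q d (v i) (g i) (z' i) : 𝓞 K) : K))
        ≤ 2 ^ μ * (2 * 2 ^ (B.card * (d + e₀))) :=
          mul_le_mul (hM w) (by linarith) (apply_nonneg w _) (by positivity)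
      _ = 2 ^ (1 + μ + B.card * (d + e₀)) := by
          rw [pow_add, pow_add]
          ring
  · intro x _
    by_cases hex : ∃ F : 𝓞 K, M * (∏ i ∈ B, zz q d (v i) (g i) (z'' i) - F) = el x
    · obtain ⟨F, hF⟩ := hex
      refine le_trans (Ex_mono fun z' => ?_) (hp F)
      by_cases h7 : M * (∏ i ∈ B, zz q d (v i) (g i) (z'' i) -
          ∏ i ∈ B, zz q d (v i) (g i) (z' i)) = el x
      · rw [if_pos h7, if_pos]
        rw [← hF] at h7
        have h8 := mul_left_cancel₀ hM0 h7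
        exact sub_right_injective h8
      · rw [if_neg h7]
        split_ifs <;> simp
    · have : ∀ z' : Fin s → JJ K → Fin (2 ^ d),
          (open Classical in if M * (∏ i ∈ B, zz q d (v i) (g i) (z'' i) -
            ∏ i ∈ B, zz q d (v i) (g i) (z' i)) = el x then (1 : ℝ) else 0) = 0 :=
        fun z' => if_neg fun h => hex ⟨_, h⟩
      simp only [this]
      rw [Ex_const]
      exact hp0

end L1N

open L1N in
/-- [L1] -/
theorem L1 {c : ℕ} (hc : Cst K c) {κ q e₀ γ μ k s : ℕ} (hQ : QOK κ q e₀ γ) (hs : s = 4 * k + 4)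
    (hκ : 640 * s ^ 2 * DK K ^ 2 ≤ κ) (M : 𝓞 K) (hM1 : ∀ w : InfinitePlace K, 1 ≤ w (M : K))
    (hM : ∀ w : InfinitePlace K, w (M : K) ≤ 2 ^ μ) :
    ∃ C : ℕ, ∀ d : ℕ, C ≤ d → ∀ v g : Fin s → 𝓞 K, (∀ i, SlotOK c q γ (v i) (g i)) →
    ∀ V : Finset (Fin s), V.card ≤ 2 * k + 3 → ∀ (a : JJ K → Fin (TL c s μ e₀ d)) (j : ℕ),
    j ≤ (k + 1) * d → ¬ Low (TL c s μ e₀ d) (2 ^ j) (fr (TL c s μ e₀ d) a) →
    Ex (fun z : Fin s → JJ K → Fin (2 ^ d) =>
        ‖TT q d M v g (fr (TL c s μ e₀ d) a) V z‖ ^ 2) ≤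
      2 ^ C * sm K d ^ 2 * ((d : ℝ) + 1) ^ DK K / (2 ^ j) ^ DK K := by
  obtain ⟨C₁, hC₁⟩ := prob_fibre hc hQ hκ
  obtain ⟨C₃, hC₃⟩ := box_sum hc 2
  -- `m + 1 ≤ 2 ^ C₄ * (d + 1)`
  set C₄ := c + 2 + (2 * k + 3) * (1 + e₀) with hC₄
  refine ⟨C₃ + μ + c + (C₁ + C₁ + C₃ + (2 * c + 2 + μ + s * e₀) * DK K + C₄ * DK K), ?_⟩
  intro d hd v g hv V hV a j hj hlow
  obtain ⟨B, hVB, hB⟩ := Finset.exists_superset_card_eq hV (by rw [Fintype.card_fin]; omega)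
  have hBc : (Bᶜ).card = 2 * k + 1 := by rw [Finset.card_compl, hB, Fintype.card_fin]; omega
  have hM0 : M ≠ 0 := by
    intro h
    obtain ⟨w⟩ := (inferInstance : Nonempty (InfinitePlace K))
    have h1 := hM1 w
    rw [h, coe_zero', map_zero] at h1
    linarith
  set α := fr (TL c s μ e₀ d) a with hα
  set p₁ : ℝ := 2 ^ C₁ * sm K d / 2 ^ (d * DK K * B.card) with hp₁
  set p₂ : ℝ := 2 ^ C₁ * sm K d / 2 ^ (d * DK K * (Bᶜ).card) with hp₂
  have hsm0 : 0 ≤ sm K d := by unfold sm; positivity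
  have hp₁0 : 0 ≤ p₁ := by positivity
  have hp₂0 : 0 ≤ p₂ := by positivity
  have hcd : c ≤ d := by omega
  set X := 2 ^ (c + (1 + μ + (Bᶜ).card * (d + e₀))) with hX
  set Y := 2 ^ (c + (1 + B.card * (d + e₀))) with hY
  have h1 := TT_mono (q := q) (d := d) (M := M) (v := v) (g := g) (α := α) V B hVB
  have h2 := step1 (M := M) (α := α) hc hQ hv hcd B p₁ (fun x => hC₁ d v g hv B x)
  have h3 := sum_FF (d := d) (M := M) (v := v) (g := g) (α := α) hQ.qpos B (∏ i ∈ B, v i) (box K Y)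
  have h4 := fun z'' : Fin s → JJ K → Fin (2 ^ d) => step3 hc hQ hv hM0 hM Bᶜ p₂ hp₂0
    (fun x => hC₁ d v g hv Bᶜ x)
    (fun x : 𝓞 K => ‖∑ y ∈ box K Y, psi (α * (x : K) * (el y : K))‖) (fun x => norm_nonneg _) z''
  have h5 := h3.trans (GF.Ex_mono h4)
  rw [GF.Ex_const] at h5
  have hms := hC₃ X Y (2 ^ j) (TL c s μ e₀ d) (c + (1 + B.card * (d + e₀))) α
    Nat.one_le_two_pow
    (by
      rw [hX]
      refine Nat.pow_le_pow_right (by norm_num) ?_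
      rw [hBc]
      nlinarith [Nat.zero_le (k * d), Nat.zero_le (k * e₀)])
    (by
      rw [hX, hY, ← pow_add]
      refine Nat.pow_le_pow_right (by norm_num) ?_
      rw [hBc, hB]
      have e1 : (2 * k + 3) * (d + e₀) = (2 * k + 1) * (d + e₀) + 2 * (d + e₀) := by ring
      omega)
    (by unfold TL; positivity)
    (by
      rw [hX, hY, ← pow_add, ← pow_add, TL, TE]
      refine Nat.pow_le_pow_right (by norm_num) ?_
      rw [hBc, hB, hs]
      have e1 : (4 * k + 4) * (d + e₀) = (2 * k + 1) * (d + e₀) + (2 * k + 3) * (d + e₀) := by ring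
      omega)
    le_rfl hlow
  refine h1.trans (h2.trans ((mul_le_mul_of_nonneg_left h5 hp₁0).trans ?_))
  refine (mul_le_mul_of_nonneg_left (mul_le_mul_of_nonneg_left hms hp₂0) hp₁0).trans ?_
  -- the arithmetic
  have hm1 : ((c + (1 + B.card * (d + e₀)) : ℕ) : ℝ) + 1 ≤ 2 ^ C₄ * ((d : ℝ) + 1) := by
    have e1 : c + (1 + B.card * (d + e₀)) + 1 ≤ C₄ * (d + 1) := by
      rw [hB, hC₄]
      have e2 : (c + 2 + (2 * k + 3) * (1 + e₀)) * (d + 1) =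
        (c + 2) * (d + 1) + (2 * k + 3) * ((1 + e₀) * (d + 1)) := by ring
      rw [e2]
      have e3 : c + 2 ≤ (c + 2) * (d + 1) := Nat.le_mul_of_pos_right _ (by omega)
      have e4 : d + e₀ ≤ (1 + e₀) * (d + 1) := by nlinarith [Nat.zero_le (e₀ * d)]
      have e5 : (2 * k + 3) * (d + e₀) ≤ (2 * k + 3) * ((1 + e₀) * (d + 1)) :=
        Nat.mul_le_mul_left _ e4
      omega
    have e6 : C₄ ≤ 2 ^ C₄ := Nat.lt_two_pow_self.le
    have e7 : c + (1 + B.card * (d + e₀)) + 1 ≤ 2 ^ C₄ * (d + 1) :=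
      e1.trans (Nat.mul_le_mul_right _ e6)
    exact_mod_cast e7
  have hXY : (X : ℝ) * Y = 2 ^ (2 * c + 2 + μ + s * e₀) * 2 ^ (d * s) := by
    have e1 : X * Y = 2 ^ (2 * c + 2 + μ + s * e₀) * 2 ^ (d * s) := by
      rw [hX, hY, ← pow_add, ← pow_add]
      congr 1
      rw [hBc, hB, hs]
      ring
    exact_mod_cast e1
  have hD : (((X : ℝ) * Y * (((c + (1 + B.card * (d + e₀)) : ℕ) : ℝ) + 1) /
      ((2 ^ j : ℕ) : ℝ)) ^ DK K) ≤
      (2 ^ (2 * c + 2 + μ + s * e₀)) ^ DK K * (2 ^ (d * s)) ^ DK K *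
        ((2 ^ C₄) ^ DK K * ((d : ℝ) + 1) ^ DK K) / (2 ^ j) ^ DK K := by
    rw [div_pow, mul_pow, hXY, mul_pow]
    push_cast
    refine div_le_div_of_nonneg_right ?_ (by positivity)
    refine mul_le_mul_of_nonneg_left ?_ (by positivity)
    rw [← mul_pow]
    refine pow_le_pow_left₀ (by positivity) ?_ _
    push_cast at hm1
    exact hm1
  have hpp : p₁ * p₂ = 2 ^ (C₁ + C₁) * sm K d ^ 2 / (2 ^ (d * s)) ^ DK K := by
    have e1 : (2 : ℝ) ^ (d * DK K * B.card) * 2 ^ (d * DK K * (Bᶜ).card) =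
        (2 ^ (d * s)) ^ DK K := by
      rw [← pow_add, ← pow_mul]
      congr 1
      rw [hBc, hB, hs]
      ring
    rw [hp₁, hp₂, div_mul_div_comm, e1, pow_add]
    ring
  have hds : (0 : ℝ) < (2 ^ (d * s)) ^ DK K := by positivity
  have hj0 : (0 : ℝ) < (2 ^ j) ^ DK K := by positivity
  calc p₁ * (p₂ * (2 ^ C₃ * ((X : ℝ) * Y * (((c + (1 + B.card * (d + e₀)) : ℕ) : ℝ) + 1) /
      ((2 ^ j : ℕ) : ℝ)) ^ DK K))
      ≤ p₁ * (p₂ * (2 ^ C₃ * ((2 ^ (2 * c + 2 + μ + s * e₀)) ^ DK K * (2 ^ (d * s)) ^ DK K *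
        ((2 ^ C₄) ^ DK K * ((d : ℝ) + 1) ^ DK K) / (2 ^ j) ^ DK K))) := by
        refine mul_le_mul_of_nonneg_left (mul_le_mul_of_nonneg_left
          (mul_le_mul_of_nonneg_left hD (by positivity)) hp₂0) hp₁0
    _ = (p₁ * p₂) * (2 ^ (d * s)) ^ DK K * (2 ^ C₃ * (2 ^ (2 * c + 2 + μ + s * e₀)) ^ DK K *
        (2 ^ C₄) ^ DK K) * ((d : ℝ) + 1) ^ DK K / (2 ^ j) ^ DK K := by ring
    _ = 2 ^ (C₁ + C₁ + C₃ + (2 * c + 2 + μ + s * e₀) * DK K + C₄ * DK K) * sm K d ^ 2 *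
        ((d : ℝ) + 1) ^ DK K / (2 ^ j) ^ DK K := by
        rw [hpp, div_mul_cancel₀ _ hds.ne', ← pow_mul, ← pow_mul, pow_add (2 : ℝ) _ (C₄ * DK K),
          pow_add (2 : ℝ) _ ((2 * c + 2 + μ + s * e₀) * DK K), pow_add (2 : ℝ) (C₁ + C₁) C₃]
        ring
    _ ≤ 2 ^ (C₃ + μ + c + (C₁ + C₁ + C₃ + (2 * c + 2 + μ + s * e₀) * DK K + C₄ * DK K)) *
        sm K d ^ 2 * ((d : ℝ) + 1) ^ DK K / (2 ^ j) ^ DK K := by
        refine div_le_div_of_nonneg_right ?_ hj0.le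
        refine mul_le_mul_of_nonneg_right ?_ (by positivity)
        refine mul_le_mul_of_nonneg_right ?_ (by positivity)
        exact pow_le_pow_right₀ (by norm_num) (by omega)

end Pool.Agent.H366.NK
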