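import Pool.Agent.H366.NK.Base3

/-! # [MAJA] one exponential sum close to a fraction -/

set_option autoImplicit false

namespace Pool.Agent.H366.NK

open NumberField
open Pool.Agent.H366.GF (Ex ExC)
open Pool.Agent.H366.ZC (e)

variable {K : Type} [Field K] [NumberField K]

/-- the majorant of the linear exponential sum -/
noncomputable def fR (d : ℕ) (R : 𝓞 K) (η : K) : ℝ :=
  ∏ j, (max 1 ((2 : ℝ) ^ d * |tr (η * (R : K) * (om K j : K))|))⁻¹

theorem fR_nonneg (d : ℕ) (R : 𝓞 K) (η : K) : 0 ≤ fR d R η := by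
  unfold fR
  exact Finset.prod_nonneg fun j _ => inv_nonneg.2 (zero_le_one.trans (le_max_left _ _))

theorem fR_le_one (d : ℕ) (R : 𝓞 K) (η : K) : fR d R η ≤ 1 := by
  unfold fR
  exact Finset.prod_le_one
    (fun j _ => inv_nonneg.2 (zero_le_one.trans (le_max_left _ _)))
    (fun j _ => inv_le_one_of_one_le₀ (le_max_left _ _))

namespace MajAN

open Pool.Agent.H366.GF (Ex_mono Ex_nonneg Ex_const ExC_mul_left Ex_mul_right Ex_add
  norm_ExC_le Ex_pw)
open Pool.Agent.H366.ZC (e_add e_zero norm_e e_mul_nat e_add_int)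

/-! ### geometric sums -/

theorem norm_e_sub_one {y : ℝ} (hy : |y| ≤ 1 / 2) : 4 * |y| ≤ ‖e y - 1‖ := by
  have h : e y = Complex.exp (Complex.I * ((2 * Real.pi * y : ℝ) : ℂ)) := by
    unfold e
    congr 1
    push_cast
    ring
  rw [h, Complex.norm_exp_I_mul_ofReal_sub_one, norm_mul, Real.norm_eq_abs, Real.norm_eq_abs]
  have hpi := Real.pi_pos
  have h1 : 2 * Real.pi * y / 2 = Real.pi * y := by ring
  rw [h1]
  have h2 : |Real.pi * y| ≤ Real.pi / 2 := by
    rw [abs_mul, abs_of_pos hpi]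
    nlinarith
  have h3 := Real.mul_abs_le_abs_sin h2
  rw [abs_mul, abs_of_pos hpi] at h3
  have h4 : 2 / Real.pi * (Real.pi * |y|) = 2 * |y| := by
    field_simp
  rw [h4] at h3
  rw [abs_of_pos (by norm_num : (0 : ℝ) < 2)]
  linarith

theorem norm_geom {y : ℝ} (hy : |y| ≤ 1 / 2) (Y : ℕ) :
    ‖∑ c ∈ Finset.range Y, e ((c : ℝ) * y)‖ * (2 * |y|) ≤ 1 := by
  rcases eq_or_ne y 0 with h0 | h0
  · rw [h0, abs_zero, mul_zero, mul_zero]
    exact zero_le_one
  have hy0 := abs_pos.2 h0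
  have h4 := norm_e_sub_one hy
  have h1 : e y ≠ 1 := by
    intro h
    rw [h, sub_self, norm_zero] at h4
    linarith
  have h2 : ∀ c ∈ Finset.range Y, e ((c : ℝ) * y) = e y ^ c := fun c _ => e_mul_nat y c
  rw [Finset.sum_congr rfl h2, geom_sum_eq h1, norm_div]
  have h3 : ‖e y ^ Y - 1‖ ≤ 2 := by
    calc ‖e y ^ Y - 1‖ ≤ ‖e y ^ Y‖ + ‖(1 : ℂ)‖ := norm_sub_le _ _
      _ = 2 := by rw [norm_pow, norm_e, one_pow, norm_one]; norm_num
  have h5 : 0 < ‖e y - 1‖ := by linarith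
  rw [div_mul_eq_mul_div, div_le_one h5]
  have := mul_le_mul_of_nonneg_right h3 (by positivity : (0 : ℝ) ≤ 2 * |y|)
  linarith

/-- the average over a slot -/
theorem norm_av (d : ℕ) {β y : ℝ} {n : ℤ} (h : β = n + y) (hy : |y| ≤ 1 / 2) :
    ‖ExC (fun c : Fin (2 ^ d) => e ((c : ℕ) * β))‖ * (2 * 2 ^ d * |y|) ≤ 1 := by
  have h1 : ∀ c : Fin (2 ^ d), e ((c : ℕ) * β) = e (((c : ℕ) : ℝ) * y) := by
    intro c
    have h2 : ((c : ℕ) : ℝ) * β = ((c : ℕ) : ℝ) * y + (((c : ℕ) * n : ℤ) : ℝ) := by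
      rw [h]; push_cast; ring
    rw [h2, e_add_int]
  simp only [h1]
  rw [ExC, Fin.sum_univ_eq_sum_range (fun c => e ((c : ℝ) * y)) (2 ^ d), Fintype.card_fin, norm_div,
    Complex.norm_natCast]
  have h3 := norm_geom hy (2 ^ d)
  have h4 : (0 : ℝ) < 2 ^ d := by positivity
  push_cast
  generalize ‖∑ c ∈ Finset.range (2 ^ d), e ((c : ℝ) * y)‖ = S at h3 ⊢
  calc S / 2 ^ d * (2 * 2 ^ d * |y|) = S * (2 * |y|) := by
        field_simp
    _ ≤ 1 := h3

theorem norm_av_le_one (d : ℕ) (β : ℝ) :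
    ‖ExC (fun c : Fin (2 ^ d) => e ((c : ℕ) * β))‖ ≤ 1 := by
  refine (norm_ExC_le _).trans ?_
  simp only [norm_e]
  rw [Ex_const]

/-! ### products -/

theorem e_sum {ι : Type} (S : Finset ι) (f : ι → ℝ) :
    e (∑ j ∈ S, f j) = ∏ j ∈ S, e (f j) := by
  classical
  induction S using Finset.induction_on with
  | empty => rw [Finset.sum_empty, Finset.prod_empty, e_zero]
  | insert i S hi ih => rw [Finset.sum_insert hi, Finset.prod_insert hi, e_add, ih]

theorem ExC_prod {ι S : Type} [Fintype ι] [DecidableEq ι] [Fintype S] (F : ι → S → ℂ) :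
    ExC (fun h : ι → S => ∏ j, F j (h j)) = ∏ j, ExC (F j) := by
  unfold ExC
  rw [Finset.prod_div_distrib, Finset.prod_univ_sum, Fintype.piFinset_univ, Finset.prod_const,
    Finset.card_univ, Fintype.card_fun, Nat.cast_pow]

theorem ExC_update {s : ℕ} {S : Type} [Fintype S] [Nonempty S] (i₀ : Fin s)
    (f : (Fin s → S) → ℂ) :
    ExC f = ExC (fun z : Fin s → S => ExC (fun c : S => f (Function.update z i₀ c))) := by
  have hc : (Fintype.card S : ℂ) ≠ 0 := by exact_mod_cast Fintype.card_ne_zero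
  have h2 : ∑ z : Fin s → S, ∑ c : S, f (Function.update z i₀ c) =
      (Fintype.card S : ℂ) * ∑ z, f z := by
    rw [← Finset.sum_product', Finset.mul_sum]
    have h3 : ∀ z : Fin s → S, (Fintype.card S : ℂ) * f z = ∑ c : S, f z := by
      intro z; simp
    simp only [h3]
    rw [← Finset.sum_product']
    refine Finset.sum_bij' (fun p _ => (Function.update p.1 i₀ p.2, p.1 i₀))
      (fun p _ => (Function.update p.1 i₀ p.2, p.1 i₀)) ?_ ?_ ?_ ?_ ?_
    · intro p _; simp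
    · intro p _; simp
    · intro p _; simp
    · intro p _; simp
    · intro p _; rfl
  rw [ExC, ExC]
  simp only [ExC, ← Finset.sum_div]
  rw [h2, mul_comm, mul_div_assoc, div_self hc, mul_one]

/-! ### the slot outside `V` -/

section slot

variable {s q d : ℕ}

/-- the product of the multiplier and the slots other than `i₀` -/
noncomputable def RR (q d : ℕ) (M : 𝓞 K) (v g : Fin s → 𝓞 K) (i₀ : Fin s)
    (y : Fin s → JJ K → Fin (2 ^ d)) : 𝓞 K :=
  M * ∏ i ∈ Finset.univ.erase i₀, zz q d (v i) (g i) (y i)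

theorem prod_update (M : 𝓞 K) (v g : Fin s → 𝓞 K) (y : Fin s → JJ K → Fin (2 ^ d)) (i₀ : Fin s)
    (c : JJ K → Fin (2 ^ d)) :
    M * ∏ i, zz q d (v i) (g i) (Function.update y i₀ c i) =
      RR q d M v g i₀ y * (v i₀ + (q : 𝓞 K) * ((2 : 𝓞 K) ^ d * g i₀)) +
        (q : 𝓞 K) * (RR q d M v g i₀ y * el (fun j => ((c j : ℕ) : ℤ))) := by
  rw [← Finset.mul_prod_erase Finset.univ _ (Finset.mem_univ i₀)]
  have h1 : ∏ i ∈ Finset.univ.erase i₀, zz q d (v i) (g i) (Function.update y i₀ c i) =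
      ∏ i ∈ Finset.univ.erase i₀, zz q d (v i) (g i) (y i) := by
    refine Finset.prod_congr rfl fun i hi => ?_
    rw [Function.update_of_ne (Finset.ne_of_mem_erase hi)]
  have h2 : el (K := K) (fun j => ((c j : ℕ) : ℤ)) = ∑ j, (((c j : ℕ) : 𝓞 K)) * om K j := by
    unfold el
    refine Finset.sum_congr rfl fun j _ => ?_
    rw [Int.cast_natCast]
  rw [h1, h2, RR, zz, Function.update_self]
  ring

theorem ff_update (hq : 0 < q) (M : 𝓞 K) (v g : Fin s → 𝓞 K) (y : Fin s → JJ K → Fin (2 ^ d))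
    (i₀ : Fin s) (c : JJ K → Fin (2 ^ d)) :
    ff q d M v g (Function.update y i₀ c) =
      ((RR q d M v g i₀ y * (v i₀ + (q : 𝓞 K) * ((2 : 𝓞 K) ^ d * g i₀)) - M * ∏ i, v i : 𝓞 K) : K) /
        (q : K) + (RR q d M v g i₀ y : K) * (el (fun j => ((c j : ℕ) : ℤ)) : K) := by
  have hq0 : (q : K) ≠ 0 := Nat.cast_ne_zero.2 hq.ne'
  unfold ff
  rw [prod_update]
  rw [div_add' _ _ _ hq0]
  congr 1
  push_cast
  ring

theorem norm_inner (hq : 0 < q) (M : 𝓞 K) (v g : Fin s → 𝓞 K) (α : K)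
    (y : Fin s → JJ K → Fin (2 ^ d)) (i₀ : Fin s) :
    ‖ExC (fun c : JJ K → Fin (2 ^ d) => psi (α * ff q d M v g (Function.update y i₀ c)))‖ =
      ∏ j, ‖ExC (fun c : Fin (2 ^ d) =>
        e ((c : ℕ) * tr (α * (RR q d M v g i₀ y : K) * (om K j : K))))‖ := by
  have h1 : ∀ c : JJ K → Fin (2 ^ d),
      psi (α * ff q d M v g (Function.update y i₀ c)) =
      psi (α * (((RR q d M v g i₀ y * (v i₀ + (q : 𝓞 K) * ((2 : 𝓞 K) ^ d * g i₀)) -
        M * ∏ i, v i : 𝓞 K) : K) / (q : K))) *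
        ∏ j, e ((c j : ℕ) * tr (α * (RR q d M v g i₀ y : K) * (om K j : K))) := by
    intro c
    rw [ff_update hq, mul_add, psi_add, ← mul_assoc α]
    congr 1
    rw [psi, tr_mul_el, e_sum]
    refine Finset.prod_congr rfl fun j _ => ?_
    rw [Int.cast_natCast, mul_comm]
  rw [show (fun c : JJ K → Fin (2 ^ d) => psi (α * ff q d M v g (Function.update y i₀ c))) = _
    from funext h1]
  rw [ExC_mul_left, norm_mul, norm_psi, one_mul,
    ExC_prod (fun (j : JJ K) (c : Fin (2 ^ d)) =>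
      e ((c : ℕ) * tr (α * (RR q d M v g i₀ y : K) * (om K j : K)))), norm_prod]

/-- step (1) -/
theorem Ex_TT_le (hq : 0 < q) (M : 𝓞 K) (v g : Fin s → 𝓞 K) (α : K) (V : Finset (Fin s))
    (i₀ : Fin s) (hi : i₀ ∉ V) :
    Ex (fun z : Fin s → JJ K → Fin (2 ^ d) => ‖TT q d M v g α V z‖) ≤
      Ex (fun y : Fin s → JJ K → Fin (2 ^ d) =>
        ∏ j, ‖ExC (fun c : Fin (2 ^ d) =>
          e ((c : ℕ) * tr (α * (RR q d M v g i₀ y : K) * (om K j : K))))‖) := by
  have hpw := Ex_pw (σ := Fin s) (S := JJ K → Fin (2 ^ d)) V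
    (fun y : Fin s → JJ K → Fin (2 ^ d) =>
      ∏ j, ‖ExC (fun c : Fin (2 ^ d) =>
        e ((c : ℕ) * tr (α * (RR q d M v g i₀ y : K) * (om K j : K))))‖)
  rw [← hpw]
  refine Ex_mono fun z => ?_
  rw [TT, ExC_update i₀]
  refine (norm_ExC_le _).trans (Ex_mono fun z' => ?_)
  have h0 : ∀ c : JJ K → Fin (2 ^ d),
      V.piecewise z (Function.update z' i₀ c) = Function.update (V.piecewise z z') i₀ c := by
    intro c
    funext i
    by_cases h : i = i₀
    · subst h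
      simp [Finset.piecewise, hi]
    · by_cases hV : i ∈ V <;> simp [Finset.piecewise, hV, h]
  simp only [h0]
  exact le_of_eq (norm_inner hq M v g α (V.piecewise z z') i₀)

end slot

/-- the error of the linear form -/
theorem err {c : ℕ} (hc : Cst K c) {κ q e₀ γ μ s : ℕ} (hQ : QOK κ q e₀ γ) (M : 𝓞 K)
    (hM : ∀ w : InfinitePlace K, w (M : K) ≤ 2 ^ μ) {d : ℕ} {v g : Fin s → 𝓞 K}
    (hv : ∀ i, SlotOK c q γ (v i) (g i)) (i₀ : Fin s) (η : K) (m : ℕ)
    (hη : ∀ w : InfinitePlace K, w η ≤ 2 ^ m / (TL c s μ e₀ d : ℝ))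
    (y : Fin s → JJ K → Fin (2 ^ d)) (j : JJ K) :
    |tr (η * (RR q d M v g i₀ y : K) * (om K j : K))| ≤ 2 ^ m / 2 ^ d / 16 := by
  have hs : 1 ≤ s := Nat.one_le_iff_ne_zero.2 (by rintro rfl; exact i₀.elim0)
  have h1 : ∀ w : InfinitePlace K, w (η * (RR q d M v g i₀ y : K)) ≤
      2 ^ m / 2 ^ d / 2 ^ (2 * c + 4) := by
    intro w
    have h2 := prod_zz_le hc hQ hv y (Finset.univ.erase i₀) w
    rw [Finset.card_erase_of_mem (Finset.mem_univ _), Finset.card_univ, Fintype.card_fin] at h2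
    have h3 : w (RR q d M v g i₀ y : K) ≤ 2 ^ μ * 2 ^ ((s - 1) * (d + e₀)) := by
      unfold RR
      push_cast
      push_cast at h2
      rw [map_mul]
      exact mul_le_mul (hM w) h2 (apply_nonneg _ _) (by positivity)
    rw [map_mul]
    refine (mul_le_mul (hη w) h3 (apply_nonneg _ _) (by positivity)).trans ?_
    have h4 : (TL c s μ e₀ d : ℝ) =
        2 ^ μ * 2 ^ ((s - 1) * (d + e₀)) * 2 ^ (d + e₀) * 2 ^ (2 * c + 4) := by
      unfold TL TE
      push_cast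
      rw [← pow_add, ← pow_add, ← pow_add]
      congr 1
      have h5 : s * (d + e₀) = (s - 1) * (d + e₀) + (d + e₀) := by
        obtain ⟨t, rfl⟩ := Nat.exists_eq_add_of_le hs
        rw [Nat.add_sub_cancel_left]
        ring
      rw [h5]
      ring
    rw [h4]
    have h6 : (2 : ℝ) ^ d ≤ 2 ^ (d + e₀) := pow_le_pow_right₀ (by norm_num) (by omega)
    have h7 : (2 : ℝ) ^ m / (2 ^ μ * 2 ^ ((s - 1) * (d + e₀)) * 2 ^ (d + e₀) * 2 ^ (2 * c + 4)) *
        (2 ^ μ * 2 ^ ((s - 1) * (d + e₀))) = 2 ^ m / 2 ^ (d + e₀) / 2 ^ (2 * c + 4) := by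
      field_simp
    rw [h7]
    gcongr
  have h8 := hc.tr_le _ _ h1 j
  refine h8.trans ?_
  have h9 : (2 : ℝ) ^ (2 * c + 4) = 2 ^ c * 2 ^ c * 16 := by
    rw [pow_add, two_mul, pow_add]
    norm_num
  rw [h9]
  have h10 : (1 : ℝ) ≤ 2 ^ c := one_le_pow₀ (by norm_num)
  have h11 : (2 : ℝ) ^ c * (2 ^ m / 2 ^ d / (2 ^ c * 2 ^ c * 16)) = 2 ^ m / 2 ^ d / 16 / 2 ^ c := by
    field_simp
  rw [h11]
  exact div_le_self (by positivity) h10

theorem tr_split (α β x y : K) : tr (α * x * y) = tr (β * x * y) + tr ((α - β) * x * y) := by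
  rw [← tr_add]
  congr 1
  ring

/-- the pointwise bound -/
theorem pointwise {s q d m : ℕ} {M : 𝓞 K} {v g : Fin s → 𝓞 K} (i₀ : Fin s) (α β : K)
    (hm : m ≤ d / 4) (hden : (den β).absNorm ≤ 2 ^ m) (y : Fin s → JJ K → Fin (2 ^ d))
    (herr : ∀ j, |tr ((α - β) * (RR q d M v g i₀ y : K) * (om K j : K))| ≤ 2 ^ m / 2 ^ d / 16)
    [Decidable (RR q d M v g i₀ y ∈ den β)] :
    ∏ j, ‖ExC (fun c : Fin (2 ^ d) =>
        e ((c : ℕ) * tr (α * (RR q d M v g i₀ y : K) * (om K j : K))))‖ ≤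
      (if RR q d M v g i₀ y ∈ den β then fR d (RR q d M v g i₀ y) (α - β) else 0) +
        2 ^ m / 2 ^ d := by
  set R := RR q d M v g i₀ y with hR
  have hd0 : (0 : ℝ) < 2 ^ d := by positivity
  have hm0 : (0 : ℝ) < 2 ^ m := by positivity
  have hmd : (2 : ℝ) ^ m / 2 ^ d ≤ 1 / 2 ^ m := by
    rw [div_le_div_iff₀ hd0 hm0, one_mul, ← pow_add]
    exact pow_le_pow_right₀ (by norm_num) (by omega)
  have hm1 : (1 : ℝ) ≤ 2 ^ m := one_le_pow₀ (by norm_num)
  have hmd1 : (1 : ℝ) / 2 ^ m ≤ 1 := by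
    rw [div_le_one hm0]
    exact hm1
  split_ifs with h
  · have h0 : (0 : ℝ) ≤ 2 ^ m / 2 ^ d := by positivity
    refine le_trans ?_ (le_add_of_nonneg_right h0)
    unfold fR
    refine Finset.prod_le_prod (fun j _ => norm_nonneg _) fun j _ => ?_
    obtain ⟨n, hn⟩ := tr_mem_DD ((mem_den β R).1 h) (om K j)
    have hn' : tr (β * (R : K) * (om K j : K)) = n := by
      rw [← hn]
      congr 1
      ring
    have h1 := tr_split α β (R : K) (om K j : K)
    rw [hn'] at h1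
    have h2 : |tr ((α - β) * (R : K) * (om K j : K))| ≤ 1 / 2 := (herr j).trans (by linarith)
    have h3 := norm_av d h1 h2
    have h4 := norm_av_le_one d (tr (α * (R : K) * (om K j : K)))
    have h5 : 0 < max 1 ((2 : ℝ) ^ d * |tr ((α - β) * (R : K) * (om K j : K))|) :=
      lt_of_lt_of_le zero_lt_one (le_max_left _ _)
    rw [← one_div, le_div_iff₀ h5]
    have h6 := norm_nonneg (ExC (fun c : Fin (2 ^ d) =>
      e ((c : ℕ) * tr (α * (R : K) * (om K j : K)))))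
    rcases max_choice 1 ((2 : ℝ) ^ d * |tr ((α - β) * (R : K) * (om K j : K))|) with h7 | h7
    · rw [h7, mul_one]
      exact h4
    · rw [h7]
      have h8 : 0 ≤ ‖ExC (fun c : Fin (2 ^ d) =>
          e ((c : ℕ) * tr (α * (R : K) * (om K j : K))))‖ *
            (2 ^ d * |tr ((α - β) * (R : K) * (om K j : K))|) := by positivity
      linarith
  · rw [zero_add]
    have h1 : (R : K) * β ∉ DD K := fun h' => h ((mem_den β R).2 h')
    rw [mem_DD_iff] at h1
    push Not at h1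
    obtain ⟨j, hj⟩ := h1
    set t := tr ((R : K) * β * (om K j : K)) with ht
    -- the denominator
    set n := (den β).absNorm with hn
    have hn0 : 0 < n := Nat.pos_of_ne_zero (by
      rw [hn, Ne, Ideal.absNorm_eq_zero_iff]
      exact den_ne_bot β)
    have hn1 : (n : 𝓞 K) ∈ den β := Ideal.absNorm_mem _
    obtain ⟨k, hk⟩ := tr_mem_DD ((mem_den β _).1 hn1) (R * om K j)
    have hk' : (n : ℝ) * t = k := by
      rw [← hk, ht]
      have h2 : (((n : 𝓞 K) : K) * β * ((R * om K j : 𝓞 K) : K)) =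
          ((n : ℚ)) • ((R : K) * β * (om K j : K)) := by
        rw [Algebra.smul_def]
        push_cast
        ring
      rw [h2, tr, tr, map_smul, smul_eq_mul]
      push_cast
      rfl
    have hn' : (n : ℝ) ≤ 2 ^ m := by exact_mod_cast hden
    have hn0' : (0 : ℝ) < n := by exact_mod_cast hn0
    -- the distance from the integers
    set τ := tr (α * (R : K) * (om K j : K)) with hτ
    have h3 := norm_av d (β := τ) (y := τ - round τ) (n := round τ) (by ring) (abs_sub_round τ)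
    have h4 : (1 : ℝ) ≤ |(k : ℝ) - n * round τ| := by
      have h5 : (k : ℤ) - n * round τ ≠ 0 := by
        intro h6
        apply hj (round τ)
        have h7 : (k : ℝ) = n * round τ := by
          have h8 : (k : ℤ) = n * round τ := by linarith
          exact_mod_cast h8
        rw [← hk'] at h7
        exact mul_left_cancel₀ hn0'.ne' h7
      have h6 := Int.one_le_abs h5
      exact_mod_cast h6
    have h5 : τ = t + tr ((α - β) * (R : K) * (om K j : K)) := by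
      rw [hτ, ht, tr_split α β]
      congr 2
      ring
    have h6 := herr j
    set η := tr ((α - β) * (R : K) * (om K j : K)) with hη
    have h7 : (k : ℝ) - n * round τ = n * ((τ - round τ) - η) := by
      rw [← hk']
      linarith [congrArg (fun x => (n : ℝ) * x) h5]
    have h8 : (1 : ℝ) ≤ 2 ^ m * (|τ - round τ| + |η|) := by
      calc (1 : ℝ) ≤ |(k : ℝ) - n * round τ| := h4
        _ = n * |(τ - round τ) - η| := by rw [h7, abs_mul, abs_of_pos hn0']
        _ ≤ 2 ^ m * (|τ - round τ| + |η|) :=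
            mul_le_mul hn' (abs_sub _ _) (abs_nonneg _) hm0.le
    have h9 : 2 ^ m * |η| ≤ 1 / 16 := by
      have h10 : |η| ≤ 1 / 2 ^ m / 16 := h6.trans (by linarith)
      calc (2 : ℝ) ^ m * |η| ≤ 2 ^ m * (1 / 2 ^ m / 16) := mul_le_mul_of_nonneg_left h10 hm0.le
        _ = 1 / 16 := by field_simp
    have h10 : (1 : ℝ) / 2 ≤ 2 ^ m * |τ - round τ| := by linarith
    have h11 := norm_nonneg (ExC (fun c : Fin (2 ^ d) => e ((c : ℕ) * τ)))
    have h12 : ‖ExC (fun c : Fin (2 ^ d) => e ((c : ℕ) * τ))‖ ≤ 2 ^ m / 2 ^ d := by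
      rw [le_div_iff₀ hd0]
      generalize ‖ExC (fun c : Fin (2 ^ d) => e ((c : ℕ) * τ))‖ = S at h3 h11
      have h13 : S * (2 * 2 ^ d) * (2 ^ m * |τ - round τ|) ≤ 2 ^ m := by
        calc S * (2 * 2 ^ d) * (2 ^ m * |τ - round τ|) =
              2 ^ m * (S * (2 * 2 ^ d * |τ - round τ|)) := by ring
          _ ≤ 2 ^ m * 1 := mul_le_mul_of_nonneg_left h3 hm0.le
          _ = 2 ^ m := mul_one _
      have h14 : S * (2 * 2 ^ d) * (1 / 2) ≤ S * (2 * 2 ^ d) * (2 ^ m * |τ - round τ|) :=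
        mul_le_mul_of_nonneg_left h10 (by positivity)
      linarith
    rw [← Finset.mul_prod_erase Finset.univ _ (Finset.mem_univ j)]
    calc _ ≤ ‖ExC (fun c : Fin (2 ^ d) => e ((c : ℕ) * τ))‖ * 1 := by
          refine mul_le_mul_of_nonneg_left ?_ h11
          exact Finset.prod_le_one (fun i _ => norm_nonneg _) fun i _ => norm_av_le_one d _
      _ ≤ 2 ^ m / 2 ^ d := by rw [mul_one]; exact h12

end MajAN

open Classical in
/-- [MAJA] -/
theorem majA {c : ℕ} (hc : Cst K c) {κ q e₀ γ μ s : ℕ} (hQ : QOK κ q e₀ γ) (M : 𝓞 K)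
    (hM1 : ∀ w : InfinitePlace K, 1 ≤ w (M : K))
    (hM : ∀ w : InfinitePlace K, w (M : K) ≤ 2 ^ μ) :
    ∃ C : ℕ, ∀ d : ℕ, C ≤ d → ∀ v g : Fin s → 𝓞 K, (∀ i, SlotOK c q γ (v i) (g i)) →
    ∀ (V : Finset (Fin s)) (i₀ : Fin s), i₀ ∉ V → ∀ (α β : K) (m : ℕ), m ≤ d / 4 →
    (den β).absNorm ≤ 2 ^ m → (∀ w : InfinitePlace K, w (α - β) ≤ 2 ^ m / (TL c s μ e₀ d : ℝ)) →
    Ex (fun z : Fin s → JJ K → Fin (2 ^ d) => ‖TT q d M v g α V z‖) ≤
      Ex (fun z : Fin s → JJ K → Fin (2 ^ d) =>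
        if M * ∏ i ∈ Finset.univ.erase i₀, zz q d (v i) (g i) (z i) ∈ den β
        then fR d (M * ∏ i ∈ Finset.univ.erase i₀, zz q d (v i) (g i) (z i)) (α - β) else 0) +
      2 ^ C * 2 ^ m / 2 ^ d := by
  refine ⟨0, fun d _ v g hv V i₀ hi α β m hm hden hη => ?_⟩
  refine (MajAN.Ex_TT_le hQ.qpos M v g α V i₀ hi).trans ?_
  have h1 : (2 : ℝ) ^ 0 * 2 ^ m / 2 ^ d =
      Ex (fun _ : Fin s → JJ K → Fin (2 ^ d) => (2 : ℝ) ^ m / 2 ^ d) := by
    rw [Pool.Agent.H366.GF.Ex_const, pow_zero, one_mul]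
  rw [h1, ← Pool.Agent.H366.GF.Ex_add]
  refine Pool.Agent.H366.GF.Ex_mono fun y => ?_
  exact MajAN.pointwise (M := M) (v := v) (g := g) i₀ α β hm hden y
    (fun j => MajAN.err hc hQ M hM hv i₀ (α - β) m hη y j)

end Pool.Agent.H366.NK
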