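import Pool.Agent.H366.NK.MajA
import Pool.Agent.H366.NK.Pack

/-! # [MAJB] the sum over the frequencies close to a fraction -/

set_option autoImplicit false

namespace Pool.Agent.H366.NK

open NumberField
open Pool.Agent.H366.GF (Ex ExC)
open Pool.Agent.H366.ZC (e)

variable {K : Type} [Field K] [NumberField K]

namespace MajBN

/-- the majorant in the cell `m` -/
noncomputable def f (m : ℤ) : ℝ := ((max 1 (|(m : ℝ)| - 1)) ^ 3)⁻¹

lemma f_nonneg (m : ℤ) : 0 ≤ f m := by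
  unfold f
  positivity

lemma f_le (n : ℕ) : ((max 1 ((n : ℝ) - 1)) ^ 3)⁻¹ ≤ 9 * (1 / ((n + 1 : ℕ) : ℝ) ^ 2) := by
  have h1 : (1 : ℝ) ≤ max 1 ((n : ℝ) - 1) := le_max_left _ _
  have h2 : ((n : ℝ) + 1) ≤ 3 * max 1 ((n : ℝ) - 1) := by
    rcases le_or_gt 2 (n : ℝ) with h | h
    · have := le_max_right 1 ((n : ℝ) - 1)
      linarith
    · linarith
  have h3 : (0 : ℝ) < (n : ℝ) + 1 := by positivity
  have h4 : ((n : ℝ) + 1) ^ 2 ≤ 9 * (max 1 ((n : ℝ) - 1)) ^ 3 := by
    calc ((n : ℝ) + 1) ^ 2 ≤ (3 * max 1 ((n : ℝ) - 1)) ^ 2 := pow_le_pow_left₀ h3.le h2 2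
      _ = 9 * (max 1 ((n : ℝ) - 1)) ^ 2 := by ring
      _ ≤ 9 * (max 1 ((n : ℝ) - 1)) ^ 3 := by
          refine mul_le_mul_of_nonneg_left ?_ (by norm_num)
          exact pow_le_pow_right₀ h1 (by norm_num)
  push_cast
  rw [mul_one_div, inv_eq_one_div, div_le_div_iff₀ (by positivity) (by positivity)]
  linarith

lemma summable_f : Summable f := by
  have h0 : Summable fun n : ℕ => 9 * (1 / ((n + 1 : ℕ) : ℝ) ^ 2) :=
    ((summable_nat_add_iff (f := fun n : ℕ => 1 / (n : ℝ) ^ 2) 1).2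
      (Real.summable_one_div_nat_pow.2 (by norm_num))).mul_left 9
  rw [summable_int_iff_summable_nat_and_neg]
  constructor
  · refine Summable.of_nonneg_of_le (fun n => f_nonneg _) (fun n => ?_) h0
    have := f_le n
    simpa [f] using this
  · refine Summable.of_nonneg_of_le (fun n => f_nonneg _) (fun n => ?_) h0
    have := f_le n
    simpa [f] using this

lemma f_cell (y : ℝ) : ((max 1 |y|)⁻¹) ^ 3 ≤ f ⌊y⌋ := by
  unfold f
  rw [inv_pow]
  refine inv_anti₀ (by positivity) ?_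
  refine pow_le_pow_left₀ (by positivity) ?_ 3
  refine max_le_max le_rfl ?_
  have h1 := Int.floor_le y
  have h2 := Int.lt_floor_add_one y
  have h3 : |(⌊y⌋ : ℝ)| ≤ |y| + 1 := by
    rw [abs_le]
    constructor
    · have := neg_abs_le y
      linarith
    · have := le_abs_self y
      linarith
  linarith

/-- the cell of `η` -/
noncomputable def cell (d : ℕ) (R : 𝓞 K) (η : K) : JJ K → ℤ :=
  fun j => ⌊(2 : ℝ) ^ d * tr (η * (R : K) * (om K j : K))⌋

lemma fR_cell (d : ℕ) (R : 𝓞 K) (η : K) : fR d R η ^ 3 ≤ ∏ j, f (cell d R η j) := by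
  unfold fR
  rw [← Finset.prod_pow]
  refine Finset.prod_le_prod (fun j _ => by positivity) fun j _ => ?_
  have h := f_cell ((2 : ℝ) ^ d * tr (η * (R : K) * (om K j : K)))
  rw [abs_mul, abs_of_pos (by positivity : (0 : ℝ) < 2 ^ d)] at h
  exact h

omit [NumberField K] in
lemma place_natCast (w : InfinitePlace K) (n : ℕ) : w (n : K) = n := by
  rw [← w.norm_embedding_eq, map_natCast, Complex.norm_natCast]

/-- the number of points in one cell -/
lemma card_cell {c : ℕ} (hc : Cst K c) : ∃ C : ℕ, ∀ (T d : ℕ) (R : 𝓞 K), 0 < T → R ≠ 0 →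
    (∀ w : InfinitePlace K, 2 ^ d * w (R : K) ≤ T) → ∀ B : Finset K,
    (∀ x ∈ B, ∀ y ∈ B, (T : K) * (x - y) ∈ DD K) →
    (∀ x ∈ B, ∀ y ∈ B, cell d R x = cell d R y) →
    (B.card : ℝ) ≤ 2 ^ C * (T : ℝ) ^ DK K / (2 ^ (d * DK K) * nm (R : K)) := by
  classical
  obtain ⟨C, hC⟩ := pack_DD K
  refine ⟨C + c * DK K, fun T d R hT hR hw B hB hcell => ?_⟩
  have hT0 : (T : K) ≠ 0 := by exact_mod_cast hT.ne'
  have hTr : (0 : ℝ) < T := by exact_mod_cast hT
  have hRK : (R : K) ≠ 0 := by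
    intro h
    exact hR (by exact_mod_cast h)
  have hR0 : ∀ w : InfinitePlace K, 0 < w (R : K) := fun w => w.pos_iff.2 hRK
  set b : InfinitePlace K → ℝ := fun w => 2 ^ c * T / (2 ^ d * w (R : K)) with hb
  have hb1 : ∀ w, 1 ≤ b w := by
    intro w
    rw [hb]
    show (1 : ℝ) ≤ 2 ^ c * T / (2 ^ d * w (R : K))
    rw [one_le_div (by have := hR0 w; positivity)]
    have h1 : (1 : ℝ) ≤ 2 ^ c := one_le_pow₀ (by norm_num)
    have h2 := hw w
    nlinarith
  have hinj : Function.Injective fun η : K => (T : K) * η := mul_right_injective₀ hT0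
  have h1 := hC b hb1 (B.image fun η : K => (T : K) * η) (by
    intro x hx y hy
    rw [Finset.mem_image] at hx hy
    obtain ⟨x, hx, rfl⟩ := hx
    obtain ⟨y, hy, rfl⟩ := hy
    rw [← mul_sub]
    refine ⟨hB x hx y hy, fun w => ?_⟩
    have h2 : ∀ j, |tr ((x - y) * (R : K) * (om K j : K))| ≤ 1 / 2 ^ d := by
      intro j
      have h3 := congrFun (hcell x hx y hy) j
      unfold cell at h3
      have h4 := Int.abs_sub_lt_one_of_floor_eq_floor h3
      rw [← mul_sub, ← tr_sub, ← sub_mul, ← sub_mul, abs_mul,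
        abs_of_pos (by positivity : (0 : ℝ) < 2 ^ d)] at h4
      rw [le_div_iff₀ (by positivity), mul_comm]
      exact h4.le
    have h5 := hc.place_le_tr ((x - y) * (R : K)) (1 / 2 ^ d) h2 w
    rw [map_mul] at h5
    rw [map_mul, place_natCast]
    show (T : ℝ) * w (x - y) ≤ 2 ^ c * T / (2 ^ d * w (R : K))
    have h6 := hR0 w
    rw [le_div_iff₀ (by positivity)]
    rw [mul_one_div, le_div_iff₀ (by positivity)] at h5
    calc (T : ℝ) * w (x - y) * (2 ^ d * w (R : K)) = T * (w (x - y) * w (R : K) * 2 ^ d) := by ring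
      _ ≤ T * 2 ^ c := mul_le_mul_of_nonneg_left h5 hTr.le
      _ = 2 ^ c * T := by ring)
  rw [Finset.card_image_of_injective _ hinj] at h1
  refine h1.trans (le_of_eq ?_)
  have h7 : ∏ w : InfinitePlace K, b w ^ w.mult =
      (2 ^ c * T / 2 ^ d) ^ DK K / nm (R : K) := by
    rw [nm_eq_prod, ← sum_mult K, ← Finset.prod_pow_eq_pow_sum, ← Finset.prod_div_distrib]
    refine Finset.prod_congr rfl fun w _ => ?_
    rw [← div_pow, hb]
    congr 1
    rw [div_div]
  rw [h7, div_pow, mul_pow, pow_add, ← pow_mul, ← pow_mul]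
  have h8 : nm (R : K) ≠ 0 := by
    have := one_le_nm hR
    positivity
  field_simp

end MajBN

open MajBN in
/-- [MAJB] -/
theorem majB {c : ℕ} (hc : Cst K c) : ∃ C : ℕ, ∀ (T d : ℕ) (R : 𝓞 K), 0 < T → R ≠ 0 →
    (∀ w : InfinitePlace K, 2 ^ d * w (R : K) ≤ T) → ∀ A : Finset K,
    (∀ x ∈ A, ∀ y ∈ A, (T : K) * (x - y) ∈ DD K) →
    ∑ η ∈ A, fR d R η ^ 3 ≤ 2 ^ C * (T : ℝ) ^ DK K / (2 ^ (d * DK K) * nm (R : K)) := by
  classical
  obtain ⟨C, hC⟩ := card_cell hc
  obtain ⟨C', hC'⟩ := pow_unbounded_of_one_lt ((∑' m, f m) ^ DK K) (one_lt_two (α := ℝ))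
  refine ⟨C + C', fun T d R hT hR hw A hA => ?_⟩
  set B : ℝ := 2 ^ C * (T : ℝ) ^ DK K / (2 ^ (d * DK K) * nm (R : K)) with hB
  have hnm : 0 < nm (R : K) := lt_of_lt_of_le one_pos (one_le_nm hR)
  have hB0 : 0 ≤ B := by rw [hB]; positivity
  set F : Finset ℤ := Finset.univ.biUnion fun j : JJ K => A.image fun η => cell d R η j with hF
  have hmaps : ∀ η ∈ A, cell d R η ∈ Fintype.piFinset fun _ : JJ K => F := by
    intro η hη
    rw [Fintype.mem_piFinset]
    intro j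
    rw [hF, Finset.mem_biUnion]
    exact ⟨j, Finset.mem_univ _, Finset.mem_image.2 ⟨η, hη, rfl⟩⟩
  rw [← Finset.sum_fiberwise_of_maps_to hmaps]
  have h1 : ∀ m ∈ Fintype.piFinset fun _ : JJ K => F,
      ∑ η ∈ A with cell d R η = m, fR d R η ^ 3 ≤ B * ∏ j, f (m j) := by
    intro m _
    have h2 : ((A.filter fun η => cell d R η = m).card : ℝ) ≤ B := by
      refine hC T d R hT hR hw _ (fun x hx y hy => ?_) fun x hx y hy => ?_
      · exact hA x (Finset.mem_filter.1 hx).1 y (Finset.mem_filter.1 hy).1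
      · rw [(Finset.mem_filter.1 hx).2, (Finset.mem_filter.1 hy).2]
    calc ∑ η ∈ A with cell d R η = m, fR d R η ^ 3
        ≤ ((A.filter fun η => cell d R η = m).card : ℝ) * ∏ j, f (m j) := by
          rw [← nsmul_eq_mul]
          refine Finset.sum_le_card_nsmul _ _ _ fun η hη => ?_
          have := fR_cell d R η
          rwa [(Finset.mem_filter.1 hη).2] at this
      _ ≤ B * ∏ j, f (m j) :=
          mul_le_mul_of_nonneg_right h2 (Finset.prod_nonneg fun j _ => f_nonneg _)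
  refine (Finset.sum_le_sum h1).trans ?_
  rw [← Finset.mul_sum, ← Finset.prod_univ_sum]
  have h3 : ∏ _j : JJ K, ∑ m ∈ F, f m ≤ (∑' m, f m) ^ DK K := by
    rw [Finset.prod_const, Finset.card_univ]
    exact pow_le_pow_left₀ (Finset.sum_nonneg fun m _ => f_nonneg m)
      (summable_f.sum_le_tsum F fun m _ => f_nonneg m) _
  calc B * ∏ _j : JJ K, ∑ m ∈ F, f m ≤ B * 2 ^ C' :=
        mul_le_mul_of_nonneg_left (h3.trans hC'.le) hB0
    _ = 2 ^ (C + C') * (T : ℝ) ^ DK K / (2 ^ (d * DK K) * nm (R : K)) := by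
        rw [hB, pow_add]
        ring

end Pool.Agent.H366.NK
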