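import Pool.Agent.H366.NK.Rho

/-! # [RSN] the smooth weights, averaged over one slot -/

set_option autoImplicit false

namespace Pool.Agent.H366.NK

open NumberField
open NumberField.mixedEmbedding (mixedSpace normAtPlace)
open Pool.Agent.H366.GF (Ex ExC)

variable {K : Type} [Field K] [NumberField K]

namespace RSNN

lemma w_sub (w : InfinitePlace K) (a b : K) : w (a - b) ≤ w a + w b := by
  rw [sub_eq_add_neg]
  refine (Base3N.w_add w _ _).trans ?_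
  rw [Base3N.w_neg]

lemma w_nonneg (w : InfinitePlace K) (a : K) : 0 ≤ w a := apply_nonneg w a

/-! ### lattice points in a parallelepiped -/

/-- reduction modulo `R` -/
lemma exists_quot {c : ℕ} (hc : Cst K c) {R : 𝓞 K} (hR : R ≠ 0) {ρ : ℝ}
    (hρ : ∀ w : InfinitePlace K, w (R : K) ≤ ρ) (x : 𝓞 K) :
    ∃ H : 𝓞 K, ∀ j, |(((om K).repr (x - R * H) j : ℤ) : ℝ)| ≤ 2 ^ (3 * c) * ρ := by
  classical
  have hR0 : (R : K) ≠ 0 := by
    intro h
    exact hR (by exact_mod_cast h)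
  set a : JJ K → ℚ := fun j => (integralBasis K).repr ((x : K) / (R : K)) j with ha
  have hxi : (x : K) / (R : K) = ∑ j, ((a j : ℚ) : K) * (om K j : K) := by
    conv_lhs => rw [← (integralBasis K).sum_repr ((x : K) / (R : K))]
    refine Finset.sum_congr rfl fun j _ => ?_
    rw [integralBasis_apply, Rat.smul_def]
  refine ⟨el fun j => ⌊a j⌋, ?_⟩
  have hH : ((el fun j => ⌊a j⌋ : 𝓞 K) : K) = ∑ j, ((⌊a j⌋ : ℤ) : K) * (om K j : K) := by
    rw [Base2N.coe_sum_om]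
    refine Finset.sum_congr rfl fun j _ => ?_
    rw [repr_el]
  have e1 : ((x - R * (el fun j => ⌊a j⌋ : 𝓞 K) : 𝓞 K) : K) =
      (R : K) * ∑ j, ((Int.fract (a j) : ℚ) : K) * (om K j : K) := by
    have e2 : ∑ j, ((Int.fract (a j) : ℚ) : K) * (om K j : K) =
        (x : K) / (R : K) - ∑ j, ((⌊a j⌋ : ℤ) : K) * (om K j : K) := by
      rw [hxi, ← Finset.sum_sub_distrib]
      refine Finset.sum_congr rfl fun j _ => ?_
      rw [← Int.self_sub_floor]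
      push_cast
      ring
    rw [e2, ← hH, mul_sub, mul_div_cancel₀ _ hR0]
    push_cast
    ring
  have hom : ∀ (w : InfinitePlace K) (j : JJ K), w (om K j : K) ≤ 2 ^ c := by
    intro w j
    have := hc.place_le (om K j) 1 (fun i => by
      rw [Module.Basis.repr_self, Finsupp.single_apply]
      split_ifs
      · simp
      · simp) w
    rwa [mul_one] at this
  have hw : ∀ w : InfinitePlace K,
      w ((x - R * (el fun j => ⌊a j⌋ : 𝓞 K) : 𝓞 K) : K) ≤ ρ * (2 ^ c * 2 ^ c) := by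
    intro w
    have hρ0 : 0 ≤ ρ := (w_nonneg w _).trans (hρ w)
    rw [e1, map_mul]
    refine mul_le_mul (hρ w) ?_ (w_nonneg w _) hρ0
    refine (Base2N.place_bound (fun j => (om K j : K)) w (fun j => Int.fract (a j)) 1 ?_).trans ?_
    · intro j
      have h0 : (0 : ℚ) ≤ Int.fract (a j) := Int.fract_nonneg _
      have h1 : Int.fract (a j) < (1 : ℚ) := Int.fract_lt_one _
      have h0' : (0 : ℝ) ≤ ((Int.fract (a j) : ℚ) : ℝ) := by exact_mod_cast h0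
      have h1' : ((Int.fract (a j) : ℚ) : ℝ) ≤ 1 := by exact_mod_cast h1.le
      rw [abs_of_nonneg h0']
      exact h1'
    · rw [mul_one]
      calc ∑ j, w (om K j : K) ≤ ∑ _j : JJ K, (2 : ℝ) ^ c := Finset.sum_le_sum fun j _ => hom w j
        _ = (DK K : ℝ) * 2 ^ c := by rw [Finset.sum_const, Finset.card_univ, nsmul_eq_mul]
        _ ≤ 2 ^ c * 2 ^ c := by
          refine mul_le_mul_of_nonneg_right ?_ (by positivity)
          exact_mod_cast hc.card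
  intro j
  refine (hc.coord_le _ _ hw j).trans (le_of_eq ?_)
  rw [show 3 * c = c + c + c by ring, pow_add, pow_add]
  ring

/-- representatives modulo `R` with small coordinates -/
lemma exists_reps {c : ℕ} (hc : Cst K c) {R : 𝓞 K} (hR : R ≠ 0) {ρ : ℝ}
    (hρ : ∀ w : InfinitePlace K, w (R : K) ≤ ρ) :
    ∃ T : Finset (𝓞 K), (T.card : ℝ) = nm (R : K) ∧
      (∀ t ∈ T, ∀ j, |(((om K).repr t j : ℤ) : ℝ)| ≤ 2 ^ (3 * c) * ρ) ∧
      (∀ t ∈ T, ∀ t' ∈ T, ∀ H : 𝓞 K, t - t' = R * H → t = t') ∧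
      ∀ x : 𝓞 K, ∃ H : 𝓞 K, ∃ t ∈ T, x = R * H + t := by
  classical
  have hbot : Ideal.span {R} ≠ (⊥ : Ideal (𝓞 K)) := by
    rw [Ne, Ideal.span_singleton_eq_bot]
    exact hR
  haveI : Finite (𝓞 K ⧸ Ideal.span {R}) := Ideal.finiteQuotientOfFreeOfNeBot _ hbot
  haveI : Fintype (𝓞 K ⧸ Ideal.span {R}) := Fintype.ofFinite _
  choose q hq using fun x : 𝓞 K => exists_quot hc hR hρ x
  let rep : (𝓞 K ⧸ Ideal.span {R}) → 𝓞 K := fun cl =>
    Quotient.out cl - R * q (Quotient.out cl)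
  have hrep : ∀ cl, Ideal.Quotient.mk (Ideal.span {R}) (rep cl) = cl := by
    intro cl
    have h1 : Ideal.Quotient.mk (Ideal.span {R}) (Quotient.out cl) = cl := Quotient.out_eq cl
    show Ideal.Quotient.mk (Ideal.span {R}) (Quotient.out cl - R * q (Quotient.out cl)) = cl
    rw [map_sub, h1, map_mul]
    have h2 : Ideal.Quotient.mk (Ideal.span {R}) R = 0 :=
      Ideal.Quotient.eq_zero_iff_mem.2 (Ideal.mem_span_singleton_self R)
    rw [h2, zero_mul, sub_zero]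
  have hinj : Function.Injective rep := by
    intro a b hab
    rw [← hrep a, ← hrep b, hab]
  refine ⟨Finset.univ.image rep, ?_, ?_, ?_, ?_⟩
  · rw [Finset.card_image_of_injective _ hinj, Finset.card_univ, ← absNorm_span,
      Ideal.absNorm_apply, Submodule.cardQuot_apply, Nat.card_eq_fintype_card]
  · intro t ht j
    obtain ⟨cl, _, rfl⟩ := Finset.mem_image.1 ht
    exact hq _ j
  · intro t ht t' ht' H hH
    obtain ⟨cl, _, rfl⟩ := Finset.mem_image.1 ht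
    obtain ⟨cl', _, rfl⟩ := Finset.mem_image.1 ht'
    congr 1
    rw [← hrep cl, ← hrep cl', Ideal.Quotient.eq, hH]
    exact Ideal.mul_mem_right _ _ (Ideal.mem_span_singleton_self R)
  · intro x
    have h1 : x - rep (Ideal.Quotient.mk _ x) ∈ Ideal.span {R} := by
      rw [← Ideal.Quotient.eq, hrep]
    obtain ⟨H, hH⟩ := Ideal.mem_span_singleton.1 h1
    refine ⟨H, rep (Ideal.Quotient.mk _ x), Finset.mem_image_of_mem _ (Finset.mem_univ _), ?_⟩
    rw [← hH]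
    ring

/-- the number of integers in an interval -/
lemma card_Icc_le (x δ : ℝ) (hδ : 0 ≤ δ) : ((Finset.Icc ⌈x - δ⌉ ⌊x + δ⌋).card : ℝ) ≤ 2 * δ + 1 := by
  rw [Int.card_Icc]
  rcases le_total 0 (⌊x + δ⌋ + 1 - ⌈x - δ⌉) with h3 | h3
  · have h4 : (((⌊x + δ⌋ + 1 - ⌈x - δ⌉).toNat : ℕ) : ℝ) = ((⌊x + δ⌋ + 1 - ⌈x - δ⌉ : ℤ) : ℝ) := by
      have := Int.toNat_of_nonneg h3
      exact_mod_cast this
    rw [h4]
    push_cast
    linarith [Int.floor_le (x + δ), Int.le_ceil (x - δ)]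
  · rw [Int.toNat_of_nonpos h3]
    push_cast
    linarith

lemma le_card_Icc (x δ : ℝ) : 2 * δ - 1 ≤ ((Finset.Icc ⌈x - δ⌉ ⌊x + δ⌋).card : ℝ) := by
  rw [Int.card_Icc]
  have h4 : ((⌊x + δ⌋ + 1 - ⌈x - δ⌉ : ℤ) : ℝ) ≤ (((⌊x + δ⌋ + 1 - ⌈x - δ⌉).toNat : ℕ) : ℝ) := by
    have := Int.self_le_toNat (⌊x + δ⌋ + 1 - ⌈x - δ⌉)
    exact_mod_cast this
  refine le_trans ?_ h4
  push_cast
  linarith [Int.lt_floor_add_one (x + δ), Int.ceil_lt_add_one (x - δ)]

lemma repr_add' (x y : 𝓞 K) (j : JJ K) : (om K).repr (x + y) j = (om K).repr x j + (om K).repr y j := by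
  rw [map_add, Finsupp.add_apply]

lemma repr_sub' (x y : 𝓞 K) (j : JJ K) : (om K).repr (x - y) j = (om K).repr x j - (om K).repr y j := by
  rw [map_sub, Finsupp.sub_apply]

lemma repr_inj {x y : 𝓞 K} (h : ∀ j, (om K).repr x j = (om K).repr y j) : x = y := by
  rw [← el_repr x, ← el_repr y]
  congr 1
  funext j
  exact h j

/-- upper bound for the number of lattice points -/
lemma upper {c : ℕ} (hc : Cst K c) {R : 𝓞 K} (hR : R ≠ 0) {ρ : ℝ}
    (hρ : ∀ w : InfinitePlace K, w (R : K) ≤ ρ) (y : JJ K → ℝ) {k : ℝ} (hk : 0 ≤ k)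
    (A : Finset (𝓞 K)) (hA : ∀ H ∈ A, ∀ j, |(((om K).repr (R * H) j : ℤ) : ℝ) - y j| ≤ k) :
    (A.card : ℝ) * nm (R : K) ≤ (2 * (k + 2 ^ (3 * c) * ρ) + 1) ^ DK K := by
  classical
  obtain ⟨T, hT1, hT2, hT3, _⟩ := exists_reps hc hR hρ
  obtain ⟨w₀⟩ : Nonempty (InfinitePlace K) := inferInstance
  have hρ0 : 0 ≤ ρ := (w_nonneg w₀ _).trans (hρ w₀)
  set δ : ℝ := 2 ^ (3 * c) * ρ with hδ
  have hδ0 : 0 ≤ δ := by positivity
  set Bx : Finset (JJ K → ℤ) := Fintype.piFinset fun j => Finset.Icc ⌈y j - (k + δ)⌉ ⌊y j + (k + δ)⌋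
    with hBx
  have h1 : (A ×ˢ T).card ≤ Bx.card := by
    refine Finset.card_le_card_of_injOn (fun p => fun j => (om K).repr (R * p.1 + p.2) j) ?_ ?_
    · intro p hp
      have hp' := Finset.mem_product.1 (Finset.mem_coe.1 hp)
      refine Finset.mem_coe.2 ?_
      rw [hBx, Fintype.mem_piFinset]
      intro j
      rw [Finset.mem_Icc]
      have a1 := abs_le.1 (hA _ hp'.1 j)
      have a2 := abs_le.1 (hT2 _ hp'.2 j)
      have e1 : (((om K).repr (R * p.1 + p.2) j : ℤ) : ℝ) =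
          (((om K).repr (R * p.1) j : ℤ) : ℝ) + (((om K).repr p.2 j : ℤ) : ℝ) := by
        rw [repr_add']
        push_cast
        ring
      constructor
      · rw [Int.ceil_le, e1]
        linarith [a1.1, a2.1]
      · rw [Int.le_floor, e1]
        linarith [a1.2, a2.2]
    · intro p hp p' hp' hpp
      have hp1 := Finset.mem_product.1 (Finset.mem_coe.1 hp)
      have hp2 := Finset.mem_product.1 (Finset.mem_coe.1 hp')
      have h2 : R * p.1 + p.2 = R * p'.1 + p'.2 := repr_inj fun j => congrFun hpp j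
      have h3 : p.2 = p'.2 := hT3 _ hp1.2 _ hp2.2 (p'.1 - p.1) (by
        rw [mul_sub]
        linear_combination h2)
      have h4 : R * p.1 = R * p'.1 := by
        rw [h3] at h2
        exact add_right_cancel h2
      exact Prod.ext (mul_left_cancel₀ hR h4) h3
  have h2 : (Bx.card : ℝ) ≤ (2 * (k + δ) + 1) ^ DK K := by
    rw [hBx, Fintype.card_piFinset]
    push_cast
    refine (Finset.prod_le_prod (fun j _ => Nat.cast_nonneg _)
      (fun j _ => card_Icc_le (y j) (k + δ) (by positivity))).trans ?_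
    rw [Finset.prod_const, Finset.card_univ]
  rw [Finset.card_product] at h1
  rw [← hT1]
  refine le_trans ?_ h2
  exact_mod_cast h1

/-- lower bound for the number of lattice points -/
lemma lower {c : ℕ} (hc : Cst K c) {R : 𝓞 K} (hR : R ≠ 0) {ρ : ℝ}
    (hρ : ∀ w : InfinitePlace K, w (R : K) ≤ ρ) (y : JJ K → ℝ) {k : ℝ}
    (hk : 1 ≤ k - 2 ^ (3 * c) * ρ) :
    ∃ A : Finset (𝓞 K), (∀ H ∈ A, ∀ j, |(((om K).repr (R * H) j : ℤ) : ℝ) - y j| ≤ k) ∧
      (2 * (k - 2 ^ (3 * c) * ρ) - 1) ^ DK K ≤ (A.card : ℝ) * nm (R : K) := by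
  classical
  obtain ⟨T, hT1, hT2, hT3, hT4⟩ := exists_reps hc hR hρ
  set δ : ℝ := 2 ^ (3 * c) * ρ with hδ
  set Bx : Finset (JJ K → ℤ) := Fintype.piFinset fun j => Finset.Icc ⌈y j - (k - δ)⌉ ⌊y j + (k - δ)⌋
    with hBx
  choose qH qt hqt hx using hT4
  refine ⟨Bx.image fun x => qH (el x), ?_, ?_⟩
  · intro H hH j
    obtain ⟨x, hxB, rfl⟩ := Finset.mem_image.1 hH
    rw [hBx, Fintype.mem_piFinset] at hxB
    have h1 := hxB j
    rw [Finset.mem_Icc, Int.ceil_le, Int.le_floor] at h1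
    have h2 := abs_le.1 (hT2 _ (hqt (el x)) j)
    have e1 : (((om K).repr (R * qH (el x)) j : ℤ) : ℝ) =
        (x j : ℝ) - (((om K).repr (qt (el x)) j : ℤ) : ℝ) := by
      have e2 : R * qH (el x) = el x - qt (el x) := by
        linear_combination -(hx (el x))
      rw [e2, repr_sub', repr_el]
      push_cast
      ring
    rw [e1, abs_le]
    constructor
    · linarith [h1.1, h2.2]
    · linarith [h1.2, h2.1]
  · have h1 : Bx.card ≤ ((Bx.image fun x => qH (el x)) ×ˢ T).card := by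
      refine Finset.card_le_card_of_injOn (fun x => (qH (el x), qt (el x))) ?_ ?_
      · intro x hxB
        refine Finset.mem_coe.2 (Finset.mem_product.2 ⟨?_, hqt _⟩)
        exact Finset.mem_image_of_mem _ (Finset.mem_coe.1 hxB)
      · intro x _ x' _ hxx
        have h2 : qH (el x) = qH (el x') := congrArg Prod.fst hxx
        have h3 : qt (el x) = qt (el x') := congrArg Prod.snd hxx
        have h4 : el x = el x' := by
          rw [hx (el x), hx (el x'), h2, h3]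
        funext j
        rw [← repr_el x j, ← repr_el x' j, h4]
    have h2 : (2 * (k - δ) - 1) ^ DK K ≤ (Bx.card : ℝ) := by
      rw [hBx, Fintype.card_piFinset]
      push_cast
      refine le_trans ?_ (Finset.prod_le_prod (fun j _ => by linarith)
        (fun j _ => le_card_Icc (y j) (k - δ)))
      rw [Finset.prod_const, Finset.card_univ]
    rw [Finset.card_product] at h1
    rw [← hT1]
    refine h2.trans ?_
    exact_mod_cast h1

/-! ### places of products of slots -/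

lemma prod_near {ι : Type} (w : InfinitePlace K) (r : ι → K) (B : Finset ι) {η : ℝ} (hη : 0 ≤ η)
    (h : ∀ i ∈ B, w (r i - 1) ≤ η) : w (∏ i ∈ B, r i - 1) ≤ (1 + η) ^ B.card - 1 := by
  classical
  induction B using Finset.induction_on with
  | empty => simp
  | insert a B ha ih =>
    rw [Finset.prod_insert ha, Finset.card_insert_of_notMem ha, pow_succ]
    have h1 := h a (Finset.mem_insert_self a B)
    have h2 := ih fun i hi => h i (Finset.mem_insert_of_mem hi)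
    have e1 : r a * ∏ i ∈ B, r i - 1 = (r a - 1) * (∏ i ∈ B, r i - 1) + (∏ i ∈ B, r i - 1) +
        (r a - 1) := by ring
    rw [e1]
    have h3 : w ((r a - 1) * (∏ i ∈ B, r i - 1)) ≤ η * ((1 + η) ^ B.card - 1) := by
      rw [map_mul]
      exact mul_le_mul h1 h2 (w_nonneg w _) hη
    have h4 := Base3N.w_add w ((r a - 1) * (∏ i ∈ B, r i - 1) + (∏ i ∈ B, r i - 1)) (r a - 1)
    have h5 := Base3N.w_add w ((r a - 1) * (∏ i ∈ B, r i - 1)) (∏ i ∈ B, r i - 1)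
    nlinarith

lemma coe_zz_sub_zero {c q γ d : ℕ} {v g g' : 𝓞 K} (hc : Cst K c) (hv : SlotOK c q γ v g)
    (h : JJ K → Fin (2 ^ d)) (w : InfinitePlace K) :
    w (((zz q d v g' h : 𝓞 K) : K) - (q : K) * 2 ^ d * (g' : K)) ≤ q * 2 ^ (c + d + 1) := by
  have h1 := zz_sub (d := d) hc hv h w
  rw [Base3N.zz_sub_eq] at h1 ⊢
  exact h1

/-- the relative error of a product of slots -/
lemma prod_ratio {c q γ s d : ℕ} (hc : Cst K c) (hq : 0 < q) {v g : Fin s → 𝓞 K}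
    (hv : ∀ i, SlotOK c q γ (v i) (g i)) {η : ℝ} (hη : 0 ≤ η)
    (hg : ∀ i, ∀ w : InfinitePlace K, 2 ^ (c + 1) ≤ η * w (g i : K))
    (z : Fin s → JJ K → Fin (2 ^ d)) (B : Finset (Fin s)) :
    ∃ r : K, ((∏ i ∈ B, zz q d (v i) (g i) (z i) : 𝓞 K) : K) =
      ((q : K) * 2 ^ d) ^ B.card * ((∏ i ∈ B, g i : 𝓞 K) : K) * r ∧
      ∀ w : InfinitePlace K, w (r - 1) ≤ (1 + η) ^ s - 1 := by
  have hg0 : ∀ i, (g i : K) ≠ 0 := by
    intro i h0
    obtain ⟨w⟩ : Nonempty (InfinitePlace K) := inferInstance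
    have h1 := (hv i).gge w
    rw [h0, map_zero] at h1
    have : (0:ℝ) < 2 ^ (c + 4) := by positivity
    linarith
  have hq0 : (q : K) ≠ 0 := by exact_mod_cast hq.ne'
  have hS0 : (q : K) * 2 ^ d ≠ 0 := mul_ne_zero hq0 (pow_ne_zero _ (by norm_num))
  refine ⟨∏ i ∈ B, (((zz q d (v i) (g i) (z i) : 𝓞 K) : K) / ((q : K) * 2 ^ d * (g i : K))), ?_, ?_⟩
  · rw [Base3N.coe_prod', Base3N.coe_prod', ← Finset.prod_const, ← Finset.prod_mul_distrib,
      ← Finset.prod_mul_distrib]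
    refine Finset.prod_congr rfl fun i _ => ?_
    rw [mul_div_cancel₀ _ (mul_ne_zero hS0 (hg0 i))]
  · intro w
    refine (prod_near w _ B hη ?_).trans ?_
    · intro i _
      have h1 := zz_sub (d := d) hc (hv i) (z i) w
      have e1 : ((zz q d (v i) (g i) (z i) : 𝓞 K) : K) / ((q : K) * 2 ^ d * (g i : K)) - 1 =
          (((zz q d (v i) (g i) (z i) : 𝓞 K) : K) - (q : K) * 2 ^ d * (g i : K)) /
            ((q : K) * 2 ^ d * (g i : K)) := by
        rw [sub_div, div_self (mul_ne_zero hS0 (hg0 i))]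
      rw [e1, map_div₀, Base3N.w_main]
      have hwg : 0 < w (g i : K) := lt_of_lt_of_le (by positivity) ((hv i).gge w)
      have hqR : (0:ℝ) < q := by exact_mod_cast hq
      rw [div_le_iff₀ (by positivity)]
      refine h1.trans ?_
      have h2 := mul_le_mul_of_nonneg_left (hg i w) (by positivity : (0:ℝ) ≤ q * 2 ^ d)
      have e2 : (q : ℝ) * 2 ^ (c + d + 1) = q * 2 ^ d * 2 ^ (c + 1) := by
        rw [show c + d + 1 = d + (c + 1) by ring, pow_add]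
        ring
      rw [e2]
      linarith
    · have h1 : (1 + η) ^ B.card ≤ (1 + η) ^ s := by
        refine pow_le_pow_right₀ (by linarith) ?_
        have := Finset.card_le_univ B
        rwa [Fintype.card_fin] at this
      linarith

/-- the norm of a number close to `1` -/
lemma nm_near {r : K} {ζ : ℝ} (hζ : 0 ≤ ζ) (hζ1 : ζ ≤ 1) (h : ∀ w : InfinitePlace K, w (r - 1) ≤ ζ) :
    (1 - ζ) ^ DK K ≤ nm r ∧ nm r ≤ (1 + ζ) ^ DK K := by
  have h1 : ∀ w : InfinitePlace K, w r ≤ 1 + ζ := by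
    intro w
    have h2 := Base3N.w_add w (r - 1) 1
    rw [map_one, sub_add_cancel] at h2
    linarith [h w]
  have h2 : ∀ w : InfinitePlace K, 1 - ζ ≤ w r := by
    intro w
    have h3 := w_sub w r (r - 1)
    rw [sub_sub_cancel, map_one] at h3
    linarith [h w]
  rw [nm_eq_prod]
  constructor
  · rw [← sum_mult K, ← Finset.prod_pow_eq_pow_sum]
    exact Finset.prod_le_prod (fun w _ => pow_nonneg (by linarith) _)
      fun w _ => pow_le_pow_left₀ (by linarith) (h2 w) _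
  · rw [← sum_mult K, ← Finset.prod_pow_eq_pow_sum]
    exact Finset.prod_le_prod (fun w _ => pow_nonneg (w_nonneg w _) _)
      fun w _ => pow_le_pow_left₀ (w_nonneg w _) (h1 w) _

/-- the location of a solution -/
lemma loc {w : InfinitePlace K} {S G0 G1 G2 r0 r1 r2 g z R Y : K} {B ζ τ : ℝ} {n : ℕ}
    (hS : 0 < w S) (hG0 : 1 ≤ w G0) (h0 : w (r0 - 1) ≤ ζ) (h1 : w (r1 - 1) ≤ ζ)
    (h2 : w (r2 - 1) ≤ ζ) (hζ : 0 ≤ ζ) (hB : w G1 + w G2 ≤ B * w (G1 + G2))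
    (hR : R = S ^ n * G0 * r0) (hY : Y = S ^ (n + 1) * (G1 * r1 + G2 * r2))
    (hz : w (z - S * g) ≤ w S * τ) (he : w (R * z - Y) ≤ w S ^ (n + 1)) :
    w (g - (G1 + G2) / G0) ≤ ζ * w g + ζ * B * w ((G1 + G2) / G0) + 1 + (1 + ζ) * τ := by
  have hG0' : G0 ≠ 0 := by
    intro h
    rw [h, map_zero] at hG0
    linarith
  have hG0p : 0 < w G0 := by linarith
  have e1 : S ^ (n + 1) * G0 * (g - (G1 + G2) / G0) =
      ((R * z - Y) + S ^ n * G0 * (S * g * (1 - r0))) +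
        (-(S ^ n * G0 * (r0 * (z - S * g)))) + S ^ (n + 1) * (G1 * (r1 - 1) + G2 * (r2 - 1)) := by
    rw [hR, hY]
    field_simp
    ring
  have hw0 : w r0 ≤ 1 + ζ := by
    have h3 := Base3N.w_add w (r0 - 1) 1
    rw [map_one, sub_add_cancel] at h3
    linarith
  have hSn : 0 < w S ^ n := by positivity
  have b1 : w (S ^ (n + 1) * G0 * (g - (G1 + G2) / G0)) =
      w S ^ (n + 1) * w G0 * w (g - (G1 + G2) / G0) := by
    rw [map_mul, map_mul, map_pow]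
  have b2 : w (S ^ n * G0 * (S * g * (1 - r0))) ≤ w S ^ (n + 1) * w G0 * (w g * ζ) := by
    rw [map_mul, map_mul, map_mul, map_mul, map_pow]
    have : w (1 - r0) ≤ ζ := by
      have h3 : (1 : K) - r0 = -(r0 - 1) := by ring
      rw [h3, Base3N.w_neg]
      exact h0
    have h4 : w S ^ n * w G0 * (w S * w g * w (1 - r0)) ≤ w S ^ n * w G0 * (w S * w g * ζ) := by
      refine mul_le_mul_of_nonneg_left ?_ (by positivity)
      exact mul_le_mul_of_nonneg_left this (mul_nonneg hS.le (w_nonneg w _))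
    refine h4.trans (le_of_eq ?_)
    ring
  have b3 : w (-(S ^ n * G0 * (r0 * (z - S * g)))) ≤ w S ^ (n + 1) * w G0 * ((1 + ζ) * τ) := by
    rw [Base3N.w_neg, map_mul, map_mul, map_mul, map_pow]
    have h4 : w r0 * w (z - S * g) ≤ (1 + ζ) * (w S * τ) :=
      mul_le_mul hw0 hz (w_nonneg w _) (by linarith)
    have h5 : w S ^ n * w G0 * (w r0 * w (z - S * g)) ≤ w S ^ n * w G0 * ((1 + ζ) * (w S * τ)) :=
      mul_le_mul_of_nonneg_left h4 (by positivity)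
    refine h5.trans (le_of_eq ?_)
    ring
  have b4 : w (S ^ (n + 1) * (G1 * (r1 - 1) + G2 * (r2 - 1))) ≤
      w S ^ (n + 1) * (ζ * (B * w (G1 + G2))) := by
    rw [map_mul, map_pow]
    refine mul_le_mul_of_nonneg_left ?_ (by positivity)
    refine (Base3N.w_add w _ _).trans ?_
    rw [map_mul, map_mul]
    have h3 := mul_le_mul_of_nonneg_left h1 (w_nonneg w G1)
    have h4 := mul_le_mul_of_nonneg_left h2 (w_nonneg w G2)
    have h5 := mul_le_mul_of_nonneg_left hB hζ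
    linarith
  have hsum : w (S ^ (n + 1) * G0 * (g - (G1 + G2) / G0)) ≤
      w S ^ (n + 1) + w S ^ (n + 1) * w G0 * (w g * ζ) + w S ^ (n + 1) * w G0 * ((1 + ζ) * τ) +
        w S ^ (n + 1) * (ζ * (B * w (G1 + G2))) := by
    rw [e1]
    have c1 := Base3N.w_add w (((R * z - Y) + S ^ n * G0 * (S * g * (1 - r0))) +
        (-(S ^ n * G0 * (r0 * (z - S * g))))) (S ^ (n + 1) * (G1 * (r1 - 1) + G2 * (r2 - 1)))
    have c2 := Base3N.w_add w ((R * z - Y) + S ^ n * G0 * (S * g * (1 - r0)))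
        (-(S ^ n * G0 * (r0 * (z - S * g))))
    have c3 := Base3N.w_add w (R * z - Y) (S ^ n * G0 * (S * g * (1 - r0)))
    linarith
  rw [b1] at hsum
  have hSp : 0 < w S ^ (n + 1) := by positivity
  have hdiv : w ((G1 + G2) / G0) * w G0 = w (G1 + G2) := by
    rw [map_div₀, div_mul_cancel₀ _ hG0p.ne']
  have hfin : w S ^ (n + 1) * (w G0 * w (g - (G1 + G2) / G0)) ≤ w S ^ (n + 1) *
      (w G0 * (ζ * w g + ζ * B * w ((G1 + G2) / G0) + 1 + (1 + ζ) * τ)) := by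
    have e2 : w S ^ (n + 1) * (w G0 * (ζ * w g + ζ * B * w ((G1 + G2) / G0) + 1 + (1 + ζ) * τ)) =
        w S ^ (n + 1) * w G0 + w S ^ (n + 1) * w G0 * (w g * ζ) +
        w S ^ (n + 1) * w G0 * ((1 + ζ) * τ) +
        w S ^ (n + 1) * (ζ * (B * (w ((G1 + G2) / G0) * w G0))) := by ring
    rw [e2, hdiv]
    have h3 : w S ^ (n + 1) * 1 ≤ w S ^ (n + 1) * w G0 := mul_le_mul_of_nonneg_left hG0 hSp.le
    have e3 : w S ^ (n + 1) * (w G0 * w (g - (G1 + G2) / G0)) =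
      w S ^ (n + 1) * w G0 * w (g - (G1 + G2) / G0) := by ring
    rw [e3]
    linarith
  exact le_of_mul_le_mul_left (le_of_mul_le_mul_left hfin hSp) hG0p

lemma log_near {a b : ℝ} (hb : 0 < b) (h1 : a ≤ b + (a / 8 + b / 4)) (h2 : b ≤ a + (a / 8 + b / 4)) :
    0 < a ∧ |Real.log a - Real.log b| ≤ 1 := by
  have ha : 0 < a := by linarith
  refine ⟨ha, ?_⟩
  rw [abs_le]
  constructor
  · have h3 : b ≤ 3 / 2 * a := by linarith
    have h4 := Real.log_le_log hb h3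
    rw [Real.log_mul (by norm_num) ha.ne'] at h4
    have h5 := Real.log_le_sub_one_of_pos (show (0:ℝ) < 3 / 2 by norm_num)
    linarith
  · have h3 : a ≤ 3 / 2 * b := by linarith
    have h4 := Real.log_le_log ha h3
    rw [Real.log_mul (by norm_num) hb.ne'] at h4
    have h5 := Real.log_le_sub_one_of_pos (show (0:ℝ) < 3 / 2 by norm_num)
    linarith

/-- a number in a cell times `2^d` and the remainder -/
lemma exists_cell (d : ℕ) (H : 𝓞 K) : ∃ (g : 𝓞 K) (h : JJ K → Fin (2 ^ d)),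
    H = (2 : 𝓞 K) ^ d * g + ∑ j, (((h j : ℕ) : 𝓞 K)) * om K j := by
  have hpos : (0:ℤ) < 2 ^ d := by positivity
  let h : JJ K → Fin (2 ^ d) := fun j => ⟨((om K).repr H j % 2 ^ d).toNat, by
    have h1 := Int.emod_lt_of_pos ((om K).repr H j) hpos
    have h2 := Int.emod_nonneg ((om K).repr H j) hpos.ne'
    have h3 : (((om K).repr H j % 2 ^ d).toNat : ℤ) < ((2 ^ d : ℕ) : ℤ) := by
      rw [Int.toNat_of_nonneg h2]
      push_cast
      exact h1
    exact_mod_cast h3⟩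
  refine ⟨el fun j => (om K).repr H j / 2 ^ d, h, ?_⟩
  refine repr_inj fun j => ?_
  rw [repr_add', Base3N.repr_sum]
  have e1 : (2 : 𝓞 K) ^ d * (el fun j => (om K).repr H j / 2 ^ d) =
      ((2:ℤ) ^ d) • (el fun j => (om K).repr H j / 2 ^ d : 𝓞 K) := by
    rw [zsmul_eq_mul]
    push_cast
    rfl
  rw [e1, map_zsmul, Finsupp.smul_apply, repr_el, smul_eq_mul]
  have h2 := Int.emod_nonneg ((om K).repr H j) hpos.ne'
  have e2 : (((h j : ℕ) : ℕ) : ℤ) = (om K).repr H j % 2 ^ d := Int.toNat_of_nonneg h2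
  rw [e2]
  exact (Int.mul_ediv_add_emod _ _).symm

lemma cell_inj {d : ℕ} {g g' : 𝓞 K} {h h' : JJ K → Fin (2 ^ d)}
    (e : (2 : 𝓞 K) ^ d * g + ∑ j, (((h j : ℕ) : 𝓞 K)) * om K j =
      (2 : 𝓞 K) ^ d * g' + ∑ j, (((h' j : ℕ) : 𝓞 K)) * om K j) : g = g' ∧ h = h' := by
  have key : ∀ j, (2:ℤ) ^ d * (om K).repr g j + ((h j : ℕ) : ℤ) =
      (2:ℤ) ^ d * (om K).repr g' j + ((h' j : ℕ) : ℤ) := by
    intro j
    have e1 : ∀ x : 𝓞 K, (2 : 𝓞 K) ^ d * x = ((2:ℤ) ^ d) • x := by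
      intro x
      rw [zsmul_eq_mul]
      push_cast
      rfl
    have h1 : (om K).repr ((2 : 𝓞 K) ^ d * g + ∑ j, (((h j : ℕ) : 𝓞 K)) * om K j) j =
      (om K).repr ((2 : 𝓞 K) ^ d * g' + ∑ j, (((h' j : ℕ) : 𝓞 K)) * om K j) j := by rw [e]
    rw [repr_add', repr_add', Base3N.repr_sum, Base3N.repr_sum, e1, e1, map_zsmul, map_zsmul,
      Finsupp.smul_apply, Finsupp.smul_apply, smul_eq_mul, smul_eq_mul] at h1
    exact h1
  have hh : h = h' := by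
    funext j
    have h1 := key j
    have h2 := (h j).2
    have h3 := (h' j).2
    have h4 : ((h j : ℕ) : ℤ) % 2 ^ d = ((h' j : ℕ) : ℤ) % 2 ^ d := by
      have := congrArg (fun x : ℤ => x % 2 ^ d) h1
      simpa [Int.add_mul_emod_self_left, Int.mul_add_emod_self_left] using this
    rw [Int.emod_eq_of_lt (by positivity) (by exact_mod_cast h2),
      Int.emod_eq_of_lt (by positivity) (by exact_mod_cast h3)] at h4
    exact Fin.ext (by exact_mod_cast h4)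
  subst hh
  refine ⟨repr_inj fun j => ?_, rfl⟩
  have h1 := key j
  have h2 : (2:ℤ) ^ d * (om K).repr g j = (2:ℤ) ^ d * (om K).repr g' j := by linarith
  exact mul_left_cancel₀ (by positivity) h2


open Filter Topology in
/-- the constants -/
lemma consts (D s : ℕ) (B ε : ℝ) (hε : 0 < ε) : ∃ ζ : ℝ, 0 < ζ ∧ ζ ≤ 1 / 8 ∧ ζ * |B| ≤ 1 / 8 ∧
    (1 + ζ) ^ D / (1 - ζ) ^ D ≤ 1 + ε ∧ 1 - ε ≤ (1 - ζ) * (1 - ζ) ^ D / (1 + ζ) ^ D ∧
    ∃ η : ℝ, 0 < η ∧ (1 + η) ^ s - 1 ≤ ζ := by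
  have t1 : Tendsto (fun ζ : ℝ => (1 + ζ) ^ D / (1 - ζ) ^ D) (𝓝[>] 0) (𝓝 1) := by
    have h : ContinuousAt (fun ζ : ℝ => (1 + ζ) ^ D / (1 - ζ) ^ D) 0 := by
      refine ContinuousAt.div (by fun_prop) (by fun_prop) (by simp)
    have h2 := h.tendsto
    simp only [add_zero, sub_zero, one_pow, div_one] at h2
    exact h2.mono_left nhdsWithin_le_nhds
  have t2 : Tendsto (fun ζ : ℝ => (1 - ζ) * (1 - ζ) ^ D / (1 + ζ) ^ D) (𝓝[>] 0) (𝓝 1) := by
    have h : ContinuousAt (fun ζ : ℝ => (1 - ζ) * (1 - ζ) ^ D / (1 + ζ) ^ D) 0 := by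
      refine ContinuousAt.div (by fun_prop) (by fun_prop) (by simp)
    have h2 := h.tendsto
    simp only [add_zero, sub_zero, one_pow, div_one, mul_one] at h2
    exact h2.mono_left nhdsWithin_le_nhds
  have t3 : Tendsto (fun η : ℝ => (1 + η) ^ s) (𝓝[>] 0) (𝓝 1) := by
    have h : ContinuousAt (fun η : ℝ => (1 + η) ^ s) 0 := by fun_prop
    have h2 := h.tendsto
    simp only [add_zero, one_pow] at h2
    exact h2.mono_left nhdsWithin_le_nhds
  have e1 := t1.eventually_le_const (show (1:ℝ) < 1 + ε by linarith)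
  have e2 := t2.eventually_const_le (show 1 - ε < (1:ℝ) by linarith)
  have e3 : ∀ᶠ ζ : ℝ in 𝓝[>] 0, ζ < 1 / (8 * (|B| + 1)) := by
    refine Filter.Eventually.filter_mono nhdsWithin_le_nhds (eventually_lt_nhds ?_)
    positivity
  have e4 : ∀ᶠ ζ : ℝ in 𝓝[>] 0, (0:ℝ) < ζ := eventually_mem_nhdsWithin
  obtain ⟨ζ, h1, h2, h3, h4⟩ := (e1.and (e2.and (e3.and e4))).exists
  have e5 := t3.eventually_le_const (show (1:ℝ) < 1 + ζ by linarith)
  have e6 : ∀ᶠ ζ : ℝ in 𝓝[>] 0, (0:ℝ) < ζ := eventually_mem_nhdsWithin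
  obtain ⟨η, h5, h6⟩ := (e5.and e6).exists
  have hB : 0 ≤ |B| := abs_nonneg B
  rw [lt_div_iff₀ (by positivity)] at h3
  refine ⟨ζ, h4, by nlinarith, by nlinarith, h1, h2, η, h6, by linarith⟩

lemma num1 {c s μ e₀ d : ℕ} (hs : 1 ≤ s) (h : 3 * c + 4 + μ + s * e₀ ≤ d / 4) :
    (2:ℝ) ^ c * (KS c s μ e₀ d : ℝ) ≤ (2 ^ d) ^ s := by
  unfold KS TE
  push_cast
  rw [← pow_add, ← pow_mul]
  refine pow_le_pow_right₀ (by norm_num) ?_
  have h1 : s * (d + e₀) = d * s + s * e₀ := by ring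
  rw [h1]
  have h2 : d ≤ d * s := Nat.le_mul_of_pos_right d hs
  omega

lemma num2 {c s μ e₀ d t : ℕ} (hs : 1 ≤ s) (h : t + c ≤ d - d / 4) :
    (2:ℝ) ^ t * (2 ^ (3 * c) * 2 ^ (μ + (s - 1) * (d + e₀)) + 1) ≤ (KS c s μ e₀ d : ℝ) := by
  unfold KS TE
  push_cast
  obtain ⟨n, rfl⟩ : ∃ n, s = n + 1 := ⟨s - 1, by omega⟩
  rw [Nat.add_sub_cancel]
  have h1 : (1:ℝ) ≤ 2 ^ (3 * c) * 2 ^ (μ + n * (d + e₀)) := by
    rw [← pow_add]
    exact one_le_pow₀ (by norm_num)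
  have h2 : (2:ℝ) ^ t * (2 ^ (3 * c) * 2 ^ (μ + n * (d + e₀)) + 1) ≤
      2 ^ t * (2 * (2 ^ (3 * c) * 2 ^ (μ + n * (d + e₀)))) := by
    refine mul_le_mul_of_nonneg_left (by linarith) (by positivity)
  refine h2.trans ?_
  have e1 : (2:ℝ) ^ t * (2 * (2 ^ (3 * c) * 2 ^ (μ + n * (d + e₀)))) =
      2 ^ (t + (1 + (3 * c + (μ + n * (d + e₀))))) := by
    rw [pow_add _ t, pow_add _ 1, pow_one, pow_add _ (3 * c)]
  rw [e1]
  refine pow_le_pow_right₀ (by norm_num) ?_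
  have e2 : (n + 1) * (d + e₀) = n * (d + e₀) + d + e₀ := by ring
  rw [e2]
  omega

section slots

variable {u Θ : ℝ} {H₀ q d s : ℕ}

/-- the conditions on a slot -/
def PP (q d K' : ℕ) (R Y v₀ g : 𝓞 K) (h : JJ K → Fin (2 ^ d)) : Prop :=
  ∀ jj, |(om K).repr (R * zz q d v₀ g h - Y) jj| ≤ ((q * K' : ℕ) : ℤ)

open Classical in
lemma Ws_eq (K' : ℕ) (hs : 1 ≤ s) (M : Fin 3 → 𝓞 K) (v : Fin 3 → Fin s → 𝓞 K)
    (j : Fin 3 → Fin s → Cell K u Θ H₀) (h : Fin 3 → Fin s → JJ K → Fin (2 ^ d)) (i₀ : Fin s)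
    (p : Cell K u Θ H₀) (x : JJ K → Fin (2 ^ d)) :
    Ws s q d K' M v (fun X i => cg (upd j 0 i₀ p X i)) (upd h 0 i₀ x) =
      if PP q d K' (M 0 * ∏ i ∈ Finset.univ.erase i₀, zz q d (v 0 i) (cg (j 0 i)) (h 0 i))
        (M 1 * ∏ i, zz q d (v 1 i) (cg (j 1 i)) (h 1 i) +
          M 2 * ∏ i, zz q d (v 2 i) (cg (j 2 i)) (h 2 i)) (v 0 i₀) (cg p) x
      then (nm (M 0 : K) * ((q : ℝ) * 2 ^ d) ^ ((s - 1) * DK K) *
          (∏ i ∈ Finset.univ.erase i₀, nm (cg (j 0 i) : K)) * (2 ^ d) ^ DK K) * nm (cg p : K) /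
          (2 * K' + 1) ^ DK K
      else 0 := by
  have u1 : upd j 0 i₀ p 1 = j 1 := Function.update_of_ne (by decide) _ _
  have u2 : upd j 0 i₀ p 2 = j 2 := Function.update_of_ne (by decide) _ _
  have u3 : upd h 0 i₀ x 1 = h 1 := Function.update_of_ne (by decide) _ _
  have u4 : upd h 0 i₀ x 2 = h 2 := Function.update_of_ne (by decide) _ _
  have u5 : ∏ i, zz q d (v 0 i) (cg (upd j 0 i₀ p 0 i)) (upd h 0 i₀ x 0 i) =
      zz q d (v 0 i₀) (cg p) x *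
        ∏ i ∈ Finset.univ.erase i₀, zz q d (v 0 i) (cg (j 0 i)) (h 0 i) := by
    rw [← Finset.mul_prod_erase _ _ (Finset.mem_univ i₀)]
    congr 1
    · unfold upd
      rw [Function.update_self, Function.update_self, Function.update_self, Function.update_self]
    · refine Finset.prod_congr rfl fun i hi => ?_
      unfold upd
      rw [Function.update_self, Function.update_self,
        Function.update_of_ne (Finset.ne_of_mem_erase hi),
        Function.update_of_ne (Finset.ne_of_mem_erase hi)]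
  have u6 : ∏ i, nm (cg (upd j 0 i₀ p 0 i) : K) =
      nm (cg p : K) * ∏ i ∈ Finset.univ.erase i₀, nm (cg (j 0 i) : K) := by
    rw [← Finset.mul_prod_erase _ _ (Finset.mem_univ i₀)]
    congr 1
    · unfold upd
      rw [Function.update_self, Function.update_self]
    · refine Finset.prod_congr rfl fun i hi => ?_
      unfold upd
      rw [Function.update_self, Function.update_of_ne (Finset.ne_of_mem_erase hi)]
  unfold Ws
  beta_reduce
  rw [u1, u2, u3, u4, u5]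
  have e1 : M 0 * (zz q d (v 0 i₀) (cg p) x *
      ∏ i ∈ Finset.univ.erase i₀, zz q d (v 0 i) (cg (j 0 i)) (h 0 i)) =
      (M 0 * ∏ i ∈ Finset.univ.erase i₀, zz q d (v 0 i) (cg (j 0 i)) (h 0 i)) *
        zz q d (v 0 i₀) (cg p) x := by ring
  rw [e1]
  refine if_congr Iff.rfl ?_ rfl
  unfold NN
  rw [u6]
  congr 1
  obtain ⟨n, rfl⟩ : ∃ n, s = n + 1 := ⟨s - 1, by omega⟩
  rw [Nat.add_sub_cancel, mul_pow, ← pow_mul]
  have e2 : ((2:ℝ) ^ d) ^ ((n + 1) * DK K) = (2 ^ d) ^ (n * DK K) * (2 ^ d) ^ DK K := by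
    rw [← pow_add]
    congr 1
    ring
  rw [e2]
  ring

end slots


lemma w_S (w : InfinitePlace K) (q d : ℕ) : w ((q : K) * 2 ^ d) = q * 2 ^ d := by
  have h := Base3N.w_main (q := q) (d := d) (g := (1 : 𝓞 K)) w
  have h1 : ((1 : 𝓞 K) : K) = 1 := map_one (algebraMap (𝓞 K) K)
  rw [h1, mul_one, map_one, mul_one] at h
  exact h

/-- the location of a solution, for slots -/
lemma loc_slot {c : ℕ} (hc : Cst K c) {s : ℕ} (hs : 1 ≤ s) {B ζ η : ℝ} (hζ0 : 0 < ζ)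
    (hζ8 : ζ ≤ 1 / 8) (hζB : ζ * |B| ≤ 1 / 8) (hη0 : 0 < η) (hηs : (1 + η) ^ s - 1 ≤ ζ)
    {κ q e₀ γ μ d : ℕ} (hQ : QOK κ q e₀ γ) {M : Fin 3 → 𝓞 K}
    (hM1 : ∀ X (w : InfinitePlace K), 1 ≤ w (M X : K)) (hd : 3 * c + 4 + μ + s * e₀ ≤ d / 4)
    {v g : Fin 3 → Fin s → 𝓞 K} (hv : ∀ X i, SlotOK c q γ (v X i) (g X i))
    (hg : ∀ X i, ∀ w : InfinitePlace K, 2 ^ (c + 1) ≤ η * w (g X i : K))
    (h : Fin 3 → Fin s → JJ K → Fin (2 ^ d)) (i₀ : Fin s)
    (hB : ∀ w : InfinitePlace K, w ((M 1 * ∏ i, g 1 i : 𝓞 K) : K) +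
      w ((M 2 * ∏ i, g 2 i : 𝓞 K) : K) ≤ B * w ((M 1 * ∏ i, g 1 i + M 2 * ∏ i, g 2 i : 𝓞 K) : K))
    {g' : 𝓞 K} {x : JJ K → Fin (2 ^ d)}
    (hP : PP q d (KS c s μ e₀ d)
      (M 0 * ∏ i ∈ Finset.univ.erase i₀, zz q d (v 0 i) (g 0 i) (h 0 i))
      (M 1 * ∏ i, zz q d (v 1 i) (g 1 i) (h 1 i) + M 2 * ∏ i, zz q d (v 2 i) (g 2 i) (h 2 i))
      (v 0 i₀) g' x) (w : InfinitePlace K) :
    w ((g' : K) - ((M 1 * ∏ i, g 1 i + M 2 * ∏ i, g 2 i : 𝓞 K) : K) /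
      ((M 0 * ∏ i ∈ Finset.univ.erase i₀, g 0 i : 𝓞 K) : K)) ≤
      w (g' : K) / 8 + w (((M 1 * ∏ i, g 1 i + M 2 * ∏ i, g 2 i : 𝓞 K) : K) /
      ((M 0 * ∏ i ∈ Finset.univ.erase i₀, g 0 i : 𝓞 K) : K)) / 8 + 2 ^ (c + 2) := by
  obtain ⟨n, rfl⟩ : ∃ n, s = n + 1 := ⟨s - 1, by omega⟩
  have hq := hQ.qpos
  have hqR : (1:ℝ) ≤ q := by exact_mod_cast hq
  obtain ⟨r0, hr0, hr0'⟩ := prod_ratio (d := d) hc hq (hv 0) hη0.le (hg 0) (h 0)
    (Finset.univ.erase i₀)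
  obtain ⟨r1, hr1, hr1'⟩ := prod_ratio (d := d) hc hq (hv 1) hη0.le (hg 1) (h 1) Finset.univ
  obtain ⟨r2, hr2, hr2'⟩ := prod_ratio (d := d) hc hq (hv 2) hη0.le (hg 2) (h 2) Finset.univ
  have hcard : (Finset.univ.erase i₀).card = n := by
    rw [Finset.card_erase_of_mem (Finset.mem_univ _), Finset.card_univ, Fintype.card_fin,
      Nat.add_sub_cancel]
  rw [hcard] at hr0
  rw [Finset.card_univ, Fintype.card_fin] at hr1 hr2
  have hwg : ∀ i, 1 ≤ w (g 0 i : K) := by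
    intro i
    refine le_trans ?_ ((hv 0 i).gge w)
    exact one_le_pow₀ (by norm_num)
  have hG0 : 1 ≤ w ((M 0 * ∏ i ∈ Finset.univ.erase i₀, g 0 i : 𝓞 K) : K) := by
    have e1 : ((M 0 * ∏ i ∈ Finset.univ.erase i₀, g 0 i : 𝓞 K) : K) =
        (M 0 : K) * ∏ i ∈ Finset.univ.erase i₀, (g 0 i : K) := by
      rw [← Base3N.coe_prod']
      push_cast
      rfl
    rw [e1, map_mul, map_prod]
    refine one_le_mul_of_one_le_of_one_le (hM1 0 w) ?_
    have h9 : ∏ _i ∈ Finset.univ.erase i₀, (1:ℝ) ≤ ∏ i ∈ Finset.univ.erase i₀, w (g 0 i : K) :=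
      Finset.prod_le_prod (fun _ _ => zero_le_one) fun i _ => hwg i
    rwa [Finset.prod_const_one] at h9
  have hS := w_S w q d
  have hS0 : 0 < w ((q : K) * 2 ^ d) := by rw [hS]; positivity
  have key := loc (w := w) (S := (q : K) * 2 ^ d)
    (G0 := ((M 0 * ∏ i ∈ Finset.univ.erase i₀, g 0 i : 𝓞 K) : K))
    (G1 := ((M 1 * ∏ i, g 1 i : 𝓞 K) : K)) (G2 := ((M 2 * ∏ i, g 2 i : 𝓞 K) : K))
    (r0 := r0) (r1 := r1) (r2 := r2) (g := (g' : K)) (z := ((zz q d (v 0 i₀) g' x : 𝓞 K) : K))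
    (R := ((M 0 * ∏ i ∈ Finset.univ.erase i₀, zz q d (v 0 i) (g 0 i) (h 0 i) : 𝓞 K) : K))
    (Y := ((M 1 * ∏ i, zz q d (v 1 i) (g 1 i) (h 1 i) +
      M 2 * ∏ i, zz q d (v 2 i) (g 2 i) (h 2 i) : 𝓞 K) : K))
    (B := B) (ζ := ζ) (τ := 2 ^ (c + 1)) (n := n) hS0 hG0 ((hr0' w).trans hηs)
    ((hr1' w).trans hηs) ((hr2' w).trans hηs) hζ0.le
    (by
      have := hB w
      push_cast at this ⊢
      exact this)
    (by
      push_cast at hr0 ⊢
      rw [hr0]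
      ring)
    (by
      push_cast at hr1 hr2 ⊢
      rw [hr1, hr2]
      ring)
    (by
      have h1 := coe_zz_sub_zero (g' := g') hc (hv 0 i₀) x w
      rw [hS]
      refine h1.trans (le_of_eq ?_)
      rw [show c + d + 1 = d + (c + 1) by ring, pow_add]
      ring)
    (by
      have h1 := hc.place_le _ ((q : ℝ) * (KS c (n + 1) μ e₀ d : ℝ)) (fun jj => by
        have h2 := hP jj
        have h3 : ((|(om K).repr ((M 0 * ∏ i ∈ Finset.univ.erase i₀,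
          zz q d (v 0 i) (g 0 i) (h 0 i)) * zz q d (v 0 i₀) g' x -
          (M 1 * ∏ i, zz q d (v 1 i) (g 1 i) (h 1 i) +
            M 2 * ∏ i, zz q d (v 2 i) (g 2 i) (h 2 i))) jj| : ℤ) : ℝ) ≤
              (((q * KS c (n + 1) μ e₀ d : ℕ) : ℤ) : ℝ) := by exact_mod_cast h2
        push_cast at h3
        exact h3) w
      have e1 : ((M 0 * ∏ i ∈ Finset.univ.erase i₀, zz q d (v 0 i) (g 0 i) (h 0 i) : 𝓞 K) : K) *
          ((zz q d (v 0 i₀) g' x : 𝓞 K) : K) - ((M 1 * ∏ i, zz q d (v 1 i) (g 1 i) (h 1 i) +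
          M 2 * ∏ i, zz q d (v 2 i) (g 2 i) (h 2 i) : 𝓞 K) : K) =
          (((M 0 * ∏ i ∈ Finset.univ.erase i₀, zz q d (v 0 i) (g 0 i) (h 0 i)) *
            zz q d (v 0 i₀) g' x - (M 1 * ∏ i, zz q d (v 1 i) (g 1 i) (h 1 i) +
            M 2 * ∏ i, zz q d (v 2 i) (g 2 i) (h 2 i)) : 𝓞 K) : K) := by
        push_cast
        ring
      rw [e1, hS]
      refine h1.trans ?_
      have h4 := num1 (c := c) (s := n + 1) (μ := μ) (e₀ := e₀) (d := d) hs hd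
      have h5 : (2:ℝ) ^ c * ((q : ℝ) * (KS c (n + 1) μ e₀ d : ℝ)) ≤ q * (2 ^ d) ^ (n + 1) := by
        have := mul_le_mul_of_nonneg_left h4 (by positivity : (0:ℝ) ≤ q)
        linarith
      refine h5.trans ?_
      rw [mul_pow]
      refine mul_le_mul_of_nonneg_right ?_ (by positivity)
      exact le_self_pow₀ hqR (by omega))
  have e2 : ((M 1 * ∏ i, g 1 i + M 2 * ∏ i, g 2 i : 𝓞 K) : K) =
      ((M 1 * ∏ i, g 1 i : 𝓞 K) : K) + ((M 2 * ∏ i, g 2 i : 𝓞 K) : K) := by push_cast; ring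
  rw [e2]
  refine key.trans ?_
  set W0 : ℝ := w ((((M 1 * ∏ i, g 1 i : 𝓞 K) : K) + ((M 2 * ∏ i, g 2 i : 𝓞 K) : K)) /
    ((M 0 * ∏ i ∈ Finset.univ.erase i₀, g 0 i : 𝓞 K) : K)) with hW0
  have hW : 0 ≤ W0 := w_nonneg w _
  have hWg : 0 ≤ w (g' : K) := w_nonneg w _
  have a1 : ζ * w (g' : K) ≤ w (g' : K) / 8 := by nlinarith
  have a2 : ζ * B * W0 ≤ W0 / 8 := by
    have h3 : ζ * B ≤ 1 / 8 := by
      refine le_trans ?_ hζB
      exact mul_le_mul_of_nonneg_left (le_abs_self B) hζ0.le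
    nlinarith
  have a3 : 1 + (1 + ζ) * 2 ^ (c + 1) ≤ (2:ℝ) ^ (c + 2) := by
    have h3 : (2:ℝ) ^ (c + 2) = 2 * 2 ^ (c + 1) := by rw [pow_succ _ (c + 1)]; ring
    have h4 : (2:ℝ) ≤ 2 ^ (c + 1) := by
      rw [pow_succ]
      have : (1:ℝ) ≤ 2 ^ c := one_le_pow₀ (by norm_num)
      linarith
    rw [h3]
    nlinarith
  linarith

/-- the sum over one slot -/
lemma E_eq {u Θ : ℝ} {H₀ q d s K' : ℕ} (hs : 1 ≤ s) (M : Fin 3 → 𝓞 K) (v : Fin 3 → Fin s → 𝓞 K)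
    (j : Fin 3 → Fin s → Cell K u Θ H₀) (h : Fin 3 → Fin s → JJ K → Fin (2 ^ d)) (i₀ : Fin s)
    (R Y : 𝓞 K) (hR : R = M 0 * ∏ i ∈ Finset.univ.erase i₀, zz q d (v 0 i) (cg (j 0 i)) (h 0 i))
    (hY : Y = M 1 * ∏ i, zz q d (v 1 i) (cg (j 1 i)) (h 1 i) +
          M 2 * ∏ i, zz q d (v 2 i) (cg (j 2 i)) (h 2 i)) (Q : ℝ)
    (hQ : Q = nm (M 0 : K) * ((q : ℝ) * 2 ^ d) ^ ((s - 1) * DK K) *
          (∏ i ∈ Finset.univ.erase i₀, nm (cg (j 0 i) : K))) :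
    Ex (fun p : Cell K u Θ H₀ × (JJ K → Fin (2 ^ d)) =>
        Ws s q d K' M v (fun X i => cg (upd j 0 i₀ p.1 X i)) (upd h 0 i₀ p.2)) =
      (∑ g ∈ cellSet K u Θ, ∑ x : JJ K → Fin (2 ^ d), open Classical in
        if PP q d K' R Y (v 0 i₀) g x then (⌊(H₀ : ℝ) / nm (g : K)⌋₊ : ℝ) * nm (g : K) else 0) *
        (Q / (2 * K' + 1) ^ DK K) / (Fintype.card (Cell K u Θ H₀) : ℝ) := by
  classical
  have hcard : (Fintype.card (Cell K u Θ H₀ × (JJ K → Fin (2 ^ d))) : ℝ) =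
      (Fintype.card (Cell K u Θ H₀) : ℝ) * (2 ^ d) ^ DK K := by
    rw [Fintype.card_prod, Fintype.card_fun, Fintype.card_fin]
    push_cast
    rfl
  have h1 : ∀ p : Cell K u Θ H₀ × (JJ K → Fin (2 ^ d)),
      Ws s q d K' M v (fun X i => cg (upd j 0 i₀ p.1 X i)) (upd h 0 i₀ p.2) =
      (if PP q d K' R Y (v 0 i₀) (cg p.1) p.2 then nm (cg p.1 : K) else 0) *
        (Q / (2 * K' + 1) ^ DK K) * (2 ^ d) ^ DK K := by
    intro p
    rw [Ws_eq K' hs M v j h i₀ p.1 p.2, ← hR, ← hY, ← hQ]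
    split_ifs with hP
    · ring
    · ring
  have hDp : (0:ℝ) < (2 ^ d) ^ DK K := by positivity
  unfold Ex
  rw [hcard, Finset.sum_congr rfl fun p _ => h1 p, ← Finset.sum_mul, ← Finset.sum_mul,
    mul_div_mul_right _ _ hDp.ne', Fintype.sum_prod_type]
  congr 2
  have h2 := sum_cell (K := K) u Θ H₀ (fun g => ∑ x : JJ K → Fin (2 ^ d),
    if PP q d K' R Y (v 0 i₀) g x then nm (g : K) else 0)
  refine Eq.trans ?_ (h2.trans ?_)
  · rfl
  · refine Finset.sum_congr rfl fun g _ => ?_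
    rw [Finset.mul_sum]
    refine Finset.sum_congr rfl fun x _ => ?_
    split_ifs
    · rfl
    · rw [mul_zero]

lemma box_bounds {u Θ : ℝ} (hu : 0 < u) {y : mixedSpace K} (h : InBox u Θ y)
    (w : InfinitePlace K) : u * Real.exp (-Θ) ≤ normAtPlace w y ∧
      normAtPlace w y ≤ u * Real.exp Θ := by
  obtain ⟨h1, h2⟩ := h w
  have h3 : 0 < normAtPlace w y :=
    lt_of_le_of_ne (mixedEmbedding.normAtPlace_nonneg w y) (Ne.symm h1)
  have h4 := abs_le.1 h2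
  constructor
  · rw [← Real.log_le_log_iff (by positivity) h3, Real.log_mul hu.ne' (Real.exp_pos _).ne',
      Real.log_exp]
    linarith [h4.1]
  · rw [← Real.log_le_log_iff h3 (by positivity), Real.log_mul hu.ne' (Real.exp_pos _).ne',
      Real.log_exp]
    linarith [h4.2]

lemma PP_iff {q d K' : ℕ} (hq : 0 < q) (R Y v₀ g : 𝓞 K) (x : JJ K → Fin (2 ^ d)) :
    PP q d K' R Y v₀ g x ↔ ∀ jj, |(((om K).repr
      (R * ((2 : 𝓞 K) ^ d * g + ∑ j, (((x j : ℕ) : 𝓞 K)) * om K j)) jj : ℤ) : ℝ) -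
      (((om K).repr (Y - R * v₀) jj : ℤ) : ℝ) / q| ≤ K' := by
  have hq0 : (0:ℝ) < q := by exact_mod_cast hq
  unfold PP
  refine forall_congr' fun jj => ?_
  set H : 𝓞 K := (2 : 𝓞 K) ^ d * g + ∑ j, (((x j : ℕ) : 𝓞 K)) * om K j with hH
  have e1 : R * zz q d v₀ g x - Y = (q : ℤ) • (R * H) - (Y - R * v₀) := by
    unfold zz
    rw [← hH, zsmul_eq_mul]
    push_cast
    ring
  rw [e1, repr_sub', map_zsmul, Finsupp.smul_apply, smul_eq_mul, ← Int.cast_le (R := ℝ)]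
  push_cast
  have e2 : (q : ℝ) * (((om K).repr (R * H) jj : ℤ) : ℝ) -
      (((om K).repr (Y - R * v₀) jj : ℤ) : ℝ) = q * ((((om K).repr (R * H) jj : ℤ) : ℝ) -
      (((om K).repr (Y - R * v₀) jj : ℤ) : ℝ) / q) := by
    field_simp
  rw [e2, abs_mul, abs_of_pos hq0, mul_le_mul_iff_right₀ hq0]

lemma nm_nonneg (x : K) : 0 ≤ nm x := abs_nonneg _

lemma nm_prod {ι : Type} (B : Finset ι) (f : ι → 𝓞 K) :
    nm ((∏ i ∈ B, f i : 𝓞 K) : K) = ∏ i ∈ B, nm (f i : K) := by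
  classical
  induction B using Finset.induction_on with
  | empty =>
    simp only [Finset.prod_empty]
    have h1 : ((1 : 𝓞 K) : K) = 1 := map_one (algebraMap (𝓞 K) K)
    rw [h1]
    unfold nm
    simp
  | insert a B ha ih =>
    rw [Finset.prod_insert ha, Finset.prod_insert ha, ← ih, ← nm_mul]
    congr 1

lemma nm_pow (x : K) (n : ℕ) : nm (x ^ n) = nm x ^ n := by
  unfold nm
  rw [map_pow]
  push_cast
  rw [abs_pow]

/-- sum over the solutions -/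
lemma sum_bounds {n : ℕ} {ι : Type} (P : Finset ι) (hn : P.card = n) (f : ι → ℝ) {a b : ℝ}
    (h : ∀ p ∈ P, a ≤ f p ∧ f p ≤ b) : n * a ≤ ∑ p ∈ P, f p ∧ ∑ p ∈ P, f p ≤ n * b := by
  subst hn
  constructor
  · rw [← nsmul_eq_mul]
    exact Finset.card_nsmul_le_sum _ _ _ fun p hp => (h p hp).1
  · rw [← nsmul_eq_mul]
    exact Finset.sum_le_card_nsmul _ _ _ fun p hp => (h p hp).2

end RSNN

open RSNN in
/-- [RSN] -/
theorem RSN {c : ℕ} (hc : Cst K c) (s : ℕ) (hs : 1 ≤ s) (B ε₁ : ℝ) (hε₁ : 0 < ε₁) :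
    ∃ U₁ : ℝ, ∀ (u Θ : ℝ) (γ : ℕ), 0 < u → 2 ≤ Θ → U₁ ≤ u * Real.exp (-Θ) →
    2 ^ (c + 4) ≤ u * Real.exp (-Θ) → u * Real.exp Θ ≤ 2 ^ γ →
    ∃ H₁ : ℕ, ∀ H₀ : ℕ, H₁ ≤ H₀ →
    ∀ (κ μ q e₀ : ℕ) (M : Fin 3 → 𝓞 K), QOK κ q e₀ γ →
    (∀ X (w : InfinitePlace K), 1 ≤ w (M X : K)) →
    (∀ X (w : InfinitePlace K), w (M X : K) ≤ 2 ^ μ) →
    ∃ d₀ : ℕ, ∀ d : ℕ, d₀ ≤ d → ∀ (v : Fin 3 → Fin s → Uq K q)
      (j : Fin 3 → Fin s → Cell K u Θ H₀) (h : Fin 3 → Fin s → JJ K → Fin (2 ^ d)) (i₀ : Fin s),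
    (∀ w : InfinitePlace K, w ((M 1 * ∏ i, cg (j 1 i) : 𝓞 K) : K) +
      w ((M 2 * ∏ i, cg (j 2 i) : 𝓞 K) : K) ≤
      B * w ((M 1 * ∏ i, cg (j 1 i) + M 2 * ∏ i, cg (j 2 i) : 𝓞 K) : K)) →
    ∀ (E : ℝ) (y : mixedSpace K),
      E = Ex (fun p : Cell K u Θ H₀ × (JJ K → Fin (2 ^ d)) =>
        Ws s q d (KS c s μ e₀ d) M (fun X i => rv (v X i))
          (fun X i => cg (upd j 0 i₀ p.1 X i)) (upd h 0 i₀ p.2)) →
      y = mixedEmbedding K (((M 1 * ∏ i, cg (j 1 i) + M 2 * ∏ i, cg (j 2 i) : 𝓞 K) : K) /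
        ((M 0 * ∏ i ∈ Finset.univ.erase i₀, cg (j 0 i) : 𝓞 K) : K)) →
      E ≤ (1 + ε₁) * kJ K u Θ H₀ ∧ (InBox u (Θ - 1) y → (1 - ε₁) * kJ K u Θ H₀ ≤ E) ∧
        (¬ InBox u (Θ + 1) y → E = 0) := by
  classical
  obtain ⟨ζ, hζ0, hζ8, hζB, hζu, hζl, η, hη0, hηs⟩ := consts (DK K) s B ε₁ hε₁
  refine ⟨max (2 ^ (c + 5)) (2 ^ (c + 1) / η), ?_⟩
  intro u Θ γ hu hΘ hU hU2 hγ
  refine ⟨⌈(u * Real.exp Θ) ^ DK K / ζ⌉₊, ?_⟩
  intro H₀ hH₀ κ μ q e₀ M hQ hM1 hM2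
  obtain ⟨t, ht⟩ : ∃ t : ℕ, 4 / ζ ≤ 2 ^ t := by
    obtain ⟨t, ht⟩ := pow_unbounded_of_one_lt (4 / ζ) (by norm_num : (1:ℝ) < 2)
    exact ⟨t, ht.le⟩
  refine ⟨4 * (3 * c + 4 + μ + s * e₀) + 4 * (t + c), ?_⟩
  intro d hd v j h i₀ hBc E y hE hy
  have hd1 : 3 * c + 4 + μ + s * e₀ ≤ d / 4 := by omega
  have hd2 : t + c ≤ d - d / 4 := by omega
  have hq := hQ.qpos
  have hqR : (0:ℝ) < q := by exact_mod_cast hq
  set K' : ℕ := KS c s μ e₀ d with hK'
  set R : 𝓞 K := M 0 * ∏ i ∈ Finset.univ.erase i₀, zz q d (rv (v 0 i)) (cg (j 0 i)) (h 0 i)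
    with hR
  set Y : 𝓞 K := M 1 * ∏ i, zz q d (rv (v 1 i)) (cg (j 1 i)) (h 1 i) +
    M 2 * ∏ i, zz q d (rv (v 2 i)) (cg (j 2 i)) (h 2 i) with hY
  set Q : ℝ := nm (M 0 : K) * ((q : ℝ) * 2 ^ d) ^ ((s - 1) * DK K) *
    (∏ i ∈ Finset.univ.erase i₀, nm (cg (j 0 i) : K)) with hQdef
  rw [E_eq hs M (fun X i => rv (v X i)) j h i₀ R Y hR hY Q hQdef] at hE
  -- cells
  have hv : ∀ X i, SlotOK c q γ (rv (v X i)) (cg (j X i)) := fun X i =>
    slotOK hc hu hU2 hγ (v X i) (j X i)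
  have hcell : ∀ g ∈ cellSet K u Θ, ∀ w : InfinitePlace K,
      u * Real.exp (-Θ) ≤ w (g : K) ∧ w (g : K) ≤ u * Real.exp Θ := by
    intro g hg w
    rw [mem_cellSet] at hg
    have := box_bounds hu hg w
    rwa [mixedEmbedding.normAtPlace_apply] at this
  have hcg : ∀ X i, ∀ w : InfinitePlace K, u * Real.exp (-Θ) ≤ w (cg (j X i) : K) := by
    intro X i w
    have := box_bounds hu (cg_inBox (j X i)) w
    rw [mixedEmbedding.normAtPlace_apply] at this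
    exact this.1
  have hUa : (2:ℝ) ^ (c + 5) ≤ u * Real.exp (-Θ) := (le_max_left _ _).trans hU
  have hUb : (2:ℝ) ^ (c + 1) / η ≤ u * Real.exp (-Θ) := (le_max_right _ _).trans hU
  have hg : ∀ X i, ∀ w : InfinitePlace K, 2 ^ (c + 1) ≤ η * w (cg (j X i) : K) := by
    intro X i w
    have h1 := hUb.trans (hcg X i w)
    rw [div_le_iff₀ hη0] at h1
    linarith
  -- the location of the solutions
  set y₀ : K := ((M 1 * ∏ i, cg (j 1 i) + M 2 * ∏ i, cg (j 2 i) : 𝓞 K) : K) /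
        ((M 0 * ∏ i ∈ Finset.univ.erase i₀, cg (j 0 i) : 𝓞 K) : K) with hy₀
  have hloc : ∀ (g' : 𝓞 K) (x : JJ K → Fin (2 ^ d)), PP q d K' R Y (rv (v 0 i₀)) g' x →
      ∀ w : InfinitePlace K, w ((g' : K) - y₀) ≤ w (g' : K) / 8 + w y₀ / 8 + 2 ^ (c + 2) :=
    fun g' x hP w => loc_slot hc hs hζ0 hζ8 hζB hη0 hηs hQ hM1 hd1 hv hg h i₀ hBc hP w
  have hyw : ∀ w : InfinitePlace K, normAtPlace w y = w y₀ := by
    intro w
    rw [hy, mixedEmbedding.normAtPlace_apply]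
  have hin : InBox u (Θ - 1) y → ∀ (g' : 𝓞 K) (x : JJ K → Fin (2 ^ d)),
      PP q d K' R Y (rv (v 0 i₀)) g' x → g' ∈ cellSet K u Θ := by
    intro hyb g' x hP
    rw [mem_cellSet]
    intro w
    have h1 := hloc g' x hP w
    have h2 := (box_bounds hu hyb w).1
    obtain ⟨_, h3⟩ := hyb w
    rw [hyw] at h2 h3
    have h4 : u * Real.exp (-Θ) ≤ u * Real.exp (-(Θ - 1)) := by
      refine mul_le_mul_of_nonneg_left ?_ hu.le
      rw [Real.exp_le_exp]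
      linarith
    have h5 : (2:ℝ) ^ (c + 5) ≤ w y₀ := hUa.trans (h4.trans h2)
    have h6 : (2:ℝ) ^ (c + 5) = 8 * 2 ^ (c + 2) := by
      rw [show c + 5 = (c + 2) + 3 by ring, pow_add]
      norm_num
      ring
    have h7 : 0 < w y₀ := lt_of_lt_of_le (by positivity) h5
    have h8 : w (g' : K) ≤ w y₀ + w ((g' : K) - y₀) := by
      have := Base3N.w_add w y₀ ((g' : K) - y₀)
      rwa [add_sub_cancel] at this
    have h9 : w y₀ ≤ w (g' : K) + w ((g' : K) - y₀) := by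
      have := w_sub w (g' : K) ((g' : K) - y₀)
      rwa [sub_sub_cancel] at this
    obtain ⟨h10, h11⟩ := log_near h7 (a := w (g' : K)) (by linarith) (by linarith)
    rw [mixedEmbedding.normAtPlace_apply]
    refine ⟨h10.ne', ?_⟩
    have h12 := abs_le.1 h11
    have h13 := abs_le.1 h3
    rw [abs_le]
    constructor <;> linarith [h12.1, h12.2, h13.1, h13.2]
  have hout : ∀ (g' : 𝓞 K) (x : JJ K → Fin (2 ^ d)), g' ∈ cellSet K u Θ →
      PP q d K' R Y (rv (v 0 i₀)) g' x → InBox u (Θ + 1) y := by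
    intro g' x hg' hP w
    have h1 := hloc g' x hP w
    have h2 := (hcell g' hg' w).1
    rw [mem_cellSet] at hg'
    obtain ⟨_, h3⟩ := hg' w
    rw [mixedEmbedding.normAtPlace_apply] at h3
    have h5 : (2:ℝ) ^ (c + 5) ≤ w (g' : K) := hUa.trans h2
    have h6 : (2:ℝ) ^ (c + 5) = 8 * 2 ^ (c + 2) := by
      rw [show c + 5 = (c + 2) + 3 by ring, pow_add]
      norm_num
      ring
    have h7 : 0 < w (g' : K) := lt_of_lt_of_le (by positivity) h5
    have h8 : w (g' : K) ≤ w y₀ + w ((g' : K) - y₀) := by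
      have := Base3N.w_add w y₀ ((g' : K) - y₀)
      rwa [add_sub_cancel] at this
    have h9 : w y₀ ≤ w (g' : K) + w ((g' : K) - y₀) := by
      have := w_sub w (g' : K) ((g' : K) - y₀)
      rwa [sub_sub_cancel] at this
    obtain ⟨h10, h11⟩ := log_near h7 (a := w y₀) (by linarith) (by linarith)
    rw [hyw]
    refine ⟨h10.ne', ?_⟩
    have h12 := abs_le.1 h11
    have h13 := abs_le.1 h3
    rw [abs_le]
    constructor <;> linarith [h12.1, h12.2, h13.1, h13.2]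
  -- the solutions
  set PS : Finset (𝓞 K × (JJ K → Fin (2 ^ d))) :=
    (cellSet K u Θ ×ˢ Finset.univ).filter (fun p => PP q d K' R Y (rv (v 0 i₀)) p.1 p.2) with hPS
  have hPSmem : ∀ p ∈ PS, p.1 ∈ cellSet K u Θ ∧ PP q d K' R Y (rv (v 0 i₀)) p.1 p.2 := by
    intro p hp
    rw [hPS, Finset.mem_filter, Finset.mem_product] at hp
    exact ⟨hp.1.1, hp.2⟩
  have hsum : (∑ g ∈ cellSet K u Θ, ∑ x : JJ K → Fin (2 ^ d),
        if PP q d K' R Y (rv (v 0 i₀)) g x then (⌊(H₀ : ℝ) / nm (g : K)⌋₊ : ℝ) * nm (g : K) else 0) =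
      ∑ p ∈ PS, (⌊(H₀ : ℝ) / nm (p.1 : K)⌋₊ : ℝ) * nm (p.1 : K) := by
    rw [hPS, Finset.sum_filter, Finset.sum_product]
  have hterm : ∀ p ∈ PS, (1 - ζ) * H₀ ≤ (⌊(H₀ : ℝ) / nm (p.1 : K)⌋₊ : ℝ) * nm (p.1 : K) ∧
      (⌊(H₀ : ℝ) / nm (p.1 : K)⌋₊ : ℝ) * nm (p.1 : K) ≤ H₀ := by
    intro p hp
    have h1 := hcell p.1 (hPSmem p hp).1
    have hup : 0 < u * Real.exp (-Θ) := by positivity
    have h2 : 0 < nm (p.1 : K) := by
      rw [nm_eq_prod]
      exact Finset.prod_pos fun w _ => pow_pos (lt_of_lt_of_le hup (h1 w).1) _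
    have h3 : nm (p.1 : K) ≤ (u * Real.exp Θ) ^ DK K := by
      rw [nm_eq_prod, ← sum_mult K, ← Finset.prod_pow_eq_pow_sum]
      exact Finset.prod_le_prod (fun w _ => pow_nonneg (w_nonneg w _) _)
        fun w _ => pow_le_pow_left₀ (w_nonneg w _) (h1 w).2 _
    have h4 : (u * Real.exp Θ) ^ DK K ≤ ζ * H₀ := by
      have h5 := Nat.le_of_ceil_le hH₀
      rw [div_le_iff₀ hζ0] at h5
      linarith
    have h6 : 0 ≤ (H₀ : ℝ) / nm (p.1 : K) := by positivity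
    constructor
    · have h7 := Nat.lt_floor_add_one ((H₀ : ℝ) / nm (p.1 : K))
      rw [div_lt_iff₀ h2] at h7
      linarith
    · have h7 := Nat.floor_le h6
      rwa [le_div_iff₀ h2] at h7
  set n : ℕ := PS.card with hn
  obtain ⟨hS1, hS2⟩ := sum_bounds PS hn.symm _ hterm
  -- the norm of R
  have hwR : ∀ w : InfinitePlace K, w (R : K) ≤ 2 ^ (μ + (s - 1) * (d + e₀)) := by
    intro w
    have e1 : (R : K) = (M 0 : K) * ((∏ i ∈ Finset.univ.erase i₀,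
        zz q d (rv (v 0 i)) (cg (j 0 i)) (h 0 i) : 𝓞 K) : K) := by
      rw [hR]
      push_cast
      rfl
    rw [e1, map_mul, pow_add]
    refine mul_le_mul (hM2 0 w) ?_ (w_nonneg w _) (by positivity)
    have h1 := prod_zz_le hc hQ (hv 0) (h 0) (Finset.univ.erase i₀) w
    rwa [Finset.card_erase_of_mem (Finset.mem_univ _), Finset.card_univ, Fintype.card_fin] at h1
  obtain ⟨r0, hr0, hr0'⟩ := prod_ratio (d := d) hc hq (hv 0) hη0.le (hg 0) (h 0)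
    (Finset.univ.erase i₀)
  rw [Finset.card_erase_of_mem (Finset.mem_univ _), Finset.card_univ, Fintype.card_fin] at hr0
  have hnmR : nm (R : K) = Q * nm r0 := by
    have e1 : (R : K) = (M 0 : K) * (((q : K) * 2 ^ d) ^ (s - 1) *
        ((∏ i ∈ Finset.univ.erase i₀, cg (j 0 i) : 𝓞 K) : K) * r0) := by
      rw [← hr0, hR]
      push_cast
      rfl
    have e2 : nm ((q : K) * 2 ^ d) = ((q : ℝ) * 2 ^ d) ^ DK K := by
      have := nm_natCast (K := K) (q * 2 ^ d)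
      push_cast at this
      exact this
    rw [e1, nm_mul, nm_mul, nm_mul, nm_pow, e2, nm_prod, hQdef, ← pow_mul, mul_comm (DK K)]
    ring
  obtain ⟨hr1, hr2⟩ := nm_near hζ0.le (by linarith) fun w => (hr0' w).trans hηs
  have hR0 : R ≠ 0 := by
    intro h0
    have h1 : M 0 ≠ 0 := by
      intro h2
      obtain ⟨w⟩ : Nonempty (InfinitePlace K) := inferInstance
      have h3 := hM1 0 w
      rw [h2, show ((0 : 𝓞 K) : K) = 0 from rfl, map_zero] at h3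
      linarith
    rw [hR] at h0
    rcases mul_eq_zero.1 h0 with h2 | h2
    · exact h1 h2
    · exact prod_zz_ne_zero hc hq (hv 0) (h 0) _ h2
  -- numbers
  set δ : ℝ := 2 ^ (3 * c) * 2 ^ (μ + (s - 1) * (d + e₀)) with hδ
  have hδ0 : 0 < δ := mul_pos (pow_pos two_pos _) (pow_pos two_pos _)
  have hnum : 4 * (δ + 1) ≤ ζ * K' := by
    have h1 := num2 (μ := μ) (e₀ := e₀) hs hd2
    rw [← hδ, ← hK'] at h1
    have h2 : 4 / ζ * (δ + 1) ≤ 2 ^ t * (δ + 1) := mul_le_mul_of_nonneg_right ht (by linarith)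
    have h3 := h2.trans h1
    rw [div_mul_eq_mul_div, div_le_iff₀ hζ0] at h3
    linarith
  have hK0 : (0:ℝ) ≤ K' := Nat.cast_nonneg _
  have hN1 : (0:ℝ) < (2 * (K' : ℝ) + 1) ^ DK K := pow_pos (by linarith) _
  have hkJ : 0 ≤ kJ K u Θ H₀ := div_nonneg (Nat.cast_nonneg _) (Nat.cast_nonneg _)
  have hQ0 : 0 ≤ Q := by
    rw [hQdef]
    exact mul_nonneg (mul_nonneg (nm_nonneg _) (pow_nonneg (mul_nonneg hqR.le
      (pow_nonneg zero_le_two _)) _)) (Finset.prod_nonneg fun i _ => nm_nonneg _)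
  have h1ζ : (0:ℝ) < (1 - ζ) ^ DK K := pow_pos (by linarith) _
  have h2ζ : (0:ℝ) < (1 + ζ) ^ DK K := pow_pos (by linarith) _
  rw [hsum] at hE
  set S : ℝ := ∑ p ∈ PS, (⌊(H₀ : ℝ) / nm (p.1 : K)⌋₊ : ℝ) * nm (p.1 : K) with hS
  set N1 : ℝ := (2 * (K' : ℝ) + 1) ^ DK K with hN1d
  set C : ℝ := (Fintype.card (Cell K u Θ H₀) : ℝ) with hC
  have hC0 : 0 ≤ C := Nat.cast_nonneg _
  have hQN : 0 ≤ Q / N1 := div_nonneg hQ0 hN1.le
  have hEle : E ≤ kJ K u Θ H₀ * (n * (Q / N1)) := by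
    have e1 : kJ K u Θ H₀ * (n * (Q / N1)) = (n * (H₀ : ℝ)) * (Q / N1) / C := by
      unfold kJ
      rw [← hC]
      ring
    rw [hE, e1]
    exact div_le_div_of_nonneg_right (mul_le_mul_of_nonneg_right hS2 hQN) hC0
  have hEge : (1 - ζ) * (kJ K u Θ H₀ * (n * (Q / N1))) ≤ E := by
    have e1 : (1 - ζ) * (kJ K u Θ H₀ * (n * (Q / N1))) =
        (n * ((1 - ζ) * (H₀ : ℝ))) * (Q / N1) / C := by
      unfold kJ
      rw [← hC]
      ring
    rw [hE, e1]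
    exact div_le_div_of_nonneg_right (mul_le_mul_of_nonneg_right hS1 hQN) hC0
  -- counting
  set A : Finset (𝓞 K) := PS.image (fun p => (2 : 𝓞 K) ^ d * p.1 +
    ∑ j, (((p.2 j : ℕ) : 𝓞 K)) * om K j) with hA
  have hAcard : A.card = n := by
    rw [hA, Finset.card_image_of_injective]
    intro p p' hpp
    obtain ⟨h1, h2⟩ := cell_inj hpp
    exact Prod.ext h1 h2
  have hcount : (n : ℝ) * nm (R : K) ≤ (1 + ζ) ^ DK K * N1 := by
    have h1 := upper hc hR0 hwR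
      (fun jj => (((om K).repr (Y - R * rv (v 0 i₀)) jj : ℤ) : ℝ) / q) hK0 A (by
        intro H hH jj
        rw [hA] at hH
        obtain ⟨p, hp, rfl⟩ := Finset.mem_image.1 hH
        exact (PP_iff hq R Y (rv (v 0 i₀)) p.1 p.2).1 (hPSmem p hp).2 jj)
    rw [hAcard, ← hδ] at h1
    refine h1.trans ?_
    rw [hN1d, ← mul_pow]
    refine pow_le_pow_left₀ (by linarith) ?_ _
    have e1 : (1 + ζ) * (2 * (K' : ℝ) + 1) = 2 * K' + 1 + 2 * (ζ * K') + ζ := by ring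
    rw [e1]
    linarith
  have hcount2 : InBox u (Θ - 1) y → (1 - ζ) ^ DK K * N1 ≤ (n : ℝ) * nm (R : K) := by
    intro hyb
    have hKδ : (1:ℝ) ≤ K' - 2 ^ (3 * c) * 2 ^ (μ + (s - 1) * (d + e₀)) := by
      rw [← hδ]
      have h9 : ζ * K' ≤ 1 / 8 * K' := mul_le_mul_of_nonneg_right hζ8 hK0
      linarith
    obtain ⟨A', hA1, hA2⟩ := lower hc hR0 hwR
      (fun jj => (((om K).repr (Y - R * rv (v 0 i₀)) jj : ℤ) : ℝ) / q) hKδ
    have h1 : A' ⊆ A := by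
      intro H hH
      obtain ⟨g', x, hgx⟩ := exists_cell d H
      have hP : PP q d K' R Y (rv (v 0 i₀)) g' x := by
        rw [PP_iff hq, ← hgx]
        exact hA1 H hH
      rw [hA, Finset.mem_image]
      refine ⟨(g', x), ?_, hgx.symm⟩
      rw [hPS, Finset.mem_filter, Finset.mem_product]
      exact ⟨⟨hin hyb g' x hP, Finset.mem_univ _⟩, hP⟩
    have h2 : (A'.card : ℝ) ≤ n := by
      rw [← hAcard]
      exact_mod_cast Finset.card_le_card h1
    have h3 : (A'.card : ℝ) * nm (R : K) ≤ n * nm (R : K) :=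
      mul_le_mul_of_nonneg_right h2 (nm_nonneg _)
    refine le_trans ?_ (hA2.trans h3)
    rw [hN1d, ← mul_pow, ← hδ]
    refine pow_le_pow_left₀ (mul_nonneg (by linarith) (by linarith)) ?_ _
    have e1 : (1 - ζ) * (2 * (K' : ℝ) + 1) = 2 * K' + 1 - 2 * (ζ * K') - ζ := by ring
    rw [e1]
    linarith
  rw [hnmR] at hcount hcount2
  have hn0 : (0:ℝ) ≤ n := Nat.cast_nonneg _
  have hnQ : 0 ≤ (n : ℝ) * Q := mul_nonneg hn0 hQ0
  refine ⟨?_, ?_, ?_⟩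
  · refine hEle.trans ?_
    rw [mul_comm (1 + ε₁)]
    refine mul_le_mul_of_nonneg_left (le_trans ?_ hζu) hkJ
    rw [le_div_iff₀ h1ζ, mul_div_assoc', div_mul_eq_mul_div, div_le_iff₀ hN1]
    have h1 : (n : ℝ) * Q * (1 - ζ) ^ DK K ≤ n * Q * nm r0 := mul_le_mul_of_nonneg_left hr1 hnQ
    linarith
  · intro hyb
    refine le_trans ?_ hEge
    have h1 := hcount2 hyb
    have h2 : (n : ℝ) * Q * nm r0 ≤ n * Q * (1 + ζ) ^ DK K := mul_le_mul_of_nonneg_left hr2 hnQ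
    have h3 : (1 - ζ) ^ DK K / (1 + ζ) ^ DK K ≤ n * (Q / N1) := by
      rw [div_le_iff₀ h2ζ, mul_div_assoc', div_mul_eq_mul_div, le_div_iff₀ hN1]
      linarith
    have h4 : 1 - ε₁ ≤ (1 - ζ) * (n * (Q / N1)) := by
      refine hζl.trans ?_
      rw [mul_div_assoc]
      exact mul_le_mul_of_nonneg_left h3 (by linarith)
    have h5 := mul_le_mul_of_nonneg_right h4 hkJ
    linarith
  · intro hyb
    have hPS0 : PS = ∅ := by
      rw [Finset.eq_empty_iff_forall_notMem]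
      intro p hp
      exact hyb (hout p.1 p.2 (hPSmem p hp).1 (hPSmem p hp).2)
    have hS0 : S = 0 := by
      rw [hS, hPS0, Finset.sum_empty]
    rw [hE, hS0, zero_mul, zero_div]

end Pool.Agent.H366.NK
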