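import Mathlib

/-! # [UNIN] unisolvent points, general version -/

set_option autoImplicit false

namespace Pool.Agent.H366.NK

/-- `1` or a coordinate -/
def vo {P : Type} (v : P → ℝ) : Option P → ℝ
  | none => 1
  | some j => v j

/-- the basis functions `φ_i(t) v_{g(1)} ⋯ v_{g(deg i)}` -/
noncomputable def Psi {I P Tt : Type} (deg : I → ℕ) (φ : I → Tt → ℝ) (v : P → ℝ) (t : Tt)
    (ig : Σ i : I, (Fin (deg i) → Option P)) : ℝ :=
  φ ig.1 t * ∏ k, vo v (ig.2 k)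

namespace UniNN

open Finset

variable {I U Q Tt : Type} [Fintype I] [Fintype U] [Fintype Q]

/-- the polynomial in the variables `Q` -/
noncomputable def pQ {n : ℕ} (y : (Fin n → Option (U ⊕ Q)) → ℝ) (u : U → ℝ) :
    MvPolynomial Q ℝ :=
  ∑ g : Fin n → Option (U ⊕ Q), (∏ k, (g k).elim 1
    (Sum.elim (fun a => MvPolynomial.C (u a)) (fun q => MvPolynomial.X q))) *
      MvPolynomial.C (y g)

/-- the polynomial in the variables `U` -/
noncomputable def pU {n : ℕ} (y : (Fin n → Option (U ⊕ Q)) → ℝ) (l : Q → ℝ) :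
    MvPolynomial U ℝ :=
  ∑ g : Fin n → Option (U ⊕ Q), (∏ k, (g k).elim 1
    (Sum.elim (fun a => MvPolynomial.X a) (fun q => MvPolynomial.C (l q)))) *
      MvPolynomial.C (y g)

lemma eval_pQ {n : ℕ} (y : (Fin n → Option (U ⊕ Q)) → ℝ) (u : U → ℝ) (l : Q → ℝ) :
    MvPolynomial.eval l (pQ y u) =
      ∑ g : Fin n → Option (U ⊕ Q), (∏ k, vo (Sum.elim u l) (g k)) * y g := by
  unfold pQ
  rw [map_sum]
  refine sum_congr rfl fun g _ => ?_
  rw [map_mul, map_prod, MvPolynomial.eval_C]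
  congr 1
  refine prod_congr rfl fun k _ => ?_
  rcases g k with _ | (a | q)
  · simp [vo]
  · simp [vo]
  · simp [vo]

lemma eval_pU {n : ℕ} (y : (Fin n → Option (U ⊕ Q)) → ℝ) (u : U → ℝ) (l : Q → ℝ) :
    MvPolynomial.eval u (pU y l) =
      ∑ g : Fin n → Option (U ⊕ Q), (∏ k, vo (Sum.elim u l) (g k)) * y g := by
  unfold pU
  rw [map_sum]
  refine sum_congr rfl fun g _ => ?_
  rw [map_mul, map_prod, MvPolynomial.eval_C]
  congr 1
  refine prod_congr rfl fun k _ => ?_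
  rcases g k with _ | (a | q)
  · simp [vo]
  · simp [vo]
  · simp [vo]

/-- a polynomial which vanishes on a nonempty open set is zero -/
lemma open_zero (p : MvPolynomial U ℝ) (Os : Set (U → ℝ)) (hO : IsOpen Os) (hO' : Os.Nonempty)
    (h : ∀ u ∈ Os, MvPolynomial.eval u p = 0) : p = 0 := by
  obtain ⟨u0, hu0⟩ := hO'
  obtain ⟨r, hr, hball⟩ := Metric.isOpen_iff.mp hO u0 hu0
  refine MvPolynomial.funext_set (fun j => Metric.ball (u0 j) r) (fun j => ?_) fun x hx => ?_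
  · rw [Real.ball_eq_Ioo]
    exact Set.Ioo_infinite (by linarith)
  · rw [map_zero]
    apply h
    apply hball
    rw [← ball_pi _ hr] at hx
    exact hx

lemma sum_Psi (deg : I → ℕ) (φ : I → Tt → ℝ) (v : U ⊕ Q → ℝ) (t : Tt)
    (y : (Σ i : I, (Fin (deg i) → Option (U ⊕ Q))) → ℝ) :
    ∑ ig, Psi deg φ v t ig * y ig = ∑ i, φ i t *
      ∑ g : Fin (deg i) → Option (U ⊕ Q), (∏ k, vo v (g k)) * y ⟨i, g⟩ := by
  rw [Fintype.sum_sigma]
  refine sum_congr rfl fun i _ => ?_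
  rw [mul_sum]
  refine sum_congr rfl fun g _ => ?_
  unfold Psi
  simp only
  ring

lemma key (deg : I → ℕ) (φ : I → Tt → ℝ) (L : Tt → Q → ℝ) (𝒰 : Set Tt)
    (hind : ∀ h : I → MvPolynomial Q ℝ,
      (∀ t ∈ 𝒰, ∑ i, φ i t * MvPolynomial.eval (L t) (h i) = 0) → h = 0)
    (Os : Set (U → ℝ)) (hO : IsOpen Os) (hO' : Os.Nonempty)
    (y : (Σ i : I, (Fin (deg i) → Option (U ⊕ Q))) → ℝ)
    (hy : ∀ u ∈ Os, ∀ t ∈ 𝒰, ∑ ig, Psi deg φ (Sum.elim u (L t)) t ig * y ig = 0)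
    (i : I) (v : U ⊕ Q → ℝ) :
    ∑ g : Fin (deg i) → Option (U ⊕ Q), (∏ k, vo v (g k)) * y ⟨i, g⟩ = 0 := by
  have h1 : ∀ u ∈ Os, (fun i => pQ (fun g => y ⟨i, g⟩) u) = 0 := by
    intro u hu
    apply hind
    intro t ht
    rw [← hy u hu t ht, sum_Psi]
    refine sum_congr rfl fun i _ => ?_
    rw [eval_pQ]
  have h2 : pU (fun g => y ⟨i, g⟩) (v ∘ Sum.inr) = 0 := by
    refine open_zero _ Os hO hO' fun u hu => ?_
    rw [eval_pU, ← eval_pQ, congrFun (h1 u hu) i]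
    simp
  have h3 := eval_pU (fun g => y ⟨i, g⟩) (v ∘ Sum.inl) (v ∘ Sum.inr)
  rw [h2, map_zero, Sum.elim_comp_inl_inr] at h3
  exact h3.symm

end UniNN

open UniNN Finset in
/-- [UNIN] -/
theorem unisolvent (I U Q Tt : Type) [Fintype I] [Fintype U] [Fintype Q] [DecidableEq U]
    [DecidableEq Q] [PseudoMetricSpace Tt] (deg : I → ℕ) (φ : I → Tt → ℝ) (L : Tt → Q → ℝ)
    (𝒰 : Set Tt) (hφc : ∀ i, ContinuousOn (φ i) 𝒰) (hLc : ContinuousOn L 𝒰)
    (hind : ∀ h : I → MvPolynomial Q ℝ,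
      (∀ t ∈ 𝒰, ∑ i, φ i t * MvPolynomial.eval (L t) (h i) = 0) → h = 0)
    (Os : Set (U → ℝ)) (hO : IsOpen Os) (hO' : Os.Nonempty) :
    ∃ (N : ℕ) (ud : Fin N → U → ℝ) (td : Fin N → Tt),
      (∀ c, ud c ∈ Os ∧ td c ∈ 𝒰) ∧
      (∀ y : (Σ i : I, (Fin (deg i) → Option (U ⊕ Q))) → ℝ,
        (∀ c, ∑ ig, Psi deg φ (Sum.elim (ud c) (L (td c))) (td c) ig * y ig = 0) →
        ∀ (i : I) (v : U ⊕ Q → ℝ), ∑ g : Fin (deg i) → Option (U ⊕ Q),
          (∏ k, vo v (g k)) * y ⟨i, g⟩ = 0) ∧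
      ∀ ε : ℝ, 0 < ε → ∃ δ : ℝ, 0 < δ ∧ ∀ (c : Fin N) (u : U → ℝ), ∀ t ∈ 𝒰,
        (∀ j, |u j - ud c j| ≤ δ) → dist t (td c) ≤ δ →
        ∃ ϑ : Fin N → ℝ, (∀ c', |ϑ c'| ≤ ε) ∧
          ∀ y : (Σ i : I, (Fin (deg i) → Option (U ⊕ Q))) → ℝ,
            ∑ ig, Psi deg φ (Sum.elim u (L t)) t ig * y ig =
              ∑ ig, Psi deg φ (Sum.elim (ud c) (L (td c))) (td c) ig * y ig +
              ∑ c', ϑ c' * ∑ ig, Psi deg φ (Sum.elim (ud c') (L (td c'))) (td c') ig * y ig := by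
  classical
  let J := Σ i : I, (Fin (deg i) → Option (U ⊕ Q))
  let Ψ : (U → ℝ) × Tt → J → ℝ := fun p => Psi deg φ (Sum.elim p.1 (L p.2)) p.2
  set Ω : Set ((U → ℝ) × Tt) := Os ×ˢ 𝒰 with hΩ
  set G : Set (J → ℝ) := Ψ '' Ω with hG
  obtain ⟨b, hbG, hspan, hli⟩ := exists_linearIndependent ℝ G
  have hfin : Finite b := hli.finite
  obtain ⟨N, ⟨e⟩⟩ := Finite.exists_equiv_fin b
  let f : Fin N → J → ℝ := fun c => (e.symm c : J → ℝ)
  have hfli : LinearIndependent ℝ f := hli.comp e.symm e.symm.injective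
  have hfr : Set.range f = b := by
    ext x
    constructor
    · rintro ⟨c, rfl⟩
      exact (e.symm c).2
    · intro hx
      exact ⟨e ⟨x, hx⟩, by simp [f]⟩
  have hex : ∀ c, ∃ p : (U → ℝ) × Tt, p ∈ Ω ∧ Ψ p = f c := by
    intro c
    obtain ⟨p, hp, h⟩ := hbG (e.symm c).2
    exact ⟨p, hp, h⟩
  choose pd hpd hpf using hex
  -- the functional
  let dl : (J → ℝ) → (J → ℝ) →ₗ[ℝ] ℝ := fun y =>
    { toFun := fun x => ∑ ig, x ig * y ig
      map_add' := fun x x' => by simp [add_mul, sum_add_distrib]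
      map_smul' := fun c x => by simp [mul_sum, mul_assoc] }
  have hdl : ∀ y x, dl y x = ∑ ig, x ig * y ig := fun y x => rfl
  have hi : ∀ y : J → ℝ, (∀ d, ∑ ig, Ψ (pd d) ig * y ig = 0) →
      ∀ (i : I) (v : U ⊕ Q → ℝ), ∑ g : Fin (deg i) → Option (U ⊕ Q),
          (∏ k, vo v (g k)) * y ⟨i, g⟩ = 0 := by
    intro y hy
    refine key deg φ L 𝒰 hind Os hO hO' y ?_
    intro u hu t ht
    have hmem : Ψ (u, t) ∈ Submodule.span ℝ b := by
      rw [hspan]
      exact Submodule.subset_span ⟨(u, t), ⟨hu, ht⟩, rfl⟩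
    have hle : Submodule.span ℝ b ≤ LinearMap.ker (dl y) := by
      rw [Submodule.span_le]
      intro x hx
      rw [← hfr] at hx
      obtain ⟨c, rfl⟩ := hx
      show dl y (f c) = 0
      rw [hdl, ← hpf c]
      exact hy c
    exact hle hmem
  have hall : ∀ p : (U → ℝ) × Tt, Ψ p ∈ Submodule.span ℝ b := by
    intro p
    rw [← Subspace.forall_mem_dualAnnihilator_apply_eq_zero_iff]
    intro F hF
    have hFe : ∀ x, F x = ∑ ig, x ig * F (fun j => if ig = j then 1 else 0) := by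
      intro x
      rw [LinearMap.pi_apply_eq_sum_univ F x]
      rfl
    rw [hFe]
    have h1 := hi (fun ig => F (fun j => if ig = j then 1 else 0)) (by
      intro d
      have h2 := hFe (f d)
      rw [← hpf d] at h2
      rw [← h2, hpf d]
      rw [Submodule.mem_dualAnnihilator] at hF
      apply hF
      apply Submodule.subset_span
      rw [← hfr]
      exact ⟨d, rfl⟩)
    show ∑ ig : J, Psi deg φ (Sum.elim p.1 (L p.2)) p.2 ig * _ = 0
    rw [sum_Psi]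
    refine sum_eq_zero fun i _ => ?_
    rw [h1 i, mul_zero]
  -- coordinates
  let Lc : (Fin N → ℝ) →ₗ[ℝ] (J → ℝ) := Fintype.linearCombination ℝ f
  have hL : ∀ x, Lc x = ∑ c, x c • f c := fun x => rfl
  have hLi : LinearMap.ker Lc = ⊥ := by
    rw [LinearMap.ker_eq_bot]
    exact hfli.fintypeLinearCombination_injective
  obtain ⟨R, hR⟩ := LinearMap.exists_leftInverse_of_injective Lc hLi
  have hRc : Continuous R := LinearMap.continuous_of_finiteDimensional R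
  refine ⟨N, fun d => (pd d).1, fun d => (pd d).2, fun d => hpd d, hi, ?_⟩
  intro ε hε
  suffices H : ∀ d : Fin N, ∀ᶠ δ in nhdsWithin (0 : ℝ) (Set.Ioi 0), ∀ (u : U → ℝ), ∀ t ∈ 𝒰,
        (∀ j, |u j - (pd d).1 j| ≤ δ) → dist t (pd d).2 ≤ δ →
        ∃ ϑ : Fin N → ℝ, (∀ c, |ϑ c| ≤ ε) ∧
          ∀ y : J → ℝ,
            ∑ ig, Ψ (u, t) ig * y ig = ∑ ig, Ψ (pd d) ig * y ig +
              ∑ c, ϑ c * ∑ ig, Ψ (pd c) ig * y ig by
    have H1 := Filter.eventually_all.2 H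
    obtain ⟨δ, h1, h2⟩ := (H1.and self_mem_nhdsWithin).exists
    exact ⟨δ, h2, h1⟩
  intro d
  set Fd : (U → ℝ) × Tt → Fin N → ℝ := fun p => R (Ψ p - f d) with hFd
  have hct : ContinuousOn Fd (Set.univ ×ˢ 𝒰) := by
    refine hRc.comp_continuousOn ?_
    refine ContinuousOn.sub ?_ continuousOn_const
    rw [continuousOn_pi]
    rintro ⟨i, g⟩
    show ContinuousOn (fun p : (U → ℝ) × Tt => φ i p.2 * ∏ k, vo (Sum.elim p.1 (L p.2)) (g k))
      (Set.univ ×ˢ 𝒰)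
    refine ContinuousOn.mul ?_ ?_
    · exact (hφc i).comp continuousOn_snd fun p hp => hp.2
    · refine continuousOn_finset_prod _ fun k _ => ?_
      rcases g k with _ | (a | q)
      · exact continuousOn_const
      · exact ((continuous_apply a).comp continuous_fst).continuousOn
      · have h1 : ContinuousOn (fun p : (U → ℝ) × Tt => L p.2) (Set.univ ×ˢ 𝒰) :=
          hLc.comp continuousOn_snd fun p hp => hp.2
        exact (continuous_apply q).comp_continuousOn h1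
  have hF0 : Fd (pd d) = 0 := by
    simp only [hFd]
    rw [hpf d, sub_self, map_zero]
  rw [Metric.continuousOn_iff] at hct
  obtain ⟨δ, hδ, hδ2⟩ := hct (pd d) ⟨Set.mem_univ _, (hpd d).2⟩ ε hε
  filter_upwards [Ioo_mem_nhdsGT hδ] with δ' hδ' u t ht hu hdt
  have hdist : dist (u, t) (pd d) < δ := by
    rw [Prod.dist_eq, max_lt_iff]
    constructor
    · refine lt_of_le_of_lt ((dist_pi_le_iff hδ'.1.le).2 fun j => ?_) hδ'.2
      rw [Real.dist_eq]
      exact hu j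
    · exact lt_of_le_of_lt hdt hδ'.2
  have h1 := hδ2 (u, t) ⟨Set.mem_univ _, ht⟩ hdist
  rw [hF0, dist_zero_right] at h1
  refine ⟨Fd (u, t), fun c => ?_, ?_⟩
  · have := norm_le_pi_norm (Fd (u, t)) c
    rw [Real.norm_eq_abs] at this
    linarith
  · intro y
    have hm : (Ψ (u, t) - f d : J → ℝ) ∈ Submodule.span ℝ b :=
      Submodule.sub_mem _ (hall (u, t)) (Submodule.subset_span (by rw [← hfr]; exact ⟨d, rfl⟩))
    rw [← hfr, ← Fintype.range_linearCombination] at hm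
    obtain ⟨x, hx⟩ := hm
    have hx' : Lc x = Ψ (u, t) - f d := hx
    have h2 : Fd (u, t) = x := by
      simp only [hFd]
      rw [← hx']
      exact LinearMap.congr_fun hR x
    rw [h2]
    have h3 : Ψ (u, t) = f d + ∑ c, x c • f c := by
      rw [← hL, hx']
      abel
    have h4 : ∀ c, ∑ ig, Ψ (pd c) ig * y ig = dl y (f c) := by
      intro c
      rw [hdl, ← hpf c]
    have h5 : ∑ ig, Ψ (u, t) ig * y ig = dl y (Ψ (u, t)) := rfl
    rw [h5, h3, map_add, map_sum, h4]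
    congr 1
    refine sum_congr rfl fun c _ => ?_
    rw [map_smul, h4, smul_eq_mul]

end Pool.Agent.H366.NK
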