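import Pool.Agent.H366.NK.SVc

/-!
# Zagier's conjecture: definitions

Zagier's groups `ker δ_n` and the relations, tensored with a field `k` of coefficients (`k = ℚ` or
`k = ℝ`), and his single-valued polylogarithms `𝓛_n` on `ℂ`.
-/

set_option autoImplicit false

namespace Pool.Agent.H366.NK

open NumberField
open scoped TensorProduct

open Classical in
/-- Zagier's single-valued polylogarithm `𝓛_n`, `n ≥ 2`, on `ℂ`: for `|z| ≤ 1` the real part (`n`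
odd) or the imaginary part (`n` even) of `∑_{k < n} β_k log|z|^k Li_{n-k}(z)`, `β_k = 2^k B_k / k!`,
and `𝓛_n(z) = (-1)^(n-1) 𝓛_n(1/z)` for `|z| > 1`. -/
noncomputable def Lcal (n : ℕ) (z : ℂ) : ℝ :=
  if ‖z‖ ≤ 1 then SVc n z else (-1) ^ (n - 1) * SVc n z⁻¹

section F

variable (k : Type) [Field k] [Algebra k ℝ] (F : Type) [Field F]

variable {F} in
omit [Algebra k ℝ] in
open Classical in
/-- the class of `x` in `F^* ⊗ k`; it is `0` for `x = 0` -/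
noncomputable def clk (x : F) : k ⊗[ℤ] Additive Fˣ :=
  if h : x = 0 then 0 else (1 : k) ⊗ₜ[ℤ] Additive.ofMul (Units.mk0 x h)

/-- `{x} ↦ 𝓛_n(σ x)`, extended linearly -/
noncomputable def Lsum (n : ℕ) (σ : F →+* ℂ) : (F →₀ k) →ₗ[k] ℝ :=
  Finsupp.linearCombination k fun x => Lcal n (σ x)

omit [Algebra k ℝ] in
/-- `δ_2 : {x} ↦ (1 - x) ∧ x` (and `{0}, {1} ↦ 0`) -/
noncomputable def dZ2 : (F →₀ k) →ₗ[k] ExteriorAlgebra k (k ⊗[ℤ] Additive Fˣ) :=
  Finsupp.linearCombination k fun x => ExteriorAlgebra.ι k (clk k (1 - x)) *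
    ExteriorAlgebra.ι k (clk k x)

omit [Algebra k ℝ] in
/-- `δ : {x} ↦ {x} ⊗ x ∈ (k[F] / R) ⊗ F^*` (and `{0} ↦ 0`) -/
noncomputable def dZ (R : Submodule k (F →₀ k)) :
    (F →₀ k) →ₗ[k] ((F →₀ k) ⧸ R) ⊗[k] (k ⊗[ℤ] Additive Fˣ) :=
  Finsupp.linearCombination k fun x => (R.mkQ (Finsupp.single x 1)) ⊗ₜ[k] clk k x

/-- Zagier's relations `R_n(F) ⊗ k ⊆ k[F]`, `n ≥ 2`: the elements of the kernel of `δ_n` on which the
`𝓛_n(σ ·)` vanish for all embeddings `σ : F → ℂ`. Here `δ_2{x} = (1 - x) ∧ x` and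
`δ_n{x} = {x} ⊗ x ∈ (k[F] / R_{n-1}) ⊗ F^*` for `n ≥ 3`. (The values at `n = 0, 1` are not used.) -/
noncomputable def RZ : ℕ → Submodule k (F →₀ k)
  | 0 => ⊤
  | 1 => ⊤
  | 2 => LinearMap.ker (dZ2 k F) ⊓ ⨅ σ : F →+* ℂ, LinearMap.ker (Lsum k F 2 σ)
  | n + 3 => LinearMap.ker (dZ k F (RZ (n + 2))) ⊓
      ⨅ σ : F →+* ℂ, LinearMap.ker (Lsum k F (n + 3) σ)

omit [Algebra k ℝ] in
/-- `ker δ_n ⊗ k` (as a subspace of `k[F]`), `n ≥ 2`, for given relations `R_m ⊗ k`: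
`δ_2{x} = (1 - x) ∧ x` and `δ_n{x} = {x} ⊗ x ∈ (k[F] / R_{n-1}) ⊗ F^*` for `n ≥ 3` -/
noncomputable def KR (R : ℕ → Submodule k (F →₀ k)) : ℕ → Submodule k (F →₀ k)
  | 0 => ⊤
  | 1 => ⊤
  | 2 => LinearMap.ker (dZ2 k F)
  | n + 3 => LinearMap.ker (dZ k F (R (n + 2)))

variable [NumberField F]

omit [NumberField F] in
/-- the places (that is, embeddings up to complex conjugation) which contribute in weight `n`: all
if `n` is odd, the complex ones if `n` is even -/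
abbrev Pl (n : ℕ) : Type := {w : InfinitePlace F // Odd n ∨ w.IsComplex}

open Classical in
noncomputable instance (n : ℕ) : Fintype (Pl F n) := inferInstance

noncomputable instance (n : ℕ) : DecidableEq (Pl F n) := Classical.decEq _

omit [NumberField F] in
/-- the regulator `{x} ↦ (𝓛_n(σ_w x))_w` -/
noncomputable def regZ (n : ℕ) : (F →₀ k) →ₗ[k] (Pl F n → ℝ) :=
  LinearMap.pi fun w => Lsum k F n w.1.embedding

/-- Let `Λ n ⊆ ℝ^{d_n}` be the image of `K_{2n-1}(F) ⊗ ℚ` under the Borel regulator. The theorems of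
Borel (`lattice`: `Λ n` has a `ℚ`-basis which is a basis of `ℝ^{d_n}`, and its determinant is a
rational multiple of `d_F^{1/2} ζ_F(n) π^{-n d_{n-1}}`) and of Beilinson-Deligne and de Jeu
(`reg_mem`: the regulators of the elements of `ker δ_n` belong to `Λ n`). -/
structure BorelBD (R : ℕ → Submodule ℚ (F →₀ ℚ)) (Λ : (n : ℕ) → Submodule ℚ (Pl F n → ℝ)) :
    Prop where
  lattice : ∀ n : ℕ, 2 ≤ n → ∃ (b : Pl F n → Pl F n → ℝ) (q : ℚ), LinearIndependent ℝ b ∧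
    Λ n = Submodule.span ℚ (Set.range b) ∧ q ≠ 0 ∧
    dedekindZeta F n = (((q : ℝ) * Real.pi ^ (n * Fintype.card (Pl F (n - 1))) /
      Real.sqrt |(discr F : ℝ)| * (Matrix.of b).det : ℝ) : ℂ)
  reg_mem : ∀ n : ℕ, 2 ≤ n → ∀ ξ ∈ KR ℚ F R n, regZ ℚ F n ξ ∈ Λ n

end F

end Pool.Agent.H366.NK
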